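import Pool.Agent.R341.Powers2

set_option autoImplicit false

open Polynomial

namespace Pool.Agent.R341.Powers

open Pool.Agent.R341.Greedy

/-- the conjugate -/
noncomputable def zz (ρ φ : ℝ) : ℂ := (ρ : ℂ) * Complex.exp (φ * Complex.I)

lemma norm_zz {ρ φ : ℝ} (h : 0 ≤ ρ) : ‖zz ρ φ‖ = ρ := by
  rw [zz, norm_mul, Complex.norm_exp_ofReal_mul_I, mul_one, Complex.norm_real,
    Real.norm_of_nonneg h]

lemma zz_pow (ρ φ : ℝ) (k : ℕ) : zz ρ φ ^ k = zz (ρ ^ k) (k * φ) := by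
  rw [zz, zz, mul_pow, ← Complex.exp_nat_mul]
  push_cast
  congr 2
  ring

lemma zz_re (ρ φ : ℝ) : (zz ρ φ).re = ρ * Real.cos φ := by
  rw [zz, Complex.re_ofReal_mul, Complex.exp_ofReal_mul_I_re]

lemma zz_im (ρ φ : ℝ) : (zz ρ φ).im = ρ * Real.sin φ := by
  rw [zz, Complex.im_ofReal_mul, Complex.exp_ofReal_mul_I_im]

namespace Polar

variable {d : ℕ} {ρ φ : ℝ}

lemma root' (h : Polar d ρ φ) : zz ρ φ ^ d = zz ρ φ + 1 := h.root

lemma φ_pos (h : Polar d ρ φ) (hd : 4 ≤ d) : 0 < φ := by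
  have hd' : (4 : ℝ) ≤ d := by exact_mod_cast hd
  refine lt_trans ?_ h.lb
  apply div_pos (by positivity)
  linarith

lemma norm_pow_zz (h : Polar d ρ φ) (k : ℕ) : ‖zz ρ φ ^ k‖ = ρ ^ k := by
  rw [norm_pow, norm_zz (by linarith [h.one_lt])]

/-- `|z - 1|` for small angles -/
lemma mode1 (h : Polar d ρ φ) (hd : 4 ≤ d) {k : ℕ} (hk : 4 * k ≤ d - 1) :
    (8 * k : ℝ) / (2 * d - 1) * ρ ^ k ≤ ‖zz ρ φ ^ k - 1‖ := by
  have hd' : (4 : ℝ) ≤ d := by exact_mod_cast hd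
  have hpi := Real.pi_pos
  have hk' : (4 : ℝ) * k ≤ d - 1 := by
    have : 4 * k + 1 ≤ d := by omega
    have h2 : ((4 * k + 1 : ℕ) : ℝ) ≤ d := by exact_mod_cast this
    push_cast at h2
    linarith
  have hφ := h.φ_pos hd
  have hkφ : (k : ℝ) * φ ≤ Real.pi / 2 := by
    have h1 := h.ub
    rw [lt_div_iff₀ (by linarith)] at h1
    have h2 : (4 * k : ℝ) * φ ≤ (d - 1) * φ := mul_le_mul_of_nonneg_right hk' hφ.le
    nlinarith
  have hlb : (8 * k : ℝ) / (2 * d - 1) ≤ 2 / Real.pi * (k * φ) := by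
    have h1 := h.lb
    have h3 : 2 * Real.pi / ((d : ℝ) - 1 / 2) = 4 * Real.pi / (2 * d - 1) := by
      have : (d : ℝ) - 1 / 2 ≠ 0 := by linarith
      have : 2 * (d : ℝ) - 1 ≠ 0 := by linarith
      field_simp
      ring
    rw [h3] at h1
    have h4 : 2 / Real.pi * (k * (4 * Real.pi / (2 * d - 1))) = (8 * k : ℝ) / (2 * d - 1) := by
      have : 2 * (d : ℝ) - 1 ≠ 0 := by linarith
      field_simp
      ring
    rw [← h4]
    gcongr
  have hsin : 2 / Real.pi * (k * φ) ≤ Real.sin (k * φ) :=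
    Real.mul_le_sin (by positivity) hkφ
  have him : ρ ^ k * Real.sin (k * φ) ≤ ‖zz ρ φ ^ k - 1‖ := by
    have h1 := Complex.im_le_norm (zz ρ φ ^ k - 1)
    rw [Complex.sub_im, Complex.one_im, sub_zero, zz_pow, zz_im] at h1
    rw [zz_pow]
    exact h1
  refine le_trans ?_ him
  rw [mul_comm (ρ ^ k)]
  have h1 := h.one_lt
  have : 0 ≤ ρ ^ k := by positivity
  exact mul_le_mul_of_nonneg_right (hlb.trans hsin) this

/-- `|z - 1|` for large angles -/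
lemma mode2 (h : Polar d ρ φ) (hd : 4 ≤ d) {k : ℕ} (hk1 : 2 * d - 1 ≤ 8 * k)
    (hk2 : 4 * k ≤ 3 * (d - 1)) :
    1 + (ρ ^ k) ^ 2 ≤ ‖zz ρ φ ^ k - 1‖ ^ 2 := by
  have hd' : (4 : ℝ) ≤ d := by exact_mod_cast hd
  have hpi := Real.pi_pos
  have hk1' : (2 * d - 1 : ℝ) ≤ 8 * k := by
    have : 2 * d ≤ 8 * k + 1 := by omega
    have h2 : ((2 * d : ℕ) : ℝ) ≤ (8 * k + 1 : ℕ) := by exact_mod_cast this
    push_cast at h2
    linarith
  have hk2' : (4 * k : ℝ) ≤ 3 * (d - 1) := by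
    have : 4 * k + 3 ≤ 3 * d := by omega
    have h2 : ((4 * k + 3 : ℕ) : ℝ) ≤ (3 * d : ℕ) := by exact_mod_cast this
    push_cast at h2
    linarith
  have hφ := h.φ_pos hd
  have hlow : Real.pi / 2 ≤ k * φ := by
    have h1 := h.lb
    rw [div_lt_iff₀ (by linarith)] at h1
    have h2 : (2 * d - 1 : ℝ) * φ ≤ 8 * k * φ := mul_le_mul_of_nonneg_right hk1' hφ.le
    nlinarith
  have hup : k * φ ≤ Real.pi + Real.pi / 2 := by
    have h1 := h.ub
    rw [lt_div_iff₀ (by linarith)] at h1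
    have h2 : (4 * k : ℝ) * φ ≤ 3 * (d - 1) * φ := mul_le_mul_of_nonneg_right hk2' hφ.le
    nlinarith
  have hcos : Real.cos (k * φ) ≤ 0 := Real.cos_nonpos_of_pi_div_two_le_of_le hlow hup
  have h1 := h.one_lt
  have hρ : 0 ≤ ρ ^ k := by positivity
  rw [← Complex.normSq_eq_norm_sq, Complex.normSq_apply, zz_pow, Complex.sub_re, Complex.sub_im,
    zz_re, zz_im, Complex.one_re, Complex.one_im]
  have h3 : (ρ ^ k * Real.cos (k * φ) - 1) * (ρ ^ k * Real.cos (k * φ) - 1)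
      + (ρ ^ k * Real.sin (k * φ) - 0) * (ρ ^ k * Real.sin (k * φ) - 0)
      = (ρ ^ k) ^ 2 - 2 * (ρ ^ k * Real.cos (k * φ)) + 1 := by
    linear_combination (ρ ^ k) ^ 2 * Real.sin_sq_add_cos_sq (k * φ)
  rw [h3]
  have : ρ ^ k * Real.cos (k * φ) ≤ 0 := mul_nonpos_of_nonneg_of_nonpos hρ hcos
  linarith

/-- the modulus of the conjugate is smaller than `β` -/
lemma lt_beta (h : Polar d ρ φ) (hd : 4 ≤ d) {β : ℝ} (hβ1 : 1 < β) (hβ : β ^ d = β + 1) :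
    ρ < β := by
  have hd' : (4 : ℝ) ≤ d := by exact_mod_cast hd
  have hpi := Real.pi_pos
  have hφ := h.φ_pos hd
  have h1 := h.one_lt
  have hφ2 : φ < Real.pi := by
    refine lt_of_lt_of_le h.ub ?_
    rw [div_le_iff₀ (by linarith)]
    nlinarith
  have hcos : Real.cos φ < 1 := by
    rw [← Real.cos_zero]
    exact Real.cos_lt_cos_of_nonneg_of_le_pi le_rfl hφ2.le hφ
  have h2 : ρ ^ d < ρ + 1 := by
    have h3 : ρ ^ d = ‖zz ρ φ + 1‖ := by rw [← h.root', h.norm_pow_zz]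
    rw [h3]
    apply lt_of_pow_lt_pow_left₀ 2 (by linarith)
    rw [← Complex.normSq_eq_norm_sq, Complex.normSq_apply, Complex.add_re, Complex.add_im,
      zz_re, zz_im, Complex.one_re, Complex.one_im]
    have h4 := Real.sin_sq_add_cos_sq φ
    have h5 : (ρ * Real.cos φ + 1) * (ρ * Real.cos φ + 1) + (ρ * Real.sin φ + 0) * (ρ * Real.sin φ + 0)
        = ρ ^ 2 + 2 * ρ * Real.cos φ + 1 := by
      linear_combination ρ ^ 2 * h4
    rw [h5]
    nlinarith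
  by_contra hcon
  push Not at hcon
  have h3 : ρ ^ d = ρ * ρ ^ (d - 1) := by
    rw [← pow_succ', Nat.sub_add_cancel (by omega)]
  have h4 : β * β ^ (d - 1) = β + 1 := by
    rw [← pow_succ', Nat.sub_add_cancel (by omega), hβ]
  have h5 : β ^ (d - 1) ≤ ρ ^ (d - 1) := by gcongr
  have h6 : ρ * β ^ (d - 1) ≤ ρ ^ d := by
    rw [h3]; exact mul_le_mul_of_nonneg_left h5 (by linarith)
  have h7 : 1 < β ^ (d - 1) := one_lt_pow₀ hβ1 (by omega)
  have h8 : β * (ρ * β ^ (d - 1)) = ρ * (β + 1) := by rw [← h4]; ring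
  nlinarith

lemma ne_pow (h : Polar d ρ φ) (hd : 4 ≤ d) {β : ℝ} (hβ1 : 1 < β) (hβ : β ^ d = β + 1)
    {k : ℕ} (hk : 1 ≤ k) : zz ρ φ ^ k ≠ (β : ℂ) ^ k := by
  intro heq
  have h1 := congrArg norm heq
  rw [h.norm_pow_zz, norm_pow, Complex.norm_real, Real.norm_of_nonneg (by linarith)] at h1
  have h2 := h.lt_beta hd hβ1 hβ
  have h3 : ρ ^ k < β ^ k := pow_lt_pow_left₀ h2 (by linarith [h.one_lt]) (by omega)
  linarith

/-- lower bound for the cosine -/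
lemma cos_ge (h : Polar d ρ φ) (hd : 4 ≤ d) :
    1 - 98697 / 20000 / ((d : ℝ) - 1) ^ 2 ≤ Real.cos (φ / 2) := by
  have hd' : (4 : ℝ) ≤ d := by exact_mod_cast hd
  have h1 := Real.one_sub_sq_div_two_le_cos (x := φ / 2)
  have hφ := h.φ_pos hd
  have hub := h.ub
  rw [lt_div_iff₀ (by linarith)] at hub
  have h2 : φ / 2 ≤ 3.1416 / (d - 1) := by
    rw [le_div_iff₀ (by linarith)]
    have := Real.pi_lt_d4
    linarith
  have h3 : (φ / 2) ^ 2 ≤ (3.1416 / (d - 1)) ^ 2 := by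
    apply pow_le_pow_left₀ (by linarith) h2
  have h4 : (3.1416 / ((d : ℝ) - 1)) ^ 2 / 2 ≤ 98697 / 20000 / ((d : ℝ) - 1) ^ 2 := by
    have h5 : 0 < ((d : ℝ) - 1) ^ 2 := by
      have : (0 : ℝ) < d - 1 := by linarith
      positivity
    rw [div_pow, div_div, div_le_div_iff₀ (by positivity) (by positivity)]
    nlinarith
  linarith

end Polar

/-- upper bound for `β` -/
lemma beta_le {d : ℕ} (hd : 2 ≤ d) {β x : ℝ} (hβ1 : 1 < β) (hβ : β ^ d = β + 1) (hx1 : 1 ≤ x)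
    (hx : x + 1 ≤ x ^ d) : β ≤ x := by
  by_contra hcon
  push Not at hcon
  have h3 : x ^ d = x * x ^ (d - 1) := by
    rw [← pow_succ', Nat.sub_add_cancel (by omega)]
  have h4 : β * β ^ (d - 1) = β + 1 := by
    rw [← pow_succ', Nat.sub_add_cancel (by omega), hβ]
  have h5 : x ^ (d - 1) ≤ β ^ (d - 1) := by gcongr
  have h6 : 1 ≤ x ^ (d - 1) := one_le_pow₀ hx1
  -- β (x+1) ≤ β x x^{d-1} ≤ x (β+1)
  have h7 : β * (x + 1) ≤ β * (x * x ^ (d - 1)) := by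
    apply mul_le_mul_of_nonneg_left _ (by linarith)
    rw [← h3]; exact hx
  have h8 : β * (x * x ^ (d - 1)) ≤ x * (β + 1) := by
    rw [← h4]
    have : β * (x * x ^ (d - 1)) = x * (β * x ^ (d - 1)) := by ring
    rw [this]
    gcongr
  nlinarith

/-- lower bound for `ρ` -/
lemma Polar.rho_ge {d : ℕ} {ρ φ : ℝ} (h : Polar d ρ φ) (hd : 4 ≤ d) {x : ℝ} (hx1 : 1 ≤ x)
    (hx : x ^ d ≤ (1 - 98697 / 20000 / ((d : ℝ) - 1) ^ 2) * (1 + x)) : x ≤ ρ := by
  by_contra hcon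
  push Not at hcon
  have h1 := h.one_lt
  have hc := h.cos_ge hd
  have hbig := h.big
  have h2 : ρ ^ d = ρ * ρ ^ (d - 1) := by
    rw [← pow_succ', Nat.sub_add_cancel (by omega)]
  have h3 : x ^ d = x * x ^ (d - 1) := by
    rw [← pow_succ', Nat.sub_add_cancel (by omega)]
  have h4 : ρ ^ (d - 1) < x ^ (d - 1) := pow_lt_pow_left₀ hcon (by linarith) (by omega)
  have h5 : ρ ^ d * (1 + x) < x ^ d * (1 + ρ) := by
    have e1 : ρ ^ d < x ^ d := pow_lt_pow_left₀ hcon (by linarith) (by omega)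
    have e2 : ρ ^ d * x < x ^ d * ρ := by
      rw [h2, h3]
      have : 0 < ρ * x := by nlinarith
      nlinarith
    nlinarith
  have h6 : x ^ d * (1 + ρ) ≤ Real.cos (φ / 2) * (1 + x) * (1 + ρ) := by
    apply mul_le_mul_of_nonneg_right _ (by linarith)
    exact hx.trans (mul_le_mul_of_nonneg_right hc (by linarith))
  have h7 : (1 + ρ) * Real.cos (φ / 2) * (1 + x) ≤ ρ ^ d * (1 + x) :=
    mul_le_mul_of_nonneg_right hbig (by linarith)
  nlinarith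

/-- the numerical check for one exponent `k` with gap parameter `q` -/
def chkk (d B R S k q : ℕ) : Bool :=
  decide (B ^ k * B ^ (k * (q - 1)) < S ^ (k * q) + S ^ k * B ^ (k * (q - 1))) &&
  decide (B ^ k < 2 * S ^ k) && decide (1 ≤ q) &&
  (if 4 * k ≤ d - 1 then
    decide ((2 * d - 1) * S ^ (k + k * q) + 8 * k * R ^ k * S ^ (k * q) < 8 * k * R ^ k * R ^ (k * q))
  else
    decide (4 * k ≤ 3 * (d - 1)) &&
    decide (S ^ (2 * k + 2 * (k * q)) <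
      (S ^ (2 * k) + R ^ (2 * k)) * (R ^ (k * q) - S ^ (k * q)) ^ 2))

/-- all exponents -/
def chk (d B R S : ℕ) (qs : List ℕ) : Bool :=
  decide (S < R) && decide (0 < S) && decide (S ≤ B) &&
  decide ((S + B) * S ^ (d - 1) ≤ B ^ d) &&
  decide (R ^ d * (20000 * (d - 1) ^ 2) + 98697 * ((S + R) * S ^ (d - 1)) ≤
    20000 * (d - 1) ^ 2 * ((S + R) * S ^ (d - 1))) &&
  (List.range qs.length).all (fun i => chkk d B R S (i + 1) (qs.getD i 1)) &&
  decide (R ^ (qs.length + 1) * S ^ (qs.length + 1) + S ^ (2 * (qs.length + 1))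
    < R ^ (2 * (qs.length + 1)))

lemma chkk_sound {d B R S k q : ℕ} (hd : 4 ≤ d) (hS : 0 < S) (hk : 1 ≤ k) (hSR : S < R)
    {β : ℝ} (hβ1 : 1 < β) (hβ : β ^ d = β + 1) (hB : β ≤ (B : ℝ) / S)
    {ρ φ : ℝ} (h : Polar d ρ φ) (hR : (R : ℝ) / S ≤ ρ)
    (hchk : chkk d B R S k q = true) : ¬ Parry (β ^ k) := by
  have hS' : (0 : ℝ) < S := by exact_mod_cast hS
  have hSR' : (S : ℝ) < R := by exact_mod_cast hSR
  have hR0 : (0 : ℝ) < R := by linarith
  simp only [chkk, Bool.and_eq_true, decide_eq_true_eq] at hchk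
  obtain ⟨⟨⟨c1, c2⟩, c3⟩, c4⟩ := hchk
  have hconj : Conj β (zz ρ φ) := conj_of_root (by omega) hβ h.root'
  have hρ1 := h.one_lt
  have hx1 : 1 < (R : ℝ) / S := by rw [one_lt_div hS']; exact hSR'
  have hγ1 : 1 < β ^ k := one_lt_pow₀ hβ1 (by omega)
  have hBk : β ^ k ≤ (B : ℝ) ^ k / (S : ℝ) ^ k := by
    rw [← div_pow]; exact pow_le_pow_left₀ (by linarith) hB k
  have hγ2 : β ^ k < 2 := by
    refine lt_of_le_of_lt hBk ?_
    rw [div_lt_iff₀ (by positivity)]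
    exact_mod_cast c2
  have hgap : (β ^ k - 1) * (β ^ k) ^ (q - 1) < 1 := by
    have h1 : (β ^ k) ^ (q - 1) ≤ ((B : ℝ) ^ k / (S : ℝ) ^ k) ^ (q - 1) :=
      pow_le_pow_left₀ (by linarith) hBk _
    have h2 : (β ^ k - 1) * (β ^ k) ^ (q - 1)
        ≤ ((B : ℝ) ^ k / (S : ℝ) ^ k - 1) * ((B : ℝ) ^ k / (S : ℝ) ^ k) ^ (q - 1) := by
      apply mul_le_mul (by linarith) h1 (by positivity) (by linarith)
    refine lt_of_le_of_lt h2 ?_
    have h3 : ((B : ℝ) ^ k / (S : ℝ) ^ k - 1) * ((B : ℝ) ^ k / (S : ℝ) ^ k) ^ (q - 1)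
        = ((B : ℝ) ^ k * (B : ℝ) ^ (k * (q - 1)) - (S : ℝ) ^ k * (B : ℝ) ^ (k * (q - 1)))
          / (S : ℝ) ^ (k * q) := by
      have e1 : (S : ℝ) ^ (k * q) = (S : ℝ) ^ k * ((S : ℝ) ^ k) ^ (q - 1) := by
        rw [pow_mul, ← pow_succ', Nat.sub_add_cancel c3]
      rw [e1, div_pow, ← pow_mul]
      field_simp
    rw [h3, div_lt_one (by positivity)]
    have c1' : (B : ℝ) ^ k * (B : ℝ) ^ (k * (q - 1))
        < (S : ℝ) ^ (k * q) + (S : ℝ) ^ k * (B : ℝ) ^ (k * (q - 1)) := by exact_mod_cast c1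
    linarith
  have hg1 : 1 < ‖zz ρ φ ^ k‖ := by
    rw [h.norm_pow_zz]; exact one_lt_pow₀ hρ1 (by omega)
  apply crit_B hconj hγ1 hγ2 hgap hg1
  rw [h.norm_pow_zz, ← pow_mul]
  have hRk : (R : ℝ) ^ k / (S : ℝ) ^ k ≤ ρ ^ k := by
    rw [← div_pow]; exact pow_le_pow_left₀ (by positivity) hR k
  have hRkq : (R : ℝ) ^ (k * q) / (S : ℝ) ^ (k * q) ≤ ρ ^ (k * q) := by
    rw [← div_pow]; exact pow_le_pow_left₀ (by positivity) hR _
  have hgt : 0 < (R : ℝ) ^ (k * q) / (S : ℝ) ^ (k * q) - 1 := by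
    rw [← div_pow]
    have := one_lt_pow₀ hx1 (show k * q ≠ 0 by positivity)
    linarith
  split_ifs at c4 with hcase
  · rw [decide_eq_true_eq] at c4
    have hm := h.mode1 hd hcase
    have hdpos : (0 : ℝ) < 2 * d - 1 := by
      have : (4 : ℝ) ≤ d := by exact_mod_cast hd
      linarith
    have hk0 : (0 : ℝ) < k := by exact_mod_cast (show 0 < k by omega)
    have c4' : ((2 * d - 1 : ℕ) : ℝ) * (S : ℝ) ^ (k + k * q) + 8 * k * (R : ℝ) ^ k * (S : ℝ) ^ (k * q)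
        < 8 * k * (R : ℝ) ^ k * (R : ℝ) ^ (k * q) := by exact_mod_cast c4
    rw [Nat.cast_sub (by omega)] at c4'
    push_cast at c4'
    have hfin : 1 < (8 * k : ℝ) / (2 * d - 1) * ((R : ℝ) ^ k / (S : ℝ) ^ k)
        * ((R : ℝ) ^ (k * q) / (S : ℝ) ^ (k * q) - 1) := by
      have e1 : (8 * k : ℝ) / (2 * d - 1) * ((R : ℝ) ^ k / (S : ℝ) ^ k)
        * ((R : ℝ) ^ (k * q) / (S : ℝ) ^ (k * q) - 1)
        = (8 * k * (R : ℝ) ^ k * (R : ℝ) ^ (k * q) - 8 * k * (R : ℝ) ^ k * (S : ℝ) ^ (k * q))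
          / ((2 * d - 1) * (S : ℝ) ^ (k + k * q)) := by
        rw [pow_add]
        field_simp
      rw [e1, one_lt_div (by positivity)]
      linarith
    refine lt_of_lt_of_le hfin ?_
    apply mul_le_mul _ (by linarith) hgt.le (norm_nonneg _)
    refine le_trans ?_ hm
    exact mul_le_mul_of_nonneg_left hRk (by positivity)
  · simp only [Bool.and_eq_true, decide_eq_true_eq] at c4
    obtain ⟨c5, c6⟩ := c4
    have hm := h.mode2 hd (k := k) (by omega) c5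
    have hRS : S ^ (k * q) ≤ R ^ (k * q) := Nat.pow_le_pow_left hSR.le _
    have c6' : (S : ℝ) ^ (2 * k + 2 * (k * q)) < ((S : ℝ) ^ (2 * k) + (R : ℝ) ^ (2 * k))
        * ((R : ℝ) ^ (k * q) - (S : ℝ) ^ (k * q)) ^ 2 := by
      have := (Nat.cast_lt (α := ℝ)).2 c6
      push_cast [Nat.cast_sub hRS] at this
      exact this
    have hfin : 1 < (1 + ((R : ℝ) ^ k / (S : ℝ) ^ k) ^ 2)
        * ((R : ℝ) ^ (k * q) / (S : ℝ) ^ (k * q) - 1) ^ 2 := by
      have e1 : (1 + ((R : ℝ) ^ k / (S : ℝ) ^ k) ^ 2)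
        * ((R : ℝ) ^ (k * q) / (S : ℝ) ^ (k * q) - 1) ^ 2
        = ((S : ℝ) ^ (2 * k) + (R : ℝ) ^ (2 * k))
        * ((R : ℝ) ^ (k * q) - (S : ℝ) ^ (k * q)) ^ 2 / (S : ℝ) ^ (2 * k + 2 * (k * q)) := by
        rw [pow_add, mul_comm 2 k, mul_comm 2 (k * q), pow_mul _ k 2, pow_mul _ (k * q) 2,
          pow_mul _ k 2]
        field_simp
      rw [e1, one_lt_div (by positivity)]
      exact c6'
    have hsq : 1 < (‖zz ρ φ ^ k - 1‖ * (ρ ^ (k * q) - 1)) ^ 2 := by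
      refine lt_of_lt_of_le hfin ?_
      rw [mul_pow]
      apply mul_le_mul _ _ (by positivity) (by positivity)
      · refine le_trans ?_ hm
        gcongr
      · gcongr
    have h0 : 0 ≤ ‖zz ρ φ ^ k - 1‖ * (ρ ^ (k * q) - 1) := by
      apply mul_nonneg (norm_nonneg _)
      linarith
    nlinarith

lemma chk_sound {d B R S : ℕ} {qs : List ℕ} (hd : 4 ≤ d) (hchk : chk d B R S qs = true)
    {β : ℝ} (hβ1 : 1 < β) (hβ : β ^ d = β + 1) {k : ℕ} (hk : 1 ≤ k) : ¬ Parry (β ^ k) := by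
  obtain ⟨ρ, φ, h⟩ := exists_polar d hd
  simp only [chk, Bool.and_eq_true, decide_eq_true_eq, List.all_eq_true, List.mem_range] at hchk
  obtain ⟨⟨⟨⟨⟨⟨c1, c2⟩, c3⟩, c4⟩, c5⟩, c6⟩, c7⟩ := hchk
  have hS' : (0 : ℝ) < S := by exact_mod_cast c2
  have hSR' : (S : ℝ) < R := by exact_mod_cast c1
  have hSB' : (S : ℝ) ≤ B := by exact_mod_cast c3
  have hd' : (4 : ℝ) ≤ d := by exact_mod_cast hd
  have hpow : ∀ x : ℕ, ((x : ℝ) / S) ^ d = (x : ℝ) ^ d / (S * (S : ℝ) ^ (d - 1)) := by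
    intro x
    rw [div_pow, ← pow_succ', Nat.sub_add_cancel (by omega)]
  have hB : β ≤ (B : ℝ) / S := by
    apply beta_le (by omega) hβ1 hβ
    · rw [one_le_div hS']; exact hSB'
    · rw [hpow, div_add_one hS'.ne', div_le_div_iff₀ hS' (by positivity)]
      have c4' : ((S : ℝ) + B) * (S : ℝ) ^ (d - 1) ≤ (B : ℝ) ^ d := by exact_mod_cast c4
      nlinarith
  have hR : (R : ℝ) / S ≤ ρ := by
    apply h.rho_ge hd
    · rw [one_le_div hS']; exact hSR'.le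
    · rw [hpow]
      have hd1 : (0 : ℝ) < (d - 1) := by linarith
      have e1 : (1 - 98697 / 20000 / ((d : ℝ) - 1) ^ 2) * (1 + (R : ℝ) / S)
          = ((20000 * ((d : ℝ) - 1) ^ 2 - 98697) * (S + R) * (S : ℝ) ^ (d - 1))
            / (20000 * ((d : ℝ) - 1) ^ 2) / (S * (S : ℝ) ^ (d - 1)) := by
        field_simp
      rw [e1]
      gcongr
      rw [le_div_iff₀ (by positivity)]
      have c5' : (R : ℝ) ^ d * (20000 * ((d - 1 : ℕ) : ℝ) ^ 2)
          + 98697 * (((S : ℝ) + R) * (S : ℝ) ^ (d - 1))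
          ≤ 20000 * ((d - 1 : ℕ) : ℝ) ^ 2 * (((S : ℝ) + R) * (S : ℝ) ^ (d - 1)) := by
        exact_mod_cast c5
      rw [Nat.cast_sub (by omega)] at c5'
      push_cast at c5'
      linarith
  rcases Nat.lt_or_ge qs.length k with hlt | hge
  · -- golden
    have hconj : Conj β (zz ρ φ) := conj_of_root (by omega) hβ h.root'
    have hρ1 := h.one_lt
    have hg1 : 1 < ‖zz ρ φ ^ k‖ := by
      rw [h.norm_pow_zz]; exact one_lt_pow₀ hρ1 (by omega)
    apply crit_golden hconj hg1 _ (h.ne_pow hd hβ1 hβ hk)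
    rw [h.norm_pow_zz]
    set K := qs.length + 1 with hK
    have c7' : (R : ℝ) ^ K * (S : ℝ) ^ K + (S : ℝ) ^ (2 * K) < (R : ℝ) ^ (2 * K) := by
      exact_mod_cast c7
    set y : ℝ := ((R : ℝ) / S) ^ K with hy
    have hy1 : 1 < y := one_lt_pow₀ (by rw [one_lt_div hS']; exact hSR') (by omega)
    have hy2 : y + 1 < y ^ 2 := by
      have e1 : y ^ 2 - y - 1 = ((R : ℝ) ^ (2 * K) - (R : ℝ) ^ K * (S : ℝ) ^ K - (S : ℝ) ^ (2 * K))
          / (S : ℝ) ^ (2 * K) := by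
        rw [hy, div_pow, mul_comm 2 K, pow_mul, pow_mul]
        field_simp
      have : 0 < y ^ 2 - y - 1 := by
        rw [e1]
        apply div_pos (by linarith) (by positivity)
      linarith
    have hyk : y ≤ ρ ^ k := by
      calc y ≤ ρ ^ K := pow_le_pow_left₀ (by positivity) hR K
        _ ≤ ρ ^ k := pow_le_pow_right₀ hρ1.le (by omega)
    nlinarith
  · have := c6 (k - 1) (by omega)
    rw [Nat.sub_add_cancel hk] at this
    exact chkk_sound hd c2 hk c1 hβ1 hβ hB h hR this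

end Pool.Agent.R341.Powers
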