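import Pool.Agent.R341.Desc30c

set_option autoImplicit false

open MvPolynomial

namespace Pool.Agent.R341.BinForm

open Pool.Agent.R341.Desc30

/-- `g = λ (α x + β y)^d` with `λ, α, β ∈ K` -/
def IsSummand (K : Subfield ℂ) (d : ℕ) (g : MvPolynomial (Fin 2) ℂ) : Prop :=
  ∃ l a b : ℂ, l ∈ K ∧ a ∈ K ∧ b ∈ K ∧ g = C l * (C a * X 0 + C b * X 1) ^ d

/-- the `K`-representations of `f` of length `r` as a sum of `d`-th powers of linear forms, up to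
the order of the summands -/
def Reps (K : Subfield ℂ) (d r : ℕ) (f : MvPolynomial (Fin 2) ℂ) :
    Set (Multiset (MvPolynomial (Fin 2) ℂ)) :=
  {M | Multiset.card M = r ∧ (∀ g ∈ M, IsSummand K d g) ∧ M.sum = f}

/-- the `K`-length `L_K(f)` of the form `f` of degree `d` -/
noncomputable def kLength (K : Subfield ℂ) (d : ℕ) (f : MvPolynomial (Fin 2) ℂ) : ℕ :=
  sInf {r : ℕ | (Reps K d r f).Nonempty}

/-- the set of different `K`-minimal representations of `f` -/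
def MinReps (K : Subfield ℂ) (d : ℕ) (f : MvPolynomial (Fin 2) ℂ) :
    Set (Multiset (MvPolynomial (Fin 2) ℂ)) :=
  Reps K d (kLength K d f) f

/-- the field of rational numbers inside `ℂ` -/
noncomputable def KQ : Subfield ℂ := (algebraMap ℚ ℂ).fieldRange

/-- `4 x⁴ + 6 x² y² + y⁴` -/
noncomputable def f0 : MvPolynomial (Fin 2) ℂ := C 4 * X 0 ^ 4 + C 6 * X 0 ^ 2 * X 1 ^ 2 + X 1 ^ 4

/-- `3 x⁴ + ½ (x+y)⁴ + ½ (-x+y)⁴` -/
noncomputable def M1 : Multiset (MvPolynomial (Fin 2) ℂ) :=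
  {C 3 * X 0 ^ 4, C (1 / 2) * (X 0 + X 1) ^ 4, C (1 / 2) * (-X 0 + X 1) ^ 4}

/-- `¾ y⁴ + ⅛ (2x+y)⁴ + ⅛ (-2x+y)⁴` -/
noncomputable def M2 : Multiset (MvPolynomial (Fin 2) ℂ) :=
  {C (3 / 4) * X 1 ^ 4, C (1 / 8) * (C 2 * X 0 + X 1) ^ 4, C (1 / 8) * (-C 2 * X 0 + X 1) ^ 4}

/-- the summand attached to a rational triple -/
noncomputable def T (l a b : ℚ) : MvPolynomial (Fin 2) ℂ :=
  C (l : ℂ) * (C (a : ℂ) * X 0 + C (b : ℂ) * X 1) ^ 4

lemma isSummand_iff (g : MvPolynomial (Fin 2) ℂ) :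
    IsSummand KQ 4 g ↔ ∃ l a b : ℚ, g = T l a b := by
  constructor
  · rintro ⟨l, a, b, ⟨l', rfl⟩, ⟨a', rfl⟩, ⟨b', rfl⟩, rfl⟩
    exact ⟨l', a', b', rfl⟩
  · rintro ⟨l, a, b, rfl⟩
    exact ⟨l, a, b, ⟨l, rfl⟩, ⟨a, rfl⟩, ⟨b, rfl⟩, rfl⟩

lemma eval_T (l a b x y : ℚ) :
    eval ![(x : ℂ), (y : ℂ)] (T l a b) = ((l * (a * x + b * y) ^ 4 : ℚ) : ℂ) := by
  simp [T]

lemma eval_f0 (x y : ℚ) :
    eval ![(x : ℂ), (y : ℂ)] f0 = ((4 * x ^ 4 + 6 * x ^ 2 * y ^ 2 + y ^ 4 : ℚ) : ℂ) := by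
  simp [f0]

/-- coefficient equations -/
lemma coeff_eqs {l1 a1 b1 l2 a2 b2 l3 a3 b3 : ℚ}
    (h : T l1 a1 b1 + T l2 a2 b2 + T l3 a3 b3 = f0) :
    l1 * a1 ^ 4 + l2 * a2 ^ 4 + l3 * a3 ^ 4 = 4 ∧
    l1 * a1 ^ 3 * b1 + l2 * a2 ^ 3 * b2 + l3 * a3 ^ 3 * b3 = 0 ∧
    l1 * a1 ^ 2 * b1 ^ 2 + l2 * a2 ^ 2 * b2 ^ 2 + l3 * a3 ^ 2 * b3 ^ 2 = 1 ∧
    l1 * a1 * b1 ^ 3 + l2 * a2 * b2 ^ 3 + l3 * a3 * b3 ^ 3 = 0 ∧
    l1 * b1 ^ 4 + l2 * b2 ^ 4 + l3 * b3 ^ 4 = 1 := by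
  have key : ∀ x y : ℚ, l1 * (a1 * x + b1 * y) ^ 4 + l2 * (a2 * x + b2 * y) ^ 4
      + l3 * (a3 * x + b3 * y) ^ 4 = 4 * x ^ 4 + 6 * x ^ 2 * y ^ 2 + y ^ 4 := by
    intro x y
    have h1 := congrArg (eval ![(x : ℂ), (y : ℂ)]) h
    rw [map_add, map_add, eval_T, eval_T, eval_T, eval_f0] at h1
    exact_mod_cast h1
  have k0 := key 1 0
  have k1 := key 1 1
  have k2 := key 1 (-1)
  have k3 := key 1 2
  have k4 := key 1 (-2)
  refine ⟨?_, ?_, ?_, ?_, ?_⟩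
  · linear_combination k0
  · linear_combination (1 / 4) * ((2 / 3) * k1 - (2 / 3) * k2 - (1 / 12) * k3 + (1 / 12) * k4)
  · linear_combination (1 / 6) * (-(5 / 4) * k0 + (2 / 3) * k1 + (2 / 3) * k2 - (1 / 24) * k3
      - (1 / 24) * k4)
  · linear_combination (1 / 4) * (-(1 / 6) * k1 + (1 / 6) * k2 + (1 / 12) * k3 - (1 / 12) * k4)
  · linear_combination (1 / 4) * k0 - (1 / 6) * k1 - (1 / 6) * k2 + (1 / 24) * k3 + (1 / 24) * k4

/-- the catalecticant of a sum of three fourth powers -/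
lemma catalecticant {l1 a1 b1 l2 a2 b2 l3 a3 b3 c0 c1 c2 c3 c4 : ℚ}
    (e0 : l1 * a1 ^ 4 + l2 * a2 ^ 4 + l3 * a3 ^ 4 = c0)
    (e1 : l1 * a1 ^ 3 * b1 + l2 * a2 ^ 3 * b2 + l3 * a3 ^ 3 * b3 = c1)
    (e2 : l1 * a1 ^ 2 * b1 ^ 2 + l2 * a2 ^ 2 * b2 ^ 2 + l3 * a3 ^ 2 * b3 ^ 2 = c2)
    (e3 : l1 * a1 * b1 ^ 3 + l2 * a2 * b2 ^ 3 + l3 * a3 * b3 ^ 3 = c3)
    (e4 : l1 * b1 ^ 4 + l2 * b2 ^ 4 + l3 * b3 ^ 4 = c4) :
    c0 * (c2 * c4 - c3 ^ 2) - c1 * (c1 * c4 - c2 * c3) + c2 * (c1 * c3 - c2 ^ 2)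
      = l1 * l2 * l3 * ((a1 * b2 - a2 * b1) * (a1 * b3 - a3 * b1) * (a2 * b3 - a3 * b2)) ^ 2 := by
  subst e0 e1 e2 e3 e4
  ring

/-- apolarity -/
lemma apolar1 {l1 a1 b1 l2 a2 b2 l3 a3 b3 c0 c1 c2 c3 : ℚ}
    (e0 : l1 * a1 ^ 4 + l2 * a2 ^ 4 + l3 * a3 ^ 4 = c0)
    (e1 : l1 * a1 ^ 3 * b1 + l2 * a2 ^ 3 * b2 + l3 * a3 ^ 3 * b3 = c1)
    (e2 : l1 * a1 ^ 2 * b1 ^ 2 + l2 * a2 ^ 2 * b2 ^ 2 + l3 * a3 ^ 2 * b3 ^ 2 = c2)
    (e3 : l1 * a1 * b1 ^ 3 + l2 * a2 * b2 ^ 3 + l3 * a3 * b3 ^ 3 = c3) :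
    b1 * b2 * b3 * c0 - (a1 * b2 * b3 + b1 * a2 * b3 + b1 * b2 * a3) * c1
      + (a1 * a2 * b3 + a1 * b2 * a3 + b1 * a2 * a3) * c2 - a1 * a2 * a3 * c3 = 0 := by
  subst e0 e1 e2 e3
  ring

lemma apolar2 {l1 a1 b1 l2 a2 b2 l3 a3 b3 c1 c2 c3 c4 : ℚ}
    (e1 : l1 * a1 ^ 3 * b1 + l2 * a2 ^ 3 * b2 + l3 * a3 ^ 3 * b3 = c1)
    (e2 : l1 * a1 ^ 2 * b1 ^ 2 + l2 * a2 ^ 2 * b2 ^ 2 + l3 * a3 ^ 2 * b3 ^ 2 = c2)
    (e3 : l1 * a1 * b1 ^ 3 + l2 * a2 * b2 ^ 3 + l3 * a3 * b3 ^ 3 = c3)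
    (e4 : l1 * b1 ^ 4 + l2 * b2 ^ 4 + l3 * b3 ^ 4 = c4) :
    b1 * b2 * b3 * c1 - (a1 * b2 * b3 + b1 * a2 * b3 + b1 * b2 * a3) * c2
      + (a1 * a2 * b3 + a1 * b2 * a3 + b1 * a2 * a3) * c3 - a1 * a2 * a3 * c4 = 0 := by
  subst e1 e2 e3 e4
  ring

lemma T_zero : T 0 0 0 = 0 := by simp [T]

lemma T_inf {l a : ℚ} (h : l * a ^ 4 = 3) : T l a 0 = C 3 * X 0 ^ 4 := by
  have h1 : ((l : ℂ)) * (a : ℂ) ^ 4 = 3 := by exact_mod_cast h
  rw [T, ← h1]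
  simp only [C_mul, C_pow, Rat.cast_zero, C_0]
  ring

lemma T_fin {l a b μ ρ : ℚ} (h : l * b ^ 4 = μ) (ha : a = ρ * b) :
    T l a b = C (μ : ℂ) * (C (ρ : ℂ) * X 0 + X 1) ^ 4 := by
  rw [T, ha, ← h]
  push_cast
  simp only [C_mul, C_pow]
  ring

lemma swap12 {α : Type*} (a b c : α) : ({a, b, c} : Multiset α) = {b, a, c} := by
  simp only [Multiset.insert_eq_cons]
  exact Multiset.cons_swap a b {c}

lemma swap23 {α : Type*} (a b c : α) : ({a, b, c} : Multiset α) = {a, c, b} := by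
  have h : ({b, c} : Multiset α) = {c, b} := Multiset.pair_comm b c
  calc ({a, b, c} : Multiset α) = a ::ₘ ({b, c} : Multiset α) := rfl
    _ = a ::ₘ ({c, b} : Multiset α) := by rw [h]
    _ = {a, c, b} := rfl

/-- the case of a vanishing `b3` -/
lemma case_inf {l1 a1 b1 l2 a2 b2 l3 a3 b3 : ℚ}
    (h : T l1 a1 b1 + T l2 a2 b2 + T l3 a3 b3 = f0) (hb : b3 = 0) :
    ({T l1 a1 b1, T l2 a2 b2, T l3 a3 b3} : Multiset (MvPolynomial (Fin 2) ℂ)) = M1 := by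
  obtain ⟨e0, e1, e2, e3, e4⟩ := coeff_eqs h
  have hcat := catalecticant e0 e1 e2 e3 e4
  have hap1 := apolar1 e0 e1 e2 e3
  have hap2 := apolar2 e1 e2 e3 e4
  subst hb
  have ha3 : a3 ≠ 0 := by
    rintro rfl
    norm_num at hcat
  have hb1 : b1 ≠ 0 := by
    rintro rfl
    norm_num at hcat
  have hb2 : b2 ≠ 0 := by
    rintro rfl
    norm_num at hcat
  have h1 : a1 * b2 + b1 * a2 = 0 := by
    have : a3 * (a1 * b2 + b1 * a2) = 0 := by linear_combination hap1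
    exact (mul_eq_zero.1 this).resolve_left ha3
  have h2 : b1 * b2 + a1 * a2 = 0 := by
    have : a3 * (b1 * b2 + a1 * a2) = 0 := by linear_combination -hap2
    exact (mul_eq_zero.1 this).resolve_left ha3
  have h3 : a1 ^ 2 = b1 ^ 2 := by
    have : b2 * (a1 ^ 2 - b1 ^ 2) = 0 := by linear_combination a1 * h1 - b1 * h2
    have := (mul_eq_zero.1 this).resolve_left hb2
    linarith
  have hM1 : M1 = {C ((1 / 2 : ℚ) : ℂ) * (C ((1 : ℚ) : ℂ) * X 0 + X 1) ^ 4,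
      C ((1 / 2 : ℚ) : ℂ) * (C ((-1 : ℚ) : ℂ) * X 0 + X 1) ^ 4, C 3 * X 0 ^ 4} := by
    have e5 : C ((1 / 2 : ℚ) : ℂ) * (C ((1 : ℚ) : ℂ) * X 0 + X 1) ^ 4
        = (C (1 / 2) * (X 0 + X 1) ^ 4 : MvPolynomial (Fin 2) ℂ) := by
      push_cast; simp
    have e6 : C ((1 / 2 : ℚ) : ℂ) * (C ((-1 : ℚ) : ℂ) * X 0 + X 1) ^ 4
        = (C (1 / 2) * (-X 0 + X 1) ^ 4 : MvPolynomial (Fin 2) ℂ) := by
      push_cast; simp
    rw [e5, e6, M1, swap12, swap23]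
  rcases sq_eq_sq_iff_eq_or_eq_neg.1 h3 with h4 | h4
  · -- a1 = b1, a2 = - b2
    have h5 : a2 = (-1) * b2 := by
      have : b1 * (a2 + b2) = 0 := by rw [h4] at h1; linear_combination h1
      have := (mul_eq_zero.1 this).resolve_left hb1
      linarith
    have m1 : l1 * b1 ^ 4 = 1 / 2 := by rw [h4, h5] at e3; linarith
    have m2 : l2 * b2 ^ 4 = 1 / 2 := by rw [h4, h5] at e3; linarith
    have m3 : l3 * a3 ^ 4 = 3 := by rw [h4, h5] at e0; linarith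
    rw [T_fin m1 (ρ := 1) (by rw [h4]; ring), T_fin m2 h5, T_inf m3, hM1]
  · have h5 : a2 = 1 * b2 := by
      have : b1 * (a2 - b2) = 0 := by rw [h4] at h1; linear_combination h1
      have := (mul_eq_zero.1 this).resolve_left hb1
      linarith
    have m1 : l1 * b1 ^ 4 = 1 / 2 := by rw [h4, h5] at e3; linarith
    have m2 : l2 * b2 ^ 4 = 1 / 2 := by rw [h4, h5] at e3; linarith
    have m3 : l3 * a3 ^ 4 = 3 := by rw [h4, h5] at e0; linarith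
    rw [T_fin m1 (ρ := -1) (by rw [h4]; ring), T_fin m2 h5, T_inf m3, hM1, swap12]

/-- roots of the apolar cubic -/
lemma root_mem {u v w : ℚ} (h1 : u * v + u * w + v * w = -4) (h2 : u + v + w + u * v * w = 0)
    (hvw : v ≠ w) : u = 0 ∨ u = 2 ∨ u = -2 := by
  have key : ∀ x y z : ℚ, x * y + x * z + y * z = -4 → x + y + z + x * y * z = 0 →
      x ^ 2 * y ^ 2 - x ^ 2 - y ^ 2 + 3 * (x * y) + 4 = 0 := by
    intro x y z h3 h4
    linear_combination (1 + x * y) * h3 - (x + y) * h4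
  have hv := key u v w h1 h2
  have hw := key u w v (by linarith) (by linarith)
  have hy : (2 * v * (u ^ 2 - 1) + 3 * u) ^ 2 = 4 * u ^ 4 - 11 * u ^ 2 + 16 := by
    linear_combination 4 * (u ^ 2 - 1) * hv
  rcases rational_points hy with h | h | h | h | h
  · exact Or.inl h
  · exfalso
    subst h
    apply hvw
    linarith
  · exfalso
    subst h
    apply hvw
    linarith
  · exact Or.inr (Or.inl h)
  · exact Or.inr (Or.inr h)

/-- the weight attached to a root -/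
def wt (ρ : ℚ) : ℚ := if ρ = 0 then 3 / 4 else 1 / 8

/-- the summand attached to a root -/
noncomputable def S (ρ : ℚ) : MvPolynomial (Fin 2) ℂ :=
  C ((wt ρ : ℚ) : ℂ) * (C (ρ : ℂ) * X 0 + X 1) ^ 4

lemma M2_eq : M2 = Multiset.map S {0, 2, -2} := by
  have e1 : S 0 = C (3 / 4) * X 1 ^ 4 := by
    simp [S, wt]
  have e2 : S 2 = C (1 / 8) * (C 2 * X 0 + X 1) ^ 4 := by
    simp [S, wt]
  have e3 : S (-2) = C (1 / 8) * (-C 2 * X 0 + X 1) ^ 4 := by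
    simp [S, wt]
  simp only [M2, Multiset.insert_eq_cons, Multiset.map_cons, Multiset.map_singleton, e1, e2, e3]

/-- the generic case -/
lemma case_fin {l1 a1 b1 l2 a2 b2 l3 a3 b3 : ℚ}
    (h : T l1 a1 b1 + T l2 a2 b2 + T l3 a3 b3 = f0) (hb1 : b1 ≠ 0) (hb2 : b2 ≠ 0) (hb3 : b3 ≠ 0) :
    ({T l1 a1 b1, T l2 a2 b2, T l3 a3 b3} : Multiset (MvPolynomial (Fin 2) ℂ)) = M2 := by
  obtain ⟨e0, e1, e2, e3, e4⟩ := coeff_eqs h
  have hcat := catalecticant e0 e1 e2 e3 e4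
  have hap1 := apolar1 e0 e1 e2 e3
  have hap2 := apolar2 e1 e2 e3 e4
  obtain ⟨u, hu⟩ : ∃ u, a1 = u * b1 := ⟨a1 / b1, by field_simp⟩
  obtain ⟨v, hv⟩ : ∃ u, a2 = u * b2 := ⟨a2 / b2, by field_simp⟩
  obtain ⟨w, hw⟩ : ∃ u, a3 = u * b3 := ⟨a3 / b3, by field_simp⟩
  obtain ⟨x, hx⟩ : ∃ x, l1 * b1 ^ 4 = x := ⟨_, rfl⟩
  obtain ⟨y, hy⟩ : ∃ y, l2 * b2 ^ 4 = y := ⟨_, rfl⟩
  obtain ⟨z, hz⟩ : ∃ z, l3 * b3 ^ 4 = z := ⟨_, rfl⟩
  have hbbb : b1 * b2 * b3 ≠ 0 := mul_ne_zero (mul_ne_zero hb1 hb2) hb3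
  have h1 : u * v + u * w + v * w = -4 := by
    have : b1 * b2 * b3 * (u * v + u * w + v * w + 4) = 0 := by
      rw [hu, hv, hw] at hap1
      linear_combination hap1
    have := (mul_eq_zero.1 this).resolve_left hbbb
    linarith
  have h2 : u + v + w + u * v * w = 0 := by
    have : b1 * b2 * b3 * (u + v + w + u * v * w) = 0 := by
      rw [hu, hv, hw] at hap2
      linear_combination -hap2
    exact (mul_eq_zero.1 this).resolve_left hbbb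
  have huv : u ≠ v := by
    rintro rfl
    rw [hu, hv] at hcat
    have : u * b1 * b2 - u * b2 * b1 = 0 := by ring
    rw [this] at hcat
    norm_num at hcat
  have huw : u ≠ w := by
    rintro rfl
    rw [hu, hw] at hcat
    have : u * b1 * b3 - u * b3 * b1 = 0 := by ring
    rw [this] at hcat
    norm_num at hcat
  have hvw : v ≠ w := by
    rintro rfl
    rw [hv, hw] at hcat
    have : v * b2 * b3 - v * b3 * b2 = 0 := by ring
    rw [this] at hcat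
    norm_num at hcat
  have ru := root_mem h1 h2 hvw
  have rv := root_mem (u := v) (v := u) (w := w) (by linarith) (by linarith) huw
  have rw' := root_mem (u := w) (v := u) (w := v) (by linarith) (by linarith) huv
  have e4' : x + y + z = 1 := by rw [← hx, ← hy, ← hz]; exact e4
  have e3' : x * u + y * v + z * w = 0 := by
    rw [← hx, ← hy, ← hz]; rw [hu, hv, hw] at e3; linear_combination e3
  have e2' : x * u ^ 2 + y * v ^ 2 + z * w ^ 2 = 1 := by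
    rw [← hx, ← hy, ← hz]; rw [hu, hv, hw] at e2; linear_combination e2
  have hfin : x = wt u → y = wt v → z = wt w → ({u, v, w} : Multiset ℚ) = {0, 2, -2} →
      ({T l1 a1 b1, T l2 a2 b2, T l3 a3 b3} : Multiset (MvPolynomial (Fin 2) ℂ)) = M2 := by
    intro q1 q2 q3 q4
    rw [M2_eq, ← q4]
    simp only [Multiset.insert_eq_cons, Multiset.map_cons, Multiset.map_singleton]
    rw [T_fin hx hu, T_fin hy hv, T_fin hz hw, q1, q2, q3]
    rfl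
  rcases ru with rfl | rfl | rfl <;> rcases rv with rfl | rfl | rfl <;>
    rcases rw' with rfl | rfl | rfl
  all_goals first
    | exact absurd rfl huv
    | exact absurd rfl huw
    | exact absurd rfl hvw
    | (apply hfin
       · norm_num [wt]; linarith
       · norm_num [wt]; linarith
       · norm_num [wt]; linarith
       · decide)

/-- classification of the representations of length three -/
lemma classify {l1 a1 b1 l2 a2 b2 l3 a3 b3 : ℚ}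
    (h : T l1 a1 b1 + T l2 a2 b2 + T l3 a3 b3 = f0) :
    ({T l1 a1 b1, T l2 a2 b2, T l3 a3 b3} : Multiset (MvPolynomial (Fin 2) ℂ)) = M1 ∨
    ({T l1 a1 b1, T l2 a2 b2, T l3 a3 b3} : Multiset (MvPolynomial (Fin 2) ℂ)) = M2 := by
  by_cases hb3 : b3 = 0
  · exact Or.inl (case_inf h hb3)
  by_cases hb2 : b2 = 0
  · left
    rw [swap23]
    exact case_inf (l1 := l1) (a1 := a1) (b1 := b1) (l2 := l3) (a2 := a3) (b2 := b3) (l3 := l2)
      (a3 := a2) (b3 := b2) (by rw [← h]; ring) hb2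
  by_cases hb1 : b1 = 0
  · left
    rw [swap12, swap23]
    exact case_inf (l1 := l2) (a1 := a2) (b1 := b2) (l2 := l3) (a2 := a3) (b2 := b3) (l3 := l1)
      (a3 := a1) (b3 := b1) (by rw [← h]; ring) hb1
  · exact Or.inr (case_fin h hb1 hb2 hb3)

/-- no representation of length at most two -/
lemma no_two {l1 a1 b1 l2 a2 b2 : ℚ} (h : T l1 a1 b1 + T l2 a2 b2 = f0) : False := by
  have h' : T l1 a1 b1 + T l2 a2 b2 + T 0 0 0 = f0 := by rw [T_zero, add_zero, h]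
  obtain ⟨e0, e1, e2, e3, e4⟩ := coeff_eqs h'
  have hcat := catalecticant e0 e1 e2 e3 e4
  norm_num at hcat

lemma T_one (a b : ℚ) (l : ℚ) : IsSummand KQ 4 (T l a b) := (isSummand_iff _).2 ⟨l, a, b, rfl⟩

lemma sum_M1 : M1.sum = f0 := by
  simp only [M1, Multiset.insert_eq_cons, Multiset.sum_cons, Multiset.sum_singleton, f0]
  have h2 : (C (1 / 2) : MvPolynomial (Fin 2) ℂ) * 2 = 1 := by
    rw [show (2 : MvPolynomial (Fin 2) ℂ) = C 2 from (map_ofNat C 2).symm, ← C_mul]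
    norm_num
  have h3 : (C 3 : MvPolynomial (Fin 2) ℂ) = 3 := map_ofNat C 3
  have h4 : (C 4 : MvPolynomial (Fin 2) ℂ) = 4 := map_ofNat C 4
  have h6 : (C 6 : MvPolynomial (Fin 2) ℂ) = 6 := map_ofNat C 6
  rw [h3, h4, h6]
  linear_combination (X 0 ^ 4 + 6 * X 0 ^ 2 * X 1 ^ 2 + X 1 ^ 4) * h2

lemma sum_M2 : M2.sum = f0 := by
  simp only [M2, Multiset.insert_eq_cons, Multiset.sum_cons, Multiset.sum_singleton, f0]
  have h8 : (C (1 / 8) : MvPolynomial (Fin 2) ℂ) * 8 = 1 := by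
    rw [show (8 : MvPolynomial (Fin 2) ℂ) = C 8 from (map_ofNat C 8).symm, ← C_mul]
    norm_num
  have h34 : (C (3 / 4) : MvPolynomial (Fin 2) ℂ) = 6 * C (1 / 8) := by
    rw [show (6 : MvPolynomial (Fin 2) ℂ) = C 6 from (map_ofNat C 6).symm, ← C_mul]
    norm_num
  have h2 : (C 2 : MvPolynomial (Fin 2) ℂ) = 2 := map_ofNat C 2
  have h4 : (C 4 : MvPolynomial (Fin 2) ℂ) = 4 := map_ofNat C 4
  have h6 : (C 6 : MvPolynomial (Fin 2) ℂ) = 6 := map_ofNat C 6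
  rw [h34, h2, h4, h6]
  linear_combination (4 * X 0 ^ 4 + 6 * X 0 ^ 2 * X 1 ^ 2 + X 1 ^ 4) * h8

lemma mem_M1 : ∀ g ∈ M1, IsSummand KQ 4 g := by
  intro g hg
  simp only [M1, Multiset.insert_eq_cons, Multiset.mem_cons, Multiset.mem_singleton] at hg
  rcases hg with rfl | rfl | rfl
  · rw [isSummand_iff]; exact ⟨3, 1, 0, by simp [T]⟩
  · rw [isSummand_iff]; exact ⟨1 / 2, 1, 1, by simp [T]⟩
  · rw [isSummand_iff]; exact ⟨1 / 2, -1, 1, by simp [T]⟩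

lemma mem_M2 : ∀ g ∈ M2, IsSummand KQ 4 g := by
  intro g hg
  simp only [M2, Multiset.insert_eq_cons, Multiset.mem_cons, Multiset.mem_singleton] at hg
  rcases hg with rfl | rfl | rfl
  · rw [isSummand_iff]; exact ⟨3 / 4, 0, 1, by simp [T]⟩
  · rw [isSummand_iff]; exact ⟨1 / 8, 2, 1, by simp [T]⟩
  · rw [isSummand_iff]; exact ⟨1 / 8, -2, 1, by simp [T]⟩

lemma M1_ne_M2 : M1 ≠ M2 := by
  intro h
  have h1 : (C 3 * X 0 ^ 4 : MvPolynomial (Fin 2) ℂ) ∈ M2 := by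
    rw [← h, M1]; simp
  simp only [M2, Multiset.insert_eq_cons, Multiset.mem_cons, Multiset.mem_singleton] at h1
  rcases h1 with h1 | h1 | h1
  · have := congrArg (eval ![(0 : ℂ), (1 : ℂ)]) h1
    simp at this
    norm_num at this
  · have := congrArg (eval ![(0 : ℂ), (1 : ℂ)]) h1
    simp at this
  · have := congrArg (eval ![(0 : ℂ), (1 : ℂ)]) h1
    simp at this

theorem length_eq : kLength KQ 4 f0 = 3 := by
  apply le_antisymm
  · apply Nat.sInf_le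
    exact ⟨M1, by simp [M1], mem_M1, sum_M1⟩
  · have hne : {r : ℕ | (Reps KQ 4 r f0).Nonempty}.Nonempty :=
      ⟨3, M1, by simp [M1], mem_M1, sum_M1⟩
    obtain ⟨M, hcard, hM, hsum⟩ := Nat.sInf_mem hne
    by_contra hlt
    push Not at hlt
    change kLength KQ 4 f0 < 3 at hlt
    change Multiset.card M = kLength KQ 4 f0 at hcard
    rw [← hcard] at hlt
    have hc : Multiset.card M = 0 ∨ Multiset.card M = 1 ∨ Multiset.card M = 2 := by omega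
    rcases hc with hc | hc | hc
    · rw [Multiset.card_eq_zero] at hc
      subst hc
      apply no_two (l1 := 0) (a1 := 0) (b1 := 0) (l2 := 0) (a2 := 0) (b2 := 0)
      rw [T_zero, ← hsum]; simp
    · obtain ⟨g, rfl⟩ := Multiset.card_eq_one.1 hc
      obtain ⟨l, a, b, rfl⟩ := (isSummand_iff g).1 (hM g (by simp))
      apply no_two (l1 := l) (a1 := a) (b1 := b) (l2 := 0) (a2 := 0) (b2 := 0)
      rw [T_zero, ← hsum]; simp
    · obtain ⟨g1, g2, rfl⟩ := Multiset.card_eq_two.1 hc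
      obtain ⟨l, a, b, rfl⟩ := (isSummand_iff g1).1 (hM g1 (by simp))
      obtain ⟨l', a', b', rfl⟩ := (isSummand_iff g2).1 (hM g2 (by simp))
      apply no_two (l1 := l) (a1 := a) (b1 := b) (l2 := l') (a2 := a') (b2 := b')
      rw [← hsum]; simp

theorem minReps_eq : MinReps KQ 4 f0 = {M1, M2} := by
  rw [MinReps, length_eq]
  ext M
  simp only [Set.mem_insert_iff, Set.mem_singleton_iff]
  constructor
  · rintro ⟨hcard, hM, hsum⟩
    obtain ⟨g1, g2, g3, rfl⟩ := Multiset.card_eq_three.1 hcard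
    obtain ⟨l1, a1, b1, rfl⟩ := (isSummand_iff g1).1 (hM g1 (by simp))
    obtain ⟨l2, a2, b2, rfl⟩ := (isSummand_iff g2).1 (hM g2 (by simp))
    obtain ⟨l3, a3, b3, rfl⟩ := (isSummand_iff g3).1 (hM g3 (by simp))
    apply classify
    rw [← hsum]
    simp [add_assoc]
  · rintro (rfl | rfl)
    · exact ⟨by simp [M1], mem_M1, sum_M1⟩
    · exact ⟨by simp [M2], mem_M2, sum_M2⟩

end Pool.Agent.R341.BinForm
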