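import Mathlib

set_option autoImplicit false

namespace Pool.Agent.R341.Clog

lemma pow_log_mul_le {p q : ℕ} (h : 1 ≤ q ∧ q ≤ p) : 2 ^ Nat.log 2 (p / q) * q ≤ p := by
  have h1 : p / q ≠ 0 := (Nat.div_pos h.2 h.1).ne'
  calc 2 ^ Nat.log 2 (p / q) * q ≤ (p / q) * q := Nat.mul_le_mul_right _ (Nat.pow_log_le_self 2 h1)
    _ ≤ p := Nat.div_mul_le_self p q

/-- The continued logarithm of `p/q` (`p ≥ q ≥ 1`); `Nat.log 2 (p / q)` is the integer `k ≥ 0` with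
`2^k q ≤ p < 2^(k+1) q`. -/
def cl (p q : ℕ) : List ℕ :=
  if h : 1 ≤ q ∧ q ≤ p then
    if p = 2 ^ Nat.log 2 (p / q) * q then [Nat.log 2 (p / q)]
    else Nat.log 2 (p / q) ::
      cl (2 ^ Nat.log 2 (p / q) * q) (p - 2 ^ Nat.log 2 (p / q) * q)
  else []
termination_by p + q
decreasing_by
  have := pow_log_mul_le h
  omega

/-- `L(n)`, the length of the continued logarithm of the integer `n`; `L(0) = 0`. -/
def L (n : ℕ) : ℕ := (cl n 1).length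

/-- length -/
def len (p q : ℕ) : ℕ := (cl p q).length

lemma log_eq {p q k : ℕ} (hq : 1 ≤ q) (h1 : 2 ^ k * q ≤ p) (h2 : p < 2 ^ (k + 1) * q) :
    Nat.log 2 (p / q) = k := by
  apply Nat.log_eq_of_pow_le_of_lt_pow
  · rw [Nat.le_div_iff_mul_le hq]; exact h1
  · rw [Nat.div_lt_iff_lt_mul hq]; exact h2

lemma exists_k {p q : ℕ} (hq : 1 ≤ q) (hp : q ≤ p) : ∃ k, 2 ^ k * q ≤ p ∧ p < 2 ^ (k + 1) * q := by
  refine ⟨Nat.log 2 (p / q), pow_log_mul_le ⟨hq, hp⟩, ?_⟩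
  have := Nat.lt_pow_succ_log_self (b := 2) (by norm_num) (p / q)
  rw [Nat.div_lt_iff_lt_mul hq] at this
  exact this

lemma len_step {p q : ℕ} (k : ℕ) (hq : 1 ≤ q) (h1 : 2 ^ k * q < p) (h2 : p < 2 ^ (k + 1) * q) :
    len p q = 1 + len (2 ^ k * q) (p - 2 ^ k * q) := by
  have hk := log_eq hq h1.le h2
  have hqp : q ≤ p := le_trans (Nat.le_mul_of_pos_left _ (by positivity)) h1.le
  rw [len, cl, dif_pos ⟨hq, hqp⟩, hk, if_neg h1.ne']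
  simp [len, add_comm]

lemma len_pow {q : ℕ} (k : ℕ) (hq : 1 ≤ q) : len (2 ^ k * q) q = 1 := by
  have h1 : 2 ^ k * q < 2 ^ (k + 1) * q := by
    apply Nat.mul_lt_mul_of_pos_right _ hq
    exact Nat.pow_lt_pow_right (by norm_num) (by omega)
  have hk := log_eq (p := 2 ^ k * q) hq le_rfl h1
  have hqp : q ≤ 2 ^ k * q := Nat.le_mul_of_pos_left _ (by positivity)
  rw [len, cl, dif_pos ⟨hq, hqp⟩, hk, if_pos rfl]
  rfl

lemma len_self {q : ℕ} (hq : 1 ≤ q) : len q q = 1 := by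
  have := len_pow 0 hq
  simpa using this

/-- scaling -/
lemma len_two_mul (n : ℕ) : ∀ p q : ℕ, p + q ≤ n → 1 ≤ q → q ≤ p →
    len (2 * p) (2 * q) = len p q := by
  induction n with
  | zero => intro p q h hq; omega
  | succ n ih =>
    intro p q h hq hqp
    obtain ⟨k, h1, h2⟩ := exists_k hq hqp
    rcases h1.eq_or_lt with h1 | h1
    · rw [← h1, len_pow k hq, show 2 * (2 ^ k * q) = 2 ^ k * (2 * q) by ring,
        len_pow k (by omega)]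
    · have hkq : q ≤ 2 ^ k * q := Nat.le_mul_of_pos_left _ (by positivity)
      have h4 : p < 2 * (2 ^ k * q) := by rw [pow_succ] at h2; linarith
      rw [len_step k hq h1 h2, len_step (p := 2 * p) (q := 2 * q) k (by omega)
        (by rw [show 2 ^ k * (2 * q) = 2 * (2 ^ k * q) by ring]; omega)
        (by rw [show 2 ^ (k + 1) * (2 * q) = 2 * (2 ^ (k + 1) * q) by ring]; omega)]
      rw [show 2 ^ k * (2 * q) = 2 * (2 ^ k * q) by ring, ← Nat.mul_sub]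
      rw [ih (2 ^ k * q) (p - 2 ^ k * q) (by omega) (by omega) (by omega)]

lemma len_scale {p q : ℕ} (hq : 1 ≤ q) (hqp : q ≤ p) : len (2 * p) (2 * q) = len p q :=
  len_two_mul (p + q) p q le_rfl hq hqp

lemma len_pow_scale {p q : ℕ} (j : ℕ) (hq : 1 ≤ q) (hqp : q ≤ p) :
    len (2 ^ j * p) (2 ^ j * q) = len p q := by
  induction j with
  | zero => simp
  | succ j ih =>
    rw [pow_succ', mul_assoc, mul_assoc, len_scale, ih]
    · exact Nat.mul_pos (by positivity) hq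
    · exact Nat.mul_le_mul_left _ hqp

lemma len_double {p q : ℕ} (hq : 1 ≤ q) (hqp : q ≤ p) : len (2 * p) q = len p q := by
  obtain ⟨k, h1, h2⟩ := exists_k hq hqp
  rcases h1.eq_or_lt with h1 | h1
  · rw [← h1, len_pow k hq, show 2 * (2 ^ k * q) = 2 ^ (k + 1) * q by ring, len_pow (k + 1) hq]
  · have h4 : p < 2 * (2 ^ k * q) := by rw [pow_succ] at h2; linarith
    have hkq : q ≤ 2 ^ k * q := Nat.le_mul_of_pos_left _ (by positivity)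
    rw [len_step k hq h1 h2, len_step (p := 2 * p) (q := q) (k + 1) hq
      (by rw [show 2 ^ (k + 1) * q = 2 * (2 ^ k * q) by ring]; omega)
      (by rw [show 2 ^ (k + 1 + 1) * q = 2 * (2 ^ (k + 1) * q) by ring]; omega)]
    rw [show 2 ^ (k + 1) * q = 2 * (2 ^ k * q) by ring, ← Nat.mul_sub, len_scale (by omega)
      (by omega)]

lemma len_pow_mul {p q : ℕ} (j : ℕ) (hq : 1 ≤ q) (hqp : q ≤ p) : len (2 ^ j * p) q = len p q := by
  induction j with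
  | zero => simp
  | succ j ih =>
    rw [pow_succ', mul_assoc, len_double hq, ih]
    exact hqp.trans (Nat.le_mul_of_pos_left _ (by positivity))

/-- `L(2^t - 1) = 2(t-1)` -/
lemma len_mersenne (t : ℕ) : len (2 ^ (t + 2) - 1) 1 = 2 * (t + 1) := by
  induction t with
  | zero =>
    rw [len_step 1 le_rfl (by norm_num) (by norm_num)]
    have : len (2 ^ 1 * 1) (2 ^ (0 + 2) - 1 - 2 ^ 1 * 1) = 1 := len_pow 1 le_rfl
    rw [this]
  | succ t ih =>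
    have hX : 1 ≤ 2 ^ t := Nat.one_le_two_pow
    have e1 : 2 ^ (t + 1 + 2) = 8 * 2 ^ t := by ring
    have e2 : 2 ^ (t + 2) = 4 * 2 ^ t := by ring
    rw [len_step (t + 2) le_rfl (by rw [e1, e2]; omega)
      (by rw [show t + 2 + 1 = t + 1 + 2 by ring, e1]; omega)]
    rw [len_step 0 (by rw [e1, e2]; omega) (by rw [e1, e2]; omega) (by rw [e1, e2]; omega)]
    have e3 : 2 ^ 0 * (2 ^ (t + 1 + 2) - 1 - 2 ^ (t + 2) * 1) = 2 ^ (t + 2) - 1 := by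
      rw [e1, e2]; omega
    have e4 : 2 ^ (t + 2) * 1 - 2 ^ 0 * (2 ^ (t + 1 + 2) - 1 - 2 ^ (t + 2) * 1) = 1 := by
      rw [e1, e2]; omega
    rw [e4, e3, ih]
    ring

/-- `L(2^E + 2^t - 1) = 2t` for `1 ≤ t < E` -/
lemma len_gap {E t : ℕ} (ht : 1 ≤ t) (hE : t < E) : len (2 ^ E + 2 ^ t - 1) 1 = 2 * t := by
  obtain ⟨j, rfl⟩ : ∃ j, E = t + 1 + j := ⟨E - (t + 1), by omega⟩
  have hj : 1 ≤ 2 ^ j := Nat.one_le_two_pow
  rcases Nat.eq_or_lt_of_le ht with h1 | h1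
  · subst h1
    have e : 2 ^ (1 + 1 + j) = 4 * 2 ^ j := by ring
    rw [len_step (1 + 1 + j) le_rfl (by rw [e]; omega) (by rw [pow_succ, e]; omega)]
    have e2 : 2 ^ (1 + 1 + j) + 2 ^ 1 - 1 - 2 ^ (1 + 1 + j) * 1 = 1 := by omega
    rw [e2, len_pow _ le_rfl]
  · obtain ⟨s, rfl⟩ : ∃ s, t = s + 2 := ⟨t - 2, by omega⟩
    have hs : 1 ≤ 2 ^ s := Nat.one_le_two_pow
    have e0 : 2 ^ (s + 2) = 4 * 2 ^ s := by ring
    have e : 2 ^ (s + 2 + 1 + j) = 8 * (2 ^ s * 2 ^ j) := by ring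
    have hsj : 2 ^ s ≤ 2 ^ s * 2 ^ j := Nat.le_mul_of_pos_right _ hj
    have hsj2 : 2 ^ j ≤ 2 ^ s * 2 ^ j := Nat.le_mul_of_pos_left _ hs
    rw [len_step (s + 2 + 1 + j) le_rfl (by rw [e, e0]; omega)
      (by rw [pow_succ _ (s + 2 + 1 + j), e, e0]; omega)]
    have e2 : 2 ^ (s + 2 + 1 + j) + 2 ^ (s + 2) - 1 - 2 ^ (s + 2 + 1 + j) * 1
        = 2 ^ (s + 2) - 1 := by rw [e0]; omega
    rw [e2]
    have e3 : 2 ^ (j + 1) * (2 ^ (s + 2) - 1) = 2 ^ (s + 2 + 1 + j) * 1 - 2 * 2 ^ j := by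
      rw [Nat.mul_sub, e, e0]; ring_nf
    rw [len_step (j + 1) (by rw [e0]; omega) (by rw [e3, e]; omega)
      (by
        rw [show 2 ^ (j + 1 + 1) * (2 ^ (s + 2) - 1) = 2 * (2 ^ (j + 1) * (2 ^ (s + 2) - 1)) by ring,
          e3, e]
        omega)]
    have e4 : 2 ^ (s + 2 + 1 + j) * 1 - 2 ^ (j + 1) * (2 ^ (s + 2) - 1) = 2 ^ (j + 1) * 1 := by
      rw [e3, e, pow_succ]; omega
    rw [e4, len_pow_scale (j + 1) le_rfl (by rw [e0]; omega), len_mersenne]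
    ring

/-- `L(2^(2e) - 2^e + 1) = 2e+1` for `e ≥ 4` -/
lemma len_diag (j : ℕ) : len (2 ^ (j + 4) * (2 ^ (j + 4) - 1) + 1) 1 = 2 * (j + 4) + 1 := by
  have hY : 1 ≤ 2 ^ j := Nat.one_le_two_pow
  obtain ⟨Y, hYdef⟩ : ∃ Y, Y = 2 ^ j := ⟨_, rfl⟩
  rw [← hYdef] at hY
  have e4 : 2 ^ (j + 4) = 16 * Y := by rw [hYdef]; ring
  have hYY : Y ≤ Y * Y := Nat.le_mul_of_pos_left _ hY
  have q1 : 2 ^ (2 * j + 7) = 128 * (Y * Y) := by rw [hYdef]; ring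
  have q2 : 2 ^ (j + 2) = 4 * Y := by rw [hYdef]; ring
  have q3 : 2 ^ (j + 3) = 8 * Y := by rw [hYdef]; ring
  have a0 : 2 ^ (j + 4) * (2 ^ (j + 4) - 1) + 1 = 256 * (Y * Y) - 16 * Y + 1 := by
    rw [e4, Nat.mul_sub]; ring_nf
  rw [a0]
  rw [len_step (2 * j + 7) le_rfl (by rw [q1]; omega) (by rw [pow_succ, q1]; omega), q1]
  have a1 : 256 * (Y * Y) - 16 * Y + 1 - 128 * (Y * Y) * 1 = 128 * (Y * Y) - 16 * Y + 1 := by omega
  rw [a1, len_step 0 (by omega) (by omega) (by omega)]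
  have a2 : 2 ^ 0 * (128 * (Y * Y) - 16 * Y + 1) = 128 * (Y * Y) - 16 * Y + 1 := by ring
  have a3 : 128 * (Y * Y) * 1 - (128 * (Y * Y) - 16 * Y + 1) = 16 * Y - 1 := by omega
  rw [a2, a3]
  have b1 : 4 * Y * (16 * Y - 1) = 64 * (Y * Y) - 4 * Y := by rw [Nat.mul_sub]; ring_nf
  have b2 : 2 ^ (j + 2 + 1) * (16 * Y - 1) = 128 * (Y * Y) - 8 * Y := by
    rw [pow_succ, q2, Nat.mul_sub]; ring_nf
  rw [len_step (j + 2) (by omega) (by rw [q2, b1]; omega) (by rw [b2]; omega), q2, b1]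
  have a4 : 128 * (Y * Y) - 16 * Y + 1 - (64 * (Y * Y) - 4 * Y) = 64 * (Y * Y) - 12 * Y + 1 := by
    omega
  rw [a4, len_step 0 (by omega) (by omega) (by omega)]
  have a5 : 2 ^ 0 * (64 * (Y * Y) - 12 * Y + 1) = 64 * (Y * Y) - 12 * Y + 1 := by ring
  have a6 : 64 * (Y * Y) - 4 * Y - (64 * (Y * Y) - 12 * Y + 1) = 8 * Y - 1 := by omega
  rw [a5, a6]
  have b3 : 4 * Y * (8 * Y - 1) = 32 * (Y * Y) - 4 * Y := by rw [Nat.mul_sub]; ring_nf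
  have b4 : 2 ^ (j + 2 + 1) * (8 * Y - 1) = 64 * (Y * Y) - 8 * Y := by
    rw [pow_succ, q2, Nat.mul_sub]; ring_nf
  rw [len_step (j + 2) (by omega) (by rw [q2, b3]; omega) (by rw [b4]; omega), q2, b3]
  have a7 : 64 * (Y * Y) - 12 * Y + 1 - (32 * (Y * Y) - 4 * Y) = 32 * (Y * Y) - 8 * Y + 1 := by
    omega
  rw [a7, len_step 0 (by omega) (by omega) (by omega)]
  have a8 : 2 ^ 0 * (32 * (Y * Y) - 8 * Y + 1) = 32 * (Y * Y) - 8 * Y + 1 := by ring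
  have a9 : 32 * (Y * Y) - 4 * Y - (32 * (Y * Y) - 8 * Y + 1) = 4 * Y - 1 := by omega
  rw [a8, a9]
  have b5 : 8 * Y * (4 * Y - 1) = 32 * (Y * Y) - 8 * Y := by rw [Nat.mul_sub]; ring_nf
  have b6 : 2 ^ (j + 3 + 1) * (4 * Y - 1) = 64 * (Y * Y) - 16 * Y := by
    rw [pow_succ, q3, Nat.mul_sub]; ring_nf
  rw [len_step (j + 3) (by omega) (by rw [q3, b5]; omega) (by rw [b6]; omega)]
  have a10 : 32 * (Y * Y) - 8 * Y + 1 - 2 ^ (j + 3) * (4 * Y - 1) = 1 := by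
    rw [q3, b5]; omega
  rw [a10, len_pow_mul (j + 3) le_rfl (by omega), ← q2, len_mersenne]
  ring

/-- `L(2^(3e) - 2^e + 1) = 2e+1` for `e ≥ 3` -/
lemma len_diag2 (j : ℕ) :
    len (2 ^ (j + 3) * (2 ^ (2 * (j + 3)) - 1) + 1) 1 = 2 * (j + 3) + 1 := by
  have hZ : 1 ≤ 2 ^ j := Nat.one_le_two_pow
  obtain ⟨Z, hZdef⟩ : ∃ Z, Z = 2 ^ j := ⟨_, rfl⟩
  rw [← hZdef] at hZ
  have hZZ : Z ≤ Z * Z := Nat.le_mul_of_pos_left _ hZ
  have hZZZ : Z * Z ≤ Z * Z * Z := Nat.le_mul_of_pos_right _ hZ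
  have q0 : 2 ^ (j + 3) = 8 * Z := by rw [hZdef]; ring
  have q1 : 2 ^ (2 * (j + 3)) = 64 * (Z * Z) := by rw [hZdef]; ring
  have q2 : 2 ^ (3 * j + 8) = 256 * (Z * Z * Z) := by rw [hZdef]; ring
  have q3 : 2 ^ (2 * j + 5) = 32 * (Z * Z) := by rw [hZdef]; ring
  have q4 : 2 ^ (j + 2) = 4 * Z := by rw [hZdef]; ring
  have a0 : 2 ^ (j + 3) * (2 ^ (2 * (j + 3)) - 1) + 1 = 512 * (Z * Z * Z) - 8 * Z + 1 := by
    rw [q0, q1, Nat.mul_sub]; ring_nf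
  rw [a0]
  rw [len_step (3 * j + 8) le_rfl (by rw [q2]; omega) (by rw [pow_succ, q2]; omega), q2]
  have a1 : 512 * (Z * Z * Z) - 8 * Z + 1 - 256 * (Z * Z * Z) * 1
      = 256 * (Z * Z * Z) - 8 * Z + 1 := by omega
  rw [a1, len_step 0 (by omega) (by omega) (by omega)]
  have a2 : 2 ^ 0 * (256 * (Z * Z * Z) - 8 * Z + 1) = 256 * (Z * Z * Z) - 8 * Z + 1 := by ring
  have a3 : 256 * (Z * Z * Z) * 1 - (256 * (Z * Z * Z) - 8 * Z + 1) = 8 * Z - 1 := by omega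
  rw [a2, a3]
  have b1 : 32 * (Z * Z) * (8 * Z - 1) = 256 * (Z * Z * Z) - 32 * (Z * Z) := by
    rw [Nat.mul_sub]; ring_nf
  have b2 : 2 ^ (2 * j + 5 + 1) * (8 * Z - 1) = 512 * (Z * Z * Z) - 64 * (Z * Z) := by
    rw [pow_succ, q3, Nat.mul_sub]; ring_nf
  rw [len_step (2 * j + 5) (by omega) (by rw [q3, b1]; omega) (by rw [b2]; omega), q3, b1]
  have a4 : 256 * (Z * Z * Z) - 8 * Z + 1 - (256 * (Z * Z * Z) - 32 * (Z * Z))
      = 32 * (Z * Z) - 8 * Z + 1 := by omega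
  rw [a4]
  have b3 : 8 * Z * (32 * (Z * Z) - 8 * Z + 1) = 256 * (Z * Z * Z) - 64 * (Z * Z) + 8 * Z := by
    rw [Nat.mul_add, Nat.mul_sub]; ring_nf
  have b4 : 2 ^ (j + 3 + 1) * (32 * (Z * Z) - 8 * Z + 1)
      = 512 * (Z * Z * Z) - 128 * (Z * Z) + 16 * Z := by
    rw [pow_succ, q0, Nat.mul_add, Nat.mul_sub]; ring_nf
  rw [len_step (j + 3) (by omega) (by rw [q0, b3]; omega) (by rw [b4]; omega), q0, b3]
  have a5 : 256 * (Z * Z * Z) - 32 * (Z * Z) - (256 * (Z * Z * Z) - 64 * (Z * Z) + 8 * Z)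
      = 32 * (Z * Z) - 8 * Z := by omega
  rw [a5]
  have b5 : 8 * Z * (32 * (Z * Z) - 8 * Z) = 256 * (Z * Z * Z) - 64 * (Z * Z) := by
    rw [Nat.mul_sub]; ring_nf
  have b6 : 2 ^ (j + 3 + 1) * (32 * (Z * Z) - 8 * Z) = 512 * (Z * Z * Z) - 128 * (Z * Z) := by
    rw [pow_succ, q0, Nat.mul_sub]; ring_nf
  rw [len_step (j + 3) (by omega) (by rw [q0, b5]; omega) (by rw [b6]; omega)]
  have a6 : 256 * (Z * Z * Z) - 64 * (Z * Z) + 8 * Z - 2 ^ (j + 3) * (32 * (Z * Z) - 8 * Z)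
      = 2 ^ (j + 3) * 1 := by
    rw [q0, b5]; omega
  rw [a6, len_pow_scale (j + 3) le_rfl (by omega)]
  have a7 : 32 * (Z * Z) - 8 * Z = 2 ^ (j + 3) * (4 * Z - 1) := by
    rw [q0, Nat.mul_sub]; ring_nf
  rw [a7, len_pow_mul (j + 3) le_rfl (by omega), ← q4, len_mersenne]
  ring

end Pool.Agent.R341.Clog
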