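import Pool.Agent.R341.Clog

set_option autoImplicit false

namespace Pool.Agent.R341.Clog

/-- logarithmic bound -/
lemma len_le (n : ℕ) : ∀ p q : ℕ, 1 ≤ q → q ≤ p → p ≤ 2 ^ n → len p q ≤ 3 * n + 3 := by
  induction n with
  | zero =>
    intro p q hq hqp hp
    have : p = 1 := by simp at hp; omega
    have : q = 1 := by omega
    subst_vars
    rw [len_self le_rfl]
    omega
  | succ n ih =>
    have h2n : 2 ^ (n + 1) = 2 * 2 ^ n := by ring
    -- both even
    have heven : ∀ p q : ℕ, 1 ≤ q → q ≤ p → p ≤ 2 ^ (n + 1) → p % 2 = 0 → q % 2 = 0 →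
        len p q ≤ 3 * n + 3 := by
      intro p q hq hqp hp h1 h2
      obtain ⟨p', rfl⟩ : ∃ p', p = 2 * p' := ⟨p / 2, by omega⟩
      obtain ⟨q', rfl⟩ : ∃ q', q = 2 * q' := ⟨q / 2, by omega⟩
      rw [len_scale (by omega) (by omega)]
      exact ih p' q' (by omega) (by omega) (by omega)
    -- p even, q odd and small
    have hA : ∀ p q : ℕ, 1 ≤ q → q ≤ p → p ≤ 2 ^ (n + 1) → p % 2 = 0 → q ≤ 2 ^ n →
        q % 2 = 1 → len p q ≤ 3 * n + 4 := by
      intro p q hq hqp hp h1 h2 h3
      obtain ⟨k, k1, k2⟩ := exists_k hq hqp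
      rcases k1.eq_or_lt with k1 | k1
      · rw [← k1, len_pow k hq]; omega
      · rw [len_step k hq k1 k2]
        have k3 : p < 2 * (2 ^ k * q) := by rw [pow_succ] at k2; linarith
        rcases Nat.eq_zero_or_pos k with rfl | hk
        · have := ih (2 ^ 0 * q) (p - 2 ^ 0 * q) (by omega) (by omega) (by omega)
          omega
        · have hev : (2 ^ k * q) % 2 = 0 := by
            obtain ⟨j, rfl⟩ : ∃ j, k = j + 1 := ⟨k - 1, by omega⟩
            rw [pow_succ', mul_assoc]; omega
          have := heven (2 ^ k * q) (p - 2 ^ k * q) (by omega) (by omega) (by omega) hev (by omega)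
          omega
    -- p odd
    have hB : ∀ p q : ℕ, 1 ≤ q → q ≤ p → p ≤ 2 ^ (n + 1) → p % 2 = 1 → q % 2 = 0 →
        len p q ≤ 3 * n + 5 := by
      intro p q hq hqp hp h1 h2
      obtain ⟨k, k1, k2⟩ := exists_k hq hqp
      rcases k1.eq_or_lt with k1 | k1
      · rw [← k1, len_pow k hq]; omega
      · rw [len_step k hq k1 k2]
        have k3 : p < 2 * (2 ^ k * q) := by rw [pow_succ] at k2; linarith
        have hev : (2 ^ k * q) % 2 = 0 := by
          rw [Nat.mul_mod, h2]; simp
        have := hA (2 ^ k * q) (p - 2 ^ k * q) (by omega) (by omega) (by omega) hev (by omega)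
          (by omega)
        omega
    intro p q hq hqp hp
    obtain ⟨k, k1, k2⟩ := exists_k hq hqp
    rcases k1.eq_or_lt with k1 | k1
    · rw [← k1, len_pow k hq]; omega
    have k3 : p < 2 * (2 ^ k * q) := by rw [pow_succ] at k2; linarith
    rcases Nat.mod_two_eq_zero_or_one p with h1 | h1
    · rcases Nat.mod_two_eq_zero_or_one q with h2 | h2
      · have := heven p q hq hqp hp h1 h2
        omega
      · rw [len_step k hq k1 k2]
        rcases Nat.eq_zero_or_pos k with rfl | hk
        · -- (q, p - q), both odd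
          simp only [pow_zero, one_mul] at k1 k3 ⊢
          have hq1 : 1 ≤ p - q := by omega
          obtain ⟨k', l1, l2⟩ := exists_k (p := q) (q := p - q) hq1 (by omega)
          rcases l1.eq_or_lt with l1 | l1
          · rw [← l1]
            have := len_pow (q := p - q) k' hq1
            rw [l1] at this ⊢
            omega
          · rw [len_step k' hq1 l1 l2]
            have l3 : q < 2 * (2 ^ k' * (p - q)) := by rw [pow_succ] at l2; linarith
            rcases Nat.eq_zero_or_pos k' with rfl | hk'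
            · have := ih (2 ^ 0 * (p - q)) (q - 2 ^ 0 * (p - q)) (by omega) (by omega) (by omega)
              omega
            · have hev : (2 ^ k' * (p - q)) % 2 = 0 := by
                obtain ⟨j, rfl⟩ : ∃ j, k' = j + 1 := ⟨k' - 1, by omega⟩
                rw [pow_succ', mul_assoc]; omega
              have := hA (2 ^ k' * (p - q)) (q - 2 ^ k' * (p - q)) (by omega) (by omega) (by omega)
                hev (by omega) (by omega)
              omega
        · have hev : (2 ^ k * q) % 2 = 0 := by
            obtain ⟨j, rfl⟩ : ∃ j, k = j + 1 := ⟨k - 1, by omega⟩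
            rw [pow_succ', mul_assoc]; omega
          have := heven (2 ^ k * q) (p - 2 ^ k * q) (by omega) (by omega) (by omega) hev (by omega)
          omega
    · rcases Nat.mod_two_eq_zero_or_one q with h2 | h2
      · have := hB p q hq hqp hp h1 h2
        omega
      · rw [len_step k hq k1 k2]
        rcases Nat.eq_zero_or_pos k with rfl | hk
        · simp only [pow_zero, one_mul] at k1 k3 ⊢
          have := hB q (p - q) (by omega) (by omega) (by omega) h2 (by omega)
          omega
        · have hev : (2 ^ k * q) % 2 = 0 := by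
            obtain ⟨j, rfl⟩ : ∃ j, k = j + 1 := ⟨k - 1, by omega⟩
            rw [pow_succ', mul_assoc]; omega
          have := hA (2 ^ k * q) (p - 2 ^ k * q) (by omega) (by omega) (by omega) hev (by omega)
            (by omega)
          omega

/-- binary digit sum -/
def s (n : ℕ) : ℕ := if n = 0 then 0 else s (n / 2) + n % 2

lemma s_zero : s 0 = 0 := by rw [s]; simp

lemma s_even (n : ℕ) : s (2 * n) = s n := by
  rcases Nat.eq_zero_or_pos n with rfl | hn
  · rfl
  · rw [s, if_neg (by omega)]
    have h1 : 2 * n / 2 = n := by omega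
    have h2 : 2 * n % 2 = 0 := by omega
    rw [h1, h2, add_zero]

lemma s_odd (n : ℕ) : s (2 * n + 1) = s n + 1 := by
  rw [s, if_neg (by omega)]
  have h1 : (2 * n + 1) / 2 = n := by omega
  have h2 : (2 * n + 1) % 2 = 1 := by omega
  rw [h1, h2]

lemma s_add (n : ℕ) : ∀ a b : ℕ, a + b ≤ n → s (a + b) ≤ s a + s b := by
  induction n with
  | zero =>
    intro a b h
    have : a = 0 := by omega
    have : b = 0 := by omega
    subst_vars
    simp [s_zero]
  | succ n ih =>
    intro a b h
    rcases Nat.eq_zero_or_pos a with rfl | ha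
    · simp
    rcases Nat.eq_zero_or_pos b with rfl | hb
    · simp
    obtain ⟨a', rfl | rfl⟩ := Nat.even_or_odd' a
    · obtain ⟨b', rfl | rfl⟩ := Nat.even_or_odd' b
      · rw [← Nat.mul_add, s_even, s_even, s_even]
        exact ih a' b' (by omega)
      · rw [show 2 * a' + (2 * b' + 1) = 2 * (a' + b') + 1 by ring, s_odd, s_odd, s_even]
        have := ih a' b' (by omega)
        omega
    · obtain ⟨b', rfl | rfl⟩ := Nat.even_or_odd' b
      · rw [show 2 * a' + 1 + 2 * b' = 2 * (a' + b') + 1 by ring, s_odd, s_odd, s_even]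
        have := ih a' b' (by omega)
        omega
      · rw [show 2 * a' + 1 + (2 * b' + 1) = 2 * (a' + b' + 1) by ring, s_odd, s_odd, s_even]
        have h1 := ih a' b' (by omega)
        have h2 := ih (a' + b') 1 (by omega)
        have h3 : s 1 = 1 := by
          have := s_odd 0
          rw [s_zero] at this
          simpa using this
        omega

lemma s_pow_mul (k n : ℕ) : s (2 ^ k * n) = s n := by
  induction k with
  | zero => simp
  | succ k ih => rw [pow_succ', mul_assoc, s_even, ih]

lemma s_one : s 1 = 1 := by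
  have := s_odd 0
  rw [s_zero] at this
  simpa using this

/-- the digit sum is bounded in terms of the length -/
lemma s_le (n : ℕ) : ∀ p q : ℕ, p + q ≤ n → 1 ≤ q → q ≤ p → (∃ w, Nat.gcd p q ∣ 2 ^ w) →
    s p ≤ 2 ^ len p q ∧ s q ≤ 2 ^ len p q := by
  induction n with
  | zero => intro p q h hq; omega
  | succ n ih =>
    intro p q h hq hqp hg
    obtain ⟨k, h1, h2⟩ := exists_k hq hqp
    rcases h1.eq_or_lt with h1 | h1
    · obtain ⟨w, hw⟩ := hg
      have hqg : Nat.gcd p q = q := by
        rw [← h1]; exact Nat.gcd_eq_right (Dvd.intro_left _ rfl)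
      rw [hqg] at hw
      obtain ⟨v, -, hv⟩ := (Nat.dvd_prime_pow Nat.prime_two).1 hw
      have hsq : s q = 1 := by
        rw [hv, ← mul_one (2 ^ v), s_pow_mul, s_one]
      rw [← h1, len_pow k hq, s_pow_mul, hsq]
      norm_num
    · have h3 : p < 2 * (2 ^ k * q) := by rw [pow_succ] at h2; linarith
      rw [len_step k hq h1 h2]
      have hg' : ∃ w, Nat.gcd (2 ^ k * q) (p - 2 ^ k * q) ∣ 2 ^ w := by
        obtain ⟨w, hw⟩ := hg
        refine ⟨k + w, ?_⟩
        have e1 : Nat.gcd (2 ^ k * q) (p - 2 ^ k * q) = Nat.gcd (2 ^ k * q) p :=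
          Nat.gcd_sub_self_right h1.le
        rw [e1, pow_add, Nat.gcd_comm]
        exact (Nat.gcd_mul_right_dvd_mul_gcd p (2 ^ k) q).trans
          (mul_dvd_mul (Nat.gcd_dvd_right _ _) hw)
      obtain ⟨i1, i2⟩ := ih (2 ^ k * q) (p - 2 ^ k * q) (by omega) (by omega) (by omega) hg'
      constructor
      · have h4 : s p ≤ s (2 ^ k * q) + s (p - 2 ^ k * q) := by
          have := s_add p (2 ^ k * q) (p - 2 ^ k * q) (by omega)
          rwa [show 2 ^ k * q + (p - 2 ^ k * q) = p by omega] at this
        calc s p ≤ s (2 ^ k * q) + s (p - 2 ^ k * q) := h4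
          _ ≤ 2 ^ (1 + len (2 ^ k * q) (p - 2 ^ k * q)) := by rw [pow_add]; omega
      · rw [s_pow_mul] at i1
        rw [pow_add]; omega

lemma s_mersenne (t : ℕ) : s (2 ^ t - 1) = t := by
  induction t with
  | zero => simp [s_zero]
  | succ t ih =>
    have h : 1 ≤ 2 ^ t := Nat.one_le_two_pow
    rw [show 2 ^ (t + 1) - 1 = 2 * (2 ^ t - 1) + 1 by rw [pow_succ]; omega, s_odd, ih]

/-- unboundedness -/
lemma le_len (e t : ℕ) (he : 1 ≤ e) : t + 1 ≤ 2 ^ len (2 ^ e * (2 ^ t - 1) + 1) 1 := by
  have h1 := (s_le (2 ^ e * (2 ^ t - 1) + 1 + 1) (2 ^ e * (2 ^ t - 1) + 1) 1 le_rfl le_rfl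
    (by omega) ⟨0, by simp⟩).1
  obtain ⟨j, rfl⟩ : ∃ j, e = j + 1 := ⟨e - 1, by omega⟩
  rw [pow_succ', mul_assoc, s_odd, s_pow_mul, s_mersenne] at h1
  rw [pow_succ', mul_assoc]
  exact h1

end Pool.Agent.R341.Clog
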