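import Mathlib

set_option autoImplicit false

namespace Pool.Agent.R341.Desc30

/-- four number lemma -/
lemma four {s t a b : ℕ} (h : s * t = a * b) (hst : Nat.Coprime s t) (hab : Nat.Coprime a b) :
    ∃ a1 a2 b1 b2 : ℕ, a = a1 * a2 ∧ b = b1 * b2 ∧ s = a1 * b1 ∧ t = a2 * b2 := by
  refine ⟨Nat.gcd s a, Nat.gcd t a, Nat.gcd s b, Nat.gcd t b, ?_, ?_, ?_, ?_⟩
  · rw [Nat.gcd_comm s a, Nat.gcd_comm t a, ← Nat.Coprime.gcd_mul a hst, h]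
    simp
  · rw [Nat.gcd_comm s b, Nat.gcd_comm t b, ← Nat.Coprime.gcd_mul b hst, h]
    simp
  · rw [← Nat.Coprime.gcd_mul s hab, ← h]
    simp
  · rw [← Nat.Coprime.gcd_mul t hab, ← h]
    simp

/-- coprime factors of a square are squares -/
lemma sq_of_coprime_mul {m n w : ℕ} (h : m * n = w ^ 2) (hc : Nat.Coprime m n) :
    ∃ s t : ℕ, m = s ^ 2 ∧ n = t ^ 2 ∧ s * t = w := by
  obtain ⟨s, hs⟩ := exists_eq_pow_of_mul_eq_pow (Nat.isUnit_iff.2 hc) h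
  obtain ⟨t, ht⟩ := exists_eq_pow_of_mul_eq_pow (a := n) (b := m) (c := w) (k := 2)
    (Nat.isUnit_iff.2 hc.symm) (by rw [mul_comm]; exact h)
  refine ⟨s, t, hs, ht, ?_⟩
  have : (s * t) ^ 2 = w ^ 2 := by rw [mul_pow, ← hs, ← ht, h]
  exact Nat.pow_left_injective (n := 2) (by norm_num) this

lemma coprime_of_sq {s t m n : ℕ} (hc : Nat.Coprime m n) (hs : s ∣ m) (ht : t ∣ n) :
    Nat.Coprime s t := Nat.Coprime.coprime_dvd_left hs (Nat.Coprime.coprime_dvd_right ht hc)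

lemma split_left {c m n w : ℕ} (hcpos : 0 < c) (h : c * m * n = c * w ^ 2)
    (hc : Nat.Coprime (c * m) n) :
    ∃ s t : ℕ, s * t = w ∧ Nat.Coprime s t ∧ m = s ^ 2 ∧ n = t ^ 2 := by
  have h6 : m * n = w ^ 2 := by
    apply Nat.eq_of_mul_eq_mul_left hcpos
    rw [← mul_assoc]; exact h
  obtain ⟨s, t, hs, ht, hst⟩ := sq_of_coprime_mul h6
    (coprime_of_sq hc (Dvd.intro_left _ rfl) dvd_rfl)
  refine ⟨s, t, hst, ?_, hs, ht⟩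
  exact coprime_of_sq hc (Dvd.dvd.mul_left (by rw [hs]; exact dvd_pow_self s (by norm_num)) c)
      (by rw [ht]; exact dvd_pow_self t (by norm_num))

/-- splitting off a prime -/
lemma split_prime {p m n w : ℕ} (hp : p.Prime) (h : m * n = p * w ^ 2) (hc : Nat.Coprime m n) :
    ∃ s t : ℕ, s * t = w ∧ Nat.Coprime s t ∧
      ((m = p * s ^ 2 ∧ n = t ^ 2) ∨ (n = p * s ^ 2 ∧ m = t ^ 2)) := by
  have h5 : p ∣ m * n := by rw [h]; exact Dvd.intro _ rfl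
  rcases (Nat.Prime.dvd_mul hp).1 h5 with h5 | h5
  · obtain ⟨m', rfl⟩ := h5
    obtain ⟨s, t, h1, h2, h3, h4⟩ := split_left hp.pos h hc
    exact ⟨s, t, h1, h2, Or.inl ⟨by rw [h3], h4⟩⟩
  · obtain ⟨n', rfl⟩ := h5
    obtain ⟨s, t, h1, h2, h3, h4⟩ := split_left hp.pos (by rw [mul_comm]; exact h) hc.symm
    exact ⟨s, t, h1, h2, Or.inr ⟨by rw [h3], h4⟩⟩

/-- splitting off 8 -/
lemma split_eight {m n w : ℕ} (h : m * n = 8 * w ^ 2) (hc : Nat.Coprime m n) :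
    ∃ s t : ℕ, s * t = w ∧ Nat.Coprime s t ∧ t % 2 = 1 ∧
      ((m = 8 * s ^ 2 ∧ n = t ^ 2) ∨ (n = 8 * s ^ 2 ∧ m = t ^ 2)) := by
  have h5 : 2 ∣ m * n := by rw [h]; exact ⟨4 * w ^ 2, by ring⟩
  have h8 : 8 ∣ m * n := by rw [h]; exact Dvd.intro _ rfl
  have odd_of : ∀ t : ℕ, t ^ 2 % 2 = 1 → t % 2 = 1 := by
    intro t ht
    by_contra h0
    have h1 : t % 2 = 0 := by omega
    rw [Nat.pow_mod, h1] at ht
    simp at ht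
  rcases (Nat.Prime.dvd_mul Nat.prime_two).1 h5 with h5 | h5
  · have hn : Nat.Coprime 2 n := Nat.Coprime.coprime_dvd_left h5 hc
    have hn1 : n % 2 = 1 := Nat.odd_iff.1 (Nat.coprime_two_left.1 hn)
    have h9 : 8 ∣ m := (Nat.Coprime.pow_left 3 hn).dvd_of_dvd_mul_right h8
    obtain ⟨m', rfl⟩ := h9
    obtain ⟨s, t, h1, h2, h3, h4⟩ := split_left (by norm_num) h hc
    refine ⟨s, t, h1, h2, odd_of t (by rw [← h4]; exact hn1), Or.inl ⟨by rw [h3], h4⟩⟩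
  · have hn : Nat.Coprime 2 m := Nat.Coprime.coprime_dvd_left h5 hc.symm
    have hn1 : m % 2 = 1 := Nat.odd_iff.1 (Nat.coprime_two_left.1 hn)
    have h9 : 8 ∣ n := (Nat.Coprime.pow_left 3 hn).dvd_of_dvd_mul_left h8
    obtain ⟨n', rfl⟩ := h9
    obtain ⟨s, t, h1, h2, h3, h4⟩ := split_left (by norm_num) (by rw [mul_comm]; exact h) hc.symm
    refine ⟨s, t, h1, h2, odd_of t (by rw [← h4]; exact hn1), Or.inr ⟨by rw [h3], h4⟩⟩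

/-- divisors of 27 congruent to 1 modulo 8 -/
lemma dvd27 {κ : ℕ} (h : κ ∣ 27) (h8 : κ % 8 = 1) : ∃ k : ℕ, κ = k ^ 2 ∧ (k = 1 ∨ k = 3) := by
  have h1 : κ ≤ 27 := Nat.le_of_dvd (by norm_num) h
  have h2 : κ = 1 ∨ κ = 9 := by interval_cases κ <;> omega
  rcases h2 with rfl | rfl
  · exact ⟨1, by norm_num, Or.inl rfl⟩
  · exact ⟨3, by norm_num, Or.inr rfl⟩

lemma dvd27' {κ : ℕ} (h : κ ∣ 27) (h8 : κ % 8 = 7) : False := by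
  have h1 : κ ≤ 27 := Nat.le_of_dvd (by norm_num) h
  interval_cases κ <;> omega

lemma sq_mod8 {a : ℕ} (h : a % 2 = 1) : a ^ 2 % 8 = 1 := by
  obtain ⟨k, hk⟩ : ∃ k, a = 2 * k + 1 := ⟨a / 2, by omega⟩
  obtain ⟨j, hj | hj⟩ := Nat.even_or_odd' k
  · subst hj; rw [hk]; ring_nf; omega
  · subst hj; rw [hk]; ring_nf; omega

lemma sq_mod8' (z : ℕ) : z ^ 2 % 8 = 0 ∨ z ^ 2 % 8 = 1 ∨ z ^ 2 % 8 = 4 := by
  rw [Nat.pow_mod]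
  have : z % 8 < 8 := Nat.mod_lt _ (by norm_num)
  interval_cases z % 8 <;> simp

/-- the common part: from `a1² F = b2² G` with `a1, b2` coprime -/
lemma kappa {a1 b2 F G : ℕ} (h : a1 ^ 2 * F = b2 ^ 2 * G) (hc : Nat.Coprime a1 b2)
    (hb : 0 < b2) : ∃ κ : ℕ, F = κ * b2 ^ 2 ∧ G = κ * a1 ^ 2 := by
  have h1 : b2 ^ 2 ∣ a1 ^ 2 * F := by rw [h]; exact Dvd.intro _ rfl
  have h2 : b2 ^ 2 ∣ F := (Nat.Coprime.pow 2 2 hc.symm).dvd_of_dvd_mul_left h1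
  obtain ⟨κ, hκ⟩ := h2
  refine ⟨κ, by rw [hκ, mul_comm], ?_⟩
  have h3 : b2 ^ 2 * (a1 ^ 2 * κ) = b2 ^ 2 * G := by rw [← h, hκ]; ring
  have h4 := Nat.eq_of_mul_eq_mul_left (by positivity) h3
  rw [← h4, mul_comm]

/-- if `κ` divides `27 x²` and `27 y²` with `x, y` coprime then it divides `27` -/
lemma dvd27_of {κ x y : ℕ} (h1 : κ ∣ 27 * x ^ 2) (h2 : κ ∣ 27 * y ^ 2) (hc : Nat.Coprime x y) :
    κ ∣ 27 := by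
  have h3 : κ ∣ Nat.gcd (27 * x ^ 2) (27 * y ^ 2) := Nat.dvd_gcd h1 h2
  rw [Nat.gcd_mul_left, Nat.Coprime.pow 2 2 hc] at h3
  simpa using h3

/-- from `a1² (e a2² + 5 b1²) = b2² (a2² + f b1²)`, `e f = 32`: the common multiplier -/
lemma main_kappa {e f a1 a2 b1 b2 : ℕ} (hef : e * f = 32) (h8 : f % 8 = 0)
    (key : a1 ^ 2 * (e * a2 ^ 2 + 5 * b1 ^ 2) = b2 ^ 2 * (a2 ^ 2 + f * b1 ^ 2))
    (c12 : Nat.Coprime a1 b2) (c21 : Nat.Coprime a2 b1) (hb2 : 0 < b2)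
    (ha18 : a1 ^ 2 % 8 = 1) (ha28 : a2 ^ 2 % 8 = 1) :
    ∃ k : ℕ, (k = 1 ∨ k = 3) ∧ (k * b2) ^ 2 = e * a2 ^ 2 + 5 * b1 ^ 2 ∧
      (k * a1) ^ 2 = a2 ^ 2 + f * b1 ^ 2 := by
  obtain ⟨κ, k1, k2⟩ := kappa key c12 hb2
  have k1' : (e : ℤ) * (a2 : ℤ) ^ 2 + 5 * (b1 : ℤ) ^ 2 = κ * (b2 : ℤ) ^ 2 := by exact_mod_cast k1
  have k2' : (a2 : ℤ) ^ 2 + f * (b1 : ℤ) ^ 2 = κ * (a1 : ℤ) ^ 2 := by exact_mod_cast k2
  have hef' : (e : ℤ) * f = 32 := by exact_mod_cast hef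
  have hκ27 : κ ∣ 27 := by
    apply dvd27_of (x := a2) (y := b1) _ _ c21
    · have : (κ : ℤ) ∣ 27 * (a2 : ℤ) ^ 2 := by
        refine ⟨f * (b2 : ℤ) ^ 2 - 5 * (a1 : ℤ) ^ 2, ?_⟩
        linear_combination -(a2 : ℤ) ^ 2 * hef' + (f : ℤ) * k1' - 5 * k2'
      exact_mod_cast this
    · have : (κ : ℤ) ∣ 27 * (b1 : ℤ) ^ 2 := by
        refine ⟨e * (a1 : ℤ) ^ 2 - (b2 : ℤ) ^ 2, ?_⟩
        linear_combination -(b1 : ℤ) ^ 2 * hef' + (e : ℤ) * k2' - k1'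
      exact_mod_cast this
  have hκ8 : κ % 8 = 1 := by
    have e1 : (κ * a1 ^ 2) % 8 = κ % 8 := by
      rw [Nat.mul_mod, ha18]; simp
    have e2 : (f * b1 ^ 2) % 8 = 0 := by rw [Nat.mul_mod, h8]; simp
    rw [← e1, ← k2]
    omega
  obtain ⟨k, hk, hk'⟩ := dvd27 hκ27 hκ8
  exact ⟨k, hk', by rw [k1, hk]; ring, by rw [k2, hk]; ring⟩

/-- the impossible sign: `a1² (e a2² - 5 b1²) = b2² (f b1² - a2²)` -/
lemma neg_kappa {e f a1 a2 b1 b2 : ℕ} (hef : e * f = 32) (h8 : f % 8 = 0) (he : 0 < e)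
    (key : (a1 : ℤ) ^ 2 * (e * (a2 : ℤ) ^ 2 - 5 * (b1 : ℤ) ^ 2)
          = (b2 : ℤ) ^ 2 * (f * (b1 : ℤ) ^ 2 - (a2 : ℤ) ^ 2))
    (c12 : Nat.Coprime a1 b2) (c21 : Nat.Coprime a2 b1) (ha1 : 0 < a1) (hb1 : 0 < b1)
    (hb2 : 0 < b2)
    (ha18 : a1 ^ 2 % 8 = 1) (ha28 : a2 ^ 2 % 8 = 1) : False := by
  have hef' : (e : ℤ) * f = 32 := by exact_mod_cast hef
  have he' : (0 : ℤ) < e := by exact_mod_cast he
  have hb1p : (0 : ℤ) < (b1 : ℤ) ^ 2 := by positivity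
  have hb2p : (0 : ℤ) < (b2 : ℤ) ^ 2 := by positivity
  have ha1p : (0 : ℤ) < (a1 : ℤ) ^ 2 := by positivity
  have hG : (0 : ℤ) ≤ f * (b1 : ℤ) ^ 2 - (a2 : ℤ) ^ 2 := by
    by_contra h0
    push Not at h0
    have h1 : (b2 : ℤ) ^ 2 * (f * (b1 : ℤ) ^ 2 - (a2 : ℤ) ^ 2) < 0 :=
      mul_neg_of_pos_of_neg hb2p h0
    have h3 : (e : ℤ) * (f * (b1 : ℤ) ^ 2 - (a2 : ℤ) ^ 2) < 0 := mul_neg_of_pos_of_neg he' h0
    have h4 : (e : ℤ) * (f * (b1 : ℤ) ^ 2 - (a2 : ℤ) ^ 2) = 32 * (b1 : ℤ) ^ 2 - e * (a2 : ℤ) ^ 2 := by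
      rw [← hef']; ring
    have h2 : 0 < (a1 : ℤ) ^ 2 * (e * (a2 : ℤ) ^ 2 - 5 * (b1 : ℤ) ^ 2) :=
      mul_pos ha1p (by linarith)
    linarith
  have hF : (0 : ℤ) ≤ e * (a2 : ℤ) ^ 2 - 5 * (b1 : ℤ) ^ 2 := by
    by_contra h0
    push Not at h0
    have h1 : (a1 : ℤ) ^ 2 * (e * (a2 : ℤ) ^ 2 - 5 * (b1 : ℤ) ^ 2) < 0 :=
      mul_neg_of_pos_of_neg ha1p h0
    have h2 : 0 ≤ (b2 : ℤ) ^ 2 * (f * (b1 : ℤ) ^ 2 - (a2 : ℤ) ^ 2) :=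
      mul_nonneg hb2p.le hG
    linarith
  obtain ⟨F, hF'⟩ : ∃ F : ℕ, (F : ℤ) = e * (a2 : ℤ) ^ 2 - 5 * (b1 : ℤ) ^ 2 :=
    ⟨_, Int.toNat_of_nonneg hF⟩
  obtain ⟨G, hG'⟩ : ∃ G : ℕ, (G : ℤ) = f * (b1 : ℤ) ^ 2 - (a2 : ℤ) ^ 2 :=
    ⟨_, Int.toNat_of_nonneg hG⟩
  have key' : a1 ^ 2 * F = b2 ^ 2 * G := by
    have : (a1 : ℤ) ^ 2 * F = (b2 : ℤ) ^ 2 * G := by rw [hF', hG', key]
    exact_mod_cast this
  obtain ⟨κ, k1, k2⟩ := kappa key' c12 hb2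
  have k1' : (F : ℤ) = κ * (b2 : ℤ) ^ 2 := by exact_mod_cast k1
  have k2' : (G : ℤ) = κ * (a1 : ℤ) ^ 2 := by exact_mod_cast k2
  have hκ27 : κ ∣ 27 := by
    apply dvd27_of (x := a2) (y := b1) _ _ c21
    · have : (κ : ℤ) ∣ 27 * (a2 : ℤ) ^ 2 := by
        refine ⟨f * (b2 : ℤ) ^ 2 + 5 * (a1 : ℤ) ^ 2, ?_⟩
        linear_combination -(a2 : ℤ) ^ 2 * hef' + (f : ℤ) * k1' + 5 * k2' - (f : ℤ) * hF' - 5 * hG'
      exact_mod_cast this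
    · have : (κ : ℤ) ∣ 27 * (b1 : ℤ) ^ 2 := by
        refine ⟨e * (a1 : ℤ) ^ 2 + (b2 : ℤ) ^ 2, ?_⟩
        linear_combination -(b1 : ℤ) ^ 2 * hef' + (e : ℤ) * k2' + k1' - (e : ℤ) * hG' - hF'
      exact_mod_cast this
  apply dvd27' hκ27
  have e1 : (κ * a1 ^ 2) % 8 = κ % 8 := by
    rw [Nat.mul_mod, ha18]; simp
  have e2 : a2 ^ 2 + G = f * b1 ^ 2 := by
    have : (a2 : ℤ) ^ 2 + G = f * (b1 : ℤ) ^ 2 := by rw [hG']; ring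
    exact_mod_cast this
  have e3 : (f * b1 ^ 2) % 8 = 0 := by rw [Nat.mul_mod, h8]; simp
  rw [← e1, ← k2]
  omega

end Pool.Agent.R341.Desc30
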