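import Pool.Agent.R341.Desc30

set_option autoImplicit false

namespace Pool.Agent.R341.Desc30

/-- a prime dividing `m`, `n` where `z = m + n`, `X = n - m` -/
lemma odd_factor {a : ℕ} {b : ℕ} (h : (a * b) % 2 = 1) : a % 2 = 1 ∧ b % 2 = 1 := by
  rw [Nat.mul_mod] at h
  rcases Nat.mod_two_eq_zero_or_one a with h1 | h1 <;>
  rcases Nat.mod_two_eq_zero_or_one b with h2 | h2 <;> simp [h1, h2] at h ⊢

/-- second step: `A² = a2² + f b1²`, `f = 8` or `32`. -/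
lemma second32 {A a2 b1 : ℕ} (q2 : A ^ 2 = a2 ^ 2 + 32 * b1 ^ 2) (ha2o : a2 % 2 = 1)
    (hb1 : 0 < b1) (c21 : Nat.Coprime a2 b1) :
    ∃ s t : ℕ, s * t = b1 ∧ Nat.Coprime s t ∧ t % 2 = 1 ∧
      (a2 : ℤ) ^ 2 = ((t : ℤ) ^ 2 - 8 * (s : ℤ) ^ 2) ^ 2 := by
  have hAo : A % 2 = 1 := by
    have h1 := sq_mod8 ha2o
    have h2 : A ^ 2 % 2 = 1 := by omega
    rcases Nat.mod_two_eq_zero_or_one A with h3 | h3
    · rw [Nat.pow_mod, h3] at h2; simp at h2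
    · exact h3
  have hA2 : a2 < A := by
    have : a2 ^ 2 < A ^ 2 := by rw [q2]; have : 0 < b1 ^ 2 := by positivity
                                omega
    exact lt_of_pow_lt_pow_left₀ 2 (by positivity) this
  obtain ⟨p, hp⟩ : ∃ p, A - a2 = 2 * p := ⟨(A - a2) / 2, by omega⟩
  obtain ⟨q, hq⟩ : ∃ q, A + a2 = 2 * q := ⟨(A + a2) / 2, by omega⟩
  have hAp : A = p + q := by omega
  have ha2p : q = a2 + p := by omega
  have hpq : p * q = 8 * b1 ^ 2 := by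
    have h1 : 4 * (p * q) = 4 * (8 * b1 ^ 2) := by
      have h2 : (A : ℤ) ^ 2 = (a2 : ℤ) ^ 2 + 32 * (b1 : ℤ) ^ 2 := by exact_mod_cast q2
      have h3 : (A : ℤ) = p + q := by exact_mod_cast hAp
      have h4 : (q : ℤ) = a2 + p := by exact_mod_cast ha2p
      have h5 : (4 : ℤ) * (p * q) = 4 * (8 * (b1 : ℤ) ^ 2) := by
        rw [h3] at h2
        linear_combination h2 + (q - p + a2 : ℤ) * (-h4)
      exact_mod_cast h5
    omega
  have hppos : 0 < p := by omega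
  have hpqc : Nat.Coprime p q := by
    apply Nat.Coprime.symm
    apply Nat.coprime_of_dvd
    intro ℓ hℓ h1 h2
    have h3 : ℓ ∣ a2 := by
      rw [ha2p] at h1
      exact (Nat.dvd_add_left h2).1 h1
    have hℓ2 : ℓ ≠ 2 := by rintro rfl; omega
    have h4 : ℓ ^ 2 ∣ 8 * b1 ^ 2 := by rw [← hpq, pow_two]; exact mul_dvd_mul h2 h1
    have h5 : Nat.Coprime ℓ b1 := Nat.Coprime.coprime_dvd_left h3 c21
    have h6 : ℓ ^ 2 ∣ 8 := (Nat.Coprime.pow 2 2 h5).dvd_of_dvd_mul_right h4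
    have h7 : ℓ ∣ 2 ^ 3 := dvd_trans (dvd_pow_self ℓ (by norm_num)) h6
    have h8 := Nat.Prime.dvd_of_dvd_pow hℓ h7
    exact hℓ2 ((Nat.prime_dvd_prime_iff_eq hℓ Nat.prime_two).1 h8)
  obtain ⟨s, t, h1, h2, h3, h4⟩ := split_eight hpq hpqc
  refine ⟨s, t, h1, h2, h3, ?_⟩
  have e3 : (q : ℤ) = a2 + p := by exact_mod_cast ha2p
  rcases h4 with ⟨h5, h6⟩ | ⟨h5, h6⟩
  · have h5' : (p : ℤ) = 8 * (s : ℤ) ^ 2 := by exact_mod_cast h5
    have h6' : (q : ℤ) = (t : ℤ) ^ 2 := by exact_mod_cast h6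
    have : (a2 : ℤ) = (t : ℤ) ^ 2 - 8 * (s : ℤ) ^ 2 := by linarith
    rw [this]
  · have h5' : (q : ℤ) = 8 * (s : ℤ) ^ 2 := by exact_mod_cast h5
    have h6' : (p : ℤ) = (t : ℤ) ^ 2 := by exact_mod_cast h6
    have : (a2 : ℤ) = 8 * (s : ℤ) ^ 2 - (t : ℤ) ^ 2 := by linarith
    rw [this]; ring

/-- second step: `A² = a2² + 8 b1²` -/
lemma second8 {A a2 b1 : ℕ} (q2 : A ^ 2 = a2 ^ 2 + 8 * b1 ^ 2) (ha2o : a2 % 2 = 1)
    (hb1 : 0 < b1) (c21 : Nat.Coprime a2 b1) :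
    ∃ s t : ℕ, s * t = b1 ∧ Nat.Coprime s t ∧
      (a2 : ℤ) ^ 2 = ((t : ℤ) ^ 2 - 2 * (s : ℤ) ^ 2) ^ 2 := by
  have hAo : A % 2 = 1 := by
    have h1 := sq_mod8 ha2o
    have h2 : A ^ 2 % 2 = 1 := by omega
    rcases Nat.mod_two_eq_zero_or_one A with h3 | h3
    · rw [Nat.pow_mod, h3] at h2; simp at h2
    · exact h3
  have hA2 : a2 < A := by
    have : a2 ^ 2 < A ^ 2 := by rw [q2]; have : 0 < b1 ^ 2 := by positivity
                                omega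
    exact lt_of_pow_lt_pow_left₀ 2 (by positivity) this
  obtain ⟨p, hp⟩ : ∃ p, A - a2 = 2 * p := ⟨(A - a2) / 2, by omega⟩
  obtain ⟨q, hq⟩ : ∃ q, A + a2 = 2 * q := ⟨(A + a2) / 2, by omega⟩
  have hAp : A = p + q := by omega
  have ha2p : q = a2 + p := by omega
  have hpq : p * q = 2 * b1 ^ 2 := by
    have h1 : 4 * (p * q) = 4 * (2 * b1 ^ 2) := by
      have h2 : (A : ℤ) ^ 2 = (a2 : ℤ) ^ 2 + 8 * (b1 : ℤ) ^ 2 := by exact_mod_cast q2
      have h3 : (A : ℤ) = p + q := by exact_mod_cast hAp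
      have h4 : (q : ℤ) = a2 + p := by exact_mod_cast ha2p
      have h5 : (4 : ℤ) * (p * q) = 4 * (2 * (b1 : ℤ) ^ 2) := by
        rw [h3] at h2
        linear_combination h2 + (q - p + a2 : ℤ) * (-h4)
      exact_mod_cast h5
    omega
  have hppos : 0 < p := by omega
  have hpqc : Nat.Coprime p q := by
    apply Nat.Coprime.symm
    apply Nat.coprime_of_dvd
    intro ℓ hℓ h1 h2
    have h3 : ℓ ∣ a2 := by
      rw [ha2p] at h1
      exact (Nat.dvd_add_left h2).1 h1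
    have hℓ2 : ℓ ≠ 2 := by rintro rfl; omega
    have h4 : ℓ ^ 2 ∣ 2 * b1 ^ 2 := by rw [← hpq, pow_two]; exact mul_dvd_mul h2 h1
    have h5 : Nat.Coprime ℓ b1 := Nat.Coprime.coprime_dvd_left h3 c21
    have h6 : ℓ ^ 2 ∣ 2 := (Nat.Coprime.pow 2 2 h5).dvd_of_dvd_mul_right h4
    have h7 : ℓ ∣ 2 := dvd_trans (dvd_pow_self ℓ (by norm_num)) h6
    exact hℓ2 ((Nat.prime_dvd_prime_iff_eq hℓ Nat.prime_two).1 h7)
  obtain ⟨s, t, h1, h2, h4⟩ := split_prime Nat.prime_two hpq hpqc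
  refine ⟨s, t, h1, h2, ?_⟩
  have e3 : (q : ℤ) = a2 + p := by exact_mod_cast ha2p
  rcases h4 with ⟨h5, h6⟩ | ⟨h5, h6⟩
  · have h5' : (p : ℤ) = 2 * (s : ℤ) ^ 2 := by exact_mod_cast h5
    have h6' : (q : ℤ) = (t : ℤ) ^ 2 := by exact_mod_cast h6
    have : (a2 : ℤ) = (t : ℤ) ^ 2 - 2 * (s : ℤ) ^ 2 := by linarith
    rw [this]
  · have h5' : (q : ℤ) = 2 * (s : ℤ) ^ 2 := by exact_mod_cast h5
    have h6' : (p : ℤ) = (t : ℤ) ^ 2 := by exact_mod_cast h6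
    have : (a2 : ℤ) = 2 * (s : ℤ) ^ 2 - (t : ℤ) ^ 2 := by linarith
    rw [this]; ring

/-- first step, type (ii): `z² = X² + 20 a² c²`, `X = a² - 32 c²` -/
lemma first_two {a c z : ℕ} (hodd : a % 2 = 1) (hc : 0 < c) (ha : 0 < a) (hac : Nat.Coprime a c)
    (hz : z % 2 = 1)
    (hZ : (z : ℤ) ^ 2 = ((a : ℤ) ^ 2 - 32 * (c : ℤ) ^ 2) ^ 2 + 20 * (a : ℤ) ^ 2 * (c : ℤ) ^ 2) :
    ∃ s t : ℕ, s * t = a * c ∧ Nat.Coprime s t ∧
        (((a : ℤ) ^ 2 - 32 * (c : ℤ) ^ 2 = (t : ℤ) ^ 2 - 5 * (s : ℤ) ^ 2) ∨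
          ((a : ℤ) ^ 2 - 32 * (c : ℤ) ^ 2 = 5 * (s : ℤ) ^ 2 - (t : ℤ) ^ 2)) := by
  have ha8 := sq_mod8 hodd
  obtain ⟨X, hX⟩ : ∃ X : ℤ, X = (a : ℤ) ^ 2 - 32 * (c : ℤ) ^ 2 := ⟨_, rfl⟩
  rw [← hX] at hZ ⊢
  have hacpos : (0 : ℤ) < 20 * (a : ℤ) ^ 2 * (c : ℤ) ^ 2 := by positivity
  have hXz : |X| < (z : ℤ) := by
    apply abs_lt_of_sq_lt_sq _ (by positivity)
    rw [hZ]; linarith
  have hX1 := (abs_lt.1 hXz).1
  have hX2 := (abs_lt.1 hXz).2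
  have hXodd : X % 2 = 1 := by
    have e1 : (a : ℤ) ^ 2 % 8 = 1 := by exact_mod_cast ha8
    omega
  obtain ⟨m, hm⟩ : ∃ m : ℕ, (z : ℤ) - X = 2 * m := ⟨((z - X) / 2).toNat, by omega⟩
  obtain ⟨n', hn'⟩ : ∃ m : ℕ, (z : ℤ) + X = 2 * m := ⟨((z + X) / 2).toNat, by omega⟩
  have hz1 : (z : ℤ) = m + n' := by linarith
  have hX3 : X = n' - m := by linarith
  have hmn : m * n' = 5 * (a * c) ^ 2 := by
    have h1 : 4 * ((m : ℤ) * n') = 4 * (5 * ((a : ℤ) * c) ^ 2) := by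
      rw [hz1, hX3] at hZ
      linear_combination hZ
    have : (m : ℤ) * n' = 5 * ((a : ℤ) * c) ^ 2 := by linarith
    exact_mod_cast this
  have hcop : Nat.Coprime m n' := by
    apply Nat.Coprime.symm
    apply Nat.coprime_of_dvd
    intro p hp hpn hpm
    have hpz : (p : ℤ) ∣ z := by
      rw [hz1]
      exact dvd_add (Int.natCast_dvd_natCast.2 hpm) (Int.natCast_dvd_natCast.2 hpn)
    have hpX : (p : ℤ) ∣ X := by
      rw [hX3]
      exact dvd_sub (Int.natCast_dvd_natCast.2 hpn) (Int.natCast_dvd_natCast.2 hpm)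
    have hp2 : p ≠ 2 := by
      rintro rfl
      have : (2 : ℤ) ∣ z := hpz
      omega
    have hpp : p ^ 2 ∣ 5 * (a * c) ^ 2 := by
      rw [← hmn, pow_two]; exact mul_dvd_mul hpm hpn
    have hpac : p ∣ a * c := by
      by_contra hno
      have h1 : Nat.Coprime p (a * c) := (Nat.Prime.coprime_iff_not_dvd hp).2 hno
      have h2 : p ^ 2 ∣ 5 := (Nat.Coprime.pow 2 2 h1).dvd_of_dvd_mul_right hpp
      have h3 := Nat.le_of_dvd (by norm_num) h2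
      have h4 := hp.two_le
      have h5 : p ≤ 2 := by
        by_contra h6
        have : 3 ^ 2 ≤ p ^ 2 := Nat.pow_le_pow_left (by omega) 2
        omega
      omega
    rcases (Nat.Prime.dvd_mul hp).1 hpac with h1 | h1
    · have h2 : (p : ℤ) ∣ 32 * (c : ℤ) ^ 2 := by
        have : 32 * (c : ℤ) ^ 2 = (a : ℤ) ^ 2 - X := by rw [hX]; ring
        rw [this]
        exact dvd_sub (dvd_pow (Int.natCast_dvd_natCast.2 h1) (by norm_num)) hpX
      have h3 : p ∣ 32 * c ^ 2 := by exact_mod_cast h2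
      rcases (Nat.Prime.dvd_mul hp).1 h3 with h4 | h4
      · have : p ∣ 2 := Nat.Prime.dvd_of_dvd_pow (n := 5) hp (by simpa using h4)
        exact hp2 ((Nat.prime_dvd_prime_iff_eq hp Nat.prime_two).1 this)
      · have h5 := Nat.Prime.dvd_of_dvd_pow hp h4
        exact Nat.not_coprime_of_dvd_of_dvd hp.one_lt h1 h5 hac
    · have h2 : (p : ℤ) ∣ (a : ℤ) ^ 2 := by
        have : (a : ℤ) ^ 2 = X + 32 * (c : ℤ) ^ 2 := by rw [hX]; ring
        rw [this]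
        exact dvd_add hpX (Dvd.dvd.mul_left (dvd_pow (Int.natCast_dvd_natCast.2 h1) (by norm_num)) _)
      have h3 : p ∣ a ^ 2 := by exact_mod_cast h2
      have h5 := Nat.Prime.dvd_of_dvd_pow hp h3
      exact Nat.not_coprime_of_dvd_of_dvd hp.one_lt h5 h1 hac
  obtain ⟨s, t, h1, h2, h4⟩ := split_prime Nat.prime_five hmn hcop
  refine ⟨s, t, h1, h2, ?_⟩
  rcases h4 with ⟨h5, h6⟩ | ⟨h5, h6⟩
  · left
    have h5' : (m : ℤ) = 5 * (s : ℤ) ^ 2 := by exact_mod_cast h5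
    have h6' : (n' : ℤ) = (t : ℤ) ^ 2 := by exact_mod_cast h6
    rw [hX3, h5', h6']
  · right
    have h5' : (n' : ℤ) = 5 * (s : ℤ) ^ 2 := by exact_mod_cast h5
    have h6' : (m : ℤ) = (t : ℤ) ^ 2 := by exact_mod_cast h6
    rw [hX3, h5', h6']

/-- first step, type (i): `z² = X² + 5 a² b²`, `X = 2a² - 4b²`, `a, b` odd -/
lemma first_one {a b z : ℕ} (hao : a % 2 = 1) (hbo : b % 2 = 1) (hac : Nat.Coprime a b)
    (hZ : (z : ℤ) ^ 2 = (2 * (a : ℤ) ^ 2 - 4 * (b : ℤ) ^ 2) ^ 2 + 5 * (a : ℤ) ^ 2 * (b : ℤ) ^ 2) :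
    ∃ s t : ℕ, s * t = a * b ∧ Nat.Coprime s t ∧
        ((2 * (2 * (a : ℤ) ^ 2 - 4 * (b : ℤ) ^ 2) = (t : ℤ) ^ 2 - 5 * (s : ℤ) ^ 2) ∨
          (2 * (2 * (a : ℤ) ^ 2 - 4 * (b : ℤ) ^ 2) = 5 * (s : ℤ) ^ 2 - (t : ℤ) ^ 2)) := by
  have ha : 0 < a := by omega
  have hb : 0 < b := by omega
  obtain ⟨X, hX⟩ : ∃ X : ℤ, X = 2 * (a : ℤ) ^ 2 - 4 * (b : ℤ) ^ 2 := ⟨_, rfl⟩
  rw [← hX] at hZ ⊢
  have hacpos : (0 : ℤ) < 5 * (a : ℤ) ^ 2 * (b : ℤ) ^ 2 := by positivity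
  have hXz : |X| < (z : ℤ) := by
    apply abs_lt_of_sq_lt_sq _ (by positivity)
    rw [hZ]; linarith
  have hX1 := (abs_lt.1 hXz).1
  have hX2 := (abs_lt.1 hXz).2
  obtain ⟨m, hm⟩ : ∃ m : ℕ, (z : ℤ) - X = m := ⟨(z - X).toNat, by omega⟩
  obtain ⟨n', hn'⟩ : ∃ m : ℕ, (z : ℤ) + X = m := ⟨(z + X).toNat, by omega⟩
  have hmn : m * n' = 5 * (a * b) ^ 2 := by
    have : (m : ℤ) * n' = 5 * ((a : ℤ) * b) ^ 2 := by
      rw [← hm, ← hn']
      linear_combination hZ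
    exact_mod_cast this
  have hmno : (m * n') % 2 = 1 := by
    rw [hmn, Nat.mul_mod, Nat.pow_mod, Nat.mul_mod a b, hao, hbo]
  obtain ⟨hmo, hno⟩ := odd_factor hmno
  have hcop : Nat.Coprime m n' := by
    apply Nat.Coprime.symm
    apply Nat.coprime_of_dvd
    intro p hp hpn hpm
    have hp2 : p ≠ 2 := by rintro rfl; omega
    have hpodd : Nat.Coprime p 4 := by
      have : Nat.Coprime p 2 := (Nat.coprime_primes hp Nat.prime_two).2 hp2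
      exact Nat.Coprime.pow_right 2 this
    have hpX : (p : ℤ) ∣ 2 * X := by
      have : 2 * X = n' - m := by linarith
      rw [this]
      exact dvd_sub (Int.natCast_dvd_natCast.2 hpn) (Int.natCast_dvd_natCast.2 hpm)
    have hpp : p ^ 2 ∣ 5 * (a * b) ^ 2 := by
      rw [← hmn, pow_two]; exact mul_dvd_mul hpm hpn
    have hpac : p ∣ a * b := by
      by_contra hno
      have h1 : Nat.Coprime p (a * b) := (Nat.Prime.coprime_iff_not_dvd hp).2 hno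
      have h2 : p ^ 2 ∣ 5 := (Nat.Coprime.pow 2 2 h1).dvd_of_dvd_mul_right hpp
      have h3 := Nat.le_of_dvd (by norm_num) h2
      have h4 := hp.two_le
      have h5 : p ≤ 2 := by
        by_contra h6
        have : 3 ^ 2 ≤ p ^ 2 := Nat.pow_le_pow_left (by omega) 2
        omega
      omega
    rcases (Nat.Prime.dvd_mul hp).1 hpac with h1 | h1
    · have h2 : (p : ℤ) ∣ 8 * (b : ℤ) ^ 2 := by
        have : 8 * (b : ℤ) ^ 2 = 4 * (a : ℤ) ^ 2 - 2 * X := by rw [hX]; ring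
        rw [this]
        exact dvd_sub (Dvd.dvd.mul_left (dvd_pow (Int.natCast_dvd_natCast.2 h1) (by norm_num)) _) hpX
      have h3 : p ∣ 8 * b ^ 2 := by exact_mod_cast h2
      rcases (Nat.Prime.dvd_mul hp).1 h3 with h4 | h4
      · have : p ∣ 2 := Nat.Prime.dvd_of_dvd_pow (n := 3) hp (by simpa using h4)
        exact hp2 ((Nat.prime_dvd_prime_iff_eq hp Nat.prime_two).1 this)
      · have h5 := Nat.Prime.dvd_of_dvd_pow hp h4
        exact Nat.not_coprime_of_dvd_of_dvd hp.one_lt h1 h5 hac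
    · have h2 : (p : ℤ) ∣ 4 * (a : ℤ) ^ 2 := by
        have : 4 * (a : ℤ) ^ 2 = 2 * X + 8 * (b : ℤ) ^ 2 := by rw [hX]; ring
        rw [this]
        exact dvd_add hpX (Dvd.dvd.mul_left (dvd_pow (Int.natCast_dvd_natCast.2 h1) (by norm_num)) _)
      have h3 : p ∣ 4 * a ^ 2 := by exact_mod_cast h2
      have h4 : p ∣ a ^ 2 := hpodd.dvd_of_dvd_mul_left h3
      have h5 := Nat.Prime.dvd_of_dvd_pow hp h4
      exact Nat.not_coprime_of_dvd_of_dvd hp.one_lt h5 h1 hac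
  obtain ⟨s, t, h1, h2, h4⟩ := split_prime Nat.prime_five hmn hcop
  refine ⟨s, t, h1, h2, ?_⟩
  rcases h4 with ⟨h5, h6⟩ | ⟨h5, h6⟩
  · left
    have h5' : (m : ℤ) = 5 * (s : ℤ) ^ 2 := by exact_mod_cast h5
    have h6' : (n' : ℤ) = (t : ℤ) ^ 2 := by exact_mod_cast h6
    linarith
  · right
    have h5' : (n' : ℤ) = 5 * (s : ℤ) ^ 2 := by exact_mod_cast h5
    have h6' : (m : ℤ) = (t : ℤ) ^ 2 := by exact_mod_cast h6
    linarith

end Pool.Agent.R341.Desc30
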