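import Pool.Agent.R341.Desc30b

set_option autoImplicit false

namespace Pool.Agent.R341.Desc30

/-- **Type (ii)**: `z² = a⁴ - 11 a² b² + 64 b⁴` has no solution in coprime positive integers `a`,
`b` with `a` odd. -/
theorem type_two (n : ℕ) : ∀ a b z : ℕ, b ≤ n → 0 < b → Nat.Coprime a b → a % 2 = 1 →
    (z : ℤ) ^ 2 = (a : ℤ) ^ 4 - 11 * (a : ℤ) ^ 2 * (b : ℤ) ^ 2 + 64 * (b : ℤ) ^ 4 → False := by
  induction n with
  | zero => intro a b z h1 h2; omega
  | succ n ih =>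
    intro a b z hbn hb hab hodd hz4
    have ha : 0 < a := by omega
    have ha8 := sq_mod8 hodd
    have h : z ^ 2 + 11 * a ^ 2 * b ^ 2 = a ^ 4 + 64 * b ^ 4 := by
      have : (z : ℤ) ^ 2 + 11 * (a : ℤ) ^ 2 * (b : ℤ) ^ 2 = (a : ℤ) ^ 4 + 64 * (b : ℤ) ^ 4 := by
        rw [hz4]; ring
      exact_mod_cast this
    -- b is even
    have hbe : b % 2 = 0 := by
      by_contra hb2
      have hb8 := sq_mod8 (a := b) (by omega)
      have e1 : (z ^ 2 + 11 * a ^ 2 * b ^ 2) % 8 = (a ^ 4 + 64 * b ^ 4) % 8 := by rw [h]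
      have e2 : (11 * a ^ 2 * b ^ 2) % 8 = 3 := by
        rw [Nat.mul_mod, Nat.mul_mod 11, ha8, hb8]
      have e3 : (a ^ 4 + 64 * b ^ 4) % 8 = 1 := by
        rw [show a ^ 4 = a ^ 2 * a ^ 2 by ring, Nat.add_mod, Nat.mul_mod (a ^ 2), ha8,
          Nat.mul_mod 64]
        norm_num
      have e4 := sq_mod8' z
      omega
    obtain ⟨c, rfl⟩ : ∃ c, b = 2 * c := ⟨b / 2, by omega⟩
    have hc : 0 < c := by omega
    have hac : Nat.Coprime a c := Nat.Coprime.coprime_dvd_right (Dvd.intro_left _ rfl) hab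
    -- z odd
    have hz : z % 2 = 1 := by
      have e1 : (z ^ 2 + 11 * a ^ 2 * (2 * c) ^ 2) % 2 = (a ^ 4 + 64 * (2 * c) ^ 4) % 2 := by rw [h]
      have e2 : (11 * a ^ 2 * (2 * c) ^ 2) % 2 = 0 := by
        rw [show 11 * a ^ 2 * (2 * c) ^ 2 = 2 * (22 * a ^ 2 * c ^ 2) by ring]; omega
      have e3 : (64 * (2 * c) ^ 4) % 2 = 0 := by
        rw [show 64 * (2 * c) ^ 4 = 2 * (512 * c ^ 4) by ring]; omega
      have e4 : a ^ 4 % 2 = 1 := by rw [Nat.pow_mod, hodd]
      by_contra hz2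
      have hz3 : z % 2 = 0 := by omega
      have e5 : z ^ 2 % 2 = 0 := by rw [Nat.pow_mod, hz3]
      omega
    have hZ : (z : ℤ) ^ 2 = ((a : ℤ) ^ 2 - 32 * (c : ℤ) ^ 2) ^ 2 + 20 * (a : ℤ) ^ 2 * (c : ℤ) ^ 2 := by
      rw [hz4]; push_cast; ring
    obtain ⟨s, t, hst, hcst, hcase⟩ := first_two hodd hc ha hac hz hZ
    obtain ⟨a1, a2, b1, b2, ea, eb, es, et⟩ := four hst hcst hac
    subst ea eb es et
    have hb1 : 0 < b1 := Nat.pos_of_ne_zero (by rintro rfl; simp at hc)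
    have hb2 : 0 < b2 := Nat.pos_of_ne_zero (by rintro rfl; simp at hc)
    obtain ⟨ha1o, ha2o⟩ := odd_factor hodd
    have ha1 : 0 < a1 := by omega
    have c12 : Nat.Coprime a1 b2 := coprime_of_sq hac (Dvd.intro _ rfl) (Dvd.intro_left _ rfl)
    have c21 : Nat.Coprime a2 b1 := coprime_of_sq hac (Dvd.intro_left _ rfl) (Dvd.intro _ rfl)
    have ha18 := sq_mod8 ha1o
    have ha28 := sq_mod8 ha2o
    push_cast at hcase
    rcases hcase with hcase | hcase
    · have key : a1 ^ 2 * (1 * a2 ^ 2 + 5 * b1 ^ 2) = b2 ^ 2 * (a2 ^ 2 + 32 * b1 ^ 2) := by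
        have : (a1 : ℤ) ^ 2 * (1 * (a2 : ℤ) ^ 2 + 5 * (b1 : ℤ) ^ 2)
            = (b2 : ℤ) ^ 2 * ((a2 : ℤ) ^ 2 + 32 * (b1 : ℤ) ^ 2) := by
          linear_combination hcase
        exact_mod_cast this
      obtain ⟨k, -, q1, q2⟩ := main_kappa (by norm_num) (by norm_num) key c12 c21 hb2 ha18 ha28
      obtain ⟨s, t, hst2, hcst2, hto, ha2⟩ := second32 q2 ha2o hb1 c21
      have hspos : 0 < s := Nat.pos_of_ne_zero (by rintro rfl; simp at hst2; omega)
      have htpos : 0 < t := by omega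
      refine ih t s (k * b2) ?_ hspos hcst2.symm hto ?_
      · have h1 : s ≤ b1 := by rw [← hst2]; exact Nat.le_mul_of_pos_right s htpos
        have h2 : b1 ≤ b1 * b2 := Nat.le_mul_of_pos_right b1 hb2
        omega
      · have q1' : ((k * b2 : ℕ) : ℤ) ^ 2 = 1 * (a2 : ℤ) ^ 2 + 5 * (b1 : ℤ) ^ 2 := by
          exact_mod_cast q1
        have hb1' : (b1 : ℤ) = s * t := by exact_mod_cast hst2.symm
        rw [q1', ha2, hb1']
        ring
    · refine neg_kappa (e := 1) (f := 32) (by norm_num) (by norm_num) (by norm_num) ?_ c12 c21 ha1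
        hb1 hb2 ha18 ha28
      push_cast
      linear_combination hcase

/-- **Type (i)**: the only solution of `z² = 4 a⁴ - 11 a² b² + 16 b⁴` in coprime odd positive
integers is `a = b = 1`. -/
theorem type_one (n : ℕ) : ∀ a b z : ℕ, a * b ≤ n → Nat.Coprime a b → a % 2 = 1 → b % 2 = 1 →
    (z : ℤ) ^ 2 = 4 * (a : ℤ) ^ 4 - 11 * (a : ℤ) ^ 2 * (b : ℤ) ^ 2 + 16 * (b : ℤ) ^ 4 →
    a = 1 ∧ b = 1 := by
  induction n with
  | zero =>
    intro a b z h1 _ h2 h3
    have : 0 < a * b := Nat.mul_pos (by omega) (by omega)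
    omega
  | succ n ih =>
    intro a b z habn hab hao hbo hz4
    have hZ : (z : ℤ) ^ 2
        = (2 * (a : ℤ) ^ 2 - 4 * (b : ℤ) ^ 2) ^ 2 + 5 * (a : ℤ) ^ 2 * (b : ℤ) ^ 2 := by
      rw [hz4]; ring
    obtain ⟨s, t, hst, hcst, hcase⟩ := first_one hao hbo hab hZ
    obtain ⟨a1, a2, b1, b2, ea, eb, es, et⟩ := four hst hcst hab
    subst ea eb es et
    obtain ⟨ha1o, ha2o⟩ := odd_factor hao
    obtain ⟨hb1o, hb2o⟩ := odd_factor hbo
    have hb1 : 0 < b1 := by omega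
    have hb2 : 0 < b2 := by omega
    have ha1 : 0 < a1 := by omega
    have c12 : Nat.Coprime a1 b2 := coprime_of_sq hab (Dvd.intro _ rfl) (Dvd.intro_left _ rfl)
    have c21 : Nat.Coprime a2 b1 := coprime_of_sq hab (Dvd.intro_left _ rfl) (Dvd.intro _ rfl)
    have ha18 := sq_mod8 ha1o
    have ha28 := sq_mod8 ha2o
    push_cast at hcase
    rcases hcase with hcase | hcase
    · have key : a1 ^ 2 * (4 * a2 ^ 2 + 5 * b1 ^ 2) = b2 ^ 2 * (a2 ^ 2 + 8 * b1 ^ 2) := by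
        have : (a1 : ℤ) ^ 2 * (4 * (a2 : ℤ) ^ 2 + 5 * (b1 : ℤ) ^ 2)
            = (b2 : ℤ) ^ 2 * ((a2 : ℤ) ^ 2 + 8 * (b1 : ℤ) ^ 2) := by
          linear_combination hcase
        exact_mod_cast this
      obtain ⟨k, hk, q1, q2⟩ := main_kappa (by norm_num) (by norm_num) key c12 c21 hb2 ha18 ha28
      obtain ⟨s, t, hst2, hcst2, ha2⟩ := second8 q2 ha2o hb1 c21
      have hspos : 0 < s := Nat.pos_of_ne_zero (by rintro rfl; simp at hst2; omega)
      have htpos : 0 < t := Nat.pos_of_ne_zero (by rintro rfl; simp at hst2; omega)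
      obtain ⟨hso, hto⟩ : s % 2 = 1 ∧ t % 2 = 1 := odd_factor (by rw [hst2]; exact hb1o)
      have hnew : ((k * b2 : ℕ) : ℤ) ^ 2
          = 4 * (t : ℤ) ^ 4 - 11 * (t : ℤ) ^ 2 * (s : ℤ) ^ 2 + 16 * (s : ℤ) ^ 4 := by
        have q1' : ((k * b2 : ℕ) : ℤ) ^ 2 = 4 * (a2 : ℤ) ^ 2 + 5 * (b1 : ℤ) ^ 2 := by
          exact_mod_cast q1
        have hb1' : (b1 : ℤ) = s * t := by exact_mod_cast hst2.symm
        rw [q1', ha2, hb1']
        ring
      -- conclude from `s = t = 1`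
      have hfin : b1 = 1 → a2 = 1 → a1 * a2 = 1 ∧ b1 * b2 = 1 := by
        intro e1 e2
        rw [e1, e2] at q1 q2
        have q1'' : k * b2 = 3 := by
          have : (k * b2) ^ 2 = 3 ^ 2 := by rw [q1]; norm_num
          exact Nat.pow_left_injective (n := 2) (by norm_num) this
        have q2'' : k * a1 = 3 := by
          have : (k * a1) ^ 2 = 3 ^ 2 := by rw [q2]; norm_num
          exact Nat.pow_left_injective (n := 2) (by norm_num) this
        rcases hk with rfl | rfl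
        · exfalso
          rw [one_mul] at q1'' q2''
          rw [q1'', q2''] at c12
          norm_num at c12
        · have e3 : b2 = 1 := by omega
          have e4 : a1 = 1 := by omega
          rw [e1, e2, e3, e4]
          exact ⟨rfl, rfl⟩
      by_cases hsmall : t * s ≤ n
      · obtain ⟨h1, h2⟩ := ih t s (k * b2) hsmall hcst2.symm hto hso hnew
        apply hfin
        · rw [← hst2, h1, h2]
        · rw [h1, h2] at ha2
          have : a2 ^ 2 = 1 := by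
            have : (a2 : ℤ) ^ 2 = 1 := by rw [ha2]; norm_num
            exact_mod_cast this
          exact Nat.pow_left_injective (n := 2) (by norm_num) (by simpa using this)
      · -- then `a1 a2 b2 = 1`
        have h1 : a1 * a2 * (b1 * b2) = b1 * (a1 * a2 * b2) := by ring
        have h2 : t * s = b1 := by rw [← hst2]; ring
        have h3 : b1 * (a1 * a2 * b2) ≤ b1 := by omega
        have h4 : a1 * a2 * b2 ≤ 1 := by
          by_contra h5
          have : b1 * 2 ≤ b1 * (a1 * a2 * b2) := Nat.mul_le_mul_left _ (by omega)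
          omega
        have h5 : 0 < a1 * a2 * b2 := by
          have : 0 < a2 := by omega
          positivity
        have h6 : a1 * a2 * b2 = 1 := by omega
        have h7 : a1 * a2 = 1 := Nat.eq_one_of_mul_eq_one_right h6
        have h8 : b2 = 1 := Nat.eq_one_of_mul_eq_one_left h6
        have h9 : a1 = 1 := Nat.eq_one_of_mul_eq_one_right h7
        have h10 : a2 = 1 := Nat.eq_one_of_mul_eq_one_left h7
        apply hfin _ h10
        rw [h8, h10] at q1
        rw [h9, h10] at q2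
        have : b1 ^ 2 = 1 := by omega
        exact Nat.pow_left_injective (n := 2) (by norm_num) (by simpa using this)
    · exfalso
      refine neg_kappa (e := 4) (f := 8) (by norm_num) (by norm_num) (by norm_num) ?_ c12 c21 ha1
        hb1 hb2 ha18 ha28
      push_cast
      linear_combination hcase

lemma even_of_sq {z y : ℤ} (h : z ^ 2 = 4 * y) : ∃ w : ℤ, z = 2 * w ∧ w ^ 2 = y := by
  have h1 : (2 : ℤ) ∣ z := by
    apply Int.prime_two.dvd_of_dvd_pow (n := 2)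
    exact ⟨2 * y, by rw [h]; ring⟩
  obtain ⟨w, rfl⟩ := h1
  exact ⟨w, rfl, by nlinarith⟩

/-- all coprime integer points on `z² = 4 a⁴ - 11 a² b² + 16 b⁴` -/
theorem integer_points {a b z : ℤ} (hab : IsCoprime a b)
    (h : z ^ 2 = 4 * a ^ 4 - 11 * a ^ 2 * b ^ 2 + 16 * b ^ 4) :
    a = 0 ∨ b = 0 ∨ a ^ 2 = b ^ 2 ∨ a ^ 2 = 4 * b ^ 2 := by
  by_cases ha0 : a = 0
  · exact Or.inl ha0
  by_cases hb0 : b = 0
  · exact Or.inr (Or.inl hb0)
  right; right
  have hcop : Nat.Coprime a.natAbs b.natAbs := Int.isCoprime_iff_gcd_eq_one.1 hab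
  have hsq : ∀ x : ℤ, ((x.natAbs : ℕ) : ℤ) ^ 2 = x ^ 2 := fun x => Int.natAbs_sq x
  have h4 : ∀ x : ℤ, ((x.natAbs : ℕ) : ℤ) ^ 4 = x ^ 4 := fun x => by
    rw [show 4 = 2 * 2 by norm_num, pow_mul, pow_mul, hsq]
  have hapos : 0 < a.natAbs := Int.natAbs_pos.2 ha0
  have hbpos : 0 < b.natAbs := Int.natAbs_pos.2 hb0
  rcases Nat.mod_two_eq_zero_or_one a.natAbs with hae | hao
  · -- a even
    have hbo : b.natAbs % 2 = 1 := by
      by_contra hbe
      have h1 : 2 ∣ a.natAbs := Nat.dvd_of_mod_eq_zero hae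
      have h2 : 2 ∣ b.natAbs := Nat.dvd_of_mod_eq_zero (by omega)
      exact Nat.not_coprime_of_dvd_of_dvd (by norm_num) h1 h2 hcop
    obtain ⟨a', rfl⟩ : ∃ a', a = 2 * a' := ⟨a / 2, by omega⟩
    obtain ⟨w, rfl, hw⟩ := even_of_sq (z := z) (y := 16 * a' ^ 4 - 11 * a' ^ 2 * b ^ 2 + 4 * b ^ 4)
      (by rw [h]; ring)
    have hcop' : Nat.Coprime b.natAbs a'.natAbs := by
      rw [Int.natAbs_mul] at hcop
      exact (Nat.Coprime.coprime_dvd_left (Dvd.intro_left _ rfl) hcop).symm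
    have ha'0 : a' ≠ 0 := by rintro rfl; simp at ha0
    rcases Nat.mod_two_eq_zero_or_one a'.natAbs with hae' | hao'
    · exfalso
      obtain ⟨a'', rfl⟩ : ∃ a'', a' = 2 * a'' := ⟨a' / 2, by omega⟩
      obtain ⟨y, rfl, hy⟩ := even_of_sq (z := w)
        (y := 64 * a'' ^ 4 - 11 * a'' ^ 2 * b ^ 2 + b ^ 4) (by rw [hw]; ring)
      have ha''0 : a'' ≠ 0 := by rintro rfl; simp at ha'0
      apply type_two a''.natAbs b.natAbs a''.natAbs y.natAbs le_rfl (Int.natAbs_pos.2 ha''0) _ hbo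
      · rw [hsq, hsq, hsq, h4, h4, hy]; ring
      · rw [Int.natAbs_mul] at hcop'
        exact Nat.Coprime.coprime_dvd_right (Dvd.intro_left _ rfl) hcop'
    · obtain ⟨h1, h2⟩ := type_one (b.natAbs * a'.natAbs) b.natAbs a'.natAbs w.natAbs le_rfl hcop'
        hbo hao' (by rw [hsq, hsq, hsq, h4, h4, hw]; ring)
      right
      have e1 := hsq b
      have e2 := hsq a'
      rw [h1] at e1
      rw [h2] at e2
      rw [← e1, mul_pow, ← e2]
      norm_num
  · rcases Nat.mod_two_eq_zero_or_one b.natAbs with hbe | hbo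
    · exfalso
      obtain ⟨b', rfl⟩ : ∃ b', b = 2 * b' := ⟨b / 2, by omega⟩
      obtain ⟨y, rfl, hy⟩ := even_of_sq (z := z)
        (y := a ^ 4 - 11 * a ^ 2 * b' ^ 2 + 64 * b' ^ 4) (by rw [h]; ring)
      have hb'0 : b' ≠ 0 := by rintro rfl; simp at hb0
      apply type_two b'.natAbs a.natAbs b'.natAbs y.natAbs le_rfl (Int.natAbs_pos.2 hb'0) _ hao
      · rw [hsq, hsq, hsq, h4, h4, hy]
      · rw [Int.natAbs_mul] at hcop
        exact Nat.Coprime.coprime_dvd_right (Dvd.intro_left _ rfl) hcop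
    · obtain ⟨h1, h2⟩ := type_one (a.natAbs * b.natAbs) a.natAbs b.natAbs z.natAbs le_rfl hcop
        hao hbo (by rw [hsq, hsq, hsq, h4, h4, h])
      left
      have e1 := hsq b
      have e2 := hsq a
      rw [h2] at e1
      rw [h1] at e2
      rw [← e1, ← e2]

/-- **All rational points on `y² = 4 u⁴ - 11 u² + 16`** -/
theorem rational_points {u y : ℚ} (h : y ^ 2 = 4 * u ^ 4 - 11 * u ^ 2 + 16) :
    u = 0 ∨ u = 1 ∨ u = -1 ∨ u = 2 ∨ u = -2 := by
  have hd : (u.den : ℚ) ≠ 0 := by exact_mod_cast u.den_nz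
  have hu : u = u.num / u.den := (Rat.num_div_den u).symm
  obtain ⟨a, ha⟩ : ∃ a : ℤ, a = u.num := ⟨_, rfl⟩
  obtain ⟨b, hb⟩ : ∃ b : ℤ, b = u.den := ⟨_, rfl⟩
  have hbQ : (b : ℚ) ≠ 0 := by rw [hb]; exact_mod_cast u.den_nz
  have hu' : u = (a : ℚ) / (b : ℚ) := by rw [ha, hb]; exact_mod_cast hu
  have hcop : IsCoprime a b := by
    rw [ha, hb]
    apply Int.isCoprime_iff_gcd_eq_one.2
    exact u.reduced
  have h1 : (y * (b : ℚ) ^ 2) ^ 2
      = ((4 * a ^ 4 - 11 * a ^ 2 * b ^ 2 + 16 * b ^ 4 : ℤ) : ℚ) := by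
    rw [mul_pow, h, hu']
    push_cast
    field_simp
  have h2 : IsSquare (4 * a ^ 4 - 11 * a ^ 2 * b ^ 2 + 16 * b ^ 4 : ℤ) := by
    rw [← Rat.isSquare_intCast_iff]
    exact ⟨y * (b : ℚ) ^ 2, by rw [← h1, pow_two]⟩
  obtain ⟨z, hz⟩ := h2
  have h3 := integer_points hcop (z := z) (by rw [pow_two]; exact hz.symm)
  have hb0 : b ≠ 0 := by rintro rfl; simp at hbQ
  rcases h3 with h4 | h4 | h4 | h4
  · left; rw [hu', h4]; simp
  · exact absurd h4 hb0
  · rcases sq_eq_sq_iff_eq_or_eq_neg.1 h4 with h5 | h5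
    · right; left; rw [hu', h5, div_self hbQ]
    · right; right; left
      rw [hu', h5]; push_cast; rw [neg_div, div_self hbQ]
  · have h4' : a ^ 2 = (2 * b) ^ 2 := by rw [h4]; ring
    rcases sq_eq_sq_iff_eq_or_eq_neg.1 h4' with h5 | h5
    · right; right; right; left
      rw [hu', h5]; push_cast; field_simp
    · right; right; right; right
      rw [hu', h5]; push_cast; field_simp

end Pool.Agent.R341.Desc30
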