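import Mathlib

open UpperHalfPlane MatrixGroups

namespace Pool.Agent.R341.DI

noncomputable section

/-- `(A,B)` is the leading part of an integral positive form of discriminant `-3`. -/
def Hee (A B : ℤ) : Prop := 0 < A ∧ 4 * A ∣ B ^ 2 + 3

/-- The critical radius of the Euclidean norm in the plane. -/
def r2 : ℝ := √(2 / √3)

/-- Euclidean Dirichlet-improvable reals. -/
def DI2 : Set ℝ :=
  {x | ∃ c : ℝ, 0 < c ∧ c < 1 ∧ ∃ T : ℝ, 0 < T ∧ ∀ t : ℝ, T < t →
    ∃ p q : ℤ, ¬ (p = 0 ∧ q = 0) ∧ (t * (p + q * x) / c) ^ 2 + (q / t) ^ 2 ≤ r2 ^ 2}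

/-- Badly approximable reals. -/
def BA : Set ℝ :=
  {x | ∃ ε : ℝ, 0 < ε ∧ ∀ p q : ℤ, q ≠ 0 → ε ≤ |(q : ℝ) * x - p| * |(q : ℝ)|}

lemma reduce (x y : ℝ) (hy : 0 < y) : ∃ a b c d : ℤ, a * d - b * c = 1 ∧
    ∃ u v N : ℝ, N = (c * x + d) ^ 2 + (c * y) ^ 2 ∧ 0 < N ∧ N * v = y ∧
      N * u = (a * x + b) * (c * x + d) + a * c * y ^ 2 ∧
      N * (u ^ 2 + v ^ 2) = (a * x + b) ^ 2 + (a * y) ^ 2 ∧
      |u| ≤ 1 / 2 ∧ 1 ≤ u ^ 2 + v ^ 2 := by
  obtain ⟨g, hg⟩ := ModularGroup.exists_smul_mem_fd (⟨⟨x, y⟩, hy⟩ : ℍ)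
  set z : ℍ := ⟨⟨x, y⟩, hy⟩ with hz
  have hdet : g 0 0 * g 1 1 - g 0 1 * g 1 0 = 1 := by
    have := g.det_coe
    rwa [Matrix.det_fin_two] at this
  have hzc : (z : ℂ) = ⟨x, y⟩ := rfl
  have hco := UpperHalfPlane.coe_specialLinearGroup_apply g z
  simp only [algebraMap_int_eq, Int.coe_castRingHom] at hco
  set w : ℂ := ((g • z : ℍ) : ℂ) with hw
  obtain ⟨h1, h2⟩ := hg
  set a := g 0 0
  set b := g 0 1
  set c := g 1 0
  set d := g 1 1
  have hden : (((c : ℝ) : ℂ) * z + ((d : ℝ) : ℂ)) ≠ 0 := by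
    intro h
    rw [hzc] at h
    have h3 := congrArg Complex.re h
    have h4 := congrArg Complex.im h
    simp at h3 h4
    rcases h4 with h4 | h4
    · rw [h4] at h3 hdet
      simp at h3
      rw [h3] at hdet
      simp at hdet
    · exact hy.ne' h4
  have hmul : w * (((c : ℝ) : ℂ) * z + ((d : ℝ) : ℂ)) = ((a : ℝ) : ℂ) * z + ((b : ℝ) : ℂ) := by
    rw [hco]
    exact div_mul_cancel₀ _ hden
  rw [hzc] at hmul hden
  have hre := congrArg Complex.re hmul
  have him := congrArg Complex.im hmul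
  simp at hre him
  set u := w.re
  set v := w.im
  have hN : 0 < ((c : ℝ) * x + d) ^ 2 + (c * y) ^ 2 := by
    have h5 : 0 ≤ ((c : ℝ) * x + d) ^ 2 + (c * y) ^ 2 := by positivity
    rcases h5.lt_or_eq with h | h
    · exact h
    · exfalso
      apply hden
      have h6 : ((c : ℝ) * x + d) ^ 2 = 0 := by nlinarith [sq_nonneg ((c : ℝ) * x + d), sq_nonneg ((c : ℝ) * y)]
      have h7 : ((c : ℝ) * y) ^ 2 = 0 := by nlinarith [sq_nonneg ((c : ℝ) * x + d), sq_nonneg ((c : ℝ) * y)]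
      have h8 := pow_eq_zero_iff (two_ne_zero) |>.1 h6
      have h9 := pow_eq_zero_iff (two_ne_zero) |>.1 h7
      apply Complex.ext <;> simp [h8] 
      rcases mul_eq_zero.1 h9 with h | h
      · left; exact_mod_cast h
      · right; exact h
  have hdetR : (a : ℝ) * d - b * c = 1 := by exact_mod_cast hdet
  have hu : (((c : ℝ) * x + d) ^ 2 + (c * y) ^ 2) * u = (a * x + b) * (c * x + d) + a * c * y ^ 2 := by
    linear_combination ((c : ℝ) * x + d) * hre + (c * y) * him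
  have hv : (((c : ℝ) * x + d) ^ 2 + (c * y) ^ 2) * v = y := by
    linear_combination ((c : ℝ) * x + d) * him - (c * y) * hre + y * hdetR
  refine ⟨a, b, c, d, hdet, u, v, ((c : ℝ) * x + d) ^ 2 + (c * y) ^ 2, rfl, hN, hv, hu, ?_, ?_, ?_⟩
  · have e1 : (a * x + b : ℝ) = (c * x + d) * u - c * y * v := by linarith
    have e2 : (a * y : ℝ) = (c * x + d) * v + c * y * u := by linarith
    rw [e1, e2]; ring
  · have : (g • z : ℍ).re = u := rfl
    rw [this] at h2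
    simpa using h2
  · rw [Complex.normSq_apply] at h1
    nlinarith [h1]

lemma quad_form (x y u v N a b c d s : ℝ) (hs : s ^ 2 = 1) (hdet : a * d - b * c = 1)
    (hNv : N * v = y)
    (hN : N = (c * x + d) ^ 2 + (c * y) ^ 2)
    (hNu : N * u = (a * x + b) * (c * x + d) + a * c * y ^ 2)
    (hNn : N * (u ^ 2 + v ^ 2) = (a * x + b) ^ 2 + (a * y) ^ 2) :
    let A := a ^ 2 - s * a * c + c ^ 2
    let B := 2 * a * b - s * (a * d + b * c) + 2 * c * d
    v * ((2 * A * x + B) ^ 2 + 3 + 4 * A ^ 2 * y ^ 2) =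
      4 * A * y * (u ^ 2 + v ^ 2 - s * u + 1) := by
  intro A B
  set C := b ^ 2 - s * b * d + d ^ 2 with hC
  have h1 : A * (x ^ 2 + y ^ 2) + B * x + C = N * (u ^ 2 + v ^ 2 - s * u + 1) := by
    have : N * (u ^ 2 + v ^ 2 - s * u + 1) = N * (u ^ 2 + v ^ 2) - s * (N * u) + N := by ring
    rw [this, hNn, hNu, hN]
    simp only [A, B, hC]
    ring
  have h2 : 4 * A * C - B ^ 2 = 3 := by
    have : 4 * A * C - B ^ 2 = (4 - s ^ 2) * (a * d - b * c) ^ 2 := by
      simp only [A, B, hC]; ring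
    rw [this, hs, hdet]; norm_num
  have h3 : (2 * A * x + B) ^ 2 + 3 + 4 * A ^ 2 * y ^ 2
      = 4 * A * (A * (x ^ 2 + y ^ 2) + B * x + C) := by
    linear_combination -h2
  rw [h3, h1, ← hNv]
  ring

/-- If `x` stays away from all Heegner points of discriminant `-3`, it is Dirichlet-improvable. -/
theorem mem_DI2 {x δ : ℝ} (hδ : 0 < δ)
    (h : ∀ A B : ℤ, Hee A B → δ ≤ |2 * (A : ℝ) * x + B|) : x ∈ DI2 := by
  -- the parameter
  set κ : ℝ := min 1 (δ ^ 2 / 400) with hκ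
  have hκ0 : 0 < κ := by rw [hκ]; positivity
  have hκ1 : κ ≤ 1 := min_le_left _ _
  have hκδ : 400 * κ ≤ δ ^ 2 := by
    have : κ ≤ δ ^ 2 / 400 := min_le_right _ _
    linarith
  have h3p : (0 : ℝ) < √3 := by positivity
  have h33 : √3 ^ 2 = 3 := Real.sq_sqrt (by norm_num)
  refine ⟨√(1 / (1 + κ)), by positivity, ?_, 1, one_pos, ?_⟩
  · rw [Real.sqrt_lt' one_pos, one_pow, div_lt_one (by linarith)]
    linarith
  intro t ht
  have ht0 : 0 < t := by linarith
  have hy : 0 < 1 / t ^ 2 := by positivity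
  obtain ⟨a, b, c, d, hdet, u, v, N, hN, hN0, hNv, hNu, hNn, hu, huv⟩ := reduce x (1 / t ^ 2) hy
  have hdetR : (a : ℝ) * d - b * c = 1 := by exact_mod_cast hdet
  have hv0 : 0 < v := by
    by_contra hneg
    push Not at hneg
    have : N * v ≤ 0 := mul_nonpos_of_nonneg_of_nonpos hN0.le hneg
    linarith
  have hu2 : u ^ 2 ≤ 1 / 4 := by
    rw [← sq_abs]
    have := abs_nonneg u
    nlinarith
  have hv2 : 3 / 4 ≤ v ^ 2 := by linarith
  refine ⟨d, c, ?_, ?_⟩
  · rintro ⟨h1, h2⟩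
    rw [h1, h2] at hdet
    simp at hdet
  have hr2 : r2 ^ 2 = 2 / √3 := by
    rw [r2, Real.sq_sqrt (by positivity)]
  rw [hr2, div_pow, Real.sq_sqrt (by positivity)]
  -- Q = 1 / v
  have hQ : (t * (d + c * x)) ^ 2 + (c / t) ^ 2 = 1 / v := by
    have h1 : (t * (d + c * x)) ^ 2 + (c / t) ^ 2 = t ^ 2 * N := by
      rw [hN]; field_simp; ring
    rw [h1, eq_div_iff hv0.ne']
    have : t ^ 2 * N * v = t ^ 2 * (N * v) := by ring
    rw [this, hNv]
    field_simp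
  have hmain : √3 / 2 * (1 + κ) ≤ v := by
    by_contra hlt
    push Not at hlt
    -- v is close to √3/2
    have hvsq : v ^ 2 ≤ 3 / 4 + 9 / 4 * κ := by
      have h1 : v ^ 2 ≤ (√3 / 2 * (1 + κ)) ^ 2 := by
        apply pow_le_pow_left₀ hv0.le hlt.le
      have h2 : (√3 / 2 * (1 + κ)) ^ 2 = 3 / 4 * (1 + κ) ^ 2 := by
        rw [mul_pow, div_pow, h33]; ring
      rw [h2] at h1
      nlinarith only [h1, hκ0, hκ1]
    obtain ⟨s, hs, hsu⟩ : ∃ s : ℤ, (s : ℝ) ^ 2 = 1 ∧ (s : ℝ) * u = |u| := by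
      rcases le_or_gt 0 u with hu' | hu'
      · exact ⟨1, by norm_num, by rw [abs_of_nonneg hu']; norm_num⟩
      · exact ⟨-1, by norm_num, by rw [abs_of_neg hu']; push_cast; ring⟩
    have hq := quad_form x (1 / t ^ 2) u v N a b c d s hs hdetR hNv hN hNu hNn
    simp only at hq
    set A : ℤ := a ^ 2 - s * a * c + c ^ 2 with hA
    set B : ℤ := 2 * a * b - s * (a * d + b * c) + 2 * c * d with hB
    have hAR : (A : ℝ) = (a : ℝ) ^ 2 - s * a * c + c ^ 2 := by rw [hA]; push_cast; ring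
    have hBR : (B : ℝ) = 2 * (a : ℝ) * b - s * (a * d + b * c) + 2 * c * d := by
      rw [hB]; push_cast; ring
    rw [← hAR, ← hBR] at hq
    have hsZ : s ^ 2 = 1 := by exact_mod_cast hs
    have hHee : Hee A B := by
      constructor
      · have h4 : 4 * A = (2 * a - s * c) ^ 2 + 3 * c ^ 2 := by
          rw [hA]
          linear_combination (-c ^ 2) * hsZ
        have h5 : 0 ≤ A := by nlinarith [sq_nonneg (2 * a - s * c), sq_nonneg c]
        rcases h5.lt_or_eq with h6 | h6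
        · exact h6
        · exfalso
          rw [← h6] at h4
          have h7 : c ^ 2 = 0 := by nlinarith [sq_nonneg (2 * a - s * c), sq_nonneg c]
          have h8 : c = 0 := by simpa using h7
          have h9 : (2 * a - s * c) ^ 2 = 0 := by nlinarith [sq_nonneg (2 * a - s * c), sq_nonneg c]
          have h10 : 2 * a - s * c = 0 := by simpa using h9
          rw [h8] at h10
          have h11 : a = 0 := by linarith
          rw [h8, h11] at hdet
          simp at hdet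
      · refine ⟨b ^ 2 - s * b * d + d ^ 2, ?_⟩
        have : 4 * A * (b ^ 2 - s * b * d + d ^ 2) - B ^ 2 = (4 - s ^ 2) * (a * d - b * c) ^ 2 := by
          rw [hA, hB]; ring
        rw [hsZ, hdet] at this
        linarith
    have hδ' := h A B hHee
    set G : ℝ := u ^ 2 + v ^ 2 - s * u + 1 with hG
    set y := 1 / t ^ 2 with hyd
    -- v^2 * (…)^2 ≤ G^2 - 3 v^2
    have hineq : v ^ 2 * (2 * (A : ℝ) * x + B) ^ 2 ≤ G ^ 2 - 3 * v ^ 2 := by
      have e : v ^ 2 * (2 * (A : ℝ) * x + B) ^ 2 = G ^ 2 - 3 * v ^ 2 - (2 * A * y * v - G) ^ 2 := by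
        linear_combination v * hq
      rw [e]
      nlinarith [sq_nonneg (2 * A * y * v - G)]
    have hGle : G ≤ 3 / 2 + 5 * κ := by
      have hu1 : 1 / 4 - 9 / 4 * κ ≤ u ^ 2 := by linarith
      have h13 : |u| ^ 2 = u ^ 2 := sq_abs u
      have h14 := abs_nonneg u
      have h20 : 0 ≤ (1 / 2 - |u|) * |u| := mul_nonneg (by linarith) h14
      have h12 : 1 / 2 - |u| ≤ 9 / 2 * κ := by nlinarith only [h20, h13, hu1]
      have h15 : 1 / 4 - 9 / 4 * κ ≤ |u| * (1 - |u|) := by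
        nlinarith only [h20, h13, hu1, h12]
      have h17 : G = v ^ 2 + 1 - |u| * (1 - |u|) := by
        rw [hG, hsu, ← sq_abs u]; ring
      rw [h17]
      linarith only [h15, hvsq, hκ0]
    have hG0 : 0 ≤ G := by
      rw [hG, hsu]
      nlinarith only [sq_nonneg u, hu, hv2]
    have hδ2 : δ ^ 2 ≤ (2 * (A : ℝ) * x + B) ^ 2 := by
      rw [← sq_abs (2 * (A : ℝ) * x + B)]
      exact pow_le_pow_left₀ hδ.le hδ' 2
    have hG2 : G ^ 2 ≤ (3 / 2 + 5 * κ) ^ 2 := pow_le_pow_left₀ hG0 hGle 2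
    have h18 : 3 / 4 * δ ^ 2 ≤ v ^ 2 * (2 * (A : ℝ) * x + B) ^ 2 :=
      mul_le_mul hv2 hδ2 (by positivity) (by positivity)
    have h19 : (3 / 2 + 5 * κ) ^ 2 ≤ 9 / 4 + 40 * κ := by nlinarith only [hκ0, hκ1]
    have h21 : 0 < δ ^ 2 := by positivity
    linarith only [h18, hineq, hG2, h19, hκδ, hv2, h21]
  have hle : 1 / v ≤ 2 / √3 / (1 + κ) := by
    rw [div_div, div_le_div_iff₀ hv0 (by positivity)]
    linarith
  have hc2 : (t * (d + c * x)) ^ 2 / (1 / (1 + κ)) + (c / t) ^ 2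
      ≤ (1 + κ) * ((t * (d + c * x)) ^ 2 + (c / t) ^ 2) := by
    have : (t * (d + c * x)) ^ 2 / (1 / (1 + κ)) = (1 + κ) * (t * (d + c * x)) ^ 2 := by
      field_simp
    rw [this]
    nlinarith [sq_nonneg ((c : ℝ) / t)]
  refine hc2.trans ?_
  rw [hQ]
  calc (1 + κ) * (1 / v) ≤ (1 + κ) * (2 / √3 / (1 + κ)) := by gcongr
    _ = 2 / √3 := by field_simp

end

end Pool.Agent.R341.DI
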