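import Pool.Agent.R341.DiA

namespace Pool.Agent.R341.DI

noncomputable section

lemma hee_sep {A B A' B' : ℤ} (h : Hee A B) (h' : Hee A' B') (hne : ¬ (A = A' ∧ B = B'))
    (h1 : A < 2 * A') (h2 : A' < 2 * A) : 5 * (A * A') < 2 * (B * A' - B' * A) ^ 2 := by
  obtain ⟨hA, C, hC⟩ := h
  obtain ⟨hA', C', hC'⟩ := h'
  have hAA : 0 < A * A' := mul_pos hA hA'
  obtain ⟨T, hTd⟩ : ∃ T, T = 2 * A * C' + 2 * A' * C - B * B' := ⟨_, rfl⟩
  have hT : 2 * (A * A') * T = (B * A' - B' * A) ^ 2 + 3 * (A ^ 2 + A' ^ 2) := by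
    rw [hTd]
    linear_combination (-(A' ^ 2)) * hC - A ^ 2 * hC'
  have hBodd : B % 2 = 1 := by
    rcases Int.emod_two_eq_zero_or_one B with h | h
    · exfalso
      obtain ⟨k, hk⟩ : ∃ k, B = 2 * k := ⟨B / 2, by omega⟩
      have : 4 * (A * C - k ^ 2) = 3 := by rw [hk] at hC; linarith
      omega
    · exact h
  have hBodd' : B' % 2 = 1 := by
    rcases Int.emod_two_eq_zero_or_one B' with h | h
    · exfalso
      obtain ⟨k, hk⟩ : ∃ k, B' = 2 * k := ⟨B' / 2, by omega⟩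
      have : 4 * (A' * C' - k ^ 2) = 3 := by rw [hk] at hC'; linarith
      omega
    · exact h
  have hTodd : T % 2 = 1 := by
    obtain ⟨k, hk⟩ : ∃ k, B = 2 * k + 1 := ⟨B / 2, by omega⟩
    obtain ⟨l, hl⟩ : ∃ l, B' = 2 * l + 1 := ⟨B' / 2, by omega⟩
    have : T = 2 * (A * C' + A' * C - 2 * k * l - k - l - 1) + 1 := by
      rw [hTd, hk, hl]; ring
    omega
  have hT3 : 3 < T := by
    have e : 2 * (A * A') * (T - 3) = (B * A' - B' * A) ^ 2 + 3 * (A - A') ^ 2 := by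
      linear_combination hT
    have hpos : 0 < (B * A' - B' * A) ^ 2 + 3 * (A - A') ^ 2 := by
      by_contra hneg
      push Not at hneg
      have h3 : (A - A') ^ 2 = 0 := by
        nlinarith [sq_nonneg (B * A' - B' * A), sq_nonneg (A - A')]
      have h4 : A = A' := by
        have := pow_eq_zero_iff (two_ne_zero) |>.1 h3
        linarith
      have h5 : (B * A' - B' * A) ^ 2 = 0 := by
        nlinarith [sq_nonneg (B * A' - B' * A), sq_nonneg (A - A')]
      have h6 := pow_eq_zero_iff (two_ne_zero) |>.1 h5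
      rw [h4] at h6
      have h7 : (B - B') * A' = 0 := by linarith
      rcases mul_eq_zero.1 h7 with h8 | h8
      · exact hne ⟨h4, by linarith⟩
      · exact hA'.ne' h8
    rw [← e] at hpos
    by_contra hneg
    push Not at hneg
    have : 2 * (A * A') * (T - 3) ≤ 0 :=
      mul_nonpos_of_nonneg_of_nonpos (by linarith) (by linarith)
    linarith
  have hT5 : 5 ≤ T := by omega
  have h10 : 10 * (A * A') ≤ 2 * (A * A') * T := by nlinarith
  have h11 : 0 < (2 * A - A') * (2 * A' - A) := mul_pos (by linarith) (by linarith)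
  nlinarith

/-- separation of centres inside a dyadic block -/
lemma block_sep {A B A' B' : ℤ} (h : Hee A B) (h' : Hee A' B') {e : ℕ}
    (h1 : (2 : ℤ) ^ e ≤ A) (h2 : A < 2 ^ (e + 1)) (h1' : (2 : ℤ) ^ e ≤ A')
    (h2' : A' < 2 ^ (e + 1))
    (hclose : |4 * (2 : ℝ) ^ e * ((B : ℝ) / (2 * A)) - 4 * (2 : ℝ) ^ e * ((B' : ℝ) / (2 * A'))| < 1) :
    A = A' ∧ B = B' := by
  by_contra hne
  have hs := hee_sep h h' hne (by rw [pow_succ] at h2; linarith) (by rw [pow_succ] at h2'; linarith)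
  have hA : (0 : ℝ) < A := by exact_mod_cast h.1
  have hA' : (0 : ℝ) < A' := by exact_mod_cast h'.1
  have hsR : 5 * ((A : ℝ) * A') < 2 * (B * A' - B' * A) ^ 2 := by exact_mod_cast hs
  have hE : (0 : ℝ) < 2 ^ e := by positivity
  have h2R : (A : ℝ) < 2 * 2 ^ e := by
    have : (A : ℝ) < 2 ^ (e + 1) := by exact_mod_cast h2
    rw [pow_succ] at this; linarith
  have h2R' : (A' : ℝ) < 2 * 2 ^ e := by
    have : (A' : ℝ) < 2 ^ (e + 1) := by exact_mod_cast h2'
    rw [pow_succ] at this; linarith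
  set E : ℝ := 2 ^ e with hEd
  have e1 : 4 * E * ((B : ℝ) / (2 * A)) - 4 * E * ((B' : ℝ) / (2 * A'))
      = 2 * E * (B * A' - B' * A) / (A * A') := by
    field_simp
    ring
  rw [e1, abs_lt, div_lt_one (by positivity), lt_div_iff₀ (by positivity)] at hclose
  obtain ⟨c1, c2⟩ := hclose
  set D : ℝ := B * A' - B' * A
  set P : ℝ := A * A' with hP
  have hP0 : 0 < P := mul_pos hA hA'
  have hPE : P < 4 * E ^ 2 := by
    rw [hP]
    nlinarith
  have h3 : (2 * E * D) ^ 2 < P ^ 2 := by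
    apply sq_lt_sq'
    · linarith
    · exact c2
  have h4 : 4 * E ^ 2 * D ^ 2 < P ^ 2 := by nlinarith
  have h5 : 4 * E ^ 2 * (5 * P) < 4 * E ^ 2 * (2 * D ^ 2) := by
    apply mul_lt_mul_of_pos_left hsR (by positivity)
  nlinarith

/-- The interval `[a, a+ℓ]` avoids all Heegner points of height `≫ H ℓ`. -/
def Pg (δ H a ℓ : ℝ) : Prop :=
  ∀ A B : ℤ, Hee A B → (A : ℝ) * H * ℓ ≤ 1 → ∀ x : ℝ, a ≤ x → x ≤ a + ℓ →
    δ ≤ |2 * (A : ℝ) * x + B|

lemma Pg_sub {δ H a ℓ a' ℓ' : ℝ} (h : Pg δ H a ℓ) (h1 : a ≤ a') (h2 : a' + ℓ' ≤ a + ℓ) :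
    ∀ A B : ℤ, Hee A B → (A : ℝ) * H * ℓ ≤ 1 → ∀ x : ℝ, a' ≤ x → x ≤ a' + ℓ' →
    δ ≤ |2 * (A : ℝ) * x + B| := by
  intro A B hAB hA x hx hx'
  exact h A B hAB hA x (by linarith) (by linarith)

/-- finite sets of naturals inside a window -/
lemma card_window (S : Finset ℕ) (m : ℕ) (h : ∀ x ∈ S, ∀ y ∈ S, x ≤ y + m) : S.card ≤ m + 1 := by
  rcases S.eq_empty_or_nonempty with rfl | hne
  · simp
  · have : S ⊆ Finset.Icc (S.min' hne) (S.min' hne + m) := by
      intro x hx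
      rw [Finset.mem_Icc]
      exact ⟨Finset.min'_le _ _ hx, h x hx _ (Finset.min'_mem _ _)⟩
    calc S.card ≤ (Finset.Icc (S.min' hne) (S.min' hne + m)).card := Finset.card_le_card this
      _ = m + 1 := by rw [Nat.card_Icc]; omega

end

end Pool.Agent.R341.DI
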