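import Pool.Agent.R341.DiB

namespace Pool.Agent.R341.DI

noncomputable section

lemma hee_same_close {A B : ℤ} (h : Hee A B) {δ x y : ℝ} (hx : |2 * (A : ℝ) * x + B| < δ)
    (hy : |2 * (A : ℝ) * y + B| < δ) : (A : ℝ) * |x - y| < δ := by
  have hA : (0 : ℝ) < A := by exact_mod_cast h.1
  rw [abs_lt] at hx hy
  rw [← abs_of_pos hA, ← abs_mul, abs_lt]
  constructor <;> linarith [hx.1, hx.2, hy.1, hy.2]

/-- one step of the tree: many children -/
lemma normal_step {m : ℕ} (hm : 10 ≤ m) {δ a ℓ : ℝ} (hδ : 0 < δ) (hδ1 : δ ≤ 1 / 16)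
    (hδ2 : 2 * δ * 2 ^ m * (64 * (m + 2)) ≤ 1) (hℓ : 0 < ℓ)
    (hP : Pg δ (64 * (m + 2)) a ℓ) :
    ∃ c : Fin (2 ^ (m - 2)) → ℝ, (∀ i, a ≤ c i ∧ c i + ℓ / 2 ^ m ≤ a + ℓ) ∧
      (∀ i, Pg δ (64 * (m + 2)) (c i) (ℓ / 2 ^ m)) ∧
      (∀ i j, i ≠ j → 2 * (ℓ / 2 ^ m) ≤ |c i - c j|) := by
  classical
  set H : ℝ := 64 * (m + 2) with hH
  set M : ℝ := 2 ^ m with hM
  have hM0 : 0 < M := by positivity
  have hmR : (10 : ℝ) ≤ m := by exact_mod_cast hm
  have hH0 : 0 < H := by rw [hH]; positivity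
  have hHl : 0 < H * ℓ := mul_pos hH0 hℓ
  set ℓ' : ℝ := ℓ / M with hℓ'
  have hℓ'0 : 0 < ℓ' := by positivity
  have hℓM : M * ℓ' = ℓ := by rw [hℓ']; field_simp
  set pt : ℕ → ℝ := fun i => a + 2 * i * ℓ' with hpt
  -- bad indices
  set bad : ℕ → Prop := fun i => ∃ A B : ℤ, Hee A B ∧ (A : ℝ) * H * ℓ' ≤ 1 ∧
    ∃ x : ℝ, pt i ≤ x ∧ x ≤ pt i + ℓ' ∧ |2 * (A : ℝ) * x + B| < δ with hbad
  set R := Finset.range (2 ^ (m - 1)) with hR
  have hM2 : (2 : ℝ) * 2 ^ (m - 1) = M := by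
    rw [hM, ← pow_succ']
    congr 1
    omega
  have hin : ∀ i ∈ R, a ≤ pt i ∧ pt i + ℓ' ≤ a + ℓ := by
    intro i hi
    rw [hR, Finset.mem_range] at hi
    have h1 : (i : ℝ) + 1 ≤ 2 ^ (m - 1) := by exact_mod_cast hi
    have h2 : (2 : ℝ) * (i + 1) ≤ M := by rw [← hM2]; linarith
    have h3 : 2 * ((i : ℝ) + 1) * ℓ' ≤ M * ℓ' := mul_le_mul_of_nonneg_right h2 hℓ'0.le
    rw [hℓM] at h3
    constructor
    · have : 0 ≤ 2 * (i : ℝ) * ℓ' := by positivity
      simp only [hpt]; linarith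
    · simp only [hpt]
      nlinarith
  set Bad := R.filter bad with hBadd
  -- data
  have hdata : ∀ i : ℕ, ∃ A B : ℤ, ∃ x : ℝ, i ∈ Bad → (Hee A B ∧ (A : ℝ) * H * ℓ' ≤ 1 ∧
    pt i ≤ x ∧ x ≤ pt i + ℓ' ∧ |2 * (A : ℝ) * x + B| < δ) := by
    intro i
    by_cases hi : i ∈ Bad
    · obtain ⟨A, B, h1, h2, x, h3, h4, h5⟩ := (Finset.mem_filter.1 hi).2
      exact ⟨A, B, x, fun _ => ⟨h1, h2, h3, h4, h5⟩⟩
    · exact ⟨0, 0, 0, fun h => absurd h hi⟩
  choose Af Bf xf hAB using hdata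
  set e0 : ℕ := Nat.log 2 ⌊1 / (H * ℓ)⌋₊ with he0
  set K1 : ℤ := ⌊4 * M / H + 1 / 2⌋ with hK1
  set ef : ℕ → ℕ := fun i => Nat.log 2 (Af i).toNat with hef
  set Ff : ℕ → ℤ := fun i => ⌊4 * (2 : ℝ) ^ (ef i) * (-((Bf i : ℝ) / (2 * Af i)) - a)⌋ with hFf
  -- basic facts on A
  have hA1 : ∀ i ∈ Bad, (0 : ℝ) < Af i ∧ 1 < (Af i : ℝ) * (H * ℓ) ∧ (Af i : ℝ) * (H * ℓ) ≤ M ∧
      (2 : ℤ) ^ (ef i) ≤ Af i ∧ Af i < (2 : ℤ) ^ (ef i + 1) := by
    intro i hi
    obtain ⟨h1, h2, h3, h4, h5⟩ := hAB i hi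
    have hA : (0 : ℝ) < Af i := by exact_mod_cast h1.1
    have hi' := hin i (Finset.mem_filter.1 hi).1
    refine ⟨hA, ?_, ?_, ?_, ?_⟩
    · by_contra hcon
      push Not at hcon
      have := hP (Af i) (Bf i) h1 (by linarith) (xf i) (by linarith) (by linarith)
      linarith
    · have : (Af i : ℝ) * (H * ℓ) = M * ((Af i : ℝ) * H * ℓ') := by rw [← hℓM]; ring
      rw [this]
      nlinarith
    · have h6 : (2 : ℕ) ^ (ef i) ≤ (Af i).toNat := Nat.pow_log_le_self 2 (by have := h1.1; omega)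
      have h7 : ((Af i).toNat : ℤ) = Af i := Int.toNat_of_nonneg h1.1.le
      rw [← h7]
      exact_mod_cast h6
    · have h6 : (Af i).toNat < (2 : ℕ) ^ (ef i + 1) := Nat.lt_pow_succ_log_self (by norm_num) _
      have h7 : ((Af i).toNat : ℤ) = Af i := Int.toNat_of_nonneg h1.1.le
      rw [← h7]
      exact_mod_cast h6
  -- the image window
  have hmaps : ∀ i ∈ Bad, (ef i, Ff i) ∈ (Finset.Icc e0 (e0 + m)) ×ˢ (Finset.Icc (-1) K1) := by
    intro i hi
    obtain ⟨hA, hA1', hA2, hA3, hA4⟩ := hA1 i hi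
    obtain ⟨h1, h2, h3, h4, h5⟩ := hAB i hi
    have hi' := hin i (Finset.mem_filter.1 hi).1
    rw [Finset.mem_product, Finset.mem_Icc, Finset.mem_Icc]
    have hinv : 1 / (H * ℓ) < Af i := by
      rw [div_lt_iff₀ hHl]; exact hA1'
    have hfl : (⌊1 / (H * ℓ)⌋₊ : ℝ) ≤ 1 / (H * ℓ) := Nat.floor_le (by positivity)
    have h7 : ((Af i).toNat : ℤ) = Af i := Int.toNat_of_nonneg h1.1.le
    have h7R : ((Af i).toNat : ℝ) = Af i := by exact_mod_cast h7
    refine ⟨⟨?_, ?_⟩, ?_, ?_⟩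
    · apply Nat.log_mono_right
      have : (⌊1 / (H * ℓ)⌋₊ : ℝ) ≤ ((Af i).toNat : ℝ) := by rw [h7R]; linarith
      exact_mod_cast this
    · have h8 : ⌊1 / (H * ℓ)⌋₊ < 2 ^ (e0 + 1) := Nat.lt_pow_succ_log_self (by norm_num) _
      have h9 : 1 / (H * ℓ) < 2 ^ (e0 + 1) := by
        have h10 : 1 / (H * ℓ) < (⌊1 / (H * ℓ)⌋₊ : ℝ) + 1 := Nat.lt_floor_add_one _
        have h11 : (⌊1 / (H * ℓ)⌋₊ : ℝ) + 1 ≤ 2 ^ (e0 + 1) := by exact_mod_cast h8
        linarith
      have h12 : (Af i : ℝ) ≤ M * (1 / (H * ℓ)) := by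
        rw [mul_one_div, le_div_iff₀ hHl]; exact hA2
      have h13 : (2 : ℝ) ^ (ef i) ≤ Af i := by exact_mod_cast hA3
      have h14 : (2 : ℝ) ^ (ef i) < 2 ^ (e0 + m + 1) := by
        calc (2 : ℝ) ^ (ef i) ≤ M * (1 / (H * ℓ)) := h13.trans h12
          _ < M * 2 ^ (e0 + 1) := by
            apply mul_lt_mul_of_pos_left h9 hM0
          _ = 2 ^ (e0 + m + 1) := by rw [hM]; ring
      have h15 := (pow_lt_pow_iff_right₀ (by norm_num : (1 : ℝ) < 2)).1 h14
      omega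
    · rw [Int.le_floor]
      push_cast
      have h13 : (2 : ℝ) ^ (ef i) ≤ Af i := by exact_mod_cast hA3
      have h16 : |2 * (Af i : ℝ) * (xf i - -((Bf i : ℝ) / (2 * Af i)))| < δ := by
        have : 2 * (Af i : ℝ) * (xf i - -((Bf i : ℝ) / (2 * Af i))) = 2 * (Af i : ℝ) * xf i + Bf i := by
          field_simp
          ring
        rw [this]; exact h5
      rw [abs_lt] at h16
      set z := -((Bf i : ℝ) / (2 * Af i))
      set E := (2 : ℝ) ^ (ef i)
      have hE : 0 < E := by positivity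
      by_contra hcon
      push Not at hcon
      have h17 : z - a < 0 := by
        by_contra h18
        push Not at h18
        have : 0 ≤ 4 * E * (z - a) := by positivity
        linarith
      have h18 : 4 * (Af i : ℝ) * (z - a) ≤ 4 * E * (z - a) := by nlinarith
      have h19 : 2 * (Af i : ℝ) * (a - z) ≤ 2 * (Af i : ℝ) * (xf i - z) := by
        apply mul_le_mul_of_nonneg_left _ (by positivity)
        linarith
      linarith [h16.2]
    · apply Int.floor_le_floor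
      have h13 : (2 : ℝ) ^ (ef i) ≤ Af i := by exact_mod_cast hA3
      have h16 : |2 * (Af i : ℝ) * (xf i - -((Bf i : ℝ) / (2 * Af i)))| < δ := by
        have : 2 * (Af i : ℝ) * (xf i - -((Bf i : ℝ) / (2 * Af i))) = 2 * (Af i : ℝ) * xf i + Bf i := by
          field_simp
          ring
        rw [this]; exact h5
      rw [abs_lt] at h16
      set z := -((Bf i : ℝ) / (2 * Af i))
      set E := (2 : ℝ) ^ (ef i)
      have hE : 0 < E := by positivity
      have hxa : xf i - a ≤ ℓ := by linarith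
      have h20 : 4 * (Af i : ℝ) * ℓ ≤ 4 * M / H := by
        rw [le_div_iff₀ hH0]
        linarith
      by_cases hz : z - a ≤ 0
      · have : 4 * E * (z - a) ≤ 0 := mul_nonpos_of_nonneg_of_nonpos (by positivity) hz
        have : 0 < 4 * M / H := by positivity
        linarith
      · push Not at hz
        have h21 : 4 * E * (z - a) ≤ 4 * (Af i : ℝ) * (z - a) := by nlinarith
        have h22 : 4 * (Af i : ℝ) * (z - a) = 4 * (Af i : ℝ) * (xf i - a) - 2 * (2 * (Af i : ℝ) * (xf i - z)) := by ring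
        have h23 : 4 * (Af i : ℝ) * (xf i - a) ≤ 4 * (Af i : ℝ) * ℓ := by
          apply mul_le_mul_of_nonneg_left hxa (by positivity)
        linarith [h16.1]
  -- injectivity
  have hinj : Set.InjOn (fun i => (ef i, Ff i)) (Bad : Set ℕ) := by
    intro i hi j hj hij
    have hi : i ∈ Bad := hi
    have hj : j ∈ Bad := hj
    simp only [Prod.mk.injEq] at hij
    obtain ⟨he, hF⟩ := hij
    obtain ⟨hA, hA1', hA2, hA3, hA4⟩ := hA1 i hi
    obtain ⟨h1, h2, h3, h4, h5⟩ := hAB i hi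
    obtain ⟨hA', hA1'', hA2', hA3', hA4'⟩ := hA1 j hj
    obtain ⟨h1', h2', h3', h4', h5'⟩ := hAB j hj
    rw [← he] at hA3' hA4'
    have hcl := Int.abs_sub_lt_one_of_floor_eq_floor hF
    rw [← he] at hcl
    obtain ⟨hAA, hBB⟩ := block_sep h1 h1' hA3 hA4 hA3' hA4' (by
      have e5 : 4 * (2 : ℝ) ^ (ef i) * ((Bf i : ℝ) / (2 * Af i)) - 4 * (2 : ℝ) ^ (ef i) * ((Bf j : ℝ) / (2 * Af j))
          = -(4 * (2 : ℝ) ^ (ef i) * (-((Bf i : ℝ) / (2 * Af i)) - a)
            - 4 * (2 : ℝ) ^ (ef i) * (-((Bf j : ℝ) / (2 * Af j)) - a)) := by ring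
      rw [e5, abs_neg]
      exact hcl)
    rw [← hAA, ← hBB] at h5'
    have hcl2 := hee_same_close h1 h5 h5'
    -- |x_i - x_j| < ℓ'
    have h30 : |xf i - xf j| < ℓ' := by
      by_contra hcon
      push Not at hcon
      have h31 : (Af i : ℝ) * ℓ' ≤ (Af i : ℝ) * |xf i - xf j| := mul_le_mul_of_nonneg_left hcon hA.le
      have h32 : (Af i : ℝ) * ℓ' < δ := by linarith
      have h33 : (Af i : ℝ) * (H * ℓ) < δ * (M * H) := by
        calc (Af i : ℝ) * (H * ℓ) = ((Af i : ℝ) * ℓ') * (M * H) := by rw [← hℓM]; ring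
          _ < δ * (M * H) := by apply mul_lt_mul_of_pos_right h32 (by positivity)
      have h34 : δ * (M * H) ≤ 1 / 2 := by linarith
      linarith
    by_contra hne
    rw [abs_lt] at h30
    rcases Nat.lt_or_gt_of_ne hne with h40 | h40
    · have h41 : (i : ℝ) + 1 ≤ j := by exact_mod_cast h40
      have h42 : 2 * ((i : ℝ) + 1) * ℓ' ≤ 2 * j * ℓ' := by
        apply mul_le_mul_of_nonneg_right (by linarith) hℓ'0.le
      simp only [hpt] at h3 h4 h3' h4'
      linarith [h30.1]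
    · have h41 : (j : ℝ) + 1 ≤ i := by exact_mod_cast h40
      have h42 : 2 * ((j : ℝ) + 1) * ℓ' ≤ 2 * i * ℓ' := by
        apply mul_le_mul_of_nonneg_right (by linarith) hℓ'0.le
      simp only [hpt] at h3 h4 h3' h4'
      linarith [h30.2]
  have hcard : Bad.card ≤ ((Finset.Icc e0 (e0 + m)) ×ˢ (Finset.Icc (-1) K1)).card :=
    Finset.card_le_card_of_injOn _ hmaps hinj
  rw [Finset.card_product, Nat.card_Icc, Int.card_Icc] at hcard
  have hcardR : (Bad.card : ℝ) ≤ (m + 1) * (4 * M / H + 5 / 2) := by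
    have h50 : ((e0 + m + 1 - e0 : ℕ) : ℝ) = m + 1 := by
      rw [show e0 + m + 1 - e0 = m + 1 by omega]; push_cast; ring
    have hK10 : -1 ≤ K1 := by
      rw [hK1, Int.le_floor]
      push_cast
      have : 0 < 4 * M / H := by positivity
      linarith
    have h51 : (((K1 + 1 - -1).toNat : ℕ) : ℝ) ≤ 4 * M / H + 5 / 2 := by
      have h52 : (((K1 + 1 - -1).toNat : ℕ) : ℤ) = K1 + 1 - -1 := Int.toNat_of_nonneg (by omega)
      have h53 : (((K1 + 1 - -1).toNat : ℕ) : ℝ) = K1 + 1 - -1 := by exact_mod_cast h52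
      rw [h53]
      have h54 : (K1 : ℝ) ≤ 4 * M / H + 1 / 2 := Int.floor_le _
      linarith
    calc (Bad.card : ℝ) ≤ (((e0 + m + 1 - e0) * (K1 + 1 - -1).toNat : ℕ) : ℝ) := by exact_mod_cast hcard
      _ = ((e0 + m + 1 - e0 : ℕ) : ℝ) * (((K1 + 1 - -1).toNat : ℕ) : ℝ) := by push_cast; ring
      _ ≤ _ := by
        rw [h50]
        apply mul_le_mul_of_nonneg_left h51 (by positivity)
  have hMbig : 40 * ((m : ℝ) + 1) ≤ M := by
    have : ∀ k : ℕ, 40 * ((k + 10 : ℕ) + 1) ≤ 2 ^ (k + 10) := by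
      intro k
      induction k with
      | zero => norm_num
      | succ k ih =>
        rw [show k + 1 + 10 = (k + 10) + 1 by ring, pow_succ]
        omega
    have h60 := this (m - 10)
    rw [show m - 10 + 10 = m by omega] at h60
    rw [hM]
    exact_mod_cast h60
  have hbadq : (Bad.card : ℝ) ≤ M / 4 := by
    have h61 : (m + 1) * (4 * M / H) ≤ M / 16 := by
      rw [hH]
      have : (m + 1) * (4 * M / (64 * ((m : ℝ) + 2))) = (M / 16) * ((m + 1) / (m + 2)) := by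
        field_simp; norm_num
      rw [this]
      apply mul_le_of_le_one_right (by positivity)
      rw [div_le_one (by positivity)]
      linarith
    nlinarith
  set Good := R.filter (fun i => ¬ bad i) with hGood
  have hsum : Bad.card + Good.card = R.card := by
    rw [hBadd, hGood]
    exact Finset.card_filter_add_card_filter_not _
  have hRc : R.card = 2 ^ (m - 1) := by rw [hR, Finset.card_range]
  have hgoodc : 2 ^ (m - 2) ≤ Good.card := by
    have h70 : (4 : ℝ) * 2 ^ (m - 2) = M := by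
      rw [hM]
      have : m = (m - 2) + 2 := by omega
      conv_rhs => rw [this, pow_add]
      ring
    have h71 : (Bad.card : ℝ) ≤ 2 ^ (m - 2) := by linarith
    have h72 : Bad.card ≤ 2 ^ (m - 2) := by exact_mod_cast h71
    have h73 : 2 ^ (m - 1) = 2 * 2 ^ (m - 2) := by
      rw [← pow_succ']; congr 1; omega
    omega
  set φ := Good.orderEmbOfCardLe hgoodc with hφ
  have hφm : ∀ i, φ i ∈ Good := fun i => Good.orderEmbOfCardLe_mem hgoodc i
  refine ⟨fun i => pt (φ i), ?_, ?_, ?_⟩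
  · intro i
    exact hin _ (Finset.mem_filter.1 (hφm i)).1
  · intro i A B hAB' hA x hx1 hx2
    by_contra hcon
    push Not at hcon
    exact (Finset.mem_filter.1 (hφm i)).2 ⟨A, B, hAB', hA, x, hx1, hx2, hcon⟩
  · intro i j hij
    have hne : φ i ≠ φ j := fun h => hij (φ.injective h)
    have h80 : pt (φ i) - pt (φ j) = 2 * (((φ i : ℤ) - (φ j : ℤ) : ℤ) : ℝ) * ℓ' := by
      simp only [hpt]; push_cast; ring
    rw [h80, abs_mul, abs_mul, abs_of_pos hℓ'0, abs_of_pos (by norm_num : (0 : ℝ) < 2)]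
    have h81 : (1 : ℤ) ≤ |(φ i : ℤ) - (φ j : ℤ)| := by
      apply Int.one_le_abs
      intro h
      apply hne
      have : (φ i : ℤ) = φ j := by linarith
      exact_mod_cast this
    have h82 : (1 : ℝ) ≤ |(((φ i : ℤ) - (φ j : ℤ) : ℤ) : ℝ)| := by exact_mod_cast h81
    nlinarith

end

end Pool.Agent.R341.DI
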