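import Mathlib

open Set MeasureTheory
open scoped NNReal ENNReal

namespace Pool.Agent.R341.DI

/-- Lower bound for the Hausdorff dimension of the image of a coding map. -/
theorem dim_crit {N : ℕ} (hN : 1 < N) (g : (ℕ → Fin N) → ℝ) (C r : ℝ≥0) (hr : 0 < r)
    (hg : ∀ (ω ω' : ℕ → Fin N) (n : ℕ), (∀ i < n, ω i = ω' i) → ω n ≠ ω' n →
      (((N : ℝ)) ^ n)⁻¹ ≤ C * |g ω - g ω'| ^ (r : ℝ)) : (r : ℝ≥0∞) ≤ dimH (Set.range g) := by
  classical
  have key : ∀ ω ω' : ℕ → Fin N, |Real.ofDigits ω - Real.ofDigits ω'| ≤ C * |g ω - g ω'| ^ (r : ℝ) := by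
    intro ω ω'
    by_cases h : ω = ω'
    · rw [h]
      simp
      positivity
    · have hex : ∃ n, ω n ≠ ω' n := by
        by_contra hc
        push Not at hc
        exact h (funext hc)
      have h1 := Nat.find_spec hex
      have h2 : ∀ i < Nat.find hex, ω i = ω' i := by
        intro i hi
        have := Nat.find_min hex hi
        push Not at this
        exact this
      exact (Real.abs_ofDigits_sub_ofDigits_le h2).trans (hg ω ω' _ h2 h1)
  have hinj : Function.Injective g ∨ ∀ ω ω', g ω = g ω' → Real.ofDigits ω = Real.ofDigits ω' := by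
    right
    intro ω ω' h
    have h1 := key ω ω'
    rw [h, sub_self, abs_zero, Real.zero_rpow (by positivity), mul_zero] at h1
    have := abs_nonpos_iff.1 h1
    linarith
  have hgo : ∀ ω ω', g ω = g ω' → Real.ofDigits ω = Real.ofDigits ω' := by
    intro ω ω' h
    have h1 := key ω ω'
    rw [h, sub_self, abs_zero, Real.zero_rpow (by positivity), mul_zero] at h1
    have := abs_nonpos_iff.1 h1
    linarith
  -- the decoding map
  let f : ℝ → ℝ := fun x => if h : ∃ ω, g ω = x then Real.ofDigits h.choose else 0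
  have hf : ∀ ω, f (g ω) = Real.ofDigits ω := by
    intro ω
    have hex : ∃ ω', g ω' = g ω := ⟨ω, rfl⟩
    simp only [f, dif_pos hex]
    exact hgo _ _ hex.choose_spec
  have hhol : HolderOnWith C r f (Set.range g) := by
    rintro _ ⟨ω, rfl⟩ _ ⟨ω', rfl⟩
    rw [hf, hf, edist_dist, edist_dist, Real.dist_eq, Real.dist_eq]
    rw [ENNReal.ofReal_rpow_of_nonneg (abs_nonneg _) (by positivity),
      ← ENNReal.ofReal_coe_nnreal, ← ENNReal.ofReal_mul (by positivity)]
    exact ENNReal.ofReal_le_ofReal (key ω ω')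
  have h1 := hhol.dimH_image_le hr
  have h2 : dimH (f '' Set.range g) = 1 := by
    have hsub : Set.Icc (0 : ℝ) 1 ⊆ f '' Set.range g := by
      intro y hy
      obtain ⟨ω, -, hω⟩ := Real.ofDigits_SurjOn hN hy
      exact ⟨g ω, ⟨ω, rfl⟩, by rw [hf, hω]⟩
    have : (interior (f '' Set.range g)).Nonempty := by
      apply Set.Nonempty.mono (interior_mono hsub)
      rw [interior_Icc]
      exact ⟨1 / 2, by norm_num⟩
    rw [Real.dimH_of_nonempty_interior this]
    simp
  rw [h2] at h1
  rwa [ENNReal.le_div_iff_mul_le, one_mul] at h1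
  · left; exact_mod_cast hr.ne'
  · left; exact ENNReal.coe_ne_top

end Pool.Agent.R341.DI
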