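import Pool.Agent.R341.DiC

namespace Pool.Agent.R341.DI

noncomputable section

lemma value_ge {A B : ℤ} (h : Hee A B) (P q : ℤ) (hq : 0 < q) :
    4 * A ≤ (2 * A * P + B * q) ^ 2 + 3 * q ^ 2 := by
  obtain ⟨hA, C, hC⟩ := h
  have e : 4 * A * (A * P ^ 2 + B * P * q + C * q ^ 2) = (2 * A * P + B * q) ^ 2 + 3 * q ^ 2 := by
    linear_combination (-q ^ 2) * hC
  rw [← e]
  have hpos : 0 < 4 * A * (A * P ^ 2 + B * P * q + C * q ^ 2) := by
    rw [e]; positivity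
  have h1 : 0 < A * P ^ 2 + B * P * q + C * q ^ 2 := by
    by_contra hcon
    push Not at hcon
    have : 4 * A * (A * P ^ 2 + B * P * q + C * q ^ 2) ≤ 0 :=
      mul_nonpos_of_nonneg_of_nonpos (by linarith) hcon
    linarith
  nlinarith

lemma harmless {A B : ℤ} (h : Hee A B) {P q : ℤ} (hq : 0 < q) (h45 : 4 * q ^ 2 ≤ 5 * A) :
    2 / 5 ≤ |2 * (A : ℝ) * ((P : ℝ) / q) + B| := by
  have h1 := value_ge h P q hq
  have hqR : (0 : ℝ) < q := by exact_mod_cast hq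
  have h2 : (q : ℝ) ^ 2 ≤ 5 * (2 * (A : ℝ) * P + B * q) ^ 2 := by
    have : q ^ 2 ≤ 5 * (2 * A * P + B * q) ^ 2 := by linarith
    exact_mod_cast this
  have e : 2 * (A : ℝ) * ((P : ℝ) / q) + B = (2 * (A : ℝ) * P + B * q) / q := by
    field_simp
  rw [e, abs_div, abs_of_pos hqR, le_div_iff₀ hqR]
  apply abs_le_of_sq_le_sq' _ _ |>.2
  · rw [sq_abs]
    nlinarith
  · positivity

lemma killer_le {A X q ρ δ : ℝ} (hA : 0 < A) (hq : 0 < q) (hρ : 128 * q ≤ ρ) (hδ : δ ≤ 1 / 16)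
    (hX : |X| < 2 * δ) (h5 : 5 * A < 4 * ρ ^ 2)
    (h4 : 4 * A ≤ (q * X + 2 * A / ρ) ^ 2 + 3 * q ^ 2) : A ≤ 4 * q ^ 2 := by
  have hρ0 : 0 < ρ := by linarith
  rw [abs_lt] at hX
  have hX2 : X ^ 2 ≤ 1 / 64 := by nlinarith
  have e : (q * X + 2 * A / ρ) ^ 2 = q ^ 2 * X ^ 2 + 4 * A * (X * (q / ρ)) + A * (4 * A / ρ ^ 2) := by
    field_simp
    ring
  rw [e] at h4
  have h6 : 4 * A / ρ ^ 2 ≤ 16 / 5 := by
    rw [div_le_iff₀ (by positivity)]
    linarith
  have h7 : A * (4 * A / ρ ^ 2) ≤ A * (16 / 5) := mul_le_mul_of_nonneg_left h6 hA.le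
  have h8 : q / ρ ≤ 1 / 128 := by
    rw [div_le_iff₀ hρ0]; linarith
  have h80 : 0 ≤ q / ρ := by positivity
  have h9 : X * (q / ρ) ≤ 1 / 8 * (1 / 128) := by
    calc X * (q / ρ) ≤ 1 / 8 * (q / ρ) := mul_le_mul_of_nonneg_right (by linarith) h80
      _ ≤ _ := mul_le_mul_of_nonneg_left h8 (by norm_num)
  have h10 : 4 * A * (X * (q / ρ)) ≤ 4 * A * (1 / 8 * (1 / 128)) :=
    mul_le_mul_of_nonneg_left h9 (by linarith)
  have h11 : q ^ 2 * X ^ 2 ≤ q ^ 2 * (1 / 64) := mul_le_mul_of_nonneg_left hX2 (by positivity)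
  nlinarith

lemma two_killers {A B A' B' : ℤ} (h : Hee A B) (h' : Hee A' B') {δ H ℓ r1 r2 q Z : ℝ} {e : ℕ}
    (hδ : 0 < δ) (hδ1 : δ ≤ 1 / 16) (hq : 0 < q) (hZ : 0 < Z) (hHl : 0 < H * ℓ)
    (h1 : (2 : ℤ) ^ e ≤ A) (h2 : A < 2 ^ (e + 1)) (h1' : (2 : ℤ) ^ e ≤ A') (h2' : A' < 2 ^ (e + 1))
    (hk : |2 * (A : ℝ) * r1 + B| < 2 * δ) (hk' : |2 * (A' : ℝ) * r2 + B'| < 2 * δ)
    (hA : 1 < (A : ℝ) * (H * ℓ)) (hAq : (A : ℝ) ≤ 4 * q ^ 2)
    (hr : |r1 - r2| ≤ 1 / (128 * q ^ 2)) (hr' : 1 / Z ^ 2 ≤ |r1 - r2|)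
    (hZδ : 2 * δ * (Z ^ 2 * (H * ℓ)) ≤ 1) : False := by
  have hA0 : (0 : ℝ) < A := by exact_mod_cast h.1
  have hA0' : (0 : ℝ) < A' := by exact_mod_cast h'.1
  have hE : (0 : ℝ) < 2 ^ e := by positivity
  have hEA : (2 : ℝ) ^ e ≤ A := by exact_mod_cast h1
  have hEA' : (2 : ℝ) ^ e ≤ A' := by exact_mod_cast h1'
  obtain ⟨hAA, hBB⟩ : A = A' ∧ B = B' := by
    apply block_sep h h' h1 h2 h1' h2'
    set E : ℝ := 2 ^ e
    have e1 : (2 * (A : ℝ) * r1 + B) = 2 * A * (r1 + (B : ℝ) / (2 * A)) := by field_simp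
    have e2 : (2 * (A' : ℝ) * r2 + B') = 2 * A' * (r2 + (B' : ℝ) / (2 * A')) := by field_simp
    rw [e1, abs_mul, abs_of_pos (by positivity)] at hk
    rw [e2, abs_mul, abs_of_pos (by positivity)] at hk'
    set z := (B : ℝ) / (2 * A)
    set z' := (B' : ℝ) / (2 * A')
    have h3 : E * |r1 + z| ≤ A * |r1 + z| := mul_le_mul_of_nonneg_right hEA (abs_nonneg _)
    have h4 : E * |r2 + z'| ≤ A' * |r2 + z'| := mul_le_mul_of_nonneg_right hEA' (abs_nonneg _)
    have h5 : E * |r1 - r2| ≤ 1 / 32 := by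
      calc E * |r1 - r2| ≤ (4 * q ^ 2) * (1 / (128 * q ^ 2)) := by
            apply mul_le_mul (hEA.trans hAq) hr (abs_nonneg _) (by positivity)
        _ = 1 / 32 := by field_simp; norm_num
    have h6 : |4 * E * z - 4 * E * z'| ≤ 4 * (E * |r1 + z| + E * |r2 + z'| + E * |r1 - r2|) := by
      have e3 : 4 * E * z - 4 * E * z' = 4 * E * ((r1 + z) - (r2 + z') - (r1 - r2)) := by ring
      rw [e3, abs_mul, abs_of_pos (by positivity : 0 < 4 * E)]
      have h7 : |(r1 + z) - (r2 + z') - (r1 - r2)| ≤ |r1 + z| + |r2 + z'| + |r1 - r2| := by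
        calc |(r1 + z) - (r2 + z') - (r1 - r2)| ≤ |(r1 + z) - (r2 + z')| + |r1 - r2| := abs_sub _ _
          _ ≤ _ := by
            have := abs_sub (r1 + z) (r2 + z')
            linarith
      nlinarith
    linarith
  rw [← hAA, ← hBB] at hk'
  have h8 := hee_same_close h hk hk'
  have h9 : (A : ℝ) * (1 / Z ^ 2) ≤ (A : ℝ) * |r1 - r2| := mul_le_mul_of_nonneg_left hr' hA0.le
  have h10 : (A : ℝ) * (1 / Z ^ 2) < 2 * δ := by linarith
  rw [mul_one_div, div_lt_iff₀ (by positivity)] at h10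
  have h11 : (A : ℝ) * (H * ℓ) < 2 * δ * Z ^ 2 * (H * ℓ) := mul_lt_mul_of_pos_right h10 hHl
  linarith

/-- The excursion near a rational with denominator in the right range. -/
lemma cusp_exists {δ H C ℓ a L η : ℝ} {K W Q : ℕ} (hδ : 0 < δ) (hδ1 : δ ≤ 1 / 16)
    (hH : 64 ≤ H) (hK : 128 ≤ K) (hC : C = 8 * K) (hW : 4 * C * H ≤ 2 ^ W)
    (hδ2 : 2 * δ * ((K + W + 2) ^ 2 * C * H) ≤ 1) (hℓ : 0 < ℓ)
    (hP : Pg δ H a ℓ) (hQ : (Q : ℝ) ^ 2 * ℓ = C) {r : ℚ} (hd1 : Q ≤ K * r.den)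
    (hd2 : r.den ≤ Q) (hr : |a + ℓ / 2 - r| ≤ ℓ / 8) (hL0 : 0 < L) (hL8 : L ≤ ℓ / 8)
    (hη0 : 0 < η) (hη1 : η ≤ 1) (hLq : 2 * L * ((K + W + 2) * Q) ^ 2 ≤ δ * η) :
    ∃ a', a ≤ a' ∧ a' + L ≤ a + ℓ ∧ Pg δ H a' L ∧
      ∀ x : ℝ, a' ≤ x → x ≤ a' + L → ∃ p q : ℤ, 0 < q ∧ (q : ℝ) * |(q : ℝ) * x - p| ≤ η := by
  have hKR : (128 : ℝ) ≤ K := by exact_mod_cast hK
  have hH0 : 0 < H := by linarith
  have hHl : 0 < H * ℓ := by positivity
  have hC0 : 0 < C := by rw [hC]; positivity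
  set q : ℤ := (r.den : ℤ) with hqd
  set p : ℤ := r.num with hpd
  have hq0 : 0 < q := by rw [hqd]; exact_mod_cast r.den_pos
  have hcop : IsCoprime p q := by
    rw [Int.isCoprime_iff_nat_coprime]
    simpa [hqd, hpd] using r.reduced
  obtain ⟨u, v, huv⟩ := hcop
  set q' : ℤ := u % q with hq'
  set p' : ℤ := -v - p * (u / q) with hp'
  have hq'0 : 0 ≤ q' := Int.emod_nonneg _ hq0.ne'
  have hq'1 : q' < q := Int.emod_lt_of_pos _ hq0
  have hbez : p * q' - p' * q = 1 := by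
    have h1 : q * (u / q) + u % q = u := Int.mul_ediv_add_emod u q
    have h2 : q' = u - q * (u / q) := by rw [hq']; linarith
    rw [h2, hp']
    linarith [huv]
  have hqR : (0 : ℝ) < q := by exact_mod_cast hq0
  have hrR : (r : ℝ) = (p : ℝ) / q := by
    rw [hpd, hqd]
    push_cast
    exact Rat.cast_def r
  have hQq : (Q : ℝ) ≤ K * q := by
    have : (Q : ℤ) ≤ K * q := by rw [hqd]; exact_mod_cast hd1
    exact_mod_cast this
  have hqQ : (q : ℝ) ≤ Q := by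
    have : q ≤ (Q : ℤ) := by rw [hqd]; exact_mod_cast hd2
    exact_mod_cast this
  have hQ0 : (0 : ℝ) < Q := by linarith
  set qj : ℕ → ℤ := fun j => j * q + q' with hqj
  set pj : ℕ → ℤ := fun j => j * p + p' with hpj
  set rj : ℕ → ℝ := fun j => (pj j : ℝ) / (qj j : ℝ) with hrj
  have hqjge : ∀ j : ℕ, (j : ℝ) * q ≤ (qj j : ℝ) := by
    intro j
    have : (j : ℤ) * q ≤ qj j := by simp only [hqj]; linarith
    exact_mod_cast this
  have hqjle : ∀ j : ℕ, (qj j : ℝ) ≤ (j + 1) * q := by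
    intro j
    have : qj j ≤ ((j : ℤ) + 1) * q := by simp only [hqj]; linarith
    exact_mod_cast this
  have hqjpos : ∀ j : ℕ, K ≤ j → (0 : ℝ) < qj j := by
    intro j hj
    have h1 : (K : ℝ) ≤ j := by exact_mod_cast hj
    have h2 := hqjge j
    have h3 : 0 < (j : ℝ) * q := by
      apply mul_pos (by linarith) hqR
    linarith
  have hdiff : ∀ j : ℕ, K ≤ j → (r : ℝ) - rj j = 1 / (q * qj j) := by
    intro j hj
    have h1 := hqjpos j hj
    have hb : (p : ℝ) * q' - p' * q = 1 := by exact_mod_cast hbez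
    have e1 : (p : ℝ) * qj j - q * pj j = 1 := by
      simp only [hqj, hpj]
      push_cast
      linarith
    rw [hrR]
    simp only [hrj]
    rw [div_sub_div _ _ hqR.ne' h1.ne', e1]
  have hdiff2 : ∀ i j : ℕ, K ≤ i → K ≤ j → rj j - rj i = ((j : ℝ) - i) / (qj i * qj j) := by
    intro i j hi hj
    have h1 := hqjpos i hi
    have h2 := hqjpos j hj
    have e1 : rj j - rj i = ((r : ℝ) - rj i) - ((r : ℝ) - rj j) := by ring
    rw [e1, hdiff i hi, hdiff j hj]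
    have e2 : (qj j : ℝ) - qj i = (j - i) * q := by
      simp only [hqj]; push_cast; ring
    rw [div_sub_div _ _ (by positivity) (by positivity)]
    rw [div_eq_div_iff (by positivity) (by positivity)]
    linear_combination ((q : ℝ) * qj i * qj j) * e2
  set Z : ℝ := (K + W + 2) * Q with hZ
  have hZ0 : 0 < Z := by rw [hZ]; positivity
  have hqjZ : ∀ j : ℕ, j ≤ K + W + 1 → (qj j : ℝ) ≤ Z := by
    intro j hj
    have h1 : (j : ℝ) + 1 ≤ K + W + 2 := by
      have : (j : ℝ) ≤ K + W + 1 := by exact_mod_cast hj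
      linarith
    calc (qj j : ℝ) ≤ (j + 1) * q := hqjle j
      _ ≤ (K + W + 2) * Q := by
        apply mul_le_mul h1 hqQ hqR.le (by positivity)
  -- existence of a free index
  obtain ⟨j, hjK, hjW, hfree⟩ : ∃ j : ℕ, K ≤ j ∧ j ≤ K + W + 1 ∧ ∀ A B : ℤ, Hee A B →
      1 < (A : ℝ) * (H * ℓ) → 5 * A < 4 * (qj j) ^ 2 → 2 * δ ≤ |2 * (A : ℝ) * rj j + B| := by
    by_contra hcon
    push Not at hcon
    have hch : ∀ j : ℕ, ∃ A B : ℤ, K ≤ j → j ≤ K + W + 1 → (Hee A B ∧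
      1 < (A : ℝ) * (H * ℓ) ∧ 5 * A < 4 * (qj j) ^ 2 ∧ |2 * (A : ℝ) * rj j + B| < 2 * δ) := by
      intro j
      by_cases h1 : K ≤ j
      · by_cases h2 : j ≤ K + W + 1
        · obtain ⟨A, B, h3, h4, h5, h6⟩ := hcon j h1 h2
          exact ⟨A, B, fun _ _ => ⟨h3, h4, h5, h6⟩⟩
        · exact ⟨0, 0, fun _ h => absurd h h2⟩
      · exact ⟨0, 0, fun h => absurd h h1⟩
    choose Af Bf hAB using hch
    set e0 : ℕ := Nat.log 2 ⌊1 / (H * ℓ)⌋₊ with he0
    set ef : ℕ → ℕ := fun i => Nat.log 2 (Af i).toNat with hef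
    have hblock : ∀ i, K ≤ i → i ≤ K + W + 1 → (2 : ℤ) ^ (ef i) ≤ Af i ∧ Af i < (2 : ℤ) ^ (ef i + 1) := by
      intro i h1 h2
      obtain ⟨h3, h4, h5, h6⟩ := hAB i h1 h2
      have h7 : ((Af i).toNat : ℤ) = Af i := Int.toNat_of_nonneg h3.1.le
      constructor
      · have h8 : (2 : ℕ) ^ (ef i) ≤ (Af i).toNat := Nat.pow_log_le_self 2 (by have := h3.1; omega)
        rw [← h7]
        exact_mod_cast h8
      · have h8 : (Af i).toNat < (2 : ℕ) ^ (ef i + 1) := Nat.lt_pow_succ_log_self (by norm_num) _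
        rw [← h7]
        exact_mod_cast h8
    have hA4 : ∀ i, K ≤ i → i ≤ K + W + 1 → (Af i : ℝ) ≤ 4 * (q : ℝ) ^ 2 := by
      intro i h1 h2
      obtain ⟨h3, h4, h5, h6⟩ := hAB i h1 h2
      have hA0 : (0 : ℝ) < Af i := by exact_mod_cast h3.1
      have hqi := hqjpos i h1
      have h7 := value_ge h3 p q hq0
      have h7R : 4 * (Af i : ℝ) ≤ (2 * Af i * p + Bf i * q) ^ 2 + 3 * q ^ 2 := by exact_mod_cast h7
      have h5R : 5 * (Af i : ℝ) < 4 * (qj i : ℝ) ^ 2 := by exact_mod_cast h5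
      apply killer_le hA0 hqR (ρ := qj i) _ hδ1 h6 h5R
      · have e1 : (2 * (Af i : ℝ) * p + Bf i * q) = q * (2 * (Af i : ℝ) * rj i + Bf i) + 2 * Af i / qj i := by
          have e2 := hdiff i h1
          rw [hrR] at e2
          have e3 : rj i = (p : ℝ) / q - 1 / (q * qj i) := by linarith
          rw [e3]
          field_simp
          ring
        rw [← e1]
        exact h7R
      · have h8 : (K : ℝ) ≤ i := by exact_mod_cast h1
        calc 128 * (q : ℝ) ≤ i * q := mul_le_mul_of_nonneg_right (by linarith) hqR.le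
          _ ≤ _ := hqjge i
    have hmaps : ∀ i ∈ Finset.Icc K (K + W + 1), ef i ∈ Finset.Icc e0 (e0 + W) := by
      intro i hi
      rw [Finset.mem_Icc] at hi
      obtain ⟨h1, h2⟩ := hi
      obtain ⟨h3, h4, h5, h6⟩ := hAB i h1 h2
      obtain ⟨hb1, hb2⟩ := hblock i h1 h2
      have hinv : 1 / (H * ℓ) < Af i := by
        rw [div_lt_iff₀ hHl]; exact h4
      have hfl : (⌊1 / (H * ℓ)⌋₊ : ℝ) ≤ 1 / (H * ℓ) := Nat.floor_le (by positivity)
      have h7 : ((Af i).toNat : ℤ) = Af i := Int.toNat_of_nonneg h3.1.le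
      have h7R : ((Af i).toNat : ℝ) = Af i := by exact_mod_cast h7
      rw [Finset.mem_Icc]
      constructor
      · apply Nat.log_mono_right
        have : (⌊1 / (H * ℓ)⌋₊ : ℝ) ≤ ((Af i).toNat : ℝ) := by rw [h7R]; linarith
        exact_mod_cast this
      · have h8 : ⌊1 / (H * ℓ)⌋₊ < 2 ^ (e0 + 1) := Nat.lt_pow_succ_log_self (by norm_num) _
        have h9 : 1 / (H * ℓ) < 2 ^ (e0 + 1) := by
          have h10 : 1 / (H * ℓ) < (⌊1 / (H * ℓ)⌋₊ : ℝ) + 1 := Nat.lt_floor_add_one _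
          have h11 : (⌊1 / (H * ℓ)⌋₊ : ℝ) + 1 ≤ 2 ^ (e0 + 1) := by exact_mod_cast h8
          linarith
        have h12 : (Af i : ℝ) ≤ (4 * C * H) * (1 / (H * ℓ)) := by
          have e1 : (4 * C * H) * (1 / (H * ℓ)) = 4 * (Q : ℝ) ^ 2 := by
            rw [← hQ]; field_simp
          rw [e1]
          have h13 : (q : ℝ) ^ 2 ≤ Q ^ 2 := pow_le_pow_left₀ hqR.le hqQ 2
          linarith [hA4 i h1 h2]
        have h13 : (2 : ℝ) ^ (ef i) ≤ Af i := by exact_mod_cast hb1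
        have h14 : (2 : ℝ) ^ (ef i) < 2 ^ (e0 + W + 1) := by
          calc (2 : ℝ) ^ (ef i) ≤ (4 * C * H) * (1 / (H * ℓ)) := h13.trans h12
            _ ≤ 2 ^ W * (1 / (H * ℓ)) := by
              apply mul_le_mul_of_nonneg_right hW (by positivity)
            _ < 2 ^ W * 2 ^ (e0 + 1) := by
              apply mul_lt_mul_of_pos_left h9 (by positivity)
            _ = 2 ^ (e0 + W + 1) := by ring
        have h15 := (pow_lt_pow_iff_right₀ (by norm_num : (1 : ℝ) < 2)).1 h14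
        omega
    have hlt : (Finset.Icc e0 (e0 + W)).card < (Finset.Icc K (K + W + 1)).card := by
      rw [Nat.card_Icc, Nat.card_Icc]; omega
    obtain ⟨i, hi, j, hj, hij, heij⟩ := Finset.exists_ne_map_eq_of_card_lt_of_maps_to hlt hmaps
    rw [Finset.mem_Icc] at hi hj
    -- general contradiction for i < j
    have main : ∀ i j : ℕ, K ≤ i → i ≤ K + W + 1 → K ≤ j → j ≤ K + W + 1 → i < j →
        ef i = ef j → False := by
      intro i j hi1 hi2 hj1 hj2 hlt hee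
      obtain ⟨h3, h4, h5, h6⟩ := hAB i hi1 hi2
      obtain ⟨h3', h4', h5', h6'⟩ := hAB j hj1 hj2
      obtain ⟨hb1, hb2⟩ := hblock i hi1 hi2
      obtain ⟨hb1', hb2'⟩ := hblock j hj1 hj2
      rw [← hee] at hb1' hb2'
      have hqi := hqjpos i hi1
      have hqj' := hqjpos j hj1
      have hd := hdiff2 i j hi1 hj1
      have hij1 : (1 : ℝ) ≤ (j : ℝ) - i := by
        have : (i : ℝ) + 1 ≤ j := by exact_mod_cast hlt
        linarith
      have hpos : 0 < rj j - rj i := by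
        rw [hd]; positivity
      have habs : |rj i - rj j| = rj j - rj i := by
        rw [abs_sub_comm, abs_of_pos hpos]
      refine two_killers h3 h3' (δ := δ) (H := H) (ℓ := ℓ) (r1 := rj i) (r2 := rj j) (q := q) (Z := Z)
        (e := ef i) hδ hδ1 hqR hZ0 hHl hb1 hb2 hb1' hb2' h6 h6' h4 (hA4 i hi1 hi2) ?_ ?_ ?_
      · rw [habs]
        have h20 : rj j < r := by
          have := hdiff j hj1
          have h21 : (0 : ℝ) < 1 / (q * qj j) := by positivity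
          linarith
        have h22 : rj j - rj i ≤ 1 / (q * qj i) := by
          have := hdiff i hi1
          linarith
        refine h22.trans ?_
        apply one_div_le_one_div_of_le (by positivity)
        have h23 : (K : ℝ) ≤ i := by exact_mod_cast hi1
        have h24 : 128 * (q : ℝ) ≤ qj i := by
          calc 128 * (q : ℝ) ≤ i * q := mul_le_mul_of_nonneg_right (by linarith) hqR.le
            _ ≤ _ := hqjge i
        nlinarith
      · rw [habs, hd]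
        rw [div_le_div_iff₀ (by positivity) (by positivity)]
        have h25 : (qj i : ℝ) * qj j ≤ Z * Z :=
          mul_le_mul (hqjZ i hi2) (hqjZ j hj2) hqj'.le hZ0.le
        have h26 : 1 * (Z * Z) ≤ ((j : ℝ) - i) * (Z * Z) :=
          mul_le_mul_of_nonneg_right hij1 (by positivity)
        nlinarith
      · have e1 : Z ^ 2 * (H * ℓ) = (K + W + 2) ^ 2 * C * H := by
          rw [← hQ, hZ]; ring
        rw [e1]; exact hδ2
    rcases Nat.lt_or_gt_of_ne hij with h | h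
    · exact main i j hi.1 hi.2 hj.1 hj.2 h heij
    · exact main j i hj.1 hj.2 hi.1 hi.2 h heij.symm
  -- conclusion
  have hqjp := hqjpos j hjK
  have hjR : (K : ℝ) ≤ j := by exact_mod_cast hjK
  have hKq : (K : ℝ) * q ≤ qj j :=
    (mul_le_mul_of_nonneg_right hjR hqR.le).trans (hqjge j)
  have hsmall : 1 / ((q : ℝ) * qj j) ≤ ℓ / 8 := by
    rw [div_le_iff₀ (by positivity)]
    have h1 : (Q : ℝ) ^ 2 ≤ (K * q) ^ 2 := pow_le_pow_left₀ hQ0.le hQq 2
    have h2 : (K : ℝ) * (q * (K * q)) ≤ K * (q * qj j) := by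
      apply mul_le_mul_of_nonneg_left _ (by positivity)
      apply mul_le_mul_of_nonneg_left hKq hqR.le
    have h3 : (Q : ℝ) ^ 2 ≤ K * (q * qj j) := by nlinarith
    have h4 : (Q : ℝ) ^ 2 * ℓ ≤ K * (q * qj j) * ℓ := mul_le_mul_of_nonneg_right h3 hℓ.le
    rw [hQ, hC] at h4
    have h5 : 0 < (K : ℝ) := by linarith
    have h6 : (K : ℝ) * 8 ≤ K * ((q * qj j) * ℓ) := by linarith
    have h7 := le_of_mul_le_mul_left h6 h5
    linarith
  have hdj := hdiff j hjK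
  rw [abs_le] at hr
  have hrj1 : a + ℓ / 8 ≤ rj j := by linarith [hr.1, hr.2]
  have hrj2 : rj j ≤ a + 5 * ℓ / 8 := by
    have : (0 : ℝ) < 1 / (q * qj j) := by positivity
    linarith [hr.1, hr.2]
  have hZL : 2 * L * (qj j : ℝ) ^ 2 ≤ δ * η := by
    have h1 : (qj j : ℝ) ^ 2 ≤ Z ^ 2 := pow_le_pow_left₀ hqjp.le (hqjZ j hjW) 2
    have h2 : 2 * L * (qj j : ℝ) ^ 2 ≤ 2 * L * Z ^ 2 := mul_le_mul_of_nonneg_left h1 (by positivity)
    linarith
  have hδη : δ * η ≤ δ := by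
    apply mul_le_of_le_one_right hδ.le hη1
  refine ⟨rj j, by linarith, by linarith, ?_, ?_⟩
  · intro A B hAB hA x hx1 hx2
    have hA0 : (0 : ℝ) < A := by exact_mod_cast hAB.1
    by_cases hbig : 1 < (A : ℝ) * (H * ℓ)
    · have hAx : |2 * (A : ℝ) * x + B| ≥ |2 * (A : ℝ) * rj j + B| - 2 * A * L := by
        have e1 : 2 * (A : ℝ) * rj j + B = (2 * (A : ℝ) * x + B) - 2 * A * (x - rj j) := by ring
        have h1 : |2 * (A : ℝ) * rj j + B| ≤ |2 * (A : ℝ) * x + B| + |2 * A * (x - rj j)| := by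
          rw [e1]; exact abs_sub _ _
        have h2 : |2 * A * (x - rj j)| ≤ 2 * A * L := by
          rw [abs_of_nonneg (by apply mul_nonneg (by positivity) (by linarith))]
          apply mul_le_mul_of_nonneg_left (by linarith) (by positivity)
        linarith
      by_cases h45 : 5 * A < 4 * (qj j) ^ 2
      · have h1 := hfree A B hAB hbig h45
        have h2 : 5 * (A : ℝ) < 4 * (qj j : ℝ) ^ 2 := by exact_mod_cast h45
        have h3 : 2 * (A : ℝ) * L ≤ δ := by nlinarith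
        linarith
      · push Not at h45
        have hqjZ0 : 0 < qj j := by exact_mod_cast hqjp
        have h1 := harmless hAB (P := pj j) hqjZ0 h45
        have h2 : 2 * (A : ℝ) * L ≤ 1 / 32 := by
          have h3 : (A : ℝ) * L * 64 ≤ (A : ℝ) * L * H := mul_le_mul_of_nonneg_left hH (by positivity)
          nlinarith
        have h4 : (2 : ℝ) / 5 ≤ |2 * (A : ℝ) * rj j + B| := h1
        linarith
    · push Not at hbig
      exact hP A B hAB (by linarith) x (by linarith) (by linarith)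
  · intro x hx1 hx2
    refine ⟨pj j, qj j, by exact_mod_cast hqjp, ?_⟩
    have e1 : (qj j : ℝ) * x - pj j = qj j * (x - rj j) := by
      simp only [hrj]
      field_simp
    rw [e1, abs_mul, abs_of_pos hqjp, abs_of_nonneg (by linarith)]
    have h1 : (qj j : ℝ) * (qj j * (x - rj j)) ≤ (qj j : ℝ) ^ 2 * L := by
      have : (qj j : ℝ) * (qj j * (x - rj j)) = (qj j : ℝ) ^ 2 * (x - rj j) := by ring
      rw [this]
      apply mul_le_mul_of_nonneg_left (by linarith) (by positivity)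
    nlinarith

end

end Pool.Agent.R341.DI
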