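import Pool.Agent.R341.DiE

namespace Pool.Agent.R341.DI

noncomputable section

/-- length of a node of level `n` -/
def Lm (h n : ℕ) : ℝ := 1 / ((2 : ℝ) ^ (2 * h)) ^ n
/-- Dirichlet parameter at level `n` -/
def Qn (h n : ℕ) : ℕ := 16 * (2 ^ h) ^ (n + 1)
def Kh (h : ℕ) : ℕ := 32 * 2 ^ (2 * h)
def Hh (h : ℕ) : ℝ := 64 * (((2 * h : ℕ) : ℝ) + 2)
def Ch (h : ℕ) : ℝ := 8 * (Kh h : ℝ)

lemma Lm_pos (h n : ℕ) : 0 < Lm h n := by unfold Lm; positivity

lemma Lm_succ (h n : ℕ) : Lm h (n + 1) = Lm h n / 2 ^ (2 * h) := by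
  unfold Lm; rw [pow_succ]; field_simp

lemma Lm_add (h n k : ℕ) : Lm h (n + k) = Lm h n * Lm h k := by
  unfold Lm; rw [pow_add]; field_simp

lemma Qn_pos (h n : ℕ) : 0 < Qn h n := by unfold Qn; positivity

lemma Qn_add (h n k : ℕ) : (Qn h (n + k) : ℝ) = Qn h n * (2 ^ h) ^ k := by
  unfold Qn; push_cast; ring

lemma Qn_sq (h n : ℕ) : (Qn h n : ℝ) ^ 2 * Lm h n = Ch h := by
  unfold Qn Lm Ch Kh
  push_cast
  have e : ((2 : ℝ) ^ (2 * h)) ^ n = (((2 : ℝ) ^ h) ^ n) ^ 2 := by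
    rw [← pow_mul, ← pow_mul, ← pow_mul]; congr 1; ring
  have e2 : (2 : ℝ) ^ (2 * h) = (2 ^ h) ^ 2 := by rw [← pow_mul]; congr 1; ring
  rw [e, e2, pow_succ]
  field_simp
  ring

structure Par (h W i0 : ℕ) (δ : ℝ) : Prop where
  hh : 5 ≤ h
  δ0 : 0 < δ
  δ1 : δ ≤ 1 / 16
  δ2 : 2 * δ * 2 ^ (2 * h) * (64 * (((2 * h : ℕ) : ℝ) + 2)) ≤ 1
  W1 : 4 * Ch h * Hh h ≤ 2 ^ W
  δ3 : 2 * δ * (((Kh h : ℝ) + W + 2) ^ 2 * Ch h * Hh h) ≤ 1
  i1 : 1 ≤ i0
  i2 : 2 * (((Kh h : ℝ) + W + 2) ^ 2 * Ch h) ≤ δ * ((2 : ℝ) ^ (2 * h)) ^ i0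

lemma exists_Par (h : ℕ) (hh : 5 ≤ h) : ∃ W i0 δ, Par h W i0 δ := by
  obtain ⟨W, hW⟩ := pow_unbounded_of_one_lt (4 * Ch h * Hh h) (by norm_num : (1 : ℝ) < 2)
  have hC : 0 < Ch h := by unfold Ch Kh; positivity
  have hH : 0 < Hh h := by unfold Hh; positivity
  set X : ℝ := 2 * 2 ^ (2 * h) * (64 * (((2 * h : ℕ) : ℝ) + 2)) with hX
  set Y : ℝ := 2 * (((Kh h : ℝ) + W + 2) ^ 2 * Ch h * Hh h) with hY
  have hX0 : 0 < X := by positivity
  have hY0 : 0 < Y := by positivity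
  set δ : ℝ := min (1 / 16) (min (1 / X) (1 / Y)) with hδ
  have hδ0 : 0 < δ := by positivity
  have h1 : δ ≤ 1 / 16 := min_le_left _ _
  have h2 : δ ≤ 1 / X := (min_le_right _ _).trans (min_le_left _ _)
  have h3 : δ ≤ 1 / Y := (min_le_right _ _).trans (min_le_right _ _)
  rw [le_div_iff₀ hX0] at h2
  rw [le_div_iff₀ hY0] at h3
  have hbig : (1 : ℝ) < (2 : ℝ) ^ (2 * h) := one_lt_pow₀ (by norm_num) (by omega)
  obtain ⟨i, hi⟩ := pow_unbounded_of_one_lt (2 * (((Kh h : ℝ) + W + 2) ^ 2 * Ch h) / δ) hbig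
  refine ⟨W, i + 1, δ, hh, hδ0, h1, ?_, hW.le, ?_, by omega, ?_⟩
  · rw [hX] at h2; linarith
  · rw [hY] at h3; linarith
  · rw [div_lt_iff₀ hδ0] at hi
    have : ((2 : ℝ) ^ (2 * h)) ^ i ≤ ((2 : ℝ) ^ (2 * h)) ^ (i + 1) :=
      pow_le_pow_right₀ hbig.le (by omega)
    nlinarith

variable {h W i0 : ℕ} {δ : ℝ}

/-- node of level n -/
def Nd (δ : ℝ) (h : ℕ) (a : ℝ) (n : ℕ) : Prop := Pg δ (Hh h) a (Lm h n)

/-- Sub-node relation -/
def Sb (h : ℕ) (a : ℝ) (n : ℕ) (a' : ℝ) (n' : ℕ) : Prop := a ≤ a' ∧ a' + Lm h n' ≤ a + Lm h n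

lemma Sb_refl (h : ℕ) (a : ℝ) (n : ℕ) : Sb h a n a n := ⟨le_refl _, le_refl _⟩

lemma Sb_trans {h : ℕ} {a a' a'' : ℝ} {n n' n'' : ℕ} (h1 : Sb h a n a' n') (h2 : Sb h a' n' a'' n'') :
    Sb h a n a'' n'' := ⟨h1.1.trans h2.1, h2.2.trans h1.2⟩

lemma children (P : Par h W i0 δ) {a : ℝ} {n : ℕ} (hN : Nd δ h a n) :
    ∃ c : Fin (2 ^ (2 * h - 2)) → ℝ, (∀ i, Sb h a n (c i) (n + 1)) ∧ (∀ i, Nd δ h (c i) (n + 1)) ∧
      (∀ i j, i ≠ j → 2 * Lm h (n + 1) ≤ |c i - c j|) := by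
  have hm : 10 ≤ 2 * h := by have := P.hh; omega
  obtain ⟨c, h1, h2, h3⟩ := normal_step hm P.δ0 P.δ1 P.δ2 (Lm_pos h n) hN
  refine ⟨c, ?_, ?_, ?_⟩
  · intro i
    unfold Sb
    rw [Lm_succ]
    exact h1 i
  · intro i
    unfold Nd
    rw [Lm_succ]
    exact h2 i
  · intro i j hij
    rw [Lm_succ]
    exact h3 i j hij

lemma child (P : Par h W i0 δ) {a : ℝ} {n : ℕ} (hN : Nd δ h a n) :
    ∃ a', Sb h a n a' (n + 1) ∧ Nd δ h a' (n + 1) := by
  obtain ⟨c, h1, h2, -⟩ := children P hN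
  have : 0 < 2 ^ (2 * h - 2) := by positivity
  exact ⟨c ⟨0, this⟩, h1 _, h2 _⟩

lemma pad (P : Par h W i0 δ) {a : ℝ} {n : ℕ} (hN : Nd δ h a n) (j : ℕ) :
    ∃ a', Sb h a n a' (n + j) ∧ Nd δ h a' (n + j) := by
  induction j with
  | zero => exact ⟨a, Sb_refl _ _ _, hN⟩
  | succ j ih =>
    obtain ⟨a', h1, h2⟩ := ih
    obtain ⟨a'', h3, h4⟩ := child P h2
    exact ⟨a'', Sb_trans h1 h3, h4⟩

/-- good rational -/
def Good (h : ℕ) (a : ℝ) (n : ℕ) (r : ℚ) : Prop :=
  Qn h n ≤ Kh h * r.den ∧ r.den ≤ Qn h n ∧ |a + Lm h n / 2 - r| ≤ Lm h n / 8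

/-- `x` has a good rational approximation -/
def Ua (k : ℕ) (x : ℝ) : Prop :=
  ∃ p q : ℤ, 0 < q ∧ (q : ℝ) * |(q : ℝ) * x - p| ≤ (1 / 2 : ℝ) ^ k

lemma Lm_le_half (hh : 5 ≤ h) (k : ℕ) : Lm h k ≤ (1 / 2 : ℝ) ^ k := by
  unfold Lm
  rw [one_div_pow]
  apply one_div_le_one_div_of_le (by positivity)
  apply pow_le_pow_left₀ (by norm_num)
  calc (2 : ℝ) = 2 ^ 1 := by norm_num
    _ ≤ 2 ^ (2 * h) := pow_le_pow_right₀ (by norm_num) (by omega)

lemma cusp_level (P : Par h W i0 δ) {a : ℝ} {n : ℕ} (hN : Nd δ h a n) {r : ℚ} (hG : Good h a n r)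
    (k : ℕ) : ∃ a', Sb h a n a' (n + (i0 + k)) ∧ Nd δ h a' (n + (i0 + k)) ∧
      ∀ x, a' ≤ x → x ≤ a' + Lm h (n + (i0 + k)) → Ua k x := by
  have hL8 : Lm h (n + (i0 + k)) ≤ Lm h n / 8 := by
    rw [Lm_add]
    have h1 : Lm h (i0 + k) ≤ 1 / 8 := by
      unfold Lm
      apply one_div_le_one_div_of_le (by norm_num)
      have h3 := P.hh
      have h4 := P.i1
      calc (8 : ℝ) = 2 ^ 3 := by norm_num
        _ ≤ 2 ^ (2 * h * (i0 + k)) := by
          apply pow_le_pow_right₀ (by norm_num)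
          nlinarith
        _ = _ := by rw [pow_mul]
    have := Lm_pos h n
    nlinarith
  have hη1 : (1 / 2 : ℝ) ^ k ≤ 1 := pow_le_one₀ (by norm_num) (by norm_num)
  have hLq : 2 * Lm h (n + (i0 + k)) * (((Kh h : ℝ) + W + 2) * Qn h n) ^ 2 ≤ δ * (1 / 2 : ℝ) ^ k := by
    have e : 2 * Lm h (n + (i0 + k)) * (((Kh h : ℝ) + W + 2) * Qn h n) ^ 2
        = (2 * (((Kh h : ℝ) + W + 2) ^ 2 * Ch h)) * Lm h i0 * Lm h k := by
      rw [← Qn_sq h n, Lm_add, Lm_add]; ring
    rw [e]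
    have h1 : (2 * (((Kh h : ℝ) + W + 2) ^ 2 * Ch h)) * Lm h i0 ≤ δ := by
      have := P.i2
      unfold Lm
      rw [mul_one_div, div_le_iff₀ (by positivity)]
      exact this
    have h2 := Lm_le_half P.hh k
    exact mul_le_mul h1 h2 (Lm_pos h k).le P.δ0.le
  have hH : 64 ≤ Hh h := by
    unfold Hh
    have : (0 : ℝ) ≤ ((2 * h : ℕ) : ℝ) := by positivity
    linarith
  have hK : 128 ≤ Kh h := by
    unfold Kh
    have : 2 ^ 2 ≤ 2 ^ (2 * h) := Nat.pow_le_pow_right (by norm_num) (by have := P.hh; omega)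
    omega
  obtain ⟨a', h1, h2, h3, h4⟩ := cusp_exists P.δ0 P.δ1 hH hK (C := Ch h) rfl P.W1 P.δ3 (Lm_pos h n)
    hN (Qn_sq h n) hG.1 hG.2.1 hG.2.2 (Lm_pos h _) hL8 (by positivity) hη1 hLq
  exact ⟨a', ⟨h1, h2⟩, h3, h4⟩

lemma dirichlet (h : ℕ) (a : ℝ) (n : ℕ) : ∃ r : ℚ, |a + Lm h n / 2 - r| ≤ 1 / ((Qn h n : ℝ) * r.den) ∧
    r.den ≤ Qn h n := by
  obtain ⟨r, h1, h2⟩ := Real.exists_rat_abs_sub_le_and_den_le (a + Lm h n / 2) (Qn_pos h n)
  refine ⟨r, h1.trans ?_, h2⟩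
  have h3 : (0 : ℝ) < Qn h n := by exact_mod_cast Qn_pos h n
  have h4 : (0 : ℝ) < r.den := by exact_mod_cast r.den_pos
  apply one_div_le_one_div_of_le (by positivity)
  apply mul_le_mul_of_nonneg_right (by linarith) h4.le

lemma good_of_dirichlet {a : ℝ} {n : ℕ} {r : ℚ}
    (h1 : |a + Lm h n / 2 - r| ≤ 1 / ((Qn h n : ℝ) * r.den)) (h2 : r.den ≤ Qn h n)
    (h3 : Qn h n ≤ Kh h * r.den) : Good h a n r := by
  refine ⟨h3, h2, h1.trans ?_⟩
  have hQ : (0 : ℝ) < Qn h n := by exact_mod_cast Qn_pos h n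
  have hd : (0 : ℝ) < r.den := by exact_mod_cast r.den_pos
  have hK : (0 : ℝ) < Kh h := by unfold Kh; push_cast; positivity
  have hsq := Qn_sq h n
  unfold Ch at hsq
  have h3R : (Qn h n : ℝ) ≤ Kh h * r.den := by exact_mod_cast h3
  rw [div_le_iff₀ (by positivity)]
  have hL := Lm_pos h n
  have h5 : (Qn h n : ℝ) * (Qn h n) * Lm h n ≤ (Qn h n : ℝ) * (Kh h * r.den) * Lm h n := by
    apply mul_le_mul_of_nonneg_right _ hL.le
    apply mul_le_mul_of_nonneg_left h3R hQ.le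
  have h6 : (Kh h : ℝ) * 8 ≤ Kh h * (Qn h n * r.den * Lm h n) := by nlinarith
  have h7 := le_of_mul_le_mul_left h6 hK
  linarith

lemma rat_eq_of_close {r s : ℚ} (h : |(r : ℝ) - s| * (r.den * s.den) < 1) : r = s := by
  by_contra hne
  have h1 : r - s ≠ 0 := sub_ne_zero.2 hne
  have hr : (0 : ℚ) < r.den := by exact_mod_cast r.den_pos
  have hs : (0 : ℚ) < s.den := by exact_mod_cast s.den_pos
  have h2 : (r - s) * (r.den * s.den) = ((r.num * s.den - s.num * r.den : ℤ) : ℚ) := by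
    push_cast
    have e1 := Rat.mul_den_eq_num r
    have e2 := Rat.mul_den_eq_num s
    linear_combination (s.den : ℚ) * e1 - (r.den : ℚ) * e2
  have h3 : (r.num * s.den - s.num * r.den : ℤ) ≠ 0 := by
    intro h4
    rw [h4] at h2
    have h5 : (r - s) * ((r.den : ℚ) * s.den) ≠ 0 := mul_ne_zero h1 (by positivity)
    apply h5
    rw [h2]
    simp
  have h4 : (1 : ℤ) ≤ |r.num * s.den - s.num * r.den| := Int.one_le_abs h3
  have h5 : (1 : ℚ) ≤ |(r - s) * (r.den * s.den)| := by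
    rw [h2]
    exact_mod_cast h4
  have h6 : (1 : ℝ) ≤ |((r : ℝ) - s) * (r.den * s.den)| := by exact_mod_cast h5
  have hr' : (0 : ℝ) < r.den := by exact_mod_cast r.den_pos
  have hs' : (0 : ℝ) < s.den := by exact_mod_cast s.den_pos
  rw [abs_mul, abs_of_pos (by positivity : (0 : ℝ) < r.den * s.den)] at h6
  linarith

lemma chain (P : Par h W i0 δ) {a : ℝ} {n : ℕ} (hN : Nd δ h a n) (j : ℕ) :
    (∃ i ≤ j, ∃ a' r, Sb h a n a' (n + i) ∧ Nd δ h a' (n + i) ∧ Good h a' (n + i) r) ∨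
    (∃ a', ∃ r : ℚ, Sb h a n a' (n + j) ∧ Nd δ h a' (n + j) ∧ Kh h * r.den < Qn h n ∧
      |a' + Lm h (n + j) / 2 - r| ≤ 1 / ((Qn h (n + j) : ℝ) * r.den)) := by
  induction j with
  | zero =>
    obtain ⟨r, h1, h2⟩ := dirichlet h a n
    rcases le_or_gt (Qn h n) (Kh h * r.den) with h3 | h3
    · left
      exact ⟨0, le_refl _, a, r, Sb_refl _ _ _, hN, good_of_dirichlet h1 h2 h3⟩
    · right
      exact ⟨a, r, Sb_refl _ _ _, hN, h3, h1⟩
  | succ j ih =>
    rcases ih with ⟨i, hi, a', r, h1, h2, h3⟩ | ⟨a', r, h1, h2, h3, h4⟩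
    · left
      exact ⟨i, by omega, a', r, h1, h2, h3⟩
    · obtain ⟨a'', h5, h6⟩ := child P h2
      obtain ⟨s, h7, h8⟩ := dirichlet h a'' (n + (j + 1))
      rcases le_or_gt (Qn h (n + (j + 1))) (Kh h * s.den) with h9 | h9
      · left
        exact ⟨j + 1, le_refl _, a'', s, Sb_trans h1 h5, h6, good_of_dirichlet h7 h8 h9⟩
      · right
        have hrs : r = s := by
          apply rat_eq_of_close
          have hL := Lm_pos h (n + j)
          have hL' := Lm_pos h (n + (j + 1))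
          have hr0 : (0 : ℝ) < r.den := by exact_mod_cast r.den_pos
          have hs0 : (0 : ℝ) < s.den := by exact_mod_cast s.den_pos
          have hQ0 : (0 : ℝ) < Qn h n := by exact_mod_cast Qn_pos h n
          have hQj : (Qn h (n + j) : ℝ) = Qn h n * (2 ^ h) ^ j := Qn_add h n j
          have hQj1 : (Qn h (n + (j + 1)) : ℝ) = Qn h (n + j) * 2 ^ h := by
            rw [← add_assoc, Qn_add h (n + j) 1, pow_one]
          set μ : ℝ := 2 ^ h with hμ
          have hμ1 : 32 ≤ μ := by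
            rw [hμ]
            calc (32 : ℝ) = 2 ^ 5 := by norm_num
              _ ≤ 2 ^ h := pow_le_pow_right₀ (by norm_num) P.hh
          have hKμ : (Kh h : ℝ) = 32 * μ ^ 2 := by
            unfold Kh
            push_cast
            rw [hμ, ← pow_mul]
            congr 2
            ring
          obtain ⟨Qj, hQjd⟩ : ∃ Qj : ℝ, Qj = (Qn h (n + j) : ℝ) := ⟨_, rfl⟩
          rw [← hQjd] at hQj hQj1 h4
          have hμj : 1 ≤ μ ^ j := one_le_pow₀ (by linarith)
          have hQjn : (Qn h n : ℝ) ≤ Qj := by rw [hQj]; nlinarith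
          have hQj0 : 0 < Qj := by linarith
          have h3R : (Kh h : ℝ) * r.den < Qn h n := by exact_mod_cast h3
          have h9R : (Kh h : ℝ) * s.den < Qj * μ := by
            have : (Kh h : ℝ) * s.den < Qn h (n + (j + 1)) := by exact_mod_cast h9
            rwa [hQj1] at this
          rw [hQj1] at h7
          have h3' : (Kh h : ℝ) * r.den < Qj := by linarith
          have hsq : Qj ^ 2 * Lm h (n + j) = 8 * (Kh h : ℝ) := by
            rw [hQjd]; exact Qn_sq h (n + j)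
          have hLsucc : Lm h (n + (j + 1)) ≤ Lm h (n + j) := by
            rw [← add_assoc, Lm_succ]
            apply div_le_self hL.le
            exact one_le_pow₀ (by norm_num)
          -- the distance
          have hd : |(r : ℝ) - s| ≤ 1 / (Qj * r.den) + Lm h (n + j) / 2 + 1 / (Qj * μ * s.den) := by
            have e1 : (r : ℝ) - s = -(a' + Lm h (n + j) / 2 - r) + ((a' + Lm h (n + j) / 2)
              - (a'' + Lm h (n + (j + 1)) / 2)) + (a'' + Lm h (n + (j + 1)) / 2 - s) := by ring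
            rw [e1]
            have h10 := h5.1
            have h11 := h5.2
            rw [← add_assoc] at hLsucc hL' ⊢
            have h12 : |(a' + Lm h (n + j) / 2) - (a'' + Lm h (n + j + 1) / 2)| ≤ Lm h (n + j) / 2 := by
              rw [abs_le]
              constructor
              · linarith
              · linarith
            calc _ ≤ |-(a' + Lm h (n + j) / 2 - r) + ((a' + Lm h (n + j) / 2)
              - (a'' + Lm h (n + j + 1) / 2))| + |(a'' + Lm h (n + j + 1) / 2 - s)| := abs_add_le _ _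
              _ ≤ |-(a' + Lm h (n + j) / 2 - r)| + |((a' + Lm h (n + j) / 2)
              - (a'' + Lm h (n + j + 1) / 2))| + |(a'' + Lm h (n + j + 1) / 2 - s)| := by
                gcongr
                exact abs_add_le _ _
              _ ≤ _ := by
                rw [abs_neg]
                have h7' : |(a'' + Lm h (n + j + 1) / 2 - s)| ≤ 1 / (Qj * μ * s.den) := h7
                linarith
          have hKpos : (0 : ℝ) < Kh h := by rw [hKμ]; positivity
          calc |(r : ℝ) - s| * (r.den * s.den)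
              ≤ (1 / (Qj * r.den) + Lm h (n + j) / 2 + 1 / (Qj * μ * s.den)) * (r.den * s.den) := by
                apply mul_le_mul_of_nonneg_right hd (by positivity)
            _ = s.den / Qj + Lm h (n + j) * (r.den * s.den) / 2 + r.den / (Qj * μ) := by
                field_simp
            _ < 1 := by
                have t1 : (s.den : ℝ) / Qj ≤ 1 / 32 := by
                  rw [div_le_iff₀ hQj0]
                  have : 32 * μ ^ 2 * s.den < Qj * μ := by rw [← hKμ]; exact h9R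
                  have h13 : μ * (32 * μ * s.den) < μ * Qj := by linarith
                  have h14 := lt_of_mul_lt_mul_left h13 (by linarith)
                  nlinarith
                have t3 : (r.den : ℝ) / (Qj * μ) ≤ 1 / 32 := by
                  rw [div_le_iff₀ (by positivity)]
                  have h15 : (r.den : ℝ) ≤ Kh h * r.den := by
                    have : (1 : ℝ) ≤ Kh h := by rw [hKμ]; nlinarith
                    nlinarith
                  nlinarith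
                have t2 : Lm h (n + j) * (r.den * s.den) / 2 ≤ 1 / 8 := by
                  have h16 : ((Kh h : ℝ) * r.den) * (Kh h * s.den) ≤ Qj * (Qj * μ) :=
                    mul_le_mul h3'.le h9R.le (by positivity) hQj0.le
                  have h17 : (Kh h : ℝ) * (Kh h * (Lm h (n + j) * (r.den * s.den))) ≤ Kh h * (8 * μ) := by
                    have : Lm h (n + j) * (((Kh h : ℝ) * r.den) * (Kh h * s.den)) ≤
                      Lm h (n + j) * (Qj * (Qj * μ)) := mul_le_mul_of_nonneg_left h16 hL.le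
                    have e5 : Lm h (n + j) * (Qj * (Qj * μ)) = Kh h * (8 * μ) := by
                      have : Lm h (n + j) * (Qj * (Qj * μ)) = (Qj ^ 2 * Lm h (n + j)) * μ := by ring
                      rw [this, hsq]; ring
                    rw [e5] at this
                    linarith
                  have h18 := le_of_mul_le_mul_left h17 hKpos
                  rw [hKμ] at h18
                  have h19 : (8 * μ) * (4 * μ * (Lm h (n + j) * (r.den * s.den))) ≤ (8 * μ) * 1 := by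
                    linarith
                  have h20 := le_of_mul_le_mul_left h19 (by positivity)
                  have h21 : 0 ≤ Lm h (n + j) * (r.den * s.den) := by positivity
                  nlinarith
                linarith
        refine ⟨a'', r, Sb_trans h1 h5, h6, h3, ?_⟩
        rw [hrs]
        exact h7

lemma excursion (P : Par h W i0 δ) {a : ℝ} {n : ℕ} (hN : Nd δ h a n) (k : ℕ) :
    ∃ a', Sb h a n a' (n + (2 * k + i0)) ∧ Nd δ h a' (n + (2 * k + i0)) ∧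
      ∀ x, a' ≤ x → x ≤ a' + Lm h (n + (2 * k + i0)) → Ua k x := by
  rcases chain P hN k with ⟨i, hi, a1, r, h1, h2, h3⟩ | ⟨a1, r, h1, h2, h3, h4⟩
  · obtain ⟨a2, h4, h5, h6⟩ := cusp_level P h2 h3 k
    obtain ⟨a3, h7, h8⟩ := pad P h5 (k - i)
    have e : n + i + (i0 + k) + (k - i) = n + (2 * k + i0) := by omega
    rw [e] at h7 h8
    refine ⟨a3, Sb_trans (Sb_trans h1 h4) h7, h8, ?_⟩
    intro x hx1 hx2
    exact h6 x (h7.1.trans hx1) (hx2.trans h7.2)
  · obtain ⟨a3, h7, h8⟩ := pad P h2 (k + i0)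
    have e : n + k + (k + i0) = n + (2 * k + i0) := by omega
    rw [e] at h7 h8
    refine ⟨a3, Sb_trans h1 h7, h8, ?_⟩
    intro x hx1 hx2
    have hx1' := h7.1.trans hx1
    have hx2' := hx2.trans h7.2
    have hL := Lm_pos h (n + k)
    have hr0 : (0 : ℝ) < r.den := by exact_mod_cast r.den_pos
    have hQ0 : (0 : ℝ) < Qn h n := by exact_mod_cast Qn_pos h n
    have hQk : (Qn h (n + k) : ℝ) = Qn h n * (2 ^ h) ^ k := Qn_add h n k
    have hQk0 : (0 : ℝ) < Qn h (n + k) := by exact_mod_cast Qn_pos h (n + k)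
    have hK : (128 : ℝ) ≤ Kh h := by
      unfold Kh
      push_cast
      have : (2 : ℝ) ^ 2 ≤ 2 ^ (2 * h) := pow_le_pow_right₀ (by norm_num) (by have := P.hh; omega)
      linarith
    have h3R : (Kh h : ℝ) * r.den < Qn h n := by exact_mod_cast h3
    refine ⟨r.num, r.den, by exact_mod_cast r.den_pos, ?_⟩
    have e1 : (((r.den : ℤ) : ℝ)) * x - r.num = r.den * (x - r) := by
      have := Rat.mul_den_eq_num r
      have h10 : (r : ℝ) * r.den = r.num := by exact_mod_cast this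
      push_cast
      linarith
    rw [e1, abs_mul]
    push_cast
    rw [abs_of_pos hr0]
    have h11 : |x - r| ≤ Lm h (n + k) / 2 + 1 / ((Qn h (n + k) : ℝ) * r.den) := by
      have e2 : x - r = (x - (a1 + Lm h (n + k) / 2)) + (a1 + Lm h (n + k) / 2 - r) := by ring
      rw [e2]
      refine (abs_add_le _ _).trans ?_
      have h12 : |x - (a1 + Lm h (n + k) / 2)| ≤ Lm h (n + k) / 2 := by
        rw [abs_le]; constructor <;> linarith
      linarith
    have h13 : (r.den : ℝ) * (r.den * |x - r|) ≤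
        (r.den : ℝ) * (r.den * (Lm h (n + k) / 2 + 1 / ((Qn h (n + k) : ℝ) * r.den))) := by
      gcongr
    refine h13.trans ?_
    have e3 : (r.den : ℝ) * (r.den * (Lm h (n + k) / 2 + 1 / ((Qn h (n + k) : ℝ) * r.den)))
        = (r.den : ℝ) ^ 2 * Lm h (n + k) / 2 + r.den / Qn h (n + k) := by
      field_simp
    rw [e3]
    have hhalf : (0 : ℝ) < (1 / 2 : ℝ) ^ k := by positivity
    have t2 : (r.den : ℝ) / Qn h (n + k) ≤ (1 / 2 : ℝ) ^ k / 2 := by
      rw [hQk, div_le_iff₀ (by positivity)]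
      have h14 : (r.den : ℝ) ≤ Qn h n / 2 := by nlinarith
      have h15 : (1 : ℝ) ≤ (1 / 2 : ℝ) ^ k * (2 ^ h) ^ k := by
        rw [← mul_pow]
        apply one_le_pow₀
        have : (2 : ℝ) ^ 1 ≤ 2 ^ h := pow_le_pow_right₀ (by norm_num) (by have := P.hh; omega)
        linarith
      nlinarith
    have t1 : (r.den : ℝ) ^ 2 * Lm h (n + k) / 2 ≤ (1 / 2 : ℝ) ^ k / 2 := by
      have h16 := Lm_le_half P.hh k
      rw [Lm_add]
      have h17 := Lm_pos h k
      have h18 : ((Kh h : ℝ) * r.den) ^ 2 ≤ (Qn h n : ℝ) ^ 2 := pow_le_pow_left₀ (by positivity) h3R.le 2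
      have h19 : ((Kh h : ℝ) * r.den) ^ 2 * Lm h n ≤ 8 * Kh h := by
        have h20 : ((Kh h : ℝ) * r.den) ^ 2 * Lm h n ≤ (Qn h n : ℝ) ^ 2 * Lm h n :=
          mul_le_mul_of_nonneg_right h18 (Lm_pos h n).le
        rw [Qn_sq] at h20
        exact h20
      have h21 : (Kh h : ℝ) * (Kh h * ((r.den : ℝ) ^ 2 * Lm h n)) ≤ Kh h * 8 := by linarith
      have h22 := le_of_mul_le_mul_left h21 (by linarith)
      have h23 : (r.den : ℝ) ^ 2 * Lm h n ≤ 1 := by
        have h24 : 0 ≤ (r.den : ℝ) ^ 2 * Lm h n := by have := Lm_pos h n; positivity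
        nlinarith
      have h25 : (r.den : ℝ) ^ 2 * (Lm h n * Lm h k) ≤ (1 / 2 : ℝ) ^ k := by
        calc (r.den : ℝ) ^ 2 * (Lm h n * Lm h k) = ((r.den : ℝ) ^ 2 * Lm h n) * Lm h k := by ring
          _ ≤ 1 * (1 / 2 : ℝ) ^ k := mul_le_mul h23 h16 h17.le (by norm_num)
          _ = _ := one_mul _
      linarith
    linarith

end

end Pool.Agent.R341.DI
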