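import Mathlib

namespace Pool.Agent.R341.DI

/-- cost of the excursion performed at stage `j` -/
def cost (i0 j : ℕ) : ℕ := if 2 ^ (Nat.log 2 j) = j then 2 * Nat.log 2 j + i0 else 0

/-- depth at stage `j` -/
def Dd (i0 : ℕ) : ℕ → ℕ
  | 0 => 0
  | (j + 1) => Dd i0 j + cost i0 j + 1

lemma Dd_ge (i0 j : ℕ) : j ≤ Dd i0 j := by
  induction j with
  | zero => exact le_refl _
  | succ j ih => simp only [Dd]; omega

lemma Dd_le (i0 j : ℕ) :
    Dd i0 j ≤ j + Nat.clog 2 j * (2 * Nat.clog 2 j + i0) := by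
  induction j with
  | zero => simp [Dd]
  | succ j ih =>
    simp only [Dd]
    by_cases h : 2 ^ (Nat.log 2 j) = j
    · have hcost : cost i0 j = 2 * Nat.log 2 j + i0 := by unfold cost; rw [if_pos h]
      obtain ⟨k, hk⟩ : ∃ k, k = Nat.log 2 j := ⟨_, rfl⟩
      rw [hcost, ← hk]
      rw [← hk] at h
      have h1 : Nat.clog 2 j = k := by rw [← h]; exact Nat.clog_pow 2 k (by norm_num)
      have h2 : k + 1 ≤ Nat.clog 2 (j + 1) := by
        have : k < Nat.clog 2 (j + 1) := by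
          rw [Nat.lt_clog_iff_pow_lt (by norm_num), h]; omega
        omega
      rw [h1] at ih
      have h3 : (k + 1) * (2 * k + i0) ≤ Nat.clog 2 (j + 1) * (2 * Nat.clog 2 (j + 1) + i0) :=
        Nat.mul_le_mul h2 (by omega)
      have h4 : (k + 1) * (2 * k + i0) = k * (2 * k + i0) + (2 * k + i0) := by ring
      omega
    · have hcost : cost i0 j = 0 := by unfold cost; rw [if_neg h]
      have h2 : Nat.clog 2 j ≤ Nat.clog 2 (j + 1) := Nat.clog_mono_right 2 (by omega)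
      have h3 : Nat.clog 2 j * (2 * Nat.clog 2 j + i0) ≤
        Nat.clog 2 (j + 1) * (2 * Nat.clog 2 (j + 1) + i0) := Nat.mul_le_mul h2 (by omega)
      omega

lemma cube_le (t : ℕ) (ht : 10 ≤ t) : t ^ 3 ≤ 2 ^ t := by
  induction t, ht using Nat.le_induction with
  | base => norm_num
  | succ t ht ih =>
    rw [pow_succ 2 t]
    nlinarith [Nat.mul_le_mul ht ht, Nat.mul_le_mul (Nat.mul_le_mul ht ht) ht]

lemma poly_exp (s i0 : ℕ) : ∃ c : ℕ, ∀ t : ℕ, 1 ≤ t → s * (t * (2 * t + i0)) ≤ 2 ^ (t - 1) + c := by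
  obtain ⟨P, hP⟩ : ∃ P, P = s * (2 + i0) := ⟨_, rfl⟩
  obtain ⟨T, hT⟩ : ∃ T, T = 2 * P + 10 := ⟨_, rfl⟩
  refine ⟨P * T ^ 2, ?_⟩
  intro t ht
  have h1 : s * (t * (2 * t + i0)) ≤ P * t ^ 2 := by
    rw [hP]
    have : t * (2 * t + i0) ≤ (2 + i0) * t ^ 2 := by
      have h0 : i0 * t ≤ i0 * t ^ 2 := Nat.mul_le_mul_left _ (by nlinarith)
      calc t * (2 * t + i0) = 2 * t ^ 2 + i0 * t := by ring
        _ ≤ 2 * t ^ 2 + i0 * t ^ 2 := by omega
        _ = _ := by ring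
    calc s * (t * (2 * t + i0)) ≤ s * ((2 + i0) * t ^ 2) := Nat.mul_le_mul_left _ this
      _ = _ := by ring
  rcases le_or_gt t T with h | h
  · have : P * t ^ 2 ≤ P * T ^ 2 := Nat.mul_le_mul_left _ (Nat.pow_le_pow_left h 2)
    exact (h1.trans this).trans (Nat.le_add_left _ _)
  · have h2 := cube_le t (by omega)
    have h3 : 2 * (P * t ^ 2) ≤ t ^ 3 := by
      have : 2 * P ≤ t := by omega
      calc 2 * (P * t ^ 2) = (2 * P) * t ^ 2 := by ring
        _ ≤ t * t ^ 2 := Nat.mul_le_mul_right _ this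
        _ = t ^ 3 := by ring
    have h4 : 2 ^ t = 2 * 2 ^ (t - 1) := by
      rw [← pow_succ']; congr 1; omega
    omega

lemma Dd_sub (s i0 : ℕ) : ∃ c : ℕ, ∀ n, s * Dd i0 (n + 1) ≤ s * (n + 1) + n + c := by
  obtain ⟨c, hc⟩ := poly_exp s i0
  refine ⟨c + 1, ?_⟩
  intro n
  have h1 := Nat.mul_le_mul_left s (Dd_le i0 (n + 1))
  rw [mul_add] at h1
  have h2 : s * (Nat.clog 2 (n + 1) * (2 * Nat.clog 2 (n + 1) + i0)) ≤ n + (c + 1) := by
    rcases Nat.eq_zero_or_pos n with rfl | hn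
    · simp
    · have h3 : 1 ≤ Nat.clog 2 (n + 1) := by
        have : 0 < Nat.clog 2 (n + 1) := by
          rw [Nat.lt_clog_iff_pow_lt (by norm_num)]; omega
        omega
      have h4 := hc _ h3
      have h5 : 2 ^ (Nat.clog 2 (n + 1)).pred < n + 1 :=
        Nat.pow_pred_clog_lt_self (by norm_num) (by omega)
      rw [Nat.pred_eq_sub_one] at h5
      omega
  omega

end Pool.Agent.R341.DI
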