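import Pool.Agent.R341.DiF
import Pool.Agent.R341.DiG
import Pool.Agent.R341.DiD

open Set MeasureTheory
open scoped NNReal ENNReal

namespace Pool.Agent.R341.DI

noncomputable section

lemma Nd_zero {h W i0 : ℕ} {δ : ℝ} (_P : Par h W i0 δ) : Nd δ h 0 0 := by
  intro A B hAB hA x _ _
  exfalso
  have hA1 : (1 : ℝ) ≤ A := by
    have : 1 ≤ A := hAB.1
    exact_mod_cast this
  have hH : 64 ≤ Hh h := by
    unfold Hh
    have : (0 : ℝ) ≤ ((2 * h : ℕ) : ℝ) := by positivity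
    linarith
  have hL : Lm h 0 = 1 := by unfold Lm; simp
  rw [hL] at hA
  nlinarith

lemma Lm_anti {h : ℕ} {m n : ℕ} (hmn : m ≤ n) : Lm h n ≤ Lm h m := by
  unfold Lm
  apply one_div_le_one_div_of_le (by positivity)
  exact pow_le_pow_right₀ (one_le_pow₀ (by norm_num)) hmn

/-- The coding map of the Cantor set. -/
lemma exists_tree {h W i0 : ℕ} {δ : ℝ} (P : Par h W i0 δ) :
    ∃ g : (ℕ → Fin (2 ^ (2 * h - 2))) → ℝ, (∀ ω, g ω ∈ DI2 \ BA) ∧
      ∀ (ω ω' : ℕ → Fin (2 ^ (2 * h - 2))) (n : ℕ), (∀ i < n, ω i = ω' i) → ω n ≠ ω' n →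
        Lm h (Dd i0 (n + 1)) ≤ |g ω - g ω'| := by
  classical
  have hch : ∀ (a : ℝ) (n : ℕ), ∃ c : Fin (2 ^ (2 * h - 2)) → ℝ, Nd δ h a n →
      (∀ i, Sb h a n (c i) (n + 1)) ∧ (∀ i, Nd δ h (c i) (n + 1)) ∧
      (∀ i j, i ≠ j → 2 * Lm h (n + 1) ≤ |c i - c j|) := by
    intro a n
    by_cases hN : Nd δ h a n
    · obtain ⟨c, hc⟩ := children P hN
      exact ⟨c, fun _ => hc⟩
    · exact ⟨fun _ => 0, fun h => absurd h hN⟩
  have hex : ∀ (a : ℝ) (n k : ℕ), ∃ a' : ℝ, Nd δ h a n →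
      Sb h a n a' (n + (2 * k + i0)) ∧ Nd δ h a' (n + (2 * k + i0)) ∧
      ∀ x, a' ≤ x → x ≤ a' + Lm h (n + (2 * k + i0)) → Ua k x := by
    intro a n k
    by_cases hN : Nd δ h a n
    · obtain ⟨c, hc⟩ := excursion P hN k
      exact ⟨c, fun _ => hc⟩
    · exact ⟨0, fun h => absurd h hN⟩
  choose ch hch using hch
  choose ex hex using hex
  -- the intermediate node
  let mid : ℝ → ℕ → ℝ := fun a j => if 2 ^ (Nat.log 2 j) = j then ex a (Dd i0 j) (Nat.log 2 j) else a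
  have hmid : ∀ a j, Nd δ h a (Dd i0 j) → Sb h a (Dd i0 j) (mid a j) (Dd i0 j + cost i0 j) ∧
      Nd δ h (mid a j) (Dd i0 j + cost i0 j) ∧ (2 ^ (Nat.log 2 j) = j →
        ∀ x, mid a j ≤ x → x ≤ mid a j + Lm h (Dd i0 j + cost i0 j) → Ua (Nat.log 2 j) x) := by
    intro a j hN
    by_cases hj : 2 ^ (Nat.log 2 j) = j
    · have hc : cost i0 j = 2 * Nat.log 2 j + i0 := by unfold cost; rw [if_pos hj]
      have hm : mid a j = ex a (Dd i0 j) (Nat.log 2 j) := by simp only [mid]; rw [if_pos hj]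
      rw [hc, hm]
      obtain ⟨h1, h2, h3⟩ := hex a (Dd i0 j) (Nat.log 2 j) hN
      exact ⟨h1, h2, fun _ => h3⟩
    · have hc : cost i0 j = 0 := by unfold cost; rw [if_neg hj]
      have hm : mid a j = a := by simp only [mid]; rw [if_neg hj]
      rw [hc, hm]
      exact ⟨Sb_refl _ _ _, hN, fun h => absurd h hj⟩
  let node : (ℕ → Fin (2 ^ (2 * h - 2))) → ℕ → ℝ := fun ω j =>
    Nat.rec 0 (fun j a => ch (mid a j) (Dd i0 j + cost i0 j) (ω j)) j
  have node0 : ∀ ω, node ω 0 = 0 := fun ω => rfl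
  have nodeS : ∀ ω j, node ω (j + 1) = ch (mid (node ω j) j) (Dd i0 j + cost i0 j) (ω j) :=
    fun ω j => rfl
  have hNd : ∀ ω j, Nd δ h (node ω j) (Dd i0 j) := by
    intro ω j
    induction j with
    | zero => rw [node0]; exact Nd_zero P
    | succ j ih =>
      rw [nodeS]
      exact (hch _ _ (hmid _ _ ih).2.1).2.1 _
  have hSmid : ∀ ω j, Sb h (mid (node ω j) j) (Dd i0 j + cost i0 j) (node ω (j + 1)) (Dd i0 (j + 1)) := by
    intro ω j
    rw [nodeS]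
    exact (hch _ _ (hmid _ _ (hNd ω j)).2.1).1 _
  have hSb : ∀ ω j, Sb h (node ω j) (Dd i0 j) (node ω (j + 1)) (Dd i0 (j + 1)) := by
    intro ω j
    exact Sb_trans (hmid _ _ (hNd ω j)).1 (hSmid ω j)
  have hSb2 : ∀ ω i j, i ≤ j → Sb h (node ω i) (Dd i0 i) (node ω j) (Dd i0 j) := by
    intro ω i j hij
    induction j, hij using Nat.le_induction with
    | base => exact Sb_refl _ _ _
    | succ j hj ih => exact Sb_trans ih (hSb ω j)
  have hup : ∀ ω i j, node ω i ≤ node ω j + Lm h (Dd i0 j) := by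
    intro ω i j
    rcases le_total i j with hij | hij
    · have h1 := (hSb2 ω i j hij).1
      have h2 := Lm_pos h (Dd i0 j)
      linarith
    · have h1 := (hSb2 ω j i hij).2
      have h2 := Lm_pos h (Dd i0 i)
      linarith
  let g : (ℕ → Fin (2 ^ (2 * h - 2))) → ℝ := fun ω => ⨆ j, node ω j
  have hbdd : ∀ ω, BddAbove (Set.range (node ω)) := by
    intro ω
    refine ⟨node ω 0 + Lm h (Dd i0 0), ?_⟩
    rintro _ ⟨i, rfl⟩
    exact hup ω i 0
  have hg1 : ∀ ω j, node ω j ≤ g ω := fun ω j => le_ciSup (hbdd ω) j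
  have hg2 : ∀ ω j, g ω ≤ node ω j + Lm h (Dd i0 j) := fun ω j => ciSup_le fun i => hup ω i j
  refine ⟨g, ?_, ?_⟩
  · intro ω
    constructor
    · apply mem_DI2 P.δ0
      intro A B hAB
      have hA0 : (0 : ℝ) < A := by exact_mod_cast hAB.1
      have hH : 0 < Hh h := by unfold Hh; positivity
      obtain ⟨n, hn⟩ := exists_pow_lt_of_lt_one (show (0 : ℝ) < 1 / (A * Hh h) by positivity)
        (by norm_num : (1 / 2 : ℝ) < 1)
      refine hNd ω n A B hAB ?_ (g ω) (hg1 ω n) (hg2 ω n)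
      have h1 : Lm h (Dd i0 n) ≤ (1 / 2 : ℝ) ^ n := by
        refine (Lm_le_half P.hh _).trans ?_
        apply pow_le_pow_of_le_one (by norm_num) (by norm_num) (Dd_ge i0 n)
      have h2 : (A : ℝ) * Hh h * (1 / 2 : ℝ) ^ n ≤ 1 := by
        rw [lt_div_iff₀ (by positivity)] at hn
        linarith
      have h3 : (A : ℝ) * Hh h * Lm h (Dd i0 n) ≤ (A : ℝ) * Hh h * (1 / 2 : ℝ) ^ n :=
        mul_le_mul_of_nonneg_left h1 (by positivity)
      linarith
    · rintro ⟨ε, hε, hb⟩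
      obtain ⟨k, hk⟩ := exists_pow_lt_of_lt_one hε (by norm_num : (1 / 2 : ℝ) < 1)
      have hlog : Nat.log 2 (2 ^ k) = k := Nat.log_pow (by norm_num) k
      have h1 := (hmid _ _ (hNd ω (2 ^ k))).2.2 (by rw [hlog]) (g ω)
        ((hSmid ω (2 ^ k)).1.trans (hg1 ω (2 ^ k + 1))) ((hg2 ω (2 ^ k + 1)).trans (hSmid ω (2 ^ k)).2)
      rw [hlog] at h1
      obtain ⟨p, q, hq, hpq⟩ := h1
      have h2 := hb p q hq.ne'
      have hqR : (0 : ℝ) < q := by exact_mod_cast hq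
      rw [abs_of_pos hqR] at h2
      linarith
  · intro ω ω' n hagree hne
    have hnode : ∀ j ≤ n, node ω j = node ω' j := by
      intro j
      induction j with
      | zero => intro _; rw [node0, node0]
      | succ j ih =>
        intro hj
        rw [nodeS, nodeS, ih (by omega), hagree j (by omega)]
    have hn := hnode n le_rfl
    have h1 := nodeS ω n
    have h2 := nodeS ω' n
    rw [← hn] at h2
    have h3 := (hch _ _ (hmid _ _ (hNd ω n)).2.1).2.2 _ _ hne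
    rw [← h1, ← h2] at h3
    have h4 : Dd i0 n + cost i0 n + 1 = Dd i0 (n + 1) := rfl
    rw [h4] at h3
    have h5 := hg1 ω (n + 1)
    have h6 := hg2 ω (n + 1)
    have h7 := hg1 ω' (n + 1)
    have h8 := hg2 ω' (n + 1)
    have hL := Lm_pos h (Dd i0 (n + 1))
    rcases le_total (node ω (n + 1)) (node ω' (n + 1)) with h9 | h9
    · rw [abs_sub_comm, abs_of_nonneg (by linarith)] at h3
      rw [abs_sub_comm]
      refine le_trans ?_ (le_abs_self _)
      linarith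
    · rw [abs_of_nonneg (by linarith)] at h3
      refine le_trans ?_ (le_abs_self _)
      linarith

lemma dim_ge (k : ℕ) (hk : 3 ≤ k) :
    (((k : ℝ≥0) / ((k : ℝ≥0) + 2) : ℝ≥0) : ℝ≥0∞) ≤ dimH (DI2 \ BA) := by
  obtain ⟨h, hhk⟩ : ∃ h, h = k + 2 := ⟨_, rfl⟩
  obtain ⟨W, i0, δ, P⟩ := exists_Par h (by omega)
  obtain ⟨g, hg1, hg2⟩ := exists_tree P
  have hsub : Set.range g ⊆ DI2 \ BA := by
    rintro _ ⟨ω, rfl⟩
    exact hg1 ω
  refine le_trans ?_ (dimH_mono hsub)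
  obtain ⟨c, hc⟩ := Dd_sub k i0
  have hkR : (0 : ℝ) < k := by exact_mod_cast (by omega : 0 < k)
  obtain ⟨r, hr⟩ : ∃ r : ℝ≥0, r = (k : ℝ≥0) / ((k : ℝ≥0) + 2) := ⟨_, rfl⟩
  have hrR : (r : ℝ) = (k : ℝ) / (k + 2) := by rw [hr]; push_cast; ring
  have hr0 : 0 < r := by
    rw [← NNReal.coe_pos, hrR]; positivity
  rw [← hr]
  have hN : 1 < 2 ^ (2 * h - 2) := Nat.one_lt_pow (by omega) (by norm_num)
  apply dim_crit hN g (2 ^ (2 * k + 2 * c)) _ hr0
  intro ω ω' n hagree hne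
  have h1 := hg2 ω ω' n hagree hne
  have hL := Lm_pos h (Dd i0 (n + 1))
  set D := Dd i0 (n + 1) with hD
  have h2 : (Lm h D) ^ (r : ℝ) ≤ |g ω - g ω'| ^ (r : ℝ) :=
    Real.rpow_le_rpow hL.le h1 (by positivity)
  have h3 : (Lm h D) ^ (r : ℝ) = ((2 : ℝ) ^ (2 * k * D))⁻¹ := by
    unfold Lm
    rw [one_div, ← pow_mul, Real.inv_rpow (by positivity), ← Real.rpow_natCast,
      ← Real.rpow_natCast, ← Real.rpow_mul (by norm_num), hrR, hhk]
    congr 2
    push_cast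
    field_simp
  have h4 : (((2 ^ (2 * h - 2) : ℕ) : ℝ) ^ n)⁻¹ = ((2 : ℝ) ^ ((2 * k + 2) * n))⁻¹ := by
    push_cast
    rw [← pow_mul]
    congr 3
    omega
  rw [h4]
  have h5 : 2 * k * D ≤ (2 * k + 2 * c) + (2 * k + 2) * n := by
    have h6 := hc n
    nlinarith
  have h8 : ((2 : ℝ) ^ ((2 * k + 2) * n))⁻¹ ≤
      (2 : ℝ) ^ (2 * k + 2 * c) * ((2 : ℝ) ^ (2 * k * D))⁻¹ := by
    rw [← div_eq_mul_inv, le_div_iff₀ (by positivity), inv_mul_le_iff₀ (by positivity), ← pow_add]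
    apply pow_le_pow_right₀ (by norm_num)
    omega
  refine h8.trans ?_
  push_cast
  apply mul_le_mul_of_nonneg_left _ (by positivity)
  rw [← h3]
  exact h2

theorem full_dim : dimH (DI2 \ BA) = 1 := by
  apply le_antisymm
  · calc dimH (DI2 \ BA) ≤ dimH (Set.univ : Set ℝ) := dimH_mono (Set.subset_univ _)
      _ = 1 := Real.dimH_univ
  · apply ENNReal.le_of_forall_nnreal_lt
    intro r hr
    have hr1 : r < 1 := by exact_mod_cast hr
    have hr1' : (r : ℝ) < 1 := by exact_mod_cast hr1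
    obtain ⟨m, hm⟩ := exists_nat_gt (2 / (1 - (r : ℝ)))
    obtain ⟨k, hk⟩ : ∃ k, k = m + 5 := ⟨_, rfl⟩
    refine le_trans ?_ (dim_ge k (by omega))
    have h1 : r ≤ (k : ℝ≥0) / ((k : ℝ≥0) + 2) := by
      rw [← NNReal.coe_le_coe]
      push_cast
      have hkR : (0 : ℝ) < k := by exact_mod_cast (by omega : 0 < k)
      rw [le_div_iff₀ (by positivity)]
      rw [div_lt_iff₀ (by linarith)] at hm
      have : (m : ℝ) ≤ k := by exact_mod_cast (by omega : m ≤ k)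
      nlinarith
    exact_mod_cast h1

end

end Pool.Agent.R341.DI
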