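import Mathlib

set_option autoImplicit false

open Polynomial

namespace Pool.Agent.R341.Greedy

/-- The remainders `r₀ = 1`, `r_{n+1} = β rₙ - ⌊β rₙ⌋` of the greedy expansion of `1`. -/
noncomputable def r (β : ℝ) : ℕ → ℝ
  | 0 => 1
  | n + 1 => β * r β n - (⌊β * r β n⌋ : ℤ)

/-- The digits `cₙ = ⌊β r_{n-1}⌋` (`n ≥ 1`) of `d_β(1)`. -/
noncomputable def c (β : ℝ) (n : ℕ) : ℤ := ⌊β * r β (n - 1)⌋

/-- `m ≥ 0` and `p ≥ 1` with `c_{n+m} = c_{n+m+p}` for all `n ≥ 1`. -/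
def EvPer (β : ℝ) (m p : ℕ) : Prop :=
  1 ≤ p ∧ ∀ n, 1 ≤ n → c β (n + m) = c β (n + m + p)

/-- `m` and `p` are the least preperiod and period of `d_β(1)`. -/
def Shape (β : ℝ) (m p : ℕ) : Prop :=
  EvPer β m p ∧ ∀ m' p', EvPer β m' p' → m ≤ m' ∧ p ≤ p'

/-- `P_k(x) = x^k - c_1 x^{k-1} - ... - c_k`. -/
noncomputable def Pk (β : ℝ) (k : ℕ) : ℤ[X] :=
  X ^ k - ∑ j ∈ Finset.Icc 1 k, C (c β j) * X ^ (k - j)

lemma step {β : ℝ} {n : ℕ} {v w : ℝ} {d : ℤ} (h : r β n = v) (e : β * v = w + d)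
    (h0 : 0 ≤ w) (h1 : w < 1) : c β (n + 1) = d ∧ r β (n + 1) = w := by
  have hf : ⌊β * r β n⌋ = d := by
    rw [Int.floor_eq_iff, h, e]
    constructor <;> linarith
  refine ⟨hf, ?_⟩
  rw [r, hf, h, e]
  ring

lemma r_add {β : ℝ} {m p : ℕ} (h : r β (m + p) = r β m) (n : ℕ) :
    r β (m + n + p) = r β (m + n) := by
  induction n with
  | zero => simpa using h
  | succ n ih =>
    have h1 : m + (n + 1) + p = (m + n + p) + 1 := by ring
    rw [h1, r, ih, ← add_assoc, r]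

lemma c_add {β : ℝ} {m p : ℕ} (h : r β (m + p) = r β m) (n : ℕ) (hn : 1 ≤ n) :
    c β (n + m) = c β (n + m + p) := by
  obtain ⟨k, rfl⟩ : ∃ k, n = k + 1 := ⟨n - 1, by omega⟩
  have h1 : k + 1 + m - 1 = m + k := by omega
  have h2 : k + 1 + m + p - 1 = m + k + p := by omega
  rw [c, c, h1, h2, r_add h]

lemma c_add_mul {β : ℝ} {m p : ℕ} (h : ∀ n, 1 ≤ n → c β (n + m) = c β (n + m + p)) (k n : ℕ)
    (hn : 1 ≤ n) : c β (n + m + k * p) = c β (n + m) := by
  induction k with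
  | zero => simp
  | succ k ih =>
    rw [← ih]
    have := h (n + k * p) (by omega)
    have e1 : n + k * p + m = n + m + k * p := by ring
    have e2 : n + m + (k + 1) * p = n + m + k * p + p := by ring
    rw [e2, ← e1]
    exact this.symm

lemma evPer_swap {β : ℝ} {m p m' p' : ℕ} (h : EvPer β m p) (h' : EvPer β m' p') :
    EvPer β m p' := by
  refine ⟨h'.1, fun n hn => ?_⟩
  have hp := h.1
  have hmp : m' ≤ m' * p := Nat.le_mul_of_pos_right _ hp
  have a1 := c_add_mul h.2 m' n hn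
  have a2 := c_add_mul h.2 m' (n + p') (by omega)
  have a3 := h'.2 (n + m + m' * p - m') (by omega)
  rw [show n + m + m' * p - m' + m' = n + m + m' * p by omega] at a3
  rw [show n + m + p' = n + p' + m by ring, ← a1, ← a2, a3]
  congr 1
  ring

end Pool.Agent.R341.Greedy
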