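import Pool.Agent.R341.Salem6
import Pool.Agent.R341.Greedy

set_option autoImplicit false

namespace Pool.Agent.R341.FamilyE4

lemma b_A0 {x u e : ℝ} (hx : 6 ≤ x) (hu : u = 1 / (x - 1))
    (he : e = (x ^ 3 - x ^ 2 + 2 * x - 1) / (x * (x - 1) ^ 2 * (x ^ 2 + 1))) :
    0 ≤ x * e ∧ x * e < 1 := by
  obtain ⟨y, hy, rfl⟩ : ∃ y : ℝ, 0 ≤ y ∧ x = y + 6 := ⟨x - 6, by linarith, by ring⟩
  have hD : 0 < y ^ 4 + 22 * y ^ 3 + 182 * y ^ 2 + 670 * y + 925 := by positivity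
  have h1 : y + 6 - 1 ≠ 0 := by linarith
  have h2 : y + 6 ≠ 0 := by linarith
  have h3 : (y + 6) ^ 2 + 1 ≠ 0 := by positivity
  have e1 : (y + 6) * e = (y ^ 3 + 17 * y ^ 2 + 98 * y + 191) /
      (y ^ 4 + 22 * y ^ 3 + 182 * y ^ 2 + 670 * y + 925) := by
    rw [eq_div_iff hD.ne']
    simp only [hu, he]
    field_simp
    ring
  rw [e1]
  constructor
  · positivity
  · rw [div_lt_one hD]
    have : 0 < y ^ 4 + 21 * y ^ 3 + 165 * y ^ 2 + 572 * y + 734 := by positivity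
    linarith

lemma b_A1 {x u e : ℝ} (hx : 6 ≤ x) (hu : u = 1 / (x - 1))
    (he : e = (x ^ 3 - x ^ 2 + 2 * x - 1) / (x * (x - 1) ^ 2 * (x ^ 2 + 1))) :
    0 ≤ x ^ 2 * e - 1 ∧ x ^ 2 * e - 1 < 1 := by
  obtain ⟨y, hy, rfl⟩ : ∃ y : ℝ, 0 ≤ y ∧ x = y + 6 := ⟨x - 6, by linarith, by ring⟩
  have hD : 0 < y ^ 4 + 22 * y ^ 3 + 182 * y ^ 2 + 670 * y + 925 := by positivity
  have h1 : y + 6 - 1 ≠ 0 := by linarith
  have h2 : y + 6 ≠ 0 := by linarith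
  have h3 : (y + 6) ^ 2 + 1 ≠ 0 := by positivity
  have e1 : (y + 6) ^ 2 * e - 1 = (y ^ 3 + 18 * y ^ 2 + 109 * y + 221) /
      (y ^ 4 + 22 * y ^ 3 + 182 * y ^ 2 + 670 * y + 925) := by
    rw [eq_div_iff hD.ne']
    simp only [hu, he]
    field_simp
    ring
  rw [e1]
  constructor
  · positivity
  · rw [div_lt_one hD]
    have : 0 < y ^ 4 + 21 * y ^ 3 + 164 * y ^ 2 + 561 * y + 704 := by positivity
    linarith

lemma b_A2 {x u e : ℝ} (hx : 6 ≤ x) (hu : u = 1 / (x - 1))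
    (he : e = (x ^ 3 - x ^ 2 + 2 * x - 1) / (x * (x - 1) ^ 2 * (x ^ 2 + 1))) :
    0 ≤ x ^ 3 * e - x - 1 ∧ x ^ 3 * e - x - 1 < 1 := by
  obtain ⟨y, hy, rfl⟩ : ∃ y : ℝ, 0 ≤ y ∧ x = y + 6 := ⟨x - 6, by linarith, by ring⟩
  have hD : 0 < y ^ 4 + 22 * y ^ 3 + 182 * y ^ 2 + 670 * y + 925 := by positivity
  have h1 : y + 6 - 1 ≠ 0 := by linarith
  have h2 : y + 6 ≠ 0 := by linarith
  have h3 : (y + 6) ^ 2 + 1 ≠ 0 := by positivity
  have e1 : (y + 6) ^ 3 * e - (y + 6) - 1 = (2 * y ^ 3 + 35 * y ^ 2 + 205 * y + 401) /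
      (y ^ 4 + 22 * y ^ 3 + 182 * y ^ 2 + 670 * y + 925) := by
    rw [eq_div_iff hD.ne']
    simp only [hu, he]
    field_simp
    ring
  rw [e1]
  constructor
  · positivity
  · rw [div_lt_one hD]
    have : 0 < y ^ 4 + 20 * y ^ 3 + 147 * y ^ 2 + 465 * y + 524 := by positivity
    linarith

lemma b_A3 {x u e : ℝ} (hx : 6 ≤ x) (hu : u = 1 / (x - 1))
    (he : e = (x ^ 3 - x ^ 2 + 2 * x - 1) / (x * (x - 1) ^ 2 * (x ^ 2 + 1))) :
    0 ≤ x ^ 4 * e - x ^ 2 - x - 2 ∧ x ^ 4 * e - x ^ 2 - x - 2 < 1 := by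
  obtain ⟨y, hy, rfl⟩ : ∃ y : ℝ, 0 ≤ y ∧ x = y + 6 := ⟨x - 6, by linarith, by ring⟩
  have hD : 0 < y ^ 4 + 22 * y ^ 3 + 182 * y ^ 2 + 670 * y + 925 := by positivity
  have h1 : y + 6 - 1 ≠ 0 := by linarith
  have h2 : y + 6 ≠ 0 := by linarith
  have h3 : (y + 6) ^ 2 + 1 ≠ 0 := by positivity
  have e1 : (y + 6) ^ 4 * e - (y + 6) ^ 2 - (y + 6) - 2 = (3 * y ^ 3 + 51 * y ^ 2 + 291 * y + 556) /
      (y ^ 4 + 22 * y ^ 3 + 182 * y ^ 2 + 670 * y + 925) := by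
    rw [eq_div_iff hD.ne']
    simp only [hu, he]
    field_simp
    ring
  rw [e1]
  constructor
  · positivity
  · rw [div_lt_one hD]
    have : 0 < y ^ 4 + 19 * y ^ 3 + 131 * y ^ 2 + 379 * y + 369 := by positivity
    linarith

lemma b_B0 {x u e : ℝ} (hx : 6 ≤ x) (hu : u = 1 / (x - 1))
    (he : e = (x ^ 3 - x ^ 2 + 2 * x - 1) / (x * (x - 1) ^ 2 * (x ^ 2 + 1))) :
    0 ≤ x * e + (x - 2 - e) * u ∧ x * e + (x - 2 - e) * u < 1 := by
  obtain ⟨y, hy, rfl⟩ : ∃ y : ℝ, 0 ≤ y ∧ x = y + 6 := ⟨x - 6, by linarith, by ring⟩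
  have hD : 0 < y ^ 6 + 33 * y ^ 5 + 454 * y ^ 4 + 3332 * y ^ 3 + 13755 * y ^ 2 + 30275 * y + 27750 := by positivity
  have h1 : y + 6 - 1 ≠ 0 := by linarith
  have h2 : y + 6 ≠ 0 := by linarith
  have h3 : (y + 6) ^ 2 + 1 ≠ 0 := by positivity
  have e1 : (y + 6) * e + ((y + 6) - 2 - e) * u = (y ^ 6 + 33 * y ^ 5 + 454 * y ^ 4 + 3332 * y ^ 3 + 13755 * y ^ 2 + 30273 * y + 27739) /
      (y ^ 6 + 33 * y ^ 5 + 454 * y ^ 4 + 3332 * y ^ 3 + 13755 * y ^ 2 + 30275 * y + 27750) := by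
    rw [eq_div_iff hD.ne']
    simp only [hu, he]
    field_simp
    ring
  rw [e1]
  constructor
  · positivity
  · rw [div_lt_one hD]
    have : 0 < 2 * y + 11 := by positivity
    linarith

lemma b_A1m {x u e : ℝ} (hx : 6 ≤ x) (hu : u = 1 / (x - 1))
    (he : e = (x ^ 3 - x ^ 2 + 2 * x - 1) / (x * (x - 1) ^ 2 * (x ^ 2 + 1))) :
    0 ≤ x ^ 2 * e - 1 + (x - 4 - e) * u ∧ x ^ 2 * e - 1 + (x - 4 - e) * u < 1 := by
  obtain ⟨y, hy, rfl⟩ : ∃ y : ℝ, 0 ≤ y ∧ x = y + 6 := ⟨x - 6, by linarith, by ring⟩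
  have hD : 0 < y ^ 6 + 33 * y ^ 5 + 454 * y ^ 4 + 3332 * y ^ 3 + 13755 * y ^ 2 + 30275 * y + 27750 := by positivity
  have h1 : y + 6 - 1 ≠ 0 := by linarith
  have h2 : y + 6 ≠ 0 := by linarith
  have h3 : (y + 6) ^ 2 + 1 ≠ 0 := by positivity
  have e1 : (y + 6) ^ 2 * e - 1 + ((y + 6) - 4 - e) * u = (y ^ 6 + 31 * y ^ 5 + 399 * y ^ 4 + 2726 * y ^ 3 + 10412 * y ^ 2 + 21043 * y + 17539) /
      (y ^ 6 + 33 * y ^ 5 + 454 * y ^ 4 + 3332 * y ^ 3 + 13755 * y ^ 2 + 30275 * y + 27750) := by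
    rw [eq_div_iff hD.ne']
    simp only [hu, he]
    field_simp
    ring
  rw [e1]
  constructor
  · positivity
  · rw [div_lt_one hD]
    have : 0 < 2 * y ^ 5 + 55 * y ^ 4 + 606 * y ^ 3 + 3343 * y ^ 2 + 9232 * y + 10211 := by positivity
    linarith

lemma b_A2m {x u e : ℝ} (hx : 6 ≤ x) (hu : u = 1 / (x - 1))
    (he : e = (x ^ 3 - x ^ 2 + 2 * x - 1) / (x * (x - 1) ^ 2 * (x ^ 2 + 1))) :
    0 ≤ x ^ 3 * e - x - 1 + (x - 4 - e) * u ∧ x ^ 3 * e - x - 1 + (x - 4 - e) * u < 1 := by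
  obtain ⟨y, hy, rfl⟩ : ∃ y : ℝ, 0 ≤ y ∧ x = y + 6 := ⟨x - 6, by linarith, by ring⟩
  have hD : 0 < y ^ 6 + 33 * y ^ 5 + 454 * y ^ 4 + 3332 * y ^ 3 + 13755 * y ^ 2 + 30275 * y + 27750 := by positivity
  have h1 : y + 6 - 1 ≠ 0 := by linarith
  have h2 : y + 6 ≠ 0 := by linarith
  have h3 : (y + 6) ^ 2 + 1 ≠ 0 := by positivity
  have e1 : (y + 6) ^ 3 * e - (y + 6) - 1 + ((y + 6) - 4 - e) * u = (y ^ 6 + 32 * y ^ 5 + 427 * y ^ 4 + 3039 * y ^ 3 + 12158 * y ^ 2 + 25903 * y + 22939) /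
      (y ^ 6 + 33 * y ^ 5 + 454 * y ^ 4 + 3332 * y ^ 3 + 13755 * y ^ 2 + 30275 * y + 27750) := by
    rw [eq_div_iff hD.ne']
    simp only [hu, he]
    field_simp
    ring
  rw [e1]
  constructor
  · positivity
  · rw [div_lt_one hD]
    have : 0 < y ^ 5 + 27 * y ^ 4 + 293 * y ^ 3 + 1597 * y ^ 2 + 4372 * y + 4811 := by positivity
    linarith

lemma b_A3m {x u e : ℝ} (hx : 6 ≤ x) (hu : u = 1 / (x - 1))
    (he : e = (x ^ 3 - x ^ 2 + 2 * x - 1) / (x * (x - 1) ^ 2 * (x ^ 2 + 1))) :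
    0 ≤ x ^ 4 * e - x ^ 2 - x - 2 + (x - 4 - e) * u ∧ x ^ 4 * e - x ^ 2 - x - 2 + (x - 4 - e) * u < 1 := by
  obtain ⟨y, hy, rfl⟩ : ∃ y : ℝ, 0 ≤ y ∧ x = y + 6 := ⟨x - 6, by linarith, by ring⟩
  have hD : 0 < y ^ 6 + 33 * y ^ 5 + 454 * y ^ 4 + 3332 * y ^ 3 + 13755 * y ^ 2 + 30275 * y + 27750 := by positivity
  have h1 : y + 6 - 1 ≠ 0 := by linarith
  have h2 : y + 6 ≠ 0 := by linarith
  have h3 : (y + 6) ^ 2 + 1 ≠ 0 := by positivity
  have e1 : (y + 6) ^ 4 * e - (y + 6) ^ 2 - (y + 6) - 2 + ((y + 6) - 4 - e) * u = (y ^ 6 + 33 * y ^ 5 + 454 * y ^ 4 + 3331 * y ^ 3 + 13739 * y ^ 2 + 30188 * y + 27589) /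
      (y ^ 6 + 33 * y ^ 5 + 454 * y ^ 4 + 3332 * y ^ 3 + 13755 * y ^ 2 + 30275 * y + 27750) := by
    rw [eq_div_iff hD.ne']
    simp only [hu, he]
    field_simp
    ring
  rw [e1]
  constructor
  · positivity
  · rw [div_lt_one hD]
    have : 0 < y ^ 3 + 16 * y ^ 2 + 87 * y + 161 := by positivity
    linarith

lemma b_B1 {x u e : ℝ} (hx : 6 ≤ x) (hu : u = 1 / (x - 1))
    (he : e = (x ^ 3 - x ^ 2 + 2 * x - 1) / (x * (x - 1) ^ 2 * (x ^ 2 + 1))) :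
    0 ≤ x ^ 2 * e - 2 + (x - 2 - e) * u ∧ x ^ 2 * e - 2 + (x - 2 - e) * u < 1 := by
  obtain ⟨y, hy, rfl⟩ : ∃ y : ℝ, 0 ≤ y ∧ x = y + 6 := ⟨x - 6, by linarith, by ring⟩
  have hD : 0 < y ^ 6 + 33 * y ^ 5 + 454 * y ^ 4 + 3332 * y ^ 3 + 13755 * y ^ 2 + 30275 * y + 27750 := by positivity
  have h1 : y + 6 - 1 ≠ 0 := by linarith
  have h2 : y + 6 ≠ 0 := by linarith
  have h3 : (y + 6) ^ 2 + 1 ≠ 0 := by positivity
  have e1 : (y + 6) ^ 2 * e - 2 + ((y + 6) - 2 - e) * u = (y ^ 4 + 22 * y ^ 3 + 181 * y ^ 2 + 658 * y + 889) /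
      (y ^ 6 + 33 * y ^ 5 + 454 * y ^ 4 + 3332 * y ^ 3 + 13755 * y ^ 2 + 30275 * y + 27750) := by
    rw [eq_div_iff hD.ne']
    simp only [hu, he]
    field_simp
    ring
  rw [e1]
  constructor
  · positivity
  · rw [div_lt_one hD]
    have : 0 < y ^ 6 + 33 * y ^ 5 + 453 * y ^ 4 + 3310 * y ^ 3 + 13574 * y ^ 2 + 29617 * y + 26861 := by positivity
    linarith

lemma b_w {x u e : ℝ} (hx : 6 ≤ x) (hu : u = 1 / (x - 1))
    (he : e = (x ^ 3 - x ^ 2 + 2 * x - 1) / (x * (x - 1) ^ 2 * (x ^ 2 + 1))) :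
    0 ≤ -1 - e - x * e + (x + 1 - e) * u + u ^ 2 ∧ -1 - e - x * e + (x + 1 - e) * u + u ^ 2 < 1 := by
  obtain ⟨y, hy, rfl⟩ : ∃ y : ℝ, 0 ≤ y ∧ x = y + 6 := ⟨x - 6, by linarith, by ring⟩
  have hD : 0 < y ^ 5 + 27 * y ^ 4 + 292 * y ^ 3 + 1580 * y ^ 2 + 4275 * y + 4625 := by positivity
  have h1 : y + 6 - 1 ≠ 0 := by linarith
  have h2 : y + 6 ≠ 0 := by linarith
  have h3 : (y + 6) ^ 2 + 1 ≠ 0 := by positivity
  have e1 : -1 - e - (y + 6) * e + ((y + 6) + 1 - e) * u + u ^ 2 = (y ^ 4 + 22 * y ^ 3 + 181 * y ^ 2 + 658 * y + 889) /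
      (y ^ 5 + 27 * y ^ 4 + 292 * y ^ 3 + 1580 * y ^ 2 + 4275 * y + 4625) := by
    rw [eq_div_iff hD.ne']
    simp only [hu, he]
    field_simp
    ring
  rw [e1]
  constructor
  · positivity
  · rw [div_lt_one hD]
    have : 0 < y ^ 5 + 26 * y ^ 4 + 270 * y ^ 3 + 1399 * y ^ 2 + 3617 * y + 3736 := by positivity
    linarith

lemma b_B3 {x u e : ℝ} (hx : 6 ≤ x) (hu : u = 1 / (x - 1))
    (he : e = (x ^ 3 - x ^ 2 + 2 * x - 1) / (x * (x - 1) ^ 2 * (x ^ 2 + 1))) :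
    0 ≤ -e - x * e - x ^ 2 * e + (x + 2 - e) * u + u ^ 2 ∧ -e - x * e - x ^ 2 * e + (x + 2 - e) * u + u ^ 2 < 1 := by
  obtain ⟨y, hy, rfl⟩ : ∃ y : ℝ, 0 ≤ y ∧ x = y + 6 := ⟨x - 6, by linarith, by ring⟩
  have hD : 0 < y ^ 5 + 27 * y ^ 4 + 292 * y ^ 3 + 1580 * y ^ 2 + 4275 * y + 4625 := by positivity
  have h1 : y + 6 - 1 ≠ 0 := by linarith
  have h2 : y + 6 ≠ 0 := by linarith
  have h3 : (y + 6) ^ 2 + 1 ≠ 0 := by positivity
  have e1 : -e - (y + 6) * e - (y + 6) ^ 2 * e + ((y + 6) + 2 - e) * u + u ^ 2 = (y ^ 4 + 21 * y ^ 3 + 164 * y ^ 2 + 562 * y + 709) /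
      (y ^ 5 + 27 * y ^ 4 + 292 * y ^ 3 + 1580 * y ^ 2 + 4275 * y + 4625) := by
    rw [eq_div_iff hD.ne']
    simp only [hu, he]
    field_simp
    ring
  rw [e1]
  constructor
  · positivity
  · rw [div_lt_one hD]
    have : 0 < y ^ 5 + 26 * y ^ 4 + 271 * y ^ 3 + 1416 * y ^ 2 + 3713 * y + 3916 := by positivity
    linarith

lemma b_B4 {x u e : ℝ} (hx : 6 ≤ x) (hu : u = 1 / (x - 1))
    (he : e = (x ^ 3 - x ^ 2 + 2 * x - 1) / (x * (x - 1) ^ 2 * (x ^ 2 + 1))) :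
    0 ≤ x + 2 - e - x * e - x ^ 2 * e - x ^ 3 * e + (x + 3 - e) * u + u ^ 2 ∧ x + 2 - e - x * e - x ^ 2 * e - x ^ 3 * e + (x + 3 - e) * u + u ^ 2 < 1 := by
  obtain ⟨y, hy, rfl⟩ : ∃ y : ℝ, 0 ≤ y ∧ x = y + 6 := ⟨x - 6, by linarith, by ring⟩
  have hD : 0 < y ^ 5 + 27 * y ^ 4 + 292 * y ^ 3 + 1580 * y ^ 2 + 4275 * y + 4625 := by positivity
  have h1 : y + 6 - 1 ≠ 0 := by linarith
  have h2 : y + 6 ≠ 0 := by linarith
  have h3 : (y + 6) ^ 2 + 1 ≠ 0 := by positivity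
  have e1 : (y + 6) + 2 - e - (y + 6) * e - (y + 6) ^ 2 * e - (y + 6) ^ 3 * e + ((y + 6) + 3 - e) * u + u ^ 2 = (y ^ 5 + 27 * y ^ 4 + 290 * y ^ 3 + 1546 * y ^ 2 + 4081 * y + 4254) /
      (y ^ 5 + 27 * y ^ 4 + 292 * y ^ 3 + 1580 * y ^ 2 + 4275 * y + 4625) := by
    rw [eq_div_iff hD.ne']
    simp only [hu, he]
    field_simp
    ring
  rw [e1]
  constructor
  · positivity
  · rw [div_lt_one hD]
    have : 0 < 2 * y ^ 3 + 34 * y ^ 2 + 194 * y + 371 := by positivity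
    linarith

lemma b_B5 {x u e : ℝ} (hx : 6 ≤ x) (hu : u = 1 / (x - 1))
    (he : e = (x ^ 3 - x ^ 2 + 2 * x - 1) / (x * (x - 1) ^ 2 * (x ^ 2 + 1))) :
    0 ≤ (x - 3 - e) * u - u ^ 2 ∧ (x - 3 - e) * u - u ^ 2 < 1 := by
  obtain ⟨y, hy, rfl⟩ : ∃ y : ℝ, 0 ≤ y ∧ x = y + 6 := ⟨x - 6, by linarith, by ring⟩
  have hD : 0 < y ^ 6 + 33 * y ^ 5 + 454 * y ^ 4 + 3332 * y ^ 3 + 13755 * y ^ 2 + 30275 * y + 27750 := by positivity
  have h1 : y + 6 - 1 ≠ 0 := by linarith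
  have h2 : y + 6 ≠ 0 := by linarith
  have h3 : (y + 6) ^ 2 + 1 ≠ 0 := by positivity
  have e1 : ((y + 6) - 3 - e) * u - u ^ 2 = (y ^ 6 + 31 * y ^ 5 + 397 * y ^ 4 + 2680 * y ^ 3 + 10015 * y ^ 2 + 19520 * y + 15349) /
      (y ^ 6 + 33 * y ^ 5 + 454 * y ^ 4 + 3332 * y ^ 3 + 13755 * y ^ 2 + 30275 * y + 27750) := by
    rw [eq_div_iff hD.ne']
    simp only [hu, he]
    field_simp
    ring
  rw [e1]
  constructor
  · positivity
  · rw [div_lt_one hD]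
    have : 0 < 2 * y ^ 5 + 57 * y ^ 4 + 652 * y ^ 3 + 3740 * y ^ 2 + 10755 * y + 12401 := by positivity
    linarith

lemma b_C1 {x u e : ℝ} (hx : 6 ≤ x) (hu : u = 1 / (x - 1))
    (he : e = (x ^ 3 - x ^ 2 + 2 * x - 1) / (x * (x - 1) ^ 2 * (x ^ 2 + 1))) :
    0 ≤ 1 - u ^ 2 ∧ 1 - u ^ 2 < 1 := by
  obtain ⟨y, hy, rfl⟩ : ∃ y : ℝ, 0 ≤ y ∧ x = y + 6 := ⟨x - 6, by linarith, by ring⟩
  have hD : 0 < y ^ 2 + 10 * y + 25 := by positivity
  have h1 : y + 6 - 1 ≠ 0 := by linarith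
  have h2 : y + 6 ≠ 0 := by linarith
  have h3 : (y + 6) ^ 2 + 1 ≠ 0 := by positivity
  have e1 : 1 - u ^ 2 = (y ^ 2 + 10 * y + 24) /
      (y ^ 2 + 10 * y + 25) := by
    rw [eq_div_iff hD.ne']
    simp only [hu, he]
    field_simp
    ring
  rw [e1]
  constructor
  · positivity
  · rw [div_lt_one hD]
    have : 0 < 1 := by positivity
    linarith

lemma b_C2 {x u e : ℝ} (hx : 6 ≤ x) (hu : u = 1 / (x - 1))
    (he : e = (x ^ 3 - x ^ 2 + 2 * x - 1) / (x * (x - 1) ^ 2 * (x ^ 2 + 1))) :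
    0 ≤ 1 + e - u - u ^ 2 ∧ 1 + e - u - u ^ 2 < 1 := by
  obtain ⟨y, hy, rfl⟩ : ∃ y : ℝ, 0 ≤ y ∧ x = y + 6 := ⟨x - 6, by linarith, by ring⟩
  have hD : 0 < y ^ 5 + 28 * y ^ 4 + 314 * y ^ 3 + 1762 * y ^ 2 + 4945 * y + 5550 := by positivity
  have h1 : y + 6 - 1 ≠ 0 := by linarith
  have h2 : y + 6 ≠ 0 := by linarith
  have h3 : (y + 6) ^ 2 + 1 ≠ 0 := by positivity
  have e1 : 1 + e - u - u ^ 2 = (y ^ 5 + 27 * y ^ 4 + 291 * y ^ 3 + 1562 * y ^ 2 + 4167 * y + 4409) /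
      (y ^ 5 + 28 * y ^ 4 + 314 * y ^ 3 + 1762 * y ^ 2 + 4945 * y + 5550) := by
    rw [eq_div_iff hD.ne']
    simp only [hu, he]
    field_simp
    ring
  rw [e1]
  constructor
  · positivity
  · rw [div_lt_one hD]
    have : 0 < y ^ 4 + 23 * y ^ 3 + 200 * y ^ 2 + 778 * y + 1141 := by positivity
    linarith

lemma b_C3 {x u e : ℝ} (hx : 6 ≤ x) (hu : u = 1 / (x - 1))
    (he : e = (x ^ 3 - x ^ 2 + 2 * x - 1) / (x * (x - 1) ^ 2 * (x ^ 2 + 1))) :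
    0 ≤ 1 + e + x * e - 2 * u - u ^ 2 ∧ 1 + e + x * e - 2 * u - u ^ 2 < 1 := by
  obtain ⟨y, hy, rfl⟩ : ∃ y : ℝ, 0 ≤ y ∧ x = y + 6 := ⟨x - 6, by linarith, by ring⟩
  have hD : 0 < y ^ 4 + 23 * y ^ 3 + 199 * y ^ 2 + 767 * y + 1110 := by positivity
  have h1 : y + 6 - 1 ≠ 0 := by linarith
  have h2 : y + 6 ≠ 0 := by linarith
  have h3 : (y + 6) ^ 2 + 1 ≠ 0 := by positivity
  have e1 : 1 + e + (y + 6) * e - 2 * u - u ^ 2 = (y ^ 4 + 22 * y ^ 3 + 181 * y ^ 2 + 658 * y + 889) /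
      (y ^ 4 + 23 * y ^ 3 + 199 * y ^ 2 + 767 * y + 1110) := by
    rw [eq_div_iff hD.ne']
    simp only [hu, he]
    field_simp
    ring
  rw [e1]
  constructor
  · positivity
  · rw [div_lt_one hD]
    have : 0 < y ^ 3 + 18 * y ^ 2 + 109 * y + 221 := by positivity
    linarith

lemma b_C4 {x u e : ℝ} (hx : 6 ≤ x) (hu : u = 1 / (x - 1))
    (he : e = (x ^ 3 - x ^ 2 + 2 * x - 1) / (x * (x - 1) ^ 2 * (x ^ 2 + 1))) :
    0 ≤ e + x * e + x ^ 2 * e - 3 * u - u ^ 2 ∧ e + x * e + x ^ 2 * e - 3 * u - u ^ 2 < 1 := by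
  obtain ⟨y, hy, rfl⟩ : ∃ y : ℝ, 0 ≤ y ∧ x = y + 6 := ⟨x - 6, by linarith, by ring⟩
  have hD : 0 < y ^ 5 + 28 * y ^ 4 + 314 * y ^ 3 + 1762 * y ^ 2 + 4945 * y + 5550 := by positivity
  have h1 : y + 6 - 1 ≠ 0 := by linarith
  have h2 : y + 6 ≠ 0 := by linarith
  have h3 : (y + 6) ^ 2 + 1 ≠ 0 := by positivity
  have e1 : e + (y + 6) * e + (y + 6) ^ 2 * e - 3 * u - u ^ 2 = (y ^ 5 + 27 * y ^ 4 + 292 * y ^ 3 + 1581 * y ^ 2 + 4287 * y + 4661) /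
      (y ^ 5 + 28 * y ^ 4 + 314 * y ^ 3 + 1762 * y ^ 2 + 4945 * y + 5550) := by
    rw [eq_div_iff hD.ne']
    simp only [hu, he]
    field_simp
    ring
  rw [e1]
  constructor
  · positivity
  · rw [div_lt_one hD]
    have : 0 < y ^ 4 + 22 * y ^ 3 + 181 * y ^ 2 + 658 * y + 889 := by positivity
    linarith

lemma b_C5 {x u e : ℝ} (hx : 6 ≤ x) (hu : u = 1 / (x - 1))
    (he : e = (x ^ 3 - x ^ 2 + 2 * x - 1) / (x * (x - 1) ^ 2 * (x ^ 2 + 1))) :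
    0 ≤ x * e + x ^ 2 * e + x ^ 3 * e - (x + 2 - e) - 4 * u - u ^ 2 ∧ x * e + x ^ 2 * e + x ^ 3 * e - (x + 2 - e) - 4 * u - u ^ 2 < 1 := by
  obtain ⟨y, hy, rfl⟩ : ∃ y : ℝ, 0 ≤ y ∧ x = y + 6 := ⟨x - 6, by linarith, by ring⟩
  have hD : 0 < y ^ 3 + 16 * y ^ 2 + 85 * y + 150 := by positivity
  have h1 : y + 6 - 1 ≠ 0 := by linarith
  have h2 : y + 6 ≠ 0 := by linarith
  have h3 : (y + 6) ^ 2 + 1 ≠ 0 := by positivity
  have e1 : (y + 6) * e + (y + 6) ^ 2 * e + (y + 6) ^ 3 * e - ((y + 6) + 2 - e) - 4 * u - u ^ 2 = (2 * y + 11) /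
      (y ^ 3 + 16 * y ^ 2 + 85 * y + 150) := by
    rw [eq_div_iff hD.ne']
    simp only [hu, he]
    field_simp
    ring
  rw [e1]
  constructor
  · positivity
  · rw [div_lt_one hD]
    have : 0 < y ^ 3 + 16 * y ^ 2 + 83 * y + 139 := by positivity
    linarith

lemma b_C6 {x u e : ℝ} (hx : 6 ≤ x) (hu : u = 1 / (x - 1))
    (he : e = (x ^ 3 - x ^ 2 + 2 * x - 1) / (x * (x - 1) ^ 2 * (x ^ 2 + 1))) :
    0 ≤ 2 * u + u ^ 2 ∧ 2 * u + u ^ 2 < 1 := by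
  obtain ⟨y, hy, rfl⟩ : ∃ y : ℝ, 0 ≤ y ∧ x = y + 6 := ⟨x - 6, by linarith, by ring⟩
  have hD : 0 < y ^ 2 + 10 * y + 25 := by positivity
  have h1 : y + 6 - 1 ≠ 0 := by linarith
  have h2 : y + 6 ≠ 0 := by linarith
  have h3 : (y + 6) ^ 2 + 1 ≠ 0 := by positivity
  have e1 : 2 * u + u ^ 2 = (2 * y + 11) /
      (y ^ 2 + 10 * y + 25) := by
    rw [eq_div_iff hD.ne']
    simp only [hu, he]
    field_simp
    ring
  rw [e1]
  constructor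
  · positivity
  · rw [div_lt_one hD]
    have : 0 < y ^ 2 + 8 * y + 14 := by positivity
    linarith

lemma b_C6m {x u e : ℝ} (hx : 6 ≤ x) (hu : u = 1 / (x - 1))
    (he : e = (x ^ 3 - x ^ 2 + 2 * x - 1) / (x * (x - 1) ^ 2 * (x ^ 2 + 1))) :
    0 ≤ (x - 2 - e) * u + u ^ 2 ∧ (x - 2 - e) * u + u ^ 2 < 1 := by
  obtain ⟨y, hy, rfl⟩ : ∃ y : ℝ, 0 ≤ y ∧ x = y + 6 := ⟨x - 6, by linarith, by ring⟩
  have hD : 0 < y ^ 6 + 33 * y ^ 5 + 454 * y ^ 4 + 3332 * y ^ 3 + 13755 * y ^ 2 + 30275 * y + 27750 := by positivity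
  have h1 : y + 6 - 1 ≠ 0 := by linarith
  have h2 : y + 6 ≠ 0 := by linarith
  have h3 : (y + 6) ^ 2 + 1 ≠ 0 := by positivity
  have e1 : ((y + 6) - 2 - e) * u + u ^ 2 = (y ^ 6 + 32 * y ^ 5 + 427 * y ^ 4 + 3040 * y ^ 3 + 12175 * y ^ 2 + 25999 * y + 23119) /
      (y ^ 6 + 33 * y ^ 5 + 454 * y ^ 4 + 3332 * y ^ 3 + 13755 * y ^ 2 + 30275 * y + 27750) := by
    rw [eq_div_iff hD.ne']
    simp only [hu, he]
    field_simp
    ring
  rw [e1]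
  constructor
  · positivity
  · rw [div_lt_one hD]
    have : 0 < y ^ 5 + 27 * y ^ 4 + 292 * y ^ 3 + 1580 * y ^ 2 + 4276 * y + 4631 := by positivity
    linarith

lemma b_D1 {x u e : ℝ} (hx : 6 ≤ x) (hu : u = 1 / (x - 1))
    (he : e = (x ^ 3 - x ^ 2 + 2 * x - 1) / (x * (x - 1) ^ 2 * (x ^ 2 + 1))) :
    0 ≤ -1 + (x - 1 - e) * u + u ^ 2 ∧ -1 + (x - 1 - e) * u + u ^ 2 < 1 := by
  obtain ⟨y, hy, rfl⟩ : ∃ y : ℝ, 0 ≤ y ∧ x = y + 6 := ⟨x - 6, by linarith, by ring⟩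
  have hD : 0 < y ^ 6 + 33 * y ^ 5 + 454 * y ^ 4 + 3332 * y ^ 3 + 13755 * y ^ 2 + 30275 * y + 27750 := by positivity
  have h1 : y + 6 - 1 ≠ 0 := by linarith
  have h2 : y + 6 ≠ 0 := by linarith
  have h3 : (y + 6) ^ 2 + 1 ≠ 0 := by positivity
  have e1 : -1 + ((y + 6) - 1 - e) * u + u ^ 2 = (y ^ 4 + 22 * y ^ 3 + 182 * y ^ 2 + 669 * y + 919) /
      (y ^ 6 + 33 * y ^ 5 + 454 * y ^ 4 + 3332 * y ^ 3 + 13755 * y ^ 2 + 30275 * y + 27750) := by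
    rw [eq_div_iff hD.ne']
    simp only [hu, he]
    field_simp
    ring
  rw [e1]
  constructor
  · positivity
  · rw [div_lt_one hD]
    have : 0 < y ^ 6 + 33 * y ^ 5 + 453 * y ^ 4 + 3310 * y ^ 3 + 13573 * y ^ 2 + 29606 * y + 26831 := by positivity
    linarith

lemma b_D2 {x u e : ℝ} (hx : 6 ≤ x) (hu : u = 1 / (x - 1))
    (he : e = (x ^ 3 - x ^ 2 + 2 * x - 1) / (x * (x - 1) ^ 2 * (x ^ 2 + 1))) :
    0 ≤ -1 - e + (x - e) * u + u ^ 2 ∧ -1 - e + (x - e) * u + u ^ 2 < 1 := by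
  obtain ⟨y, hy, rfl⟩ : ∃ y : ℝ, 0 ≤ y ∧ x = y + 6 := ⟨x - 6, by linarith, by ring⟩
  have hD : 0 < y ^ 5 + 27 * y ^ 4 + 292 * y ^ 3 + 1580 * y ^ 2 + 4275 * y + 4625 := by positivity
  have h1 : y + 6 - 1 ≠ 0 := by linarith
  have h2 : y + 6 ≠ 0 := by linarith
  have h3 : (y + 6) ^ 2 + 1 ≠ 0 := by positivity
  have e1 : -1 - e + ((y + 6) - e) * u + u ^ 2 = (y ^ 4 + 22 * y ^ 3 + 182 * y ^ 2 + 669 * y + 919) /
      (y ^ 5 + 27 * y ^ 4 + 292 * y ^ 3 + 1580 * y ^ 2 + 4275 * y + 4625) := by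
    rw [eq_div_iff hD.ne']
    simp only [hu, he]
    field_simp
    ring
  rw [e1]
  constructor
  · positivity
  · rw [div_lt_one hD]
    have : 0 < y ^ 5 + 26 * y ^ 4 + 270 * y ^ 3 + 1398 * y ^ 2 + 3606 * y + 3706 := by positivity
    linarith
open Polynomial Pool.Agent.R341.Salem6 Pool.Agent.R341.Greedy

/-- the data of the family: `x = β` is the Salem number with parameter `J` -/
structure Ctx (J : ℕ) (x u e : ℝ) : Prop where
  hJ : 2 ≤ J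
  hx : 6 ≤ x
  hu : u = 1 / (x - 1)
  he : e = (x ^ 3 - x ^ 2 + 2 * x - 1) / (x * (x - 1) ^ 2 * (x ^ 2 + 1))
  hk : e = x - 2 - 2 * J

namespace Ctx

variable {J : ℕ} {x u e : ℝ}

lemma hu' (h : Ctx J x u e) : u * (x - 1) = 1 := by
  have : x - 1 ≠ 0 := by linarith [h.hx]
  rw [h.hu]; field_simp

lemma u_pos (h : Ctx J x u e) : 0 < u := by
  rw [h.hu]; have := h.hx; have : 0 < x - 1 := by linarith
  positivity

lemma u_le (h : Ctx J x u e) : u ≤ 1 / 5 := by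
  rw [h.hu]; have := h.hx
  apply one_div_le_one_div_of_le <;> linarith

lemma R1 (h : Ctx J x u e) : e * (x * (x ^ 2 + 1)) = x + 1 + 3 * u + u ^ 2 := by
  have h1 : x - 1 ≠ 0 := by linarith [h.hx]
  have h2 : x ≠ 0 := by linarith [h.hx]
  rw [h.he, h.hu]
  field_simp
  ring

/-- the rising phase -/
lemma rise (h : Ctx J x u e) (j : ℕ) (hj : j < J)
    (hr : r x (2 + 4 * j) = x * e + 2 * j * u) :
    (c x (2 + 4 * j + 1) = 1 + 2 * j ∧ c x (2 + 4 * j + 2) = 1 + 2 * j ∧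
      c x (2 + 4 * j + 3) = 2 + 2 * j ∧ c x (2 + 4 * j + 4) = 3 + 2 * j) ∧
    r x (2 + 4 * (j + 1)) = x * e + 2 * ((j + 1 : ℕ) : ℝ) * u := by
  have hu := h.hu'
  have hup := h.u_pos
  have hR := h.R1
  have hk := h.hk
  have hj' : (j : ℝ) + 1 ≤ J := by exact_mod_cast hj
  have hj0 : (0 : ℝ) ≤ j := by positivity
  have hju : 2 * (j : ℝ) * u ≤ (x - 4 - e) * u := by
    apply mul_le_mul_of_nonneg_right _ hup.le
    rw [hk]; linarith
  have hju0 : 0 ≤ 2 * (j : ℝ) * u := by positivity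
  have hju1 : 2 * ((j : ℝ) + 1) * u ≤ (x - 2 - e) * u := by
    apply mul_le_mul_of_nonneg_right _ hup.le
    rw [hk]; linarith
  have b1 := b_A1 h.hx h.hu h.he
  have b1m := b_A1m h.hx h.hu h.he
  have b2 := b_A2 h.hx h.hu h.he
  have b2m := b_A2m h.hx h.hu h.he
  have b3 := b_A3 h.hx h.hu h.he
  have b3m := b_A3m h.hx h.hu h.he
  have b0 := b_A0 h.hx h.hu h.he
  have b0m := b_B0 h.hx h.hu h.he
  obtain ⟨d1, r1⟩ := step (w := x ^ 2 * e - 1 + 2 * j * u) (d := 1 + 2 * j) hr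
    (by push_cast; linear_combination 2 * (j : ℝ) * hu) (by linarith) (by linarith)
  obtain ⟨d2, r2⟩ := step (w := x ^ 3 * e - x - 1 + 2 * j * u) (d := 1 + 2 * j) r1
    (by push_cast; linear_combination 2 * (j : ℝ) * hu) (by linarith) (by linarith)
  obtain ⟨d3, r3⟩ := step (w := x ^ 4 * e - x ^ 2 - x - 2 + 2 * j * u) (d := 2 + 2 * j) r2
    (by push_cast; linear_combination 2 * (j : ℝ) * hu) (by linarith) (by linarith)
  obtain ⟨d4, r4⟩ := step (w := x * e + 2 * (j + 1) * u) (d := 3 + 2 * j) r3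
    (by
      push_cast
      linear_combination (x ^ 2 - 1) * hR + (2 * (j : ℝ) + 3 * (x + 1) + u * (x + 1) + 1) * hu)
    (by nlinarith) (by linarith)
  refine ⟨⟨d1, d2, d3, d4⟩, ?_⟩
  push_cast
  exact r4

lemma r1 (h : Ctx J x u e) : c x 1 = 2 * J + 2 ∧ r x 1 = e := by
  have b := b_A0 h.hx h.hu h.he
  have hx := h.hx
  have e0 : 0 ≤ e := by
    by_contra hn
    push Not at hn
    nlinarith [b.1]
  have e1 : e < 1 := by
    by_contra hn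
    push Not at hn
    nlinarith [b.2]
  exact step (n := 0) (v := 1) (w := e) (d := 2 * J + 2) rfl
    (by push_cast; linear_combination -h.hk) e0 e1

lemma rise_all (h : Ctx J x u e) (j : ℕ) (hj : j ≤ J) :
    r x (2 + 4 * j) = x * e + 2 * j * u := by
  induction j with
  | zero =>
    have b := b_A0 h.hx h.hu h.he
    have := (step (w := x * e) (d := 0) h.r1.2 (by push_cast; ring) b.1 b.2).2
    simpa using this
  | succ j ih =>
    exact (h.rise j (by omega) (ih (by omega))).2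

/-- the turning point; `w` is the remainder at which the period starts -/
lemma turn (h : Ctx J x u e) :
    (c x (4 * J + 3) = 2 * J + 2 ∧ c x (4 * J + 4) = 0 ∧ c x (4 * J + 5) = 1 ∧
      c x (4 * J + 6) = 0 ∧ c x (4 * J + 7) = 2 * J + 1) ∧
    r x (4 * J + 4) = -1 - e - x * e + (x + 1 - e) * u + u ^ 2 ∧
    r x (4 * J + 7) = (2 * J - 1 : ℝ) * u - u ^ 2 := by
  have hu := h.hu'
  have hR := h.R1
  have hk := h.hk
  have h0 := h.rise_all J le_rfl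
  rw [show 2 + 4 * J = 4 * J + 2 by ring] at h0
  have b1 := b_B1 h.hx h.hu h.he
  have b2 := b_w h.hx h.hu h.he
  have b3 := b_B3 h.hx h.hu h.he
  have b4 := b_B4 h.hx h.hu h.he
  have b5 := b_B5 h.hx h.hu h.he
  obtain ⟨d1, r1⟩ := step (w := x ^ 2 * e - 2 + (x - 2 - e) * u) (d := 2 * J + 2) h0
    (by push_cast; linear_combination 2 * (J : ℝ) * hu + u * hk) b1.1 b1.2
  obtain ⟨d2, r2⟩ := step (w := -1 - e - x * e + (x + 1 - e) * u + u ^ 2) (d := 0) r1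
    (by push_cast; linear_combination (x - 2 - e) * hu + hR) b2.1 b2.2
  obtain ⟨d3, r3⟩ := step (w := -e - x * e - x ^ 2 * e + (x + 2 - e) * u + u ^ 2) (d := 1) r2
    (by push_cast; linear_combination (x + 1 - e) * hu + u * hu) b3.1 b3.2
  obtain ⟨d4, r4⟩ := step
    (w := x + 2 - e - x * e - x ^ 2 * e - x ^ 3 * e + (x + 3 - e) * u + u ^ 2) (d := 0) r3
    (by push_cast; linear_combination (x + 2 - e) * hu + u * hu) b4.1 b4.2
  obtain ⟨d5, r5⟩ := step (w := (x - 3 - e) * u - u ^ 2) (d := 2 * J + 1) r4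
    (by
      push_cast
      linear_combination -(x + 1) * hR + (x - e) * hu - hk) b5.1 b5.2
  refine ⟨⟨d1, d2, d3, d4, d5⟩, r2, ?_⟩
  have : r x (4 * J + 7) = (x - 3 - e) * u - u ^ 2 := r5
  rw [this, hk]; ring

/-- the falling phase -/
lemma fall (h : Ctx J x u e) (i : ℕ) (hi : i ≤ 2 * J - 2) :
    r x (4 * J + 7 + i) = (2 * J - 1 - i : ℝ) * u - u ^ 2 ∧
      (1 ≤ i → c x (4 * J + 7 + i) = 2 * J - i) := by
  have hJ := h.hJ
  have hup := h.u_pos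
  have hul := h.u_le
  induction i with
  | zero => exact ⟨by simpa using h.turn.2.2, by simp⟩
  | succ i ih =>
    have hi' : (i : ℝ) + 1 ≤ 2 * J - 2 := by
      have : i + 1 + 2 ≤ 2 * J := by omega
      have : ((i + 1 + 2 : ℕ) : ℝ) ≤ (2 * J : ℕ) := by exact_mod_cast this
      push_cast at this
      linarith
    have hi0 : (0 : ℝ) ≤ i := by positivity
    have b5 := b_B5 h.hx h.hu h.he
    have hk := h.hk
    obtain ⟨d, rr⟩ := step (w := (2 * J - 2 - i : ℝ) * u - u ^ 2) (d := 2 * J - 1 - i)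
      (ih (by omega)).1
      (by
        push_cast
        linear_combination (2 * (J : ℝ) - 1 - i - u) * h.hu')
      (by nlinarith) (by
        have e1 : (x - 3 - e) * u = (2 * J - 1 : ℝ) * u := by rw [hk]; ring
        rw [e1] at b5
        nlinarith [b5.2])
    refine ⟨?_, fun _ => ?_⟩
    · rw [← add_assoc, rr]; push_cast; ring
    · rw [← add_assoc, d]; push_cast; ring

/-- the bottom -/
lemma bottom (h : Ctx J x u e) :
    (c x (6 * J + 6) = 0 ∧ c x (6 * J + 7) = 2 * J + 1 ∧ c x (6 * J + 8) = 2 * J ∧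
      c x (6 * J + 9) = 2 * J ∧ c x (6 * J + 10) = 2 * J + 1 ∧ c x (6 * J + 11) = 0) ∧
    r x (6 * J + 11) = 2 * u + u ^ 2 := by
  have hJ := h.hJ
  have hu := h.hu'
  have hR := h.R1
  have hk := h.hk
  have h0 := (h.fall (2 * J - 2) le_rfl).1
  rw [show 4 * J + 7 + (2 * J - 2) = 6 * J + 5 by omega] at h0
  have h0' : r x (6 * J + 5) = u - u ^ 2 := by
    rw [h0, Nat.cast_sub (by omega)]; push_cast; ring
  have b1 := b_C1 h.hx h.hu h.he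
  have b2 := b_C2 h.hx h.hu h.he
  have b3 := b_C3 h.hx h.hu h.he
  have b4 := b_C4 h.hx h.hu h.he
  have b5 := b_C5 h.hx h.hu h.he
  have b6 := b_C6 h.hx h.hu h.he
  obtain ⟨d1, r1⟩ := step (w := 1 - u ^ 2) (d := 0) h0'
    (by push_cast; linear_combination (1 - u) * hu) b1.1 b1.2
  obtain ⟨d2, r2⟩ := step (w := 1 + e - u - u ^ 2) (d := 2 * J + 1) r1
    (by push_cast; linear_combination (-u) * hu - hk) b2.1 b2.2
  obtain ⟨d3, r3⟩ := step (w := 1 + e + x * e - 2 * u - u ^ 2) (d := 2 * J) r2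
    (by push_cast; linear_combination (-1 - u) * hu - hk) b3.1 b3.2
  obtain ⟨d4, r4⟩ := step (w := e + x * e + x ^ 2 * e - 3 * u - u ^ 2) (d := 2 * J) r3
    (by push_cast; linear_combination (-2 - u) * hu - hk) b4.1 b4.2
  obtain ⟨d5, r5⟩ := step
    (w := x * e + x ^ 2 * e + x ^ 3 * e - (x + 2 - e) - 4 * u - u ^ 2) (d := 2 * J + 1) r4
    (by push_cast; linear_combination (-3 - u) * hu - hk) b5.1 b5.2
  obtain ⟨d6, r6⟩ := step (w := 2 * u + u ^ 2) (d := 0) r5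
    (by push_cast; linear_combination (x + 1) * hR - hu) b6.1 b6.2
  exact ⟨⟨d1, d2, d3, d4, d5, d6⟩, r6⟩

/-- the second rising phase -/
lemma rise2 (h : Ctx J x u e) (i : ℕ) (hi : i ≤ 2 * J - 2) :
    r x (6 * J + 11 + i) = (2 + i : ℝ) * u + u ^ 2 ∧
      (1 ≤ i → c x (6 * J + 11 + i) = 1 + i) := by
  have hJ := h.hJ
  have hup := h.u_pos
  have hul := h.u_le
  induction i with
  | zero => exact ⟨by simpa using h.bottom.2, by simp⟩
  | succ i ih =>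
    have hi' : (i : ℝ) + 1 ≤ 2 * J - 2 := by
      have : i + 1 + 2 ≤ 2 * J := by omega
      have : ((i + 1 + 2 : ℕ) : ℝ) ≤ (2 * J : ℕ) := by exact_mod_cast this
      push_cast at this
      linarith
    have hi0 : (0 : ℝ) ≤ i := by positivity
    have b5 := b_C6m h.hx h.hu h.he
    have hk := h.hk
    obtain ⟨d, rr⟩ := step (w := (3 + i : ℝ) * u + u ^ 2) (d := 2 + i)
      (ih (by omega)).1
      (by
        push_cast
        linear_combination (2 + (i : ℝ) + u) * h.hu')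
      (by positivity) (by
        have e1 : (x - 2 - e) * u = (2 * J : ℝ) * u := by rw [hk]; ring
        rw [e1] at b5
        nlinarith [b5.2])
    refine ⟨?_, fun _ => ?_⟩
    · rw [← add_assoc, rr]; push_cast; ring
    · rw [← add_assoc, d]; push_cast; ring

/-- the end of the period -/
lemma last (h : Ctx J x u e) :
    (c x (8 * J + 10) = 2 * J + 1 ∧ c x (8 * J + 11) = 0 ∧ c x (8 * J + 12) = 1) ∧
    r x (8 * J + 12) = r x (4 * J + 4) := by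
  have hJ := h.hJ
  have hu := h.hu'
  have hR := h.R1
  have hk := h.hk
  have h0 := (h.rise2 (2 * J - 2) le_rfl).1
  rw [show 6 * J + 11 + (2 * J - 2) = 8 * J + 9 by omega] at h0
  have h0' : r x (8 * J + 9) = 2 * J * u + u ^ 2 := by
    rw [h0, Nat.cast_sub (by omega)]; push_cast; ring
  have b1 := b_D1 h.hx h.hu h.he
  have b2 := b_D2 h.hx h.hu h.he
  have b3 := b_w h.hx h.hu h.he
  obtain ⟨d1, r1⟩ := step (w := -1 + (x - 1 - e) * u + u ^ 2) (d := 2 * J + 1) h0'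
    (by push_cast; linear_combination (2 * (J : ℝ) + u) * hu + u * hk) b1.1 b1.2
  obtain ⟨d2, r2⟩ := step (w := -1 - e + (x - e) * u + u ^ 2) (d := 0) r1
    (by push_cast; linear_combination (x - 1 - e + u) * hu) b2.1 b2.2
  obtain ⟨d3, r3⟩ := step (w := -1 - e - x * e + (x + 1 - e) * u + u ^ 2) (d := 1) r2
    (by push_cast; linear_combination (x - e + u) * hu) b3.1 b3.2
  exact ⟨⟨d1, d2, d3⟩, by rw [h.turn.2.1]; exact r3⟩

lemma evPer (h : Ctx J x u e) : EvPer x (4 * J + 4) (4 * J + 8) := by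
  refine ⟨by omega, fun n hn => c_add ?_ n hn⟩
  rw [show 4 * J + 4 + (4 * J + 8) = 8 * J + 12 by ring]
  exact h.last.2

/-- the digit `2J` occurs only twice in a period -/
lemma ne_digit (h : Ctx J x u e) (q : ℕ) (h2 : 2 ≤ q) (hq : q ≤ 4 * J + 7) :
    c x (6 * J + 8 + q) ≠ 2 * J := by
  have hJ := h.hJ
  obtain ⟨⟨a1, a2, a3, a4, a5, a6⟩, -⟩ := h.bottom
  obtain ⟨⟨b1, b2, b3⟩, -⟩ := h.last
  obtain ⟨⟨-, -, t1, t2, t3⟩, -⟩ := h.turn
  have per : ∀ n, 4 * J + 5 ≤ n → c x (n + (4 * J + 8)) = c x n := by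
    intro n hn
    have := h.evPer.2 (n - (4 * J + 4)) (by omega)
    rw [show n - (4 * J + 4) + (4 * J + 4) = n by omega] at this
    exact this.symm
  rcases Nat.lt_or_ge q (2 * J + 2) with hlt | hge
  · rcases Nat.lt_or_ge q 4 with h4 | h4
    · interval_cases q
      · rw [show 6 * J + 8 + 2 = 6 * J + 10 by ring, a5]; omega
      · rw [show 6 * J + 8 + 3 = 6 * J + 11 by ring, a6]; omega
    · have := (h.rise2 (q - 3) (by omega)).2 (by omega)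
      rw [show 6 * J + 11 + (q - 3) = 6 * J + 8 + q by omega] at this
      rw [this]; omega
  · rcases Nat.lt_or_ge q (2 * J + 8) with hlt' | hge'
    · obtain ⟨s, rfl⟩ : ∃ s, q = 2 * J + 2 + s := ⟨q - (2 * J + 2), by omega⟩
      have hs : s < 6 := by omega
      interval_cases s
      · rw [show 6 * J + 8 + (2 * J + 2 + 0) = 8 * J + 10 by ring, b1]; omega
      · rw [show 6 * J + 8 + (2 * J + 2 + 1) = 8 * J + 11 by ring, b2]; omega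
      · rw [show 6 * J + 8 + (2 * J + 2 + 2) = 8 * J + 12 by ring, b3]; omega
      · rw [show 6 * J + 8 + (2 * J + 2 + 3) = 4 * J + 5 + (4 * J + 8) by ring,
          per _ (by omega), t1]; omega
      · rw [show 6 * J + 8 + (2 * J + 2 + 4) = 4 * J + 6 + (4 * J + 8) by ring,
          per _ (by omega), t2]; omega
      · rw [show 6 * J + 8 + (2 * J + 2 + 5) = 4 * J + 7 + (4 * J + 8) by ring,
          per _ (by omega), t3]; omega
    · rcases Nat.lt_or_ge q (4 * J + 6) with hlt'' | hge''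
      · have := (h.fall (q - (2 * J + 7)) (by omega)).2 (by omega)
        rw [show 6 * J + 8 + q = 4 * J + 7 + (q - (2 * J + 7)) + (4 * J + 8) by omega,
          per _ (by omega), this]
        omega
      · obtain ⟨s, rfl⟩ : ∃ s, q = 4 * J + 6 + s := ⟨q - (4 * J + 6), by omega⟩
        have hs : s < 2 := by omega
        interval_cases s
        · rw [show 6 * J + 8 + (4 * J + 6 + 0) = 6 * J + 6 + (4 * J + 8) by ring,
            per _ (by omega), a1]; omega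
        · rw [show 6 * J + 8 + (4 * J + 6 + 1) = 6 * J + 7 + (4 * J + 8) by ring,
            per _ (by omega), a2]; omega

lemma shape (h : Ctx J x u e) : Shape x (4 * J + 4) (4 * J + 8) := by
  refine ⟨h.evPer, ?_⟩
  intro m' p' h'
  constructor
  · by_contra hm
    push Not at hm
    have h1 := evPer_swap h' h.evPer
    have h2 := h1.2 (4 * J + 4 - m') (by omega)
    rw [show 4 * J + 4 - m' + m' = 4 * J + 4 by omega,
      show 4 * J + 4 + (4 * J + 8) = 8 * J + 12 by ring, h.turn.1.2.1, h.last.1.2.2] at h2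
    norm_num at h2
  · by_contra hp
    push Not at hp
    have h1 := evPer_swap h.evPer h'
    have h2 := h1.2 (2 * J + 4) (by omega)
    rw [show 2 * J + 4 + (4 * J + 4) = 6 * J + 8 by ring, h.bottom.1.2.2.1] at h2
    rcases Nat.lt_or_ge p' 2 with h3 | h3
    · have h4 : p' = 1 := by have := h'.1; omega
      subst h4
      have h5 := h1.2 (2 * J + 5) (by omega)
      rw [show 2 * J + 5 + (4 * J + 4) = 6 * J + 9 by ring, h.bottom.1.2.2.2.1,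
        show 6 * J + 9 + 1 = 6 * J + 10 by ring, h.bottom.1.2.2.2.2.1] at h5
      omega
    · exact h.ne_digit p' h3 (by omega) h2.symm

end Ctx

lemma exists_ctx (J : ℕ) (hJ : 2 ≤ J) : ∃ x u e : ℝ, Ctx J x u e ∧
    aeval x (P (-(2 * J + 4)) (4 * J + 6) (-(4 * J + 7))) = 0 := by
  have hJ' : (2 : ℝ) ≤ J := by exact_mod_cast hJ
  have hc : Continuous fun x : ℝ => aeval x (P (-(2 * J + 4)) (4 * J + 6) (-(4 * J + 7))) := by
    simp only [aeval_P]; fun_prop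
  obtain ⟨y, hy⟩ : ∃ y : ℝ, (J : ℝ) = y + 2 := ⟨J - 2, by ring⟩
  have hy0 : 0 ≤ y := by linarith
  have h1 : aeval (2 * J + 2 : ℝ) (P (-(2 * J + 4)) (4 * J + 6) (-(4 * J + 7))) < 0 := by
    rw [aeval_P]; push_cast
    have : (2 * (J : ℝ) + 2) ^ 6 + -(2 * (J : ℝ) + 4) * (2 * (J : ℝ) + 2) ^ 5
        + (4 * (J : ℝ) + 6) * (2 * (J : ℝ) + 2) ^ 4 + -(4 * (J : ℝ) + 7) * (2 * (J : ℝ) + 2) ^ 3
        + (4 * (J : ℝ) + 6) * (2 * (J : ℝ) + 2) ^ 2 + -(2 * (J : ℝ) + 4) * (2 * (J : ℝ) + 2) + 1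
        = -((2 * (J : ℝ) + 2) ^ 3 - (2 * (J : ℝ) + 2) ^ 2 + 2 * (2 * (J : ℝ) + 2) - 1) := by ring
    rw [this, hy]
    ring_nf
    nlinarith [pow_nonneg hy0 2, pow_nonneg hy0 3]
  have h2 : 0 < aeval (2 * J + 3 : ℝ) (P (-(2 * J + 4)) (4 * J + 6) (-(4 * J + 7))) := by
    rw [aeval_P]; push_cast
    rw [hy]
    ring_nf
    positivity
  obtain ⟨x, hx, hx0⟩ := intermediate_value_Ioo
    (show (2 * J + 2 : ℝ) ≤ 2 * J + 3 by linarith) hc.continuousOn ⟨h1, h2⟩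
  refine ⟨x, 1 / (x - 1), x - 2 - 2 * J, ⟨hJ, by linarith [hx.1], rfl, ?_, rfl⟩, hx0⟩
  have hx6 : 6 < x := by linarith [hx.1]
  have h3 : x * (x - 1) ^ 2 * (x ^ 2 + 1) ≠ 0 := by
    have : x - 1 ≠ 0 := by linarith
    have : x ≠ 0 := by linarith
    positivity
  rw [eq_div_iff h3]
  simp only [aeval_P] at hx0
  push_cast at hx0
  linear_combination hx0

/-- **The family.** For every `J ≥ 2` the polynomial
`x⁶ - kx⁵ + (2k-2)x⁴ - (2k-1)x³ + (2k-2)x² - kx + 1` with `k = 2J+4` is the minimal polynomial of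
a Salem number with preperiod length `4J+4` and period length `4J+8`. -/
theorem family (J : ℕ) (hJ : 2 ≤ J) : ∃ β : ℝ, IsSalem β ∧
    minpoly ℤ β = P (-(2 * J + 4)) (4 * J + 6) (-(4 * J + 7)) ∧
    Shape β (4 * J + 4) (4 * J + 8) := by
  obtain ⟨x, u, e, h, hP⟩ := exists_ctx J hJ
  have hJ' : (2 : ℝ) ≤ J := by exact_mod_cast hJ
  have hroot : ∀ n : ℤ, n ^ 3 + (-(2 * J + 4)) * n ^ 2 + ((4 * J + 6) - 3) * n
      + (-(4 * J + 7) - 2 * (-(2 * J + 4))) ≠ 0 := by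
    intro n hn
    have h1 : n * (n ^ 2 - (2 * J + 4) * n + (4 * J + 3)) = -1 := by linear_combination hn
    have h2 : IsUnit n := isUnit_of_dvd_one ⟨-(n ^ 2 - (2 * J + 4) * n + (4 * J + 3)), by
      linear_combination h1⟩
    rcases Int.isUnit_iff.1 h2 with rfl | rfl
    · ring_nf at hn; omega
    · ring_nf at hn; omega
  obtain ⟨hS, hmin⟩ := salem6 hroot 1 (by norm_num) (by norm_num)
    (by rw [aeval_G]; push_cast; nlinarith) (by rw [aeval_G]; push_cast; nlinarith)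
    (by rw [aeval_G]; push_cast; nlinarith) (by linarith [h.hx] : (1 : ℝ) < x) hP
  exact ⟨x, hS, hmin, h.shape⟩

end Pool.Agent.R341.FamilyE4
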