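import Pool.Agent.R341.Rou

set_option autoImplicit false

namespace Pool.Agent.R341.IrrPisot

open Polynomial Complex Pool.Agent.R341.Rou

/-! The polynomials (with `m = n + 1`) -/

/-- `P_m` -/
noncomputable def Pm (n : ℕ) : ℂ[X] :=
  X ^ (4 * n + 3) * (X - 2) + (X - 1) *
    (X ^ (3 * n + 2) - X ^ (2 * n + 2) + X ^ (2 * n + 1) - X ^ (n + 1) - 1)

/-- `P_m^*` -/
noncomputable def Ps (n : ℕ) : ℂ[X] :=
  (1 - 2 * X) + (1 - X) *
    (X ^ (n + 1) + X ^ (2 * n + 2) - X ^ (2 * n + 1) - X ^ (3 * n + 2) - X ^ (4 * n + 3))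

noncomputable def qq : ℂ[X] := X ^ 2 - 3 * X + 1

noncomputable def Bm (n : ℕ) : ℂ[X] :=
  -qq * X ^ (3 * n + 2) - (X - 1) * X ^ (2 * n + 2) + (X - 1) ^ 2 * X ^ (n + 1) + X * (X - 1)

noncomputable def Bs (n : ℕ) : ℂ[X] :=
  -qq - (1 - X) * X ^ (n + 1) + (1 - X) ^ 2 * X ^ (2 * n + 1) + (1 - X) * X ^ (3 * n + 2)

noncomputable def KK : ℂ[X] := X ^ 2 - X * (X - 1) ^ 2 + (X - 1) ^ 4

noncomputable def LL : ℂ[X] := X ^ 2 - X * (X - 1) ^ 2 + 2 * (X - 1) ^ 4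

noncomputable def Cm (n : ℕ) : ℂ[X] :=
  KK * X ^ (2 * n + 1) - (X - 1) * X ^ (n + 2) - (X - 1) ^ 4

noncomputable def Cs (n : ℕ) : ℂ[X] :=
  KK + (X - 1) * X ^ (n + 2) - (X - 1) ^ 4 * X ^ (2 * n + 1)

noncomputable def Dm (n : ℕ) : ℂ[X] := LL * X ^ (n + 1) - X ^ 2 * (X - 1)

lemma id1 (n : ℕ) : (1 - 2 * X) * Pm n + (X - 1) * Ps n = X ^ (n + 1) * Bm n := by
  simp only [Pm, Ps, Bm, qq]
  ring

lemma id2 (n : ℕ) : -qq * Bm n - X * (X - 1) * Bs n = X ^ (n + 1) * Cm n := by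
  simp only [Bm, Bs, Cm, KK, qq]
  ring

lemma id3 (n : ℕ) : KK * Cm n + (X - 1) ^ 4 * Cs n = -X ^ (n + 1) * qq * Dm n := by
  simp only [Cm, Cs, Dm, KK, LL, qq]
  ring

/-! norms on the unit circle -/

lemma conj_eq {z : ℂ} (hz : ‖z‖ = 1) : (starRingEnd ℂ) z = z⁻¹ := by
  rw [Complex.inv_def, Complex.normSq_eq_norm_sq, hz]
  simp

lemma ne_zero_of {z : ℂ} (hz : ‖z‖ = 1) : z ≠ 0 := by
  rintro rfl
  simp at hz

/-- `w = |z - 1|²` -/
noncomputable def ww (z : ℂ) : ℝ := Complex.normSq (z - 1)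

lemma ww_nonneg (z : ℂ) : 0 ≤ ww z := Complex.normSq_nonneg _

lemma ww_eq {z : ℂ} (hz : ‖z‖ = 1) : (ww z : ℂ) * z = -(z - 1) ^ 2 := by
  have h0 := ne_zero_of hz
  rw [ww, ← Complex.mul_conj, map_sub, map_one, conj_eq hz]
  field_simp
  ring

lemma norm_sub_one_sq (z : ℂ) : ‖z - 1‖ ^ 2 = ww z := (Complex.normSq_eq_norm_sq _).symm

lemma norm_two {z : ℂ} (hz : ‖z‖ = 1) : ‖1 - 2 * z‖ ^ 2 = 1 + 2 * ww z := by
  have h0 := ne_zero_of hz
  rw [← Complex.normSq_eq_norm_sq]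
  have : ((Complex.normSq (1 - 2 * z) : ℝ) : ℂ) = ((1 + 2 * ww z : ℝ) : ℂ) := by
    push_cast
    rw [← Complex.mul_conj, map_sub, map_one, map_mul, conj_eq hz,
      show (starRingEnd ℂ) (2 : ℂ) = 2 from Complex.conj_ofNat 2, ww, ← Complex.mul_conj, map_sub,
      map_one, conj_eq hz]
    field_simp
    ring
  exact_mod_cast this

lemma norm_qq {z : ℂ} (hz : ‖z‖ = 1) : ‖z ^ 2 - 3 * z + 1‖ = 1 + ww z := by
  have h1 : z ^ 2 - 3 * z + 1 = -((1 + ww z : ℝ) : ℂ) * z := by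
    have := ww_eq hz
    push_cast
    linear_combination this
  rw [h1, norm_mul, hz, mul_one, norm_neg, Complex.norm_real, Real.norm_eq_abs,
    abs_of_nonneg (by linarith [ww_nonneg z])]

lemma norm_KK {z : ℂ} (hz : ‖z‖ = 1) :
    ‖z ^ 2 - z * (z - 1) ^ 2 + (z - 1) ^ 4‖ = 1 + ww z + ww z ^ 2 := by
  have h1 : z ^ 2 - z * (z - 1) ^ 2 + (z - 1) ^ 4 = ((1 + ww z + ww z ^ 2 : ℝ) : ℂ) * z ^ 2 := by
    have := ww_eq hz
    push_cast
    linear_combination (-z + (z - 1) ^ 2 - (ww z : ℂ) * z) * this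
  have h2 := ww_nonneg z
  rw [h1, norm_mul, norm_pow, hz, one_pow, mul_one, Complex.norm_real, Real.norm_eq_abs,
    abs_of_nonneg (by positivity)]

lemma norm_LL {z : ℂ} (hz : ‖z‖ = 1) :
    ‖z ^ 2 - z * (z - 1) ^ 2 + 2 * (z - 1) ^ 4‖ = 1 + ww z + 2 * ww z ^ 2 := by
  have h1 : z ^ 2 - z * (z - 1) ^ 2 + 2 * (z - 1) ^ 4
      = ((1 + ww z + 2 * ww z ^ 2 : ℝ) : ℂ) * z ^ 2 := by
    have := ww_eq hz
    push_cast
    linear_combination (-z + 2 * (z - 1) ^ 2 - 2 * (ww z : ℂ) * z) * this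
  have h2 := ww_nonneg z
  rw [h1, norm_mul, norm_pow, hz, one_pow, mul_one, Complex.norm_real, Real.norm_eq_abs,
    abs_of_nonneg (by positivity)]

lemma Pstar {z : ℂ} (hz : ‖z‖ = 1) (n : ℕ) : ‖(Ps n).eval z‖ = ‖(Pm n).eval z‖ := by
  have h0 := ne_zero_of hz
  have h : (Ps n).eval z = z ^ (4 * n + 4) * (starRingEnd ℂ) ((Pm n).eval z) := by
    simp only [Pm, Ps, eval_add, eval_mul, eval_sub, eval_pow, eval_X, eval_one, eval_ofNat,
      map_add, map_mul, map_sub, map_pow, map_one, conj_eq hz, Complex.conj_ofNat]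
    have hn : z ^ n ≠ 0 := pow_ne_zero _ h0
    simp only [inv_pow, pow_add, pow_mul', pow_one]
    field_simp
    ring
  rw [h, norm_mul, norm_pow, hz, one_pow, one_mul, Complex.norm_conj]

lemma Bstar {z : ℂ} (hz : ‖z‖ = 1) (n : ℕ) : ‖(Bs n).eval z‖ = ‖(Bm n).eval z‖ := by
  have h0 := ne_zero_of hz
  have h : (Bs n).eval z = z ^ (3 * n + 4) * (starRingEnd ℂ) ((Bm n).eval z) := by
    simp only [Bm, Bs, qq, eval_add, eval_mul, eval_sub, eval_pow, eval_X, eval_one, eval_ofNat,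
      eval_neg, map_neg, map_add, map_mul, map_sub, map_pow, map_one, conj_eq hz,
      Complex.conj_ofNat]
    have hn : z ^ n ≠ 0 := pow_ne_zero _ h0
    simp only [inv_pow, pow_add, pow_mul', pow_one]
    field_simp
    ring
  rw [h, norm_mul, norm_pow, hz, one_pow, one_mul, Complex.norm_conj]

lemma Cstar {z : ℂ} (hz : ‖z‖ = 1) (n : ℕ) : ‖(Cs n).eval z‖ = ‖(Cm n).eval z‖ := by
  have h0 := ne_zero_of hz
  have h : (Cs n).eval z = z ^ (2 * n + 5) * (starRingEnd ℂ) ((Cm n).eval z) := by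
    simp only [Cm, Cs, KK, eval_add, eval_mul, eval_sub, eval_pow, eval_X, eval_one, eval_ofNat,
      map_add, map_mul, map_sub, map_pow, map_one, conj_eq hz, Complex.conj_ofNat]
    have hn : z ^ n ≠ 0 := pow_ne_zero _ h0
    simp only [inv_pow, pow_add, pow_mul', pow_one]
    field_simp
    ring
  rw [h, norm_mul, norm_pow, hz, one_pow, one_mul, Complex.norm_conj]

end Pool.Agent.R341.IrrPisot
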