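import Pool.Agent.R341.IrrPisot

set_option autoImplicit false

namespace Pool.Agent.R341.IrrPisot

open Polynomial Complex Pool.Agent.R341.Rou

lemma lt_of_sq {a b : ℝ} (hb : 0 ≤ b) (h : a ^ 2 < b ^ 2) : a < b :=
  lt_of_pow_lt_pow_left₀ 2 hb h

lemma norm1_lt {z : ℂ} (hz : ‖z‖ = 1) : ‖z - 1‖ < ‖1 - 2 * z‖ := by
  apply lt_of_sq (norm_nonneg _)
  rw [norm_sub_one_sq, norm_two hz]
  linarith [ww_nonneg z]

lemma norm2_lt {z : ℂ} (hz : ‖z‖ = 1) : ‖z - 1‖ < ‖z ^ 2 - 3 * z + 1‖ := by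
  apply lt_of_sq (norm_nonneg _)
  rw [norm_sub_one_sq, norm_qq hz]
  nlinarith [ww_nonneg z]

lemma norm3_lt {z : ℂ} (hz : ‖z‖ = 1) :
    ‖z - 1‖ ^ 4 < ‖z ^ 2 - z * (z - 1) ^ 2 + (z - 1) ^ 4‖ := by
  rw [show ‖z - 1‖ ^ 4 = (‖z - 1‖ ^ 2) ^ 2 by ring, norm_sub_one_sq, norm_KK hz]
  linarith [ww_nonneg z]

lemma norm4_lt {z : ℂ} (hz : ‖z‖ = 1) :
    ‖z - 1‖ < ‖z ^ 2 - z * (z - 1) ^ 2 + 2 * (z - 1) ^ 4‖ := by
  apply lt_of_sq (norm_nonneg _)
  rw [norm_sub_one_sq, norm_LL hz]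
  have h := ww_nonneg z
  nlinarith [mul_nonneg h h, mul_nonneg (mul_nonneg h h) h, mul_nonneg (mul_nonneg h h) (mul_nonneg h h)]

lemma D_ne {z : ℂ} (hz : ‖z‖ = 1) (n : ℕ) : (Dm n).eval z ≠ 0 := by
  intro h
  simp only [Dm, LL, eval_add, eval_mul, eval_sub, eval_pow, eval_X, eval_one, eval_ofNat] at h
  have h1 : (z ^ 2 - z * (z - 1) ^ 2 + 2 * (z - 1) ^ 4) * z ^ (n + 1) = z ^ 2 * (z - 1) := by
    linear_combination h
  have h2 := congrArg norm h1
  rw [norm_mul, norm_mul, norm_pow, norm_pow, hz, one_pow, one_pow, mul_one, one_mul] at h2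
  have := norm4_lt hz
  rw [h2] at this
  exact lt_irrefl _ this

lemma qq_ne {z : ℂ} (hz : ‖z‖ = 1) : z ^ 2 - 3 * z + 1 ≠ 0 := by
  intro h
  have := norm_qq hz
  rw [h, norm_zero] at this
  linarith [ww_nonneg z]

lemma C_ne {z : ℂ} (hz : ‖z‖ = 1) (n : ℕ) : (Cm n).eval z ≠ 0 := by
  intro h
  have h1 := congrArg (eval z) (id3 n)
  have h2 : (Cs n).eval z = 0 := by
    have := Cstar hz n
    rw [h, norm_zero, norm_eq_zero] at this
    exact this
  simp only [eval_add, eval_mul, h, h2, mul_zero, add_zero, eval_neg, eval_pow, eval_X] at h1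
  have h3 : z ^ (n + 1) ≠ 0 := pow_ne_zero _ (ne_zero_of hz)
  have h4 : eval z qq ≠ 0 := by
    simp only [qq, eval_add, eval_mul, eval_sub, eval_pow, eval_X, eval_one, eval_ofNat]
    exact qq_ne hz
  exact (mul_ne_zero (mul_ne_zero (neg_ne_zero.2 h3) h4) (D_ne hz n)) h1.symm

lemma B_ne {z : ℂ} (hz : ‖z‖ = 1) (n : ℕ) : (Bm n).eval z ≠ 0 := by
  intro h
  have h1 := congrArg (eval z) (id2 n)
  have h2 : (Bs n).eval z = 0 := by
    have := Bstar hz n
    rw [h, norm_zero, norm_eq_zero] at this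
    exact this
  simp only [eval_sub, eval_mul, h, h2, mul_zero, sub_zero, eval_pow, eval_X] at h1
  have h3 : z ^ (n + 1) ≠ 0 := pow_ne_zero _ (ne_zero_of hz)
  exact (mul_ne_zero h3 (C_ne hz n)) h1.symm

lemma P_ne {z : ℂ} (hz : ‖z‖ = 1) (n : ℕ) : (Pm n).eval z ≠ 0 := by
  intro h
  have h1 := congrArg (eval z) (id1 n)
  have h2 : (Ps n).eval z = 0 := by
    have := Pstar hz n
    rw [h, norm_zero, norm_eq_zero] at this
    exact this
  simp only [eval_add, eval_mul, h, h2, mul_zero, add_zero, eval_pow, eval_X] at h1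
  have h3 : z ^ (n + 1) ≠ 0 := pow_ne_zero _ (ne_zero_of hz)
  exact (mul_ne_zero h3 (B_ne hz n)) h1.symm

lemma ne_zero_of_eval {f : ℂ[X]} {z : ℂ} (h : f.eval z ≠ 0) : f ≠ 0 := by
  rintro rfl
  simp at h

lemma nz_X_pow (k : ℕ) : nz 1 ((X : ℂ[X]) ^ k) = k := by
  classical
  unfold nz
  rw [roots_X_pow, Multiset.nsmul_singleton]
  rw [Multiset.filter_eq_self.2]
  · simp
  · intro a ha
    rw [Multiset.eq_of_mem_replicate ha]
    simp

lemma nz_neg (f : ℂ[X]) : nz 1 (-f) = nz 1 f := by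
  classical
  unfold nz
  rw [roots_neg]

lemma nz_lin : nz 1 (1 - 2 * X : ℂ[X]) = 1 := by
  classical
  unfold nz
  have h : (1 - 2 * X : ℂ[X]) = C (-2) * (X - C (1 / 2)) := by
    have h2 : (2 : ℂ[X]) = C 2 := (map_ofNat C 2).symm
    rw [h2, mul_sub, ← C_mul]
    norm_num
    ring
  rw [h, roots_C_mul _ (by norm_num), roots_X_sub_C]
  rw [Multiset.filter_singleton, if_pos (by norm_num)]
  simp

/-- the number of zeros of `P_m` in the open unit disc -/
theorem nz_P (n : ℕ) : nz 1 (Pm n) = 4 * n + 3 := by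
  have h1 : (‖(1 : ℂ)‖ : ℝ) = 1 := norm_one
  have hP := P_ne h1 n
  have hB := B_ne h1 n
  have hC := C_ne h1 n
  have hD := D_ne h1 n
  have hq : eval (1 : ℂ) qq ≠ 0 := by
    simp only [qq, eval_add, eval_mul, eval_sub, eval_pow, eval_X, eval_one, eval_ofNat]
    exact qq_ne h1
  have hK : eval (1 : ℂ) KK ≠ 0 := by
    simp only [KK, eval_add, eval_mul, eval_sub, eval_pow, eval_X, eval_one]
    norm_num
  have hL : eval (1 : ℂ) LL ≠ 0 := by
    simp only [LL, eval_add, eval_mul, eval_sub, eval_pow, eval_X, eval_one, eval_ofNat]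
    norm_num
  have hX : eval (1 : ℂ) (X ^ (n + 1) : ℂ[X]) ≠ 0 := by simp
  have hlin : eval (1 : ℂ) (1 - 2 * X : ℂ[X]) ≠ 0 := by
    simp only [eval_sub, eval_mul, eval_X, eval_one, eval_ofNat]
    norm_num
  have mulne : ∀ {f g : ℂ[X]}, eval (1 : ℂ) f ≠ 0 → eval (1 : ℂ) g ≠ 0 → f * g ≠ 0 := by
    intro f g hf hg
    apply ne_zero_of_eval (z := 1)
    rw [eval_mul]
    exact mul_ne_zero hf hg
  -- step 1
  have r1 : nz 1 ((1 - 2 * X) * Pm n) = nz 1 (X ^ (n + 1) * Bm n) := by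
    apply rouche one_pos
    intro z hz
    have e : eval z ((1 - 2 * X) * Pm n) - eval z (X ^ (n + 1) * Bm n) = -((z - 1) * (Ps n).eval z) := by
      rw [← id1]
      simp only [eval_add, eval_mul, eval_sub, eval_X, eval_one]
      ring
    rw [e, norm_neg, norm_mul, Pstar hz, eval_mul, norm_mul]
    apply mul_lt_mul_of_pos_right _ (norm_pos_iff.2 (P_ne hz n))
    simpa using norm1_lt hz
  rw [nz_mul (mulne hlin hP), nz_mul (mulne hX hB), nz_lin, nz_X_pow] at r1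
  -- step 2
  have r2 : nz 1 (-qq * Bm n) = nz 1 (X ^ (n + 1) * Cm n) := by
    apply rouche one_pos
    intro z hz
    have e : eval z (-qq * Bm n) - eval z (X ^ (n + 1) * Cm n) = z * (z - 1) * (Bs n).eval z := by
      rw [← id2]
      simp only [eval_mul, eval_sub, eval_X, eval_one]
      ring
    rw [e, norm_mul, norm_mul, hz, one_mul, Bstar hz, eval_mul, norm_mul]
    apply mul_lt_mul_of_pos_right _ (norm_pos_iff.2 (B_ne hz n))
    rw [eval_neg, norm_neg]
    simpa [qq] using norm2_lt hz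
  have hq' : eval (1 : ℂ) (-qq) ≠ 0 := by rw [eval_neg]; exact neg_ne_zero.2 hq
  rw [nz_mul (mulne hq' hB), nz_mul (mulne hX hC), nz_neg, nz_X_pow] at r2
  -- step 3
  have r3 : nz 1 (KK * Cm n) = nz 1 (-X ^ (n + 1) * qq * Dm n) := by
    apply rouche one_pos
    intro z hz
    have e : eval z (KK * Cm n) - eval z (-X ^ (n + 1) * qq * Dm n)
        = -((z - 1) ^ 4 * (Cs n).eval z) := by
      rw [← id3]
      simp only [eval_add, eval_mul, eval_sub, eval_X, eval_one, eval_pow]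
      ring
    rw [e, norm_neg, norm_mul, norm_pow, Cstar hz, eval_mul, norm_mul]
    apply mul_lt_mul_of_pos_right _ (norm_pos_iff.2 (C_ne hz n))
    simpa [KK] using norm3_lt hz
  have hX' : eval (1 : ℂ) (-X ^ (n + 1) : ℂ[X]) ≠ 0 := by rw [eval_neg]; exact neg_ne_zero.2 hX
  rw [nz_mul (mulne hK hC), nz_mul (by
      apply ne_zero_of_eval (z := 1)
      rw [eval_mul, eval_mul]
      exact mul_ne_zero (mul_ne_zero hX' hq) hD), nz_mul (mulne hX' hq), nz_neg, nz_X_pow] at r3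
  -- step 4
  have r4 : nz 1 (LL * X ^ (n + 1)) = nz 1 (Dm n) := by
    apply rouche one_pos
    intro z hz
    have e : eval z (LL * X ^ (n + 1)) - eval z (Dm n) = z ^ 2 * (z - 1) := by
      simp only [Dm, eval_mul, eval_sub, eval_X, eval_one, eval_pow]
      ring
    rw [e, norm_mul, norm_pow, hz, one_pow, one_mul, eval_mul, norm_mul, eval_pow, eval_X, norm_pow,
      hz, one_pow, mul_one]
    simpa [LL] using norm4_lt hz
  rw [nz_mul (mulne hL hX), nz_X_pow] at r4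
  -- step 5
  have r5 : nz 1 KK = nz 1 LL := by
    apply rouche one_pos
    intro z hz
    have e : eval z KK - eval z LL = -((z - 1) ^ 4) := by
      simp only [KK, LL, eval_add, eval_mul, eval_sub, eval_X, eval_one, eval_pow, eval_ofNat]
      ring
    rw [e, norm_neg, norm_pow]
    simpa [KK] using norm3_lt hz
  omega

end Pool.Agent.R341.IrrPisot
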