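import Pool.Agent.R341.IrrPisot2

set_option autoImplicit false

namespace Pool.Agent.R341.IrrPisot

open Polynomial Pool.Agent.R341.Rou

/-- `P_m`, `m = n + 1`, over the integers -/
noncomputable def PZ (n : ℕ) : ℤ[X] :=
  X ^ (4 * n + 3) * (X - 2) + (X - 1) *
    (X ^ (3 * n + 2) - X ^ (2 * n + 2) + X ^ (2 * n + 1) - X ^ (n + 1) - 1)

lemma PZ_map (n : ℕ) : (PZ n).map (Int.castRingHom ℂ) = Pm n := by
  simp [PZ, Pm]

lemma PZ_form (n : ℕ) : ∃ Q : ℤ[X], PZ n = X ^ (4 * n + 4) + Q ∧ Q.degree < (4 * n + 4 : ℕ) := by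
  refine ⟨-(2 * X ^ (4 * n + 3)) + (X ^ (3 * n + 3) - X ^ (3 * n + 2)) +
    -(X ^ (2 * n + 3) - X ^ (2 * n + 2)) + (X ^ (2 * n + 2) - X ^ (2 * n + 1)) +
    -(X ^ (n + 2) - X ^ (n + 1)) + -(X - 1), ?_, ?_⟩
  · rw [PZ]; ring
  · have hX : ∀ k : ℕ, k < 4 * n + 4 → ((X : ℤ[X]) ^ k).degree < (4 * n + 4 : ℕ) := by
      intro k hk
      rw [degree_X_pow]
      exact_mod_cast hk
    have hadd : ∀ {f g : ℤ[X]}, f.degree < (4 * n + 4 : ℕ) → g.degree < (4 * n + 4 : ℕ) →
        (f + g).degree < (4 * n + 4 : ℕ) := fun hf hg =>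
      lt_of_le_of_lt (degree_add_le _ _) (max_lt hf hg)
    have hneg : ∀ {f : ℤ[X]}, f.degree < (4 * n + 4 : ℕ) → (-f).degree < (4 * n + 4 : ℕ) :=
      fun hf => by rw [degree_neg]; exact hf
    have hsub : ∀ {f g : ℤ[X]}, f.degree < (4 * n + 4 : ℕ) → g.degree < (4 * n + 4 : ℕ) →
        (f - g).degree < (4 * n + 4 : ℕ) := fun hf hg =>
      lt_of_le_of_lt (degree_sub_le _ _) (max_lt hf hg)
    have h2 : (2 * X ^ (4 * n + 3) : ℤ[X]).degree < (4 * n + 4 : ℕ) := by
      rw [two_mul]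
      exact hadd (hX _ (by omega)) (hX _ (by omega))
    have h1 : (X - 1 : ℤ[X]).degree < (4 * n + 4 : ℕ) := by
      have := hsub (hX 1 (by omega)) (hX 0 (by omega))
      simpa using this
    exact hadd (hadd (hadd (hadd (hadd (hneg h2) (hsub (hX _ (by omega)) (hX _ (by omega))))
      (hneg (hsub (hX _ (by omega)) (hX _ (by omega))))) (hsub (hX _ (by omega)) (hX _ (by omega))))
      (hneg (hsub (hX _ (by omega)) (hX _ (by omega))))) (hneg h1)

lemma PZ_monic (n : ℕ) : (PZ n).Monic := by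
  obtain ⟨Q, h, hQ⟩ := PZ_form n
  rw [h]
  exact monic_X_pow_add (n := 4 * n + 4) hQ

lemma PZ_natDegree (n : ℕ) : (PZ n).natDegree = 4 * n + 4 := by
  obtain ⟨Q, h, hQ⟩ := PZ_form n
  rw [h]
  apply natDegree_eq_of_degree_eq_some
  rw [degree_add_eq_left_of_degree_lt (by rw [degree_X_pow]; exact hQ), degree_X_pow]

lemma Pm_ne (n : ℕ) : Pm n ≠ 0 := by
  rw [← PZ_map]
  exact ((PZ_monic n).map _).ne_zero

lemma Pm_roots_card (n : ℕ) : Multiset.card (Pm n).roots = 4 * n + 4 := by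
  rw [IsAlgClosed.card_roots_eq_natDegree, ← PZ_map, (PZ_monic n).natDegree_map, PZ_natDegree]

/-- exactly one root outside the open unit disc -/
lemma out_card (n : ℕ) :
    (by classical exact ((Pm n).roots.filter (fun z => ¬ ‖z‖ < 1)).card : ℕ) = 1 := by
  classical
  have h1 := nz_P n
  unfold nz at h1
  have h2 := Multiset.filter_add_not (fun z : ℂ => ‖z‖ < 1) (Pm n).roots
  have h3 := congrArg Multiset.card h2
  rw [Multiset.card_add, Pm_roots_card] at h3
  have h4 : Multiset.card ((Pm n).roots.filter (fun z : ℂ => ‖z‖ < 1)) = 4 * n + 3 := by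
    convert h1
  omega

/-- the roots different from `β` lie in the open unit disc -/
lemma norm_lt_of_root {n : ℕ} {β : ℝ} (hβ1 : 1 < β) (hβ : (Pm n).eval (β : ℂ) = 0) {z : ℂ}
    (hz : (Pm n).eval z = 0) (hne : z ≠ β) : ‖z‖ < 1 := by
  classical
  by_contra hlt
  have h1 := out_card n
  obtain ⟨a, ha⟩ := Multiset.card_eq_one.1 h1
  have hβn : ¬ ‖(β : ℂ)‖ < 1 := by
    rw [Complex.norm_real, Real.norm_eq_abs, abs_of_pos (by linarith)]
    linarith
  have m1 : (β : ℂ) ∈ (Pm n).roots.filter (fun z => ¬ ‖z‖ < 1) :=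
    Multiset.mem_filter.2 ⟨(mem_roots (Pm_ne n)).2 hβ, hβn⟩
  have m2 : z ∈ (Pm n).roots.filter (fun z => ¬ ‖z‖ < 1) :=
    Multiset.mem_filter.2 ⟨(mem_roots (Pm_ne n)).2 hz, hlt⟩
  have ha' : (Pm n).roots.filter (fun z => ¬ ‖z‖ < 1) = {a} := by convert ha
  rw [ha', Multiset.mem_singleton] at m1 m2
  exact hne (m2.trans m1.symm)

/-- `β` is a simple root -/
lemma count_root {n : ℕ} {β : ℝ} (hβ1 : 1 < β) : (Pm n).roots.count (β : ℂ) ≤ 1 := by
  classical
  have h1 := out_card n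
  have hβn : ¬ ‖(β : ℂ)‖ < 1 := by
    rw [Complex.norm_real, Real.norm_eq_abs, abs_of_pos (by linarith)]
    linarith
  have h2 : Multiset.count (β : ℂ) ((Pm n).roots.filter (fun z => ¬ ‖z‖ < 1))
      = (Pm n).roots.count (β : ℂ) := Multiset.count_filter_of_pos hβn
  rw [← h2]
  refine (Multiset.count_le_card _ _).trans ?_
  rw [← h1]

lemma prod_norm_lt {s : Multiset ℂ} (hs : ∀ z ∈ s, ‖z‖ < 1) (h0 : s ≠ 0) :
    ‖(s.map (fun a => (0 : ℂ) - a)).prod‖ < 1 := by
  induction s using Multiset.induction_on with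
  | empty => exact absurd rfl h0
  | cons a s ih =>
    rw [Multiset.map_cons, Multiset.prod_cons, norm_mul, zero_sub, norm_neg]
    have ha := hs a (Multiset.mem_cons_self a s)
    have hs' : ∀ z ∈ s, ‖z‖ < 1 := fun z hz => hs z (Multiset.mem_cons_of_mem hz)
    by_cases h : s = 0
    · subst h; simpa using ha
    · have := ih hs' h
      have h1 := norm_nonneg ((s.map (fun a => (0 : ℂ) - a)).prod)
      nlinarith [norm_nonneg a]

/-- the minimal polynomial -/
theorem minpoly_eq {n : ℕ} {β : ℝ} (hβ1 : 1 < β) (hβ : aeval β (PZ n) = 0) :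
    minpoly ℤ β = PZ n := by
  classical
  have hint : IsIntegral ℤ β := ⟨PZ n, PZ_monic n, by simpa [aeval_def] using hβ⟩
  have hdvd : minpoly ℤ β ∣ PZ n := minpoly.isIntegrallyClosed_dvd hint hβ
  obtain ⟨g, hg⟩ := hdvd
  have hmon := minpoly.monic hint
  have hgm : g.Monic := by
    have h1 := PZ_monic n
    rw [hg] at h1
    exact hmon.of_mul_monic_left h1
  -- roots of g lie in the disc
  have hmap : Pm n = (minpoly ℤ β).map (Int.castRingHom ℂ) * g.map (Int.castRingHom ℂ) := by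
    rw [← PZ_map, hg, Polynomial.map_mul]
  have hβC : ((minpoly ℤ β).map (Int.castRingHom ℂ)).eval (β : ℂ) = 0 := by
    have h1 : aeval β (minpoly ℤ β) = 0 := minpoly.aeval ℤ β
    have h2 : aeval (β : ℂ) (minpoly ℤ β) = ((aeval β (minpoly ℤ β) : ℝ) : ℂ) := by
      have := Polynomial.aeval_algebraMap_apply ℂ β (minpoly ℤ β)
      simpa using this
    rw [h1] at h2
    rw [eval_map]
    simpa [aeval_def] using h2
  have hPβ : (Pm n).eval (β : ℂ) = 0 := by rw [hmap, eval_mul, hβC, zero_mul]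
  have hcount := count_root (n := n) hβ1
  have hne0 : (minpoly ℤ β).map (Int.castRingHom ℂ) * g.map (Int.castRingHom ℂ) ≠ 0 := by
    rw [← hmap]; exact Pm_ne n
  have hroots : (Pm n).roots = ((minpoly ℤ β).map (Int.castRingHom ℂ)).roots
      + (g.map (Int.castRingHom ℂ)).roots := by
    rw [hmap]; exact roots_mul hne0
  have hmin_ne : (minpoly ℤ β).map (Int.castRingHom ℂ) ≠ 0 := (hmon.map _).ne_zero
  have hg_ne : g.map (Int.castRingHom ℂ) ≠ 0 := (hgm.map _).ne_zero
  have hβg : (β : ℂ) ∉ (g.map (Int.castRingHom ℂ)).roots := by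
    intro hmem
    rw [hroots, Multiset.count_add] at hcount
    have c1 : 1 ≤ Multiset.count (β : ℂ) ((minpoly ℤ β).map (Int.castRingHom ℂ)).roots :=
      Multiset.one_le_count_iff_mem.2 ((mem_roots hmin_ne).2 hβC)
    have c2 : 1 ≤ Multiset.count (β : ℂ) (g.map (Int.castRingHom ℂ)).roots :=
      Multiset.one_le_count_iff_mem.2 hmem
    omega
  have hgr : ∀ z ∈ (g.map (Int.castRingHom ℂ)).roots, ‖z‖ < 1 := by
    intro z hz
    apply norm_lt_of_root hβ1 hPβ
    · rw [hmap, eval_mul]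
      have : (g.map (Int.castRingHom ℂ)).eval z = 0 := (mem_roots hg_ne).1 hz
      rw [this, mul_zero]
    · rintro rfl
      exact hβg hz
  -- g = 1
  have hg0 : (g.map (Int.castRingHom ℂ)).roots = 0 := by
    by_contra h0
    have h1 := prod_norm_lt hgr h0
    have h2 : g.map (Int.castRingHom ℂ)
        = ((g.map (Int.castRingHom ℂ)).roots.map (fun a => X - C a)).prod := by
      have hs := IsAlgClosed.splits (g.map (Int.castRingHom ℂ))
      have := hs.eq_prod_roots
      rw [(hgm.map _).leadingCoeff, C_1, one_mul] at this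
      exact this
    have h3 : (g.map (Int.castRingHom ℂ)).eval 0
        = ((g.map (Int.castRingHom ℂ)).roots.map (fun a => (0 : ℂ) - a)).prod := by
      conv_lhs => rw [h2]
      rw [eval_multiset_prod, Multiset.map_map]
      congr 1
      apply Multiset.map_congr rfl
      intro a _
      simp
    rw [← h3] at h1
    have h4 : (g.map (Int.castRingHom ℂ)).eval 0 = ((g.eval 0 : ℤ) : ℂ) := by
      have := eval_intCast_map (Int.castRingHom ℂ) g 0
      simpa using this
    rw [h4, Complex.norm_intCast] at h1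
    have h5 : |g.eval 0| < 1 := by exact_mod_cast h1
    rw [Int.abs_lt_one_iff] at h5
    have h6 := congrArg (eval (0 : ℤ)) hg
    rw [eval_mul, h5, mul_zero] at h6
    simp [PZ] at h6
  have hgd : g.natDegree = 0 := by
    have h1 := IsAlgClosed.card_roots_eq_natDegree (p := g.map (Int.castRingHom ℂ))
    rw [hg0, Multiset.card_zero, hgm.natDegree_map] at h1
    exact h1.symm
  have hg1 : g = 1 := eq_one_of_monic_natDegree_zero hgm hgd
  rw [hg, hg1, mul_one]

end Pool.Agent.R341.IrrPisot
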