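import Pool.Agent.R341.IrrPisot3

set_option autoImplicit false

namespace Pool.Agent.R341.IrrPisot

open Polynomial

/-- the real function -/
noncomputable def pf (n : ℕ) (x : ℝ) : ℝ :=
  x ^ (4 * n + 3) * (x - 2) + (x - 1) *
    (x ^ (3 * n + 2) - x ^ (2 * n + 2) + x ^ (2 * n + 1) - x ^ (n + 1) - 1)

lemma aeval_PZ (n : ℕ) (x : ℝ) : aeval x (PZ n) = pf n x := by
  have h2 : aeval x (2 : ℤ[X]) = 2 := map_ofNat _ 2
  simp [PZ, pf, h2]

/-- existence of the root in `(1.933, 2)` for `n ≥ 10` -/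
lemma exists_root {n : ℕ} (hn : 10 ≤ n) : ∃ β : ℝ, 1.933 < β ∧ β < 2 ∧ pf n β = 0 := by
  have hc : Continuous (pf n) := by unfold pf; fun_prop
  have h2 : 0 < pf n 2 := by
    unfold pf
    have e1 : (2 : ℝ) ^ (3 * n + 2) = 4 * (2 ^ n) ^ 3 := by ring
    have e2 : (2 : ℝ) ^ (2 * n + 2) = 4 * (2 ^ n) ^ 2 := by ring
    have e3 : (2 : ℝ) ^ (2 * n + 1) = 2 * (2 ^ n) ^ 2 := by ring
    have e4 : (2 : ℝ) ^ (n + 1) = 2 * 2 ^ n := by ring
    rw [e1, e2, e3, e4]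
    have h : (8 : ℝ) ≤ 2 ^ n := by
      calc (8 : ℝ) = 2 ^ 3 := by norm_num
        _ ≤ 2 ^ n := pow_le_pow_right₀ (by norm_num) (by omega)
    generalize (2 : ℝ) ^ n = y at h
    nlinarith [mul_pos (show (0 : ℝ) < y by linarith) (show (0 : ℝ) < y by linarith),
      mul_pos (mul_pos (show (0 : ℝ) < y by linarith) (show (0 : ℝ) < y by linarith))
      (show (0 : ℝ) < y by linarith)]
  have h1 : pf n 1.933 < 0 := by
    unfold pf
    have e0 : (1.933 : ℝ) ^ (4 * n + 3) = 1.933 ^ 3 * (1.933 ^ n) ^ 4 := by ring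
    have e1 : (1.933 : ℝ) ^ (3 * n + 2) = 1.933 ^ 2 * (1.933 ^ n) ^ 3 := by ring
    have e2 : (1.933 : ℝ) ^ (2 * n + 2) = 1.933 ^ 2 * (1.933 ^ n) ^ 2 := by ring
    have e3 : (1.933 : ℝ) ^ (2 * n + 1) = 1.933 * (1.933 ^ n) ^ 2 := by ring
    have e4 : (1.933 : ℝ) ^ (n + 1) = 1.933 * 1.933 ^ n := by ring
    rw [e0, e1, e2, e3, e4]
    have h : (100 : ℝ) ≤ 1.933 ^ n := by
      calc (100 : ℝ) ≤ 1.933 ^ 10 := by norm_num
        _ ≤ 1.933 ^ n := pow_le_pow_right₀ (by norm_num) hn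
    generalize (1.933 : ℝ) ^ n = y at h
    have hy3 : 0 < y ^ 3 := by positivity
    have hy2 : 0 < y ^ 2 := by positivity
    nlinarith [mul_le_mul_of_nonneg_right h hy3.le]
  obtain ⟨β, hβ, h0⟩ := intermediate_value_Ioo (show (1.933 : ℝ) ≤ 2 by norm_num) hc.continuousOn
    (show (0 : ℝ) ∈ Set.Ioo (pf n 1.933) (pf n 2) from ⟨h1, h2⟩)
  exact ⟨β, hβ.1, hβ.2, h0⟩

/-- a root in `(0, 1)` -/
lemma exists_small_root (n : ℕ) : ∃ γ : ℝ, 0 < γ ∧ γ < 1 ∧ pf n γ = 0 := by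
  have hc : Continuous (pf n) := by unfold pf; fun_prop
  have h0 : pf n 0 = 1 := by simp [pf]
  have h1 : pf n 1 = -1 := by simp [pf]; norm_num
  obtain ⟨γ, hγ, hγ0⟩ := intermediate_value_Ioo' (show (0 : ℝ) ≤ 1 by norm_num) hc.continuousOn
    (show (0 : ℝ) ∈ Set.Ioo (pf n 1) (pf n 0) by rw [h0, h1]; constructor <;> norm_num)
  exact ⟨γ, hγ.1, hγ.2, hγ0⟩

/-- the `β`-transformation -/
noncomputable def Tb (β x : ℝ) : ℝ := Int.fract (β * x)

/-- simple Parry numbers -/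
def SimpleParry (β : ℝ) : Prop := ∃ k : ℕ, 1 ≤ k ∧ (Tb β)^[k] 1 = 0

/-- a simple Parry number has no other positive conjugate: the polynomial of its expansion -/
lemma parry_poly {β : ℝ} (hβ : 1 < β) (k : ℕ) :
    ∃ D : ℤ[X], aeval β D = (Tb β)^[k] 1 ∧
      ∀ x : ℝ, 0 < x → x < β → aeval x D * β ^ k ≤ aeval β D * x ^ k ∧
        (1 ≤ k → aeval x D * β ^ k < aeval β D * x ^ k) := by
  induction k with
  | zero =>
    refine ⟨1, by simp, fun x hx hxβ => ⟨by simp, fun h => absurd h (by norm_num)⟩⟩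
  | succ k ih =>
    obtain ⟨D, hD, hineq⟩ := ih
    have hnn : 0 ≤ (Tb β)^[k] 1 := by
      rcases Nat.eq_zero_or_pos k with rfl | hk
      · simp
      · obtain ⟨j, rfl⟩ : ∃ j, k = j + 1 := ⟨k - 1, by omega⟩
        rw [Function.iterate_succ_apply']
        exact Int.fract_nonneg _
    have hd0 : 0 ≤ ⌊β * (Tb β)^[k] 1⌋ := Int.floor_nonneg.2 (mul_nonneg (by linarith) hnn)
    refine ⟨X * D - C ⌊β * (Tb β)^[k] 1⌋, ?_, ?_⟩
    · rw [Function.iterate_succ_apply', Tb, Int.fract, ← hD]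
      simp
    · intro x hx hxβ
      obtain ⟨i1, i2⟩ := hineq x hx hxβ
      have hd0' : (0 : ℝ) ≤ (⌊β * (Tb β)^[k] 1⌋ : ℝ) := by exact_mod_cast hd0
      generalize hdd : ((⌊β * (Tb β)^[k] 1⌋ : ℤ) : ℝ) = d at hd0'
      have ex : aeval x (X * D - C ⌊β * (Tb β)^[k] 1⌋) = x * aeval x D - d := by
        rw [← hdd]; simp
      have eβ : aeval β (X * D - C ⌊β * (Tb β)^[k] 1⌋) = β * aeval β D - d := by
        rw [← hdd]; simp
      rw [ex, eβ]
      have hpow : x ^ (k + 1) < β ^ (k + 1) := pow_lt_pow_left₀ hxβ hx.le (by omega)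
      have hxβ' : 0 < x * β := by positivity
      have e1 : (x * aeval x D - d) * β ^ (k + 1) = x * β * (aeval x D * β ^ k) - d * β ^ (k + 1) := by
        ring
      have e2 : (β * aeval β D - d) * x ^ (k + 1) = x * β * (aeval β D * x ^ k) - d * x ^ (k + 1) := by
        ring
      rw [e1, e2]
      have h1 := mul_le_mul_of_nonneg_left i1 hxβ'.le
      have h2 := mul_le_mul_of_nonneg_left hpow.le hd0'
      refine ⟨by linarith, fun _ => ?_⟩
      rcases Nat.eq_zero_or_pos k with rfl | hk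
      · -- first digit is at least one
        have hd1 : (1 : ℝ) ≤ d := by
          rw [← hdd]
          have : (1 : ℤ) ≤ ⌊β * (Tb β)^[0] 1⌋ := by
            rw [Int.le_floor]
            simp
            exact hβ.le
          exact_mod_cast this
        have h3 : d * x ^ (0 + 1) < d * β ^ (0 + 1) := mul_lt_mul_of_pos_left hpow (by linarith)
        linarith
      · have h3 := mul_lt_mul_of_pos_left (i2 hk) hxβ'
        linarith

theorem not_simple {n : ℕ} {β : ℝ} (hβ1 : 1 < β) (hβ : pf n β = 0) : ¬ SimpleParry β := by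
  rintro ⟨k, hk, h0⟩
  obtain ⟨D, hD, hineq⟩ := parry_poly hβ1 k
  obtain ⟨γ, hγ0, hγ1, hγ⟩ := exists_small_root n
  have hβ' : aeval β (PZ n) = 0 := by rw [aeval_PZ]; exact hβ
  have hint : IsIntegral ℤ β := ⟨PZ n, PZ_monic n, by simpa [aeval_def] using hβ'⟩
  rw [h0] at hD
  have hdvd : PZ n ∣ D := by
    rw [← minpoly_eq hβ1 hβ']
    exact minpoly.isIntegrallyClosed_dvd hint hD
  have h1 : aeval γ D = 0 := by
    obtain ⟨g, rfl⟩ := hdvd
    rw [map_mul, aeval_PZ, hγ, zero_mul]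
  have h2 := (hineq γ hγ0 (by linarith)).2 hk
  rw [h1, hD, zero_mul, zero_mul] at h2
  exact lt_irrefl _ h2

/-- Pisot numbers -/
def IsPisot (q : ℝ) : Prop :=
  1 < q ∧ IsIntegral ℤ q ∧ ∀ z : ℂ, aeval z (minpoly ℚ q) = 0 → z ≠ (q : ℂ) → ‖z‖ < 1

lemma minpolyQ {n : ℕ} {β : ℝ} (hβ1 : 1 < β) (hβ : pf n β = 0) :
    minpoly ℚ β = (PZ n).map (Int.castRingHom ℚ) := by
  have hβ' : aeval β (PZ n) = 0 := by rw [aeval_PZ]; exact hβ
  have hint : IsIntegral ℤ β := ⟨PZ n, PZ_monic n, by simpa [aeval_def] using hβ'⟩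
  have h := minpoly.isIntegrallyClosed_eq_field_fractions' ℚ hint
  rw [minpoly_eq hβ1 hβ'] at h
  rw [h]
  rfl

theorem isPisot {n : ℕ} {β : ℝ} (hβ1 : 1 < β) (hβ : pf n β = 0) : IsPisot β := by
  have hβ' : aeval β (PZ n) = 0 := by rw [aeval_PZ]; exact hβ
  refine ⟨hβ1, ⟨PZ n, PZ_monic n, by simpa [aeval_def] using hβ'⟩, ?_⟩
  intro z hz hne
  rw [minpolyQ hβ1 hβ] at hz
  have key : ∀ w : ℂ, aeval w ((PZ n).map (Int.castRingHom ℚ)) = (Pm n).eval w := by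
    intro w
    rw [← PZ_map, eval_map, aeval_def, eval₂_map]
    congr 1
  have hβC : (Pm n).eval (β : ℂ) = 0 := by
    have h1 : (Pm n).eval (β : ℂ) = ((pf n β : ℝ) : ℂ) := by
      simp [Pm, pf]
    rw [h1, hβ]; simp
  exact norm_lt_of_root hβ1 hβC (by rw [← key]; exact hz) hne

theorem degree_eq {n : ℕ} {β : ℝ} (hβ1 : 1 < β) (hβ : pf n β = 0) :
    (minpoly ℚ β).natDegree = 4 * n + 4 := by
  rw [minpolyQ hβ1 hβ, (PZ_monic n).natDegree_map, PZ_natDegree]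

end Pool.Agent.R341.IrrPisot
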