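import Pool.Agent.R341.IrrPisot4

set_option autoImplicit false

namespace Pool.Agent.R341.IrrPisot

open Polynomial

/-- `Φ_r = x^(r+1) - 2x^r + x - 1` -/
noncomputable def Phi (r : ℕ) : ℤ[X] := X ^ (r + 1) - 2 * X ^ r + X - 1

/-- `Ψ_r = x^(r+1) - x^r - … - x - 1` -/
noncomputable def Psi (r : ℕ) : ℤ[X] := X ^ (r + 1) - ∑ i ∈ Finset.range (r + 1), X ^ i

/-- `X(x) = x⁴ - x³ - 2x² + 1` -/
noncomputable def Chi : ℤ[X] := X ^ 4 - X ^ 3 - 2 * X ^ 2 + 1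

/-- the polynomials which define the limit points and the regular Pisot numbers -/
def Listed (R : ℤ[X]) : Prop :=
  (∃ r, 1 ≤ r ∧ (R = Phi r ∨ R = Psi r)) ∨ R = Chi ∨
  (∃ r n : ℕ, ∃ e : ℤ, 1 ≤ r ∧ (e = 1 ∨ e = -1) ∧
    (R = Phi r * X ^ n + C e * (X ^ r - X ^ (r - 1) + 1) ∨
     R = Phi r * X ^ n + C e * (X ^ r - X + 1) ∨
     R = Phi r * X ^ n + C e * ((X ^ r + 1) * (X - 1)) ∨
     R = Psi r * X ^ n + C e * (X ^ (r + 1) - 1) ∨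
     R = Psi r * X ^ n + C e * ∑ i ∈ Finset.range r, X ^ i)) ∨
  (∃ n : ℕ, ∃ e : ℤ, (e = 1 ∨ e = -1) ∧
    (R = Chi * X ^ n + C e * (X ^ 3 + X ^ 2 - X - 1) ∨
     R = Chi * X ^ n + C e * (X ^ 4 - X ^ 2 + 1)))

section
variable {F : Type*} [CommRing F] (a : F)

lemma ae_two : aeval a (2 : ℤ[X]) = 2 := map_ofNat _ 2

lemma ae_Phi (r : ℕ) : aeval a (Phi r) = a ^ r * (a - 2) + a - 1 := by
  simp only [Phi, map_add, map_sub, map_mul, map_pow, aeval_X, map_one, ae_two]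
  ring

lemma ae_Psi (r : ℕ) : (a - 1) * aeval a (Psi r) = a ^ r * (a * (a - 2)) + 1 := by
  simp only [Psi, map_sub, map_pow, aeval_X, map_sum]
  rw [mul_sub, mul_geom_sum]
  ring

lemma ae_sum (r : ℕ) : (a - 1) * aeval a (∑ i ∈ Finset.range r, (X : ℤ[X]) ^ i) = a ^ r - 1 := by
  simp only [map_pow, aeval_X, map_sum]
  rw [mul_geom_sum]

lemma ae_Chi : aeval a Chi = a ^ 4 - a ^ 3 - 2 * a ^ 2 + 1 := by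
  simp only [Chi, map_add, map_sub, map_mul, map_pow, aeval_X, map_one, ae_two]

lemma powmod {a : F} (h : a ^ 3 = 1) (k : ℕ) : a ^ k = a ^ (k % 3) := by
  conv_lhs => rw [← Nat.div_add_mod k 3, pow_add, pow_mul, h, one_pow, one_mul]

end

lemma ae_PZ {F : Type*} [CommRing F] (a : F) (n : ℕ) : aeval a (PZ n) =
    a ^ (4 * n + 3) * (a - 2) + (a - 1) *
    (a ^ (3 * n + 2) - a ^ (2 * n + 2) + a ^ (2 * n + 1) - a ^ (n + 1) - 1) := by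
  simp only [PZ, map_add, map_sub, map_mul, map_pow, aeval_X, map_one, ae_two]

lemma h313 : (3 : ZMod 13) ^ 3 = 1 := by decide
lemma h47 : (4 : ZMod 7) ^ 3 = 1 := by decide

lemma PZ13 (j : ℕ) : aeval (3 : ZMod 13) (PZ (3 * j + 2)) = 0 := by
  rw [ae_PZ, powmod h313 (4 * (3 * j + 2) + 3), powmod h313 (3 * (3 * j + 2) + 2),
    powmod h313 (2 * (3 * j + 2) + 2), powmod h313 (2 * (3 * j + 2) + 1),
    powmod h313 (3 * j + 2 + 1)]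
  have e1 : (4 * (3 * j + 2) + 3) % 3 = 2 := by omega
  have e2 : (3 * (3 * j + 2) + 2) % 3 = 2 := by omega
  have e3 : (2 * (3 * j + 2) + 2) % 3 = 0 := by omega
  have e4 : (2 * (3 * j + 2) + 1) % 3 = 2 := by omega
  have e5 : (3 * j + 2 + 1) % 3 = 0 := by omega
  rw [e1, e2, e3, e4, e5]
  decide

lemma PZ7 (j : ℕ) : aeval (4 : ZMod 7) (PZ (3 * j + 2)) = 0 := by
  rw [ae_PZ, powmod h47 (4 * (3 * j + 2) + 3), powmod h47 (3 * (3 * j + 2) + 2),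
    powmod h47 (2 * (3 * j + 2) + 2), powmod h47 (2 * (3 * j + 2) + 1),
    powmod h47 (3 * j + 2 + 1)]
  have e1 : (4 * (3 * j + 2) + 3) % 3 = 2 := by omega
  have e2 : (3 * (3 * j + 2) + 2) % 3 = 2 := by omega
  have e3 : (2 * (3 * j + 2) + 2) % 3 = 0 := by omega
  have e4 : (2 * (3 * j + 2) + 1) % 3 = 2 := by omega
  have e5 : (3 * j + 2 + 1) % 3 = 0 := by omega
  rw [e1, e2, e3, e4, e5]
  decide

/-- finite verifications -/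
lemma chkPhi : ∀ i : Fin 3, (3 : ZMod 13) ^ (i : ℕ) * (3 - 2) + 3 - 1 ≠ 0 := by decide

lemma chkPsi : ∀ i : Fin 3, (3 : ZMod 13) ^ (i : ℕ) * (3 * (3 - 2)) + 1 ≠ 0 := by decide

lemma chkA1 : ∀ i j : Fin 3, ∀ s : Bool,
    ((3 : ZMod 13) ^ (i : ℕ) * 3 * (3 - 2) + 3 - 1) * 3 ^ (j : ℕ)
      + (if s then 1 else -1) * (3 ^ (i : ℕ) * 3 - 3 ^ (i : ℕ) + 1) ≠ 0 ∨
    ((4 : ZMod 7) ^ (i : ℕ) * 4 * (4 - 2) + 4 - 1) * 4 ^ (j : ℕ)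
      + (if s then 1 else -1) * (4 ^ (i : ℕ) * 4 - 4 ^ (i : ℕ) + 1) ≠ 0 := by decide

lemma chkA2 : ∀ i j : Fin 3, ∀ s : Bool,
    ((3 : ZMod 13) ^ (i : ℕ) * (3 - 2) + 3 - 1) * 3 ^ (j : ℕ)
      + (if s then 1 else -1) * (3 ^ (i : ℕ) - 3 + 1) ≠ 0 ∨
    ((4 : ZMod 7) ^ (i : ℕ) * (4 - 2) + 4 - 1) * 4 ^ (j : ℕ)
      + (if s then 1 else -1) * (4 ^ (i : ℕ) - 4 + 1) ≠ 0 := by decide

lemma chkA3 : ∀ i j : Fin 3, ∀ s : Bool,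
    ((3 : ZMod 13) ^ (i : ℕ) * (3 - 2) + 3 - 1) * 3 ^ (j : ℕ)
      + (if s then 1 else -1) * ((3 ^ (i : ℕ) + 1) * (3 - 1)) ≠ 0 ∨
    ((4 : ZMod 7) ^ (i : ℕ) * (4 - 2) + 4 - 1) * 4 ^ (j : ℕ)
      + (if s then 1 else -1) * ((4 ^ (i : ℕ) + 1) * (4 - 1)) ≠ 0 := by decide

lemma chkB1 : ∀ i j : Fin 3, ∀ s : Bool,
    ((3 : ZMod 13) ^ (i : ℕ) * (3 * (3 - 2)) + 1) * 3 ^ (j : ℕ)
      + (if s then 1 else -1) * ((3 - 1) * (3 ^ (i : ℕ) * 3 - 1)) ≠ 0 ∨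
    ((4 : ZMod 7) ^ (i : ℕ) * (4 * (4 - 2)) + 1) * 4 ^ (j : ℕ)
      + (if s then 1 else -1) * ((4 - 1) * (4 ^ (i : ℕ) * 4 - 1)) ≠ 0 ∨
    (s = false ∧ i = 0 ∧ j = 0) := by decide

lemma chkB2 : ∀ i j : Fin 3, ∀ s : Bool,
    ((3 : ZMod 13) ^ (i : ℕ) * (3 * (3 - 2)) + 1) * 3 ^ (j : ℕ)
      + (if s then 1 else -1) * (3 ^ (i : ℕ) - 1) ≠ 0 ∨
    ((4 : ZMod 7) ^ (i : ℕ) * (4 * (4 - 2)) + 1) * 4 ^ (j : ℕ)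
      + (if s then 1 else -1) * (4 ^ (i : ℕ) - 1) ≠ 0 ∨
    (s = true ∧ i = 2 ∧ j = 2) := by decide

lemma chkC1 : ∀ j : Fin 3, ∀ s : Bool,
    ((3 : ZMod 13) ^ 4 - 3 ^ 3 - 2 * 3 ^ 2 + 1) * 3 ^ (j : ℕ)
      + (if s then 1 else -1) * (3 ^ 3 + 3 ^ 2 - 3 - 1) ≠ 0 ∨
    ((4 : ZMod 7) ^ 4 - 4 ^ 3 - 2 * 4 ^ 2 + 1) * 4 ^ (j : ℕ)
      + (if s then 1 else -1) * (4 ^ 3 + 4 ^ 2 - 4 - 1) ≠ 0 := by decide

lemma chkC2 : ∀ j : Fin 3, ∀ s : Bool,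
    ((3 : ZMod 13) ^ 4 - 3 ^ 3 - 2 * 3 ^ 2 + 1) * 3 ^ (j : ℕ)
      + (if s then 1 else -1) * (3 ^ 4 - 3 ^ 2 + 1) ≠ 0 ∨
    ((4 : ZMod 7) ^ 4 - 4 ^ 3 - 2 * 4 ^ 2 + 1) * 4 ^ (j : ℕ)
      + (if s then 1 else -1) * (4 ^ 4 - 4 ^ 2 + 1) ≠ 0 := by decide

end Pool.Agent.R341.IrrPisot
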