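import Pool.Agent.R341.IrrPisot5

set_option autoImplicit false

namespace Pool.Agent.R341.IrrPisot

open Polynomial

section
variable {F : Type*} [CommRing F] (a : F)

lemma ae_A1 (s k : ℕ) (e : ℤ) :
    aeval a (Phi (s + 1) * X ^ k + C e * (X ^ (s + 1) - X ^ (s + 1 - 1) + 1)) =
    (a ^ s * a * (a - 2) + a - 1) * a ^ k + (e : F) * (a ^ s * a - a ^ s + 1) := by
  rw [map_add, map_mul, ae_Phi, map_mul]
  simp [pow_succ]

lemma ae_A2 (r k : ℕ) (e : ℤ) :
    aeval a (Phi r * X ^ k + C e * (X ^ r - X + 1)) =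
    (a ^ r * (a - 2) + a - 1) * a ^ k + (e : F) * (a ^ r - a + 1) := by
  rw [map_add, map_mul, ae_Phi, map_mul]
  simp

lemma ae_A3 (r k : ℕ) (e : ℤ) :
    aeval a (Phi r * X ^ k + C e * ((X ^ r + 1) * (X - 1))) =
    (a ^ r * (a - 2) + a - 1) * a ^ k + (e : F) * ((a ^ r + 1) * (a - 1)) := by
  rw [map_add, map_mul, ae_Phi, map_mul]
  simp

lemma ae_B1 (r k : ℕ) (e : ℤ) :
    (a - 1) * aeval a (Psi r * X ^ k + C e * (X ^ (r + 1) - 1)) =
    (a ^ r * (a * (a - 2)) + 1) * a ^ k + (e : F) * ((a - 1) * (a ^ r * a - 1)) := by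
  have h := ae_Psi a r
  rw [map_add, map_mul, map_mul]
  simp only [map_pow, aeval_X, map_sub, map_one]
  rw [← h]
  simp
  ring

lemma ae_B2 (r k : ℕ) (e : ℤ) :
    (a - 1) * aeval a (Psi r * X ^ k + C e * ∑ i ∈ Finset.range r, X ^ i) =
    (a ^ r * (a * (a - 2)) + 1) * a ^ k + (e : F) * (a ^ r - 1) := by
  have h := ae_Psi a r
  have h2 := ae_sum a r
  rw [map_add, map_mul, map_mul, ← h, ← h2]
  simp only [map_pow, aeval_X]
  simp
  ring

lemma ae_C1 (k : ℕ) (e : ℤ) :
    aeval a (Chi * X ^ k + C e * (X ^ 3 + X ^ 2 - X - 1)) =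
    (a ^ 4 - a ^ 3 - 2 * a ^ 2 + 1) * a ^ k + (e : F) * (a ^ 3 + a ^ 2 - a - 1) := by
  rw [map_add, map_mul, ae_Chi, map_mul]
  simp

lemma ae_C2 (k : ℕ) (e : ℤ) :
    aeval a (Chi * X ^ k + C e * (X ^ 4 - X ^ 2 + 1)) =
    (a ^ 4 - a ^ 3 - 2 * a ^ 2 + 1) * a ^ k + (e : F) * (a ^ 4 - a ^ 2 + 1) := by
  rw [map_add, map_mul, ae_Chi, map_mul]
  simp

end

lemma dvd_of_root {n : ℕ} {β : ℝ} (hβ1 : 1 < β) (hβ : pf n β = 0) {R : ℤ[X]}
    (h : aeval β R = 0) : PZ n ∣ R := by
  have hβ' : aeval β (PZ n) = 0 := by rw [aeval_PZ]; exact hβ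
  have hint : IsIntegral ℤ β := ⟨PZ n, PZ_monic n, by simpa [aeval_def] using hβ'⟩
  rw [← minpoly_eq hβ1 hβ']
  exact minpoly.isIntegrallyClosed_dvd hint h

lemma aeval_zero_of_dvd {F : Type*} [CommRing F] {a : F} {P R : ℤ[X]} (h : P ∣ R)
    (hP : aeval a P = 0) : aeval a R = 0 := by
  obtain ⟨g, rfl⟩ := h
  rw [map_mul, hP, zero_mul]

/-- facts on `δ = 2 - β` -/
lemma facts {n : ℕ} {β : ℝ} (hn : 10 ≤ n) (h1 : 1.933 < β) (h2 : β < 2) (hβ : pf n β = 0) :
    β ^ (n + 1) * (2 - β) < β - 1 ∧ 1 < β ^ (n + 2) * (2 - β) := by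
  unfold pf at hβ
  have e0 : β ^ (4 * n + 3) = β ^ 3 * (β ^ n) ^ 4 := by ring
  have e1 : β ^ (3 * n + 2) = β ^ 2 * (β ^ n) ^ 3 := by ring
  have e2 : β ^ (2 * n + 2) = β ^ 2 * (β ^ n) ^ 2 := by ring
  have e3 : β ^ (2 * n + 1) = β * (β ^ n) ^ 2 := by ring
  have e4 : β ^ (n + 1) = β * β ^ n := by ring
  have e5 : β ^ (n + 2) = β ^ 2 * β ^ n := by ring
  rw [e0, e1, e2, e3, e4] at hβ
  rw [e4, e5]
  have h : (100 : ℝ) ≤ β ^ n := by
    calc (100 : ℝ) ≤ 1.933 ^ 10 := by norm_num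
      _ ≤ β ^ 10 := pow_le_pow_left₀ (by norm_num) h1.le 10
      _ ≤ β ^ n := pow_le_pow_right₀ (by linarith) hn
  generalize β ^ n = y at h hβ ⊢
  have hy : 0 < y := by linarith
  have hb : 0 < β := by linarith
  have hb1 : 0 < β - 1 := by linarith
  constructor
  · by_contra hc
    push Not at hc
    have k1 : (β - 1) * (β ^ 2 * y ^ 3) ≤ β * y * (2 - β) * (β ^ 2 * y ^ 3) :=
      mul_le_mul_of_nonneg_right hc (by positivity)
    have k2 : 0 < (β - 1) * (β * y ^ 2 * (β - 1)) := by positivity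
    have k3 : 0 < (β - 1) * (β * y + 1) := by positivity
    nlinarith
  · by_contra hc
    push Not at hc
    have k1 : β ^ 2 * y * (2 - β) * (β * y ^ 3) ≤ 1 * (β * y ^ 3) :=
      mul_le_mul_of_nonneg_right hc (by positivity)
    have k2 : (0.8 : ℝ) ≤ (β - 1) * β - 1 := by nlinarith
    have k3 : 0.8 * (β * y ^ 3) ≤ ((β - 1) * β - 1) * (β * y ^ 3) :=
      mul_le_mul_of_nonneg_right k2 (by positivity)
    have k4 : (β - 1) * (β * (β - 1) * y ^ 2 + β * y + 1) ≤ 5 * y ^ 2 := by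
      have a1 : (β - 1) * (β * (β - 1) * y ^ 2 + β * y + 1) ≤
          1 * (β * (β - 1) * y ^ 2 + β * y + 1) :=
        mul_le_mul_of_nonneg_right (by linarith) (by positivity)
      have a2 : β * (β - 1) * y ^ 2 ≤ 2 * y ^ 2 :=
        mul_le_mul_of_nonneg_right (by nlinarith) (by positivity)
      have a3 : β * y ≤ 2 * y := mul_le_mul_of_nonneg_right h2.le hy.le
      nlinarith
    have k5 : 190 * y ^ 2 ≤ β * y ^ 3 := by
      have : (190 : ℝ) ≤ β * y := by nlinarith
      calc 190 * y ^ 2 ≤ β * y * y ^ 2 := mul_le_mul_of_nonneg_right this (by positivity)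
        _ = β * y ^ 3 := by ring
    have k6 : 0 < y ^ 2 := by positivity
    nlinarith

/-- the leftover case of the family `Ψ_r x^k - (x^(r+1) - 1)` -/
lemma left1 {j r k : ℕ} {β : ℝ} (hn : 10 ≤ 3 * j + 2) (h1 : 1.933 < β) (h2 : β < 2)
    (hβ : pf (3 * j + 2) β = 0) (hr : 1 ≤ r) (hr3 : r % 3 = 0) (hk3 : k % 3 = 0)
    (h : (β ^ r * (β * (β - 2)) + 1) * β ^ k + (-1) * ((β - 1) * (β ^ r * β - 1)) = 0) : False := by
  obtain ⟨f1, f2⟩ := facts hn h1 h2 hβ
  have hb : 0 < β := by linarith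
  have hd : 0 < 2 - β := by linarith
  have hb1 : 0 < β - 1 := by linarith
  have h' : β ^ k * (1 - β ^ (r + 1) * (2 - β)) = (β - 1) * (β ^ (r + 1) - 1) := by
    rw [pow_succ]
    linear_combination h
  have hr3' : 3 ≤ r := by omega
  have hrp : 7 < β ^ r := by
    calc (7 : ℝ) < 1.933 ^ 3 := by norm_num
      _ ≤ β ^ 3 := pow_le_pow_left₀ (by norm_num) h1.le 3
      _ ≤ β ^ r := pow_le_pow_right₀ (by linarith) hr3'
  have hrhs : 0 < (β - 1) * (β ^ (r + 1) - 1) := by
    apply mul_pos hb1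
    have : 1 < β ^ (r + 1) := one_lt_pow₀ (by linarith) (by omega)
    linarith
  have hk0 : 0 < β ^ k := by positivity
  by_cases c1 : 3 * j + 2 + 2 ≤ r + 1
  · have : β ^ (3 * j + 2 + 2) ≤ β ^ (r + 1) := pow_le_pow_right₀ (by linarith) c1
    have h3 : β ^ (3 * j + 2 + 2) * (2 - β) ≤ β ^ (r + 1) * (2 - β) :=
      mul_le_mul_of_nonneg_right this hd.le
    have h4 : β ^ k * (1 - β ^ (r + 1) * (2 - β)) < 0 :=
      mul_neg_of_pos_of_neg hk0 (by linarith)
    linarith
  · have c2 : r + 1 ≤ 3 * j + 2 := by omega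
    have h3 : β ^ (r + 1) * (2 - β) ≤ β ^ (3 * j + 2) * (2 - β) :=
      mul_le_mul_of_nonneg_right (pow_le_pow_right₀ (by linarith) c2) hd.le
    have h4 : β * (β ^ (r + 1) * (2 - β)) < β - 1 := by
      calc β * (β ^ (r + 1) * (2 - β)) ≤ β * (β ^ (3 * j + 2) * (2 - β)) :=
            mul_le_mul_of_nonneg_left h3 hb.le
        _ = β ^ (3 * j + 2 + 1) * (2 - β) := by ring
        _ < β - 1 := f1
    have h5 : 0 < β ^ (r + 1) * (2 - β) := by positivity
    by_cases c3 : k ≤ r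
    · have h6 : β ^ k * (1 - β ^ (r + 1) * (2 - β)) ≤ β ^ r := by
        calc β ^ k * (1 - β ^ (r + 1) * (2 - β)) ≤ β ^ k * 1 :=
              mul_le_mul_of_nonneg_left (by linarith) hk0.le
          _ = β ^ k := mul_one _
          _ ≤ β ^ r := pow_le_pow_right₀ (by linarith) c3
      rw [h', pow_succ] at h6
      nlinarith
    · have c4 : r + 2 ≤ k := by omega
      have h7 : β ^ (r + 2) ≤ β ^ k := pow_le_pow_right₀ (by linarith) c4
      have h8 : 1 < β * (1 - β ^ (r + 1) * (2 - β)) := by linarith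
      have h9 : β ^ (r + 1) < β ^ k * (1 - β ^ (r + 1) * (2 - β)) := by
        have hpos : 0 < 1 - β ^ (r + 1) * (2 - β) := by
          by_contra hc
          push Not at hc
          have := mul_nonneg_of_nonpos_of_nonpos (show -β ≤ 0 by linarith) hc
          linarith
        calc β ^ (r + 1) = β ^ (r + 1) * 1 := (mul_one _).symm
          _ < β ^ (r + 1) * (β * (1 - β ^ (r + 1) * (2 - β))) :=
              mul_lt_mul_of_pos_left h8 (by positivity)
          _ = β ^ (r + 2) * (1 - β ^ (r + 1) * (2 - β)) := by ring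
          _ ≤ β ^ k * (1 - β ^ (r + 1) * (2 - β)) := mul_le_mul_of_nonneg_right h7 hpos.le
      rw [h'] at h9
      have h10 : (β - 1) * (β ^ (r + 1) - 1) ≤ 1 * (β ^ (r + 1) - 1) :=
        mul_le_mul_of_nonneg_right (by linarith)
          (by have : 1 < β ^ (r + 1) := one_lt_pow₀ (by linarith) (by omega)
              linarith)
      linarith

/-- the leftover case of the family `Ψ_r x^k + (x^r - 1)/(x - 1)` -/
lemma left2 {r k : ℕ} {γ : ℝ} (h0 : 0 < γ) (h1 : γ < 1) (hr : 1 ≤ r) (hk : 1 ≤ k)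
    (h : (γ ^ r * (γ * (γ - 2)) + 1) * γ ^ k + 1 * (γ ^ r - 1) = 0) : False := by
  have hk1 : γ ^ k ≤ γ := by
    calc γ ^ k ≤ γ ^ 1 := pow_le_pow_of_le_one h0.le h1.le hk
      _ = γ := pow_one _
  have hr1 : γ ^ r ≤ γ := by
    calc γ ^ r ≤ γ ^ 1 := pow_le_pow_of_le_one h0.le h1.le hr
      _ = γ := pow_one _
  have hr0 : 0 < γ ^ r := by positivity
  generalize γ ^ k = u at h hk1
  generalize γ ^ r = v at h hr1 hr0
  have hq : 0 < γ * (2 - γ) := by nlinarith
  have hq1 : γ * (2 - γ) < 1 := by nlinarith [mul_pos (sub_pos.2 h1) (sub_pos.2 h1)]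
  have hA : 0 < 1 - v * (γ * (2 - γ)) := by nlinarith
  have h3 : (1 - v * (γ * (2 - γ))) * u ≤ (1 - v * (γ * (2 - γ))) * γ :=
    mul_le_mul_of_nonneg_left hk1 hA.le
  have h4 : (1 - γ) * (1 - v * (1 + γ - γ ^ 2)) ≤ 0 := by nlinarith
  have h5 : v * (1 + γ - γ ^ 2) ≤ γ * (1 + γ - γ ^ 2) :=
    mul_le_mul_of_nonneg_right hr1 (by nlinarith)
  have h6 : γ * (1 + γ - γ ^ 2) < 1 := by
    nlinarith [mul_pos (sub_pos.2 h1) (mul_pos (sub_pos.2 h1) (show 0 < 1 + γ by linarith))]
  have h7 : 0 < (1 - γ) * (1 - v * (1 + γ - γ ^ 2)) := mul_pos (by linarith) (by linarith)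
  linarith

theorem irregular {j : ℕ} {β : ℝ} (hn : 10 ≤ 3 * j + 2) (h1 : 1.933 < β) (h2 : β < 2)
    (hβ : pf (3 * j + 2) β = 0) {R : ℤ[X]} (hR : Listed R) : aeval β R ≠ 0 := by
  intro h0
  have hd := dvd_of_root (by linarith) hβ h0
  have h13 := aeval_zero_of_dvd hd (PZ13 j)
  have h7 := aeval_zero_of_dvd hd (PZ7 j)
  obtain ⟨γ, hγ0, hγ1, hγ⟩ := exists_small_root (3 * j + 2)
  have hγR : aeval γ R = 0 := aeval_zero_of_dvd hd (by rw [aeval_PZ]; exact hγ)
  rcases hR with ⟨r, hr, rfl | rfl⟩ | rfl | ⟨r, k, e, hr, he, hR⟩ | ⟨k, e, he, hR⟩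
  · rw [ae_Phi, powmod h313 r] at h13
    exact chkPhi ⟨r % 3, Nat.mod_lt _ (by norm_num)⟩ h13
  · have h := ae_Psi (3 : ZMod 13) r
    rw [h13, mul_zero, powmod h313 r] at h
    exact chkPsi ⟨r % 3, Nat.mod_lt _ (by norm_num)⟩ h.symm
  · rw [ae_Chi] at h13
    revert h13
    decide
  · have hk3 : k % 3 < 3 := Nat.mod_lt _ (by norm_num)
    have hr3 : r % 3 < 3 := Nat.mod_lt _ (by norm_num)
    rcases hR with rfl | rfl | rfl | rfl | rfl
    · obtain ⟨s, rfl⟩ : ∃ s, r = s + 1 := ⟨r - 1, by omega⟩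
      have hs3 : s % 3 < 3 := Nat.mod_lt _ (by norm_num)
      rw [ae_A1, powmod h313 s, powmod h313 k] at h13
      rw [ae_A1, powmod h47 s, powmod h47 k] at h7
      rcases he with rfl | rfl
      · rcases chkA1 ⟨s % 3, hs3⟩ ⟨k % 3, hk3⟩ true with h | h
        · apply h; simpa using h13
        · apply h; simpa using h7
      · rcases chkA1 ⟨s % 3, hs3⟩ ⟨k % 3, hk3⟩ false with h | h
        · apply h; simpa using h13
        · apply h; simpa using h7
    · rw [ae_A2, powmod h313 r, powmod h313 k] at h13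
      rw [ae_A2, powmod h47 r, powmod h47 k] at h7
      rcases he with rfl | rfl
      · rcases chkA2 ⟨r % 3, hr3⟩ ⟨k % 3, hk3⟩ true with h | h
        · apply h; simpa using h13
        · apply h; simpa using h7
      · rcases chkA2 ⟨r % 3, hr3⟩ ⟨k % 3, hk3⟩ false with h | h
        · apply h; simpa using h13
        · apply h; simpa using h7
    · rw [ae_A3, powmod h313 r, powmod h313 k] at h13
      rw [ae_A3, powmod h47 r, powmod h47 k] at h7
      rcases he with rfl | rfl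
      · rcases chkA3 ⟨r % 3, hr3⟩ ⟨k % 3, hk3⟩ true with h | h
        · apply h; simpa using h13
        · apply h; simpa using h7
      · rcases chkA3 ⟨r % 3, hr3⟩ ⟨k % 3, hk3⟩ false with h | h
        · apply h; simpa using h13
        · apply h; simpa using h7
    · have g13 := ae_B1 (3 : ZMod 13) r k e
      have g7 := ae_B1 (4 : ZMod 7) r k e
      rw [h13, mul_zero, powmod h313 r, powmod h313 k] at g13
      rw [h7, mul_zero, powmod h47 r, powmod h47 k] at g7
      rcases he with rfl | rfl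
      · rcases chkB1 ⟨r % 3, hr3⟩ ⟨k % 3, hk3⟩ true with h | h | ⟨h, _⟩
        · apply h; simpa using g13.symm
        · apply h; simpa using g7.symm
        · exact absurd h (by decide)
      · rcases chkB1 ⟨r % 3, hr3⟩ ⟨k % 3, hk3⟩ false with h | h | ⟨_, hi, hj⟩
        · apply h; simpa using g13.symm
        · apply h; simpa using g7.symm
        · have hi' : r % 3 = 0 := by simpa using congrArg Fin.val hi
          have hj' : k % 3 = 0 := by simpa using congrArg Fin.val hj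
          have g := ae_B1 β r k (-1)
          rw [h0, mul_zero] at g
          refine left1 hn h1 h2 hβ hr hi' hj' ?_
          simpa using g.symm
    · have g13 := ae_B2 (3 : ZMod 13) r k e
      have g7 := ae_B2 (4 : ZMod 7) r k e
      rw [h13, mul_zero, powmod h313 r, powmod h313 k] at g13
      rw [h7, mul_zero, powmod h47 r, powmod h47 k] at g7
      rcases he with rfl | rfl
      · rcases chkB2 ⟨r % 3, hr3⟩ ⟨k % 3, hk3⟩ true with h | h | ⟨_, hi, hj⟩
        · apply h; simpa using g13.symm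
        · apply h; simpa using g7.symm
        · have hj' : k % 3 = 2 := by simpa using congrArg Fin.val hj
          have g := ae_B2 γ r k 1
          rw [hγR, mul_zero] at g
          refine left2 hγ0 hγ1 hr (show 1 ≤ k by omega) ?_
          simpa using g.symm
      · rcases chkB2 ⟨r % 3, hr3⟩ ⟨k % 3, hk3⟩ false with h | h | ⟨h, _⟩
        · apply h; simpa using g13.symm
        · apply h; simpa using g7.symm
        · exact absurd h (by decide)
  · have hk3 : k % 3 < 3 := Nat.mod_lt _ (by norm_num)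
    rcases hR with rfl | rfl
    · rw [ae_C1, powmod h313 k] at h13
      rw [ae_C1, powmod h47 k] at h7
      rcases he with rfl | rfl
      · rcases chkC1 ⟨k % 3, hk3⟩ true with h | h
        · apply h; simpa using h13
        · apply h; simpa using h7
      · rcases chkC1 ⟨k % 3, hk3⟩ false with h | h
        · apply h; simpa using h13
        · apply h; simpa using h7
    · rw [ae_C2, powmod h313 k] at h13
      rw [ae_C2, powmod h47 k] at h7
      rcases he with rfl | rfl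
      · rcases chkC2 ⟨k % 3, hk3⟩ true with h | h
        · apply h; simpa using h13
        · apply h; simpa using h7
      · rcases chkC2 ⟨k % 3, hk3⟩ false with h | h
        · apply h; simpa using h13
        · apply h; simpa using h7

end Pool.Agent.R341.IrrPisot
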