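import Mathlib

set_option autoImplicit false

open Polynomial

namespace Pool.Agent.R341.PosRep

/-! ### Polynomials with nonnegative coefficients vanishing at given points -/

lemma exists_pow_re_nonpos {z : ℂ} (hz : ¬ (z.im = 0 ∧ 0 < z.re)) :
    ∃ n : ℕ, 1 ≤ n ∧ (z ^ n).re ≤ 0 := by
  by_cases hre : z.re ≤ 0
  · exact ⟨1, le_rfl, by simpa using hre⟩
  push Not at hre
  have him : z.im ≠ 0 := fun h => hz ⟨h, hre⟩
  set φ := Complex.arg z with hφ
  have hφ0 : φ ≠ 0 := by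
    intro h
    rw [hφ, Complex.arg_eq_zero_iff] at h
    exact him h.2
  have hφ2 : |φ| < Real.pi / 2 := by
    rw [hφ, Complex.abs_arg_lt_pi_div_two_iff]
    exact Or.inl hre
  have hpos : 0 < |φ| := abs_pos.2 hφ0
  have hpi := Real.pi_pos
  set n := ⌈(Real.pi / 2) / |φ|⌉₊ with hn
  have hn1 : (Real.pi / 2) / |φ| ≤ n := Nat.le_ceil _
  have hn2 : (n : ℝ) < (Real.pi / 2) / |φ| + 1 := Nat.ceil_lt_add_one (by positivity)
  rw [div_le_iff₀ hpos] at hn1
  have hn3 : (n : ℝ) * |φ| < Real.pi := by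
    have : (n : ℝ) * |φ| < ((Real.pi / 2) / |φ| + 1) * |φ| := by gcongr
    rw [add_mul, div_mul_cancel₀ _ hpos.ne'] at this
    linarith
  have hn0 : 1 ≤ n := by
    rw [Nat.one_le_iff_ne_zero]
    intro h
    rw [h] at hn1
    simp at hn1
    linarith
  refine ⟨n, hn0, ?_⟩
  have h1 : z ^ n = ((‖z‖ ^ n : ℝ) : ℂ) * Complex.exp (((n * φ : ℝ) : ℂ) * Complex.I) := by
    conv_lhs => rw [← Complex.norm_mul_exp_arg_mul_I z]
    rw [mul_pow, ← Complex.exp_nat_mul]
    push_cast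
    congr 2
    ring
  rw [h1, Complex.re_ofReal_mul, Complex.exp_ofReal_mul_I_re]
  have h2 : Real.cos (n * φ) ≤ 0 := by
    rw [← Real.cos_abs, abs_mul, Nat.abs_cast]
    exact Real.cos_nonpos_of_pi_div_two_le_of_le hn1 (by linarith)
  have : 0 ≤ ‖z‖ ^ n := by positivity
  exact mul_nonpos_of_nonneg_of_nonpos this h2

/-- nonnegative coefficients -/
def NN (p : ℝ[X]) : Prop := ∀ i, 0 ≤ p.coeff i

lemma NN.add {p q : ℝ[X]} (hp : NN p) (hq : NN q) : NN (p + q) := fun i => by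
  rw [coeff_add]; exact add_nonneg (hp i) (hq i)

lemma NN.mul {p q : ℝ[X]} (hp : NN p) (hq : NN q) : NN (p * q) := fun i => by
  rw [coeff_mul]
  exact Finset.sum_nonneg fun x _ => mul_nonneg (hp _) (hq _)

lemma NN.X_pow (n : ℕ) : NN (X ^ n) := fun i => by
  rw [coeff_X_pow]; split_ifs <;> norm_num

lemma NN.C {a : ℝ} (ha : 0 ≤ a) : NN (C a) := fun i => by
  rw [coeff_C]; split_ifs <;> [exact ha; norm_num]

lemma NN.one : NN 1 := by simpa using NN.C (a := 1) (by norm_num)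

lemma NN.sum {ι : Type*} (s : Finset ι) (f : ι → ℝ[X]) (h : ∀ i ∈ s, NN (f i)) :
    NN (∑ i ∈ s, f i) := fun i => by
  rw [finsetSum_coeff]
  exact Finset.sum_nonneg fun j hj => h j hj i

lemma exists_one {z : ℂ} (hz0 : z ≠ 0) (hz : ¬ (z.im = 0 ∧ 0 < z.re)) :
    ∃ p : ℝ[X], NN p ∧ 0 < p.coeff 0 ∧ aeval z p = 0 := by
  obtain ⟨n, hn, hre⟩ := exists_pow_re_nonpos hz
  have hz1 : 0 < ‖z‖ := norm_pos_iff.2 hz0
  refine ⟨X ^ (2 * n) + C (-(2 * (z ^ n).re)) * X ^ n + C (‖z‖ ^ (2 * n)), ?_, ?_, ?_⟩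
  · exact ((NN.X_pow _).add ((NN.C (by linarith)).mul (NN.X_pow _))).add (NN.C (by positivity))
  · rw [coeff_add, coeff_add, coeff_C_mul, coeff_X_pow, coeff_X_pow, coeff_C_zero,
      if_neg (by omega), if_neg (by omega)]
    have : 0 < ‖z‖ ^ (2 * n) := by positivity
    linarith
  · simp only [map_add, map_mul, map_pow, aeval_X, aeval_C]
    have h1 : (((‖z‖ ^ (2 * n) : ℝ)) : ℂ) = z ^ n * (starRingEnd ℂ) (z ^ n) := by
      rw [Complex.mul_conj, Complex.normSq_eq_norm_sq, norm_pow, ← pow_mul, mul_comm n 2]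
    have h2 : ((2 * (z ^ n).re : ℝ) : ℂ) = z ^ n + (starRingEnd ℂ) (z ^ n) := by
      rw [Complex.add_conj]
    have h3 : (algebraMap ℝ ℂ) (-(2 * (z ^ n).re)) = -(z ^ n + (starRingEnd ℂ) (z ^ n)) := by
      rw [← h2]; simp
    have h4 : (algebraMap ℝ ℂ) (‖z‖ ^ (2 * n)) = z ^ n * (starRingEnd ℂ) (z ^ n) := by
      rw [← h1]; rfl
    have h5 : (algebraMap ℝ ℂ ‖z‖) ^ (2 * n) = z ^ n * (starRingEnd ℂ) (z ^ n) := by
      rw [← h4, map_pow]
    rw [h3]
    rw [h5]
    ring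

lemma exists_all (s : Finset ℂ) (h : ∀ z ∈ s, z ≠ 0 ∧ ¬ (z.im = 0 ∧ 0 < z.re)) :
    ∃ p : ℝ[X], NN p ∧ 0 < p.coeff 0 ∧ ∀ z ∈ s, aeval z p = 0 := by
  classical
  induction s using Finset.induction_on with
  | empty => exact ⟨1, NN.one, by simp, by simp⟩
  | insert a s _ ih =>
    obtain ⟨p, hp1, hp2, hp3⟩ := ih fun z hz => h z (Finset.mem_insert_of_mem hz)
    obtain ⟨ha0, ha1⟩ := h a (Finset.mem_insert_self _ _)
    obtain ⟨q, hq1, hq2, hq3⟩ := exists_one ha0 ha1
    refine ⟨q * p, hq1.mul hp1, ?_, ?_⟩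
    · rw [mul_coeff_zero]; positivity
    · intro z hz
      rcases Finset.mem_insert.1 hz with rfl | hz
      · rw [map_mul, hq3, zero_mul]
      · rw [map_mul, hp3 z hz, mul_zero]

lemma exists_full (s : Finset ℂ) (h : ∀ z ∈ s, z ≠ 0 ∧ ¬ (z.im = 0 ∧ 0 < z.re)) (d : ℕ) :
    ∃ p : ℝ[X], NN p ∧ 0 < p.coeff 0 ∧ (∀ i < d, 0 < p.coeff i) ∧ ∀ z ∈ s, aeval z p = 0 := by
  obtain ⟨p, hp1, hp2, hp3⟩ := exists_all s h
  have hS : NN (∑ k ∈ Finset.range (d + 1), (X : ℝ[X]) ^ k) := NN.sum _ _ fun i _ => NN.X_pow i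
  have hpos : ∀ i < d + 1, 0 < (p * ∑ k ∈ Finset.range (d + 1), (X : ℝ[X]) ^ k).coeff i := by
    intro i hi
    rw [coeff_mul]
    refine Finset.sum_pos' (fun x _ => mul_nonneg (hp1 _) (hS _)) ⟨(0, i), by simp, ?_⟩
    have : (∑ k ∈ Finset.range (d + 1), (X : ℝ[X]) ^ k).coeff i = 1 := by
      rw [finsetSum_coeff]
      simp only [coeff_X_pow]
      rw [Finset.sum_ite_eq]
      simp [hi]
    simp only [this, mul_one]
    exact hp2
  refine ⟨p * ∑ k ∈ Finset.range (d + 1), (X : ℝ[X]) ^ k, hp1.mul hS, hpos 0 (by omega),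
    fun i hi => hpos i (by omega), fun z hz => by rw [map_mul, hp3 z hz, zero_mul]⟩

/-! ### Coefficients are bounded by the values at the conjugates -/

lemma coeff_bound {β : ℝ} (hint : IsIntegral ℤ β) :
    ∃ C : ℝ, 0 ≤ C ∧ ∀ p : ℤ[X], p.natDegree < (minpoly ℤ β).natDegree → ∀ B : ℝ,
      (∀ z : ℂ, aeval z (minpoly ℤ β) = 0 → ‖aeval z p‖ ≤ B) → ∀ i, |(p.coeff i : ℝ)| ≤ C * B := by
  classical
  have hintQ : IsIntegral ℚ β := hint.tower_top
  have hmq : minpoly ℚ β = (minpoly ℤ β).map (algebraMap ℤ ℚ) :=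
    minpoly.isIntegrallyClosed_eq_field_fractions' ℚ hint
  have hsep : (minpoly ℚ β).Separable := (minpoly.irreducible hintQ).separable
  set s : Finset ℂ := ((minpoly ℚ β).rootSet ℂ).toFinset with hs
  have hcard : s.card = (minpoly ℤ β).natDegree := by
    rw [hs, Set.toFinset_card, card_rootSet_eq_natDegree hsep (IsAlgClosed.splits _), hmq,
      natDegree_map_eq_of_injective (algebraMap ℤ ℚ).injective_int]
  have hmem : ∀ z ∈ s, aeval z (minpoly ℤ β) = 0 := by
    intro z hz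
    rw [hs, Set.mem_toFinset, mem_rootSet] at hz
    have := hz.2
    rw [hmq, aeval_map_algebraMap] at this
    exact this
  set N : ℕ → ℝ := fun i => ∑ z ∈ s, ‖(Lagrange.basis s id z).coeff i‖ with hN
  refine ⟨∑ i ∈ Finset.range (minpoly ℤ β).natDegree, N i,
    Finset.sum_nonneg fun i _ => Finset.sum_nonneg fun z _ => norm_nonneg _, ?_⟩
  intro p hp B hB i
  have hdeg0 : 0 < (minpoly ℤ β).natDegree := minpoly.natDegree_pos hint
  have hB0 : 0 ≤ B := by
    have hne : s.Nonempty := by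
      rw [← Finset.card_pos, hcard]; exact hdeg0
    obtain ⟨z, hz⟩ := hne
    exact (norm_nonneg _).trans (hB z (hmem z hz))
  by_cases hi : (minpoly ℤ β).natDegree ≤ i
  · rw [coeff_eq_zero_of_natDegree_lt (lt_of_lt_of_le hp hi)]
    simp only [Int.cast_zero, abs_zero]
    refine mul_nonneg (Finset.sum_nonneg fun i _ => Finset.sum_nonneg fun z _ => norm_nonneg _) hB0
  push Not at hi
  set P : ℂ[X] := p.map (Int.castRingHom ℂ) with hP
  have hdegP : P.degree < s.card := by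
    rw [hcard]
    refine lt_of_le_of_lt degree_map_le ?_
    rcases eq_or_ne p 0 with rfl | hp0
    · rw [degree_zero]; exact WithBot.bot_lt_coe _
    · rw [degree_eq_natDegree hp0]
      exact_mod_cast hp
  have hinter := Lagrange.eq_interpolate (v := id) (Set.injOn_id _) hdegP
  have hc : P.coeff i = ∑ z ∈ s, P.eval z * (Lagrange.basis s id z).coeff i := by
    conv_lhs => rw [hinter]
    simp only [Lagrange.interpolate_apply, finsetSum_coeff, coeff_C_mul, id]
  have hc2 : ‖P.coeff i‖ ≤ B * N i := by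
    rw [hc, hN, Finset.mul_sum]
    refine (norm_sum_le _ _).trans (Finset.sum_le_sum fun z hz => ?_)
    rw [norm_mul]
    gcongr
    have := hB z (hmem z hz)
    rw [hP, eval_map]
    rw [aeval_def] at this
    exact this
  have hc3 : ‖P.coeff i‖ = |(p.coeff i : ℝ)| := by
    rw [hP, coeff_map]
    simp
  rw [← hc3]
  refine hc2.trans ?_
  rw [mul_comm]
  gcongr
  exact Finset.single_le_sum (f := N) (fun i _ => Finset.sum_nonneg fun z _ => norm_nonneg _)
    (Finset.mem_range.2 hi)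

/-! ### Every positive element has a finite representation with nonnegative integer digits -/

/-- the assumption: a Pisot number without other positive real conjugates -/
structure Good (β : ℝ) : Prop where
  one_lt : 1 < β
  int : IsIntegral ℤ β
  lt : ∀ z : ℂ, aeval z (minpoly ℤ β) = 0 → z ≠ β → ‖z‖ < 1
  npos : ∀ z : ℂ, aeval z (minpoly ℤ β) = 0 → z ≠ β → ¬ (z.im = 0 ∧ 0 < z.re)

lemma conj_ne_zero {β : ℝ} (h1 : 1 < β) (hint : IsIntegral ℤ β) {z : ℂ}
    (hz : aeval z (minpoly ℤ β) = 0) : z ≠ 0 := by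
  rintro rfl
  have h2 : (minpoly ℤ β).coeff 0 = 0 := by
    rw [aeval_def, eval₂_at_zero] at hz
    have : (((minpoly ℤ β).coeff 0 : ℤ) : ℂ) = 0 := by simpa using hz
    exact_mod_cast this
  obtain ⟨q, hq⟩ := X_dvd_iff.2 h2
  have hirr : Irreducible (minpoly ℤ β) := (minpoly.prime_of_isIntegrallyClosed hint).irreducible
  rcases hirr.isUnit_or_isUnit hq with h | h
  · exact not_isUnit_X h
  · have h3 : aeval β (minpoly ℤ β) = β * aeval β q := by
      conv_lhs => rw [hq]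
      rw [map_mul, aeval_X]
    rw [minpoly.aeval] at h3
    have h4 : aeval β q ≠ 0 := (h.map (aeval β : ℤ[X] →ₐ[ℤ] ℝ)).ne_zero
    have h5 : β ≠ 0 := by linarith
    exact (mul_ne_zero h5 h4) h3.symm

lemma roots_finset {β : ℝ} (hint : IsIntegral ℤ β) :
    ∃ s : Finset ℂ, ∀ z : ℂ, z ∈ s ↔ aeval z (minpoly ℤ β) = 0 := by
  refine ⟨((minpoly ℤ β).aroots ℂ).toFinset, fun z => ?_⟩
  rw [Multiset.mem_toFinset, mem_aroots]
  exact ⟨fun h => h.2, fun h => ⟨minpoly.ne_zero hint, h⟩⟩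

lemma aeval_ofReal (β : ℝ) (p : ℤ[X]) : aeval (β : ℂ) p = ((aeval β p : ℝ) : ℂ) := by
  have := aeval_algebraMap_apply (A := ℝ) (B := ℂ) β p
  simpa using this

theorem claim_one {β : ℝ} (h : Good β) (p : ℤ[X]) (hx : 0 < aeval β p) :
    ∃ (n M : ℕ) (a : ℕ → ℕ), β ^ n * aeval β p = ∑ i ∈ Finset.range M, (a i : ℝ) * β ^ i := by
  classical
  have hβ := h.one_lt
  have hint := h.int
  have hβ0 : 0 < β := by linarith
  set f := minpoly ℤ β with hf
  have hfm : f.Monic := minpoly.monic hint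
  have hd0 : 0 < f.natDegree := minpoly.natDegree_pos hint
  obtain ⟨C, hC0, hC⟩ := coeff_bound hint
  obtain ⟨s, hs⟩ := roots_finset hint
  obtain ⟨H, hH1, hH0, hHd, hHz⟩ := exists_full (s.erase (β : ℂ)) (by
    intro z hz
    rw [Finset.mem_erase, hs] at hz
    exact ⟨conj_ne_zero hβ hint hz.2, h.npos z hz.2 hz.1⟩) f.natDegree
  have hHz' : ∀ z : ℂ, aeval z f = 0 → z ≠ β → aeval z H = 0 := fun z hz hne =>
    hHz z (by rw [Finset.mem_erase, hs]; exact ⟨hne, hz⟩)
  set M := H.natDegree + 1 with hM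
  have hHsum : ∀ z : ℂ, aeval z H = ∑ i ∈ Finset.range M, (H.coeff i : ℂ) * z ^ i := by
    intro z
    rw [aeval_eq_sum_range]
    apply Finset.sum_congr rfl
    intro i _
    rw [Complex.real_smul]
  have hHβ : H.eval β = ∑ i ∈ Finset.range M, H.coeff i * β ^ i := eval_eq_sum_range β
  have hHβ0 : 0 < H.eval β := by
    rw [hHβ]
    refine Finset.sum_pos' (fun i _ => mul_nonneg (hH1 i) (by positivity)) ⟨0, by simp [hM], ?_⟩
    simpa using hH0
  -- uniform lower bound for the first coefficients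
  obtain ⟨δ, hδ0, hδ⟩ : ∃ δ : ℝ, 0 < δ ∧ ∀ i < f.natDegree, δ ≤ H.coeff i := by
    have hne : (Finset.range f.natDegree).Nonempty := ⟨0, by simpa using hd0⟩
    refine ⟨(Finset.range f.natDegree).inf' hne (fun i => H.coeff i), ?_, ?_⟩
    · rw [Finset.lt_inf'_iff]
      intro i hi
      exact hHd i (Finset.mem_range.1 hi)
    · intro i hi
      exact Finset.inf'_le _ (Finset.mem_range.2 hi)
  set x : ℝ := aeval β p with hxdef
  -- bound for the values
  set B : ℝ := (∑ i ∈ Finset.range M, β ^ i) + M + ∑ z ∈ s, ‖aeval z p‖ with hB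
  have hB1 : ∑ i ∈ Finset.range M, β ^ i ≤ B := by
    rw [hB]
    have : 0 ≤ ∑ z ∈ s, ‖aeval z p‖ := Finset.sum_nonneg fun _ _ => norm_nonneg _
    have : (0 : ℝ) ≤ M := Nat.cast_nonneg _
    linarith
  have hB2 : ∀ z : ℂ, aeval z f = 0 → (M : ℝ) + ‖aeval z p‖ ≤ B := by
    intro z hz
    have h1 : ‖aeval z p‖ ≤ ∑ z ∈ s, ‖aeval z p‖ :=
      Finset.single_le_sum (f := fun z : ℂ => ‖aeval z p‖) (fun _ _ => norm_nonneg _) ((hs z).2 hz)
    have h2 : 0 ≤ ∑ i ∈ Finset.range M, β ^ i := Finset.sum_nonneg fun i _ => by positivity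
    rw [hB]
    linarith
  -- choose n
  obtain ⟨n, hn⟩ := pow_unbounded_of_one_lt ((C * B + 1) / δ * H.eval β / x) hβ
  set t : ℝ := x * β ^ n / H.eval β with ht
  have ht0 : 0 < t := by positivity
  have htδ : C * B + 1 ≤ t * δ := by
    rw [div_lt_iff₀ hx, div_mul_eq_mul_div, div_lt_iff₀ hδ0] at hn
    rw [ht, div_mul_eq_mul_div, le_div_iff₀ hHβ0]
    linarith
  set q : ℤ[X] := ∑ i ∈ Finset.range M, Polynomial.C ⌊t * H.coeff i⌋ * X ^ i with hq
  have hqz : ∀ z : ℂ, aeval z q = (t : ℂ) * aeval z H -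
      ∑ i ∈ Finset.range M, ((Int.fract (t * H.coeff i) : ℝ) : ℂ) * z ^ i := by
    intro z
    rw [hq, map_sum, hHsum, Finset.mul_sum, ← Finset.sum_sub_distrib]
    apply Finset.sum_congr rfl
    intro i _
    rw [map_mul, map_pow, aeval_X, aeval_C]
    have : (algebraMap ℤ ℂ) ⌊t * H.coeff i⌋ = (t : ℂ) * H.coeff i -
        ((Int.fract (t * H.coeff i) : ℝ) : ℂ) := by
      have h1 := Int.self_sub_fract (t * H.coeff i)
      have h2 : ((⌊t * H.coeff i⌋ : ℤ) : ℝ) = t * H.coeff i - Int.fract (t * H.coeff i) := h1.symm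
      have h3 : (algebraMap ℤ ℂ) ⌊t * H.coeff i⌋ = (((⌊t * H.coeff i⌋ : ℤ) : ℝ) : ℂ) := by simp
      rw [h3, h2]
      push_cast
      ring
    rw [this]
    ring
  set r : ℤ[X] := (X ^ n * p - q) %ₘ f with hr
  have hfne1 : f ≠ 1 := by
    intro h1
    rw [h1] at hd0
    simp at hd0
  have hrdeg : r.natDegree < f.natDegree := natDegree_modByMonic_lt _ hfm hfne1
  have hrz : ∀ z : ℂ, aeval z f = 0 → aeval z r = z ^ n * aeval z p - aeval z q := by
    intro z hz
    rw [hr, aeval_modByMonic_eq_self_of_root hz, map_sub, map_mul, map_pow, aeval_X]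
  have hfr : ∀ i, ‖((Int.fract (t * H.coeff i) : ℝ) : ℂ)‖ ≤ 1 := by
    intro i
    rw [Complex.norm_real, Real.norm_of_nonneg (Int.fract_nonneg _)]
    exact (Int.fract_lt_one _).le
  have hrB : ∀ z : ℂ, aeval z f = 0 → ‖aeval z r‖ ≤ B := by
    intro z hz
    rw [hrz z hz, hqz z]
    by_cases hzβ : z = β
    · have h1 : z ^ n * aeval z p - ((t : ℂ) * aeval z H -
        ∑ i ∈ Finset.range M, ((Int.fract (t * H.coeff i) : ℝ) : ℂ) * z ^ i) =
        ∑ i ∈ Finset.range M, ((Int.fract (t * H.coeff i) : ℝ) : ℂ) * z ^ i := by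
        have h2 : aeval z H = ((H.eval β : ℝ) : ℂ) := by
          rw [hHsum, hHβ, hzβ]; push_cast; rfl
        have h3 : aeval z p = (x : ℂ) := by rw [hzβ, aeval_ofReal]
        have h4 : (t : ℂ) * ((H.eval β : ℝ) : ℂ) = x * β ^ n := by
          rw [ht]
          push_cast
          have : ((H.eval β : ℝ) : ℂ) ≠ 0 := by exact_mod_cast hHβ0.ne'
          field_simp
        rw [h2, h4, h3, hzβ]
        ring
      rw [h1]
      refine (norm_sum_le _ _).trans (le_trans (Finset.sum_le_sum fun i _ => ?_) hB1)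
      rw [norm_mul, norm_pow, hzβ, Complex.norm_real β, Real.norm_of_nonneg hβ0.le]
      calc _ ≤ 1 * β ^ i := by gcongr; exact hfr i
        _ = β ^ i := one_mul _
    · have hz1 := h.lt z hz hzβ
      rw [hHz' z hz hzβ, mul_zero, zero_sub, sub_neg_eq_add]
      refine le_trans (norm_add_le _ _) (le_trans ?_ (hB2 z hz))
      rw [add_comm]
      gcongr
      · refine (norm_sum_le _ _).trans ?_
        calc ∑ i ∈ Finset.range M, ‖((Int.fract (t * H.coeff i) : ℝ) : ℂ) * z ^ i‖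
            ≤ ∑ i ∈ Finset.range M, (1 : ℝ) := by
              apply Finset.sum_le_sum
              intro i _
              rw [norm_mul, norm_pow]
              exact mul_le_one₀ (hfr i) (by positivity) (pow_le_one₀ (norm_nonneg _) hz1.le)
          _ = M := by simp
      · rw [norm_mul, norm_pow]
        exact mul_le_of_le_one_left (norm_nonneg _) (pow_le_one₀ (norm_nonneg _) hz1.le)
  have hcoef := hC r hrdeg B hrB
  -- the digits
  have hdig : ∀ i, 0 ≤ r.coeff i + q.coeff i := by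
    intro i
    have hqi : q.coeff i = if i < M then ⌊t * H.coeff i⌋ else 0 := by
      rw [hq, finsetSum_coeff]
      simp only [coeff_C_mul, coeff_X_pow, mul_ite, mul_one, mul_zero]
      rw [Finset.sum_ite_eq]
      simp [Finset.mem_range]
    by_cases hi : i < f.natDegree
    · have hiM : i < M := by
        by_contra hcon
        have : H.coeff i = 0 := coeff_eq_zero_of_natDegree_lt (by omega)
        have h2 := hδ i hi
        linarith
      rw [hqi, if_pos hiM]
      have h1 := hcoef i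
      have h2 : t * δ ≤ t * H.coeff i := by gcongr; exact hδ i hi
      have h3 := Int.lt_floor_add_one (t * H.coeff i)
      have h4 : (-1 : ℝ) < ((r.coeff i + ⌊t * H.coeff i⌋ : ℤ) : ℝ) := by
        push_cast
        linarith [(abs_le.1 h1).1]
      have h5 : (-1 : ℤ) < r.coeff i + ⌊t * H.coeff i⌋ := by exact_mod_cast h4
      omega
    · have h1 : r.coeff i = 0 := coeff_eq_zero_of_natDegree_lt (by omega)
      rw [h1, hqi, zero_add]
      split_ifs
      · exact Int.floor_nonneg.2 (mul_nonneg ht0.le (hH1 i))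
      · exact le_rfl
  refine ⟨n, (r + q).natDegree + 1, fun i => ((r + q).coeff i).toNat, ?_⟩
  have h1 : aeval β (r + q) = β ^ n * x := by
    have h2 : aeval β r = β ^ n * x - aeval β q := by
      rw [hr, aeval_modByMonic_eq_self_of_root (minpoly.aeval ℤ β), map_sub, map_mul, map_pow,
        aeval_X]
    rw [map_add, h2]
    ring
  rw [← h1, aeval_eq_sum_range]
  apply Finset.sum_congr rfl
  intro i _
  have h2 : ((((r + q).coeff i).toNat : ℕ) : ℤ) = (r + q).coeff i := by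
    rw [Int.toNat_of_nonneg]
    rw [coeff_add]; exact hdig i
  have h3 : ((((r + q).coeff i).toNat : ℕ) : ℝ) = (((r + q).coeff i : ℤ) : ℝ) := by
    exact_mod_cast h2
  rw [h3, zsmul_eq_mul]

/-! ### Uniform bound for the digits -/

/-- `x` is a sum of finitely many `a_j / β ^ j`, `j ≥ 1`, with `a_j ∈ {0, ..., m}` -/
def Rep (β : ℝ) (m : ℕ) (x : ℝ) : Prop :=
  ∃ (k : ℕ) (a : ℕ → ℕ), (∀ j, a j ≤ m) ∧ x = ∑ j ∈ Finset.range k, (a j : ℝ) / β ^ (j + 1)

lemma Rep.mono {β : ℝ} {m n : ℕ} (h : m ≤ n) {x : ℝ} (hx : Rep β m x) : Rep β n x := by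
  obtain ⟨k, a, ha, hx⟩ := hx
  exact ⟨k, a, fun j => (ha j).trans h, hx⟩

theorem exists_rep {β : ℝ} (h : Good β) (p : ℤ[X]) (hx0 : 0 ≤ aeval β p) (hx1 : aeval β p < 1) :
    ∃ m, Rep β m (aeval β p) := by
  have hβ := h.one_lt
  have hβ0 : 0 < β := by linarith
  rcases hx0.lt_or_eq with hx | hx
  swap
  · exact ⟨0, 0, fun _ => 0, fun _ => le_rfl, by simp [← hx]⟩
  obtain ⟨n, M, a, ha⟩ := claim_one h p hx
  set x := aeval β p with hxdef
  have hzero : ∀ i < M, n ≤ i → a i = 0 := by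
    intro i hi hni
    by_contra hne
    have h1 : (1 : ℝ) ≤ a i := by exact_mod_cast Nat.one_le_iff_ne_zero.2 hne
    have h2 : β ^ i ≤ β ^ n * x := by
      rw [ha]
      calc β ^ i = 1 * β ^ i := (one_mul _).symm
        _ ≤ (a i : ℝ) * β ^ i := by gcongr
        _ ≤ _ := Finset.single_le_sum (f := fun i => (a i : ℝ) * β ^ i)
          (fun i _ => by positivity) (Finset.mem_range.2 hi)
    have h3 : β ^ n ≤ β ^ i := pow_le_pow_right₀ hβ.le hni
    have h4 : β ^ n * x < β ^ n * 1 := by gcongr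
    linarith
  set b : ℕ → ℕ := fun i => if i < M then a i else 0 with hb
  have hb1 : β ^ n * x = ∑ i ∈ Finset.range n, (b i : ℝ) * β ^ i := by
    have h1 : ∑ i ∈ Finset.range M, (a i : ℝ) * β ^ i =
        ∑ i ∈ Finset.range (max n M), (b i : ℝ) * β ^ i := by
      rw [← Finset.sum_subset (Finset.range_subset_range.2 (le_max_right n M))]
      · apply Finset.sum_congr rfl
        intro i hi
        rw [hb]
        simp only [if_pos (Finset.mem_range.1 hi)]
      · intro i _ hi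
        rw [Finset.mem_range] at hi
        simp [hb, hi]
    have h2 : ∑ i ∈ Finset.range (max n M), (b i : ℝ) * β ^ i =
        ∑ i ∈ Finset.range n, (b i : ℝ) * β ^ i := by
      rw [← Finset.sum_subset (Finset.range_subset_range.2 (le_max_left n M))]
      intro i _ hi
      rw [Finset.mem_range, not_lt] at hi
      by_cases hiM : i < M
      · simp [hb, hiM, hzero i hiM hi]
      · simp [hb, hiM]
    rw [ha, h1, h2]
  refine ⟨∑ i ∈ Finset.range n, b i, n, fun j => if j < n then b (n - 1 - j) else 0, ?_, ?_⟩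
  · intro j
    simp only
    split_ifs with hj
    · exact Finset.single_le_sum (f := b) (fun i _ => Nat.zero_le _) (Finset.mem_range.2 (by omega))
    · exact Nat.zero_le _
  · have h1 : x = ∑ i ∈ Finset.range n, (b i : ℝ) * β ^ i / β ^ n := by
      rw [← Finset.sum_div, ← hb1]
      field_simp
    rw [h1, ← Finset.sum_range_reflect]
    apply Finset.sum_congr rfl
    intro j hj
    have hj' := Finset.mem_range.1 hj
    beta_reduce
    rw [if_pos hj']
    have h2 : β ^ n = β ^ (n - 1 - j) * β ^ (j + 1) := by rw [← pow_add]; congr 1; omega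
    rw [h2]
    field_simp

/-- the polynomials representing the remainders of the greedy algorithm -/
noncomputable def gr (β : ℝ) (p : ℤ[X]) : ℕ → ℤ[X]
  | 0 => p
  | n + 1 => X * gr β p n - C ⌊β * aeval β (gr β p n)⌋

lemma gr_val {β : ℝ} (p : ℤ[X]) (n : ℕ) :
    aeval β (gr β p (n + 1)) = Int.fract (β * aeval β (gr β p n)) := by
  rw [gr, map_sub, map_mul, aeval_X, aeval_C, eq_intCast]
  rfl

lemma gr_mem {β : ℝ} (p : ℤ[X]) (h0 : 0 ≤ aeval β p) (h1 : aeval β p < 1) (n : ℕ) :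
    0 ≤ aeval β (gr β p n) ∧ aeval β (gr β p n) < 1 := by
  cases n with
  | zero => exact ⟨h0, h1⟩
  | succ n => rw [gr_val]; exact ⟨Int.fract_nonneg _, Int.fract_lt_one _⟩

lemma gr_sum {β : ℝ} (hβ : 0 < β) (p : ℤ[X]) (n : ℕ) :
    aeval β p = ∑ j ∈ Finset.range n, ((⌊β * aeval β (gr β p j)⌋ : ℤ) : ℝ) / β ^ (j + 1) +
      aeval β (gr β p n) / β ^ n := by
  induction n with
  | zero => simp [gr]
  | succ n ih =>
    rw [Finset.sum_range_succ, gr_val]
    conv_lhs => rw [ih]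
    have h1 := Int.floor_add_fract (β * aeval β (gr β p n))
    have h2 : aeval β (gr β p n) / β ^ n = (β * aeval β (gr β p n)) / β ^ (n + 1) := by
      rw [pow_succ]
      field_simp
    rw [h2]
    conv_lhs => rw [← h1]
    ring

lemma gr_conj {β : ℝ} (hβ : 0 < β) (p : ℤ[X]) (h0 : 0 ≤ aeval β p) (h1 : aeval β p < 1) (z : ℂ)
    (hz : ‖z‖ < 1) (n : ℕ) :
    ‖aeval z (gr β p n)‖ ≤ ‖z‖ ^ n * ‖aeval z p‖ + β / (1 - ‖z‖) := by
  induction n with
  | zero =>
    have : 0 < 1 - ‖z‖ := by linarith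
    have : 0 ≤ β / (1 - ‖z‖) := by positivity
    simp [gr]
    linarith
  | succ n ih =>
    obtain ⟨h2, h3⟩ := gr_mem p h0 h1 n
    rw [gr, map_sub, map_mul, aeval_X, aeval_C]
    have h4 : ‖(algebraMap ℤ ℂ) ⌊β * aeval β (gr β p n)⌋‖ ≤ β := by
      have h5 : 0 ≤ ⌊β * aeval β (gr β p n)⌋ := Int.floor_nonneg.2 (by positivity)
      have h6 : ((⌊β * aeval β (gr β p n)⌋ : ℤ) : ℝ) ≤ β * aeval β (gr β p n) := Int.floor_le _
      have h7 : ‖(algebraMap ℤ ℂ) ⌊β * aeval β (gr β p n)⌋‖ =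
          ((⌊β * aeval β (gr β p n)⌋ : ℤ) : ℝ) := by
        rw [eq_intCast, Complex.norm_intCast, abs_of_nonneg (by exact_mod_cast h5)]
      rw [h7]
      nlinarith
    have hz0 : 0 < 1 - ‖z‖ := by linarith
    calc ‖z * aeval z (gr β p n) - (algebraMap ℤ ℂ) ⌊β * aeval β (gr β p n)⌋‖
        ≤ ‖z‖ * ‖aeval z (gr β p n)‖ + β := by
          refine (norm_sub_le _ _).trans ?_
          rw [norm_mul]
          gcongr
      _ ≤ ‖z‖ * (‖z‖ ^ n * ‖aeval z p‖ + β / (1 - ‖z‖)) + β := by gcongr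
      _ = ‖z‖ ^ (n + 1) * ‖aeval z p‖ + β / (1 - ‖z‖) := by
          field_simp
          ring

lemma finite_polys (d N : ℕ) :
    {q : ℤ[X] | q.natDegree < d ∧ ∀ i, |q.coeff i| ≤ N}.Finite := by
  classical
  refine Set.Finite.subset (Set.Finite.image (fun c : Fin d → ℤ => ∑ i : Fin d, C (c i) * X ^ (i : ℕ))
    (Set.Finite.pi' (t := fun _ : Fin d => Set.Icc (-(N : ℤ)) N) fun _ => Set.finite_Icc _ _)) ?_
  rintro q ⟨hq1, hq2⟩
  refine ⟨fun i => q.coeff i, ?_, ?_⟩
  · intro i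
    exact abs_le.1 (hq2 i)
  · simp only
    rw [Fin.sum_univ_eq_sum_range (fun i => C (q.coeff i) * X ^ i) d]
    exact (as_sum_range_C_mul_X_pow' q hq1).symm

theorem uniform {β : ℝ} (h : Good β) : ∃ m, ∀ p : ℤ[X], 0 ≤ aeval β p → aeval β p < 1 →
    Rep β m (aeval β p) := by
  classical
  have hβ := h.one_lt
  have hβ0 : 0 < β := by linarith
  have hint := h.int
  obtain ⟨C, hC0, hC⟩ := coeff_bound hint
  obtain ⟨s, hs⟩ := roots_finset hint
  set f := minpoly ℤ β with hf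
  have hfm : f.Monic := minpoly.monic hint
  have hd0 : 0 < f.natDegree := minpoly.natDegree_pos hint
  have hfne1 : f ≠ 1 := by
    intro h1
    rw [h1] at hd0
    simp at hd0
  set s' := s.erase (β : ℂ) with hs'
  set B : ℝ := 1 + ∑ z ∈ s', β / (1 - ‖z‖) with hB
  have hlt : ∀ z ∈ s', ‖z‖ < 1 := by
    intro z hz
    rw [hs', Finset.mem_erase, hs] at hz
    exact h.lt z hz.2 hz.1
  have hBz : ∀ z ∈ s', 1 + β / (1 - ‖z‖) ≤ B := by
    intro z hz
    rw [hB]
    gcongr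
    exact Finset.single_le_sum (f := fun z : ℂ => β / (1 - ‖z‖))
      (fun z hz => by
        have := hlt z hz
        have : 0 < 1 - ‖z‖ := by linarith
        positivity) hz
  have hB1 : 1 ≤ B := by
    rw [hB]
    have : 0 ≤ ∑ z ∈ s', β / (1 - ‖z‖) := Finset.sum_nonneg fun z hz => by
      have := hlt z hz
      have : 0 < 1 - ‖z‖ := by linarith
      positivity
    linarith
  set N : ℕ := ⌈C * B⌉₊ with hN
  have hfin := finite_polys f.natDegree N
  -- bound for the finitely many remainders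
  obtain ⟨m₀, hm₀⟩ : ∃ m₀, ∀ q : ℤ[X], q.natDegree < f.natDegree → (∀ i, |q.coeff i| ≤ N) →
      0 ≤ aeval β q → aeval β q < 1 → Rep β m₀ (aeval β q) := by
    let μ : ℤ[X] → ℕ := fun q => if hq : 0 ≤ aeval β q ∧ aeval β q < 1 then
      (exists_rep h q hq.1 hq.2).choose else 0
    obtain ⟨m₀, hm₀⟩ := (hfin.image μ).bddAbove
    refine ⟨m₀, fun q hq1 hq2 hq3 hq4 => ?_⟩
    have h1 : μ q ≤ m₀ := hm₀ ⟨q, ⟨hq1, hq2⟩, rfl⟩
    refine Rep.mono h1 ?_
    have h2 : μ q = (exists_rep h q hq3 hq4).choose := dif_pos ⟨hq3, hq4⟩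
    rw [h2]
    exact (exists_rep h q hq3 hq4).choose_spec
  refine ⟨max m₀ ⌊β⌋₊, fun p hp0 hp1 => ?_⟩
  -- choose n
  obtain ⟨n, hn⟩ : ∃ n : ℕ, ∀ z ∈ s', ‖z‖ ^ n * ‖aeval z p‖ ≤ 1 := by
    have h1 : ∀ z ∈ s', ∀ᶠ n : ℕ in Filter.atTop, ‖z‖ ^ n * ‖aeval z p‖ ≤ 1 := by
      intro z hz
      have h2 : Filter.Tendsto (fun n : ℕ => ‖z‖ ^ n * ‖aeval z p‖) Filter.atTop (nhds 0) := by
        have := (tendsto_pow_atTop_nhds_zero_of_lt_one (norm_nonneg z) (hlt z hz)).mul_const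
          (‖aeval z p‖)
        simpa using this
      exact (h2.eventually (gt_mem_nhds (show (0 : ℝ) < 1 by norm_num))).mono fun n hn => hn.le
    have h3 := (Filter.eventually_all_finset s').2 h1
    exact h3.exists
  have hmem := gr_mem p hp0 hp1
  set q := gr β p n %ₘ f with hq
  have hqβ : aeval β q = aeval β (gr β p n) := aeval_modByMonic_eq_self_of_root (minpoly.aeval ℤ β)
  have hqdeg : q.natDegree < f.natDegree := natDegree_modByMonic_lt _ hfm hfne1
  have hqB : ∀ z : ℂ, aeval z f = 0 → ‖aeval z q‖ ≤ B := by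
    intro z hz
    rw [hq, aeval_modByMonic_eq_self_of_root hz]
    by_cases hzβ : z = β
    · rw [hzβ, aeval_ofReal, Complex.norm_real, Real.norm_of_nonneg (hmem n).1]
      linarith [(hmem n).2]
    · have hz' : z ∈ s' := by rw [hs', Finset.mem_erase, hs]; exact ⟨hzβ, hz⟩
      refine (gr_conj hβ0 p hp0 hp1 z (hlt z hz') n).trans ?_
      linarith [hn z hz', hBz z hz']
  have hqN : ∀ i, |q.coeff i| ≤ N := by
    intro i
    have h1 := hC q hqdeg B hqB i
    have h2 : |(q.coeff i : ℝ)| ≤ N := h1.trans (Nat.le_ceil _)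
    have h3 : ((|q.coeff i| : ℤ) : ℝ) ≤ ((N : ℤ) : ℝ) := by push_cast; exact h2
    exact_mod_cast h3
  obtain ⟨k, a, ha, hqa⟩ := hm₀ q hqdeg hqN (by rw [hqβ]; exact (hmem n).1)
    (by rw [hqβ]; exact (hmem n).2)
  refine ⟨n + k, fun j => if j < n then ⌊β * aeval β (gr β p j)⌋.toNat else a (j - n), ?_, ?_⟩
  · intro j
    simp only
    split_ifs with hj
    · refine le_trans ?_ (le_max_right _ _)
      apply Nat.le_floor
      have h1 := (hmem j).1
      have h2 := (hmem j).2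
      have h3 : 0 ≤ ⌊β * aeval β (gr β p j)⌋ := Int.floor_nonneg.2 (by positivity)
      have h4 : ((⌊β * aeval β (gr β p j)⌋.toNat : ℕ) : ℝ) =
          ((⌊β * aeval β (gr β p j)⌋ : ℤ) : ℝ) := by
        exact_mod_cast Int.toNat_of_nonneg h3
      rw [h4]
      have h5 : ((⌊β * aeval β (gr β p j)⌋ : ℤ) : ℝ) ≤ β * aeval β (gr β p j) := Int.floor_le _
      nlinarith
    · exact (ha _).trans (le_max_left _ _)
  · rw [Finset.sum_range_add, gr_sum hβ0 p n]
    congr 1
    · apply Finset.sum_congr rfl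
      intro j hj
      beta_reduce
      rw [if_pos (Finset.mem_range.1 hj)]
      have h1 := (hmem j).1
      have h3 : 0 ≤ ⌊β * aeval β (gr β p j)⌋ := Int.floor_nonneg.2 (by positivity)
      have h4 : ((⌊β * aeval β (gr β p j)⌋.toNat : ℕ) : ℝ) =
          ((⌊β * aeval β (gr β p j)⌋ : ℤ) : ℝ) := by
        exact_mod_cast Int.toNat_of_nonneg h3
      rw [h4]
    · rw [← hqβ, hqa, Finset.sum_div]
      apply Finset.sum_congr rfl
      intro j _
      beta_reduce
      rw [if_neg (by omega), Nat.add_sub_cancel_left, div_div, ← pow_add]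
      congr 2
      ring

/-- converse: another positive conjugate is an obstruction -/
theorem converse {β : ℝ} (hβ : 1 < β) (hint : IsIntegral ℤ β) {z : ℂ}
    (hz : aeval z (minpoly ℤ β) = 0) (hz1 : ‖z‖ < 1) (him : z.im = 0) (hre : 0 < z.re) (m : ℕ) :
    ¬ Rep β m (β - ⌊β⌋) := by
  rintro ⟨k, a, -, h⟩
  have hβ0 : 0 < β := by linarith
  set G : ℤ[X] := X ^ k * (X - C ⌊β⌋) - ∑ j ∈ Finset.range k, C (a j : ℤ) * X ^ (k - 1 - j) with hG
  have hval : ∀ y : ℝ, aeval y G = y ^ k * (y - ⌊β⌋) - ∑ j ∈ Finset.range k, (a j : ℝ) *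
      y ^ (k - 1 - j) := by
    intro y
    rw [hG, map_sub, map_mul, map_pow, map_sub, aeval_X, map_sum]
    simp
  have h0 : aeval β G = 0 := by
    rw [hval, h, Finset.mul_sum, sub_eq_zero]
    apply Finset.sum_congr rfl
    intro j hj
    have hj' := Finset.mem_range.1 hj
    have h2 : β ^ k = β ^ (k - 1 - j) * β ^ (j + 1) := by rw [← pow_add]; congr 1; omega
    rw [h2]
    field_simp
  obtain ⟨Q, hQ⟩ := minpoly.isIntegrallyClosed_dvd hint h0
  have hzr : z = ((z.re : ℝ) : ℂ) := by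
    apply Complex.ext <;> simp [him]
  have h1 : aeval z.re (minpoly ℤ β) = 0 := by
    have h2 : aeval ((z.re : ℝ) : ℂ) (minpoly ℤ β) = 0 := by rw [← hzr]; exact hz
    rw [aeval_ofReal] at h2
    exact_mod_cast h2
  have h2 : aeval z.re G = 0 := by rw [hQ, map_mul, h1, zero_mul]
  rw [hval] at h2
  have h3 : z.re < 1 := lt_of_le_of_lt (Complex.re_le_norm z) hz1
  have h4 : (1 : ℝ) ≤ ⌊β⌋ := by
    have : (1 : ℤ) ≤ ⌊β⌋ := Int.le_floor.2 (by simpa using hβ.le)
    exact_mod_cast this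
  have h5 : 0 ≤ ∑ j ∈ Finset.range k, (a j : ℝ) * z.re ^ (k - 1 - j) :=
    Finset.sum_nonneg fun j _ => by positivity
  have h6 : 0 < z.re ^ k := by positivity
  nlinarith

end Pool.Agent.R341.PosRep
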