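import Pool.Agent.R341.Greedy

set_option autoImplicit false

open Polynomial

namespace Pool.Agent.R341.Powers

open Pool.Agent.R341.Greedy

/-- `γ` is a Parry number: the orbit of `1` under `T_γ` is finite. -/
def Parry (γ : ℝ) : Prop := 1 < γ ∧ (Set.range fun n : ℕ => r γ (n + 1)).Finite

/-- the conjugate remainders -/
noncomputable def rc (γ : ℝ) (g : ℂ) : ℕ → ℂ
  | 0 => 1
  | n + 1 => g * rc γ g n - (⌊γ * r γ n⌋ : ℤ)

/-- the remainders of `β^k` as polynomials in `β` -/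
noncomputable def rp (β : ℝ) (k : ℕ) : ℕ → ℤ[X]
  | 0 => 1
  | n + 1 => X ^ k * rp β k n - C ⌊β ^ k * r (β ^ k) n⌋

lemma aeval_rp_real (β : ℝ) (k n : ℕ) : aeval β (rp β k n) = r (β ^ k) n := by
  induction n with
  | zero => simp [rp, r]
  | succ n ih => simp [rp, r, ih]

lemma aeval_rp_complex (β : ℝ) (k : ℕ) (z : ℂ) (n : ℕ) :
    aeval z (rp β k n) = rc (β ^ k) (z ^ k) n := by
  induction n with
  | zero => simp [rp, rc]
  | succ n ih => simp [rp, rc, ih]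

/-- `z` is a conjugate of `β` (in the sense that it is a root of all integer polynomials with
root `β`). -/
def Conj (β : ℝ) (z : ℂ) : Prop := ∀ f : ℤ[X], aeval β f = 0 → aeval z f = 0

lemma rc_eq_of_r_eq {β : ℝ} {z : ℂ} (hc : Conj β z) {k a b : ℕ}
    (h : r (β ^ k) a = r (β ^ k) b) : rc (β ^ k) (z ^ k) a = rc (β ^ k) (z ^ k) b := by
  have h1 : aeval β (rp β k a - rp β k b) = 0 := by
    rw [map_sub, aeval_rp_real, aeval_rp_real, h, sub_self]
  have h2 := hc _ h1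
  rw [map_sub, aeval_rp_complex, aeval_rp_complex, sub_eq_zero] at h2
  exact h2

lemma bounded {β : ℝ} {z : ℂ} (hc : Conj β z) {k : ℕ} (hP : Parry (β ^ k)) :
    ∃ B : ℝ, ∀ n, ‖rc (β ^ k) (z ^ k) n‖ ≤ B := by
  classical
  have hfin : (Set.range fun n : ℕ => rc (β ^ k) (z ^ k) (n + 1)).Finite := by
    have h1 : (Set.range fun n : ℕ => rc (β ^ k) (z ^ k) (n + 1)) ⊆
        (fun y : ℝ => rc (β ^ k) (z ^ k)
          (if h : ∃ n, r (β ^ k) (n + 1) = y then h.choose + 1 else 0)) ''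
        (Set.range fun n : ℕ => r (β ^ k) (n + 1)) := by
      rintro _ ⟨n, rfl⟩
      refine ⟨r (β ^ k) (n + 1), ⟨n, rfl⟩, ?_⟩
      have hex : ∃ m, r (β ^ k) (m + 1) = r (β ^ k) (n + 1) := ⟨n, rfl⟩
      simp only [dif_pos hex]
      exact rc_eq_of_r_eq hc hex.choose_spec
    exact (hP.2.image _).subset h1
  obtain ⟨B, hB⟩ := (hfin.image fun w : ℂ => ‖w‖).bddAbove
  refine ⟨max B 1, fun n => ?_⟩
  rcases n with _ | n
  · simp [rc]
  · exact le_max_of_le_left (hB ⟨_, ⟨n, rfl⟩, rfl⟩)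

lemma r_nonneg (γ : ℝ) (n : ℕ) : 0 ≤ r γ n := by
  cases n with
  | zero => simp [r]
  | succ n => rw [r]; linarith [Int.floor_le (γ * r γ n)]

lemma r_le_one (γ : ℝ) (n : ℕ) : r γ n ≤ 1 := by
  cases n with
  | zero => simp [r]
  | succ n => rw [r]; linarith [Int.lt_floor_add_one (γ * r γ n)]

/-- a sequence growing more than affinely is unbounded -/
lemma unbounded_of_growth {a : ℕ → ℝ} {l K : ℝ} (hl : 1 < l) {n₀ : ℕ}
    (hrec : ∀ n, n₀ ≤ n → l * a n - K ≤ a (n + 1)) (h0 : K < (l - 1) * a n₀) (B : ℝ) :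
    ∃ n, B < a n := by
  set ε := (l - 1) * a n₀ - K with hε
  have hε0 : 0 < ε := by linarith
  have key : ∀ i : ℕ, a n₀ + i * ε ≤ a (n₀ + i) := by
    intro i
    induction i with
    | zero => simp
    | succ i ih =>
      have h1 := hrec (n₀ + i) (by omega)
      have h2 : a n₀ ≤ a (n₀ + i) := by
        have : 0 ≤ (i : ℝ) * ε := by positivity
        linarith
      have h3 : (l - 1) * a n₀ ≤ (l - 1) * a (n₀ + i) :=
        mul_le_mul_of_nonneg_left h2 (by linarith)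
      rw [← add_assoc]
      push_cast
      linarith
  obtain ⟨i, hi⟩ := exists_nat_gt ((B - a n₀) / ε)
  refine ⟨n₀ + i, lt_of_lt_of_le ?_ (key i)⟩
  rw [div_lt_iff₀ hε0] at hi
  linarith

/-- Criterion C: the conjugate orbit leaves the region where it can stay bounded. -/
theorem crit_C {β : ℝ} {z : ℂ} (hc : Conj β z) {k : ℕ} (hg : 1 < ‖z ^ k‖) {D : ℝ}
    (hD : ∀ n, ((⌊β ^ k * r (β ^ k) n⌋ : ℤ) : ℝ) ≤ D) (hβ : 0 ≤ β) {n₀ : ℕ}
    (h : D < (‖z ^ k‖ - 1) * ‖rc (β ^ k) (z ^ k) n₀‖) : ¬ Parry (β ^ k) := by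
  intro hP
  obtain ⟨B, hB⟩ := bounded hc hP
  obtain ⟨n, hn⟩ := unbounded_of_growth (a := fun n => ‖rc (β ^ k) (z ^ k) n‖) hg (K := D)
    (n₀ := n₀) (fun n _ => by
      rw [rc]
      have h1 := norm_sub_norm_le (z ^ k * rc (β ^ k) (z ^ k) n)
        ((⌊β ^ k * r (β ^ k) n⌋ : ℤ) : ℂ)
      rw [norm_mul] at h1
      have h2 : ‖((⌊β ^ k * r (β ^ k) n⌋ : ℤ) : ℂ)‖ = ((⌊β ^ k * r (β ^ k) n⌋ : ℤ) : ℝ) := by
        rw [Complex.norm_intCast]
        apply abs_of_nonneg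
        have : 0 ≤ ⌊β ^ k * r (β ^ k) n⌋ :=
          Int.floor_nonneg.2 (mul_nonneg (pow_nonneg hβ k) (r_nonneg _ _))
        exact_mod_cast this
      rw [h2] at h1
      linarith [hD n]) h B
  exact absurd (hB n) (not_le.2 hn)

/-- Criterion A. -/
theorem crit_A {β : ℝ} {z : ℂ} (hc : Conj β z) {k : ℕ} (hg : 1 < ‖z ^ k‖)
    (hne : z ^ k ≠ (β : ℂ) ^ k)
    (h : ‖z ^ k - 1‖ < (‖z ^ k‖ - 1) * ‖2 * z ^ k - 1‖) : ¬ Parry (β ^ k) := by
  intro hP
  obtain ⟨B, hB⟩ := bounded hc hP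
  set g := z ^ k with hgdef
  set γ := β ^ k with hγ
  have hγc : ((γ : ℝ) : ℂ) = (β : ℂ) ^ k := by rw [hγ]; push_cast; rfl
  have hne' : (γ : ℂ) - g ≠ 0 := by
    rw [hγc]; exact sub_ne_zero.2 (Ne.symm hne)
  have hpos : 0 < ‖(γ : ℂ) - g‖ := norm_pos_iff.2 hne'
  let E : ℕ → ℂ := fun n => 2 * (g - 1) * (rc γ g n - r γ n) - (γ - g)
  have hrec : ∀ n, E (n + 1) = g * E n - (γ - g) * (g - 1) * (2 * r γ n - 1) := by
    intro n
    simp only [E, rc, r]
    push_cast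
    ring
  have hE1 : E 1 = -((γ - g) * (2 * g - 1)) := by
    simp only [E, rc, r]
    push_cast
    ring
  obtain ⟨n, hn⟩ := unbounded_of_growth (a := fun n => ‖E n‖) hg
    (K := ‖(γ : ℂ) - g‖ * ‖g - 1‖) (n₀ := 1) (fun n _ => by
      rw [hrec]
      have h1 := norm_sub_norm_le (g * E n) ((γ - g) * (g - 1) * (2 * r γ n - 1))
      rw [norm_mul, norm_mul, norm_mul] at h1
      have h2 : ‖(2 * (r γ n : ℂ) - 1)‖ ≤ 1 := by
        have : (2 * (r γ n : ℂ) - 1) = ((2 * r γ n - 1 : ℝ) : ℂ) := by push_cast; ring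
        rw [this, Complex.norm_real, Real.norm_eq_abs, abs_le]
        constructor <;> linarith [r_nonneg γ n, r_le_one γ n]
      have h3 : ‖(γ : ℂ) - g‖ * ‖g - 1‖ * ‖(2 * (r γ n : ℂ) - 1)‖ ≤ ‖(γ : ℂ) - g‖ * ‖g - 1‖ := by
        apply mul_le_of_le_one_right _ h2
        positivity
      linarith) (by
      rw [hE1, norm_neg, norm_mul]
      nlinarith) (2 * ‖g - 1‖ * (B + 1) + ‖(γ : ℂ) - g‖)
  apply absurd hn
  rw [not_lt]
  calc ‖E n‖ ≤ ‖2 * (g - 1) * (rc γ g n - r γ n)‖ + ‖(γ : ℂ) - g‖ := norm_sub_le _ _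
    _ ≤ 2 * ‖g - 1‖ * (B + 1) + ‖(γ : ℂ) - g‖ := by
      rw [norm_mul, norm_mul]
      have h1 : ‖rc γ g n - (r γ n : ℂ)‖ ≤ B + 1 := by
        refine (norm_sub_le _ _).trans (add_le_add (hB n) ?_)
        rw [Complex.norm_real, Real.norm_of_nonneg (r_nonneg _ _)]
        exact r_le_one _ _
      have h2 : ‖(2 : ℂ)‖ = 2 := by simp
      rw [h2]
      gcongr

/-- Criterion A in the region beyond the golden ratio. -/
theorem crit_golden {β : ℝ} {z : ℂ} (hc : Conj β z) {k : ℕ} (hg0 : 1 < ‖z ^ k‖)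
    (hg : ‖z ^ k‖ + 1 < ‖z ^ k‖ ^ 2)
    (hne : z ^ k ≠ (β : ℂ) ^ k) : ¬ Parry (β ^ k) := by
  apply crit_A hc hg0 hne
  set g := z ^ k
  set ρ := ‖g‖ with hρ
  have hρ2 : g.re ^ 2 + g.im ^ 2 = ρ ^ 2 := by
    rw [hρ, ← Complex.normSq_eq_norm_sq, Complex.normSq_apply]; ring
  have n1 : ‖g - 1‖ ^ 2 = ρ ^ 2 - 2 * g.re + 1 := by
    rw [← Complex.normSq_eq_norm_sq, Complex.normSq_apply]
    simp
    linear_combination hρ2
  have n2 : ‖2 * g - 1‖ ^ 2 = 4 * ρ ^ 2 - 4 * g.re + 1 := by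
    rw [← Complex.normSq_eq_norm_sq, Complex.normSq_apply]
    simp
    linear_combination 4 * hρ2
  have hre : -ρ ≤ g.re := by
    have := Complex.abs_re_le_norm g
    exact (abs_le.1 this).1
  have hprod : (2 * ρ + 1) * ‖g - 1‖ ≤ (ρ + 1) * ‖2 * g - 1‖ := by
    apply le_of_sq_le_sq _ (by positivity)
    rw [mul_pow, mul_pow, n1, n2]
    nlinarith [mul_nonneg (show (0:ℝ) ≤ 4 * ρ ^ 2 - 2 by nlinarith) (show 0 ≤ g.re + ρ by linarith)]
  have hpos : 0 < ‖g - 1‖ := by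
    apply norm_pos_iff.2
    intro h
    have : g = 1 := sub_eq_zero.1 h
    rw [hρ, this, norm_one] at hg0
    exact lt_irrefl _ hg0
  -- (ρ-1)(2ρ+1) > ρ+1
  have h3 : ρ + 1 < (ρ - 1) * (2 * ρ + 1) := by nlinarith
  have h4 : (ρ + 1) * ‖g - 1‖ < (ρ - 1) * ((2 * ρ + 1) * ‖g - 1‖) := by
    nlinarith
  have h5 : (ρ - 1) * ((2 * ρ + 1) * ‖g - 1‖) ≤ (ρ - 1) * ((ρ + 1) * ‖2 * g - 1‖) :=
    mul_le_mul_of_nonneg_left hprod (by linarith)
  have h6 : (ρ + 1) * ‖g - 1‖ < (ρ + 1) * ((ρ - 1) * ‖2 * g - 1‖) := by linarith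
  exact lt_of_mul_lt_mul_left h6 (by linarith)

/-- after a state with `r ≤ γ - 1` either all digits vanish, or the next non-zero digit is `1` and
comes after at least `q - 1` zeros -/
lemma next_event {γ : ℝ} {g : ℂ} {q n : ℕ} (hγ1 : 1 < γ) (hγ2 : γ < 2)
    (hgap : (γ - 1) * γ ^ (q - 1) < 1) (hn : r γ n ≤ γ - 1) :
    (∀ i, rc γ g (n + i) = g ^ i * rc γ g n) ∨
      ∃ m j, n < m ∧ r γ m ≤ γ - 1 ∧ q ≤ j ∧ rc γ g m = g ^ j * rc γ g n - 1 := by
  classical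
  by_cases h : ∃ i, ⌊γ * r γ (n + i)⌋ ≠ 0
  · right
    set i₀ := Nat.find h with hi₀
    have hspec : ⌊γ * r γ (n + i₀)⌋ ≠ 0 := Nat.find_spec h
    have hlt : ∀ i, i < i₀ → ⌊γ * r γ (n + i)⌋ = 0 := by
      intro i hi
      by_contra hne
      exact Nat.find_min h hi hne
    have hr : ∀ i, i ≤ i₀ → r γ (n + i) = γ ^ i * r γ n ∧ rc γ g (n + i) = g ^ i * rc γ g n := by
      intro i
      induction i with
      | zero => intro _; simp
      | succ i ih =>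
        intro hi
        obtain ⟨h1, h2⟩ := ih (by omega)
        have h3 := hlt i (by omega)
        rw [← add_assoc, r, rc, h3, h1, h2]
        constructor
        · push_cast; ring
        · push_cast; ring
    obtain ⟨h1, h2⟩ := hr i₀ le_rfl
    have hf0 : 0 ≤ ⌊γ * r γ (n + i₀)⌋ :=
      Int.floor_nonneg.2 (mul_nonneg (by linarith) (r_nonneg _ _))
    have hf2 : ⌊γ * r γ (n + i₀)⌋ < 2 := by
      rw [Int.floor_lt]
      have := r_le_one γ (n + i₀)
      push_cast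
      nlinarith
    have hf : ⌊γ * r γ (n + i₀)⌋ = 1 := by omega
    refine ⟨n + i₀ + 1, i₀ + 1, by omega, ?_, ?_, ?_⟩
    · rw [r, hf]
      have := r_le_one γ (n + i₀)
      push_cast
      nlinarith
    · by_contra hq
      push Not at hq
      have h3 : (1 : ℝ) ≤ γ * r γ (n + i₀) := by
        have := Int.floor_le (γ * r γ (n + i₀))
        rw [hf] at this
        exact_mod_cast this
      rw [h1] at h3
      have h4 : γ * (γ ^ i₀ * r γ n) ≤ γ ^ (i₀ + 1) * (γ - 1) := by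
        rw [pow_succ]
        have : 0 ≤ γ ^ i₀ := by positivity
        nlinarith [mul_le_mul_of_nonneg_left hn this]
      have h5 : γ ^ (i₀ + 1) ≤ γ ^ (q - 1) := pow_le_pow_right₀ hγ1.le (by omega)
      nlinarith
    · rw [rc, hf, h2]
      push_cast
      ring
  · left
    push Not at h
    intro i
    induction i with
    | zero => simp
    | succ i ih =>
      rw [← add_assoc, rc, h i, ih]
      push_cast
      ring

/-- Criterion B: gaps of zeros. -/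
theorem crit_B {β : ℝ} {z : ℂ} (hc : Conj β z) {k q : ℕ} (hγ1 : 1 < β ^ k) (hγ2 : β ^ k < 2)
    (hgap : (β ^ k - 1) * (β ^ k) ^ (q - 1) < 1) (hg : 1 < ‖z ^ k‖)
    (h : 1 < ‖z ^ k - 1‖ * (‖z ^ k‖ ^ q - 1)) : ¬ Parry (β ^ k) := by
  intro hP
  obtain ⟨B, hB⟩ := bounded hc hP
  set g := z ^ k with hgdef
  set γ := β ^ k with hγ
  set a := ‖g‖ with ha
  set A := ‖g - 1‖ with hA
  have haq : 0 ≤ a ^ q - 1 := by
    have := one_le_pow₀ (n := q) hg.le
    linarith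
  have hA0 : 0 < A := by
    by_contra hcon
    have : A = 0 := le_antisymm (not_lt.1 hcon) (norm_nonneg _)
    rw [this] at h
    linarith
  set ε := A * (a ^ q - 1) - 1 with hε
  have hε0 : 0 < ε := by linarith
  have h1 : ⌊γ * r γ 0⌋ = 1 := by
    rw [r, mul_one, Int.floor_eq_iff]
    push_cast
    constructor <;> linarith
  have hr1 : r γ 1 = γ - 1 := by
    rw [r, h1, r]; push_cast; ring
  have hrc1 : rc γ g 1 = g - 1 := by
    rw [rc, h1, rc]; push_cast; ring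
  have key : ∀ j : ℕ, ∃ n, r γ n ≤ γ - 1 ∧ A + j * ε ≤ ‖rc γ g n‖ := by
    intro j
    induction j with
    | zero => exact ⟨1, hr1.le, by rw [hrc1]; simp [hA]⟩
    | succ j ih =>
      obtain ⟨n, hn1, hn2⟩ := ih
      have hAn : A ≤ ‖rc γ g n‖ := by
        have : 0 ≤ (j : ℝ) * ε := by positivity
        linarith
      rcases next_event (g := g) (q := q) hγ1 hγ2 hgap hn1 with h2 | ⟨m, i, -, hm1, hi, hm2⟩
      · exfalso
        obtain ⟨i, hi⟩ := pow_unbounded_of_one_lt (B / A) hg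
        have h3 := hB (n + i)
        rw [h2, norm_mul, norm_pow] at h3
        rw [div_lt_iff₀ hA0] at hi
        have : a ^ i * A ≤ a ^ i * ‖rc γ g n‖ := by gcongr
        linarith
      · refine ⟨m, hm1, ?_⟩
        rw [hm2]
        have h3 := norm_sub_norm_le (g ^ i * rc γ g n) 1
        rw [norm_mul, norm_pow, norm_one] at h3
        have h4 : a ^ q ≤ a ^ i := pow_le_pow_right₀ hg.le hi
        have h5 : a ^ q * ‖rc γ g n‖ ≤ a ^ i * ‖rc γ g n‖ := by gcongr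
        have h6 : A * (a ^ q - 1) ≤ ‖rc γ g n‖ * (a ^ q - 1) := by gcongr
        push_cast
        linarith
  obtain ⟨j, hj⟩ := exists_nat_gt (B / ε)
  obtain ⟨n, -, hn⟩ := key j
  rw [div_lt_iff₀ hε0] at hj
  linarith [hB n]

end Pool.Agent.R341.Powers
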