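import Pool.Agent.R341.Powers

set_option autoImplicit false

open Polynomial

namespace Pool.Agent.R341.Powers

open Pool.Agent.R341.Greedy

lemma conj_of_root {d : ℕ} (hd : 2 ≤ d) {β : ℝ} (hβ : β ^ d = β + 1) {z : ℂ}
    (hz : z ^ d = z + 1) : Conj β z := by
  intro f hf
  have hirr : Irreducible (X ^ d - X - 1 : ℚ[X]) :=
    X_pow_sub_X_sub_one_irreducible_rat (by omega)
  have hmon : (X ^ d - X - 1 : ℚ[X]).Monic := by
    monicity!
    rw [if_pos (by omega), if_neg (by omega)]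
    rfl
  have h0 : aeval β (X ^ d - X - 1 : ℚ[X]) = 0 := by
    simp [hβ]
  have hmin := minpoly.eq_of_irreducible_of_monic hirr h0 hmon
  have h1 : aeval β (f.map (algebraMap ℤ ℚ)) = 0 := by
    rw [aeval_map_algebraMap]; exact hf
  have h2 := minpoly.dvd ℚ β h1
  rw [← hmin] at h2
  obtain ⟨q, hq⟩ := h2
  have h3 : aeval z (f.map (algebraMap ℤ ℚ)) = 0 := by
    rw [hq, map_mul]
    simp [hz]
  rw [aeval_map_algebraMap] at h3
  exact h3

/-- the conjugate of `β_d` with smallest positive argument in polar coordinates -/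
structure Polar (d : ℕ) (ρ φ : ℝ) : Prop where
  one_lt : 1 < ρ
  lb : 2 * Real.pi / (d - 1 / 2) < φ
  ub : φ < 2 * Real.pi / (d - 1)
  root : ((ρ : ℂ) * Complex.exp (φ * Complex.I)) ^ d = (ρ : ℂ) * Complex.exp (φ * Complex.I) + 1
  big : (1 + ρ) * Real.cos (φ / 2) ≤ ρ ^ d

lemma exists_polar (d : ℕ) (hd : 4 ≤ d) : ∃ ρ φ : ℝ, Polar d ρ φ := by
  have hpi := Real.pi_pos
  have hd' : (4 : ℝ) ≤ d := by exact_mod_cast hd
  set α₀ : ℝ := 2 * Real.pi / (2 * d - 1) with hα₀
  set α₁ : ℝ := 2 * Real.pi / (d - 1) with hα₁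
  have hα01 : α₀ < α₁ := by
    rw [hα₀, hα₁]
    apply div_lt_div_of_pos_left (by positivity) (by linarith) (by linarith)
  have hα₀pos : 0 < α₀ := by
    rw [hα₀]; apply div_pos (by positivity) (by linarith)
  have hα₀3 : α₀ < Real.pi / 3 := by
    rw [hα₀, div_lt_div_iff₀ (by linarith) (by norm_num)]
    nlinarith
  have hα₁3 : α₁ ≤ 2 * Real.pi / 3 := by
    rw [hα₁, div_le_div_iff₀ (by linarith) (by norm_num)]
    nlinarith
  let Φ : ℝ → ℝ := fun α => (2 * Real.pi + α) / d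
  let H : ℝ → ℝ := fun α =>
    Real.sin α ^ d - Real.sin (Φ α) * Real.sin (Φ α - α) ^ (d - 1)
  have hHc : Continuous H := by
    simp only [H, Φ]
    fun_prop
  have hd0 : (d : ℝ) ≠ 0 := by positivity
  have hΦ0 : Φ α₀ = 2 * α₀ := by
    simp only [Φ]
    have : 2 * (d : ℝ) - 1 ≠ 0 := by linarith
    rw [hα₀]
    field_simp
    ring
  have hΦ1 : Φ α₁ = α₁ := by
    simp only [Φ]
    have : (d : ℝ) - 1 ≠ 0 := by linarith
    rw [hα₁]
    field_simp
    ring
  have hH0 : H α₀ < 0 := by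
    simp only [H, hΦ0]
    rw [show 2 * α₀ - α₀ = α₀ by ring, Real.sin_two_mul]
    have hs : 0 < Real.sin α₀ := Real.sin_pos_of_pos_of_lt_pi hα₀pos (by linarith)
    have hc : 1 / 2 < Real.cos α₀ := by
      rw [← Real.cos_pi_div_three]
      apply Real.cos_lt_cos_of_nonneg_of_le_pi hα₀pos.le (by linarith) hα₀3
    have hsd : Real.sin α₀ ^ d = Real.sin α₀ * Real.sin α₀ ^ (d - 1) := by
      rw [← pow_succ', Nat.sub_add_cancel (by omega)]
    rw [hsd]
    have : 0 < Real.sin α₀ * Real.sin α₀ ^ (d - 1) := by positivity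
    nlinarith
  have hH1 : 0 < H α₁ := by
    simp only [H, hΦ1]
    rw [sub_self, Real.sin_zero, zero_pow (by omega), mul_zero, sub_zero]
    have hs : 0 < Real.sin α₁ := Real.sin_pos_of_pos_of_lt_pi (by linarith) (by linarith)
    positivity
  obtain ⟨α, hα, hHα⟩ := intermediate_value_Ioo hα01.le hHc.continuousOn ⟨hH0, hH1⟩
  set φ := Φ α with hφ
  have hφd : (d : ℝ) * φ = 2 * Real.pi + α := by
    simp only [hφ, Φ]; field_simp
  have h2d : 2 * Real.pi = α₀ * (2 * d - 1) := by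
    rw [hα₀]
    have : 2 * (d : ℝ) - 1 ≠ 0 := by linarith
    field_simp
  have h1d : 2 * Real.pi = α₁ * (d - 1) := by
    rw [hα₁]
    have : (d : ℝ) - 1 ≠ 0 := by linarith
    field_simp
  -- φ < 2 α
  have hφ2α : φ < 2 * α := by
    have : (d : ℝ) * φ < d * (2 * α) := by
      rw [hφd]; nlinarith [hα.1]
    exact lt_of_mul_lt_mul_left this (by positivity)
  have hαφ : α < φ := by
    have : (d : ℝ) * α < d * φ := by
      rw [hφd]; nlinarith [hα.2]
    exact lt_of_mul_lt_mul_left this (by positivity)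
  have hφub : φ < α₁ := by
    have : (d : ℝ) * φ < d * α₁ := by
      rw [hφd]; nlinarith [hα.2]
    exact lt_of_mul_lt_mul_left this (by positivity)
  have hφlb : 2 * α₀ < φ := by
    have : (d : ℝ) * (2 * α₀) < d * φ := by
      rw [hφd]; nlinarith [hα.1]
    exact lt_of_mul_lt_mul_left this (by positivity)
  have hα0 : 0 < α := lt_trans hα₀pos hα.1
  have hs1 : 0 < Real.sin α := Real.sin_pos_of_pos_of_lt_pi hα0 (by linarith)
  have hs2 : 0 < Real.sin (φ - α) :=
    Real.sin_pos_of_pos_of_lt_pi (by linarith) (by linarith)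
  have hs3 : 0 < Real.sin φ := Real.sin_pos_of_pos_of_lt_pi (by linarith) (by linarith)
  set ρ := Real.sin α / Real.sin (φ - α) with hρ
  have hρpos : 0 < ρ := div_pos hs1 hs2
  have hρ1 : 1 < ρ := by
    rw [hρ, one_lt_div hs2]
    have : Real.sin α - Real.sin (φ - α) = 2 * Real.sin ((2 * α - φ) / 2) * Real.cos (φ / 2) := by
      rw [Real.sin_sub_sin]
      congr 2
      · ring_nf
      · ring_nf
    have h1 : 0 < Real.sin ((2 * α - φ) / 2) :=
      Real.sin_pos_of_pos_of_lt_pi (by linarith) (by linarith)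
    have h2 : 0 < Real.cos (φ / 2) := Real.cos_pos_of_mem_Ioo ⟨by linarith, by linarith⟩
    have h3 : 0 < 2 * Real.sin ((2 * α - φ) / 2) * Real.cos (φ / 2) := by positivity
    linarith
  have hρd : ρ ^ d = Real.sin φ / Real.sin (φ - α) := by
    have hHα' : Real.sin α ^ d = Real.sin φ * Real.sin (φ - α) ^ (d - 1) := by
      have : Real.sin α ^ d - Real.sin φ * Real.sin (φ - α) ^ (d - 1) = 0 := hHα
      linarith
    rw [hρ, div_pow, hHα', div_eq_div_iff (by positivity) hs2.ne']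
    rw [mul_assoc, ← pow_succ, Nat.sub_add_cancel (by omega)]
  have hroot : ((ρ : ℂ) * Complex.exp (φ * Complex.I)) ^ d
      = (ρ : ℂ) * Complex.exp (φ * Complex.I) + 1 := by
    have e1 : ((ρ : ℂ) * Complex.exp (φ * Complex.I)) ^ d
        = ((ρ ^ d : ℝ) : ℂ) * Complex.exp ((α : ℝ) * Complex.I) := by
      rw [mul_pow, ← Complex.exp_nat_mul]
      push_cast
      congr 1
      have : (d : ℂ) * (φ * Complex.I) = (α : ℂ) * Complex.I + 2 * Real.pi * Complex.I := by
        have h : (d : ℂ) * φ = 2 * Real.pi + α := by exact_mod_cast congrArg (fun x : ℝ => (x : ℂ)) hφd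
        linear_combination Complex.I * h
      rw [this, Complex.exp_add, Complex.exp_two_pi_mul_I, mul_one]
    rw [e1, hρd]
    apply Complex.ext
    · rw [Complex.re_ofReal_mul, Complex.exp_ofReal_mul_I_re, Complex.add_re,
        Complex.re_ofReal_mul, Complex.exp_ofReal_mul_I_re, Complex.one_re, hρ]
      rw [div_mul_eq_mul_div, div_mul_eq_mul_div, div_add_one hs2.ne', Real.sin_sub]
      congr 1
      ring
    · rw [Complex.im_ofReal_mul, Complex.exp_ofReal_mul_I_im, Complex.add_im,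
        Complex.im_ofReal_mul, Complex.exp_ofReal_mul_I_im, Complex.one_im, hρ]
      rw [div_mul_eq_mul_div, div_mul_eq_mul_div, add_zero]
      congr 1
      ring
  refine ⟨ρ, φ, hρ1, ?_, hφub, hroot, ?_⟩
  · have : 2 * α₀ = 2 * Real.pi / (d - 1 / 2) := by
      rw [hα₀]
      have h1 : 2 * (d : ℝ) - 1 ≠ 0 := by linarith
      have h2 : (d : ℝ) - 1 / 2 ≠ 0 := by linarith
      field_simp
    rw [← this]; exact hφlb
  · have hn : ρ ^ d = ‖(ρ : ℂ) * Complex.exp (φ * Complex.I) + 1‖ := by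
      rw [← hroot, norm_pow, norm_mul, Complex.norm_exp_ofReal_mul_I, mul_one, Complex.norm_real,
        Real.norm_of_nonneg hρpos.le]
    rw [hn]
    apply le_of_sq_le_sq _ (norm_nonneg _)
    rw [← Complex.normSq_eq_norm_sq, Complex.normSq_apply, Complex.add_re, Complex.add_im,
      Complex.re_ofReal_mul, Complex.im_ofReal_mul, Complex.exp_ofReal_mul_I_re,
      Complex.exp_ofReal_mul_I_im, Complex.one_re, Complex.one_im]
    have h1 : Real.cos φ = 2 * Real.cos (φ / 2) ^ 2 - 1 := by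
      rw [← Real.cos_two_mul]; congr 1; ring
    have h2 : Real.sin φ ^ 2 = 1 - Real.cos φ ^ 2 := by
      rw [← Real.sin_sq_add_cos_sq φ]; ring
    have h3 : (ρ * Real.cos φ + 1) * (ρ * Real.cos φ + 1) + (ρ * Real.sin φ + 0) * (ρ * Real.sin φ + 0)
        = ρ ^ 2 + 2 * ρ * Real.cos φ + 1 := by
      linear_combination ρ ^ 2 * h2
    rw [h3, h1]
    have h4 : Real.cos (φ / 2) ^ 2 ≤ 1 := Real.cos_sq_le_one _
    nlinarith [mul_nonneg (sq_nonneg (ρ - 1)) (sub_nonneg.2 h4)]

end Pool.Agent.R341.Powers
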