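import Pool.Agent.R341.Powers3

set_option autoImplicit false

namespace Pool.Agent.R341.Powers

open Pool.Agent.R341.Greedy

/-- the cases `11 ≤ d ≤ 39` -/
theorem mid {d : ℕ} (h1 : 11 ≤ d) (h2 : d ≤ 39) {β : ℝ} (hβ1 : 1 < β) (hβ : β ^ d = β + 1)
    {k : ℕ} (hk : 1 ≤ k) : ¬ Parry (β ^ k) := by
  interval_cases d
  · exact chk_sound (B := 106830) (R := 106315) (S := 100000) (qs := [41, 15, 8, 5, 3, 2, 2]) (by norm_num)
      (by decide +kernel) hβ1 hβ hk
  · exact chk_sound (B := 106217) (R := 105832) (S := 100000) (qs := [47, 18, 9, 6, 4, 3, 2, 1]) (by norm_num)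
      (by decide +kernel) hβ1 hβ hk
  · exact chk_sound (B := 105706) (R := 105410) (S := 100000) (qs := [52, 20, 11, 7, 5, 3, 2, 2, 1]) (by norm_num)
      (by decide +kernel) hβ1 hβ hk
  · exact chk_sound (B := 105272) (R := 105040) (S := 100000) (qs := [58, 22, 12, 8, 5, 4, 3, 2, 2]) (by norm_num)
      (by decide +kernel) hβ1 hβ hk
  · exact chk_sound (B := 104899) (R := 104714) (S := 100000) (qs := [64, 25, 14, 9, 6, 4, 3, 2, 2, 2]) (by norm_num)
      (by decide +kernel) hβ1 hβ hk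
  · exact chk_sound (B := 104576) (R := 104425) (S := 100000) (qs := [69, 27, 15, 10, 7, 5, 4, 3, 2, 2, 1]) (by norm_num)
      (by decide +kernel) hβ1 hβ hk
  · exact chk_sound (B := 104292) (R := 104168) (S := 100000) (qs := [75, 29, 16, 11, 7, 5, 4, 3, 3, 2, 2]) (by norm_num)
      (by decide +kernel) hβ1 hβ hk
  · exact chk_sound (B := 104042) (R := 103939) (S := 100000) (qs := [81, 32, 18, 12, 8, 6, 5, 4, 3, 2, 2, 2]) (by norm_num)
      (by decide +kernel) hβ1 hβ hk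
  · exact chk_sound (B := 103819) (R := 103732) (S := 100000) (qs := [88, 35, 19, 13, 9, 7, 5, 4, 3, 3, 2, 2, 1]) (by norm_num)
      (by decide +kernel) hβ1 hβ hk
  · exact chk_sound (B := 103620) (R := 103546) (S := 100000) (qs := [94, 37, 21, 14, 10, 7, 6, 4, 4, 3, 2, 2, 2]) (by norm_num)
      (by decide +kernel) hβ1 hβ hk
  · exact chk_sound (B := 103440) (R := 103377) (S := 100000) (qs := [100, 40, 23, 15, 11, 8, 6, 5, 4, 3, 3, 2, 2, 2]) (by norm_num)
      (by decide +kernel) hβ1 hβ hk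
  · exact chk_sound (B := 103278) (R := 103223) (S := 100000) (qs := [106, 42, 24, 16, 11, 8, 7, 5, 4, 3, 3, 2, 2, 2, 1]) (by norm_num)
      (by decide +kernel) hβ1 hβ hk
  · exact chk_sound (B := 103130) (R := 103082) (S := 100000) (qs := [113, 45, 26, 17, 12, 9, 7, 6, 5, 4, 3, 3, 2, 2, 2]) (by norm_num)
      (by decide +kernel) hβ1 hβ hk
  · exact chk_sound (B := 102994) (R := 102952) (S := 100000) (qs := [119, 48, 27, 18, 13, 10, 8, 6, 5, 4, 3, 3, 2, 2, 2, 2]) (by norm_num)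
      (by decide +kernel) hβ1 hβ hk
  · exact chk_sound (B := 102870) (R := 102833) (S := 100000) (qs := [126, 51, 29, 19, 14, 10, 8, 7, 5, 4, 4, 3, 3, 2, 2, 2, 2]) (by norm_num)
      (by decide +kernel) hβ1 hβ hk
  · exact chk_sound (B := 102756) (R := 102723) (S := 100000) (qs := [133, 54, 31, 20, 15, 11, 9, 7, 6, 5, 4, 3, 3, 3, 2, 2, 2]) (by norm_num)
      (by decide +kernel) hβ1 hβ hk
  · exact chk_sound (B := 102651) (R := 102622) (S := 100000) (qs := [139, 56, 32, 22, 16, 12, 9, 7, 6, 5, 4, 4, 3, 3, 2, 2, 2, 2]) (by norm_num)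
      (by decide +kernel) hβ1 hβ hk
  · exact chk_sound (B := 102553) (R := 102527) (S := 100000) (qs := [146, 59, 34, 23, 16, 12, 10, 8, 7, 5, 5, 4, 3, 3, 3, 2, 2, 2, 2]) (by norm_num)
      (by decide +kernel) hβ1 hβ hk
  · exact chk_sound (B := 102463) (R := 102439) (S := 100000) (qs := [153, 62, 36, 24, 17, 13, 10, 8, 7, 6, 5, 4, 4, 3, 3, 2, 2, 2, 2]) (by norm_num)
      (by decide +kernel) hβ1 hβ hk
  · exact chk_sound (B := 102378) (R := 102357) (S := 100000) (qs := [160, 65, 38, 25, 18, 14, 11, 9, 7, 6, 5, 4, 4, 3, 3, 3, 2, 2, 2, 2]) (by norm_num)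
      (by decide +kernel) hβ1 hβ hk
  · exact chk_sound (B := 102299) (R := 102280) (S := 100000) (qs := [166, 68, 39, 26, 19, 15, 12, 9, 8, 7, 6, 5, 4, 4, 3, 3, 2, 2, 2, 2, 2]) (by norm_num)
      (by decide +kernel) hβ1 hβ hk
  · exact chk_sound (B := 102226) (R := 102208) (S := 100000) (qs := [173, 71, 41, 28, 20, 15, 12, 10, 8, 7, 6, 5, 4, 4, 3, 3, 3, 2, 2, 2, 2, 1]) (by norm_num)
      (by decide +kernel) hβ1 hβ hk
  · exact chk_sound (B := 102156) (R := 102140) (S := 100000) (qs := [180, 74, 43, 29, 21, 16, 13, 10, 9, 7, 6, 5, 5, 4, 4, 3, 3, 2, 2, 2, 2, 2]) (by norm_num)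
      (by decide +kernel) hβ1 hβ hk
  · exact chk_sound (B := 102091) (R := 102076) (S := 100000) (qs := [187, 77, 45, 30, 22, 17, 13, 11, 9, 8, 6, 6, 5, 4, 4, 3, 3, 3, 2, 2, 2, 2, 2]) (by norm_num)
      (by decide +kernel) hβ1 hβ hk
  · exact chk_sound (B := 102030) (R := 102016) (S := 100000) (qs := [194, 80, 47, 31, 23, 18, 14, 11, 9, 8, 7, 6, 5, 4, 4, 4, 3, 3, 3, 2, 2, 2, 2, 1]) (by norm_num)
      (by decide +kernel) hβ1 hβ hk
  · exact chk_sound (B := 101972) (R := 101960) (S := 100000) (qs := [202, 83, 48, 33, 24, 18, 15, 12, 10, 8, 7, 6, 5, 5, 4, 4, 3, 3, 3, 2, 2, 2, 2, 2]) (by norm_num)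
      (by decide +kernel) hβ1 hβ hk
  · exact chk_sound (B := 101918) (R := 101906) (S := 100000) (qs := [209, 86, 50, 34, 25, 19, 15, 12, 10, 9, 7, 6, 6, 5, 4, 4, 3, 3, 3, 3, 2, 2, 2, 2, 2]) (by norm_num)
      (by decide +kernel) hβ1 hβ hk
  · exact chk_sound (B := 101866) (R := 101855) (S := 100000) (qs := [216, 89, 52, 35, 26, 20, 16, 13, 11, 9, 8, 7, 6, 5, 5, 4, 4, 3, 3, 3, 2, 2, 2, 2, 2, 2]) (by norm_num)
      (by decide +kernel) hβ1 hβ hk
  · exact chk_sound (B := 101817) (R := 101807) (S := 100000) (qs := [223, 92, 54, 37, 27, 21, 16, 13, 11, 10, 8, 7, 6, 5, 5, 4, 4, 3, 3, 3, 3, 2, 2, 2, 2, 2]) (by norm_num)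
      (by decide +kernel) hβ1 hβ hk

end Pool.Agent.R341.Powers
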