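import Pool.Agent.R341.Powers4

set_option autoImplicit false

namespace Pool.Agent.R341.Powers

open Pool.Agent.R341.Greedy

/-- the quotient of the moduli -/
lemma Polar.ratio {d : ℕ} {ρ φ : ℝ} (h : Polar d ρ φ) (hd : 40 ≤ d) {β : ℝ} (hβ1 : 1 < β)
    (hβ : β ^ d = β + 1) :
    1 - 98697 / 20000 / ((d : ℝ) - 1) ^ 2 ≤ (ρ / β) ^ (d - 1) := by
  have h1 := h.one_lt
  have hlt := h.lt_beta (by omega) hβ1 hβ
  have hc := h.cos_ge (by omega)
  have hbig := h.big
  set c := 1 - 98697 / 20000 / ((d : ℝ) - 1) ^ 2 with hcdef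
  have hd' : (40 : ℝ) ≤ d := by exact_mod_cast hd
  have hc0 : 0 ≤ c := by
    rw [hcdef, sub_nonneg, div_le_one (by nlinarith)]
    nlinarith
  have e1 : ρ ^ d = ρ * ρ ^ (d - 1) := by
    rw [← pow_succ', Nat.sub_add_cancel (by omega)]
  have e2 : β * β ^ (d - 1) = β + 1 := by
    rw [← pow_succ', Nat.sub_add_cancel (by omega), hβ]
  rw [div_pow, le_div_iff₀ (by positivity)]
  have h3 : c * (1 + ρ) ≤ ρ * ρ ^ (d - 1) := by
    rw [← e1]
    calc c * (1 + ρ) ≤ Real.cos (φ / 2) * (1 + ρ) := by gcongr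
      _ ≤ ρ ^ d := by linarith
  have h4 : c * (1 + β) * ρ ≤ ρ * ρ ^ (d - 1) * β := by
    have : c * (1 + β) * ρ ≤ c * (1 + ρ) * β := by nlinarith
    have h5 : c * (1 + ρ) * β ≤ ρ * ρ ^ (d - 1) * β := by gcongr
    linarith
  have h5 : (c * β ^ (d - 1)) * (β * ρ) ≤ ρ ^ (d - 1) * (β * ρ) := by
    have : (c * β ^ (d - 1)) * (β * ρ) = c * (1 + β) * ρ := by
      rw [show (1 + β) = β * β ^ (d - 1) by rw [e2]; ring]; ring
    rw [this]
    linarith
  exact le_of_mul_le_mul_right h5 (by positivity)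

lemma aux_sq1 {y : ℝ} (h : 1.16 ≤ y) : (1.5 : ℝ) ^ 2 ≤ 1 + y ^ 2 := by nlinarith

lemma aux_sq2 {y : ℝ} (h : 1.574 ≤ y) : (1.86 : ℝ) ^ 2 ≤ 1 + y ^ 2 := by nlinarith

lemma aux_mul1 {a b : ℝ} (ha : 0.9763 ≤ a) (hb : 0.9967 ≤ b) : 0.973 ≤ b * a := by nlinarith

lemma aux_mul2 {a b : ℝ} (ha : 0.719 ≤ a) (hb : 0.9967 ≤ b) : 0.716 ≤ b * a := by nlinarith

lemma aux_y {y : ℝ} (h : y ^ 2 ≤ y + 1) : y ≤ 1.61804 := by nlinarith

lemma aux_lb {c γ y t : ℝ} (hc : 0.9967 ≤ c) (ht : t ≤ γ) (ht0 : 0 ≤ t) (h : c * γ ≤ y) :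
    0.9967 * t ≤ y := by
  refine le_trans ?_ h
  exact mul_le_mul hc ht ht0 (by linarith)

lemma aux_E2 {d : ℝ} (hd : 40 ≤ d) : 4.883 * 4.952 / 0.69 * d ≤ 0.0237 * (d - 1) ^ 3 := by
  obtain ⟨t, ht⟩ : ∃ t : ℝ, d = 40 + t := ⟨d - 40, by ring⟩
  have ht0 : 0 ≤ t := by linarith
  rw [ht]
  ring_nf
  nlinarith [pow_nonneg ht0 2, pow_nonneg ht0 3]

lemma aux_E1 {d : ℝ} (hd : 40 ≤ d) : 4.952 / 0.4761 * d ^ 2 ≤ 0.281 * (d - 1) ^ 3 := by
  obtain ⟨t, ht⟩ : ∃ t : ℝ, d = 40 + t := ⟨d - 40, by ring⟩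
  have ht0 : 0 ≤ t := by linarith
  rw [ht]
  ring_nf
  nlinarith [pow_nonneg ht0 2, pow_nonneg ht0 3]

lemma aux_m {m b s G : ℝ} (h1 : 1 + m * (b - 1) ≤ G) (h2 : s * G < 1) (hs : 0 < s) :
    m * (b - 1) * s ≤ 1 - s := by nlinarith

lemma aux_gq {A G s y : ℝ} (hA : 0 < A) (hy : y = A * G) (h : 1 ≤ s * G) : A ≤ s * y := by
  rw [hy]; nlinarith

lemma aux_last {s K : ℝ} (hs : 0 < s) (h1 : s ≤ 1.0178 * K) (h2 : K ≤ 1 / 4) :
    s < 4 * K * (0.716 - s) := by
  norm_num at h1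
  have : s ≤ 0.2545 := by norm_num; linarith
  nlinarith

lemma aux_big {x : ℝ} (h0 : 0 < x) (h : x ^ 2 ≤ x + 1) (h6 : 7.64 ≤ x ^ 4) : False := by
  have h8 : x ≤ 1.62 := by nlinarith
  have h9 : x ^ 4 ≤ 1.62 ^ 4 := pow_le_pow_left₀ h0.le h8 4
  norm_num at h6 h9
  linarith

/-- the case of large `d` -/
theorem large {d : ℕ} (hd : 40 ≤ d) {β : ℝ} (hβ1 : 1 < β) (hβ : β ^ d = β + 1)
    {k : ℕ} (hk : 1 ≤ k) : ¬ Parry (β ^ k) := by
  obtain ⟨ρ, φ, h⟩ := exists_polar d (by omega)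
  have hρ1 := h.one_lt
  have hlt := h.lt_beta (by omega) hβ1 hβ
  have hconj : Conj β (zz ρ φ) := conj_of_root (by omega) hβ h.root'
  have hg1 : 1 < ‖zz ρ φ ^ k‖ := by
    rw [h.norm_pow_zz]; exact one_lt_pow₀ hρ1 (by omega)
  have hd' : (40 : ℝ) ≤ d := by exact_mod_cast hd
  have hk' : (1 : ℝ) ≤ k := by exact_mod_cast hk
  by_cases hgold : ρ ^ k + 1 < (ρ ^ k) ^ 2
  · exact crit_golden hconj hg1 (by rw [h.norm_pow_zz]; exact hgold) (h.ne_pow (by omega) hβ1 hβ hk)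
  push Not at hgold
  -- numerical bounds
  have hβu : β ≤ 1.0178 := by
    apply beta_le (by omega) hβ1 hβ (by norm_num)
    calc (1.0178 : ℝ) + 1 ≤ 1.0178 ^ 40 := by norm_num
      _ ≤ 1.0178 ^ d := pow_le_pow_right₀ (by norm_num) hd
  have hx : 0.69 / (d : ℝ) ≤ β - 1 := by
    by_contra hcon
    push Not at hcon
    have h1 : β ^ d ≤ (1 + 0.69 / (d : ℝ)) ^ d := pow_le_pow_left₀ (by linarith) (by linarith) d
    have h2 : (1 + 0.69 / (d : ℝ)) ^ d ≤ Real.exp 0.69 := by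
      have h3 : 1 + 0.69 / (d : ℝ) ≤ Real.exp (0.69 / d) := by
        linarith [Real.add_one_le_exp (0.69 / (d : ℝ))]
      calc (1 + 0.69 / (d : ℝ)) ^ d ≤ Real.exp (0.69 / d) ^ d :=
            pow_le_pow_left₀ (by positivity) h3 d
        _ = Real.exp 0.69 := by
            rw [← Real.exp_nat_mul]; congr 1; field_simp
    have h3 : Real.exp 0.69 < 2 := by
      have := Real.log_two_gt_d9
      rw [← Real.exp_log (show (0 : ℝ) < 2 by norm_num)]
      apply Real.exp_lt_exp.2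
      linarith
    linarith
  set c : ℝ := 1 - 98697 / 20000 / ((d : ℝ) - 1) ^ 2 with hc
  have hc0 : 0.9967 ≤ c := by
    rw [hc]
    have h1 : 98697 / 20000 / ((d : ℝ) - 1) ^ 2 ≤ 0.0033 := by
      rw [div_le_iff₀ (by nlinarith)]
      nlinarith
    linarith
  set δ := ρ / β with hδ
  have hβ0 : 0 < β := by linarith
  have hδ0 : 0 < δ := div_pos (by linarith) hβ0
  have hδ1 : δ < 1 := by rw [hδ, div_lt_one hβ0]; exact hlt
  have hδd : c ≤ δ ^ (d - 1) := h.ratio hd hβ1 hβ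
  have hδE : 1 - δ ≤ 4.952 / ((d : ℝ) - 1) ^ 3 := by
    have hcpos : 0 < c := by linarith
    have h1 : 1 + ((d - 1 : ℕ) : ℝ) * (1 / δ - 1) ≤ (1 + (1 / δ - 1)) ^ (d - 1) := by
      apply one_add_mul_le_pow
      have : 0 < 1 / δ := by positivity
      linarith
    rw [Nat.cast_sub (by omega)] at h1
    have h2 : (1 + (1 / δ - 1)) ^ (d - 1) ≤ 1 / c := by
      rw [show 1 + (1 / δ - 1) = 1 / δ by ring, div_pow, one_pow]
      exact one_div_le_one_div_of_le hcpos hδd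
    have h3 : 1 - δ ≤ 1 / δ - 1 := by
      have : δ + 1 / δ - 2 = (1 - δ) ^ 2 / δ := by field_simp; ring
      have h4 : 0 ≤ (1 - δ) ^ 2 / δ := by positivity
      linarith
    have h4 : 1 / c - 1 ≤ 4.952 / ((d : ℝ) - 1) ^ 2 := by
      have e : 1 / c - 1 = (1 - c) / c := by field_simp
      rw [e, div_le_iff₀ hcpos]
      have e2 : 1 - c = 98697 / 20000 / ((d : ℝ) - 1) ^ 2 := by rw [hc]; ring
      rw [e2, div_mul_eq_mul_div]
      gcongr
      norm_num at hc0 ⊢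
      linarith
    have h5 : ((d : ℝ) - 1) * (1 - δ) ≤ 4.952 / ((d : ℝ) - 1) ^ 2 := by
      have h6 : ((d : ℝ) - 1) * (1 - δ) ≤ ((d : ℝ) - 1) * (1 / δ - 1) := by
        apply mul_le_mul_of_nonneg_left h3 (by linarith)
      push_cast at h1
      linarith
    rw [le_div_iff₀ (by have : (0:ℝ) < d - 1 := by linarith
                        positivity)]
    have hdm1 : (0 : ℝ) < (d : ℝ) - 1 := by linarith
    rw [le_div_iff₀ (by positivity)] at h5
    have e3 : (1 - δ) * ((d : ℝ) - 1) ^ 3 = ((d : ℝ) - 1) * (1 - δ) * ((d : ℝ) - 1) ^ 2 := by ring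
    rw [e3]; exact h5
  -- mode three is impossible
  have hk3 : 4 * k ≤ 3 * (d - 1) := by
    by_contra hcon
    push Not at hcon
    have h1 : ρ ^ (3 * d - 2) ≤ ρ ^ (4 * k) := pow_le_pow_right₀ hρ1.le (by omega)
    have h2 : ρ ^ (3 * d - 2) * ρ ^ 2 = (ρ ^ d) ^ 3 := by
      rw [← pow_add, ← pow_mul]; congr 1; omega
    have h3 : 1.9934 ≤ ρ ^ d := by
      have h4 := h.big
      have h5 := h.cos_ge (by omega)
      have h6 : 2 * c ≤ (1 + ρ) * Real.cos (φ / 2) :=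
        mul_le_mul (by linarith) h5 (by linarith) (by linarith)
      norm_num at hc0 ⊢
      linarith
    have h4 : (1.9934 : ℝ) ^ 3 ≤ (ρ ^ d) ^ 3 := pow_le_pow_left₀ (by norm_num) h3 3
    have h5 : ρ ^ 2 ≤ 1.0178 ^ 2 := pow_le_pow_left₀ (by linarith) (by linarith) 2
    have h6 : 7.64 ≤ ρ ^ (4 * k) := by
      have h7 : ρ ^ (3 * d - 2) * ρ ^ 2 ≤ ρ ^ (4 * k) * 1.0178 ^ 2 := by
        apply mul_le_mul h1 h5 (by positivity) (by positivity)
      rw [h2] at h7
      norm_num at h4 h7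
      linarith
    rw [mul_comm 4 k, pow_mul] at h6
    exact aux_big (by positivity) hgold h6
  have hk3' : (4 * k : ℝ) ≤ 3 * (d - 1) := by
    have : 4 * k + 3 ≤ 3 * d := by omega
    have h2 : ((4 * k + 3 : ℕ) : ℝ) ≤ (3 * d : ℕ) := by exact_mod_cast this
    push_cast at h2
    linarith
  set γ := β ^ k with hγ
  set s := γ - 1 with hs
  have hγ1 : 1 < γ := one_lt_pow₀ hβ1 (by omega)
  have hs0 : 0 < s := by linarith
  -- lower bound of s
  have hslow : k * (β - 1) ≤ s := by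
    have h1 := one_add_mul_le_pow (show (-2 : ℝ) ≤ β - 1 by linarith) k
    rw [show 1 + (β - 1) = β by ring] at h1
    rw [hs, hγ]
    linarith
  -- upper bound of s
  have hsup : s ≤ β * k / d := by
    have h1 : γ ≤ 1 + (k / d : ℝ) * β := by
      have e1 : γ = (1 + β) ^ ((k : ℝ) / d) := by
        rw [hγ, add_comm, ← hβ, ← Real.rpow_natCast β d, ← Real.rpow_mul hβ0.le,
          mul_div_cancel₀ _ (by positivity), Real.rpow_natCast]
      rw [e1]
      apply rpow_one_add_le_one_add_mul_self (by linarith) (by positivity)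
      rw [div_le_one (by positivity)]
      linarith
    rw [hs]
    have : (k / d : ℝ) * β = β * k / d := by ring
    linarith
  have hρk1 : 1 < ρ ^ k := one_lt_pow₀ hρ1 (by omega)
  have hρk2 : ρ ^ k ≤ 1.61804 := aux_y hgold
  -- relation of moduli
  have hgδ : ρ ^ k = δ ^ k * γ := by
    rw [hδ, hγ, div_pow]; field_simp
  have hδk : c ≤ δ ^ k := by
    refine hδd.trans ?_
    apply pow_le_pow_of_le_one hδ0.le hδ1.le
    omega
  have hcγ : c * γ ≤ ρ ^ k := by
    rw [hgδ]; exact mul_le_mul_of_nonneg_right hδk (by linarith)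
  have hs1 : s ≤ 0.6234 := by
    have h1 := aux_lb hc0 le_rfl (by linarith) hcγ
    norm_num at h1 hρk2 ⊢
    linarith
  -- the gap parameter
  obtain ⟨q, hq1, hqgap, hqbig⟩ : ∃ q, 1 ≤ q ∧ s * γ ^ (q - 1) < 1 ∧ 1 ≤ s * γ ^ q := by
    classical
    have hex : ∃ q, 1 ≤ s * γ ^ q := by
      obtain ⟨q, hq⟩ := pow_unbounded_of_one_lt (1 / s) hγ1
      refine ⟨q, ?_⟩
      rw [div_lt_iff₀ hs0] at hq
      linarith
    refine ⟨Nat.find hex, ?_, ?_, Nat.find_spec hex⟩
    · rw [Nat.one_le_iff_ne_zero]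
      intro h0
      have := Nat.find_spec hex
      rw [h0, pow_zero, mul_one] at this
      linarith
    · have hne : Nat.find hex ≠ 0 := by
        intro h0
        have := Nat.find_spec hex
        rw [h0, pow_zero, mul_one] at this
        linarith
      have := Nat.find_min hex (m := Nat.find hex - 1) (by omega)
      exact not_le.1 this
  set m := k * (q - 1) with hm
  have hmx' : (m : ℝ) * (β - 1) * s ≤ 1 - s := by
    have h1 := one_add_mul_le_pow (show (-2 : ℝ) ≤ β - 1 by linarith) m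
    rw [show 1 + (β - 1) = β by ring] at h1
    have h2 : β ^ m = γ ^ (q - 1) := by rw [hm, hγ, pow_mul]
    rw [h2] at h1
    exact aux_m h1 hqgap hs0
  have hmx : (m : ℝ) * (β - 1) * s ≤ 1 := by linarith
  have hδm : 1 - m * (4.952 / ((d : ℝ) - 1) ^ 3) ≤ δ ^ m := by
    have h1 := one_add_mul_le_pow (show (-2 : ℝ) ≤ δ - 1 by linarith) m
    rw [show 1 + (δ - 1) = δ by ring] at h1
    have h2 : (m : ℝ) * (1 - δ) ≤ m * (4.952 / ((d : ℝ) - 1) ^ 3) := by gcongr
    linarith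
  have hgq : δ ^ k * δ ^ m ≤ s * (ρ ^ k) ^ q := by
    have e1 : (ρ ^ k) ^ q = δ ^ k * δ ^ m * γ ^ q := by
      rw [hgδ, mul_pow, ← pow_add, hm]
      congr 1
      rw [← pow_mul]
      congr 1
      obtain ⟨t, rfl⟩ : ∃ t, q = t + 1 := ⟨q - 1, by omega⟩
      simp
      ring
    exact aux_gq (by positivity) e1 hqbig
  have hdm1 : (0 : ℝ) < (d : ℝ) - 1 := by linarith
  -- final estimates
  apply crit_B (q := q) hconj hγ1 (by linarith) hqgap hg1
  rw [h.norm_pow_zz]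
  rcases Nat.lt_or_ge (d - 1) (4 * k) with hmode | hmode
  · -- mode 2
    have hm2 := h.mode2 (by omega) (k := k) (by omega) hk3
    have hkd : (2 * d - 1 : ℝ) ≤ 8 * k := by
      have : 2 * d ≤ 8 * k + 1 := by omega
      have h2 : ((2 * d : ℕ) : ℝ) ≤ (8 * k + 1 : ℕ) := by exact_mod_cast this
      push_cast at h2
      linarith
    have hslow2 : 0.17 ≤ s := by
      have h1 : (0.246 : ℝ) * 0.69 ≤ k * (β - 1) := by
        have h2 : (0.246 : ℝ) ≤ k / d := by
          rw [le_div_iff₀ (by positivity)]; linarith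
        calc (0.246 : ℝ) * 0.69 ≤ (k / d) * 0.69 := by gcongr
          _ = k * (0.69 / d) := by ring
          _ ≤ k * (β - 1) := by gcongr
      by_contra hcon
      push Not at hcon
      have h2 : (0.2468 : ℝ) ≤ k / d := by
        rw [le_div_iff₀ (by positivity)]; linarith
      have h3 : (0.2468 : ℝ) * 0.69 ≤ k * (β - 1) := by
        calc (0.2468 : ℝ) * 0.69 ≤ (k / d) * 0.69 := by gcongr
          _ = k * (0.69 / d) := by ring
          _ ≤ k * (β - 1) := by gcongr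
      norm_num at h3 hcon
      linarith
    have hmE : m * (4.952 / ((d : ℝ) - 1) ^ 3) ≤ 0.0237 := by
      -- m ≤ (1/s - 1)/(β-1)
      have h1 : (m : ℝ) * (0.69 / d) * s ≤ 1 - s := by
        refine le_trans ?_ hmx'
        gcongr
      have h2 : (m : ℝ) ≤ 4.883 * (d / 0.69) := by
        have h3 : (m : ℝ) * (0.69 / d) ≤ 4.883 := by
          have h4 : (m : ℝ) * (0.69 / d) * s ≤ 4.883 * s := by linarith
          exact le_of_mul_le_mul_right h4 hs0
        calc (m : ℝ) = (m : ℝ) * (0.69 / d) * (d / 0.69) := by field_simp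
          _ ≤ 4.883 * (d / 0.69) := by gcongr
      calc (m : ℝ) * (4.952 / ((d : ℝ) - 1) ^ 3) ≤ 4.883 * (d / 0.69) * (4.952 / ((d : ℝ) - 1) ^ 3) := by
            gcongr
        _ = 4.883 * 4.952 / 0.69 * d / ((d : ℝ) - 1) ^ 3 := by ring
        _ ≤ 0.0237 := by
            rw [div_le_iff₀ (by positivity)]
            exact aux_E2 hd'
    have hδkm : 0.973 ≤ δ ^ k * δ ^ m := by
      have h1 : 0.9763 ≤ δ ^ m := by linarith
      have h2 : 0.9967 ≤ δ ^ k := by linarith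
      exact aux_mul1 h1 h2
    have hpos : 0 ≤ (ρ ^ k) ^ q - 1 := by
      have := one_le_pow₀ (n := q) hρk1.le
      linarith
    have hq2 : (0.973 - s) / s ≤ (ρ ^ k) ^ q - 1 := by
      rw [div_le_iff₀ hs0]
      linarith
    rcases lt_or_ge s 0.58 with hs58 | hs58
    · have hM : 1.5 ≤ ‖zz ρ φ ^ k - 1‖ := by
        apply le_of_sq_le_sq _ (norm_nonneg _)
        refine le_trans ?_ hm2
        apply aux_sq1
        have h1 := aux_lb (t := 1.17) hc0 (by linarith) (by norm_num) hcγ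
        norm_num at h1 ⊢
        linarith
      have h1 : 1 < 1.5 * ((0.973 - s) / s) := by
        rw [mul_div_assoc', one_lt_div hs0]
        linarith
      calc 1 < 1.5 * ((0.973 - s) / s) := h1
        _ ≤ ‖zz ρ φ ^ k - 1‖ * ((ρ ^ k) ^ q - 1) := by
          apply mul_le_mul hM hq2 _ (norm_nonneg _)
          apply div_nonneg (by linarith) hs0.le
    · have hM : 1.86 ≤ ‖zz ρ φ ^ k - 1‖ := by
        apply le_of_sq_le_sq _ (norm_nonneg _)
        refine le_trans ?_ hm2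
        apply aux_sq2
        have h1 := aux_lb (t := 1.58) hc0 (by linarith) (by norm_num) hcγ
        norm_num at h1 ⊢
        linarith
      have h1 : 1 < 1.86 * ((0.973 - s) / s) := by
        rw [mul_div_assoc', one_lt_div hs0]
        linarith
      calc 1 < 1.86 * ((0.973 - s) / s) := h1
        _ ≤ ‖zz ρ φ ^ k - 1‖ * ((ρ ^ k) ^ q - 1) := by
          apply mul_le_mul hM hq2 _ (norm_nonneg _)
          apply div_nonneg (by linarith) hs0.le
  · -- mode 1
    have hm1 := h.mode1 (by omega) (k := k) hmode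
    have hkd : (4 * k : ℝ) ≤ d - 1 := by
      have : 4 * k + 1 ≤ d := by omega
      have h2 : ((4 * k + 1 : ℕ) : ℝ) ≤ d := by exact_mod_cast this
      push_cast at h2
      linarith
    have hM : 4 * (k / d : ℝ) ≤ ‖zz ρ φ ^ k - 1‖ := by
      refine le_trans ?_ hm1
      have h1 : 4 * (k / d : ℝ) ≤ (8 * k : ℝ) / (2 * d - 1) := by
        rw [mul_div_assoc', div_le_div_iff₀ (by positivity) (by linarith)]
        have e4 : 8 * (k : ℝ) * d - 4 * k * (2 * d - 1) = 4 * k := by ring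
        linarith
      have h2 : (8 * k : ℝ) / (2 * d - 1) * 1 ≤ (8 * k : ℝ) / (2 * d - 1) * ρ ^ k := by
        apply mul_le_mul_of_nonneg_left hρk1.le
        apply div_nonneg (by positivity) (by linarith)
      linarith
    have hkd4 : (k / d : ℝ) ≤ 1 / 4 := by
      rw [div_le_iff₀ (by positivity)]; linarith
    have hsup2 : s ≤ 1.0178 * (k / d) := by
      calc s ≤ β * k / d := hsup
        _ = β * (k / d) := by ring
        _ ≤ 1.0178 * (k / d) := by gcongr
    have hs25 : s ≤ 0.2545 := by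
      norm_num at hsup2 ⊢
      linarith
    have hmE : m * (4.952 / ((d : ℝ) - 1) ^ 3) ≤ 0.281 := by
      have h0 : 0.69 / d ≤ s := by
        refine le_trans ?_ hslow
        calc 0.69 / (d : ℝ) ≤ β - 1 := hx
          _ ≤ k * (β - 1) := le_mul_of_one_le_left (by linarith) hk'
      have h1 : (m : ℝ) * (0.69 / d) * (0.69 / d) ≤ 1 := by
        refine le_trans ?_ hmx
        gcongr
      have h2 : (m : ℝ) ≤ d ^ 2 / 0.4761 := by
        have : (m : ℝ) * (0.69 / d) * (0.69 / d) = m * (0.4761 / d ^ 2) := by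
          field_simp
          norm_num
        rw [this] at h1
        calc (m : ℝ) = m * (0.4761 / d ^ 2) * (d ^ 2 / 0.4761) := by field_simp
          _ ≤ 1 * (d ^ 2 / 0.4761) := by gcongr
          _ = d ^ 2 / 0.4761 := by ring
      calc (m : ℝ) * (4.952 / ((d : ℝ) - 1) ^ 3) ≤ d ^ 2 / 0.4761 * (4.952 / ((d : ℝ) - 1) ^ 3) := by
            gcongr
        _ = 4.952 / 0.4761 * d ^ 2 / ((d : ℝ) - 1) ^ 3 := by ring
        _ ≤ 0.281 := by
            rw [div_le_iff₀ (by positivity)]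
            exact aux_E1 hd'
    have hδkm : 0.716 ≤ δ ^ k * δ ^ m := by
      have h1 : 0.719 ≤ δ ^ m := by linarith
      have h2 : 0.9967 ≤ δ ^ k := by linarith
      exact aux_mul2 h1 h2
    have hq2 : (0.716 - s) / s ≤ (ρ ^ k) ^ q - 1 := by
      rw [div_le_iff₀ hs0]
      linarith
    have hkd0 : (0 : ℝ) < k / d := by positivity
    have h1 : 1 < 4 * (k / d : ℝ) * ((0.716 - s) / s) := by
      rw [mul_div_assoc', one_lt_div hs0]
      exact aux_last hs0 hsup2 hkd4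
    calc 1 < 4 * (k / d : ℝ) * ((0.716 - s) / s) := h1
      _ ≤ ‖zz ρ φ ^ k - 1‖ * ((ρ ^ k) ^ q - 1) := by
        apply mul_le_mul hM hq2 _ (norm_nonneg _)
        apply div_nonneg (by linarith) hs0.le

end Pool.Agent.R341.Powers
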