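import Pool.Agent.R341.Powers3

set_option autoImplicit false

open Polynomial

namespace Pool.Agent.R341.Powers

open Pool.Agent.R341.Greedy

/-- a polynomial `x^d - x - 1` has a root close to an approximate root -/
lemma exists_near {d : ℕ} (hd : 2 ≤ d) {z₀ : ℂ} {ε : ℝ}
    (hne : (d : ℂ) * z₀ ^ (d - 1) - 1 ≠ 0)
    (h : d * ‖z₀ ^ d - z₀ - 1‖ ≤ ε * ‖(d : ℂ) * z₀ ^ (d - 1) - 1‖) :
    ∃ z : ℂ, z ^ d = z + 1 ∧ ‖z - z₀‖ ≤ ε := by
  classical
  set p : ℂ[X] := X ^ d - X - 1 with hp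
  have hp' : p = X ^ d - (X + C 1) := by rw [hp, C_1]; ring
  have hmon : p.Monic := by
    obtain ⟨n, rfl⟩ : ∃ n, d = n + 1 := ⟨d - 1, by omega⟩
    rw [hp']
    apply monic_X_pow_sub
    rw [degree_X_add_C]
    exact_mod_cast (by omega : 1 < n + 1)
  have hdeg : p.natDegree = d := by
    rw [hp', natDegree_sub_eq_left_of_natDegree_lt, natDegree_X_pow]
    rw [natDegree_X_pow, natDegree_X_add_C]
    omega
  have heval : p.eval z₀ = z₀ ^ d - z₀ - 1 := by simp [hp]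
  have hder : p.derivative.eval z₀ = (d : ℂ) * z₀ ^ (d - 1) - 1 := by
    simp [hp, derivative_X_pow]
  have hroot : ∀ z ∈ p.roots, z ^ d = z + 1 := by
    intro z hz
    have := (mem_roots hmon.ne_zero).1 hz
    rw [IsRoot.def, hp] at this
    simp at this
    linear_combination this
  have hcard : p.roots.card = d := by
    rw [← hdeg]
    exact (splits_iff_card_roots.1 (IsAlgClosed.splits p))
  have hne' : 0 < ‖(d : ℂ) * z₀ ^ (d - 1) - 1‖ := norm_pos_iff.2 hne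
  by_cases h0 : p.eval z₀ = 0
  · refine ⟨z₀, ?_, ?_⟩
    · rw [heval] at h0; linear_combination h0
    · rw [sub_self, norm_zero]
      have : 0 ≤ ε * ‖(d : ℂ) * z₀ ^ (d - 1) - 1‖ := le_trans (by positivity) h
      by_contra hcon
      push Not at hcon
      nlinarith
  by_contra hcon
  push Not at hcon
  have hfar : ∀ z ∈ p.roots, ε < ‖z - z₀‖ := fun z hz => hcon z (hroot z hz)
  have h0' : 0 < ‖p.eval z₀‖ := norm_pos_iff.2 h0
  have hε : 0 < ε := by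
    by_contra hε
    push Not at hε
    rw [← heval] at h
    have : (0 : ℝ) < d * ‖p.eval z₀‖ := by
      have : (0 : ℝ) < d := by exact_mod_cast (by omega : 0 < d)
      positivity
    nlinarith
  have hsum := (IsAlgClosed.splits p).eval_derivative_div_eval_of_ne_zero h0
  have hle : ‖p.derivative.eval z₀ / p.eval z₀‖ < d / ε := by
    rw [hsum]
    have h1 : ‖(p.roots.map fun z ↦ 1 / (z₀ - z)).sum‖ ≤
        (p.roots.map fun z ↦ ‖1 / (z₀ - z)‖).sum := by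
      have := Multiset.le_sum_of_subadditive (fun x : ℂ => ‖x‖) norm_zero.le norm_add_le
        (p.roots.map fun z ↦ 1 / (z₀ - z))
      rw [Multiset.map_map] at this
      exact this
    have h2 : (p.roots.map fun z ↦ ‖1 / (z₀ - z)‖).sum < (p.roots.map fun _ ↦ 1 / ε).sum := by
      apply Multiset.sum_lt_sum_of_nonempty
      · intro hemp
        rw [hemp] at hcard
        simp at hcard
        omega
      · intro z hz
        rw [norm_div, norm_one, norm_sub_rev]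
        exact one_div_lt_one_div_of_lt hε (hfar z hz)
    rw [Multiset.map_const', Multiset.sum_replicate, hcard, nsmul_eq_mul] at h2
    calc _ ≤ _ := h1
      _ < d * (1 / ε) := h2
      _ = d / ε := by ring
  rw [norm_div, div_lt_div_iff₀ h0' hε, hder, heval] at hle
  linarith

/-- powers of a Gaussian integer -/
def gp (a b : ℤ) : ℕ → ℤ × ℤ
  | 0 => (1, 0)
  | n + 1 => ((gp a b n).1 * a - (gp a b n).2 * b, (gp a b n).1 * b + (gp a b n).2 * a)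

lemma gp_spec (a b : ℤ) (n : ℕ) :
    ((a : ℂ) + b * Complex.I) ^ n = (gp a b n).1 + (gp a b n).2 * Complex.I := by
  induction n with
  | zero => simp [gp]
  | succ n ih =>
    rw [pow_succ, ih, gp]
    push_cast
    linear_combination ((gp a b n).2 * b : ℂ) * Complex.I_sq

lemma norm_sq_add_mul_I (x y : ℤ) : ‖(x : ℂ) + y * Complex.I‖ ^ 2 = ((x ^ 2 + y ^ 2 : ℤ) : ℝ) := by
  rw [← Complex.normSq_eq_norm_sq, Complex.normSq_apply]
  simp
  ring

/-- data: an approximate root and bounds for `β`, checked with integers -/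
def chk0 (d : ℕ) (a b : ℤ) (E S B R U : ℤ) : Bool :=
  decide (0 < S) && decide (0 < E) && decide (10 * E < S) && decide (S < R) && decide (S ≤ B) &&
  decide (a ^ 2 + b ^ 2 ≤ 3 * S ^ 2) &&
  decide ((d : ℤ) ^ 2 * (((gp a b d).1 - a * S ^ (d - 1) - S ^ d) ^ 2
      + ((gp a b d).2 - b * S ^ (d - 1)) ^ 2)
    ≤ E ^ 2 * ((d * (gp a b (d - 1)).1 - S ^ (d - 1)) ^ 2 + (d * (gp a b (d - 1)).2) ^ 2)) &&
  decide (0 < (d * (gp a b (d - 1)).1 - S ^ (d - 1)) ^ 2 + (d * (gp a b (d - 1)).2) ^ 2) &&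
  decide ((R + E) ^ 2 ≤ a ^ 2 + b ^ 2) && decide (a ^ 2 + b ^ 2 ≤ (U - E) ^ 2) &&
  decide (E ≤ U) && decide (U ^ d < (S + U) * S ^ (d - 1)) &&
  decide ((S + B) * S ^ (d - 1) ≤ B ^ d)

/-- the consequences -/
structure Data (d : ℕ) (a b : ℤ) (E S B R : ℤ) (β : ℝ) (z : ℂ) : Prop where
  hd : 4 ≤ d
  hS : (0 : ℝ) < S
  hE : (0 : ℝ) < E
  hSR : (S : ℝ) < R
  hSB : (S : ℝ) ≤ B
  hβ1 : 1 < β
  conj : Conj β z
  root : z ^ d = z + 1
  near : ‖z - ((a : ℂ) + b * Complex.I) / S‖ ≤ E / S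
  hz₀ : ‖((a : ℂ) + b * Complex.I) / S‖ ≤ 2
  hz : ‖z‖ ≤ 2
  hR : (R : ℝ) / S ≤ ‖z‖
  lt : ‖z‖ < β
  hB : β ≤ (B : ℝ) / S

lemma chk0_sound {d : ℕ} {a b E S B R U : ℤ} (hd : 4 ≤ d) (h : chk0 d a b E S B R U = true)
    {β : ℝ} (hβ1 : 1 < β) (hβ : β ^ d = β + 1) : ∃ z : ℂ, Data d a b E S B R β z := by
  simp only [chk0, Bool.and_eq_true, decide_eq_true_eq] at h
  obtain ⟨⟨⟨⟨⟨⟨⟨⟨⟨⟨⟨⟨c1, c2⟩, c3⟩, c4⟩, c5⟩, c6⟩, c7⟩, c8⟩, c9⟩, c10⟩, c11⟩, c12⟩, c13⟩ := h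
  have hS : (0 : ℝ) < S := by exact_mod_cast c1
  have hSc : (S : ℂ) ≠ 0 := by exact_mod_cast c1.ne'
  have hE : (0 : ℝ) < E := by exact_mod_cast c2
  have hSE : (10 * E : ℝ) < S := by exact_mod_cast c3
  have hSR : (S : ℝ) < R := by exact_mod_cast c4
  have hSB : (S : ℝ) ≤ B := by exact_mod_cast c5
  have hEU : (E : ℝ) ≤ U := by exact_mod_cast c11
  set w : ℂ := (a : ℂ) + b * Complex.I with hw
  have hwn : ‖w‖ ^ 2 = ((a ^ 2 + b ^ 2 : ℤ) : ℝ) := norm_sq_add_mul_I a b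
  have hnS : ‖(S : ℂ)‖ = S := by
    rw [Complex.norm_intCast, abs_of_pos hS]
  have e1 : (w / S) ^ d - w / S - 1
      = ((((gp a b d).1 - a * S ^ (d - 1) - S ^ d : ℤ) : ℂ)
        + ((gp a b d).2 - b * S ^ (d - 1) : ℤ) * Complex.I) / (S : ℂ) ^ d := by
    rw [div_pow, hw, gp_spec]
    have hSd : (S : ℂ) ^ d = S * (S : ℂ) ^ (d - 1) := by
      rw [← pow_succ', Nat.sub_add_cancel (by omega)]
    have hSd1 : (S : ℂ) ^ (d - 1) ≠ 0 := pow_ne_zero _ hSc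
    push_cast
    rw [hSd]
    field_simp
    ring
  have e2 : (d : ℂ) * (w / S) ^ (d - 1) - 1
      = (((d * (gp a b (d - 1)).1 - S ^ (d - 1) : ℤ) : ℂ)
        + (d * (gp a b (d - 1)).2 : ℤ) * Complex.I) / (S : ℂ) ^ (d - 1) := by
    rw [div_pow, hw, gp_spec]
    have hSd1 : (S : ℂ) ^ (d - 1) ≠ 0 := pow_ne_zero _ hSc
    push_cast
    field_simp
    ring
  have n1 := norm_sq_add_mul_I ((gp a b d).1 - a * S ^ (d - 1) - S ^ d)
    ((gp a b d).2 - b * S ^ (d - 1))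
  have n2 := norm_sq_add_mul_I (d * (gp a b (d - 1)).1 - S ^ (d - 1)) (d * (gp a b (d - 1)).2)
  set F : ℂ := (((gp a b d).1 - a * S ^ (d - 1) - S ^ d : ℤ) : ℂ)
        + ((gp a b d).2 - b * S ^ (d - 1) : ℤ) * Complex.I with hF
  set F' : ℂ := ((d * (gp a b (d - 1)).1 - S ^ (d - 1) : ℤ) : ℂ)
        + (d * (gp a b (d - 1)).2 : ℤ) * Complex.I with hF'
  have hF'0 : 0 < ‖F'‖ := by
    have hpos : (0 : ℝ) < ‖F'‖ ^ 2 := by
      rw [n2]; exact_mod_cast c8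
    by_contra hcon
    have h0' : ‖F'‖ = 0 := le_antisymm (not_lt.1 hcon) (norm_nonneg _)
    rw [h0'] at hpos
    norm_num at hpos
  have hFF : d * ‖F‖ ≤ E * ‖F'‖ := by
    apply le_of_sq_le_sq _ (by positivity)
    rw [mul_pow, mul_pow, n1, n2]
    exact_mod_cast c7
  obtain ⟨z, hz1, hz2⟩ := exists_near (d := d) (by omega) (z₀ := w / S) (ε := E / S) (by
    rw [e2]
    apply div_ne_zero
    · exact norm_pos_iff.1 hF'0
    · exact pow_ne_zero _ hSc) (by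
    rw [e1, e2, norm_div, norm_div, norm_pow, norm_pow, hnS]
    have : (S : ℝ) ^ d = S * (S : ℝ) ^ (d - 1) := by
      rw [← pow_succ', Nat.sub_add_cancel (by omega)]
    rw [this, mul_div_assoc', div_mul_div_comm]
    gcongr)
  have hw0 : ‖w / S‖ = ‖w‖ / S := by rw [norm_div, hnS]
  have hwS : ‖w‖ ≤ 1.75 * S := by
    apply le_of_sq_le_sq _ (by positivity)
    rw [hwn]
    have : ((a ^ 2 + b ^ 2 : ℤ) : ℝ) ≤ 3 * S ^ 2 := by exact_mod_cast c6
    nlinarith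
  have hwR : (R : ℝ) + E ≤ ‖w‖ := by
    apply le_of_sq_le_sq _ (norm_nonneg _)
    rw [hwn]; exact_mod_cast c9
  have hwU : ‖w‖ ≤ U - E := by
    apply le_of_sq_le_sq _ (by linarith)
    rw [hwn]; exact_mod_cast c10
  have hzu : ‖z‖ ≤ ‖w‖ / S + E / S := by
    rw [← hw0]
    have := norm_add_le (z - w / S) (w / S)
    rw [sub_add_cancel] at this
    linarith
  have hzl : ‖w‖ / S - E / S ≤ ‖z‖ := by
    rw [← hw0]
    have := norm_sub_norm_le (w / S) (w / S - z)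
    rw [sub_sub_cancel, norm_sub_rev (w / S) z] at this
    linarith
  refine ⟨z, hd, hS, hE, hSR, hSB, hβ1, conj_of_root (by omega) hβ hz1, hz1, hz2, ?_, ?_, ?_, ?_, ?_⟩
  · rw [← hw, hw0, div_le_iff₀ hS]; linarith
  · refine hzu.trans ?_
    rw [← add_div, div_le_iff₀ hS]
    linarith
  · refine le_trans ?_ hzl
    rw [← sub_div]
    gcongr
    linarith
  · have h1 : ‖z‖ ≤ (U : ℝ) / S := by
      refine hzu.trans ?_
      rw [← add_div]
      gcongr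
      linarith
    refine lt_of_le_of_lt h1 ?_
    by_contra hcon
    push Not at hcon
    -- x ≥ β implies x^d ≥ x+1
    set x : ℝ := (U : ℝ) / S with hx
    have hxd : x ^ d < x + 1 := by
      rw [hx, div_pow, div_add_one hS.ne', div_lt_div_iff₀ (by positivity) hS]
      have hSd : (S : ℝ) ^ d = S * (S : ℝ) ^ (d - 1) := by
        rw [← pow_succ', Nat.sub_add_cancel (by omega)]
      have : (U : ℝ) ^ d < (S + U) * (S : ℝ) ^ (d - 1) := by exact_mod_cast c12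
      rw [hSd]
      nlinarith
    have h3 : x ^ d = x * x ^ (d - 1) := by
      rw [← pow_succ', Nat.sub_add_cancel (by omega)]
    have h4 : β * β ^ (d - 1) = β + 1 := by
      rw [← pow_succ', Nat.sub_add_cancel (by omega), hβ]
    have h5 : β ^ (d - 1) ≤ x ^ (d - 1) := by gcongr
    have h6 : x * β ^ (d - 1) ≤ x ^ d := by
      rw [h3]; exact mul_le_mul_of_nonneg_left h5 (by linarith)
    have h8 : β * (x * β ^ (d - 1)) = x * (β + 1) := by rw [← h4]; ring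
    nlinarith
  · apply beta_le (by omega) hβ1 hβ
    · rw [one_le_div hS]; exact hSB
    · rw [div_pow, div_add_one hS.ne', div_le_div_iff₀ hS (by positivity)]
      have hSd : (S : ℝ) ^ d = S * (S : ℝ) ^ (d - 1) := by
        rw [← pow_succ', Nat.sub_add_cancel (by omega)]
      have c4' : ((S : ℝ) + B) * (S : ℝ) ^ (d - 1) ≤ (B : ℝ) ^ d := by exact_mod_cast c13
      rw [hSd]
      nlinarith

lemma pow_sub_pow_bound {z w : ℂ} {ε : ℝ} (h : ‖z - w‖ ≤ ε) (hz : ‖z‖ ≤ 2) (hw : ‖w‖ ≤ 2) (k : ℕ) :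
    ‖z ^ k - w ^ k‖ ≤ k * 2 ^ (k - 1) * ε := by
  have hε : 0 ≤ ε := (norm_nonneg _).trans h
  induction k with
  | zero => simp
  | succ k ih =>
    rcases Nat.eq_zero_or_pos k with rfl | hk
    · simpa using h
    have e : z ^ (k + 1) - w ^ (k + 1) = z ^ k * (z - w) + (z ^ k - w ^ k) * w := by ring
    rw [e]
    refine (norm_add_le _ _).trans ?_
    rw [norm_mul, norm_mul, norm_pow]
    have h1 : ‖z‖ ^ k * ‖z - w‖ ≤ 2 ^ k * ε := by gcongr
    have h2 : ‖z ^ k - w ^ k‖ * ‖w‖ ≤ k * 2 ^ (k - 1) * ε * 2 := by gcongr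
    have h3 : (2 : ℝ) ^ k = 2 ^ (k - 1) * 2 := by
      rw [← pow_succ, Nat.sub_add_cancel hk]
    rw [Nat.add_sub_cancel]
    push_cast
    rw [h3] at h1 ⊢
    linarith

/-- check of criterion B -/
def chkB (a b E S B R : ℤ) (k q : ℕ) (M : ℤ) : Bool :=
  decide (B ^ k * B ^ (k * (q - 1)) < S ^ (k * q) + S ^ k * B ^ (k * (q - 1))) &&
  decide (B ^ k < 2 * S ^ k) && decide (1 ≤ q) && decide (1 ≤ k) && decide (0 ≤ M) &&
  decide ((M + k * 2 ^ (k - 1) * E) ^ 2 * S ^ (2 * k)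
    ≤ S ^ 2 * (((gp a b k).1 - S ^ k) ^ 2 + (gp a b k).2 ^ 2)) &&
  decide (S ^ (k * q) * S + M * S ^ (k * q) < M * R ^ (k * q))

/-- check of criterion A -/
def chkA (a b E S R : ℤ) (k : ℕ) (M₂ M₃ : ℤ) : Bool :=
  decide (1 ≤ k) && decide (0 ≤ M₃) && decide (k * 2 ^ (k - 1) * E ≤ M₂) &&
  decide (S ^ 2 * (((gp a b k).1 - S ^ k) ^ 2 + (gp a b k).2 ^ 2)
    ≤ (M₂ - k * 2 ^ (k - 1) * E) ^ 2 * S ^ (2 * k)) &&
  decide ((M₃ + 2 * (k * 2 ^ (k - 1) * E)) ^ 2 * S ^ (2 * k)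
    ≤ S ^ 2 * ((2 * (gp a b k).1 - S ^ k) ^ 2 + (2 * (gp a b k).2) ^ 2)) &&
  decide (M₂ * S ^ k < M₃ * (R ^ k - S ^ k))

/-- check of the golden ratio criterion -/
def chkG (R S : ℤ) (K : ℕ) : Bool :=
  decide (1 ≤ K) && decide (R ^ K * S ^ K + S ^ (2 * K) < R ^ (2 * K))

namespace Data

variable {d : ℕ} {a b E S B R : ℤ} {β : ℝ} {z : ℂ}

lemma one_lt_norm (h : Data d a b E S B R β z) : 1 < ‖z‖ := by
  refine lt_of_lt_of_le ?_ h.hR
  rw [one_lt_div h.hS]; exact h.hSR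

lemma one_lt_norm_pow (h : Data d a b E S B R β z) {k : ℕ} (hk : 1 ≤ k) : 1 < ‖z ^ k‖ := by
  rw [norm_pow]; exact one_lt_pow₀ h.one_lt_norm (by omega)

lemma ne_pow (h : Data d a b E S B R β z) {k : ℕ} (hk : 1 ≤ k) : z ^ k ≠ (β : ℂ) ^ k := by
  intro heq
  have h1 := congrArg norm heq
  have h3 := h.hβ1
  rw [norm_pow, norm_pow, Complex.norm_real, Real.norm_of_nonneg (by linarith)] at h1
  have h2 : ‖z‖ ^ k < β ^ k := pow_lt_pow_left₀ h.lt (norm_nonneg _) (by omega)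
  linarith

lemma near_pow (h : Data d a b E S B R β z) (k : ℕ) :
    ‖z ^ k - ((gp a b k).1 + (gp a b k).2 * Complex.I) / (S : ℂ) ^ k‖
      ≤ k * 2 ^ (k - 1) * (E / S) := by
  have := pow_sub_pow_bound h.near h.hz h.hz₀ k
  rw [div_pow, gp_spec] at this
  exact this

lemma hSc (h : Data d a b E S B R β z) : (S : ℂ) ≠ 0 := by
  have := h.hS.ne'
  exact_mod_cast this

lemma normS (h : Data d a b E S B R β z) : ‖(S : ℂ)‖ = S := by
  rw [Complex.norm_intCast, abs_of_pos h.hS]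

lemma golden (h : Data d a b E S B R β z) {K : ℕ} (hc : chkG R S K = true) {k : ℕ}
    (hk : K ≤ k) : ¬ Parry (β ^ k) := by
  simp only [chkG, Bool.and_eq_true, decide_eq_true_eq] at hc
  obtain ⟨c1, c2⟩ := hc
  have hS := h.hS
  apply crit_golden h.conj (h.one_lt_norm_pow (by omega)) _ (h.ne_pow (by omega))
  rw [norm_pow]
  have c7' : (R : ℝ) ^ K * (S : ℝ) ^ K + (S : ℝ) ^ (2 * K) < (R : ℝ) ^ (2 * K) := by
    exact_mod_cast c2
  set y : ℝ := ((R : ℝ) / S) ^ K with hy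
  have hy1 : 1 < y := one_lt_pow₀ (by rw [one_lt_div hS]; exact h.hSR) (by omega)
  have hy2 : y + 1 < y ^ 2 := by
    have e1 : y ^ 2 - y - 1 = ((R : ℝ) ^ (2 * K) - (R : ℝ) ^ K * (S : ℝ) ^ K - (S : ℝ) ^ (2 * K))
        / (S : ℝ) ^ (2 * K) := by
      rw [hy, div_pow, mul_comm 2 K, pow_mul, pow_mul]
      field_simp
    have : 0 < y ^ 2 - y - 1 := by
      rw [e1]
      apply div_pos (by linarith) (by positivity)
    linarith
  have hyk : y ≤ ‖z‖ ^ k := by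
    have hR0 : (0 : ℝ) ≤ R := by linarith [h.hSR]
    calc y ≤ ‖z‖ ^ K := pow_le_pow_left₀ (by positivity) h.hR K
      _ ≤ ‖z‖ ^ k := pow_le_pow_right₀ h.one_lt_norm.le (by omega)
  nlinarith

lemma critB (h : Data d a b E S B R β z) {k q : ℕ} {M : ℤ}
    (hc : chkB a b E S B R k q M = true) : ¬ Parry (β ^ k) := by
  simp only [chkB, Bool.and_eq_true, decide_eq_true_eq] at hc
  obtain ⟨⟨⟨⟨⟨⟨c1, c2⟩, c3⟩, c4⟩, c5⟩, c6⟩, c7⟩ := hc
  have hS := h.hS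
  have hβ1 := h.hβ1
  have hB := h.hB
  have hγ1 : 1 < β ^ k := one_lt_pow₀ hβ1 (by omega)
  have hBk : β ^ k ≤ (B : ℝ) ^ k / (S : ℝ) ^ k := by
    rw [← div_pow]; exact pow_le_pow_left₀ (by linarith) hB k
  have hγ2 : β ^ k < 2 := by
    refine lt_of_le_of_lt hBk ?_
    rw [div_lt_iff₀ (by positivity)]
    exact_mod_cast c2
  have hgap : (β ^ k - 1) * (β ^ k) ^ (q - 1) < 1 := by
    have h1 : (β ^ k) ^ (q - 1) ≤ ((B : ℝ) ^ k / (S : ℝ) ^ k) ^ (q - 1) :=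
      pow_le_pow_left₀ (by linarith) hBk _
    have h2 : (β ^ k - 1) * (β ^ k) ^ (q - 1)
        ≤ ((B : ℝ) ^ k / (S : ℝ) ^ k - 1) * ((B : ℝ) ^ k / (S : ℝ) ^ k) ^ (q - 1) := by
      apply mul_le_mul (by linarith) h1 (by positivity) (by linarith)
    refine lt_of_le_of_lt h2 ?_
    have h3 : ((B : ℝ) ^ k / (S : ℝ) ^ k - 1) * ((B : ℝ) ^ k / (S : ℝ) ^ k) ^ (q - 1)
        = ((B : ℝ) ^ k * (B : ℝ) ^ (k * (q - 1)) - (S : ℝ) ^ k * (B : ℝ) ^ (k * (q - 1)))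
          / (S : ℝ) ^ (k * q) := by
      have e1 : (S : ℝ) ^ (k * q) = (S : ℝ) ^ k * ((S : ℝ) ^ k) ^ (q - 1) := by
        rw [pow_mul, ← pow_succ', Nat.sub_add_cancel c3]
      rw [e1, div_pow, ← pow_mul]
      field_simp
    rw [h3, div_lt_one (by positivity)]
    have c1' : (B : ℝ) ^ k * (B : ℝ) ^ (k * (q - 1))
        < (S : ℝ) ^ (k * q) + (S : ℝ) ^ k * (B : ℝ) ^ (k * (q - 1)) := by exact_mod_cast c1
    linarith
  apply crit_B h.conj hγ1 hγ2 hgap (h.one_lt_norm_pow c4)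
  rw [norm_pow, ← pow_mul]
  have hR0 : (0 : ℝ) ≤ R := by linarith [h.hSR]
  have hRkq : (R : ℝ) ^ (k * q) / (S : ℝ) ^ (k * q) ≤ ‖z‖ ^ (k * q) := by
    rw [← div_pow]; exact pow_le_pow_left₀ (by positivity) h.hR _
  have hM0 : (0 : ℝ) ≤ M := by exact_mod_cast c5
  -- lower bound of ‖z^k - 1‖
  have hM : (M : ℝ) / S ≤ ‖z ^ k - 1‖ := by
    have h1 := h.near_pow k
    have e1 : ((gp a b k).1 + (gp a b k).2 * Complex.I) / (S : ℂ) ^ k - 1
        = (((gp a b k).1 - S ^ k : ℤ) + (gp a b k).2 * Complex.I) / (S : ℂ) ^ k := by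
      have := pow_ne_zero k h.hSc
      push_cast
      field_simp
      ring
    have n1 := norm_sq_add_mul_I ((gp a b k).1 - S ^ k) (gp a b k).2
    set G : ℂ := (((gp a b k).1 - S ^ k : ℤ) : ℂ) + (gp a b k).2 * Complex.I with hG
    have h2 : (M + k * 2 ^ (k - 1) * E : ℝ) / S ≤ ‖G‖ / S ^ k := by
      rw [div_le_div_iff₀ hS (by positivity)]
      have hE := h.hE
      apply le_of_sq_le_sq _ (by positivity)
      rw [mul_pow, mul_pow, n1, ← pow_mul, mul_comm k 2]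
      have : ((M + k * 2 ^ (k - 1) * E : ℝ)) ^ 2 * (S : ℝ) ^ (2 * k)
          ≤ (S : ℝ) ^ 2 * (((gp a b k).1 - S ^ k) ^ 2 + (gp a b k).2 ^ 2 : ℤ) := by
        exact_mod_cast c6
      linarith
    have h3 : ‖((gp a b k).1 + (gp a b k).2 * Complex.I) / (S : ℂ) ^ k - 1‖ = ‖G‖ / S ^ k := by
      rw [e1, norm_div, norm_pow, h.normS]
    have h4 : ‖((gp a b k).1 + (gp a b k).2 * Complex.I) / (S : ℂ) ^ k - 1‖
        ≤ ‖z ^ k - 1‖ + k * 2 ^ (k - 1) * (E / S) := by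
      have := norm_sub_le (z ^ k - 1) (z ^ k - ((gp a b k).1 + (gp a b k).2 * Complex.I) / (S : ℂ) ^ k)
      rw [sub_sub_sub_cancel_left] at this
      linarith
    rw [h3] at h4
    have e2 : (M + k * 2 ^ (k - 1) * E : ℝ) / S = M / S + k * 2 ^ (k - 1) * (E / S) := by ring
    linarith
  have h5 : (R : ℝ) ^ (k * q) / (S : ℝ) ^ (k * q) - 1 ≤ ‖z‖ ^ (k * q) - 1 := by linarith
  have h6 : 0 ≤ ‖z‖ ^ (k * q) - 1 := by
    have := one_le_pow₀ (n := k * q) h.one_lt_norm.le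
    linarith
  have h7 : 1 < (M : ℝ) / S * ((R : ℝ) ^ (k * q) / (S : ℝ) ^ (k * q) - 1) := by
    have e1 : (M : ℝ) / S * ((R : ℝ) ^ (k * q) / (S : ℝ) ^ (k * q) - 1)
        = (M * R ^ (k * q) - M * S ^ (k * q)) / (S ^ (k * q) * S) := by
      field_simp
    rw [e1, one_lt_div (by positivity)]
    have : (S : ℝ) ^ (k * q) * S + M * S ^ (k * q) < M * R ^ (k * q) := by exact_mod_cast c7
    linarith
  calc 1 < (M : ℝ) / S * ((R : ℝ) ^ (k * q) / (S : ℝ) ^ (k * q) - 1) := h7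
    _ ≤ (M : ℝ) / S * (‖z‖ ^ (k * q) - 1) := by gcongr
    _ ≤ ‖z ^ k - 1‖ * (‖z‖ ^ (k * q) - 1) := by gcongr

lemma critA (h : Data d a b E S B R β z) {k : ℕ} {M₂ M₃ : ℤ}
    (hc : chkA a b E S R k M₂ M₃ = true) : ¬ Parry (β ^ k) := by
  simp only [chkA, Bool.and_eq_true, decide_eq_true_eq] at hc
  obtain ⟨⟨⟨⟨⟨c1, c2⟩, c3⟩, c4⟩, c5⟩, c6⟩ := hc
  have hS := h.hS
  have hE := h.hE
  apply crit_A h.conj (h.one_lt_norm_pow c1) (h.ne_pow c1)
  rw [norm_pow]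
  have hR0 : (0 : ℝ) ≤ R := by linarith [h.hSR]
  have hRk : (R : ℝ) ^ k / (S : ℝ) ^ k ≤ ‖z‖ ^ k := by
    rw [← div_pow]; exact pow_le_pow_left₀ (by positivity) h.hR _
  have hM30 : (0 : ℝ) ≤ M₃ := by exact_mod_cast c2
  have hM2E : (k * 2 ^ (k - 1) * E : ℝ) ≤ M₂ := by exact_mod_cast c3
  have h1 := h.near_pow k
  have hSk := pow_ne_zero k h.hSc
  -- upper bound of ‖z^k - 1‖
  have hM2 : ‖z ^ k - 1‖ ≤ (M₂ : ℝ) / S := by
    have e1 : ((gp a b k).1 + (gp a b k).2 * Complex.I) / (S : ℂ) ^ k - 1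
        = (((gp a b k).1 - S ^ k : ℤ) + (gp a b k).2 * Complex.I) / (S : ℂ) ^ k := by
      push_cast
      field_simp
      ring
    have n1 := norm_sq_add_mul_I ((gp a b k).1 - S ^ k) (gp a b k).2
    set G : ℂ := (((gp a b k).1 - S ^ k : ℤ) : ℂ) + (gp a b k).2 * Complex.I with hG
    have h2 : ‖G‖ / S ^ k ≤ (M₂ - k * 2 ^ (k - 1) * E : ℝ) / S := by
      rw [div_le_div_iff₀ (by positivity) hS]
      apply le_of_sq_le_sq _ (mul_nonneg (by linarith) (by positivity))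
      rw [mul_pow, mul_pow, n1, ← pow_mul, mul_comm k 2]
      have : (S : ℝ) ^ 2 * (((gp a b k).1 - S ^ k) ^ 2 + (gp a b k).2 ^ 2 : ℤ)
          ≤ ((M₂ - k * 2 ^ (k - 1) * E : ℝ)) ^ 2 * (S : ℝ) ^ (2 * k) := by
        exact_mod_cast c4
      linarith
    have h3 : ‖((gp a b k).1 + (gp a b k).2 * Complex.I) / (S : ℂ) ^ k - 1‖ = ‖G‖ / S ^ k := by
      rw [e1, norm_div, norm_pow, h.normS]
    have h4 : ‖z ^ k - 1‖ ≤ ‖((gp a b k).1 + (gp a b k).2 * Complex.I) / (S : ℂ) ^ k - 1‖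
        + k * 2 ^ (k - 1) * (E / S) := by
      have := norm_add_le (((gp a b k).1 + (gp a b k).2 * Complex.I) / (S : ℂ) ^ k - 1)
        (z ^ k - ((gp a b k).1 + (gp a b k).2 * Complex.I) / (S : ℂ) ^ k)
      rw [add_comm, sub_add_sub_cancel] at this
      linarith
    rw [h3] at h4
    have e2 : (M₂ - k * 2 ^ (k - 1) * E : ℝ) / S = M₂ / S - k * 2 ^ (k - 1) * (E / S) := by ring
    linarith
  -- lower bound of ‖2z^k - 1‖
  have hM3 : (M₃ : ℝ) / S ≤ ‖2 * z ^ k - 1‖ := by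
    have e1 : 2 * (((gp a b k).1 + (gp a b k).2 * Complex.I) / (S : ℂ) ^ k) - 1
        = ((2 * (gp a b k).1 - S ^ k : ℤ) + ((2 * (gp a b k).2 : ℤ) : ℂ) * Complex.I)
          / (S : ℂ) ^ k := by
      push_cast
      field_simp
      ring
    have n1 := norm_sq_add_mul_I (2 * (gp a b k).1 - S ^ k) (2 * (gp a b k).2)
    set G : ℂ := ((2 * (gp a b k).1 - S ^ k : ℤ) : ℂ) + ((2 * (gp a b k).2 : ℤ) : ℂ) * Complex.I
      with hG
    have h2 : (M₃ + 2 * (k * 2 ^ (k - 1) * E) : ℝ) / S ≤ ‖G‖ / S ^ k := by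
      rw [div_le_div_iff₀ hS (by positivity)]
      apply le_of_sq_le_sq _ (by positivity)
      rw [mul_pow, mul_pow, n1, ← pow_mul, mul_comm k 2]
      have : ((M₃ + 2 * (k * 2 ^ (k - 1) * E) : ℝ)) ^ 2 * (S : ℝ) ^ (2 * k)
          ≤ (S : ℝ) ^ 2 * ((2 * (gp a b k).1 - S ^ k) ^ 2 + (2 * (gp a b k).2) ^ 2 : ℤ) := by
        exact_mod_cast c5
      linarith
    have h3 : ‖2 * (((gp a b k).1 + (gp a b k).2 * Complex.I) / (S : ℂ) ^ k) - 1‖ = ‖G‖ / S ^ k := by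
      rw [e1, norm_div, norm_pow, h.normS]
    have h4 : ‖2 * (((gp a b k).1 + (gp a b k).2 * Complex.I) / (S : ℂ) ^ k) - 1‖
        ≤ ‖2 * z ^ k - 1‖ + 2 * (k * 2 ^ (k - 1) * (E / S)) := by
      have h5 := norm_sub_le (2 * z ^ k - 1)
        (2 * (z ^ k - ((gp a b k).1 + (gp a b k).2 * Complex.I) / (S : ℂ) ^ k))
      have e3 : 2 * z ^ k - 1 - 2 * (z ^ k - ((gp a b k).1 + (gp a b k).2 * Complex.I) / (S : ℂ) ^ k)
          = 2 * (((gp a b k).1 + (gp a b k).2 * Complex.I) / (S : ℂ) ^ k) - 1 := by ring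
      rw [e3, norm_mul] at h5
      have h6 : ‖(2 : ℂ)‖ = 2 := by simp
      rw [h6] at h5
      linarith
    rw [h3] at h4
    have e2 : (M₃ + 2 * (k * 2 ^ (k - 1) * E) : ℝ) / S
        = M₃ / S + 2 * (k * 2 ^ (k - 1) * (E / S)) := by ring
    linarith
  have hpos : 0 < (R : ℝ) ^ k / (S : ℝ) ^ k - 1 := by
    rw [← div_pow]
    have := one_lt_pow₀ (n := k) (show 1 < (R : ℝ) / S by rw [one_lt_div hS]; exact h.hSR) (by omega)
    linarith
  calc ‖z ^ k - 1‖ ≤ (M₂ : ℝ) / S := hM2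
    _ < ((R : ℝ) ^ k / (S : ℝ) ^ k - 1) * (M₃ / S) := by
      have e1 : ((R : ℝ) ^ k / (S : ℝ) ^ k - 1) * (M₃ / S)
          = (M₃ * (R ^ k - S ^ k)) / S ^ k / S := by field_simp
      rw [e1]
      gcongr
      rw [lt_div_iff₀ (by positivity)]
      exact_mod_cast c6
    _ ≤ (‖z‖ ^ k - 1) * ‖2 * z ^ k - 1‖ := by
      apply mul_le_mul (by linarith) hM3 (by positivity)
      linarith

end Data

end Pool.Agent.R341.Powers
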