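import Pool.Agent.R341.Powers5
import Pool.Agent.R341.Powers6

set_option autoImplicit false

namespace Pool.Agent.R341.Powers

open Pool.Agent.R341.Greedy

lemma beta_gt {d : ℕ} (hd : 2 ≤ d) {β x : ℝ} (hβ1 : 1 < β) (hβ : β ^ d = β + 1) (hx0 : 0 < x)
    (hx : x ^ d < x + 1) : x < β := by
  by_contra hcon
  push Not at hcon
  have h3 : x ^ d = x * x ^ (d - 1) := by
    rw [← pow_succ', Nat.sub_add_cancel (by omega)]
  have h4 : β * β ^ (d - 1) = β + 1 := by
    rw [← pow_succ', Nat.sub_add_cancel (by omega), hβ]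
  have h5 : β ^ (d - 1) ≤ x ^ (d - 1) := by gcongr
  have h6 : x * β ^ (d - 1) ≤ x ^ d := by
    rw [h3]; exact mul_le_mul_of_nonneg_left h5 (by linarith)
  have h8 : β * (x * β ^ (d - 1)) = x * (β + 1) := by rw [← h4]; ring
  nlinarith

lemma stepc {γ : ℝ} {g V W : ℂ} {n : ℕ} {t : ℤ} (hc : c γ (n + 1) = t) (h : rc γ g n = V)
    (e : g * V = W + t) : rc γ g (n + 1) = W := by
  have : ⌊γ * r γ n⌋ = t := hc
  rw [rc, this, h, e]
  ring

lemma digit_le {γ : ℝ} {D : ℤ} (hγ : 0 < γ) (h : γ < D + 1) (n : ℕ) : ⌊γ * r γ n⌋ ≤ D := by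
  have h1 : γ * r γ n < D + 1 := by
    have := r_le_one γ n
    nlinarith
  have h2 : ⌊γ * r γ n⌋ < D + 1 := by
    rw [Int.floor_lt]
    push_cast
    exact h1
  omega

lemma norm_ge {w : ℂ} {A' C' A C N : ℝ} (hre : w.re = A') (him : w.im = C') (hA : A ≤ |A'|)
    (hC : C ≤ |C'|) (hA0 : 0 ≤ A) (hC0 : 0 ≤ C) (hN0 : 0 ≤ N) (h : N ^ 2 ≤ A ^ 2 + C ^ 2) :
    N ≤ ‖w‖ := by
  apply le_of_sq_le_sq _ (norm_nonneg _)
  rw [← Complex.normSq_eq_norm_sq, Complex.normSq_apply, hre, him]
  have h1 : A ^ 2 ≤ A' ^ 2 := by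
    rw [← sq_abs A']; exact pow_le_pow_left₀ hA0 hA 2
  have h2 : C ^ 2 ≤ C' ^ 2 := by
    rw [← sq_abs C']; exact pow_le_pow_left₀ hC0 hC 2
  nlinarith

lemma Data.near_re {d : ℕ} {a b E S B R : ℤ} {β : ℝ} {z : ℂ} (h : Data d a b E S B R β z) (k : ℕ) :
    |(z ^ k).re - (gp a b k).1 / (S : ℝ) ^ k| ≤ k * 2 ^ (k - 1) * (E / S) := by
  refine le_trans ?_ (h.near_pow k)
  have h1 := Complex.abs_re_le_norm
    (z ^ k - ((gp a b k).1 + (gp a b k).2 * Complex.I) / (S : ℂ) ^ k)
  have h2 : (z ^ k - ((gp a b k).1 + (gp a b k).2 * Complex.I) / (S : ℂ) ^ k).re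
      = (z ^ k).re - (gp a b k).1 / (S : ℝ) ^ k := by
    rw [Complex.sub_re]
    congr 1
    have : (S : ℂ) ^ k = (((S : ℝ) ^ k : ℝ) : ℂ) := by push_cast; rfl
    rw [this, Complex.div_ofReal_re]
    simp
  rwa [h2] at h1

lemma Data.near_im {d : ℕ} {a b E S B R : ℤ} {β : ℝ} {z : ℂ} (h : Data d a b E S B R β z) (k : ℕ) :
    |(z ^ k).im - (gp a b k).2 / (S : ℝ) ^ k| ≤ k * 2 ^ (k - 1) * (E / S) := by
  refine le_trans ?_ (h.near_pow k)
  have h1 := Complex.abs_im_le_norm
    (z ^ k - ((gp a b k).1 + (gp a b k).2 * Complex.I) / (S : ℂ) ^ k)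
  have h2 : (z ^ k - ((gp a b k).1 + (gp a b k).2 * Complex.I) / (S : ℂ) ^ k).im
      = (z ^ k).im - (gp a b k).2 / (S : ℝ) ^ k := by
    rw [Complex.sub_im]
    congr 1
    have : (S : ℂ) ^ k = (((S : ℝ) ^ k : ℝ) : ℂ) := by push_cast; rfl
    rw [this, Complex.div_ofReal_im]
    simp
  rwa [h2] at h1

lemma case_4_2 {β : ℝ} {z : ℂ} (hβ : β ^ 4 = β + 1)
    (h : Data 4 (-24812606) 103398206 20 100000000 122074410 106333672 β z) : ¬ Parry (β ^ 2) := by
  have hz := h.root
  have hβ1 := h.hβ1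
  have hU : β ≤ 122074410 / 100000000 := by
    have := h.hB
    push_cast at this
    exact this
  have hL : 122074408 / 100000000 < β := beta_gt (by norm_num) hβ1 hβ (by norm_num) (by norm_num)
  have hβe : β ^ 4 - β - 1 = 0 := by linarith
  have hze : z ^ 4 - z - 1 = 0 := by linear_combination hz
  have L2 := pow_le_pow_left₀ (by norm_num) hL.le 2
  have U2 := pow_le_pow_left₀ (by linarith) hU 2
  have L3 := pow_le_pow_left₀ (by norm_num) hL.le 3
  have U3 := pow_le_pow_left₀ (by linarith) hU 3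
  norm_num at hL hU L2 U2 L3 U3
  have r0 : r (β ^ 2) 0 = 1 := rfl
  have q0 : rc (β ^ 2) (z ^ 2) 0 = 1 := rfl
  obtain ⟨c1, r1⟩ := step (w := β ^ 2 - 1) (d := 1) r0
    (by push_cast; linear_combination (0) * hβe) (by linarith) (by linarith)
  have q1 : rc (β ^ 2) (z ^ 2) 1 = z ^ 2 - 1 :=
    stepc c1 q0 (by push_cast; linear_combination (0) * hze)
  obtain ⟨c2, r2⟩ := step (w := -β ^ 2 + β + 1) (d := 0) r1
    (by push_cast; linear_combination (1) * hβe) (by linarith) (by linarith)
  have q2 : rc (β ^ 2) (z ^ 2) 2 = -z ^ 2 + z + 1 :=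
    stepc c2 q1 (by push_cast; linear_combination (1) * hze)
  obtain ⟨c3, r3⟩ := step (w := β ^ 3 + β ^ 2 - β - 2) (d := 1) r2
    (by push_cast; linear_combination (-1) * hβe) (by linarith) (by linarith)
  have q3 : rc (β ^ 2) (z ^ 2) 3 = z ^ 3 + z ^ 2 - z - 2 :=
    stepc c3 q2 (by push_cast; linear_combination (-1) * hze)
  obtain ⟨c4, r4⟩ := step (w := -β ^ 3 - β ^ 2 + 2 * β + 1) (d := 0) r3
    (by push_cast; linear_combination (β + 1) * hβe) (by linarith) (by linarith)
  have q4 : rc (β ^ 2) (z ^ 2) 4 = -z ^ 3 - z ^ 2 + 2 * z + 1 :=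
    stepc c4 q3 (by push_cast; linear_combination (z + 1) * hze)
  obtain ⟨c5, r5⟩ := step (w := 2 * β ^ 3 - 2 * β - 1) (d := 0) r4
    (by push_cast; linear_combination (-β - 1) * hβe) (by linarith) (by linarith)
  have q5 : rc (β ^ 2) (z ^ 2) 5 = 2 * z ^ 3 - 2 * z - 1 :=
    stepc c5 q4 (by push_cast; linear_combination (-z - 1) * hze)
  obtain ⟨c6, r6⟩ := step (w := -2 * β ^ 3 + β ^ 2 + 2 * β) (d := 0) r5
    (by push_cast; linear_combination (2 * β) * hβe) (by linarith) (by linarith)
  have q6 : rc (β ^ 2) (z ^ 2) 6 = -2 * z ^ 3 + z ^ 2 + 2 * z :=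
    stepc c6 q5 (by push_cast; linear_combination (2 * z) * hze)
  obtain ⟨c7, r7⟩ := step (w := 2 * β ^ 3 - 2 * β ^ 2 - β + 1) (d := 0) r6
    (by push_cast; linear_combination (-2 * β + 1) * hβe) (by linarith) (by linarith)
  have q7 : rc (β ^ 2) (z ^ 2) 7 = 2 * z ^ 3 - 2 * z ^ 2 - z + 1 :=
    stepc c7 q6 (by push_cast; linear_combination (-2 * z + 1) * hze)
  obtain ⟨c8, r8⟩ := step (w := -β ^ 3 + 3 * β ^ 2 - 2) (d := 0) r7
    (by push_cast; linear_combination (2 * β - 2) * hβe) (by linarith) (by linarith)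
  have q8 : rc (β ^ 2) (z ^ 2) 8 = -z ^ 3 + 3 * z ^ 2 - 2 :=
    stepc c8 q7 (by push_cast; linear_combination (2 * z - 2) * hze)
  obtain ⟨c9, r9⟩ := step (w := -3 * β ^ 2 + 2 * β + 3) (d := 0) r8
    (by push_cast; linear_combination (-β + 3) * hβe) (by linarith) (by linarith)
  have q9 : rc (β ^ 2) (z ^ 2) 9 = -3 * z ^ 2 + 2 * z + 3 :=
    stepc c9 q8 (by push_cast; linear_combination (-z + 3) * hze)
  obtain ⟨c10, r10⟩ := step (w := 2 * β ^ 3 + 3 * β ^ 2 - 3 * β - 4) (d := 1) r9
    (by push_cast; linear_combination (-3) * hβe) (by linarith) (by linarith)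
  have q10 : rc (β ^ 2) (z ^ 2) 10 = 2 * z ^ 3 + 3 * z ^ 2 - 3 * z - 4 :=
    stepc c10 q9 (by push_cast; linear_combination (-3) * hze)
  have hg : 1130683 / 1000000 ≤ ‖z ^ 2‖ := by
    have hR := h.hR
    push_cast at hR
    rw [norm_pow]
    have := pow_le_pow_left₀ (by norm_num) hR 2
    refine le_trans ?_ this
    norm_num
  have re1 := h.near_re 1
  have im1 := h.near_im 1
  rw [show gp (-24812606) 103398206 1 = (-24812606, 103398206) by decide] at re1 im1
  have re2 := h.near_re 2
  have im2 := h.near_im 2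
  rw [show gp (-24812606) 103398206 2 = (-10075523587507200, -5131157893169672) by decide] at re2 im2
  have re3 := h.near_re 3
  have im3 := h.near_im 3
  rw [show gp (-24812606) 103398206 3 = (780552517877006414171632, -914473664331919329597968) by decide] at re3 im3
  norm_num [abs_le] at re1 im1 re2 im2 re3 im3
  have hN : 80071 / 10000 ≤ ‖rc (β ^ 2) (z ^ 2) 10‖ := by
    rw [q10]
    generalize z ^ 2 = z2 at re2 im2 ⊢
    generalize z ^ 3 = z3 at re3 im3 ⊢
    have hre : (2 * z3 + 3 * z2 - 3 * z - 4 : ℂ).re = 2 * z3.re + 3 * z2.re - 3 * z.re - 4 := by simp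
    have him : (2 * z3 + 3 * z2 - 3 * z - 4 : ℂ).im = 2 * z3.im + 3 * z2.im - 3 * z.im := by simp
    have hA : 4717153 / 1000000 ≤ -(2 * z3.re + 3 * z2.re - 3 * z.re - 4) := by linarith [re1.1, re1.2, re2.1, re2.2, re3.1, re3.2]
    have hC : 323511 / 50000 ≤ -(2 * z3.im + 3 * z2.im - 3 * z.im) := by linarith [im1.1, im1.2, im2.1, im2.2, im3.1, im3.2]
    exact norm_ge hre him (hA.trans (neg_le_abs _))
      (hC.trans (neg_le_abs _)) (by norm_num) (by norm_num) (by norm_num) (by norm_num)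
  have hD : ∀ n, ((⌊β ^ 2 * r (β ^ 2) n⌋ : ℤ) : ℝ) ≤ 1 := by
    intro n
    have U' := pow_le_pow_left₀ (by linarith) hU 2
    norm_num at U'
    have := digit_le (D := 1) (show 0 < β ^ 2 by positivity) (by push_cast; linarith) n
    exact_mod_cast this
  apply crit_C h.conj (lt_of_lt_of_le (by norm_num) hg) hD (by linarith) (n₀ := 10)
  have := mul_le_mul (sub_le_sub_right hg 1) hN (by norm_num) (by linarith)
  norm_num at this ⊢
  linarith

lemma case_4_3 {β : ℝ} {z : ℂ} (hβ : β ^ 4 = β + 1)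
    (h : Data 4 (-24812606) 103398206 20 100000000 122074410 106333672 β z) : ¬ Parry (β ^ 3) := by
  have hz := h.root
  have hβ1 := h.hβ1
  have hU : β ≤ 122074410 / 100000000 := by
    have := h.hB
    push_cast at this
    exact this
  have hL : 122074408 / 100000000 < β := beta_gt (by norm_num) hβ1 hβ (by norm_num) (by norm_num)
  have hβe : β ^ 4 - β - 1 = 0 := by linarith
  have hze : z ^ 4 - z - 1 = 0 := by linear_combination hz
  have L2 := pow_le_pow_left₀ (by norm_num) hL.le 2
  have U2 := pow_le_pow_left₀ (by linarith) hU 2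
  have L3 := pow_le_pow_left₀ (by norm_num) hL.le 3
  have U3 := pow_le_pow_left₀ (by linarith) hU 3
  norm_num at hL hU L2 U2 L3 U3
  have r0 : r (β ^ 3) 0 = 1 := rfl
  have q0 : rc (β ^ 3) (z ^ 3) 0 = 1 := rfl
  obtain ⟨c1, r1⟩ := step (w := β ^ 3 - 1) (d := 1) r0
    (by push_cast; linear_combination (0) * hβe) (by linarith) (by linarith)
  have q1 : rc (β ^ 3) (z ^ 3) 1 = z ^ 3 - 1 :=
    stepc c1 q0 (by push_cast; linear_combination (0) * hze)
  obtain ⟨c2, r2⟩ := step (w := β ^ 2 - 1) (d := 1) r1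
    (by push_cast; linear_combination (β ^ 2) * hβe) (by linarith) (by linarith)
  have q2 : rc (β ^ 3) (z ^ 3) 2 = z ^ 2 - 1 :=
    stepc c2 q1 (by push_cast; linear_combination (z ^ 2) * hze)
  obtain ⟨c3, r3⟩ := step (w := -β ^ 3 + β ^ 2 + β) (d := 0) r2
    (by push_cast; linear_combination (β) * hβe) (by linarith) (by linarith)
  have q3 : rc (β ^ 3) (z ^ 3) 3 = -z ^ 3 + z ^ 2 + z :=
    stepc c3 q2 (by push_cast; linear_combination (z) * hze)
  obtain ⟨c4, r4⟩ := step (w := -β ^ 3 + 2 * β) (d := 1) r3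
    (by push_cast; linear_combination (-β ^ 2 + β + 1) * hβe) (by linarith) (by linarith)
  have q4 : rc (β ^ 3) (z ^ 3) 4 = -z ^ 3 + 2 * z :=
    stepc c4 q3 (by push_cast; linear_combination (-z ^ 2 + z + 1) * hze)
  obtain ⟨c5, r5⟩ := step (w := -β ^ 3 - β ^ 2 + 2 * β + 1) (d := 1) r4
    (by push_cast; linear_combination (-β ^ 2 + 2) * hβe) (by linarith) (by linarith)
  have q5 : rc (β ^ 3) (z ^ 3) 5 = -z ^ 3 - z ^ 2 + 2 * z + 1 :=
    stepc c5 q4 (by push_cast; linear_combination (-z ^ 2 + 2) * hze)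
  obtain ⟨c6, r6⟩ := step (w := -2 * β ^ 2 + β + 2) (d := 0) r5
    (by push_cast; linear_combination (-β ^ 2 - β + 2) * hβe) (by linarith) (by linarith)
  have q6 : rc (β ^ 3) (z ^ 3) 6 = -2 * z ^ 2 + z + 2 :=
    stepc c6 q5 (by push_cast; linear_combination (-z ^ 2 - z + 2) * hze)
  obtain ⟨c7, r7⟩ := step (w := 2 * β ^ 3 - 2 * β ^ 2 - β + 1) (d := 0) r6
    (by push_cast; linear_combination (-2 * β + 1) * hβe) (by linarith) (by linarith)
  have q7 : rc (β ^ 3) (z ^ 3) 7 = 2 * z ^ 3 - 2 * z ^ 2 - z + 1 :=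
    stepc c7 q6 (by push_cast; linear_combination (-2 * z + 1) * hze)
  have hg : 1202297 / 1000000 ≤ ‖z ^ 3‖ := by
    have hR := h.hR
    push_cast at hR
    rw [norm_pow]
    have := pow_le_pow_left₀ (by norm_num) hR 3
    refine le_trans ?_ this
    norm_num
  have re1 := h.near_re 1
  have im1 := h.near_im 1
  rw [show gp (-24812606) 103398206 1 = (-24812606, 103398206) by decide] at re1 im1
  have re2 := h.near_re 2
  have im2 := h.near_im 2
  rw [show gp (-24812606) 103398206 2 = (-10075523587507200, -5131157893169672) by decide] at re2 im2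
  have re3 := h.near_re 3
  have im3 := h.near_im 3
  rw [show gp (-24812606) 103398206 3 = (780552517877006414171632, -914473664331919329597968) by decide] at re3 im3
  norm_num [abs_le] at re1 im1 re2 im2 re3 im3
  have hN : 2581 / 500 ≤ ‖rc (β ^ 3) (z ^ 3) 7‖ := by
    rw [q7]
    generalize z ^ 2 = z2 at re2 im2 ⊢
    generalize z ^ 3 = z3 at re3 im3 ⊢
    have hre : (2 * z3 - 2 * z2 - z + 1 : ℂ).re = 2 * z3.re - 2 * z2.re - z.re + 1 := by simp
    have him : (2 * z3 - 2 * z2 - z + 1 : ℂ).im = 2 * z3.im - 2 * z2.im - z.im := by simp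
    have hA : 964863 / 200000 ≤ (2 * z3.re - 2 * z2.re - z.re + 1) := by linarith [re1.1, re1.2, re2.1, re2.2, re3.1, re3.2]
    have hC : 1836677 / 1000000 ≤ -(2 * z3.im - 2 * z2.im - z.im) := by linarith [im1.1, im1.2, im2.1, im2.2, im3.1, im3.2]
    exact norm_ge hre him (hA.trans (le_abs_self _))
      (hC.trans (neg_le_abs _)) (by norm_num) (by norm_num) (by norm_num) (by norm_num)
  have hD : ∀ n, ((⌊β ^ 3 * r (β ^ 3) n⌋ : ℤ) : ℝ) ≤ 1 := by
    intro n
    have U' := pow_le_pow_left₀ (by linarith) hU 3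
    norm_num at U'
    have := digit_le (D := 1) (show 0 < β ^ 3 by positivity) (by push_cast; linarith) n
    exact_mod_cast this
  apply crit_C h.conj (lt_of_lt_of_le (by norm_num) hg) hD (by linarith) (n₀ := 7)
  have := mul_le_mul (sub_le_sub_right hg 1) hN (by norm_num) (by linarith)
  norm_num at this ⊢
  linarith

lemma case_4_4 {β : ℝ} {z : ℂ} (hβ : β ^ 4 = β + 1)
    (h : Data 4 (-24812606) 103398206 20 100000000 122074410 106333672 β z) : ¬ Parry (β ^ 4) := by
  have hz := h.root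
  have hβ1 := h.hβ1
  have hU : β ≤ 122074410 / 100000000 := by
    have := h.hB
    push_cast at this
    exact this
  have hL : 122074408 / 100000000 < β := beta_gt (by norm_num) hβ1 hβ (by norm_num) (by norm_num)
  have hβe : β ^ 4 - β - 1 = 0 := by linarith
  have hze : z ^ 4 - z - 1 = 0 := by linear_combination hz
  have L2 := pow_le_pow_left₀ (by norm_num) hL.le 2
  have U2 := pow_le_pow_left₀ (by linarith) hU 2
  have L3 := pow_le_pow_left₀ (by norm_num) hL.le 3
  have U3 := pow_le_pow_left₀ (by linarith) hU 3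
  norm_num at hL hU L2 U2 L3 U3
  have r0 : r (β ^ 4) 0 = 1 := rfl
  have q0 : rc (β ^ 4) (z ^ 4) 0 = 1 := rfl
  obtain ⟨c1, r1⟩ := step (w := β - 1) (d := 2) r0
    (by push_cast; linear_combination (1) * hβe) (by linarith) (by linarith)
  have q1 : rc (β ^ 4) (z ^ 4) 1 = z - 1 :=
    stepc c1 q0 (by push_cast; linear_combination (1) * hze)
  obtain ⟨c2, r2⟩ := step (w := β ^ 2 - 1) (d := 0) r1
    (by push_cast; linear_combination (β - 1) * hβe) (by linarith) (by linarith)
  have q2 : rc (β ^ 4) (z ^ 4) 2 = z ^ 2 - 1 :=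
    stepc c2 q1 (by push_cast; linear_combination (z - 1) * hze)
  obtain ⟨c3, r3⟩ := step (w := β ^ 3 + β ^ 2 - β - 2) (d := 1) r2
    (by push_cast; linear_combination (β ^ 2 - 1) * hβe) (by linarith) (by linarith)
  have q3 : rc (β ^ 4) (z ^ 4) 3 = z ^ 3 + z ^ 2 - z - 2 :=
    stepc c3 q2 (by push_cast; linear_combination (z ^ 2 - 1) * hze)
  obtain ⟨c4, r4⟩ := step (w := 2 * β ^ 3 - 2 * β - 1) (d := 0) r3
    (by push_cast; linear_combination (β ^ 3 + β ^ 2 - β - 1) * hβe) (by linarith) (by linarith)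
  have q4 : rc (β ^ 4) (z ^ 4) 4 = 2 * z ^ 3 - 2 * z - 1 :=
    stepc c4 q3 (by push_cast; linear_combination (z ^ 3 + z ^ 2 - z - 1) * hze)
  obtain ⟨c5, r5⟩ := step (w := 2 * β ^ 3 - 2 * β ^ 2 - β + 1) (d := 0) r4
    (by push_cast; linear_combination (2 * β ^ 3 - 2 * β + 1) * hβe) (by linarith) (by linarith)
  have q5 : rc (β ^ 4) (z ^ 4) 5 = 2 * z ^ 3 - 2 * z ^ 2 - z + 1 :=
    stepc c5 q4 (by push_cast; linear_combination (2 * z ^ 3 - 2 * z + 1) * hze)
  obtain ⟨c6, r6⟩ := step (w := -3 * β ^ 2 + 2 * β + 3) (d := 0) r5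
    (by push_cast; linear_combination (2 * β ^ 3 - 2 * β ^ 2 - β + 3) * hβe) (by linarith) (by linarith)
  have q6 : rc (β ^ 4) (z ^ 4) 6 = -3 * z ^ 2 + 2 * z + 3 :=
    stepc c6 q5 (by push_cast; linear_combination (2 * z ^ 3 - 2 * z ^ 2 - z + 3) * hze)
  obtain ⟨c7, r7⟩ := step (w := -3 * β ^ 3 - β ^ 2 + 5 * β + 1) (d := 2) r6
    (by push_cast; linear_combination (-3 * β ^ 2 + 2 * β + 3) * hβe) (by linarith) (by linarith)
  have q7 : rc (β ^ 4) (z ^ 4) 7 = -3 * z ^ 3 - z ^ 2 + 5 * z + 1 :=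
    stepc c7 q6 (by push_cast; linear_combination (-3 * z ^ 2 + 2 * z + 3) * hze)
  have hg : 1278447 / 1000000 ≤ ‖z ^ 4‖ := by
    have hR := h.hR
    push_cast at hR
    rw [norm_pow]
    have := pow_le_pow_left₀ (by norm_num) hR 4
    refine le_trans ?_ this
    norm_num
  have re1 := h.near_re 1
  have im1 := h.near_im 1
  rw [show gp (-24812606) 103398206 1 = (-24812606, 103398206) by decide] at re1 im1
  have re2 := h.near_re 2
  have im2 := h.near_im 2
  rw [show gp (-24812606) 103398206 2 = (-10075523587507200, -5131157893169672) by decide] at re2 im2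
  have re3 := h.near_re 3
  have im3 := h.near_im 3
  rw [show gp (-24812606) 103398206 3 = (780552517877006414171632, -914473664331919329597968) by decide] at re3 im3
  norm_num [abs_le] at re1 im1 re2 im2 re3 im3
  have hN : 42861 / 5000 ≤ ‖rc (β ^ 4) (z ^ 4) 7‖ := by
    rw [q7]
    generalize z ^ 2 = z2 at re2 im2 ⊢
    generalize z ^ 3 = z3 at re3 im3 ⊢
    have hre : (-3 * z3 - z2 + 5 * z + 1 : ℂ).re = -3 * z3.re - z2.re + 5 * z.re + 1 := by simp
    have him : (-3 * z3 - z2 + 5 * z + 1 : ℂ).im = -3 * z3.im - z2.im + 5 * z.im := by simp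
    have hA : 314943 / 200000 ≤ -(-3 * z3.re - z2.re + 5 * z.re + 1) := by linarith [re1.1, re1.2, re2.1, re2.2, re3.1, re3.2]
    have hC : 8426427 / 1000000 ≤ (-3 * z3.im - z2.im + 5 * z.im) := by linarith [im1.1, im1.2, im2.1, im2.2, im3.1, im3.2]
    exact norm_ge hre him (hA.trans (neg_le_abs _))
      (hC.trans (le_abs_self _)) (by norm_num) (by norm_num) (by norm_num) (by norm_num)
  have hD : ∀ n, ((⌊β ^ 4 * r (β ^ 4) n⌋ : ℤ) : ℝ) ≤ 2 := by
    intro n
    have U' := pow_le_pow_left₀ (by linarith) hU 4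
    norm_num at U'
    have := digit_le (D := 2) (show 0 < β ^ 4 by positivity) (by push_cast; linarith) n
    exact_mod_cast this
  apply crit_C h.conj (lt_of_lt_of_le (by norm_num) hg) hD (by linarith) (n₀ := 7)
  have := mul_le_mul (sub_le_sub_right hg 1) hN (by norm_num) (by linarith)
  norm_num at this ⊢
  linarith

lemma case_4_5 {β : ℝ} {z : ℂ} (hβ : β ^ 4 = β + 1)
    (h : Data 4 (-24812606) 103398206 20 100000000 122074410 106333672 β z) : ¬ Parry (β ^ 5) := by
  have hz := h.root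
  have hβ1 := h.hβ1
  have hU : β ≤ 122074410 / 100000000 := by
    have := h.hB
    push_cast at this
    exact this
  have hL : 122074408 / 100000000 < β := beta_gt (by norm_num) hβ1 hβ (by norm_num) (by norm_num)
  have hβe : β ^ 4 - β - 1 = 0 := by linarith
  have hze : z ^ 4 - z - 1 = 0 := by linear_combination hz
  have L2 := pow_le_pow_left₀ (by norm_num) hL.le 2
  have U2 := pow_le_pow_left₀ (by linarith) hU 2
  have L3 := pow_le_pow_left₀ (by norm_num) hL.le 3
  have U3 := pow_le_pow_left₀ (by linarith) hU 3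
  norm_num at hL hU L2 U2 L3 U3
  have r0 : r (β ^ 5) 0 = 1 := rfl
  have q0 : rc (β ^ 5) (z ^ 5) 0 = 1 := rfl
  obtain ⟨c1, r1⟩ := step (w := β ^ 2 + β - 2) (d := 2) r0
    (by push_cast; linear_combination (β) * hβe) (by linarith) (by linarith)
  have q1 : rc (β ^ 5) (z ^ 5) 1 = z ^ 2 + z - 2 :=
    stepc c1 q0 (by push_cast; linear_combination (z) * hze)
  obtain ⟨c2, r2⟩ := step (w := 2 * β ^ 3 - β ^ 2 - β) (d := 1) r1
    (by push_cast; linear_combination (β ^ 3 + β ^ 2 - 2 * β + 1) * hβe) (by linarith) (by linarith)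
  have q2 : rc (β ^ 5) (z ^ 5) 2 = 2 * z ^ 3 - z ^ 2 - z :=
    stepc c2 q1 (by push_cast; linear_combination (z ^ 3 + z ^ 2 - 2 * z + 1) * hze)
  obtain ⟨c3, r3⟩ := step (w := -2 * β ^ 3 + β ^ 2 + 3 * β - 1) (d := 2) r2
    (by push_cast; linear_combination (2 * β ^ 4 - β ^ 3 - β ^ 2 + 2 * β + 1) * hβe) (by linarith) (by linarith)
  have q3 : rc (β ^ 5) (z ^ 5) 3 = -2 * z ^ 3 + z ^ 2 + 3 * z - 1 :=
    stepc c3 q2 (by push_cast; linear_combination (2 * z ^ 4 - z ^ 3 - z ^ 2 + 2 * z + 1) * hze)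
  have hg : 67971 / 50000 ≤ ‖z ^ 5‖ := by
    have hR := h.hR
    push_cast at hR
    rw [norm_pow]
    have := pow_le_pow_left₀ (by norm_num) hR 5
    refine le_trans ?_ this
    norm_num
  have re1 := h.near_re 1
  have im1 := h.near_im 1
  rw [show gp (-24812606) 103398206 1 = (-24812606, 103398206) by decide] at re1 im1
  have re2 := h.near_re 2
  have im2 := h.near_im 2
  rw [show gp (-24812606) 103398206 2 = (-10075523587507200, -5131157893169672) by decide] at re2 im2
  have re3 := h.near_re 3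
  have im3 := h.near_im 3
  rw [show gp (-24812606) 103398206 3 = (780552517877006414171632, -914473664331919329597968) by decide] at re3 im3
  norm_num [abs_le] at re1 im1 re2 im2 re3 im3
  have hN : 61739 / 10000 ≤ ‖rc (β ^ 5) (z ^ 5) 3‖ := by
    rw [q3]
    generalize z ^ 2 = z2 at re2 im2 ⊢
    generalize z ^ 3 = z3 at re3 im3 ⊢
    have hre : (-2 * z3 + z2 + 3 * z - 1 : ℂ).re = -2 * z3.re + z2.re + 3 * z.re - 1 := by simp
    have him : (-2 * z3 + z2 + 3 * z - 1 : ℂ).im = -2 * z3.im + z2.im + 3 * z.im := by simp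
    have hA : 862603 / 200000 ≤ -(-2 * z3.re + z2.re + 3 * z.re - 1) := by linarith [re1.1, re1.2, re2.1, re2.2, re3.1, re3.2]
    have hC : 4417757 / 1000000 ≤ (-2 * z3.im + z2.im + 3 * z.im) := by linarith [im1.1, im1.2, im2.1, im2.2, im3.1, im3.2]
    exact norm_ge hre him (hA.trans (neg_le_abs _))
      (hC.trans (le_abs_self _)) (by norm_num) (by norm_num) (by norm_num) (by norm_num)
  have hD : ∀ n, ((⌊β ^ 5 * r (β ^ 5) n⌋ : ℤ) : ℝ) ≤ 2 := by
    intro n
    have U' := pow_le_pow_left₀ (by linarith) hU 5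
    norm_num at U'
    have := digit_le (D := 2) (show 0 < β ^ 5 by positivity) (by push_cast; linarith) n
    exact_mod_cast this
  apply crit_C h.conj (lt_of_lt_of_le (by norm_num) hg) hD (by linarith) (n₀ := 3)
  have := mul_le_mul (sub_le_sub_right hg 1) hN (by norm_num) (by linarith)
  norm_num at this ⊢
  linarith

lemma case_4_6 {β : ℝ} {z : ℂ} (hβ : β ^ 4 = β + 1)
    (h : Data 4 (-24812606) 103398206 20 100000000 122074410 106333672 β z) : ¬ Parry (β ^ 6) := by
  have hz := h.root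
  have hβ1 := h.hβ1
  have hU : β ≤ 122074410 / 100000000 := by
    have := h.hB
    push_cast at this
    exact this
  have hL : 122074408 / 100000000 < β := beta_gt (by norm_num) hβ1 hβ (by norm_num) (by norm_num)
  have hβe : β ^ 4 - β - 1 = 0 := by linarith
  have hze : z ^ 4 - z - 1 = 0 := by linear_combination hz
  have L2 := pow_le_pow_left₀ (by norm_num) hL.le 2
  have U2 := pow_le_pow_left₀ (by linarith) hU 2
  have L3 := pow_le_pow_left₀ (by norm_num) hL.le 3
  have U3 := pow_le_pow_left₀ (by linarith) hU 3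
  norm_num at hL hU L2 U2 L3 U3
  have r0 : r (β ^ 6) 0 = 1 := rfl
  have q0 : rc (β ^ 6) (z ^ 6) 0 = 1 := rfl
  obtain ⟨c1, r1⟩ := step (w := β ^ 3 + β ^ 2 - 3) (d := 3) r0
    (by push_cast; linear_combination (β ^ 2) * hβe) (by linarith) (by linarith)
  have q1 : rc (β ^ 6) (z ^ 6) 1 = z ^ 3 + z ^ 2 - 3 :=
    stepc c1 q0 (by push_cast; linear_combination (z ^ 2) * hze)
  obtain ⟨c2, r2⟩ := step (w := -2 * β ^ 3 + 3 * β) (d := 1) r1
    (by push_cast; linear_combination (β ^ 5 + β ^ 4 - 2 * β ^ 2 + 2 * β + 1) * hβe) (by linarith) (by linarith)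
  have q2 : rc (β ^ 6) (z ^ 6) 2 = -2 * z ^ 3 + 3 * z :=
    stepc c2 q1 (by push_cast; linear_combination (z ^ 5 + z ^ 4 - 2 * z ^ 2 + 2 * z + 1) * hze)
  obtain ⟨c3, r3⟩ := step (w := β ^ 3 - 4 * β ^ 2 + β + 3) (d := 0) r2
    (by push_cast; linear_combination (-2 * β ^ 5 + 3 * β ^ 3 - 2 * β ^ 2 - 2 * β + 3) * hβe) (by linarith) (by linarith)
  have q3 : rc (β ^ 6) (z ^ 6) 3 = z ^ 3 - 4 * z ^ 2 + z + 3 :=
    stepc c3 q2 (by push_cast; linear_combination (-2 * z ^ 5 + 3 * z ^ 3 - 2 * z ^ 2 - 2 * z + 3) * hze)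
  have hg : 1445521 / 1000000 ≤ ‖z ^ 6‖ := by
    have hR := h.hR
    push_cast at hR
    rw [norm_pow]
    have := pow_le_pow_left₀ (by norm_num) hR 6
    refine le_trans ?_ this
    norm_num
  have re1 := h.near_re 1
  have im1 := h.near_im 1
  rw [show gp (-24812606) 103398206 1 = (-24812606, 103398206) by decide] at re1 im1
  have re2 := h.near_re 2
  have im2 := h.near_im 2
  rw [show gp (-24812606) 103398206 2 = (-10075523587507200, -5131157893169672) by decide] at re2 im2
  have re3 := h.near_re 3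
  have im3 := h.near_im 3
  rw [show gp (-24812606) 103398206 3 = (780552517877006414171632, -914473664331919329597968) by decide] at re3 im3
  norm_num [abs_le] at re1 im1 re2 im2 re3 im3
  have hN : 39341 / 5000 ≤ ‖rc (β ^ 6) (z ^ 6) 3‖ := by
    rw [q3]
    generalize z ^ 2 = z2 at re2 im2 ⊢
    generalize z ^ 3 = z3 at re3 im3 ⊢
    have hre : (z3 - 4 * z2 + z + 3 : ℂ).re = z3.re - 4 * z2.re + z.re + 3 := by simp
    have him : (z3 - 4 * z2 + z + 3 : ℂ).im = z3.im - 4 * z2.im + z.im := by simp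
    have hA : 1512523 / 200000 ≤ (z3.re - 4 * z2.re + z.re + 3) := by linarith [re1.1, re1.2, re2.1, re2.2, re3.1, re3.2]
    have hC : 2171951 / 1000000 ≤ (z3.im - 4 * z2.im + z.im) := by linarith [im1.1, im1.2, im2.1, im2.2, im3.1, im3.2]
    exact norm_ge hre him (hA.trans (le_abs_self _))
      (hC.trans (le_abs_self _)) (by norm_num) (by norm_num) (by norm_num) (by norm_num)
  have hD : ∀ n, ((⌊β ^ 6 * r (β ^ 6) n⌋ : ℤ) : ℝ) ≤ 3 := by
    intro n
    have U' := pow_le_pow_left₀ (by linarith) hU 6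
    norm_num at U'
    have := digit_le (D := 3) (show 0 < β ^ 6 by positivity) (by push_cast; linarith) n
    exact_mod_cast this
  apply crit_C h.conj (lt_of_lt_of_le (by norm_num) hg) hD (by linarith) (n₀ := 3)
  have := mul_le_mul (sub_le_sub_right hg 1) hN (by norm_num) (by linarith)
  norm_num at this ⊢
  linarith

lemma case_6_4 {β : ℝ} {z : ℂ} (hβ : β ^ 6 = β + 1)
    (h : Data 6 (45105516) 100236457 20 100000000 113472415 109917470 β z) : ¬ Parry (β ^ 4) := by
  have hz := h.root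
  have hβ1 := h.hβ1
  have hU : β ≤ 113472415 / 100000000 := by
    have := h.hB
    push_cast at this
    exact this
  have hL : 113472413 / 100000000 < β := beta_gt (by norm_num) hβ1 hβ (by norm_num) (by norm_num)
  have hβe : β ^ 6 - β - 1 = 0 := by linarith
  have hze : z ^ 6 - z - 1 = 0 := by linear_combination hz
  have L2 := pow_le_pow_left₀ (by norm_num) hL.le 2
  have U2 := pow_le_pow_left₀ (by linarith) hU 2
  have L3 := pow_le_pow_left₀ (by norm_num) hL.le 3
  have U3 := pow_le_pow_left₀ (by linarith) hU 3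
  have L4 := pow_le_pow_left₀ (by norm_num) hL.le 4
  have U4 := pow_le_pow_left₀ (by linarith) hU 4
  have L5 := pow_le_pow_left₀ (by norm_num) hL.le 5
  have U5 := pow_le_pow_left₀ (by linarith) hU 5
  norm_num at hL hU L2 U2 L3 U3 L4 U4 L5 U5
  have r0 : r (β ^ 4) 0 = 1 := rfl
  have q0 : rc (β ^ 4) (z ^ 4) 0 = 1 := rfl
  obtain ⟨c1, r1⟩ := step (w := β ^ 4 - 1) (d := 1) r0
    (by push_cast; linear_combination (0) * hβe) (by linarith) (by linarith)
  have q1 : rc (β ^ 4) (z ^ 4) 1 = z ^ 4 - 1 :=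
    stepc c1 q0 (by push_cast; linear_combination (0) * hze)
  obtain ⟨c2, r2⟩ := step (w := -β ^ 4 + β ^ 3 + β ^ 2 - 1) (d := 1) r1
    (by push_cast; linear_combination (β ^ 2) * hβe) (by linarith) (by linarith)
  have q2 : rc (β ^ 4) (z ^ 4) 2 = -z ^ 4 + z ^ 3 + z ^ 2 - 1 :=
    stepc c2 q1 (by push_cast; linear_combination (z ^ 2) * hze)
  have hg : 145971 / 100000 ≤ ‖z ^ 4‖ := by
    have hR := h.hR
    push_cast at hR
    rw [norm_pow]
    have := pow_le_pow_left₀ (by norm_num) hR 4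
    refine le_trans ?_ this
    norm_num
  have re1 := h.near_re 1
  have im1 := h.near_im 1
  rw [show gp (45105516) 100236457 1 = (45105516, 100236457) by decide] at re1 im1
  have re2 := h.near_re 2
  have im2 := h.near_im 2
  rw [show gp (45105516) 100236457 2 = (-8012839738286593, 9042434229993624) by decide] at re2 im2
  have re3 := h.near_re 3
  have im3 := h.near_im 3
  rw [show gp (45105516) 100236457 3 = (-1267804840890805735497156, -395315004034730245691017) by decide] at re3 im3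
  have re4 := h.near_re 4
  have im4 := h.near_im 4
  rw [show gp (45105516) 100236457 4 = (-17560016132295627576551677105727, -144911152657871680454214149366064) by decide] at re4 im4
  have re5 := h.near_re 5
  have im5 := h.near_im 5
  rw [show gp (45105516) 100236457 5 = (13733326933595671862982384155203848505116, -8296446116752230593539479972143478498263) by decide] at re5 im5
  norm_num [abs_le] at re1 im1 re2 im2 re3 im3 re4 im4 re5 im5
  have hN : 4367 / 1250 ≤ ‖rc (β ^ 4) (z ^ 4) 2‖ := by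
    rw [q2]
    generalize z ^ 2 = z2 at re2 im2 ⊢
    generalize z ^ 3 = z3 at re3 im3 ⊢
    generalize z ^ 4 = z4 at re4 im4 ⊢
    generalize z ^ 5 = z5 at re5 im5 ⊢
    have hre : (-z4 + z3 + z2 - 1 : ℂ).re = -z4.re + z3.re + z2.re - 1 := by simp
    have him : (-z4 + z3 + z2 - 1 : ℂ).im = -z4.im + z3.im + z2.im := by simp
    have hA : 723367 / 250000 ≤ -(-z4.re + z3.re + z2.re - 1) := by linarith [re1.1, re1.2, re2.1, re2.2, re3.1, re3.2, re4.1, re4.2, re5.1, re5.2]
    have hC : 1958019 / 1000000 ≤ (-z4.im + z3.im + z2.im) := by linarith [im1.1, im1.2, im2.1, im2.2, im3.1, im3.2, im4.1, im4.2, im5.1, im5.2]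
    exact norm_ge hre him (hA.trans (neg_le_abs _))
      (hC.trans (le_abs_self _)) (by norm_num) (by norm_num) (by norm_num) (by norm_num)
  have hD : ∀ n, ((⌊β ^ 4 * r (β ^ 4) n⌋ : ℤ) : ℝ) ≤ 1 := by
    intro n
    have U' := pow_le_pow_left₀ (by linarith) hU 4
    norm_num at U'
    have := digit_le (D := 1) (show 0 < β ^ 4 by positivity) (by push_cast; linarith) n
    exact_mod_cast this
  apply crit_C h.conj (lt_of_lt_of_le (by norm_num) hg) hD (by linarith) (n₀ := 2)
  have := mul_le_mul (sub_le_sub_right hg 1) hN (by norm_num) (by linarith)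
  norm_num at this ⊢
  linarith

/-- the cases `4 ≤ d ≤ 10` -/
theorem small {d : ℕ} (h1 : 4 ≤ d) (h2 : d ≤ 10) {β : ℝ} (hβ1 : 1 < β) (hβ : β ^ d = β + 1)
    {k : ℕ} (hk : 1 ≤ k) : ¬ Parry (β ^ k) := by
  interval_cases d
  · obtain ⟨z, h⟩ := chk0_sound (a := -24812606) (b := 103398206) (E := 20) (S := 100000000) (B := 122074410) (R := 106333672)
      (U := 106333714) (by norm_num) (by decide +kernel) hβ1 hβ
    rcases Nat.lt_or_ge k 8 with hlt | hge
    · interval_cases k
      · exact h.critB (q := 8) (M := 162078280) (by decide +kernel)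
      · exact case_4_2 hβ h
      · exact case_4_3 hβ h
      · exact case_4_4 hβ h
      · exact case_4_5 hβ h
      · exact case_4_6 hβ h
      · exact h.critA (M₂ := 54576366) (M₃ := 207846134) (by decide +kernel)
    · exact h.golden (K := 8) (by decide +kernel) hge
  · obtain ⟨z, h⟩ := chk0_sound (a := 18123244) (b := 108395410) (E := 20) (S := 100000000) (B := 116730399) (R := 109900010)
      (U := 109900052) (by norm_num) (by decide +kernel) hβ1 hβ
    rcases Nat.lt_or_ge k 6 with hlt | hge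
    · interval_cases k
      · exact h.critB (q := 12) (M := 135843154) (by decide +kernel)
      · exact h.critB (q := 4) (M := 217784389) (by decide +kernel)
      · exact h.critB (q := 2) (M := 200690044) (by decide +kernel)
      · exact h.critA (M₂ := 90992423) (M₃ := 221629218) (by decide +kernel)
      · exact h.critA (M₂ := 109901633) (M₃ := 256046335) (by decide +kernel)
    · exact h.golden (K := 6) (by decide +kernel) hge
  · obtain ⟨z, h⟩ := chk0_sound (a := 45105516) (b := 100236457) (E := 20) (S := 100000000) (B := 113472415) (R := 109917470)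
      (U := 109917512) (by norm_num) (by decide +kernel) hβ1 hβ
    rcases Nat.lt_or_ge k 6 with hlt | hge
    · interval_cases k
      · exact h.critB (q := 16) (M := 114283625) (by decide +kernel)
      · exact h.critB (q := 5) (M := 201550909) (by decide +kernel)
      · exact h.critB (q := 3) (M := 230199950) (by decide +kernel)
      · exact case_6_4 hβ h
      · exact h.critA (M₂ := 90978932) (M₃ := 240913397) (by decide +kernel)
    · exact h.golden (K := 6) (by decide +kernel) hge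
  · obtain ⟨z, h⟩ := chk0_sound (a := 61709348) (b := 90086495) (E := 20) (S := 100000000) (B := 111277570) (R := 109195309)
      (U := 109195351) (by norm_num) (by decide +kernel) hβ1 hβ
    rcases Nat.lt_or_ge k 6 with hlt | hge
    · interval_cases k
      · exact h.critB (q := 21) (M := 97886396) (by decide +kernel)
      · exact h.critB (q := 7) (M := 181196878) (by decide +kernel)
      · exact h.critB (q := 4) (M := 228693252) (by decide +kernel)
      · exact h.critB (q := 2) (M := 226330289) (by decide +kernel)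
      · exact h.critA (M₂ := 172657662) (M₃ := 312763251) (by decide +kernel)
    · exact h.golden (K := 6) (by decide +kernel) hge
  · obtain ⟨z, h⟩ := chk0_sound (a := 72323656) (b := 80711168) (E := 20) (S := 100000000) (B := 109698157) (R := 108374348)
      (U := 108374390) (by norm_num) (by decide +kernel) hβ1 hβ
    rcases Nat.lt_or_ge k 6 with hlt | hge
    · interval_cases k
      · exact h.critB (q := 26) (M := 85324493) (by decide +kernel)
      · exact h.critB (q := 9) (M := 162362706) (by decide +kernel)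
      · exact h.critB (q := 5) (M := 216572665) (by decide +kernel)
      · exact h.critB (q := 3) (M := 236555580) (by decide +kernel)
      · exact h.critB (q := 2) (M := 216766028) (by decide +kernel)
    · exact h.golden (K := 6) (by decide +kernel) hge
  · obtain ⟨z, h⟩ := chk0_sound (a := 79405625) (b := 72631756) (E := 20) (S := 100000000) (B := 108507026) (R := 107613292)
      (U := 107613334) (by norm_num) (by decide +kernel) hβ1 hβ
    rcases Nat.lt_or_ge k 7 with hlt | hge
    · interval_cases k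
      · exact h.critB (q := 31) (M := 75495014) (by decide +kernel)
      · exact h.critB (q := 11) (M := 146120847) (by decide +kernel)
      · exact h.critB (q := 6) (M := 201620888) (by decide +kernel)
      · exact h.critB (q := 3) (M := 233202367) (by decide +kernel)
      · exact h.critB (q := 2) (M := 235033115) (by decide +kernel)
      · exact h.critB (q := 1) (M := 205715698) (by decide +kernel)
    · exact h.golden (K := 7) (by decide +kernel) hge
  · obtain ⟨z, h⟩ := chk0_sound (a := 84314665) (b := 65789405) (E := 20) (S := 100000000) (B := 107576608) (R := 106944864)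
      (U := 106944906) (by norm_num) (by decide +kernel) hβ1 hβ
    rcases Nat.lt_or_ge k 8 with hlt | hge
    · interval_cases k
      · exact h.critB (q := 36) (M := 67633370) (by decide +kernel)
      · exact h.critB (q := 13) (M := 132361319) (by decide +kernel)
      · exact h.critB (q := 7) (M := 186732890) (by decide +kernel)
      · exact h.critB (q := 4) (M := 224008692) (by decide +kernel)
      · exact h.critB (q := 3) (M := 239036483) (by decide +kernel)
      · exact h.critB (q := 2) (M := 229098026) (by decide +kernel)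
      · exact h.critB (q := 1) (M := 194853094) (by decide +kernel)
    · exact h.golden (K := 8) (by decide +kernel) hge

/-- **Main theorem.** -/
theorem main {d : ℕ} (hd : 4 ≤ d) {β : ℝ} (hβ1 : 1 < β) (hβ : β ^ d = β + 1)
    {k : ℕ} (hk : 1 ≤ k) : ¬ Parry (β ^ k) := by
  rcases Nat.lt_or_ge d 11 with h | h
  · exact small hd (by omega) hβ1 hβ hk
  rcases Nat.lt_or_ge d 40 with h' | h'
  · exact mid h (by omega) hβ1 hβ hk
  · exact large h' hβ1 hβ hk

end Pool.Agent.R341.Powers
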