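import Mathlib

set_option autoImplicit false

open Polynomial

namespace Pool.Agent.R341.QL

/-- shift by `i` -/
def sh (i : ℕ) : (ℕ → ℤ) →ₗ[ℤ] (ℕ → ℤ) := LinearMap.funLeft ℤ ℤ (fun t => t + i)

@[simp] lemma sh_apply (i : ℕ) (b : ℕ → ℤ) (t : ℕ) : sh i b t = b (t + i) := rfl

/-- difference with step `T` -/
def dl (T : ℕ) : Module.End ℤ (ℕ → ℤ) := sh T - LinearMap.id

@[simp] lemma dl_apply (T : ℕ) (b : ℕ → ℤ) (t : ℕ) : dl T b t = b (t + T) - b t := rfl

/-- the operator `E^i (E^T - 1)` -/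
def pp (i T : ℕ) : Module.End ℤ (ℕ → ℤ) := sh (i + T) - sh i

@[simp] lemma pp_apply (i T : ℕ) (b : ℕ → ℤ) (t : ℕ) :
    pp i T b t = b (t + (i + T)) - b (t + i) := rfl

lemma sh_mem {N : Submodule ℤ (ℕ → ℤ)} (hs : ∀ b ∈ N, sh 1 b ∈ N) (i : ℕ) :
    ∀ b ∈ N, sh i b ∈ N := by
  induction i with
  | zero => intro b hb; exact hb
  | succ i ih =>
    intro b hb
    have : sh (i + 1) b = sh i (sh 1 b) := by
      funext t
      simp only [sh_apply]
      congr 1
    rw [this]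
    exact ih _ (hs b hb)

lemma dl_mem {N : Submodule ℤ (ℕ → ℤ)} (hs : ∀ b ∈ N, sh 1 b ∈ N) (T : ℕ) :
    ∀ b ∈ N, dl T b ∈ N := fun b hb => N.sub_mem (sh_mem hs T b hb) hb

lemma dl_pow_mem {N : Submodule ℤ (ℕ → ℤ)} (hs : ∀ b ∈ N, sh 1 b ∈ N) (T r : ℕ) :
    ∀ b ∈ N, (dl T ^ r) b ∈ N := by
  induction r with
  | zero => intro b hb; exact hb
  | succ r ih =>
    intro b hb
    rw [pow_succ, Module.End.mul_apply]
    exact ih _ (dl_mem hs T b hb)

lemma pp_mem {N : Submodule ℤ (ℕ → ℤ)} (hs : ∀ b ∈ N, sh 1 b ∈ N) (i T : ℕ) :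
    ∀ b ∈ N, pp i T b ∈ N := fun b hb => N.sub_mem (sh_mem hs _ b hb) (sh_mem hs _ b hb)

lemma pp_pow_mem {N : Submodule ℤ (ℕ → ℤ)} (hs : ∀ b ∈ N, sh 1 b ∈ N) (i T r : ℕ) :
    ∀ b ∈ N, (pp i T ^ r) b ∈ N := by
  induction r with
  | zero => intro b hb; exact hb
  | succ r ih =>
    intro b hb
    rw [pow_succ, Module.End.mul_apply]
    exact ih _ (pp_mem hs i T b hb)

/-- pigeonhole modulo three -/
lemma exists_mod_three {N : Submodule ℤ (ℕ → ℤ)} (hfg : N.FG) (hs : ∀ b ∈ N, sh 1 b ∈ N) :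
    ∃ i T : ℕ, 1 ≤ T ∧ ∀ b ∈ N, ∃ b' ∈ N, pp i T b = (3 : ℤ) • b' := by
  classical
  obtain ⟨S, hS⟩ := hfg
  have hco : ∀ (j : ℕ) (g : S), ∃ c : (ℕ → ℤ) → ℤ, ∑ h ∈ S, c h • h = sh j g.1 := by
    intro j g
    have h1 : sh j g.1 ∈ Submodule.span ℤ (S : Set (ℕ → ℤ)) := by
      rw [hS]
      apply sh_mem hs
      rw [← hS]
      exact Submodule.subset_span g.2
    obtain ⟨c, -, hc⟩ := Submodule.mem_span_finset.1 h1
    exact ⟨c, hc⟩
  choose c hc using hco
  let φ : ℕ → (S → S → ZMod 3) := fun j g h => (c j g h.1 : ZMod 3)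
  obtain ⟨x, y, hxy, hφ⟩ := Finite.exists_ne_map_eq_of_infinite φ
  -- w.l.o.g. x < y
  obtain ⟨i, j, hij, hφ'⟩ : ∃ i j : ℕ, i < j ∧ φ i = φ j := by
    rcases lt_or_gt_of_ne hxy with h | h
    · exact ⟨x, y, h, hφ⟩
    · exact ⟨y, x, h, hφ.symm⟩
  refine ⟨i, j - i, by omega, ?_⟩
  have hgen : ∀ g ∈ (S : Set (ℕ → ℤ)), ∃ b' ∈ N, pp i (j - i) g = (3 : ℤ) • b' := by
    intro g hg
    have hdvd : ∀ h ∈ S, ∃ m : ℤ, c j ⟨g, hg⟩ h - c i ⟨g, hg⟩ h = 3 * m := by
      intro h hh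
      have h1 := congrFun (congrFun hφ' ⟨g, hg⟩) ⟨h, hh⟩
      have h2 : ((c j ⟨g, hg⟩ h - c i ⟨g, hg⟩ h : ℤ) : ZMod 3) = 0 := by
        push_cast
        rw [sub_eq_zero]
        exact h1.symm
      rw [ZMod.intCast_zmod_eq_zero_iff_dvd] at h2
      exact h2
    have hdvd' : ∀ h : ℕ → ℤ, ∃ m : ℤ, h ∈ S → c j ⟨g, hg⟩ h - c i ⟨g, hg⟩ h = 3 * m := by
      intro h
      by_cases hh : h ∈ S
      · obtain ⟨m, hm⟩ := hdvd h hh
        exact ⟨m, fun _ => hm⟩
      · exact ⟨0, fun h' => absurd h' hh⟩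
    choose m hm using hdvd'
    refine ⟨∑ h ∈ S, m h • h, ?_, ?_⟩
    · apply Submodule.sum_mem
      intro h hh
      apply Submodule.smul_mem
      rw [← hS]
      exact Submodule.subset_span hh
    · have h1 : pp i (j - i) g = sh j g - sh i g := by
        rw [pp, LinearMap.sub_apply, Nat.add_sub_cancel' hij.le]
      rw [h1, ← hc j ⟨g, hg⟩, ← hc i ⟨g, hg⟩, ← Finset.sum_sub_distrib, Finset.smul_sum]
      apply Finset.sum_congr rfl
      intro h hh
      rw [← sub_smul, hm h hh, mul_smul]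
  intro b hb
  rw [← hS] at hb
  induction hb using Submodule.span_induction with
  | mem x hx => exact hgen x hx
  | zero => exact ⟨0, N.zero_mem, by simp⟩
  | add x y _ _ hx hy =>
    obtain ⟨x', hx', hx''⟩ := hx
    obtain ⟨y', hy', hy''⟩ := hy
    exact ⟨x' + y', N.add_mem hx' hy', by rw [map_add, hx'', hy'', smul_add]⟩
  | smul a x _ hx =>
    obtain ⟨x', hx', hx''⟩ := hx
    exact ⟨a • x', N.smul_mem a hx', by rw [map_smul, hx'', smul_comm]⟩

lemma pp_pow_three {N : Submodule ℤ (ℕ → ℤ)} {i T : ℕ}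
    (h : ∀ b ∈ N, ∃ b' ∈ N, pp i T b = (3 : ℤ) • b') (r : ℕ) :
    ∀ b ∈ N, ∃ b' ∈ N, (pp i T ^ r) b = (3 ^ r : ℤ) • b' := by
  induction r with
  | zero => intro b hb; exact ⟨b, hb, by simp⟩
  | succ r ih =>
    intro b hb
    obtain ⟨b', hb', e1⟩ := h b hb
    obtain ⟨b'', hb'', e2⟩ := ih b' hb'
    refine ⟨b'', hb'', ?_⟩
    rw [pow_succ, Module.End.mul_apply, e1, map_smul, e2, smul_smul]
    congr 1
    ring

lemma pp_pow_bound (i T r : ℕ) : ∀ (b : ℕ → ℤ) (C u : ℤ), 0 ≤ C → (∀ t : ℕ, |b t| ≤ C * (t + u)) →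
    ∀ t : ℕ, |(pp i T ^ r) b t| ≤ 2 ^ r * C * (t + u + r * (i + T)) := by
  induction r with
  | zero => intro b C u _ h t; simpa using h t
  | succ r ih =>
    intro b C u hC h t
    rw [pow_succ, Module.End.mul_apply]
    have h1 := ih (pp i T b) (2 * C) (u + (i + T)) (by linarith) (by
      intro t
      rw [pp_apply]
      have h2 := h (t + (i + T))
      have h3 := h (t + i)
      have h4 := abs_sub (b (t + (i + T))) (b (t + i))
      push_cast at h2 h3
      have h5 : C * (t + i + u) ≤ C * (t + (i + T) + u) := by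
        apply mul_le_mul_of_nonneg_left _ hC
        have : (0 : ℤ) ≤ T := by positivity
        linarith
      linarith) t
    refine h1.trans (le_of_eq ?_)
    push_cast
    ring

/-- Cayley-Hamilton recurrence -/
lemma exists_recurrence {N : Submodule ℤ (ℕ → ℤ)} (hfg : N.FG) (hs : ∀ b ∈ N, sh 1 b ∈ N) :
    ∃ D : ℕ, ∀ b ∈ N, (∀ t < D, b t = 0) → ∀ t, b t = 0 := by
  haveI : Module.Finite ℤ N := Module.Finite.iff_fg.2 hfg
  let E : Module.End ℤ N := (sh 1).restrict hs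
  obtain ⟨p, hp, hE⟩ := LinearMap.exists_monic_and_aeval_eq_zero ℤ E
  have hEpow : ∀ (i : ℕ) (b : N), ((E ^ i) b : ℕ → ℤ) = sh i b.1 := by
    intro i
    induction i with
    | zero => intro b; rfl
    | succ i ih =>
      intro b
      rw [pow_succ, Module.End.mul_apply, ih]
      funext t
      simp only [sh_apply, E, LinearMap.restrict_apply]
      rfl
  refine ⟨p.natDegree, fun b hb h0 t => ?_⟩
  induction t using Nat.strong_induction_on with
  | _ t ih =>
    rcases Nat.lt_or_ge t p.natDegree with h | h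
    · exact h0 t h
    · obtain ⟨u, rfl⟩ : ∃ u, t = u + p.natDegree := ⟨t - p.natDegree, by omega⟩
      have h1 := congrArg (fun f : Module.End ℤ N => ((f ⟨b, hb⟩ : N) : ℕ → ℤ) u) hE
      simp only [aeval_eq_sum_range, LinearMap.sum_apply, LinearMap.smul_apply,
        LinearMap.zero_apply] at h1
      rw [Finset.sum_range_succ] at h1
      simp only [Submodule.coe_add, Submodule.coe_sum, Submodule.coe_smul, hEpow, Pi.add_apply,
        Finset.sum_apply, Pi.smul_apply, sh_apply, ZeroMemClass.coe_zero, Pi.zero_apply] at h1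
      rw [Finset.sum_eq_zero, zero_add, hp.coeff_natDegree, one_smul] at h1
      · exact h1
      · intro i hi
        rw [Finset.mem_range] at hi
        rw [ih (u + i) (by omega), smul_zero]


lemma exists_r (A B : ℕ) : ∃ r : ℕ, 2 ≤ r ∧ 2 ^ r * (A + B * r) < 3 ^ r := by
  have h1 : Filter.Tendsto (fun n : ℕ => (n : ℝ) * (2 / 3 : ℝ) ^ n) Filter.atTop (nhds 0) :=
    tendsto_self_mul_const_pow_of_lt_one (by norm_num) (by norm_num)
  have h2 : Filter.Tendsto (fun n : ℕ => (2 / 3 : ℝ) ^ n) Filter.atTop (nhds 0) :=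
    tendsto_pow_atTop_nhds_zero_of_lt_one (by norm_num) (by norm_num)
  have h3 : Filter.Tendsto (fun n : ℕ => (A : ℝ) * (2 / 3 : ℝ) ^ n + B * (n * (2 / 3 : ℝ) ^ n))
      Filter.atTop (nhds (A * 0 + B * 0)) := (h2.const_mul _).add (h1.const_mul _)
  have h4 : ∀ᶠ n : ℕ in Filter.atTop, (A : ℝ) * (2 / 3 : ℝ) ^ n + B * (n * (2 / 3 : ℝ) ^ n) < 1 := by
    apply h3.eventually_lt_const
    norm_num
  obtain ⟨r, hr1, hr2⟩ := (h4.and (Filter.eventually_ge_atTop 2)).exists
  refine ⟨r, hr2, ?_⟩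
  have h5 : (2 : ℝ) ^ r * (A + B * r) < 3 ^ r := by
    have h6 : (2 / 3 : ℝ) ^ r * 3 ^ r = 2 ^ r := by rw [← mul_pow]; norm_num
    have h7 : (0 : ℝ) < 3 ^ r := by positivity
    calc (2 : ℝ) ^ r * (A + B * r)
        = ((A : ℝ) * (2 / 3 : ℝ) ^ r + B * (r * (2 / 3 : ℝ) ^ r)) * 3 ^ r := by rw [← h6]; ring
      _ < 1 * 3 ^ r := mul_lt_mul_of_pos_right hr1 h7
      _ = 3 ^ r := one_mul _
  exact_mod_cast h5

lemma dl_pow_sh (T i r : ℕ) : ∀ (b : ℕ → ℤ) (t : ℕ), (dl T ^ r) (sh i b) t = (dl T ^ r) b (t + i) := by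
  induction r with
  | zero => intro b t; rfl
  | succ r ih =>
    intro b t
    have h1 : dl T (sh i b) = sh i (dl T b) := by
      funext u
      simp only [dl_apply, sh_apply]
      congr 2
      ring
    rw [pow_succ, Module.End.mul_apply, Module.End.mul_apply, ← ih, h1]

lemma pp_pow_eq (i T r : ℕ) : ∀ (b : ℕ → ℤ) (t : ℕ), (pp i T ^ r) b t = (dl T ^ r) b (t + i * r) := by
  induction r with
  | zero => intro b t; rfl
  | succ r ih =>
    intro b t
    have h1 : pp i T b = sh i (dl T b) := by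
      funext u
      simp only [pp_apply, dl_apply, sh_apply]
      congr 2
      ring
    rw [pow_succ, Module.End.mul_apply, ih, h1, dl_pow_sh, pow_succ, Module.End.mul_apply,
      show t + i * (r + 1) = t + i * r + i by ring]

/-- a quasi-quadratic sequence with linear growth is quasi-linear -/
lemma descend_aux {w : ℕ → ℤ} {c : ℤ} (h : ∀ y, w (y + 2) - 2 * w (y + 1) + w y = c)
    {A B : ℕ} (hlin : ∀ y : ℕ, |w y| ≤ A + B * y) : c = 0 := by
  have h1 : ∀ y : ℕ, 2 * w y = 2 * w 0 + 2 * y * (w 1 - w 0) + y * (y - 1) * c ∧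
      2 * w (y + 1) = 2 * w 0 + 2 * (y + 1) * (w 1 - w 0) + (y + 1) * y * c := by
    intro y
    induction y with
    | zero => constructor <;> push_cast <;> ring
    | succ y ih =>
      refine ⟨?_, ?_⟩
      · rw [ih.2]; push_cast; ring
      · have := h y
        have h2 : 2 * w (y + 1 + 1) = 2 * c + 2 * (2 * w (y + 1)) - 2 * w y := by
          rw [show y + 1 + 1 = y + 2 by ring]; linarith
        rw [h2, ih.1, ih.2]
        push_cast
        ring
  by_contra hc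
  have hc1 : 1 ≤ |c| := Int.one_le_abs hc
  obtain ⟨A', hA'⟩ : ∃ A' : ℕ, (A' : ℤ) = 2 * A + 2 * |w 0| := by
    refine ⟨(2 * A + 2 * |w 0|).toNat, Int.toNat_of_nonneg (by positivity)⟩
  obtain ⟨B', hB'⟩ : ∃ B' : ℕ, (B' : ℤ) = 2 * B + 2 * |w 1 - w 0| := by
    refine ⟨(2 * B + 2 * |w 1 - w 0|).toNat, Int.toNat_of_nonneg (by positivity)⟩
  obtain ⟨y, hy⟩ : ∃ y : ℕ, y = A' + B' + 2 := ⟨_, rfl⟩
  have h2 := (h1 y).1
  have h3 := hlin y
  have hy1 : (1 : ℤ) ≤ y := by rw [hy]; push_cast; linarith [Int.natCast_nonneg A', Int.natCast_nonneg B']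
  have h4 : |(y : ℤ) * (y - 1) * c| ≤ A' + B' * y := by
    have h5 : (y : ℤ) * (y - 1) * c = 2 * w y + (-(2 * w 0) + -(2 * y * (w 1 - w 0))) := by linarith
    rw [h5]
    refine (abs_add_le _ _).trans ?_
    have h6 := abs_add_le (-(2 * w 0)) (-(2 * (y : ℤ) * (w 1 - w 0)))
    rw [abs_neg, abs_neg, abs_mul 2 (w 0), abs_mul (2 * (y : ℤ)), abs_mul 2 (y : ℤ), Nat.abs_cast] at h6
    rw [abs_mul 2 (w y)]
    have h7 : |(2 : ℤ)| = 2 := rfl
    rw [h7] at h6 ⊢
    rw [hA', hB']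
    nlinarith
  rw [abs_mul, abs_of_nonneg (by nlinarith : (0 : ℤ) ≤ (y : ℤ) * (y - 1))] at h4
  have h8 : (y : ℤ) * (y - 1) ≤ A' + B' * y := by
    have h10 : (0 : ℤ) ≤ (y : ℤ) * (y - 1) := by nlinarith
    have h11 : (y : ℤ) * (y - 1) * 1 ≤ (y : ℤ) * (y - 1) * |c| := mul_le_mul_of_nonneg_left hc1 h10
    linarith
  have h9 : (y : ℤ) - 1 = A' + B' + 1 := by rw [hy]; push_cast; ring
  rw [h9] at h8
  nlinarith [Int.natCast_nonneg A', Int.natCast_nonneg B']

/-- a shift-closed, finitely generated module of integer sequences with linear growth consists of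
ultimately quasi-linear sequences -/
theorem second_diff {N : Submodule ℤ (ℕ → ℤ)} (hfg : N.FG) (hs : ∀ b ∈ N, sh 1 b ∈ N)
    (hlin : ∀ b ∈ N, ∃ C : ℕ, ∀ t : ℕ, |b t| ≤ C * (t + 1)) :
    ∃ T K : ℕ, 1 ≤ T ∧ ∀ b ∈ N, ∀ t, K ≤ t → b (t + 2 * T) - 2 * b (t + T) + b t = 0 := by
  classical
  obtain ⟨i, T, hT, h3⟩ := exists_mod_three hfg hs
  obtain ⟨D, hD⟩ := exists_recurrence hfg hs
  have hfg' := hfg
  obtain ⟨S, hS⟩ := hfg
  -- common constant
  have hlin' : ∀ b : ℕ → ℤ, ∃ C : ℕ, b ∈ N → ∀ t : ℕ, |b t| ≤ C * (t + 1) := by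
    intro b
    by_cases hb : b ∈ N
    · obtain ⟨C, hC⟩ := hlin b hb
      exact ⟨C, fun _ => hC⟩
    · exact ⟨0, fun h => absurd h hb⟩
  choose Cf hCf using hlin'
  obtain ⟨C, hCdef⟩ : ∃ C : ℕ, C = ∑ g ∈ S, Cf g := ⟨_, rfl⟩
  have hC : ∀ g ∈ S, ∀ t : ℕ, |g t| ≤ C * (t + 1) := by
    intro g hg t
    have hgN : g ∈ N := by rw [← hS]; exact Submodule.subset_span hg
    have h4 : Cf g ≤ C := by
      rw [hCdef]; exact Finset.single_le_sum (fun _ _ => Nat.zero_le _) hg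
    calc |g t| ≤ Cf g * (t + 1) := hCf g hgN t
      _ ≤ C * (t + 1) := by
        apply mul_le_mul_of_nonneg_right _ (by positivity)
        exact_mod_cast h4
  obtain ⟨r, hr2, hr⟩ := exists_r (C * (D + 1)) (C * (i + T))
  have hr' : (2 : ℤ) ^ r * (C * (D + 1) + C * (i + T) * r) < 3 ^ r := by exact_mod_cast hr
  -- the operator `pp ^ r` kills the generators
  have hzero : ∀ g ∈ S, (pp i T ^ r) g = 0 := by
    intro g hg
    have hgN : g ∈ N := by rw [← hS]; exact Submodule.subset_span hg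
    funext t
    apply hD _ (pp_pow_mem hs i T r g hgN)
    intro t ht
    obtain ⟨b', -, hb'⟩ := pp_pow_three h3 r g hgN
    have h5 := pp_pow_bound i T r g C 1 (by positivity) (by
      intro t; exact hC g hg t) t
    have h6 : |(pp i T ^ r) g t| < 3 ^ r := by
      refine lt_of_le_of_lt h5 (lt_of_le_of_lt ?_ hr')
      have h7 : (t : ℤ) ≤ D := by exact_mod_cast ht.le
      have h8 : (0 : ℤ) ≤ 2 ^ r * C := by positivity
      calc (2 : ℤ) ^ r * C * (t + 1 + r * (i + T)) ≤ 2 ^ r * C * (D + 1 + r * (i + T)) := by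
            apply mul_le_mul_of_nonneg_left _ h8
            linarith
        _ = 2 ^ r * (C * (D + 1) + C * (i + T) * r) := by ring
    rw [hb'] at h6 ⊢
    simp only [Pi.smul_apply, smul_eq_mul] at h6 ⊢
    rw [abs_mul, abs_of_pos (by positivity : (0 : ℤ) < 3 ^ r)] at h6
    have h9 : |b' t| < 1 := by
      by_contra h10
      push Not at h10
      have : (3 : ℤ) ^ r * 1 ≤ 3 ^ r * |b' t| := mul_le_mul_of_nonneg_left h10 (by positivity)
      linarith
    rw [Int.abs_lt_one_iff] at h9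
    rw [h9, mul_zero]
  have hzeroN : ∀ b ∈ N, (pp i T ^ r) b = 0 := by
    intro b hb
    rw [← hS] at hb
    induction hb using Submodule.span_induction with
    | mem x hx => exact hzero x hx
    | zero => simp
    | add x y _ _ hx hy => rw [map_add, hx, hy, add_zero]
    | smul a x _ hx => rw [map_smul, hx, smul_zero]
  refine ⟨T, i * r, hT, ?_⟩
  have hdl : ∀ b ∈ N, ∀ t, i * r ≤ t → (dl T ^ r) b t = 0 := by
    intro b hb t ht
    obtain ⟨u, rfl⟩ : ∃ u, t = u + i * r := ⟨t - i * r, by omega⟩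
    rw [← pp_pow_eq, hzeroN b hb]
    rfl
  -- descent
  have hdesc : ∀ m : ℕ, (∀ b ∈ N, ∀ t, i * r ≤ t → (dl T ^ (m + 2)) b t = 0) →
      ∀ b ∈ N, ∀ t, i * r ≤ t → (dl T ^ 2) b t = 0 := by
    intro m
    induction m with
    | zero => intro h; exact h
    | succ m ih =>
      intro h
      apply ih
      intro b hb t ht
      -- u = dl^m b
      have hu : (dl T ^ m) b ∈ N := dl_pow_mem hs T m b hb
      obtain ⟨u, hudef⟩ : ∃ u, u = (dl T ^ m) b := ⟨_, rfl⟩
      rw [← hudef] at hu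
      have e1 : (dl T ^ (m + 2)) b = (dl T ^ 2) u := by
        rw [hudef, ← Module.End.mul_apply, ← pow_add, add_comm 2 m]
      have e2 : (dl T ^ (m + 1 + 2)) b = dl T ((dl T ^ 2) u) := by
        rw [hudef, ← Module.End.mul_apply, ← Module.End.mul_apply, ← pow_succ', ← pow_add]
        congr 2
        ring
      have e3 : ∀ t, (dl T ^ 2) u t = u (t + 2 * T) - 2 * u (t + T) + u t := by
        intro t
        rw [pow_two, Module.End.mul_apply, dl_apply, dl_apply, dl_apply, two_mul T, ← add_assoc]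
        ring
      rw [e1]
      have hper : ∀ y : ℕ, (dl T ^ 2) u (t + y * T) = (dl T ^ 2) u t := by
        intro y
        induction y with
        | zero => simp
        | succ y ihy =>
          have h5 := h b hb (t + y * T) (by omega)
          rw [e2, dl_apply] at h5
          rw [show t + (y + 1) * T = t + y * T + T by ring, ← ihy]
          linarith
      obtain ⟨Cu, hCu⟩ := hlin u hu
      apply descend_aux (w := fun y => u (t + y * T)) (A := Cu * (t + 1)) (B := Cu * T)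
      · intro y
        have h6 := hper y
        rw [e3 (t + y * T)] at h6
        rw [← h6]
        have e4 : t + (y + 2) * T = t + y * T + 2 * T := by ring
        have e5 : t + (y + 1) * T = t + y * T + T := by ring
        simp only [e4, e5]
      · intro y
        refine (hCu (t + y * T)).trans (le_of_eq ?_)
        push_cast
        ring
  intro b hb t ht
  have h6 := hdesc (r - 2) (by rw [show r - 2 + 2 = r by omega]; exact hdl) b hb t ht
  rw [pow_two, Module.End.mul_apply, dl_apply, dl_apply, dl_apply] at h6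
  rw [two_mul T, ← add_assoc]
  linarith

end Pool.Agent.R341.QL
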