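import Pool.Agent.R341.Clog2
import Pool.Agent.R341.QL

set_option autoImplicit false

namespace Pool.Agent.R341.Reg

open Pool.Agent.R341.Clog Pool.Agent.R341.QL

/-- `k`-regularity of an integer sequence `a(0), a(1), …`: the `ℤ`-module generated by the
`k`-kernel is finitely generated. -/
def IsRegular (k : ℕ) (a : ℕ → ℤ) : Prop :=
  (Submodule.span ℤ
    {f : ℕ → ℤ | ∃ e r : ℕ, r < k ^ e ∧ f = fun n => a (k ^ e * n + r)}).FG

lemma L_pow_mul (j n : ℕ) (hn : 1 ≤ n) : L (2 ^ j * n) = L n := len_pow_mul j le_rfl hn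

lemma L_pow (j : ℕ) : L (2 ^ j) = 1 := by
  have := len_pow j (q := 1) le_rfl
  simpa [len, L] using this

/-- Part A: `k` is not a power of two -/
theorem not_regular_A {α m : ℕ} (hm : 3 ≤ m) (hodd : Odd m) :
    ¬ IsRegular (2 ^ α * m) (fun n => (L n : ℤ)) := by
  classical
  rintro ⟨G, hG⟩
  obtain ⟨N', hN'⟩ : ∃ N', N' = Fintype.card (G → ZMod 2) := ⟨_, rfl⟩
  obtain ⟨e, he⟩ : ∃ e, e = N' + 1 := ⟨_, rfl⟩
  have hme : 2 ^ N' < m ^ e := by
    calc 2 ^ N' < 2 ^ e := Nat.pow_lt_pow_right (by norm_num) (by omega)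
      _ ≤ m ^ e := Nat.pow_le_pow_left (by omega) e
  obtain ⟨W, hW⟩ : ∃ W, W = Nat.totient (m ^ e) * (N' + 3) := ⟨_, rfl⟩
  have htot : 0 < Nat.totient (m ^ e) := Nat.totient_pos.2 (by positivity)
  have hWN : N' + 3 ≤ W := by rw [hW]; exact Nat.le_mul_of_pos_left _ htot
  have hcop : Nat.Coprime 2 (m ^ e) := by
    apply Nat.Coprime.pow_right
    exact (Nat.coprime_two_left).2 hodd
  have hmod : 2 ^ W ≡ 1 [MOD m ^ e] := by
    rw [hW, pow_mul]
    simpa using (Nat.ModEq.pow_totient hcop).pow (N' + 3)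
  have hdvd : m ^ e ∣ 2 ^ W - 1 := (Nat.modEq_iff_dvd' Nat.one_le_two_pow).1 hmod.symm
  obtain ⟨R, hR⟩ := hdvd
  -- pigeonhole
  obtain ⟨x, y, hxy, hφ⟩ := Fintype.exists_ne_map_eq_of_card_lt
    (fun (j : Fin (N' + 1)) => (fun g : G => ((g.1 (2 ^ j.1 * R) : ℤ) : ZMod 2)))
    (by rw [← hN', Fintype.card_fin]; omega)
  obtain ⟨i, j, hij, hjN, hφ'⟩ : ∃ i j : ℕ, i < j ∧ j ≤ N' ∧
      ∀ g ∈ G, ((g (2 ^ i * R) : ℤ) : ZMod 2) = ((g (2 ^ j * R) : ℤ) : ZMod 2) := by
    have hne : x.1 ≠ y.1 := fun h => hxy (Fin.ext h)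
    rcases lt_or_gt_of_ne hne with h | h
    · exact ⟨x.1, y.1, h, by omega, fun g hg => congrFun hφ ⟨g, hg⟩⟩
    · exact ⟨y.1, x.1, h, by omega, fun g hg => (congrFun hφ ⟨g, hg⟩).symm⟩
  have hall : ∀ f ∈ Submodule.span ℤ (G : Set (ℕ → ℤ)),
      ((f (2 ^ i * R) : ℤ) : ZMod 2) = ((f (2 ^ j * R) : ℤ) : ZMod 2) := by
    intro f hf
    induction hf using Submodule.span_induction with
    | mem x hx => exact hφ' x hx
    | zero => simp
    | add x y _ _ hx hy => simp only [Pi.add_apply, Int.cast_add, hx, hy]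
    | smul a x _ hx => simp only [Pi.smul_apply, smul_eq_mul, Int.cast_mul, hx]
  have hke : (2 ^ α * m) ^ e = 2 ^ (α * e) * m ^ e := by rw [mul_pow, ← pow_mul]
  have hρ : 2 ^ (α * e + j) < (2 ^ α * m) ^ e := by
    rw [hke, pow_add]
    apply Nat.mul_lt_mul_of_pos_left _ (by positivity)
    exact lt_of_le_of_lt (Nat.pow_le_pow_right (by norm_num) hjN) hme
  have hf := hall (fun n => (L ((2 ^ α * m) ^ e * n + 2 ^ (α * e + j)) : ℤ)) (by
    rw [hG]
    exact Submodule.subset_span ⟨e, _, hρ, rfl⟩)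
  have h2W : 1 ≤ 2 ^ W := Nat.one_le_two_pow
  have v1 : L ((2 ^ α * m) ^ e * (2 ^ j * R) + 2 ^ (α * e + j)) = 1 := by
    have : (2 ^ α * m) ^ e * (2 ^ j * R) + 2 ^ (α * e + j) = 2 ^ (α * e + j + W) := by
      rw [hke]
      calc 2 ^ (α * e) * m ^ e * (2 ^ j * R) + 2 ^ (α * e + j)
          = 2 ^ (α * e + j) * (m ^ e * R + 1) := by rw [pow_add]; ring
        _ = 2 ^ (α * e + j) * 2 ^ W := by rw [← hR]; congr 1; omega
        _ = 2 ^ (α * e + j + W) := by rw [← pow_add]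
    rw [this, L_pow]
  have h2j : 1 ≤ 2 ^ (j - i) := Nat.one_le_two_pow
  have v2 : L ((2 ^ α * m) ^ e * (2 ^ i * R) + 2 ^ (α * e + j)) = 2 * (j - i) := by
    have : (2 ^ α * m) ^ e * (2 ^ i * R) + 2 ^ (α * e + j)
        = 2 ^ (α * e + i) * (2 ^ W + 2 ^ (j - i) - 1) := by
      rw [hke]
      have e1 : 2 ^ j = 2 ^ i * 2 ^ (j - i) := by rw [← pow_add]; congr 1; omega
      calc 2 ^ (α * e) * m ^ e * (2 ^ i * R) + 2 ^ (α * e + j)
          = 2 ^ (α * e + i) * (m ^ e * R + 2 ^ (j - i)) := by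
            rw [pow_add, pow_add, e1]; ring
        _ = 2 ^ (α * e + i) * (2 ^ W + 2 ^ (j - i) - 1) := by
            rw [← hR, show 2 ^ W - 1 + 2 ^ (j - i) = 2 ^ W + 2 ^ (j - i) - 1 by omega]
    rw [this, L_pow_mul _ _ (by omega)]
    exact len_gap (by omega) (by omega)
  simp only [v1, v2] at hf
  push_cast at hf
  rw [show (2 : ZMod 2) = 0 from rfl, zero_mul] at hf
  exact absurd hf (by decide)

/-- Part B: `k` is a power of two -/
theorem not_regular_B {α : ℕ} (hα : 1 ≤ α) : ¬ IsRegular (2 ^ α) (fun n => (L n : ℤ)) := by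
  classical
  intro hfg
  obtain ⟨k, hk⟩ : ∃ k, k = 2 ^ α := ⟨_, rfl⟩
  rw [← hk] at hfg
  have hk2 : 2 ≤ k := by rw [hk]; exact Nat.le_self_pow (by omega) 2
  have hkpos : ∀ e : ℕ, 1 ≤ k ^ e := fun e => Nat.one_le_pow _ _ (by omega)
  unfold IsRegular at hfg
  obtain ⟨M, hM⟩ : ∃ M, M = Submodule.span ℤ
    {f : ℕ → ℤ | ∃ e r : ℕ, r < k ^ e ∧ f = fun n => (fun n => (L n : ℤ)) (k ^ e * n + r)} :=
    ⟨_, rfl⟩
  rw [← hM] at hfg
  let Φ : (ℕ → ℤ) →ₗ[ℤ] (ℕ → ℤ) := LinearMap.funLeft ℤ ℤ (fun t => k ^ t - 1)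
  have hΦ : ∀ (f : ℕ → ℤ) (t : ℕ), Φ f t = f (k ^ t - 1) := fun f t => rfl
  have hNfg : (M.map Φ).FG := hfg.map Φ
  let Ψ : (ℕ → ℤ) →ₗ[ℤ] (ℕ → ℤ) := LinearMap.funLeft ℤ ℤ (fun n => k * n + (k - 1))
  have hΨ : ∀ (f : ℕ → ℤ) (t : ℕ), Ψ f t = f (k * t + (k - 1)) := fun f t => rfl
  have hΨM : ∀ f ∈ M, Ψ f ∈ M := by
    intro f hf
    rw [hM] at hf
    induction hf using Submodule.span_induction with
    | mem x hx =>
      obtain ⟨e, r, hr, rfl⟩ := hx
      rw [hM]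
      apply Submodule.subset_span
      refine ⟨e + 1, k ^ e * (k - 1) + r, ?_, ?_⟩
      · rw [pow_succ]
        calc k ^ e * (k - 1) + r < k ^ e * (k - 1) + k ^ e := by omega
          _ = k ^ e * k := by
            obtain ⟨k', rfl⟩ : ∃ k', k = k' + 1 := ⟨k - 1, by omega⟩
            rw [Nat.add_sub_cancel]
            ring
      · funext n
        rw [hΨ]
        show (L (k ^ e * (k * n + (k - 1)) + r) : ℤ) = (L (k ^ (e + 1) * n + (k ^ e * (k - 1) + r)) : ℤ)
        congr 2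
        ring
    | zero => rw [map_zero]; exact M.zero_mem
    | add x y _ _ hx hy => rw [map_add]; exact M.add_mem hx hy
    | smul a x _ hx => rw [map_smul]; exact M.smul_mem a hx
  have hNs : ∀ b ∈ M.map Φ, sh 1 b ∈ M.map Φ := by
    rintro b ⟨f, hf, rfl⟩
    refine ⟨Ψ f, hΨM f hf, ?_⟩
    funext t
    rw [hΦ, hΨ, sh_apply, hΦ]
    congr 1
    rw [Nat.mul_sub, pow_succ, mul_comm k (k ^ t)]
    have : k * 1 ≤ k ^ t * k := by rw [mul_comm (k ^ t)]; exact Nat.mul_le_mul_left _ (hkpos t)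
    omega
  have hNlin : ∀ b ∈ M.map Φ, ∃ C : ℕ, ∀ t : ℕ, |b t| ≤ C * (t + 1) := by
    rintro b ⟨f, hf, rfl⟩
    rw [hM] at hf
    induction hf using Submodule.span_induction with
    | mem x hx =>
      obtain ⟨e, r, hr, rfl⟩ := hx
      refine ⟨3 * α * (e + 1) + 3, fun t => ?_⟩
      rw [hΦ]
      show |((L (k ^ e * (k ^ t - 1) + r) : ℕ) : ℤ)| ≤ _
      rw [Nat.abs_cast]
      have h1 : L (k ^ e * (k ^ t - 1) + r) ≤ 3 * (α * (e + t)) + 3 := by
        rcases Nat.eq_zero_or_pos (k ^ e * (k ^ t - 1) + r) with h0 | h0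
        · rw [h0]
          have : L 0 = 0 := by
            rw [L, cl, dif_neg (by omega)]
            rfl
          omega
        · apply len_le _ _ _ le_rfl h0
          rw [pow_mul, ← hk]
          have h2 : k ^ e * (k ^ t - 1) + k ^ e = k ^ (e + t) := by
            rw [pow_add, Nat.mul_sub, mul_one]
            have : k ^ e * 1 ≤ k ^ e * k ^ t := Nat.mul_le_mul_left _ (hkpos t)
            omega
          omega
      have h3 : (L (k ^ e * (k ^ t - 1) + r) : ℤ) ≤ 3 * (α * (e + t)) + 3 := by exact_mod_cast h1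
      refine h3.trans ?_
      push_cast
      have hα0 : (0 : ℤ) ≤ α := by positivity
      have ht0 : (0 : ℤ) ≤ t := by positivity
      have he0 : (0 : ℤ) ≤ e := by positivity
      have q1 := mul_nonneg (mul_nonneg hα0 he0) ht0
      nlinarith
    | zero => exact ⟨0, fun t => by simp⟩
    | add x y _ _ hx hy =>
      obtain ⟨C1, h1⟩ := hx
      obtain ⟨C2, h2⟩ := hy
      refine ⟨C1 + C2, fun t => ?_⟩
      rw [map_add, Pi.add_apply]
      refine (abs_add_le _ _).trans ?_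
      have := h1 t
      have := h2 t
      push_cast
      linarith
    | smul a x _ hx =>
      obtain ⟨C1, h1⟩ := hx
      refine ⟨a.natAbs * C1, fun t => ?_⟩
      rw [map_smul, Pi.smul_apply, smul_eq_mul, abs_mul]
      push_cast
      rw [mul_assoc]
      exact mul_le_mul_of_nonneg_left (h1 t) (abs_nonneg _)
  obtain ⟨T, K, hT, hTK⟩ := second_diff hNfg hNs hNlin
  obtain ⟨e, he⟩ : ∃ e, e = T * (K + 4) := ⟨_, rfl⟩
  have heK : K + 4 ≤ e := by rw [he]; exact Nat.le_mul_of_pos_left _ hT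
  obtain ⟨b, hb⟩ : ∃ b : ℕ → ℤ, b = fun t => (L (2 ^ (α * e) * (2 ^ (α * t) - 1) + 1) : ℤ) :=
    ⟨_, rfl⟩
  have hbN : b ∈ M.map Φ := by
    refine ⟨fun n => (L (k ^ e * n + 1) : ℤ), ?_, ?_⟩
    · rw [hM]
      apply Submodule.subset_span
      refine ⟨e, 1, ?_, rfl⟩
      exact Nat.one_lt_pow (by omega) (by omega)
    · funext t
      rw [hΦ, hb, hk, ← pow_mul, ← pow_mul]
  have hsd := hTK b hbN
  have hαe : 4 ≤ α * e := le_trans (by omega) (Nat.le_mul_of_pos_left e hα)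
  have b1 : b e = 2 * (α * e) + 1 := by
    have := len_diag (α * e - 4)
    rw [show α * e - 4 + 4 = α * e by omega] at this
    rw [hb]
    simp only
    rw [show L (2 ^ (α * e) * (2 ^ (α * e) - 1) + 1)
      = len (2 ^ (α * e) * (2 ^ (α * e) - 1) + 1) 1 from rfl, this]
    push_cast
    ring
  have b2 : b (e + T * (K + 4)) = 2 * (α * e) + 1 := by
    have := len_diag2 (α * e - 3)
    rw [show α * e - 3 + 3 = α * e by omega] at this
    rw [hb]
    simp only
    rw [show α * (e + T * (K + 4)) = 2 * (α * e) by rw [← he]; ring,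
      show L (2 ^ (α * e) * (2 ^ (2 * (α * e)) - 1) + 1)
      = len (2 ^ (α * e) * (2 ^ (2 * (α * e)) - 1) + 1) 1 from rfl, this]
    push_cast
    ring
  have hlinear : ∀ y : ℕ, b (e + T * y) = b e + y * (b (e + T) - b e) ∧
      b (e + T * (y + 1)) = b e + (y + 1) * (b (e + T) - b e) := by
    intro y
    induction y with
    | zero => simp
    | succ y ih =>
      refine ⟨by rw [ih.2]; push_cast; ring, ?_⟩
      have h1 := hsd (e + T * y) (by omega)
      rw [show e + T * y + 2 * T = e + T * (y + 1 + 1) by ring,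
        show e + T * y + T = e + T * (y + 1) by ring, ih.1, ih.2] at h1
      push_cast
      linarith
  have hconst : b (e + T) - b e = 0 := by
    have h1 := (hlinear (K + 4)).1
    rw [b2, b1] at h1
    have h2 : ((K + 4 : ℕ) : ℤ) * (b (e + T) - (2 * (α * e) + 1)) = 0 := by linarith
    rcases mul_eq_zero.1 h2 with h | h
    · exfalso
      have : (K + 4 : ℕ) = 0 := by exact_mod_cast h
      omega
    · rw [b1]; exact h
  obtain ⟨y, hy⟩ : ∃ y, y = 2 ^ (2 * (α * e) + 1) := ⟨_, rfl⟩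
  have h1 := (hlinear y).1
  rw [hconst, mul_zero, add_zero, b1] at h1
  have h2 := le_len (α * e) (α * (e + T * y)) (by omega)
  have h3 : len (2 ^ (α * e) * (2 ^ (α * (e + T * y)) - 1) + 1) 1 = 2 * (α * e) + 1 := by
    rw [hb] at h1
    simp only at h1
    exact_mod_cast h1
  rw [h3, ← hy] at h2
  have h4 : y ≤ T * y := Nat.le_mul_of_pos_left _ hT
  have h5 : e + T * y ≤ α * (e + T * y) := Nat.le_mul_of_pos_left _ hα
  omega

/-- `L` is never regular -/
theorem not_regular {k : ℕ} (hk : 2 ≤ k) : ¬ IsRegular k (fun n => (L n : ℤ)) := by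
  obtain ⟨α, m, hodd, rfl⟩ := Nat.exists_eq_two_pow_mul_odd (n := k) (by omega)
  rcases Nat.lt_or_ge m 3 with h | h
  · have hm1 : m = 1 := by
      rcases hodd with ⟨x, hx⟩
      omega
    subst hm1
    rw [mul_one] at hk ⊢
    apply not_regular_B
    rcases Nat.eq_zero_or_pos α with rfl | h
    · simp at hk
    · exact h
  · exact not_regular_A h hodd

end Pool.Agent.R341.Reg
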