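import Mathlib

set_option autoImplicit false

open Polynomial

namespace Pool.Agent.R341.Salem6

/-- `x⁶+ax⁵+bx⁴+cx³+bx²+ax+1` -/
noncomputable def P (a b c : ℤ) : ℤ[X] :=
  X ^ 6 + C a * X ^ 5 + C b * X ^ 4 + C c * X ^ 3 + C b * X ^ 2 + C a * X + 1

/-- the trace cubic -/
noncomputable def G (a b c : ℤ) : ℤ[X] :=
  X ^ 3 + C a * X ^ 2 + C (b - 3) * X + C (c - 2 * a)

lemma P_monic (a b c : ℤ) : (P a b c).Monic := by
  unfold P; monicity!

lemma P_natDegree (a b c : ℤ) : (P a b c).natDegree = 6 := by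
  unfold P; compute_degree!

lemma G_monic (a b c : ℤ) : (G a b c).Monic := by
  unfold G; monicity!

lemma G_natDegree (a b c : ℤ) : (G a b c).natDegree = 3 := by
  unfold G; compute_degree!

lemma aeval_P {A : Type*} [CommRing A] (a b c : ℤ) (x : A) :
    aeval x (P a b c) = x ^ 6 + a * x ^ 5 + b * x ^ 4 + c * x ^ 3 + b * x ^ 2 + a * x + 1 := by
  simp [P]

lemma aeval_G {A : Type*} [CommRing A] (a b c : ℤ) (x : A) :
    aeval x (G a b c) = x ^ 3 + a * x ^ 2 + (b - 3) * x + (c - 2 * a) := by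
  simp only [G, map_add (aeval x), map_mul (aeval x), map_pow, aeval_X, aeval_C]
  simp only [algebraMap_int_eq, Int.coe_castRingHom]
  push_cast
  ring

/-- `P(z) = z³ G(z+1/z)` -/
lemma P_eq_G {A : Type*} [CommRing A] (a b c : ℤ) (z y : A) (h : z ^ 2 + 1 = z * y) :
    aeval z (P a b c) = z ^ 3 * aeval y (G a b c) := by
  rw [aeval_P, aeval_G]
  linear_combination ((z^2+1)^2 + (z^2+1)*(z*y) + (z*y)^2 + (a:A)*z*((z^2+1)+z*y) + ((b:A)-3)*z^2) * h

/-- A monic integer polynomial of degree three without integer root is irreducible over `ℚ`. -/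
lemma G_irreducible {a b c : ℤ}
    (hroot : ∀ n : ℤ, n ^ 3 + a * n ^ 2 + (b - 3) * n + (c - 2 * a) ≠ 0) :
    Irreducible ((G a b c).map (algebraMap ℤ ℚ)) := by
  have hm : ((G a b c).map (algebraMap ℤ ℚ)).Monic := (G_monic a b c).map _
  have hd : ((G a b c).map (algebraMap ℤ ℚ)).natDegree = 3 := by
    rw [(G_monic a b c).natDegree_map, G_natDegree]
  rw [hm.irreducible_iff_roots_eq_zero_of_degree_le_three (by omega) (by omega)]
  by_contra h
  obtain ⟨r, hr⟩ := Multiset.exists_mem_of_ne_zero h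
  rw [mem_roots hm.ne_zero, IsRoot.def, eval_map_algebraMap] at hr
  obtain ⟨n, hn⟩ := isInteger_of_is_root_of_monic (G_monic a b c) hr
  rw [← hn] at hr
  rw [aeval_G] at hr
  apply hroot n
  have : ((n ^ 3 + a * n ^ 2 + (b - 3) * n + (c - 2 * a) : ℤ) : ℚ) = 0 := by
    push_cast
    simpa using hr
  exact_mod_cast this

/-- Main lemma: minimal polynomial. -/
lemma minpoly_eq {a b c : ℤ}
    (hroot : ∀ n : ℤ, n ^ 3 + a * n ^ 2 + (b - 3) * n + (c - 2 * a) ≠ 0)
    {y₁ : ℝ} (hy1 : y₁ ^ 2 < 4) (hG1 : aeval y₁ (G a b c) = 0)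
    {β : ℝ} (hβ0 : β ≠ 0) (hβ : aeval β (P a b c) = 0) : minpoly ℤ β = P a b c := by
  have hint : IsIntegral ℤ β := ⟨P a b c, P_monic a b c, by rwa [← aeval_def]⟩
  have hintQ : IsIntegral ℚ β := hint.tower_top
  set y : ℝ := β + β⁻¹ with hy
  have hyz : β ^ 2 + 1 = β * y := by rw [hy]; field_simp
  have hGy : aeval y (G a b c) = 0 := by
    have := P_eq_G a b c β y hyz
    rw [hβ] at this
    rcases mul_eq_zero.1 this.symm with h | h
    · exact absurd (pow_eq_zero_iff (by norm_num) |>.1 h) hβ0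
    · exact h
  have hyint : IsIntegral ℤ y := ⟨G a b c, G_monic a b c, by rwa [← aeval_def]⟩
  have hyintQ : IsIntegral ℚ y := hyint.tower_top
  have hminy : minpoly ℚ y = (G a b c).map (algebraMap ℤ ℚ) := by
    symm
    apply minpoly.eq_of_irreducible_of_monic (G_irreducible hroot)
    · rw [aeval_map_algebraMap]; exact hGy
    · exact (G_monic a b c).map _
  -- β not in ℚ(y)
  have hnot : β ∉ IntermediateField.adjoin ℚ {y} := by
    intro hmem
    rw [← IntermediateField.mem_toSubalgebra,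
      IntermediateField.adjoin_simple_toSubalgebra_of_isAlgebraic hyintQ.isAlgebraic] at hmem
    rw [Algebra.adjoin_singleton_eq_range_aeval] at hmem
    obtain ⟨h, hh⟩ := hmem
    have hh' : aeval y h = β := hh
    have hdvd : minpoly ℚ y ∣ h ^ 2 + 1 - X * h := by
      apply minpoly.dvd
      simp only [map_add, map_sub, map_mul, map_pow, map_one, aeval_X, hh']
      linear_combination hyz
    rw [hminy] at hdvd
    obtain ⟨q, hq⟩ := hdvd
    have h1 : aeval y₁ (h ^ 2 + 1 - X * h) = 0 := by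
      rw [hq, map_mul, aeval_map_algebraMap, hG1, zero_mul]
    simp only [map_add, map_sub, map_mul, map_pow, map_one, aeval_X] at h1
    nlinarith [sq_nonneg (2 * aeval y₁ h - y₁)]
  -- degrees
  have hFle : IntermediateField.adjoin ℚ {y} ≤ IntermediateField.adjoin ℚ {β} := by
    rw [IntermediateField.adjoin_simple_le_iff]
    exact add_mem (IntermediateField.mem_adjoin_simple_self ℚ β)
      (inv_mem (IntermediateField.mem_adjoin_simple_self ℚ β))
  have hdF : Module.finrank ℚ (IntermediateField.adjoin ℚ {y}) = 3 := by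
    rw [IntermediateField.adjoin.finrank hyintQ, hminy, (G_monic a b c).natDegree_map, G_natDegree]
  have hdK : Module.finrank ℚ (IntermediateField.adjoin ℚ {β}) = (minpoly ℚ β).natDegree :=
    IntermediateField.adjoin.finrank hintQ
  have hfd : FiniteDimensional ℚ (IntermediateField.adjoin ℚ {β}) :=
    IntermediateField.adjoin.finiteDimensional hintQ
  have hdvd : 3 ∣ (minpoly ℚ β).natDegree := by
    rw [← hdF, ← hdK]
    exact IntermediateField.finrank_dvd_of_le_right hFle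
  have hne : (minpoly ℚ β).natDegree ≠ 3 := by
    intro h3
    have : IntermediateField.adjoin ℚ {y} = IntermediateField.adjoin ℚ {β} :=
      IntermediateField.eq_of_le_of_finrank_eq hFle (by rw [hdF, hdK, h3])
    apply hnot
    rw [this]
    exact IntermediateField.mem_adjoin_simple_self ℚ β
  have hfrac : minpoly ℚ β = (minpoly ℤ β).map (algebraMap ℤ ℚ) :=
    minpoly.isIntegrallyClosed_eq_field_fractions' ℚ hint
  have hdeg : (minpoly ℚ β).natDegree = (minpoly ℤ β).natDegree := by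
    rw [hfrac, (minpoly.monic hint).natDegree_map]
  have hpos : 0 < (minpoly ℚ β).natDegree := minpoly.natDegree_pos hintQ
  have hdvdP : minpoly ℤ β ∣ P a b c := minpoly.isIntegrallyClosed_dvd hint hβ
  have hle := natDegree_le_of_dvd hdvdP (P_monic a b c).ne_zero
  rw [P_natDegree] at hle
  have h6 : (minpoly ℤ β).natDegree = 6 := by
    rw [hdeg] at hdvd hne hpos
    omega
  symm
  exact eq_of_monic_of_dvd_of_natDegree_le (minpoly.monic hint) (P_monic a b c) hdvdP
    (by rw [P_natDegree, h6])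

/-- location of the roots -/
lemma roots_P {a b c : ℤ} {y₁ y₂ : ℝ} (hy1 : y₁ ^ 2 < 4) (hy2 : y₂ ^ 2 < 4) (hne : y₁ ≠ y₂)
    (hG1 : aeval y₁ (G a b c) = 0) (hG2 : aeval y₂ (G a b c) = 0)
    {β : ℝ} (hβ1 : 1 < β) (hβ : aeval β (P a b c) = 0) (z : ℂ) (hz : aeval z (P a b c) = 0)
    (hzβ : z ≠ β) : ‖z‖ ≤ 1 := by
  have hβ0 : β ≠ 0 := by linarith
  set y : ℝ := β + β⁻¹ with hy
  have hyz : β ^ 2 + 1 = β * y := by rw [hy]; field_simp
  have hy4 : 4 < y ^ 2 := by
    have h1 : (β * y) ^ 2 > 4 * β ^ 2 := by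
      rw [← hyz]
      nlinarith [sq_pos_of_pos (show (0:ℝ) < β ^ 2 - 1 by nlinarith)]
    have h2 : 0 < β ^ 2 := by positivity
    rw [mul_pow] at h1
    by_contra h3
    push Not at h3
    nlinarith
  have hGy : aeval y (G a b c) = 0 := by
    have := P_eq_G a b c β y hyz
    rw [hβ] at this
    rcases mul_eq_zero.1 this.symm with h | h
    · exact absurd (pow_eq_zero_iff (by norm_num) |>.1 h) hβ0
    · exact h
  have hyne1 : y₁ ≠ y := by rintro rfl; linarith
  have hyne2 : y₂ ≠ y := by rintro rfl; linarith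
  rw [aeval_G] at hG1 hG2 hGy
  -- divided differences
  have d12 : y₁ ^ 2 + y₁ * y₂ + y₂ ^ 2 + a * (y₁ + y₂) + (b - 3) = 0 := by
    apply mul_left_cancel₀ (sub_ne_zero.2 hne)
    linear_combination hG1 - hG2
  have d13 : y₁ ^ 2 + y₁ * y + y ^ 2 + a * (y₁ + y) + (b - 3) = 0 := by
    apply mul_left_cancel₀ (sub_ne_zero.2 hyne1)
    linear_combination hG1 - hGy
  have e1 : y₁ + y₂ + y + a = 0 := by
    apply mul_left_cancel₀ (sub_ne_zero.2 hyne2)
    linear_combination d12 - d13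
  have fact : ∀ t : ℂ, t ^ 3 + a * t ^ 2 + (b - 3) * t + (c - 2 * a)
      = (t - y₁) * (t - y₂) * (t - y) := by
    intro t
    have e1' : (y₁ : ℂ) + y₂ + y + a = 0 := by exact_mod_cast congrArg (fun x : ℝ => (x : ℂ)) e1
    have d12' : (y₁ : ℂ) ^ 2 + y₁ * y₂ + y₂ ^ 2 + a * (y₁ + y₂) + (b - 3) = 0 := by
      exact_mod_cast congrArg (fun x : ℝ => (x : ℂ)) d12
    have hG1' : (y₁ : ℂ) ^ 3 + a * y₁ ^ 2 + (b - 3) * y₁ + (c - 2 * a) = 0 := by
      exact_mod_cast congrArg (fun x : ℝ => (x : ℂ)) hG1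
    linear_combination (t - y₁) * (t - y₂) * e1' + (t - y₁) * d12' + hG1'
  have hz0 : z ≠ 0 := by
    rintro rfl
    rw [aeval_P] at hz
    simp at hz
  set w : ℂ := z + z⁻¹ with hw
  have hwz : z ^ 2 + 1 = z * w := by rw [hw]; field_simp
  have hGw : aeval w (G a b c) = 0 := by
    have := P_eq_G a b c z w hwz
    rw [hz] at this
    rcases mul_eq_zero.1 this.symm with h | h
    · exact absurd (pow_eq_zero_iff (by norm_num) |>.1 h) hz0
    · exact h
  rw [aeval_G, fact, mul_eq_zero, mul_eq_zero, sub_eq_zero, sub_eq_zero, sub_eq_zero] at hGw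
  -- on the circle
  have circ : ∀ u : ℝ, u ^ 2 < 4 → z ^ 2 + 1 = z * u → ‖z‖ ≤ 1 := by
    intro u hu hzu
    have hre := congrArg Complex.re hzu
    have him := congrArg Complex.im hzu
    simp [pow_two] at hre him
    have h1 : z.im * (2 * z.re - u) = 0 := by linear_combination him
    have h2 : Complex.normSq z = 1 := by
      rw [Complex.normSq_apply]
      rcases mul_eq_zero.1 h1 with h | h
      · rw [h] at hre
        nlinarith [sq_nonneg (2 * z.re - u)]
      · have : u = 2 * z.re := by linarith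
        subst this
        linarith
    rw [Complex.normSq_eq_norm_sq] at h2
    nlinarith [norm_nonneg z]
  rcases hGw with (h | h) | h
  · exact circ y₁ hy1 (by rw [← h]; exact hwz)
  · exact circ y₂ hy2 (by rw [← h]; exact hwz)
  · have h1 : (z - β) * (z * β - 1) = 0 := by
      have hb : (β : ℂ) ^ 2 + 1 = β * y := by exact_mod_cast congrArg (fun x : ℝ => (x : ℂ)) hyz
      rw [h] at hwz
      linear_combination (β : ℂ) * hwz - z * hb
    rcases mul_eq_zero.1 h1 with h2 | h2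
    · exact absurd (sub_eq_zero.1 h2) hzβ
    · have h3 : ‖z‖ * β = 1 := by
        have := congrArg norm (sub_eq_zero.1 h2)
        rwa [norm_mul, Complex.norm_real, Real.norm_of_nonneg (by linarith), norm_one] at this
      by_contra h4
      push Not at h4
      nlinarith

/-- existence of a root on the unit circle -/
lemma exists_unit {a b c : ℤ} {y₁ : ℝ} (hy1 : y₁ ^ 2 < 4) (hG1 : aeval y₁ (G a b c) = 0) :
    ∃ z : ℂ, aeval z (P a b c) = 0 ∧ ‖z‖ = 1 := by
  have hs : 0 ≤ 1 - y₁ ^ 2 / 4 := by linarith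
  refine ⟨⟨y₁ / 2, Real.sqrt (1 - y₁ ^ 2 / 4)⟩, ?_, ?_⟩
  · set z : ℂ := ⟨y₁ / 2, Real.sqrt (1 - y₁ ^ 2 / 4)⟩ with hz
    have h1 : z ^ 2 + 1 = z * (y₁ : ℂ) := by
      apply Complex.ext
      · have h5 := Real.mul_self_sqrt hs
        simp only [hz, pow_two, Complex.add_re, Complex.mul_re, Complex.one_re, Complex.ofReal_re,
          Complex.ofReal_im]
        rw [← pow_two y₁, h5]
        ring
      · simp [pow_two, hz]
        ring
    rw [P_eq_G a b c z y₁ h1]
    have : aeval (y₁ : ℂ) (G a b c) = 0 := by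
      rw [aeval_G] at hG1 ⊢
      exact_mod_cast congrArg (fun x : ℝ => (x : ℂ)) hG1
    rw [this, mul_zero]
  · rw [← sq_eq_sq₀ (norm_nonneg _) zero_le_one, ← Complex.normSq_eq_norm_sq, Complex.normSq_apply]
    simp [Real.mul_self_sqrt hs]
    ring

/-- sign changes give the two small roots of the trace cubic -/
lemma exists_small {a b c : ℤ} (u : ℝ) (hu : -2 < u) (hu2 : u < 2)
    (h1 : aeval (-2 : ℝ) (G a b c) < 0) (h2 : 0 < aeval u (G a b c))
    (h3 : aeval (2 : ℝ) (G a b c) < 0) :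
    ∃ y₁ y₂ : ℝ, y₁ ^ 2 < 4 ∧ y₂ ^ 2 < 4 ∧ y₁ ≠ y₂ ∧
      aeval y₁ (G a b c) = 0 ∧ aeval y₂ (G a b c) = 0 := by
  have hc : Continuous fun x : ℝ => aeval x (G a b c) := by
    simp only [aeval_G]; fun_prop
  obtain ⟨y₁, hm1, hy1⟩ := intermediate_value_Ioo hu.le hc.continuousOn ⟨h1, h2⟩
  obtain ⟨y₂, hm2, hy2⟩ := intermediate_value_Ioo' hu2.le hc.continuousOn ⟨h3, h2⟩
  refine ⟨y₁, y₂, ?_, ?_, ?_, hy1, hy2⟩
  · nlinarith [hm1.1, hm1.2]
  · nlinarith [hm2.1, hm2.2]
  · have h : y₁ < y₂ := by linarith [hm1.2, hm2.1]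
    exact h.ne

/-- `β > 1` is an algebraic integer whose other conjugates lie in the closed unit disc, at least
one of them on the unit circle. -/
def IsSalem (β : ℝ) : Prop :=
  1 < β ∧ IsIntegral ℤ β ∧
    (∀ z : ℂ, aeval z (minpoly ℤ β) = 0 → z ≠ β → ‖z‖ ≤ 1) ∧
    ∃ z : ℂ, aeval z (minpoly ℤ β) = 0 ∧ ‖z‖ = 1

/-- Criterion for degree six. -/
theorem salem6 {a b c : ℤ}
    (hroot : ∀ n : ℤ, n ^ 3 + a * n ^ 2 + (b - 3) * n + (c - 2 * a) ≠ 0)
    (u : ℝ) (hu : -2 < u) (hu2 : u < 2)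
    (h1 : aeval (-2 : ℝ) (G a b c) < 0) (h2 : 0 < aeval u (G a b c))
    (h3 : aeval (2 : ℝ) (G a b c) < 0)
    {β : ℝ} (hβ1 : 1 < β) (hβ : aeval β (P a b c) = 0) :
    IsSalem β ∧ minpoly ℤ β = P a b c := by
  obtain ⟨y₁, y₂, hy1, hy2, hne, hG1, hG2⟩ := exists_small u hu hu2 h1 h2 h3
  have hmin : minpoly ℤ β = P a b c := minpoly_eq hroot hy1 hG1 (by linarith) hβ
  have hint : IsIntegral ℤ β := ⟨P a b c, P_monic a b c, by rwa [← aeval_def]⟩
  refine ⟨⟨hβ1, hint, ?_, ?_⟩, hmin⟩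
  · rw [hmin]
    exact fun z hz hzβ => roots_P hy1 hy2 hne hG1 hG2 hβ1 hβ z hz hzβ
  · rw [hmin]
    exact exists_unit hy1 hG1

end Pool.Agent.R341.Salem6
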