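import Mathlib

set_option autoImplicit false

open Complex

namespace Pool.Agent.R341.Spectrum

/-- The spectrum `X^m(γ)`. -/
def X (m : ℕ) (γ : ℂ) : Set ℂ :=
  {z | ∃ (n : ℕ) (a : ℕ → ℕ), (∀ j, a j ≤ m) ∧
    z = ∑ j ∈ Finset.range (n + 1), (a j : ℂ) * γ ^ j}

/-- relative density in `ℂ` -/
def RelativelyDense (S : Set ℂ) : Prop :=
  ∃ R : ℝ, 0 < R ∧ ∀ w : ℂ, ∃ z ∈ S, ‖z - w‖ ≤ R

lemma geom_le {ρ : ℝ} (hρ : 1 < ρ) (n : ℕ) :
    ∑ j ∈ Finset.range n, ρ ^ j ≤ ρ ^ n / (ρ - 1) := by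
  rw [geom_sum_eq (by linarith)]
  gcongr
  · linarith

/-- an element of `X^m(γ)` is zero or has a leading digit -/
lemma lead {m : ℕ} {γ z : ℂ} (hz : z ∈ X m γ) :
    z = 0 ∨ ∃ (n : ℕ) (a : ℕ → ℕ), (∀ j, a j ≤ m) ∧ 1 ≤ a n ∧
      z = ∑ j ∈ Finset.range (n + 1), (a j : ℂ) * γ ^ j := by
  obtain ⟨n, a, ha, rfl⟩ := hz
  induction n with
  | zero =>
    by_cases h : a 0 = 0
    · left; simp [h]
    · right; exact ⟨0, a, ha, Nat.one_le_iff_ne_zero.2 h, rfl⟩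
  | succ n ih =>
    by_cases h : a (n + 1) = 0
    · rw [Finset.sum_range_succ, h]
      simpa using ih
    · right; exact ⟨n + 1, a, ha, Nat.one_le_iff_ne_zero.2 h, rfl⟩

lemma re_zpow {ρ θ : ℝ} (hρ : 0 < ρ) (k : ℤ) :
    (((ρ : ℂ) * exp (θ * I)) ^ k).re = ρ ^ k * Real.cos (k * θ) := by
  have h1 : ((ρ : ℂ) * exp (θ * I)) ^ k = ((ρ ^ k : ℝ) : ℂ) * exp (((k * θ : ℝ) : ℂ) * I) := by
    rw [mul_zpow, ← Complex.exp_int_mul]
    push_cast
    congr 2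
    ring
  rw [h1, Complex.re_ofReal_mul, Complex.exp_ofReal_mul_I_re]

lemma norm_g {ρ θ : ℝ} (hρ : 0 < ρ) : ‖(ρ : ℂ) * exp (θ * I)‖ = ρ := by
  rw [norm_mul, Complex.norm_exp_ofReal_mul_I, mul_one, Complex.norm_real, Real.norm_of_nonneg hρ.le]

lemma re_sum' {ρ θ : ℝ} (hρ0 : 0 < ρ) (n N : ℕ) (a : ℕ → ℕ) :
    (∑ j ∈ Finset.range (n + 1), (a j : ℂ) * ((ρ : ℂ) * exp (θ * I)) ^ ((j : ℤ) - N)).re
      = ∑ j ∈ Finset.range (n + 1),
        (a j : ℝ) * (ρ ^ ((j : ℤ) - N) * Real.cos ((((j : ℤ) - N : ℤ) : ℝ) * θ)) := by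
  rw [Complex.re_sum]
  apply Finset.sum_congr rfl
  intro j _
  rw [← re_zpow hρ0, ← Complex.re_ofReal_mul]
  simp

lemma cos_nn {θ : ℝ} {J : ℕ} (hJ : J * |θ| ≤ Real.pi / 2) : ∀ i : ℤ, |i| ≤ J →
    0 ≤ Real.cos ((i : ℝ) * θ) := by
  intro i hi
  apply Real.cos_nonneg_of_mem_Icc
  have h1 : |(i : ℝ) * θ| ≤ Real.pi / 2 := by
    rw [abs_mul]
    have : |(i : ℝ)| ≤ J := by
      have : ((|i| : ℤ) : ℝ) ≤ ((J : ℤ) : ℝ) := by exact_mod_cast hi
      simpa using this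
    calc |(i : ℝ)| * |θ| ≤ J * |θ| := by gcongr
      _ ≤ _ := hJ
  exact ⟨by linarith [(abs_le.1 h1).1], (abs_le.1 h1).2⟩

/-- the lower digits contribute little to the real part from below -/
lemma re_rest {ρ θ : ℝ} (hρ : 1 < ρ) {m J : ℕ} (hJ : J * |θ| ≤ Real.pi / 2)
    {n N : ℕ} (hn1 : n ≤ N + J) {a : ℕ → ℕ} (ha : ∀ j, a j ≤ m) :
    -(m / (ρ ^ J * (ρ - 1))) ≤ ∑ j ∈ Finset.range n,
        (a j : ℝ) * (ρ ^ ((j : ℤ) - N) * Real.cos ((((j : ℤ) - N : ℤ) : ℝ) * θ)) := by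
  have hρ0 : 0 < ρ := by linarith
  have hcos := cos_nn hJ
  have h1 : ∀ j ∈ Finset.range n, -(if j + J < N then (m : ℝ) * ρ ^ ((j : ℤ) - N) else 0) ≤
      (a j : ℝ) * (ρ ^ ((j : ℤ) - N) * Real.cos ((((j : ℤ) - N : ℤ) : ℝ) * θ)) := by
    intro j hj
    have hj' := Finset.mem_range.1 hj
    split_ifs with h
    · have h2 : (a j : ℝ) ≤ m := by exact_mod_cast ha j
      have h3 : 0 < ρ ^ ((j : ℤ) - N) := zpow_pos hρ0 _
      have h4 := Real.neg_one_le_cos ((((j : ℤ) - N : ℤ) : ℝ) * θ)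
      have h5 : (0 : ℝ) ≤ a j := Nat.cast_nonneg _
      nlinarith [mul_nonneg h5 h3.le, mul_le_mul_of_nonneg_right h2 h3.le]
    · have h2 := hcos ((j : ℤ) - N) (by rw [abs_le]; constructor <;> omega)
      have h3 : 0 < ρ ^ ((j : ℤ) - N) := zpow_pos hρ0 _
      rw [neg_zero]
      positivity
  refine le_trans ?_ (Finset.sum_le_sum h1)
  rw [Finset.sum_neg_distrib, neg_le_neg_iff, ← Finset.sum_filter]
  have hm0 : (0 : ℝ) ≤ m := Nat.cast_nonneg _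
  by_cases hNJ : J < N
  · calc ∑ j ∈ (Finset.range n).filter (fun j => j + J < N), (m : ℝ) * ρ ^ ((j : ℤ) - N)
        ≤ ∑ j ∈ Finset.range (N - J), (m : ℝ) * ρ ^ ((j : ℤ) - N) := by
          apply Finset.sum_le_sum_of_subset_of_nonneg
          · intro j hj
            rw [Finset.mem_filter] at hj
            rw [Finset.mem_range]
            omega
          · intro j _ _
            have : 0 < ρ ^ ((j : ℤ) - N) := zpow_pos hρ0 _
            positivity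
      _ = m * ρ ^ (-(N : ℤ)) * ∑ j ∈ Finset.range (N - J), ρ ^ j := by
          rw [Finset.mul_sum]
          apply Finset.sum_congr rfl
          intro j _
          rw [sub_eq_add_neg, zpow_add₀ hρ0.ne', zpow_natCast]
          ring
      _ ≤ m * ρ ^ (-(N : ℤ)) * (ρ ^ (N - J) / (ρ - 1)) := by
          gcongr
          exact geom_le hρ _
      _ = m / (ρ ^ J * (ρ - 1)) := by
          have h3 : ρ ^ (N - J) * ρ ^ J = ρ ^ N := by rw [← pow_add]; congr 1; omega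
          rw [zpow_neg, zpow_natCast]
          have h4 : ρ - 1 ≠ 0 := by linarith
          have h5 : ρ ^ N ≠ 0 := by positivity
          have h6 : ρ ^ J ≠ 0 := by positivity
          field_simp
          rw [← h3]
          ring
  · rw [Finset.sum_eq_zero]
    · have : 0 < ρ - 1 := by linarith
      positivity
    · intro j hj
      rw [Finset.mem_filter] at hj
      omega

lemma tail_le {ρ θ : ℝ} (hρ : 1 < ρ) {m K J : ℕ}
    (h2 : (m : ℝ) ≤ ρ ^ J * (ρ - 1) * (ρ ^ (-(K : ℤ)) * Real.cos (K * θ))) :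
    m / (ρ ^ J * (ρ - 1)) ≤ ρ ^ (-(K : ℤ)) * Real.cos (K * θ) := by
  have : 0 < ρ ^ J * (ρ - 1) := mul_pos (by positivity) (by linarith)
  rw [div_le_iff₀ this]
  linarith

/-- key estimate: real part bounded below -/
lemma re_lower {ρ θ : ℝ} (hρ : 1 < ρ) {m K J : ℕ} (hKJ : K ≤ J) (hJ : J * |θ| ≤ Real.pi / 2)
    (h2 : (m : ℝ) ≤ ρ ^ J * (ρ - 1) * (ρ ^ (-(K : ℤ)) * Real.cos (K * θ)))
    {n N : ℕ} (hn1 : n ≤ N + K) (hn2 : N ≤ n + K) {a : ℕ → ℕ} (ha : ∀ j, a j ≤ m) (han : 1 ≤ a n) :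
    0 ≤ (∑ j ∈ Finset.range (n + 1), (a j : ℂ) * ((ρ : ℂ) * exp (θ * I)) ^ ((j : ℤ) - N)).re := by
  have hρ0 : 0 < ρ := by linarith
  rw [re_sum' hρ0, Finset.sum_range_succ]
  have hcos := cos_nn hJ
  -- top term
  have htop : ρ ^ (-(K : ℤ)) * Real.cos (K * θ) ≤
      (a n : ℝ) * (ρ ^ ((n : ℤ) - N) * Real.cos ((((n : ℤ) - N : ℤ) : ℝ) * θ)) := by
    have hi : |((n : ℤ) - N)| ≤ K := by rw [abs_le]; constructor <;> omega
    have h1 : ρ ^ (-(K : ℤ)) ≤ ρ ^ ((n : ℤ) - N) := zpow_le_zpow_right₀ hρ.le (by omega)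
    have h2 : Real.cos (K * θ) ≤ Real.cos ((((n : ℤ) - N : ℤ) : ℝ) * θ) := by
      rw [← Real.cos_abs (K * θ), ← Real.cos_abs ((((n : ℤ) - N : ℤ) : ℝ) * θ)]
      apply Real.cos_le_cos_of_nonneg_of_le_pi (abs_nonneg _)
      · rw [abs_mul, Nat.abs_cast]
        have : (K : ℝ) * |θ| ≤ J * |θ| := by gcongr
        linarith [Real.pi_pos]
      · rw [abs_mul, abs_mul, Nat.abs_cast]
        gcongr
        have : ((|(n : ℤ) - N| : ℤ) : ℝ) ≤ ((K : ℤ) : ℝ) := by exact_mod_cast hi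
        simpa using this
    have h3 : 0 ≤ Real.cos (K * θ) := by
      have := hcos K (by simpa using hKJ)
      simpa using this
    have h4 : (1 : ℝ) ≤ a n := by exact_mod_cast han
    have h5 : 0 < ρ ^ (-(K : ℤ)) := zpow_pos hρ0 _
    calc ρ ^ (-(K : ℤ)) * Real.cos (K * θ) ≤ ρ ^ ((n : ℤ) - N) * Real.cos ((((n : ℤ) - N : ℤ) : ℝ) * θ) :=
          mul_le_mul h1 h2 h3 (by positivity)
      _ = 1 * (ρ ^ ((n : ℤ) - N) * Real.cos ((((n : ℤ) - N : ℤ) : ℝ) * θ)) := by ring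
      _ ≤ _ := by
        apply mul_le_mul_of_nonneg_right h4
        exact mul_nonneg (zpow_nonneg hρ0.le _) (h3.trans h2)
  have hrest := re_rest hρ hJ (n := n) (N := N) (by omega) ha
  have hfin := tail_le hρ h2
  linarith

/-- The criterion. -/
theorem core {ρ θ : ℝ} (hρ : 1 < ρ) {m K J : ℕ} (hKJ : K ≤ J) (hJ : J * |θ| ≤ Real.pi / 2)
    (h1 : (m : ℝ) < ρ ^ K * (ρ - 1))
    (h2 : (m : ℝ) ≤ ρ ^ J * (ρ - 1) * (ρ ^ (-(K : ℤ)) * Real.cos (K * θ)))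
    (h3 : 1 < ρ ^ (K + 1) - ρ) :
    ¬ RelativelyDense (X m ((ρ : ℂ) * exp (θ * I))) := by
  have hρ0 : 0 < ρ := by linarith
  set γ : ℂ := (ρ : ℂ) * exp (θ * I) with hγ
  have hnγ : ‖γ‖ = ρ := norm_g hρ0
  have hγ0 : γ ≠ 0 := by rw [← norm_pos_iff, hnγ]; exact hρ0
  rintro ⟨R, hR, hd⟩
  set q : ℝ := m / (ρ ^ K * (ρ - 1)) with hq
  have hq1 : q < 1 := by
    rw [hq, div_lt_one (mul_pos (by positivity) (by linarith))]
    exact h1
  set c : ℝ := min (1 - q) (min 1 (ρ ^ (K + 1) - ρ - 1)) with hc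
  have hc0 : 0 < c := by
    rw [hc]
    refine lt_min (by linarith) (lt_min one_pos (by linarith))
  obtain ⟨N, hN⟩ := pow_unbounded_of_one_lt (R / c) hρ
  obtain ⟨z, hz, hzR⟩ := hd (-γ ^ N)
  rw [sub_neg_eq_add] at hzR
  have hNc : R < c * ρ ^ N := by
    rw [div_lt_iff₀ hc0] at hN
    linarith
  have hpN : 0 < ρ ^ N := by positivity
  suffices h : c * ρ ^ N ≤ ‖z + γ ^ N‖ by linarith
  have hnN : ‖γ ^ N‖ = ρ ^ N := by rw [norm_pow, hnγ]
  rcases lead hz with rfl | ⟨n, a, ha, han, hza⟩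
  · rw [zero_add, hnN]
    have : c ≤ 1 := (min_le_right _ _).trans (min_le_left _ _)
    nlinarith
  have hfac : ∀ M : ℕ, z = γ ^ M *
      ∑ j ∈ Finset.range (n + 1), (a j : ℂ) * γ ^ ((j : ℤ) - M) := by
    intro M
    rw [hza, Finset.mul_sum]
    apply Finset.sum_congr rfl
    intro j _
    rw [zpow_sub₀ hγ0, zpow_natCast, zpow_natCast]
    field_simp
  by_cases hA : n ≤ N + K
  · by_cases hB : N ≤ n + K
    · -- comparable case
      have hre := re_lower hρ hKJ hJ h2 hA hB ha han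
      rw [← hγ] at hre
      rw [hfac N]
      set s := ∑ j ∈ Finset.range (n + 1), (a j : ℂ) * γ ^ ((j : ℤ) - N) with hs
      have h5 : γ ^ N * s + γ ^ N = γ ^ N * (s + 1) := by ring
      rw [h5, norm_mul, hnN]
      have h6 : 1 ≤ ‖s + 1‖ := by
        refine le_trans ?_ (Complex.abs_re_le_norm _)
        rw [Complex.add_re, Complex.one_re]
        rw [abs_of_nonneg (by linarith)]
        linarith
      have : c ≤ 1 := (min_le_right _ _).trans (min_le_left _ _)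
      nlinarith
    · -- z is small
      push Not at hB
      have h5 : ‖z‖ ≤ q * ρ ^ N := by
        rw [hza]
        calc ‖∑ j ∈ Finset.range (n + 1), (a j : ℂ) * γ ^ j‖
            ≤ ∑ j ∈ Finset.range (n + 1), ‖(a j : ℂ) * γ ^ j‖ := norm_sum_le _ _
          _ ≤ ∑ j ∈ Finset.range (n + 1), m * ρ ^ j := by
            apply Finset.sum_le_sum
            intro j _
            rw [norm_mul, norm_pow, hnγ, Complex.norm_natCast]
            have : (a j : ℝ) ≤ m := by exact_mod_cast ha j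
            gcongr
          _ = m * ∑ j ∈ Finset.range (n + 1), ρ ^ j := by rw [Finset.mul_sum]
          _ ≤ m * (ρ ^ (n + 1) / (ρ - 1)) := by
            gcongr
            exact geom_le hρ _
          _ ≤ m * (ρ ^ (N - K) / (ρ - 1)) := by
            have : 0 < ρ - 1 := by linarith
            gcongr
            · exact hρ.le
            · omega
          _ = q * ρ ^ N := by
            have h3 : ρ ^ (N - K) * ρ ^ K = ρ ^ N := by rw [← pow_add]; congr 1; omega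
            rw [hq, ← h3]
            have h4 : ρ - 1 ≠ 0 := by linarith
            have h6 : ρ ^ K ≠ 0 := by positivity
            field_simp
      have h6 : ‖γ ^ N‖ ≤ ‖z + γ ^ N‖ + ‖z‖ := by
        calc ‖γ ^ N‖ = ‖(z + γ ^ N) - z‖ := by congr 1; ring
          _ ≤ _ := norm_sub_le _ _
      rw [hnN] at h6
      have : c ≤ 1 - q := min_le_left _ _
      nlinarith
  · -- z is large
    push Not at hA
    have hrest := re_rest hρ hJ (n := n) (N := n) (by omega) ha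
    have hfin := tail_le hρ h2
    have hcK : Real.cos (K * θ) ≤ 1 := Real.cos_le_one _
    have hK0 : 0 < ρ ^ (-(K : ℤ)) := zpow_pos hρ0 _
    have h5 : 1 - ρ ^ (-(K : ℤ)) ≤
        (∑ j ∈ Finset.range (n + 1), (a j : ℂ) * γ ^ ((j : ℤ) - n)).re := by
      rw [hγ, re_sum' hρ0, Finset.sum_range_succ]
      have h4 : (1 : ℝ) ≤ a n := by exact_mod_cast han
      simp only [sub_self, zpow_zero, Int.cast_zero, zero_mul, Real.cos_zero, mul_one]
      nlinarith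
    rw [hfac n] 
    set s := ∑ j ∈ Finset.range (n + 1), (a j : ℂ) * γ ^ ((j : ℤ) - n) with hs
    have h6 : 1 - ρ ^ (-(K : ℤ)) ≤ ‖s‖ := h5.trans ((le_abs_self _).trans (Complex.abs_re_le_norm _))
    have h7 : ‖γ ^ n * s‖ ≤ ‖γ ^ n * s + γ ^ N‖ + ‖γ ^ N‖ := by
      calc ‖γ ^ n * s‖ = ‖(γ ^ n * s + γ ^ N) - γ ^ N‖ := by congr 1; ring
        _ ≤ _ := norm_sub_le _ _
    rw [norm_mul, norm_pow, hnγ, hnN] at h7
    have h8 : ρ ^ N * ρ ^ (K + 1) ≤ ρ ^ n := by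
      rw [← pow_add]
      exact pow_le_pow_right₀ hρ.le (by omega)
    have h9 : ρ ^ (K + 1) * ρ ^ (-(K : ℤ)) = ρ := by
      rw [← zpow_natCast, ← zpow_add₀ hρ0.ne']
      simp
    have hK1 : 0 ≤ 1 - ρ ^ (-(K : ℤ)) := by
      have : ρ ^ (-(K : ℤ)) ≤ 1 := by
        rw [zpow_neg, zpow_natCast]
        exact inv_le_one_of_one_le₀ (one_le_pow₀ hρ.le)
      linarith
    have h10 : ρ ^ N * (ρ ^ (K + 1) - ρ) ≤ ρ ^ n * ‖s‖ := by
      calc ρ ^ N * (ρ ^ (K + 1) - ρ) = ρ ^ N * ρ ^ (K + 1) * (1 - ρ ^ (-(K : ℤ))) := by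
            rw [mul_sub, mul_sub, mul_one, mul_assoc (ρ ^ N), h9]
        _ ≤ ρ ^ n * (1 - ρ ^ (-(K : ℤ))) := mul_le_mul_of_nonneg_right h8 hK1
        _ ≤ ρ ^ n * ‖s‖ := by gcongr
    have : c ≤ ρ ^ (K + 1) - ρ - 1 := (min_le_right _ _).trans (min_le_right _ _)
    nlinarith

end Pool.Agent.R341.Spectrum
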