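import Mathlib

set_option autoImplicit false

namespace Pool.Agent.R341.Uni

open Filter Topology

/-- the value of a binary digit -/
noncomputable def dg (b : Bool) : ℝ := if b then 1 else 0

@[simp] lemma dg_true : dg true = 1 := rfl
@[simp] lemma dg_false : dg false = 0 := rfl
lemma dg_nonneg (b : Bool) : 0 ≤ dg b := by cases b <;> simp
lemma dg_le (b : Bool) : dg b ≤ 1 := by cases b <;> simp
lemma dg_not (b : Bool) : dg (!b) = 1 - dg b := by cases b <;> simp

/-- the value of the expansion `d` in base `q` -/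
noncomputable def P (q : ℝ) (d : ℕ → Bool) : ℝ := ∑' i, dg (d i) / q ^ (i + 1)

/-- shift -/
def sh (n : ℕ) (d : ℕ → Bool) : ℕ → Bool := fun i => d (n + i)

lemma sh_sh (m n : ℕ) (d : ℕ → Bool) : sh m (sh n d) = sh (n + m) d := by
  funext i; simp only [sh, add_assoc]

lemma sh_zero (d : ℕ → Bool) : sh 0 d = d := by funext i; simp [sh]

@[simp] lemma sh_apply (n i : ℕ) (d : ℕ → Bool) : sh n d i = d (n + i) := rfl

section
variable {q : ℝ}

lemma hasSum_ones (hq : 1 < q) : HasSum (fun i : ℕ => 1 / q ^ (i + 1)) (1 / (q - 1)) := by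
  have h := hasSum_geometric_of_lt_one (r := 1 / q) (by positivity)
    (by rw [div_lt_one (by linarith)]; exact hq)
  have h2 := h.mul_left (1 / q)
  have e : 1 / q * (1 - 1 / q)⁻¹ = 1 / (q - 1) := by
    have : q ≠ 0 := by linarith
    have : q - 1 ≠ 0 := by linarith
    field_simp
  rw [e] at h2
  refine h2.congr_fun ?_ |> fun h => h
  intro i
  rw [one_div_pow, pow_succ]
  have : q ≠ 0 := by linarith
  field_simp

lemma summable_P (hq : 1 < q) (d : ℕ → Bool) : Summable (fun i : ℕ => dg (d i) / q ^ (i + 1)) := by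
  refine Summable.of_nonneg_of_le (fun i => ?_) (fun i => ?_) (hasSum_ones hq).summable
  · exact div_nonneg (dg_nonneg _) (by positivity)
  · exact div_le_div_of_nonneg_right (dg_le _) (by positivity)

lemma P_nonneg (hq : 1 < q) (d : ℕ → Bool) : 0 ≤ P q d :=
  tsum_nonneg fun i => div_nonneg (dg_nonneg _) (by positivity)

lemma P_le (hq : 1 < q) (d : ℕ → Bool) : P q d ≤ 1 / (q - 1) := by
  rw [← (hasSum_ones hq).tsum_eq]
  exact (summable_P hq d).tsum_le_tsum (fun i => div_le_div_of_nonneg_right (dg_le _) (by positivity))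
    (hasSum_ones hq).summable

lemma P_split (hq : 1 < q) (d : ℕ → Bool) (n : ℕ) :
    P q d = ∑ i ∈ Finset.range n, dg (d i) / q ^ (i + 1) + P q (sh n d) / q ^ n := by
  unfold P
  rw [← (summable_P hq d).sum_add_tsum_nat_add n, ← tsum_div_const]
  congr 1
  refine tsum_congr fun i => ?_
  have : q ≠ 0 := by linarith
  rw [sh_apply, div_div, add_comm n i]
  congr 1
  ring

lemma P_succ (hq : 1 < q) (d : ℕ → Bool) : P q d = (dg (d 0) + P q (sh 1 d)) / q := by
  have := P_split hq d 1
  rw [this]
  simp
  ring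

lemma P_compl (hq : 1 < q) (d : ℕ → Bool) : P q (fun i => !d i) = 1 / (q - 1) - P q d := by
  unfold P
  rw [← (hasSum_ones hq).tsum_eq, ← (hasSum_ones hq).summable.tsum_sub (summable_P hq d)]
  refine tsum_congr fun i => ?_
  rw [dg_not]
  ring

end

lemma P_anti {q q' : ℝ} (hq : 1 < q) (hqq : q ≤ q') (d : ℕ → Bool) : P q' d ≤ P q d := by
  refine (summable_P (by linarith) d).tsum_le_tsum (fun i => ?_) (summable_P hq d)
  refine div_le_div_of_nonneg_left (dg_nonneg _) (by positivity) ?_
  exact pow_le_pow_left₀ (by linarith) hqq _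

lemma P_lip {q q' : ℝ} (hq : 1 < q) (hqq : q ≤ q') (d : ℕ → Bool) :
    P q d - P q' d ≤ 1 / (q - 1) - 1 / (q' - 1) := by
  have hq' : 1 < q' := by linarith
  have h := P_anti hq hqq (fun i => !d i)
  rw [P_compl hq, P_compl hq'] at h
  linarith

lemma P_anti_term {q q' : ℝ} (hq : 1 < q) (hqq : q ≤ q') (d : ℕ → Bool) (n : ℕ) (hn : d n = true) :
    P q' d + (1 / q ^ (n + 1) - 1 / q' ^ (n + 1)) ≤ P q d := by
  have hq' : 1 < q' := by linarith
  rw [P_split hq d (n + 1), P_split hq' d (n + 1), Finset.sum_range_succ, Finset.sum_range_succ, hn]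
  have h1 : ∑ i ∈ Finset.range n, dg (d i) / q' ^ (i + 1) ≤
      ∑ i ∈ Finset.range n, dg (d i) / q ^ (i + 1) := by
    refine Finset.sum_le_sum fun i _ => ?_
    refine div_le_div_of_nonneg_left (dg_nonneg _) (by positivity) ?_
    exact pow_le_pow_left₀ (by linarith) hqq _
  have h2 : P q' (sh (n + 1) d) / q' ^ (n + 1) ≤ P q (sh (n + 1) d) / q ^ (n + 1) := by
    refine div_le_div₀ (P_nonneg hq _) (P_anti hq hqq _) (by positivity) ?_
    exact pow_le_pow_left₀ (by linarith) hqq _
  simp only [dg_true]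
  linarith

lemma P_strict {q q' : ℝ} (hq : 1 < q) (hqq : q < q') (d : ℕ → Bool) {n : ℕ} (hn : d n = true) :
    P q' d < P q d := by
  have h := P_anti_term hq hqq.le d n hn
  have : 1 / q' ^ (n + 1) < 1 / q ^ (n + 1) := by
    apply one_div_lt_one_div_of_lt (by positivity)
    exact pow_lt_pow_left₀ hqq (by linarith) (by omega)
  linarith

/-- the condition for unique expansions -/
def Un (q : ℝ) (d : ℕ → Bool) : Prop :=
  ∀ n, (d n = false → P q (sh (n + 1) d) < 1) ∧
    (d n = true → 1 / (q - 1) - 1 < P q (sh (n + 1) d))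

lemma Un.sh {q : ℝ} {d : ℕ → Bool} (h : Un q d) (m : ℕ) : Un q (sh m d) := by
  intro n
  have := h (m + n)
  rw [sh_sh]
  exact this

lemma Un.compl {q : ℝ} (hq : 1 < q) {d : ℕ → Bool} (h : Un q d) : Un q (fun i => !d i) := by
  intro n
  have h1 := h n
  have e : Uni.sh (n + 1) (fun i => !d i) = fun i => !(Uni.sh (n + 1) d i) := rfl
  rw [e, P_compl hq]
  constructor
  · intro hn
    have := h1.2 (by simpa using hn)
    linarith
  · intro hn
    have := h1.1 (by simpa using hn)
    linarith

/-- lexicographic order -/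
def Lt (d e : ℕ → Bool) : Prop := ∃ p, (∀ i < p, d i = e i) ∧ d p = false ∧ e p = true

lemma trich (d e : ℕ → Bool) : d = e ∨ Lt d e ∨ Lt e d := by
  classical
  by_cases h : d = e
  · exact Or.inl h
  · right
    have hex : ∃ p, d p ≠ e p := by
      by_contra hc
      push Not at hc
      exact h (funext hc)
    have h1 := Nat.find_spec hex
    have h2 : ∀ i < Nat.find hex, d i = e i := fun i hi => by
      have := Nat.find_min hex hi
      push Not at this
      exact this
    cases hd : d (Nat.find hex) <;> cases he : e (Nat.find hex)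
    · exact absurd (hd.trans he.symm) h1
    · exact Or.inl ⟨_, h2, hd, he⟩
    · exact Or.inr ⟨_, fun i hi => (h2 i hi).symm, he, hd⟩
    · exact absurd (hd.trans he.symm) h1

/-- values at the first difference -/
lemma diff_eq {q : ℝ} (hq : 1 < q) {d e : ℕ → Bool} {p : ℕ} (h : ∀ i < p, d i = e i) :
    P q e - P q d = (P q (sh p e) - P q (sh p d)) / q ^ p := by
  rw [P_split hq d p, P_split hq e p]
  have : ∑ i ∈ Finset.range p, dg (d i) / q ^ (i + 1) =
      ∑ i ∈ Finset.range p, dg (e i) / q ^ (i + 1) :=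
    Finset.sum_congr rfl fun i hi => by rw [h i (Finset.mem_range.1 hi)]
  rw [this]
  ring

lemma lt_of_left {q : ℝ} (hq : 1 < q) {d e : ℕ → Bool} {p : ℕ} (h : ∀ i < p, d i = e i)
    (hd : d p = false) (he : e p = true) (h1 : P q (sh (p + 1) d) < 1) : P q d < P q e := by
  have h0 := diff_eq hq h
  have h2 : 0 < P q (sh p e) - P q (sh p d) := by
    rw [P_succ hq (sh p e), P_succ hq (sh p d), sh_sh, sh_sh, sh_apply, sh_apply, add_zero, hd, he,
      ← sub_div]
    apply div_pos _ (by linarith)
    have := P_nonneg hq (sh (p + 1) e)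
    simp only [dg_true, dg_false]
    linarith
  have h3 : 0 < (P q (sh p e) - P q (sh p d)) / q ^ p := div_pos h2 (by positivity)
  linarith

lemma lt_of_right {q : ℝ} (hq : 1 < q) {d e : ℕ → Bool} {p : ℕ} (h : ∀ i < p, d i = e i)
    (hd : d p = false) (he : e p = true) (h1 : 1 / (q - 1) - 1 < P q (sh (p + 1) e)) :
    P q d < P q e := by
  have h0 := diff_eq hq h
  have h2 : 0 < P q (sh p e) - P q (sh p d) := by
    rw [P_succ hq (sh p e), P_succ hq (sh p d), sh_sh, sh_sh, sh_apply, sh_apply, add_zero, hd, he,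
      ← sub_div]
    apply div_pos _ (by linarith)
    have := P_le hq (sh (p + 1) d)
    simp only [dg_true, dg_false]
    linarith
  have h3 : 0 < (P q (sh p e) - P q (sh p d)) / q ^ p := div_pos h2 (by positivity)
  linarith

lemma Un.lt_left {q : ℝ} (hq : 1 < q) {d e : ℕ → Bool} (hd : Un q d) (h : Lt d e) :
    P q d < P q e := by
  obtain ⟨p, h1, h2, h3⟩ := h
  exact lt_of_left hq h1 h2 h3 ((hd p).1 h2)

lemma Un.lt_right {q : ℝ} (hq : 1 < q) {d e : ℕ → Bool} (he : Un q e) (h : Lt d e) :
    P q d < P q e := by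
  obtain ⟨p, h1, h2, h3⟩ := h
  exact lt_of_right hq h1 h2 h3 ((he p).2 h3)

/-- existence of expansions -/
lemma exists_exp {q y : ℝ} (hq : 1 < q) (hq2 : q ≤ 2) (h0 : 0 ≤ y) (h1 : y ≤ 1 / (q - 1)) :
    ∃ d, P q d = y := by
  have hq1 : 0 < q - 1 := by linarith
  let r : ℕ → ℝ := fun n => Nat.rec y (fun _ s => q * s - dg (decide (1 ≤ q * s))) n
  have hr : ∀ n, r (n + 1) = q * r n - dg (decide (1 ≤ q * r n)) := fun n => rfl
  have hinv : ∀ n, 0 ≤ r n ∧ r n ≤ 1 / (q - 1) := by
    intro n
    induction n with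
    | zero => exact ⟨h0, h1⟩
    | succ n ih =>
      rw [hr]
      have h2 : q * r n ≤ q / (q - 1) := by
        calc q * r n ≤ q * (1 / (q - 1)) := mul_le_mul_of_nonneg_left ih.2 (by linarith)
          _ = q / (q - 1) := by ring
      have h3 : q / (q - 1) - 1 = 1 / (q - 1) := by field_simp; ring
      by_cases h : 1 ≤ q * r n
      · rw [decide_eq_true h, dg_true]
        exact ⟨by linarith, by linarith⟩
      · rw [decide_eq_false h, dg_false]
        push Not at h
        have h4 : 1 ≤ 1 / (q - 1) := by rw [le_div_iff₀ hq1]; linarith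
        exact ⟨by have := mul_nonneg (show 0 ≤ q by linarith) ih.1; linarith, by linarith⟩
  have hsum : ∀ n, ∑ i ∈ Finset.range n, dg (decide (1 ≤ q * r i)) / q ^ (i + 1) =
      y - r n / q ^ n := by
    intro n
    induction n with
    | zero => simp [r]
    | succ n ih =>
      rw [Finset.sum_range_succ, ih, hr]
      have : q ≠ 0 := by linarith
      field_simp
      ring
  refine ⟨fun n => decide (1 ≤ q * r n), ?_⟩
  have hlim : Tendsto (fun n => r n / q ^ n) atTop (𝓝 0) := by
    have h5 : Tendsto (fun n : ℕ => (1 / (q - 1)) * (1 / q) ^ n) atTop (𝓝 ((1 / (q - 1)) * 0)) :=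
      (tendsto_pow_atTop_nhds_zero_of_lt_one (by positivity)
        (by rw [div_lt_one (by linarith)]; exact hq)).const_mul _
    rw [mul_zero] at h5
    refine squeeze_zero (fun n => div_nonneg (hinv n).1 (by positivity)) (fun n => ?_) h5
    rw [one_div_pow, mul_one_div]
    exact div_le_div_of_nonneg_right (hinv n).2 (by positivity)
  have h6 : HasSum (fun i : ℕ => dg (decide (1 ≤ q * r i)) / q ^ (i + 1)) y := by
    rw [hasSum_iff_tendsto_nat_of_nonneg (fun i => div_nonneg (dg_nonneg _) (by positivity))]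
    have h7 : Tendsto (fun n => y - r n / q ^ n) atTop (𝓝 (y - 0)) := tendsto_const_nhds.sub hlim
    rw [sub_zero] at h7
    exact h7.congr fun n => (hsum n).symm
  exact h6.tsum_eq

lemma Un.unique {q : ℝ} (hq : 1 < q) {d e : ℕ → Bool} (hd : Un q d) (h : P q d = P q e) :
    d = e := by
  rcases trich d e with h1 | h1 | h1
  · exact h1
  · exact absurd h (hd.lt_left hq h1).ne
  · exact absurd h (hd.lt_right hq h1).ne'

/-- adding a digit in front -/
def cons (b : Bool) (e : ℕ → Bool) : ℕ → Bool := fun i => if i = 0 then b else e (i - 1)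

@[simp] lemma cons_zero (b : Bool) (e : ℕ → Bool) : cons b e 0 = b := rfl

lemma sh_cons (b : Bool) (e : ℕ → Bool) : sh 1 (cons b e) = e := by
  funext i; simp [cons]

lemma P_cons {q : ℝ} (hq : 1 < q) (b : Bool) (e : ℕ → Bool) :
    P q (cons b e) = (dg b + P q e) / q := by
  rw [P_succ hq, sh_cons, cons_zero]

/-- replacing a tail -/
def glue (n : ℕ) (d e : ℕ → Bool) : ℕ → Bool := fun i => if i < n then d i else e (i - n)

lemma glue_lt {n i : ℕ} (d e : ℕ → Bool) (h : i < n) : glue n d e i = d i := by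
  simp [glue, h]

lemma sh_glue (n : ℕ) (d e : ℕ → Bool) : sh n (glue n d e) = e := by
  funext i
  simp [glue]

lemma unique_iff {q x : ℝ} (hq : 1 < q) (hq2 : q ≤ 2) :
    (∃! d, P q d = x) ↔ ∃ d, P q d = x ∧ Un q d := by
  constructor
  · rintro ⟨d, hd, huniq⟩
    refine ⟨d, hd, ?_⟩
    have hq1 : 0 < q - 1 := by linarith
    intro n
    constructor
    · intro hn
      by_contra hc
      push Not at hc
      obtain ⟨e, he⟩ := exists_exp hq hq2 (show 0 ≤ P q (sh (n + 1) d) - 1 by linarith)
        (by have := P_le hq (sh (n + 1) d); linarith)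
      have key := huniq (glue n d (cons true e)) ?_
      · have := congrFun key n
        rw [hn] at this
        simp [glue] at this
      · show P q _ = x
        rw [← hd]
        have h3 := diff_eq hq (d := d) (e := glue n d (cons true e))
          (p := n) (fun i hi => (glue_lt _ _ hi).symm)
        rw [sh_glue, P_cons hq, P_succ hq (sh n d), sh_sh, sh_apply, add_zero, hn, he] at h3
        have h5 : 1 + (P q (sh (n + 1) d) - 1) = 0 + P q (sh (n + 1) d) := by ring
        simp only [dg_false, dg_true, h5, sub_self, zero_div] at h3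
        linarith
    · intro hn
      by_contra hc
      push Not at hc
      obtain ⟨e, he⟩ := exists_exp hq hq2 (show 0 ≤ P q (sh (n + 1) d) + 1 by
        have := P_nonneg hq (sh (n + 1) d); linarith) (by linarith)
      have key := huniq (glue n d (cons false e)) ?_
      · have := congrFun key n
        rw [hn] at this
        simp [glue] at this
      · show P q _ = x
        rw [← hd]
        have h3 := diff_eq hq (d := d) (e := glue n d (cons false e))
          (p := n) (fun i hi => (glue_lt _ _ hi).symm)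
        rw [sh_glue, P_cons hq, P_succ hq (sh n d), sh_sh, sh_apply, add_zero, hn, he] at h3
        have h5 : 0 + (P q (sh (n + 1) d) + 1) = 1 + P q (sh (n + 1) d) := by ring
        simp only [dg_false, dg_true, h5, sub_self, zero_div] at h3
        linarith
  · rintro ⟨d, hd, hU⟩
    exact ⟨d, hd, fun e he => (hU.unique hq (hd.trans he.symm)).symm⟩

end Pool.Agent.R341.Uni
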