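import Pool.Agent.R341.Uni9

set_option autoImplicit false

namespace Pool.Agent.R341.Uni

open Filter Topology

/-- the level set, with the infimum -/
def LvInf (q : ℝ) : Set ℝ := {x | 0 < x ∧ sInf (Ux x) = q}

lemma bdd_Ux (x : ℝ) : BddBelow (Ux x) := ⟨1, fun q hq => hq.1.le⟩

lemma exists_true_of_pos {q : ℝ} {d : ℕ → Bool} (h : 0 < P q d) : ∃ n, d n = true := by
  by_contra hc
  push Not at hc
  have : d = fun _ => false := funext fun m => by simpa using hc m
  rw [this, P_zeros] at h
  exact lt_irrefl _ h

/-- closedness from two properties -/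
theorem closed_of {Q : ℝ} (hQ1 : 1 < Q) (hQ2 : Q < 2)
    (H1 : ∀ q, 1 < q → q < Q → ∀ c, Un q c → ∃ q', 1 < q' ∧ q' < q ∧ Un q' c)
    (H2 : ∀ D, WU Q D → (∀ n, D n = true → 1 / (Q - 1) - 1 < P Q (sh (n + 1) D)) → ¬ Un Q D →
      ∃ q ∈ Ux (P Q D), q < Q) {x : ℝ} (hx : 0 < x) (hcl : x ∈ closure (LvInf Q)) :
    x ∈ LvInf Q := by
  by_contra hxL
  obtain ⟨y, hy1, hy2⟩ := mem_closure_iff_seq_limit.1 hcl
  have hne : ∀ k, y k ≠ x := fun k h => hxL (h ▸ hy1 k)
  -- weak expansions
  have hex : ∀ k, ∃ D, WU Q D ∧ P Q D = y k := fun k => exists_weak hQ1 (hy1 k).2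
  choose D hD1 hD2 using hex
  -- no smaller base on the left side
  have hleft : ∀ q ∈ Ux x, q < Q → ∀ᶠ k in atTop, ¬ y k < x := by
    intro q hq hqQ
    obtain ⟨h1, h2, s, hs, hU⟩ := mem_Ux.1 hq
    obtain ⟨m, hm⟩ := exists_true_of_pos (q := q) (d := s) (by rw [hs]; exact hx)
    have h3 : P Q s < x := by rw [← hs]; exact P_strict h1 hqQ s hm
    filter_upwards [hy2.eventually (lt_mem_nhds h3)] with k hk hlt
    obtain ⟨q', h4, h5, h6⟩ := P_ivt h1 hqQ.le s hk (by rw [hs]; exact hlt)
    have h7 : q' ∈ Ux (y k) := mem_Ux.2 ⟨by linarith, by linarith, s, h6, hU.mono h1 h4.le⟩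
    have h8 := csInf_le (bdd_Ux (y k)) h7
    rw [(hy1 k).2] at h8
    linarith
  have hright : ∀ q ∈ Ux x, q < Q → ∀ᶠ k in atTop, ¬ x < y k := by
    intro q hq hqQ
    obtain ⟨h1, h2, s, hs, hU⟩ := mem_Ux.1 hq
    obtain ⟨q'', h9, h10, h11⟩ := H1 q h1 hqQ s hU
    obtain ⟨m, hm⟩ := exists_true_of_pos (q := q) (d := s) (by rw [hs]; exact hx)
    have h3 : x < P q'' s := by rw [← hs]; exact P_strict h9 h10 s hm
    filter_upwards [hy2.eventually (gt_mem_nhds h3)] with k hk hlt
    obtain ⟨q', h4, h5, h6⟩ := P_ivt h9 h10.le s (by rw [hs]; exact hlt) hk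
    have h7 : q' ∈ Ux (y k) := mem_Ux.2 ⟨by linarith, by linarith, s, h6, h11.mono h9 h4.le⟩
    have h8 := csInf_le (bdd_Ux (y k)) h7
    rw [(hy1 k).2] at h8
    linarith
  have hlow : ∀ q ∈ Ux x, Q ≤ q := by
    intro q hq
    by_contra hlt
    push Not at hlt
    obtain ⟨k, hk1, hk2⟩ := ((hleft q hq hlt).and (hright q hq hlt)).exists
    rcases lt_trichotomy (y k) x with h | h | h
    · exact hk1 h
    · exact hne k h
    · exact hk2 h
  -- upper bound
  have hup : ∀ δ : ℝ, 0 < δ → ∃ q ∈ Ux x, q < Q + δ := by
    intro δ hδ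
    by_cases hfr : ∃ᶠ k in atTop, y k < x
    · -- from the left
      obtain ⟨φ, hφ, hφ2⟩ := extraction_of_frequently_atTop hfr
      obtain ⟨D0, ψ, hψ, hD0⟩ := CompactSpace.tendsto_subseq (fun k => D (φ k))
      have hW : WU Q D0 := WU.lim hQ1 tendsto_const_nhds hD0 fun k => hD1 _
      have hP : P Q D0 = x := by
        have h1 := P_tendsto hQ1 (tendsto_const_nhds (x := Q)) hD0
        refine tendsto_nhds_unique h1 ?_
        have h2 : Tendsto (fun k => y (φ (ψ k))) atTop (𝓝 x) :=
          hy2.comp (hφ.tendsto_atTop.comp hψ.tendsto_atTop)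
        exact h2.congr fun k => (hD2 _).symm
      have hno : ∀ n, D0 n = true → 1 / (Q - 1) - 1 < P Q (sh (n + 1) D0) := by
        intro n hn
        refine lt_of_le_of_ne ((hW n).2 hn) fun heq => ?_
        obtain ⟨k, hk⟩ := (agree_eventually hD0 (n + 1)).exists
        have h1 := diff_eq hQ1 (d := D (φ (ψ k))) (e := D0) (p := n + 1) (fun i hi => hk i hi)
        have h2 := (hD1 (φ (ψ k)) n).2 (by
          have h3 := hk n (by omega)
          simp only [Function.comp] at h3
          rw [h3]; exact hn)
        have h4 : (P Q (sh (n + 1) D0) - P Q (sh (n + 1) (D (φ (ψ k))))) / Q ^ (n + 1) ≤ 0 :=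
          div_nonpos_of_nonpos_of_nonneg (by linarith) (by positivity)
        rw [hP, hD2] at h1
        have := hφ2 (ψ k)
        linarith
      by_cases hU : Un Q D0
      · exact ⟨Q, mem_Ux.2 ⟨hQ1, hQ2.le, D0, hP, hU⟩, by linarith⟩
      · obtain ⟨q, hq, hqQ⟩ := H2 D0 hW hno hU
        rw [hP] at hq
        exact ⟨q, hq, by linarith⟩
    · -- from the right
      rw [not_frequently] at hfr
      obtain ⟨D0, ψ, hψ, hD0⟩ := CompactSpace.tendsto_subseq D
      have hP : P Q D0 = x := by
        have h1 := P_tendsto hQ1 (tendsto_const_nhds (x := Q)) hD0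
        refine tendsto_nhds_unique h1 ?_
        have h2 : Tendsto (fun k => y (ψ k)) atTop (𝓝 x) := hy2.comp hψ.tendsto_atTop
        exact h2.congr fun k => (hD2 _).symm
      obtain ⟨q1, hq1, hq12⟩ := exists_between (lt_min hQ2 (show Q < Q + δ by linarith))
      have hq1' : 1 < q1 := by linarith
      obtain ⟨m, hm⟩ := exists_true_of_pos (q := Q) (d := D0) (by rw [hP]; exact hx)
      have h3 : P q1 D0 < x := by rw [← hP]; exact P_strict hQ1 hq1 D0 hm
      have h4 := P_tendsto hq1' (tendsto_const_nhds (x := q1)) hD0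
      have h5 := h4.eventually (gt_mem_nhds h3)
      have h6 := hψ.tendsto_atTop.eventually hfr
      obtain ⟨k, hk1, hk2⟩ := (h5.and h6).exists
      have hk3 : x < y (ψ k) := lt_of_le_of_ne (not_lt.1 hk2) (hne _).symm
      obtain ⟨q, h7, h8, h9⟩ := P_ivt hQ1 hq1.le (D (ψ k)) hk1 (by rw [hD2]; exact hk3)
      refine ⟨q, mem_Ux.2 ⟨by linarith, ?_, D (ψ k), h9, (hD1 _).un hQ1 h7⟩, ?_⟩
      · have := min_le_left 2 (Q + δ); linarith
      · have := min_le_right 2 (Q + δ); linarith
  apply hxL
  refine ⟨hx, le_antisymm ?_ ?_⟩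
  · refine le_of_forall_pos_lt_add fun δ hδ => ?_
    obtain ⟨q, hq, hq2⟩ := hup δ hδ
    exact lt_of_le_of_lt (csInf_le (bdd_Ux x) hq) hq2
  · obtain ⟨q, hq, _⟩ := hup 1 one_pos
    exact le_csInf ⟨q, hq⟩ hlow

/-- a variant of `lexnum` -/
lemma lexnum2 {q : ℝ} (hq : 1 < q) {t c : ℕ → Bool} (ht : t 0 = false)
    (h1 : P q (sh 1 t) < 1)
    (hc : ∀ m, Kp t (sh m c) ∨ ∀ i, xor (c (m + i)) (c m) = t i) : Un q c := by
  have half : ∀ c : ℕ → Bool, (∀ m, Kp t (sh m c) ∨ ∀ i, xor (c (m + i)) (c m) = t i) →
      ∀ n, c n = false → P q (sh (n + 1) c) ≤ P q (sh 1 t) := by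
    intro c hc
    have hA : 0 < 1 / (q - 1) := by
      apply one_div_pos.2; linarith
    have aux : ∀ N n, c n = false → P q (sh (n + 1) c) - P q (sh 1 t) ≤ (1 / (q - 1)) / q ^ N := by
      intro N
      induction N with
      | zero =>
        intro n _
        have := P_le hq (sh (n + 1) c)
        have := P_nonneg hq (sh 1 t)
        simp only [pow_zero, div_one]
        linarith
      | succ N ih =>
        intro n hn
        rcases hc n with hk | hk
        · obtain ⟨k, hk1, hk2, hk3⟩ := hk
          have hk0 : 1 ≤ k := by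
            rcases Nat.eq_zero_or_pos k with rfl | h0
            · rw [ht] at hk3; exact absurd hk3 (by decide)
            · exact h0
          obtain ⟨k', rfl⟩ : ∃ k', k = k' + 1 := ⟨k - 1, by omega⟩
          have hck : c (n + (k' + 1)) = false := by
            simpa [hn] using hk2
          have h := diff_eq hq (d := sh (n + 1) c) (e := sh 1 t) (p := k') (fun i hi => by
            have := hk1 (i + 1) (by omega)
            simp only [sh_apply, add_zero, hn, Bool.xor_false] at this
            simp only [sh_apply]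
            rw [show n + 1 + i = n + (i + 1) by ring, this, add_comm 1 i])
          rw [sh_sh, sh_sh, P_succ hq (sh (1 + k') t), P_succ hq (sh (n + 1 + k') c), sh_sh,
            sh_sh, sh_apply, sh_apply, add_zero, add_zero, show 1 + k' = k' + 1 by ring, hk3,
            show n + 1 + k' = n + (k' + 1) by ring, hck] at h
          simp only [dg_true, dg_false] at h
          have h2 := ih (n + (k' + 1)) hck
          have h3 := P_nonneg hq (sh (k' + 1 + 1) t)
          have e1 : P q (sh (n + 1) c) - P q (sh 1 t) =
              (P q (sh (n + (k' + 1) + 1) c) - 1 - P q (sh (k' + 1 + 1) t)) / q ^ (k' + 1) := by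
            have hq0 : q ≠ 0 := by linarith
            rw [pow_succ]
            field_simp at h ⊢
            linarith
          rw [e1]
          have hqk : q ≤ q ^ (k' + 1) := by
            calc q = q ^ 1 := (pow_one q).symm
              _ ≤ q ^ (k' + 1) := pow_le_pow_right₀ hq.le (by omega)
          rw [div_le_iff₀ (by positivity)]
          calc P q (sh (n + (k' + 1) + 1) c) - 1 - P q (sh (k' + 1 + 1) t) ≤ 1 / (q - 1) / q ^ N := by
                linarith
            _ = 1 / (q - 1) / q ^ (N + 1) * q := by
                have : q ≠ 0 := by linarith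
                have : q - 1 ≠ 0 := by linarith
                rw [pow_succ]; field_simp
            _ ≤ 1 / (q - 1) / q ^ (N + 1) * q ^ (k' + 1) :=
                mul_le_mul_of_nonneg_left hqk (by positivity)
        · have : sh (n + 1) c = sh 1 t := by
            funext i
            have := hk (1 + i)
            rw [hn, Bool.xor_false] at this
            rw [sh_apply, sh_apply, ← this, add_assoc]
          rw [this, sub_self]
          positivity
    intro n hn
    have hlim : Tendsto (fun N : ℕ => (1 / (q - 1)) / q ^ N) atTop (𝓝 0) := by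
      have h5 : Tendsto (fun n : ℕ => (1 / (q - 1)) * (1 / q) ^ n) atTop
          (𝓝 ((1 / (q - 1)) * 0)) :=
        (tendsto_pow_atTop_nhds_zero_of_lt_one (by positivity)
          (by rw [div_lt_one (by linarith)]; exact hq)).const_mul _
      rw [mul_zero] at h5
      refine h5.congr fun n => ?_
      rw [one_div_pow, mul_one_div]
    have := ge_of_tendsto' hlim (fun N => aux N n hn)
    linarith
  intro n
  refine ⟨fun hn => lt_of_le_of_lt (half c hc n hn) h1, fun hn => ?_⟩
  have hcc : ∀ m, Kp t (sh m (fun i => !c i)) ∨ ∀ i, xor (!c (m + i)) (!c m) = t i := by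
    intro m
    rcases hc m with h | h
    · exact Or.inl h.compl
    · exact Or.inr fun i => by simpa using h i
  have h2 := half (fun i => !c i) hcc n (by simpa using hn)
  have e : sh (n + 1) (fun i => !c i) = fun i => !(sh (n + 1) c i) := rfl
  rw [e, P_compl hq] at h2
  linarith

/-- the periodic sequence of a good prefix is weakly admissible -/
lemma periodic_weak {t : ℕ → Bool} (h : Adm t) {M : ℕ} (hM : 1 ≤ M) (hg : Good t M) (m : ℕ) :
    Kp (fun i => t (i % M)) (sh m (fun i => t (i % M))) ∨
      ∀ i, xor ((fun i => t (i % M)) (m + i)) ((fun i => t (i % M)) m) = (fun i => t (i % M)) i := by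
  -- reduction to `m < M`
  have hred : ∀ i, (m + i) % M = (m % M + i) % M := fun i => by rw [Nat.mod_add_mod]
  have hred0 : m % M % M = m % M := Nat.mod_mod _ _
  suffices hs : ∀ o, o < M → (Kp (fun i => t (i % M)) (sh o (fun i => t (i % M))) ∨
      ∀ i, xor ((fun i => t (i % M)) (o + i)) ((fun i => t (i % M)) o) = (fun i => t (i % M)) i) by
    have h1 := hs (m % M) (Nat.mod_lt _ hM)
    have e : sh m (fun i => t (i % M)) = sh (m % M) (fun i => t (i % M)) := by
      funext i
      simp only [sh_apply]
      rw [hred]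
    rcases h1 with h1 | h1
    · left; rw [e]; exact h1
    · right
      intro i
      have := h1 i
      simp only [hred0] at this ⊢
      rw [hred]; exact this
  intro o ho
  have hmod : ∀ i, i < M → i % M = i := fun i hi => Nat.mod_eq_of_lt hi
  rcases Nat.eq_zero_or_pos o with rfl | ho1
  · right
    intro i
    simp [h.1]
  · obtain ⟨k, hk0, hk1, hk2, hk3, hk4⟩ := h.first ho1
    rcases Nat.lt_or_ge (o + k) M with h5 | h5
    · left
      refine ⟨k, fun i hi => ?_, ?_, ?_⟩
      · simp only [sh_apply, add_zero]
        rw [hmod _ (by omega), hmod _ ho, hmod _ (by omega)]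
        exact hk1 i hi
      · simp only [sh_apply, add_zero]
        rw [hmod _ (by omega), hmod _ ho]
        exact hk2
      · show t (k % M) = true
        rw [hmod _ (by omega)]; exact hk3
    · obtain ⟨r, hr⟩ : ∃ r, M = o + r := ⟨M - o, by omega⟩
      have hr1 : 1 ≤ r := by omega
      have hrk : r ≤ k := by omega
      have htM : t (o + r) = true := by rw [← hr]; exact hg.1
      cases hto : t o
      · rw [hto] at hk1 hk2
        simp only [Bool.xor_false] at hk1 hk2
        have htr : t r = true := by
          rcases Nat.lt_or_ge r k with h6 | h6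
          · rw [← hk1 r h6]; exact htM
          · obtain rfl : r = k := by omega
            exact hk3
        left
        refine ⟨r, fun i hi => ?_, ?_, ?_⟩
        · simp only [sh_apply, add_zero]
          rw [hmod _ (by omega), hmod _ ho, hmod _ (by omega), hto, Bool.xor_false]
          exact hk1 i (by omega)
        · simp only [sh_apply, add_zero]
          rw [← hr, Nat.mod_self, hmod _ ho, hto, h.1]; rfl
        · show t (r % M) = true
          rw [hmod _ (by omega)]; exact htr
      · obtain ⟨j0, hj0, hj0'⟩ := hg.2 o ho1 ho hto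
        have hkr : k = r := by
          have := hk4 j0 hj0'
          omega
        subst hkr
        rw [hto] at hk1 hk2
        simp only [Bool.xor_true] at hk1 hk2
        obtain ⟨k', hk0', hk1', hk2', hk3', hk4'⟩ := h.first hr1
        rw [hk3] at hk1' hk2'
        simp only [Bool.xor_true] at hk1' hk2'
        have hMj : ∀ j, j < o → (o + (k + j)) % M = j := fun j hj => by
          rw [← add_assoc, ← hr, Nat.add_mod_left, hmod _ (by omega)]
        rcases Nat.lt_or_ge (k + k') M with h6 | h6
        · left
          refine ⟨k + k', fun i hi => ?_, ?_, ?_⟩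
          · simp only [sh_apply, add_zero]
            rw [hmod _ ho, hto, Bool.xor_true, hmod i (by omega)]
            rcases Nat.lt_or_ge i k with h7 | h7
            · rw [hmod _ (by omega)]; exact hk1 i h7
            · obtain ⟨i', rfl⟩ : ∃ i', i = k + i' := ⟨i - k, by omega⟩
              rw [hMj i' (by omega), ← hk1' i' (by omega)]
              simp
          · simp only [sh_apply, add_zero]
            rw [hmod _ ho, hto, hMj k' (by omega), hk3']; rfl
          · show t ((k + k') % M) = true
            rw [hmod _ h6]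
            simpa using hk2'
        · right
          -- equality on one period
          have hper : ∀ j, j < M → (!t ((o + j) % M)) = t j := by
            intro j hj
            rcases Nat.lt_trichotomy j k with h7 | h7 | h7
            · rw [hmod _ (by omega)]; exact hk1 j h7
            · subst h7
              rw [← hr, Nat.mod_self, h.1, hk3]; rfl
            · obtain ⟨i', rfl⟩ : ∃ i', j = k + i' := ⟨j - k, by omega⟩
              rw [hMj i' (by omega), ← hk1' i' (by omega)]
              simp
          intro i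
          simp only
          rw [hmod _ ho, hto, Bool.xor_true, ← hper (i % M) (Nat.mod_lt _ hM), Nat.add_mod_mod]

end Pool.Agent.R341.Uni
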