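import Pool.Agent.R341.Uni10

set_option autoImplicit false

namespace Pool.Agent.R341.Uni

open Filter Topology

/-- from numerical conditions at one place to `Kp` -/
lemma kp_of_num {q : ℝ} (hq : 1 < q) {t : ℕ → Bool} (ht : t 0 = false) (h1 : P q (sh 1 t) = 1)
    (hU : Un q (sh 1 t)) {c : ℕ → Bool} (h0 : c 0 = false → P q (sh 1 c) < 1)
    (h1' : c 0 = true → 1 / (q - 1) - 1 < P q (sh 1 c)) : Kp t c := by
  have aux : ∀ c : ℕ → Bool, c 0 = false → P q (sh 1 c) < 1 → Kp t c := by
    intro c hc hlt
    have h3 : Lt (sh 1 c) (sh 1 t) := by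
      rcases trich (sh 1 c) (sh 1 t) with h | h | h
      · rw [h, h1] at hlt; exact absurd hlt (lt_irrefl _)
      · exact h
      · have := hU.lt_left hq h
        linarith
    obtain ⟨p, hp1, hp2, hp3⟩ := h3
    refine ⟨p + 1, fun i hi => ?_, ?_, ?_⟩
    · rcases Nat.eq_zero_or_pos i with rfl | hi0
      · simp [ht]
      · obtain ⟨i', rfl⟩ : ∃ i', i = i' + 1 := ⟨i - 1, by omega⟩
        have := hp1 i' (by omega)
        simp only [sh_apply] at this
        rw [hc, Bool.xor_false, add_comm i' 1, this]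
    · rw [hc, Bool.xor_false, add_comm p 1]; exact hp2
    · rw [add_comm p 1]; exact hp3
  cases hc : c 0
  · exact aux c hc (h0 hc)
  · have h2 := aux (fun i => !c i) (by simp [hc]) (by
      have e : sh 1 (fun i => !c i) = fun i => !(sh 1 c i) := rfl
      rw [e, P_compl hq]
      have := h1' hc
      linarith)
    have := h2.compl
    simpa using this

/-- an element of `Ux 1` is approximated from the left -/
theorem H2_of {Q : ℝ} (hQ1 : 1 < Q) (hQ2 : Q < 2) {t : ℕ → Bool} (ht : Adm t)
    (hα : P Q (sh 1 t) = 1) (hUα : Un Q (sh 1 t)) (D : ℕ → Bool) (hD : WU Q D)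
    (hD1 : ∀ n, D n = true → 1 / (Q - 1) - 1 < P Q (sh (n + 1) D)) (hD2 : ¬ Un Q D) :
    ∃ q ∈ Ux (P Q D), q < Q := by
  classical
  have hex : ∃ n, D n = false ∧ P Q (sh (n + 1) D) = 1 := by
    by_contra hc
    push Not at hc
    exact hD2 fun n => ⟨fun hn => lt_of_le_of_ne ((hD n).1 hn) (hc n hn), hD1 n⟩
  obtain ⟨hn1, hn2⟩ := Nat.find_spec hex
  have hmin : ∀ j < Nat.find hex, D j = false → P Q (sh (j + 1) D) < 1 := fun j hj hj2 => by
    refine lt_of_le_of_ne ((hD j).1 hj2) fun h => ?_
    exact Nat.find_min hex hj ⟨hj2, h⟩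
  set n := Nat.find hex with hn
  -- the tail is `t`
  have htail : sh (n + 1) D = sh 1 t := (hUα.unique hQ1 (hα.trans hn2.symm)).symm
  have hDt : ∀ i, D (n + i) = t i := by
    intro i
    rcases Nat.eq_zero_or_pos i with rfl | hi
    · rw [add_zero, hn1, ht.1]
    · obtain ⟨i', rfl⟩ : ∃ i', i = i' + 1 := ⟨i - 1, by omega⟩
      have := congrFun htail i'
      simp only [sh_apply] at this
      rw [show n + (i' + 1) = n + 1 + i' by ring, this, add_comm 1 i']
  -- witnesses for the positions before `n`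
  have hkp : ∀ j < n, Kp t (sh j D) := fun j hj => by
    refine kp_of_num hQ1 ht.1 hα hUα (fun h => ?_) (fun h => ?_)
    · rw [sh_sh]; exact hmin j hj (by simpa using h)
    · rw [sh_sh]; exact hD1 j (by simpa using h)
  have hbound : ∃ B, ∀ j < n, ∃ k < B, (∀ i < k, xor (sh j D i) (sh j D 0) = t i) ∧
      xor (sh j D k) (sh j D 0) = false ∧ t k = true := by
    choose! k hk using hkp
    refine ⟨(Finset.range n).sup k + 1, fun j hj => ⟨k j, ?_, hk j hj⟩⟩
    have := Finset.le_sup (f := k) (Finset.mem_range.2 hj)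
    omega
  obtain ⟨B, hB⟩ := hbound
  -- the intermediate base
  obtain ⟨q1, hq11, hq1Q⟩ := exists_between hQ1
  have hδ : 1 < P q1 (sh 1 t) := by
    rw [← hα]
    exact P_strict hq11 hq1Q _ (n := 0) ht.t1
  obtain ⟨B', hB'⟩ : ∃ B : ℕ, ∀ n, B ≤ n → 1 / (q1 - 1) / q1 ^ n < P q1 (sh 1 t) - 1 := by
    have hlim : Filter.Tendsto (fun n : ℕ => 1 / (q1 - 1) / q1 ^ n) Filter.atTop (nhds 0) := by
      have h5 : Filter.Tendsto (fun n : ℕ => (1 / (q1 - 1)) * (1 / q1) ^ n) Filter.atTop
          (nhds ((1 / (q1 - 1)) * 0)) :=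
        (tendsto_pow_atTop_nhds_zero_of_lt_one (by positivity)
          (by rw [div_lt_one (by linarith)]; exact hq11)).const_mul _
      rw [mul_zero] at h5
      refine h5.congr fun n => ?_
      rw [one_div_pow, mul_one_div]
    have := hlim.eventually (gt_mem_nhds (show 0 < P q1 (sh 1 t) - 1 by linarith))
    rw [Filter.eventually_atTop] at this
    exact this
  obtain ⟨M, hM1, hM2⟩ := exists_good' ht (max (B' + 1) (max B 2))
  have e1 : B' + 1 ≤ M := le_trans (le_max_left _ _) hM1
  have e2 : B ≤ M := le_trans (le_trans (le_max_left _ _) (le_max_right _ _)) hM1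
  have e3 : 2 ≤ M := le_trans (le_trans (le_max_right _ _) (le_max_right _ _)) hM1
  -- the periodic sequence
  set t' : ℕ → Bool := fun i => t (i % M) with ht'
  have ht'0 : t' 0 = false := by simp [ht', ht.1]
  have ht's : ∀ j, j < M → t' j = t j := fun j hj => by
    show t (j % M) = t j
    rw [Nat.mod_eq_of_lt hj]
  have ht'M : t' M = false := by
    show t (M % M) = false
    rw [Nat.mod_self]; exact ht.1
  have hlow : P Q (sh 1 t') < 1 := by
    rw [← hα]
    refine hUα.lt_right hQ1 ⟨M - 1, fun i hi => ?_, ?_, ?_⟩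
    · rw [sh_apply, sh_apply, ht's _ (by omega)]
    · rw [sh_apply, show 1 + (M - 1) = M by omega]; exact ht'M
    · rw [sh_apply, show 1 + (M - 1) = M by omega]; exact hM2.1
  have hup : 1 < P q1 (sh 1 t') := by
    have h1 : P q1 (sh 1 t) ≤ P q1 (sh 1 t') + 1 / (q1 - 1) / q1 ^ (M - 1) := by
      refine P_agree hq11 fun i hi => ?_
      rw [sh_apply, sh_apply, ht's _ (by omega)]
    have h2 := hB' (M - 1) (by omega)
    linarith
  obtain ⟨qm, h1, h2, h3⟩ := P_ivt hq11 hq1Q.le (sh 1 t') hlow hup
  have hqm1 : 1 < qm := by linarith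
  -- the approximating sequence
  set E := glue n D t' with hE
  set F := glue n D (cons true (fun _ => false)) with hF
  have hEF : ∀ q, 1 < q → P q E = P q F + (P q (sh 1 t') - 1) / q ^ (n + 1) := by
    intro q hq
    have h4 := diff_eq hq (d := F) (e := E) (p := n) (fun i hi => by
      rw [hF, hE, glue_lt _ _ hi, glue_lt _ _ hi])
    rw [hF, hE, sh_glue, sh_glue, P_cons hq, P_zeros, P_succ hq t', ht'0, ← hF, ← hE, dg_true,
      dg_false] at h4
    have hq0 : q ≠ 0 := by linarith
    rw [pow_succ]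
    field_simp at h4 ⊢
    linarith
  have hDF : P Q D = P Q F := by
    have h4 := diff_eq hQ1 (d := F) (e := D) (p := n) (fun i hi => by rw [hF, glue_lt _ _ hi])
    have h5 : sh n D = t := funext hDt
    rw [hF, sh_glue, P_cons hQ1, P_zeros, h5, P_succ hQ1 t, ht.1, hα, ← hF, dg_true,
      dg_false] at h4
    have : (1 + 0 : ℝ) / Q = (0 + 1) / Q := by ring
    rw [this, sub_self, zero_div] at h4
    linarith
  have hFn : F n = true := by rw [hF]; simp [glue]
  have hE1 : P Q E < P Q D := by
    rw [hEF Q hQ1, hDF]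
    have : (P Q (sh 1 t') - 1) / Q ^ (n + 1) < 0 :=
      div_neg_of_neg_of_pos (by linarith) (by positivity)
    linarith
  have hE2 : P Q D < P qm E := by
    rw [hEF qm hqm1, hDF, h3, sub_self, zero_div, add_zero]
    exact P_strict hqm1 h2 F hFn
  obtain ⟨q, h5, h6, h7⟩ := P_ivt hqm1 h2.le E hE1 hE2
  have hq1 : 1 < q := by linarith
  refine ⟨q, mem_Ux.2 ⟨hq1, by linarith, E, h7, ?_⟩, h6⟩
  refine lexnum2 hq1 ht'0 ?_ fun m => ?_
  · rw [← h3]
    refine P_strict hqm1 h5 _ (n := 0) ?_
    rw [sh_apply, ht's _ (by omega)]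
    exact ht.t1
  · rcases Nat.lt_or_ge m n with h8 | h8
    · left
      obtain ⟨k, hkB, hk1, hk2, hk3⟩ := hB m h8
      have hED : ∀ i, i < n + M → E i = D i := by
        intro i hi
        rcases Nat.lt_or_ge i n with h9 | h9
        · rw [hE, glue_lt _ _ h9]
        · obtain ⟨i', rfl⟩ : ∃ i', i = n + i' := ⟨i - n, by omega⟩
          have := congrFun (sh_glue n D t') i'
          rw [sh_apply, ← hE] at this
          rw [this, hDt, ht's _ (by omega)]
      simp only [sh_apply, add_zero] at hk1 hk2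
      refine ⟨k, fun i hi => ?_, ?_, ?_⟩
      · simp only [sh_apply, add_zero]
        rw [hED _ (by omega), hED _ (by omega), ht's _ (by omega)]
        exact hk1 i hi
      · simp only [sh_apply, add_zero]
        rw [hED _ (by omega), hED _ (by omega)]
        exact hk2
      · rw [ht's _ (by omega)]; exact hk3
    · obtain ⟨m', rfl⟩ : ∃ m', m = n + m' := ⟨m - n, by omega⟩
      have hEt : ∀ i, E (n + i) = t' i := fun i => by
        have := congrFun (sh_glue n D t') i
        rw [sh_apply, ← hE] at this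
        exact this
      have h9 := periodic_weak ht (show 1 ≤ M by omega) hM2 m'
      have e : sh (n + m') E = sh m' t' := by
        funext i
        rw [sh_apply, sh_apply, add_assoc, hEt]
      rcases h9 with h9 | h9
      · left
        rw [e]; exact h9
      · right
        intro i
        have := h9 i
        rw [add_assoc, hEt, hEt]
        exact this

/-- an expansion of `1` in a base below the Komornik–Loreti constant -/
lemma KL_weak {Q q : ℝ} (hα : P Q (sh 1 tm) = 1) (hq1 : 1 < q) (hlt : q < Q) {e : ℕ → Bool}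
    (hW : WU q e) (he : P q e = 1) : ∃ M, 1 ≤ M ∧ e (M - 1) = true ∧
      P q (sh M e) = 1 / (q - 1) - 1 := by
  have hα0 : sh 1 tm 0 = true := tm_adm.t1
  have hqα : 1 < P q (sh 1 tm) := by rw [← hα]; exact P_strict hq1 hlt _ hα0
  rcases trich e (sh 1 tm) with h | h | h
  · rw [h] at he; linarith
  · obtain ⟨p, hp1, hp2, hp3⟩ := h
    simp only [sh_apply] at hp1 hp3
    have hafter := (hW p).1 hp2
    have hN0 : p + 1 ≠ 0 := by omega
    have hj1 := Nat.pow_log_le_self 2 hN0
    have hj2 := Nat.lt_pow_succ_log_self (b := 2) (by norm_num) (p + 1)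
    set j := Nat.log 2 (p + 1) with hj
    obtain ⟨i, hi⟩ : ∃ i, p + 1 = 2 ^ j + i := ⟨p + 1 - 2 ^ j, by omega⟩
    have hi2 : i < 2 ^ j := by rw [pow_succ] at hj2; omega
    rcases Nat.eq_zero_or_pos i with rfl | hi0
    · rcases Nat.eq_zero_or_pos j with hj0 | hj0
      · rw [hj0] at hi
        have hp0 : p = 0 := by simpa using hi
        subst hp0
        have h1 := P_succ hq1 e
        rw [he, hp2, dg_false, zero_add, eq_div_iff (by linarith)] at h1
        simp only [zero_add] at hafter
        linarith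
      · obtain ⟨j', hj'⟩ : ∃ j', j = j' + 1 := ⟨j - 1, by omega⟩
        rw [hj', pow_succ] at hi
        set M := 2 ^ j' with hM
        have hM1 : 1 ≤ M := Nat.one_le_two_pow
        have hp : p = 2 * M - 1 := by omega
        have hcompl : ∀ i < M, e (M + i) = !e i := by
          intro i hi'
          rcases Nat.lt_or_ge (i + 1) M with h5 | h5
          · rw [hp1 _ (by omega), hp1 _ (by omega), show 1 + (M + i) = M + (1 + i) by ring,
              hM, tm_add_pow j' (1 + i) (by omega)]
          · obtain rfl : i = M - 1 := by omega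
            rw [show M + (M - 1) = p by omega, hp2, hp1 _ (by omega),
              show 1 + (M - 1) = M by omega, hM, tm_pow]
            rfl
        have hsM : e (M - 1) = true := by
          rw [hp1 _ (by omega), show 1 + (M - 1) = M by omega, hM, tm_pow]
        have hB := (hW (M - 1)).2 hsM
        refine ⟨M, hM1, hsM, ?_⟩
        rw [show M - 1 + 1 = M by omega] at hB
        have h1 := P_split hq1 e M
        have h2 := P_split hq1 (sh M e) M
        have h3 := P_split hq1 (fun _ => true) M
        rw [show sh M (fun _ => true) = fun _ => true from rfl, P_ones hq1] at h3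
        rw [sh_sh, show M + M = p + 1 by omega] at h2
        rw [he] at h1
        have h4 : ∑ i ∈ Finset.range M, dg (sh M e i) / q ^ (i + 1) =
            ∑ i ∈ Finset.range M, dg true / q ^ (i + 1) -
              ∑ i ∈ Finset.range M, dg (e i) / q ^ (i + 1) := by
          rw [← Finset.sum_sub_distrib]
          refine Finset.sum_congr rfl fun i hi' => ?_
          rw [sh_apply, hcompl i (Finset.mem_range.1 hi'), dg_not, dg_true]
          ring
        rw [h4] at h2
        generalize ∑ i ∈ Finset.range M, dg (e i) / q ^ (i + 1) = a at h1 h2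
        generalize ∑ i ∈ Finset.range M, dg true / q ^ (i + 1) = c at h2 h3
        generalize P q (sh M e) = Bv at h1 h2 hB ⊢
        generalize P q (sh (p + 1) e) = V at h2 hafter
        generalize 1 / (q - 1) = A at h3 hB ⊢
        have hρ : 1 < q ^ M := one_lt_pow₀ hq1 (by omega)
        generalize q ^ M = R at h1 h2 h3 hρ
        have hR : (0 : ℝ) < R := by linarith
        have hid : 1 = (1 - 1 / R) * (A - Bv) + V / R := by
          have e1 : a = c + V / R - Bv := by linarith
          have e2 : c = A - A / R := by linarith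
          rw [e1, e2] at h1
          have e3 : (1 - 1 / R) * (A - Bv) + V / R = A - A / R + V / R - Bv + Bv / R := by ring
          linarith
        have h5 : 1 / R < 1 := by rw [div_lt_one hR]; exact hρ
        have h6 : V / R ≤ 1 / R := div_le_div_of_nonneg_right hafter hR.le
        have h7 : 1 ≤ A - Bv := by
          by_contra hc
          push Not at hc
          have h8 : (1 - 1 / R) * (A - Bv) < (1 - 1 / R) * 1 :=
            mul_lt_mul_of_pos_left hc (by linarith)
          linarith
        linarith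
    · exfalso
      have hs1 : e (2 ^ j - 1) = true := by
        have : 1 ≤ 2 ^ j := Nat.one_le_two_pow
        rw [hp1 _ (by omega), show 1 + (2 ^ j - 1) = 2 ^ j by omega, tm_pow]
      have hB := (hW (2 ^ j - 1)).2 hs1
      have h2j : 1 ≤ 2 ^ j := Nat.one_le_two_pow
      rw [show 2 ^ j - 1 + 1 = 2 ^ j by omega] at hB
      have h1 : P q (sh (2 ^ j) e) ≤ P q (fun j => !(sh 1 tm) j) := by
        refine wlt_of_left hq1 (p := i - 1) (fun l hl => ?_) ?_ ?_ ?_
        · rw [sh_apply, sh_apply, hp1 _ (by omega), show 1 + (2 ^ j + l) = 2 ^ j + (1 + l) by ring,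
            tm_add_pow j (1 + l) (by omega)]
        · rw [sh_apply, show 2 ^ j + (i - 1) = p by omega]
          exact hp2
        · rw [sh_apply, show 1 + (i - 1) = i by omega, ← tm_add_pow j i hi2, ← hi, add_comm p 1]
          exact hp3
        · rw [sh_sh, show 2 ^ j + (i - 1 + 1) = p + 1 by omega]
          exact hafter
      rw [P_compl hq1] at h1
      linarith
  · exfalso
    obtain ⟨p, hp1, hp2, hp3⟩ := h
    have h1 := wlt_of_right hq1 hp1 hp2 hp3 ((hW p).2 hp3)
    linarith

/-- below the Komornik–Loreti constant, the conditions are open -/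
theorem H1_KL {Q : ℝ} (hα : P Q (sh 1 tm) = 1) (q : ℝ) (hq1 : 1 < q) (hlt : q < Q)
    (c : ℕ → Bool) (hc : Un q c) : ∃ q', 1 < q' ∧ q' < q ∧ Un q' c := by
  by_contra hno
  push Not at hno
  -- bases
  let u : ℕ → ℝ := fun k => q - (q - 1) / ((k : ℝ) + 2)
  have hu1 : ∀ k, 1 < u k := fun k => by
    have h1 : (q - 1) / ((k : ℝ) + 2) < q - 1 := by
      rw [div_lt_iff₀ (by positivity)]
      have : (0 : ℝ) ≤ k := Nat.cast_nonneg k
      nlinarith
    show 1 < q - (q - 1) / ((k : ℝ) + 2)
    linarith
  have hu2 : ∀ k, u k < q := fun k => by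
    have h1 : 0 < (q - 1) / ((k : ℝ) + 2) := div_pos (by linarith) (by positivity)
    show q - (q - 1) / ((k : ℝ) + 2) < q
    linarith
  have hu : Tendsto u atTop (𝓝 q) := by
    have h1 : Tendsto (fun k : ℕ => (q - 1) / ((k : ℝ) + 2)) atTop (𝓝 0) := by
      refine Tendsto.div_atTop tendsto_const_nhds ?_
      exact tendsto_atTop_add_const_right _ _ tendsto_natCast_atTop_atTop
    have h2 : Tendsto (fun k : ℕ => q - (q - 1) / ((k : ℝ) + 2)) atTop (𝓝 (q - 0)) :=
      tendsto_const_nhds.sub h1
    rwa [sub_zero] at h2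
  -- violations
  have hviol : ∀ k, ∃ e : ℕ → Bool, Un q e ∧ 1 ≤ P (u k) e ∧ P q e < 1 := by
    intro k
    have h1 := hno (u k) (hu1 k) (hu2 k)
    unfold Un at h1
    push Not at h1
    obtain ⟨n, hn⟩ := h1
    cases hcn : c n
    · by_cases h2 : P (u k) (sh (n + 1) c) < 1
      · have := (hn fun _ => h2).1
        rw [hcn] at this
        exact absurd this (by decide)
      · exact ⟨sh (n + 1) c, hc.sh _, not_lt.1 h2, (hc n).1 hcn⟩
    · have h3 := (hn fun h => absurd (hcn.symm.trans h) (by decide)).2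
      refine ⟨fun i => !(sh (n + 1) c i), (hc.sh _).compl hq1, ?_, ?_⟩
      · rw [P_compl (hu1 k)]; linarith
      · rw [P_compl hq1]
        have := (hc n).2 hcn
        linarith
  choose e he1 he2 he3 using hviol
  obtain ⟨e0, φ, hφ, he0⟩ := CompactSpace.tendsto_subseq e
  have hW : WU q e0 := WU.lim hq1 (tendsto_const_nhds (x := q)) he0 fun k => (he1 _).wu
  have hP : P q e0 = 1 := by
    apply le_antisymm
    · exact le_of_tendsto' (P_tendsto hq1 (tendsto_const_nhds (x := q)) he0) fun k => (he3 _).le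
    · exact ge_of_tendsto' (P_tendsto hq1 (hu.comp hφ.tendsto_atTop) he0) fun k => he2 _
  obtain ⟨M, hM1, hM2, hM3⟩ := KL_weak hα hq1 hlt hW hP
  obtain ⟨k, hk⟩ := (agree_eventually he0 M).exists
  simp only [Function.comp] at hk
  have h4 := (he1 (φ k) (M - 1)).2 (by rw [hk _ (by omega)]; exact hM2)
  rw [show M - 1 + 1 = M by omega] at h4
  have h5 := diff_eq hq1 (d := e (φ k)) (e := e0) (p := M) (fun i hi => hk i hi)
  have h6 := he3 (φ k)
  have h7 : (P q (sh M e0) - P q (sh M (e (φ k)))) / q ^ M < 0 :=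
    div_neg_of_neg_of_pos (by linarith) (by positivity)
  linarith

/-- the level set at the Komornik–Loreti constant is closed in `(0, ∞)` -/
theorem closed_KL {Q : ℝ} (hQ1 : 1.7 ≤ Q) (hQ2 : Q ≤ 1.85) (hα : P Q (sh 1 tm) = 1) {x : ℝ}
    (hx : 0 < x) (hcl : x ∈ closure (LvInf Q)) : x ∈ LvInf Q := by
  have hQ0 : 1 < Q := by linarith
  have hUα : Un Q (sh 1 tm) := by
    refine lexnum hQ0 tm_zero tm_adm.inf hα fun m => ?_
    rw [sh_sh]
    exact tm_adm.2 _ (by omega)
  exact closed_of hQ0 (by linarith) (fun q h1 h2 c hc => H1_KL hα q h1 h2 c hc)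
    (fun D h1 h2 h3 => H2_of hQ0 (by linarith) tm_adm hα hUα D h1 h2 h3) hx hcl

end Pool.Agent.R341.Uni
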