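import Pool.Agent.R341.Uni11

set_option autoImplicit false

namespace Pool.Agent.R341.Uni

open Filter Topology

lemma phi_lt {q : ℝ} (hq : 1 < q) {s : ℕ → Bool} (hU : Un q s) {m : ℕ} (h1 : s m = true)
    (h0 : s (m + 1) = false) : 1.6 < q := by
  have h2 := (hU m).2 h1
  have h3 := (hU (m + 1)).1 h0
  rw [P_succ hq, sh_sh, sh_apply, add_zero, h0, dg_false, zero_add] at h2
  have h4 : P q (sh (m + 1 + 1) s) / q < 1 / q := div_lt_div_of_pos_right h3 (by linarith)
  have h5 : 1 / (q - 1) - 1 < 1 / q := by linarith
  by_contra hc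
  push Not at hc
  have h6 : 1 / q ≤ 1 / (q - 1) - 1 := by
    have e : 1 / (q - 1) - 1 = (2 - q) / (q - 1) := by
      have : q - 1 ≠ 0 := by linarith
      field_simp
      ring
    rw [e, div_le_div_iff₀ (by linarith) (by linarith)]
    nlinarith
  linarith

/-- no smaller base, general form -/
theorem no_lower2 {Q : ℝ} (hQ1 : 1 < Q) (hQ2 : Q < 2) {t : ℕ → Bool} (ht : Adm t)
    (hα : P Q (sh 1 t) = 1) {N0 : ℕ} {d : ℕ → Bool}
    (hy : ∀ q ∈ Ux (P Q (glue N0 d (fun j => !t j))), Q ≤ q) {C : ℕ} (hC : 9 ≤ (2 - Q) * Q ^ C)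
    {n : ℕ → ℕ} (hn : ∀ i, 1 ≤ n i) (hn2 : ∀ i, 2 ≤ n i)
    (hgood : ∀ i, Good t (n i))
    (hlong : ∀ i, ∀ j < N0 + st n i + (C + 2), ¬ Dif t (n i) j)
    (hbU : Un Q (glue N0 d (bl (fun j => !t j) n hn))) :
    ∀ q ∈ Ux (P Q (glue N0 d (bl (fun j => !t j) n hn))), Q ≤ q := by
  intro q hq
  by_contra hlt
  push Not at hlt
  obtain ⟨hq1, hq2, s, hs, hU⟩ := mem_Ux.1 hq
  set c := glue N0 d (fun j => !t j) with hc
  set b := glue N0 d (bl (fun j => !t j) n hn) with hb
  have hbN : ∀ j, b (N0 + j) = bl (fun j => !t j) n hn j := fun j => by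
    have := congrFun (sh_glue N0 d (bl (fun j => !t j) n hn)) j
    rw [sh_apply, ← hb] at this
    exact this
  have hcN : ∀ j, c (N0 + j) = !t j := fun j => by
    have := congrFun (sh_glue N0 d (fun j => !t j)) j
    rw [sh_apply, ← hc] at this
    exact this
  have hbc : ∀ j, j < N0 + n 0 → b j = c j := fun j hj => by
    rcases Nat.lt_or_ge j N0 with h | h
    · rw [hb, hc, glue_lt _ _ h, glue_lt _ _ h]
    · obtain ⟨j', rfl⟩ : ∃ j', j = N0 + j' := ⟨j - N0, by omega⟩
      rw [hbN, hcN]
      have := bl_eq (w := fun j => !t j) hn (i := 0) (o := j') (by omega)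
      simpa [st] using this
  have hbn0 : b (N0 + n 0) = true := by
    rw [hbN]
    have := bl_eq (w := fun j => !t j) hn (i := 1) (o := 0) (hn 1)
    rw [st_succ] at this
    simp only [st, add_zero, zero_add, ht.1] at this
    exact this
  have hcn0 : c (N0 + n 0) = false := by
    rw [hcN, (hgood 0).1]; rfl
  have hblk : ∀ i j, j < n i → b (N0 + st n i + j) = !t j := fun i j hj => by
    rw [add_assoc, hbN]; exact bl_eq hn hj
  -- `c < b`
  have hcb : P Q c < P Q b := hbU.lt_right hQ1 ⟨N0 + n 0, fun i hi => (hbc i hi).symm, hcn0, hbn0⟩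
  obtain ⟨m0, hm0⟩ : ∃ m, s m = true := exists_true_of_pos (q := q) (by
    rw [hs]
    exact P_pos hQ1 hbn0)
  have hsx : P Q s < P Q b := by rw [← hs]; exact P_strict hq1 hlt s hm0
  have hUQ : Un Q s := hU.mono hq1 hlt.le
  have hcs : P Q c ≤ P Q s := by
    by_contra hcon
    push Not at hcon
    obtain ⟨q', h1, h2, h3⟩ := P_ivt hq1 hlt.le s hcon (by rw [hs]; exact hcb)
    have := hy q' (mem_Ux.2 ⟨by linarith, by linarith, s, h3, hU.mono hq1 h1.le⟩)
    linarith
  rcases trich s b with h | h | h
  · rw [h] at hsx; exact lt_irrefl _ hsx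
  · obtain ⟨p, hp1, hp2, hp3⟩ := h
    have hafter := (hU p).1 hp2
    have hqα : 1 ≤ P q (sh 1 t) := by rw [← hα]; exact P_anti hq1 hlt.le _
    -- `p` is far
    have hpfar : N0 + n 0 ≤ p := by
      by_contra hcon
      push Not at hcon
      have : P Q s < P Q c := hUQ.lt_left hQ1
        ⟨p, fun i hi => by rw [hp1 i hi, hbc i (by omega)], hp2, by rw [← hbc p hcon]; exact hp3⟩
      linarith
    have hsN0 : s N0 = true := by
      rw [hp1 _ (by have := hn2 0; omega), show N0 = N0 + st n 0 + 0 by simp [st],
        hblk 0 0 (hn 0), ht.1]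
      rfl
    have hsN1 : s (N0 + 1) = false := by
      rw [hp1 _ (by have := hn2 0; omega), show N0 + 1 = N0 + st n 0 + 1 by simp [st],
        hblk 0 1 (hn2 0), ht.t1]
      rfl
    have hq16 : 1.6 < q := phi_lt hq1 hU hsN0 hsN1
    obtain ⟨p', rfl⟩ : ∃ p', p = N0 + p' := ⟨p - N0, by omega⟩
    obtain ⟨i, o, ho, rfl⟩ := exists_block hn p'
    rw [← add_assoc] at hp1 hp2 hp3 hafter hpfar
    rcases Nat.eq_zero_or_pos o with rfl | ho1
    · rcases Nat.eq_zero_or_pos i with rfl | hi
      · simp only [st] at hpfar
        have := hn2 0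
        omega
      · obtain ⟨i', rfl⟩ : ∃ i', i = i' + 1 := ⟨i - 1, by omega⟩
        rw [add_zero, st_succ, ← add_assoc] at hp1 hp2 hp3 hafter
        have hn'2 := hn2 i'
        have hlong' := hlong i'
        have htn := (hgood i').1
        have hblk' := hblk i'
        set ν := N0 + st n i' with hν
        obtain ⟨N, hN⟩ : ∃ N, n i' = N + 1 := ⟨n i' - 1, by omega⟩
        rw [hN] at hp1 hp2 hp3 hafter hblk' htn hn'2 hlong'
        have hsν : s ν = true := by
          rw [hp1 ν (by omega)]
          have := hblk' 0 (by omega)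
          rw [add_zero, ht.1] at this
          exact this
        have hB := (hU ν).2 hsν
        -- the comparison sequence
        set g := glue N (sh 1 t) (cons false (fun _ => true)) with hg
        have hPg : P q g < 1 := by
          have h1 : P q g < P q (fun j => !(sh (ν + 1) s) j) := by
            refine lt_of_right hq1 (p := N) (fun j hj => ?_) ?_ ?_ ?_
            · rw [hg, glue_lt _ _ hj, sh_apply, sh_apply, hp1 _ (by omega),
                show ν + 1 + j = ν + (1 + j) by ring, hblk' _ (by omega), Bool.not_not]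
            · rw [hg]; simp [glue]
            · rw [sh_apply, show ν + 1 + N = ν + (N + 1) by ring, hp2]; rfl
            · have e : sh (N + 1) (fun j => !(sh (ν + 1) s) j) =
                  fun j => !(sh (ν + (N + 1) + 1) s) j := by
                funext j
                simp only [sh_apply]
                congr 2
                ring
              rw [e, P_compl hq1]
              linarith
          rw [P_compl hq1] at h1
          linarith
        have hPQg : 1 - 1 / (Q - 1) / Q ^ (ν + (C + 1)) / Q ^ (N + 1) ≤ P Q g := by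
          have h1 := diff_eq hQ1 (d := g) (e := sh 1 t) (p := N) (fun j hj => glue_lt _ _ hj)
          rw [hα, hg, sh_glue, P_cons hQ1, P_ones hQ1, sh_sh, P_succ hQ1 (sh (1 + N) t), sh_sh,
            sh_apply, add_zero, show 1 + N = N + 1 by ring, htn, dg_true, dg_false, ← hg] at h1
          have h2 : P Q (sh (N + 1 + 1) t) ≤ P Q (fun j => !(sh 1 t) j) +
              1 / (Q - 1) / Q ^ (ν + (C + 1)) := by
            refine P_agree hQ1 fun j hj => ?_
            have := hlong' (j + 1) (by omega)
            unfold Dif at this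
            push Not at this
            rw [htn, Bool.xor_true] at this
            rw [sh_apply, sh_apply, show N + 1 + 1 + j = N + 1 + (j + 1) by ring, add_comm 1 j,
              ← this, Bool.not_not]
          rw [P_compl hQ1, hα] at h2
          have h3 : 1 - P Q g ≤ 1 / (Q - 1) / Q ^ (ν + (C + 1)) / Q ^ (N + 1) := by
            rw [h1, ← sub_div, div_div, ← pow_succ']
            exact div_le_div_of_nonneg_right (by linarith) (by positivity)
          linarith
        have hI : 1 / q - 1 / Q < 1 / (Q - 1) / Q ^ (ν + (C + 1)) / Q ^ (N + 1) := by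
          have h1 := P_anti_term hq1 hlt.le g 0 (by
            rw [hg, glue_lt _ _ (show 0 < N by omega), sh_apply]; exact ht.t1)
          simp only [zero_add, pow_one] at h1
          linarith
        -- the second comparison
        set d1 := glue (ν + (N + 1)) b (cons true (fun _ => false)) with hd1
        have hII1 : P Q b < P q d1 := by
          rw [← hs]
          refine lt_of_left hq1 (p := ν + (N + 1)) (fun j hj => ?_) hp2 ?_ hafter
          · rw [hd1, glue_lt _ _ hj, hp1 j hj]
          · rw [hd1]; simp [glue]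
        have hII2 : (1 / (Q - 1) - 1) / Q ^ (ν + (N + 1) + 1) < P Q b - P Q d1 := by
          have h1 := diff_eq hQ1 (d := d1) (e := b) (p := ν + (N + 1)) (fun j hj => glue_lt _ _ hj)
          rw [hd1, sh_glue, P_cons hQ1, P_zeros, P_succ hQ1 (sh (ν + (N + 1)) b), sh_sh, sh_apply,
            add_zero, hp3, dg_true, ← hd1, ← sub_div, div_div, ← pow_succ'] at h1
          rw [h1]
          have h2 := (hbU (ν + (N + 1))).2 hp3
          exact div_lt_div_of_pos_right (by linarith) (by positivity)
        have hII3 := P_lip hq1 hlt.le d1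
        have hII : (1 / (Q - 1) - 1) / Q ^ (ν + (N + 1) + 1) < 1 / (q - 1) - 1 / (Q - 1) := by
          linarith
        -- final contradiction
        clear hpfar hsN0 hsN1 hbc hbn0 hcn0 hcN hbN hblk hblk' hlong hlong' hgood hy hp1 hp2 hp3
          hafter hPg hPQg hB hsν hII1 hII2 hII3 hcs hcb hsx hbU hUQ
        have h9 : 1 / (q - 1) - 1 / (Q - 1) ≤ 9 * (1 / q - 1 / Q) := by
          have hd : 0 < 1 / q - 1 / Q := sub_pos.2 (one_div_lt_one_div_of_lt (by linarith) hlt)
          have e : 1 / (q - 1) - 1 / (Q - 1) = (q / (q - 1)) * (Q / (Q - 1)) * (1 / q - 1 / Q) := by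
            have : q ≠ 0 := by linarith
            have : Q ≠ 0 := by linarith
            have : q - 1 ≠ 0 := by linarith
            have : Q - 1 ≠ 0 := by linarith
            field_simp
            ring
          rw [e]
          have a1 : q / (q - 1) ≤ 3 := by rw [div_le_iff₀ (by linarith)]; linarith
          have a2 : Q / (Q - 1) ≤ 3 := by rw [div_le_iff₀ (by linarith)]; linarith
          have a3 : 0 ≤ Q / (Q - 1) := div_nonneg (by linarith) (by linarith)
          have a4 : (q / (q - 1)) * (Q / (Q - 1)) ≤ 9 := by nlinarith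
          exact mul_le_mul_of_nonneg_right a4 hd.le
        have hfin : (1 / (Q - 1) - 1) / Q ^ (ν + (N + 1) + 1) <
            9 * (1 / (Q - 1) / Q ^ (ν + (C + 1)) / Q ^ (N + 1)) := by linarith
        have hpow : Q ^ (ν + (C + 1)) * Q ^ (N + 1) = Q ^ (ν + (N + 1) + 1) * Q ^ C := by
          rw [← pow_add, ← pow_add]; congr 1; ring
        rw [div_div (1 / (Q - 1)), hpow, ← div_div, mul_div_assoc',
          div_lt_div_iff₀ (by positivity) (by positivity)] at hfin
        have hpos : 0 < Q ^ (ν + (N + 1) + 1) := by positivity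
        have hQ1' : 0 < 1 / (Q - 1) := by apply one_div_pos.2; linarith
        have e1 : 1 / (Q - 1) - 1 = (2 - Q) * (1 / (Q - 1)) := by
          have : Q - 1 ≠ 0 := by linarith
          field_simp
          ring
        have e2 : 9 * (1 / (Q - 1) / Q ^ (ν + (N + 1) + 1)) * Q ^ (ν + (N + 1) + 1) =
            9 * (1 / (Q - 1)) := by
          rw [mul_assoc, div_mul_cancel₀ _ hpos.ne']
        rw [e1, e2] at hfin
        have h12 : 9 * (1 / (Q - 1)) ≤ (2 - Q) * Q ^ C * (1 / (Q - 1)) :=
          mul_le_mul_of_nonneg_right hC hQ1'.le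
        nlinarith
    · -- inside a block
      have hsν : s (N0 + st n i) = true := by
        rw [hp1 _ (by omega)]
        have := hblk i 0 (hn i)
        simp only [add_zero, ht.1] at this
        exact this
      have hB := (hU (N0 + st n i)).2 hsν
      have h1 : P q (sh (N0 + st n i + 1) s) < P q (fun j => !(sh 1 t) j) := by
        refine lt_of_left hq1 (p := o - 1) (fun j hj => ?_) ?_ ?_ ?_
        · rw [sh_apply, sh_apply, hp1 _ (by omega),
            show N0 + st n i + 1 + j = N0 + st n i + (1 + j) by ring]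
          exact hblk i (1 + j) (by omega)
        · rw [sh_apply, show N0 + st n i + 1 + (o - 1) = N0 + st n i + o by omega]
          exact hp2
        · rw [sh_apply, show 1 + (o - 1) = o by omega, ← hblk i o ho]
          exact hp3
        · rw [sh_sh, show N0 + st n i + 1 + (o - 1 + 1) = N0 + st n i + o + 1 by omega]
          exact hafter
      rw [P_compl hq1] at h1
      linarith
  · have := hUQ.lt_right hQ1 h
    linarith

end Pool.Agent.R341.Uni
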