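import Pool.Agent.R341.Uni12

set_option autoImplicit false

namespace Pool.Agent.R341.Uni

open Filter Topology

lemma P_omega {Q : ℝ} (hQ1 : 1 < Q) {t : ℕ → Bool} (ht0 : t 0 = false) (hα : P Q (sh 1 t) = 1) :
    P Q (fun j => !t j) = 1 / (Q - 1) / Q := by
  rw [P_succ hQ1]
  have e : sh 1 (fun j => !t j) = fun j => !(sh 1 t j) := rfl
  rw [e, P_compl hQ1, hα, ht0]
  simp only [Bool.not_false, dg_true]
  ring

/-- the right end of the gap above a point without unique expansions in the bases up to `Q` -/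
theorem exists_base_point {Q : ℝ} (hQ1 : 1 < Q) (hQ2 : Q < 2) {t : ℕ → Bool} (ht : Adm t)
    (hα : P Q (sh 1 t) = 1) (hUα : Un Q (sh 1 t)) {c : ℝ} (hc0 : 0 < c)
    (Hc : ∀ q ∈ Ux c, Q < q) : ∃ (N0 : ℕ) (d : ℕ → Bool),
      (∀ m < N0, Kp t (sh m (glue N0 d (fun j => !t j)))) ∧
      ∀ q ∈ Ux (P Q (glue N0 d (fun j => !t j))), Q ≤ q := by
  classical
  have hA1 : 1 ≤ 1 / (Q - 1) := by rw [le_div_iff₀ (by linarith)]; linarith
  have hcA : c ≤ 1 / (Q - 1) := by
    by_contra hcon
    push Not at hcon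
    have h1 : 1 / c < Q - 1 := by
      rw [div_lt_iff₀ hc0]
      rw [div_lt_iff₀ (by linarith)] at hcon
      linarith
    have h2 : 0 < 1 / c := by positivity
    have h3 : (1 + 1 / c) ∈ Ux c := by
      refine mem_Ux.2 ⟨by linarith, by linarith, fun _ => true, ?_, fun n => ⟨fun h => ?_, fun _ => ?_⟩⟩
      · rw [P_ones (by linarith)]
        rw [add_sub_cancel_left, one_div_one_div]
      · simp at h
      · rw [show sh (n + 1) (fun _ => true) = fun _ => true from rfl, P_ones (by linarith)]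
        linarith
    have := Hc _ h3
    linarith
  obtain ⟨d, hd⟩ := exists_exp hQ1 hQ2.le hc0.le hcA
  have hnU : ¬ Un Q d := fun h => lt_irrefl _ (Hc Q (mem_Ux.2 ⟨hQ1, hQ2.le, d, hd, h⟩))
  have hex : ∃ n, (d n = false ∧ 1 ≤ P Q (sh (n + 1) d)) ∨
      (d n = true ∧ P Q (sh (n + 1) d) ≤ 1 / (Q - 1) - 1) := by
    by_contra hcon
    push Not at hcon
    exact hnU fun n => ⟨fun h => (hcon n).1 h, fun h => (hcon n).2 h⟩
  have hp := Nat.find_spec hex
  have hmin : ∀ k < Nat.find hex, (d k = false → P Q (sh (k + 1) d) < 1) ∧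
      (d k = true → 1 / (Q - 1) - 1 < P Q (sh (k + 1) d)) := fun k hk => by
    have := Nat.find_min hex hk
    push Not at this
    exact this
  set p := Nat.find hex with hpdef
  have hz : 1 / Q ≤ P Q (sh p d) ∧ P Q (sh p d) ≤ 1 / (Q - 1) / Q := by
    have h1 := P_le hQ1 (sh (p + 1) d)
    have h2 := P_nonneg hQ1 (sh (p + 1) d)
    rw [P_succ hQ1 (sh p d), sh_sh, sh_apply, add_zero]
    rcases hp with ⟨h3, h4⟩ | ⟨h3, h4⟩
    · rw [h3, dg_false, zero_add]
      exact ⟨div_le_div_of_nonneg_right h4 (by linarith),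
        div_le_div_of_nonneg_right h1 (by linarith)⟩
    · rw [h3, dg_true]
      exact ⟨div_le_div_of_nonneg_right (by linarith) (by linarith),
        div_le_div_of_nonneg_right (by linarith) (by linarith)⟩
  have hω := P_omega hQ1 ht.1 hα
  set ω : ℕ → Bool := fun j => !t j with hωdef
  have hωsh : ∀ n, sh n (glue n d ω) = ω := fun n => sh_glue n d ω
  -- comparison at a common position
  have hcmp : ∀ (k n : ℕ) (e f : ℕ → Bool), k ≤ n → (∀ i < n, e i = f i) →
      P Q (sh k f) - P Q (sh k e) = (P Q (sh n f) - P Q (sh n e)) / Q ^ (n - k) := by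
    intro k n e f hkn hag
    have h1 := diff_eq hQ1 (d := sh k e) (e := sh k f) (p := n - k) (fun i hi => by
      rw [sh_apply, sh_apply]; exact hag _ (by omega))
    rw [sh_sh, sh_sh, show k + (n - k) = n by omega] at h1
    exact h1
  -- the candidates
  let NN : ℕ → Prop := fun n => n ≤ p ∧ (n = p ∨ d n = false)
  let Z : ℕ → Prop := fun n => ∀ k < n, d k = false → P Q (sh (k + 1) (glue n d ω)) ≤ 1
  have hne : ∃ n, NN n ∧ Z n := by
    have hex2 : ∃ n, NN n := ⟨p, le_rfl, Or.inl rfl⟩
    refine ⟨Nat.find hex2, Nat.find_spec hex2, fun k hk hdk => ?_⟩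
    exact absurd ⟨(hk.trans_le (Nat.find_spec hex2).1).le, Or.inr hdk⟩ (Nat.find_min hex2 hk)
  let S := (Finset.range (p + 1)).filter fun n => NN n ∧ Z n
  have hSne : S.Nonempty := by
    obtain ⟨n, hn⟩ := hne
    exact ⟨n, by
      simp only [S, Finset.mem_filter, Finset.mem_range]
      exact ⟨by have := hn.1.1; omega, hn⟩⟩
  obtain ⟨N, hNS, hNmax⟩ := S.exists_max_image id hSne
  simp only [S, Finset.mem_filter, Finset.mem_range, id] at hNS hNmax
  obtain ⟨_, ⟨hNp, hN0⟩, hNZ⟩ := hNS
  have hmax : ∀ m, NN m → Z m → m ≤ N := fun m h1 h2 =>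
    hNmax m ⟨by have := h1.1; omega, h1, h2⟩
  set b := glue N d ω with hb
  have hbd : ∀ i < N, b i = d i := fun i hi => by rw [hb, glue_lt _ _ hi]
  have hbN : sh N b = ω := hωsh N
  have hPd : P Q (sh N d) ≤ 1 / (Q - 1) / Q := by
    rcases Nat.lt_or_ge N p with h | h
    · have h1 : d N = false := by
        rcases hN0 with h2 | h2
        · omega
        · exact h2
      rw [P_succ hQ1 (sh N d), sh_sh, sh_apply, add_zero, h1, dg_false, zero_add]
      exact div_le_div_of_nonneg_right (by have := (hmin N h).1 h1; linarith) (by linarith)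
    · rw [show N = p by omega]; exact hz.2
  -- (a)
  have ha : ∀ k < N, d k = true → 1 / (Q - 1) - 1 < P Q (sh (k + 1) b) := by
    intro k hk hdk
    have h1 := (hmin k (by omega)).2 hdk
    have h2 := hcmp (k + 1) N d b (by omega) (fun i hi => (hbd i hi).symm)
    rw [hbN, hω] at h2
    have h3 : 0 ≤ (1 / (Q - 1) / Q - P Q (sh N d)) / Q ^ (N - (k + 1)) :=
      div_nonneg (by linarith) (by positivity)
    linarith
  -- (b)
  have hcb : c ≤ P Q b := by
    have h2 := hcmp 0 N d b (by omega) (fun i hi => (hbd i hi).symm)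
    rw [hbN, hω, sh_zero, sh_zero, hd] at h2
    have h3 : 0 ≤ (1 / (Q - 1) / Q - P Q (sh N d)) / Q ^ (N - 0) :=
      div_nonneg (by linarith) (by positivity)
    linarith
  -- (c)
  have hone : ∀ (s : ℕ → Bool) (m : ℕ), Un Q s → s m = true → 1 / (Q - 1) / Q < P Q (sh m s) := by
    intro s m hU hs
    rw [P_succ hQ1 (sh m s), sh_sh, sh_apply, add_zero, hs, dg_true]
    exact div_lt_div_of_pos_right (by have := (hU m).2 hs; linarith) (by linarith)
  have hzero : ∀ (s : ℕ → Bool) (m : ℕ), Un Q s → s m = false → P Q (sh m s) < 1 / Q := by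
    intro s m hU hs
    rw [P_succ hQ1 (sh m s), sh_sh, sh_apply, add_zero, hs, dg_false, zero_add]
    exact div_lt_div_of_pos_right ((hU m).1 hs) (by linarith)
  have hAcase : ∀ (s : ℕ → Bool) (m : ℕ), Un Q s → P Q s < P Q b → (∀ i < m, s i = d i) →
      s m = true → NN m → False := by
    intro s m hU hlt hag hsm hNm
    have h1 := hone s m hU hsm
    have hgl : ∀ i < m, glue m d ω i = s i := fun i hi => by rw [glue_lt _ _ hi, hag i hi]
    rcases Nat.lt_or_ge N m with h | h
    · have hnZ : ¬ Z m := fun hZ => by have := hmax m hNm hZ; omega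
      have hnZ' : ∃ k < m, d k = false ∧ 1 < P Q (sh (k + 1) (glue m d ω)) := by
        by_contra hcon
        push Not at hcon
        exact hnZ hcon
      obtain ⟨k, hk, hdk, hk1⟩ := hnZ'
      have h2 := hcmp (k + 1) m (glue m d ω) s (by omega) hgl
      rw [hωsh, hω] at h2
      have h3 : 0 ≤ (P Q (sh m s) - 1 / (Q - 1) / Q) / Q ^ (m - (k + 1)) :=
        div_nonneg (by linarith) (by positivity)
      have h4 := (hU k).1 (by rw [hag k hk]; exact hdk)
      linarith
    · have h2 := hcmp 0 m (glue m d ω) s (by omega) hgl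
      rw [hωsh, hω, sh_zero, sh_zero] at h2
      have h3 : 0 < (P Q (sh m s) - 1 / (Q - 1) / Q) / Q ^ (m - 0) :=
        div_pos (by linarith) (by positivity)
      have h4 : P Q b ≤ P Q (glue m d ω) := by
        rcases Nat.lt_or_ge m N with h5 | h5
        · have hdm : d m = false := by
            rcases hNm.2 with h6 | h6
            · omega
            · exact h6
          have h6 := hcmp 0 m b (glue m d ω) (by omega) (fun i hi => by
            rw [glue_lt _ _ hi, hbd i (by omega)])
          rw [hωsh, hω, sh_zero, sh_zero, P_succ hQ1 (sh m b), sh_sh, sh_apply, add_zero,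
            hbd m h5, hdm, dg_false, zero_add] at h6
          have h7 := hNZ m h5 hdm
          have h8 : P Q (sh (m + 1) b) / Q ≤ 1 / (Q - 1) / Q :=
            div_le_div_of_nonneg_right (by rw [hb]; linarith) (by linarith)
          have h9 : 0 ≤ (1 / (Q - 1) / Q - P Q (sh (m + 1) b) / Q) / Q ^ (m - 0) :=
            div_nonneg (by linarith) (by positivity)
          linarith
        · rw [show m = N by omega]
      linarith
  have hc' : ∀ s, Un Q s → c ≤ P Q s → P Q b ≤ P Q s := by
    intro s hU hcs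
    by_contra hlt
    push Not at hlt
    -- smaller than `c`
    have hless : ∀ m, (∀ i < m, s i = d i) → s m = false → 1 / Q ≤ P Q (sh m d) → False := by
      intro m hag hsm hdm
      have h1 := hzero s m hU hsm
      have h2 := hcmp 0 m s d (by omega) hag
      rw [sh_zero, sh_zero, hd] at h2
      have h3 : 0 < (P Q (sh m d) - P Q (sh m s)) / Q ^ (m - 0) :=
        div_pos (by linarith) (by positivity)
      linarith
    by_cases hag : ∀ i < p, s i = d i
    · cases hsp : s p
      · exact hless p hag hsp hz.1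
      · exact hAcase s p hU hlt hag hsp ⟨le_rfl, Or.inl rfl⟩
    · push Not at hag
      have hm := Nat.find_spec hag
      have hm2 : ∀ i < Nat.find hag, s i = d i := fun i hi => by
        by_contra hne
        exact Nat.find_min hag hi ⟨by omega, hne⟩
      set m := Nat.find hag with hmdef
      cases hsm : s m
      · refine hless m hm2 hsm ?_
        have hdm : d m = true := by
          cases hdm : d m
          · exact absurd (hsm.trans hdm.symm) hm.2
          · rfl
        rw [P_succ hQ1 (sh m d), sh_sh, sh_apply, add_zero, hdm, dg_true]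
        exact div_le_div_of_nonneg_right (by have := P_nonneg hQ1 (sh (m + 1) d); linarith)
          (by linarith)
      · refine hAcase s m hU hlt hm2 hsm ⟨hm.1.le, Or.inr ?_⟩
        cases hdm : d m
        · rfl
        · exact absurd (hsm.trans hdm.symm) hm.2
  -- (d)
  have hdd : ∀ k < N, d k = false → P Q (sh (k + 1) b) < 1 := by
    intro k hk hdk
    refine lt_of_le_of_ne (hNZ k hk hdk) fun heq => ?_
    have h1 : sh 1 t = sh (k + 1) b := hUα.unique hQ1 (hα.trans heq.symm)
    have h2 : sh (N - (k + 1)) (sh (k + 1) b) = ω := by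
      rw [sh_sh, show k + 1 + (N - (k + 1)) = N by omega]; exact hbN
    rw [← h1, sh_sh] at h2
    have hr : 1 ≤ 1 + (N - (k + 1)) := by omega
    obtain ⟨j, _, hj1, hj2, hj3, _⟩ := ht.first hr
    have h3 := congrFun h2 0
    have h4 := congrFun h2 j
    simp only [sh_apply, add_zero, hωdef] at h3 h4
    rw [ht.1] at h3
    rw [h3, h4, hj3] at hj2
    exact absurd hj2 (by decide)
  refine ⟨N, d, fun m hm => ?_, ?_⟩
  · refine kp_of_num hQ1 ht.1 hα hUα (fun h => ?_) (fun h => ?_)
    · rw [sh_sh]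
      have h' : b m = false := by rw [sh_apply, add_zero] at h; exact h
      rw [hbd m hm] at h'
      exact hdd m hm h'
    · rw [sh_sh]
      have h' : b m = true := by rw [sh_apply, add_zero] at h; exact h
      rw [hbd m hm] at h'
      exact ha m hm h'
  · intro q hq
    by_contra hlt
    push Not at hlt
    obtain ⟨hq1, hq2, s, hs, hU⟩ := mem_Ux.1 hq
    obtain ⟨m0, hm0⟩ : ∃ m, s m = true := exists_true_of_pos (q := q) (by
      rw [hs]; linarith)
    have h1 : P Q s < P Q b := by rw [← hs]; exact P_strict hq1 hlt s hm0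
    have h2 : P Q s < c := by
      by_contra hcon
      push Not at hcon
      have := hc' s (hU.mono hq1 hlt.le) hcon
      linarith
    rcases lt_or_eq_of_le hcb with h3 | h3
    · obtain ⟨q', h4, h5, h6⟩ := P_ivt hq1 hlt.le s h2 (by rw [hs]; exact h3)
      have := Hc q' (mem_Ux.2 ⟨by linarith, by linarith, s, h6, hU.mono hq1 h4.le⟩)
      linarith
    · have := Hc q (mem_Ux.2 ⟨hq1, hq2, s, by rw [hs, h3], hU⟩)
      linarith

/-- uncountable level sets, general form -/
theorem level_uncountable2 {Q : ℝ} (hQ1 : 1 < Q) (hQ2 : Q < 2) {t : ℕ → Bool} (ht : Adm t)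
    (hα : P Q (sh 1 t) = 1) (hUα : Un Q (sh 1 t))
    (hunb : ∀ K, ∃ n, 1 ≤ n ∧ t n = true ∧ ∀ j < K, ¬ Dif t n j)
    {c : ℝ} (hc0 : 0 < c) (Hc : ∀ q ∈ Ux c, Q < q) : ¬ (Lv Q).Countable := by
  obtain ⟨N0, d, hkp, hlow⟩ := exists_base_point hQ1 hQ2 ht hα hUα hc0 Hc
  -- the constant
  obtain ⟨C, hC⟩ : ∃ C : ℕ, 9 ≤ (2 - Q) * Q ^ C := by
    obtain ⟨C, hC⟩ := pow_unbounded_of_one_lt (9 / (2 - Q)) hQ1
    refine ⟨C, ?_⟩
    rw [div_lt_iff₀ (by linarith)] at hC
    linarith
  -- the bound for the first block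
  have hbound : ∃ B, ∀ j < N0, ∃ k < B, (∀ i < k, xor (sh j (glue N0 d (fun j => !t j)) i)
      (sh j (glue N0 d (fun j => !t j)) 0) = t i) ∧
      xor (sh j (glue N0 d (fun j => !t j)) k) (sh j (glue N0 d (fun j => !t j)) 0) = false ∧
      t k = true := by
    choose! k hk using hkp
    refine ⟨(Finset.range N0).sup k + 1, fun j hj => ⟨k j, ?_, hk j hj⟩⟩
    have := Finset.le_sup (f := k) (Finset.mem_range.2 hj)
    omega
  obtain ⟨B0, hB0⟩ := hbound
  have hpick : ∀ s m : ℕ, ∃ a : Bool → ℕ, a false < a true ∧ ∀ e, 2 ≤ a e ∧ B0 ≤ a e ∧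
      Good t (a e) ∧ Next t m (a e) ∧ ∀ j < N0 + s + (C + 2), ¬ Dif t (a e) j := by
    intro s m
    obtain ⟨B, hB⟩ := Next.ex ht m
    obtain ⟨n1, h1, h2, h3⟩ := exists_good_large ht hunb (N0 + s + (C + 2)) (B + B0 + 2)
    obtain ⟨n2, h4, h5, h6⟩ := exists_good_large ht hunb (N0 + s + (C + 2)) (n1 + 1)
    refine ⟨fun e => if e then n2 else n1, by simpa using h4, fun e => ?_⟩
    cases e
    · simp only [Bool.false_eq_true, if_false]
      exact ⟨by omega, by omega, h2, hB _ (by omega), h3⟩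
    · simp only [if_true]
      exact ⟨by omega, by omega, h5, hB _ (by omega), h6⟩
  choose a ha1 ha2 using hpick
  let S : (ℕ → Bool) → ℕ → ℕ × ℕ := fun ε i =>
    Nat.rec (0, 1) (fun i p => (p.1 + a p.1 p.2 (ε i), a p.1 p.2 (ε i))) i
  have hS : ∀ ε i, S ε (i + 1) =
      ((S ε i).1 + a (S ε i).1 (S ε i).2 (ε i), a (S ε i).1 (S ε i).2 (ε i)) := fun ε i => rfl
  let n : (ℕ → Bool) → ℕ → ℕ := fun ε i => a (S ε i).1 (S ε i).2 (ε i)
  have hst : ∀ ε i, st (n ε) i = (S ε i).1 := by
    intro ε i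
    induction i with
    | zero => rfl
    | succ i ih => rw [st_succ, ih, hS]
  have hn2 : ∀ ε i, 2 ≤ n ε i := fun ε i => (ha2 _ _ _).1
  have hnB : ∀ ε i, B0 ≤ n ε i := fun ε i => (ha2 _ _ _).2.1
  have hn : ∀ ε i, 1 ≤ n ε i := fun ε i => le_trans (by norm_num) (hn2 ε i)
  have hgood : ∀ ε i, Good t (n ε i) := fun ε i => (ha2 _ _ _).2.2.1
  have hnext : ∀ ε i, Next t (n ε i) (n ε (i + 1)) := fun ε i => by
    have := (ha2 (S ε (i + 1)).1 (S ε (i + 1)).2 (ε (i + 1))).2.2.2.1
    exact this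
  have hlong : ∀ ε i, ∀ j < N0 + st (n ε) i + (C + 2), ¬ Dif t (n ε i) j := fun ε i => by
    rw [hst]
    exact (ha2 _ _ _).2.2.2.2
  let b0 : (ℕ → Bool) → ℕ → Bool := fun ε => bl (fun j => !t j) (n ε) (hn ε)
  let b : (ℕ → Bool) → ℕ → Bool := fun ε => glue N0 d (b0 ε)
  have hbN : ∀ ε j, b ε (N0 + j) = b0 ε j := fun ε j => by
    have := congrFun (sh_glue N0 d (b0 ε)) j
    rw [sh_apply] at this
    exact this
  have hbU : ∀ ε, Un Q (b ε) := by
    intro ε
    refine lexnum hQ1 ht.1 ht.inf hα fun m => ?_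
    rcases Nat.lt_or_ge m N0 with hm | hm
    · obtain ⟨k, hkB, hk1, hk2, hk3⟩ := hB0 m hm
      have hag : ∀ i, i < N0 + n ε 0 → b ε i = glue N0 d (fun j => !t j) i := by
        intro i hi
        rcases Nat.lt_or_ge i N0 with h9 | h9
        · rw [glue_lt _ _ h9]
          exact glue_lt _ _ h9
        · obtain ⟨i', rfl⟩ : ∃ i', i = N0 + i' := ⟨i - N0, by omega⟩
          have h10 := congrFun (sh_glue N0 d (fun j => !t j)) i'
          rw [sh_apply] at h10
          rw [h10, hbN]
          have := bl_eq (w := fun j => !t j) (hn ε) (i := 0) (o := i') (by omega)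
          simpa [st] using this
      have hnBε := hnB ε 0
      simp only [sh_apply, add_zero] at hk1 hk2
      refine ⟨k, fun i hi => ?_, ?_, hk3⟩
      · simp only [sh_apply, add_zero]
        rw [hag _ (by omega), hag _ (by omega)]
        exact hk1 i hi
      · simp only [sh_apply, add_zero]
        rw [hag _ (by omega), hag _ (by omega)]
        exact hk2
    · obtain ⟨m', rfl⟩ : ∃ m', m = N0 + m' := ⟨m - N0, by omega⟩
      have e : sh (N0 + m') (b ε) = sh m' (b0 ε) := by
        funext i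
        rw [sh_apply, sh_apply, add_assoc, hbN]
      rw [e]
      exact bl_kp ht (hn ε) (hgood ε) (hnext ε) m'
  have hbtrue : ∀ ε, b ε N0 = true := fun ε => by
    have := bl_eq (w := fun j => !t j) (hn ε) (i := 0) (o := 0) (show 0 < n ε 0 from hn ε 0)
    simp only [st, add_zero, ht.1] at this
    have h2 := hbN ε 0
    rw [add_zero] at h2
    rw [h2]; exact this
  have hlt : ∀ ε ε' : ℕ → Bool, Lt ε ε' → b ε ≠ b ε' := by
    rintro ε ε' ⟨i, h1, h2, h3⟩ heq
    have hSi : ∀ j ≤ i, S ε j = S ε' j := by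
      intro j
      induction j with
      | zero => intro _; rfl
      | succ j ih =>
        intro hj
        rw [hS, hS, ih (by omega), h1 j (by omega)]
    have hni : n ε i < n ε' i := by
      show a _ _ _ < a _ _ _
      rw [hSi i le_rfl, h2, h3]
      exact ha1 _ _
    have hsti : st (n ε) i = st (n ε') i := by rw [hst, hst, hSi i le_rfl]
    have e1 : b0 ε (st (n ε) (i + 1) + 0) = !t 0 := bl_eq (w := fun j => !t j) (hn ε) (hn ε (i + 1))
    have e2 : b0 ε' (st (n ε') i + n ε i) = !t (n ε i) := bl_eq (w := fun j => !t j) (hn ε') hni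
    rw [← hbN] at e1 e2
    rw [add_zero, st_succ, ht.1, hsti, heq, e2, (hgood ε i).1] at e1
    exact absurd e1 (by decide)
  have hinjb : Function.Injective b := by
    intro ε ε' h
    rcases trich ε ε' with h1 | h1 | h1
    · exact h1
    · exact absurd h (hlt _ _ h1)
    · exact absurd h.symm (hlt _ _ h1)
  have hinj : Function.Injective fun ε => P Q (b ε) := fun ε ε' h =>
    hinjb ((hbU ε).unique hQ1 h)
  have hmem : ∀ ε, P Q (b ε) ∈ Lv Q := by
    intro ε
    refine ⟨P_pos hQ1 (hbtrue ε), mem_Ux.2 ⟨hQ1, hQ2.le, _, rfl, hbU ε⟩, ?_⟩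
    exact no_lower2 hQ1 hQ2 ht hα hlow hC (hn ε) (hn2 ε) (hgood ε) (hlong ε) (hbU ε)
  intro hcount
  apply not_countable_seq
  have h1 : (Set.range fun ε => P Q (b ε)).Countable :=
    hcount.mono (by rintro _ ⟨ε, rfl⟩; exact hmem ε)
  have h2 : Countable (Set.range fun ε => P Q (b ε)) := h1
  exact (Equiv.ofInjective _ hinj).countable_iff.2 h2

end Pool.Agent.R341.Uni
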