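import Pool.Agent.R341.Uni13

set_option autoImplicit false

namespace Pool.Agent.R341.Uni

/-- value of a finite word followed by a tail of value `y` (rational) -/
def fv (q y : ℚ) : List Bool → ℚ
  | [] => y
  | b :: l => ((if b then 1 else 0) + fv q y l) / q

/-- value of a finite word followed by a tail of value `y` (real) -/
noncomputable def fr (q y : ℝ) : List Bool → ℝ
  | [] => y
  | b :: l => (dg b + fr q y l) / q

lemma fr_cast (q y : ℚ) (l : List Bool) : fr (q : ℝ) (y : ℝ) l = ((fv q y l : ℚ) : ℝ) := by
  induction l with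
  | nil => rfl
  | cons b l ih =>
    rw [fr, fv, ih]
    cases b <;> simp

/-- eventually periodic sequences -/
def ep (u v : List Bool) (n : ℕ) : Bool :=
  if n < u.length then u.getD n false else v.getD ((n - u.length) % v.length) false

lemma P_list {q : ℝ} (hq : 1 < q) (l : List Bool) : ∀ d : ℕ → Bool,
    (∀ i < l.length, d i = l.getD i false) → P q d = fr q (P q (sh l.length d)) l := by
  induction l with
  | nil => intro d _; simp [fr, sh_zero]
  | cons b l ih =>
    intro d hd
    have h0 : d 0 = b := by simpa using hd 0 (by simp)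
    have h1 := ih (sh 1 d) (fun i hi => by
      have := hd (i + 1) (by simpa using hi)
      rw [sh_apply, add_comm 1 i, this]
      simp)
    rw [P_succ hq, h1, h0, fr, sh_sh, List.length_cons, add_comm 1]

lemma sh_ep (u v : List Bool) : sh u.length (ep u v) = ep [] v := by
  funext n
  simp [ep]

lemma ep_per (v : List Bool) : sh v.length (ep [] v) = ep [] v := by
  funext n
  simp [ep]

lemma sh_ep2 (u v : List Bool) : sh (u ++ v).length (ep u v) = ep [] v := by
  rw [List.length_append, ← sh_sh, sh_ep, ep_per]

lemma ep_app (u v : List Bool) : ∀ i < (u ++ v).length, ep u v i = (u ++ v).getD i false := by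
  intro i hi
  rw [List.length_append] at hi
  unfold ep
  by_cases h : i < u.length
  · rw [if_pos h, List.getD_append _ _ _ _ h]
  · rw [if_neg h, List.getD_append_right _ _ _ _ (by omega), Nat.mod_eq_of_lt (by omega)]

/-- value of a periodic word -/
def pv (q : ℚ) (v : List Bool) : ℚ := fv q 0 v / (1 - 1 / q ^ v.length)

lemma fr_add {q : ℝ} (hq : q ≠ 0) (y : ℝ) (l : List Bool) :
    fr q y l = fr q 0 l + y / q ^ l.length := by
  induction l with
  | nil => simp [fr]
  | cons b l ih =>
    rw [fr, fr, ih, List.length_cons, pow_succ]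
    field_simp
    ring

lemma P_per {q : ℚ} (hq : 1 < q) {v : List Bool} (hv : 1 ≤ v.length) :
    P (q : ℝ) (ep [] v) = ((pv q v : ℚ) : ℝ) := by
  have hq' : (1 : ℝ) < q := by exact_mod_cast hq
  have h := P_list hq' v (ep [] v) (fun i hi => by
    have := ep_app [] v i (by simpa using hi)
    simpa using this)
  rw [ep_per, fr_add (by linarith)] at h
  have h0 : fr (q : ℝ) 0 v = ((fv q 0 v : ℚ) : ℝ) := by
    have := fr_cast q 0 v
    simpa using this
  rw [h0] at h
  have hp : (1 : ℝ) < (q : ℝ) ^ v.length := one_lt_pow₀ hq' (by omega)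
  have hp' : (1 : ℝ) / (q : ℝ) ^ v.length < 1 := by rw [div_lt_one (by linarith)]; exact hp
  unfold pv
  push_cast
  rw [eq_div_iff (by linarith), mul_sub, mul_one, mul_one_div]
  linarith

/-- the finite check of the conditions for unique expansions -/
def chk (q y : ℚ) : List Bool → Bool
  | [] => true
  | b :: l => (if b then decide (1 / (q - 1) - 1 < fv q y l) else decide (fv q y l < 1)) &&
      chk q y l

lemma chk_drop {q y : ℚ} : ∀ (l : List Bool), chk q y l = true → ∀ n < l.length,
    (l.getD n false = false → fv q y (l.drop (n + 1)) < 1) ∧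
    (l.getD n false = true → 1 / (q - 1) - 1 < fv q y (l.drop (n + 1))) := by
  intro l
  induction l with
  | nil => intro _ n hn; simp at hn
  | cons b l ih =>
    intro h n hn
    rw [chk, Bool.and_eq_true] at h
    rcases Nat.eq_zero_or_pos n with rfl | h0
    · cases b
      · simpa using h.1
      · simpa using h.1
    · obtain ⟨m, rfl⟩ : ∃ m, n = m + 1 := ⟨n - 1, by omega⟩
      have := ih h.2 m (by simpa using hn)
      simpa using this

lemma ep_un {q : ℚ} (hq : 1 < q) {u v : List Bool} (hv : 1 ≤ v.length)
    (h : chk q (pv q v) (u ++ v) = true) : Un (q : ℝ) (ep u v) := by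
  have hq' : (1 : ℝ) < q := by exact_mod_cast hq
  have key : ∀ n, n < (u ++ v).length →
      (ep u v n = false → P (q : ℝ) (sh (n + 1) (ep u v)) < 1) ∧
      (ep u v n = true → 1 / ((q : ℝ) - 1) - 1 < P (q : ℝ) (sh (n + 1) (ep u v))) := by
    intro n hn
    have h1 := chk_drop (u ++ v) h n hn
    have h2 := P_list hq' ((u ++ v).drop (n + 1)) (sh (n + 1) (ep u v)) (fun i hi => by
      rw [List.length_drop] at hi
      rw [sh_apply, ep_app u v _ (by omega)]
      simp [List.getD_eq_getElem?_getD])
    rw [sh_sh, List.length_drop, show n + 1 + ((u ++ v).length - (n + 1)) = (u ++ v).length by omega,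
      sh_ep2, P_per hq hv, fr_cast] at h2
    rw [h2, ep_app u v n hn]
    constructor
    · intro hf
      exact_mod_cast h1.1 hf
    · intro ht
      have := h1.2 ht
      have h3 : ((1 / (q - 1) - 1 : ℚ) : ℝ) < ((fv q (pv q v) ((u ++ v).drop (n + 1)) : ℚ) : ℝ) := by
        exact_mod_cast this
      push_cast at h3
      exact h3
  intro n
  induction n using Nat.strong_induction_on with
  | _ n ih =>
    rcases Nat.lt_or_ge n (u ++ v).length with hn | hn
    · exact key n hn
    · rw [List.length_append] at hn
      have h1 := ih (n - v.length) (by omega)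
      have hper : ∀ m, u.length ≤ m → ep u v (m + v.length) = ep u v m := by
        intro m hm
        obtain ⟨m', rfl⟩ : ∃ m', m = u.length + m' := ⟨m - u.length, by omega⟩
        have e1 := congrFun (sh_ep u v) (m' + v.length)
        have e2 := congrFun (sh_ep u v) m'
        have e3 := congrFun (ep_per v) m'
        simp only [sh_apply] at e1 e2 e3
        rw [add_assoc, e1, e2, add_comm m', e3]
      have e1 : ep u v n = ep u v (n - v.length) := by
        have := hper (n - v.length) (by omega)
        rw [show n - v.length + v.length = n by omega] at this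
        exact this
      have e2 : sh (n + 1) (ep u v) = sh (n - v.length + 1) (ep u v) := by
        funext i
        have := hper (n - v.length + 1 + i) (by omega)
        rw [sh_apply, sh_apply, ← this]
        congr 1
        omega
      rw [e1, e2]
      exact h1

lemma ep_val {q : ℚ} (hq : 1 < q) {u v : List Bool} (hv : 1 ≤ v.length) :
    P (q : ℝ) (ep u v) = ((fv q (pv q v) u : ℚ) : ℝ) := by
  have hq' : (1 : ℝ) < q := by exact_mod_cast hq
  have h := P_list hq' u (ep u v) (fun i hi => by
    rw [ep_app u v i (by rw [List.length_append]; omega), List.getD_append _ _ _ _ hi])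
  rw [sh_ep, P_per hq hv, fr_cast] at h
  exact h

/-- the upper bound for the smallest univoque bases -/
def BB : ℚ := 188847 / 100000

/-- one branch -/
lemma branch (u v : List Bool) (q : ℚ) (lo hi : ℚ) (hv : 1 ≤ v.length) (hq : 1 < q) (hqB : q < BB)
    (hc : chk q (pv q v) (u ++ v) = true) (hlo : fv BB (pv BB v) u ≤ lo)
    (hhi : hi ≤ fv q (pv q v) u) {x : ℝ} (h1 : (lo : ℝ) < x) (h2 : x < hi) :
    ∃ q ∈ Ux x, q ≤ (BB : ℝ) := by
  have hB : (1 : ℚ) < BB := by unfold BB; norm_num
  have hB2 : (BB : ℝ) ≤ 2 := by unfold BB; norm_num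
  have hq' : (1 : ℝ) < q := by exact_mod_cast hq
  have hqB' : (q : ℝ) < BB := by exact_mod_cast hqB
  have hU := ep_un hq hv hc
  have e1 : P (BB : ℝ) (ep u v) < x := by
    rw [ep_val hB hv]
    refine lt_of_le_of_lt ?_ h1
    exact_mod_cast hlo
  have e2 : x < P (q : ℝ) (ep u v) := by
    rw [ep_val hq hv]
    refine lt_of_lt_of_le h2 ?_
    exact_mod_cast hhi
  obtain ⟨q', h3, h4, h5⟩ := P_ivt hq' hqB'.le _ e1 e2
  exact ⟨q', mem_Ux.2 ⟨by linarith, by linarith, _, h5, hU.mono hq' h3.le⟩, h4.le⟩

end Pool.Agent.R341.Uni
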