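import Pool.Agent.R341.Uni14

set_option autoImplicit false

namespace Pool.Agent.R341.Uni

open Filter Topology

/-- a word given by the digits `0`, `1` -/
abbrev W (l : List ℕ) : List Bool := l.map (fun n => decide (n = 1))

lemma D1 {x : ℝ} (h1 : ((618030 / 1000000 : ℚ) : ℝ) < x) (h2 : x < ((618064 / 1000000 : ℚ) : ℝ)) :
    ∃ q ∈ Ux x, q ≤ (BB : ℝ) :=
  branch (W [1,0,0,1,0,0,0,1]) (W [1,0,0,0,1,1,0,0,1,0,1,0,0]) (18884/10000) _ _ (by decide)
    (by norm_num) (by unfold BB; norm_num) (by decide +kernel) (by decide +kernel) (by decide +kernel) h1 h2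

lemma D2 {x : ℝ} (h1 : ((618052 / 1000000 : ℚ) : ℝ) < x) (h2 : x < ((618223 / 1000000 : ℚ) : ℝ)) :
    ∃ q ∈ Ux x, q ≤ (BB : ℝ) :=
  branch (W [1,0,0,1,0,0,0]) (W [1,1,0,0,0,1,1,0,1,0,0,1]) (188812/100000) _ _ (by decide)
    (by norm_num) (by unfold BB; norm_num) (by decide +kernel) (by decide +kernel) (by decide +kernel) h1 h2

lemma D3 {x : ℝ} (h1 : ((618194 / 1000000 : ℚ) : ℝ) < x) (h2 : x < ((619289 / 1000000 : ℚ) : ℝ)) :
    ∃ q ∈ Ux x, q ≤ (BB : ℝ) :=
  branch (W [1,0,0,1,0,0,0]) (W [1,1,0,0,1,0,0,1,0,1,0,0,1]) (188625/100000) _ _ (by decide)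
    (by norm_num) (by unfold BB; norm_num) (by decide +kernel) (by decide +kernel) (by decide +kernel) h1 h2

lemma D4 {x : ℝ} (h1 : ((61927 / 100000 : ℚ) : ℝ) < x) (h2 : x < ((62788 / 100000 : ℚ) : ℝ)) :
    ∃ q ∈ Ux x, q ≤ (BB : ℝ) :=
  branch (W [1,0,0,1,0,0,0,1,1]) (W [0,1,1,0,1,1,1,0,0]) (18715/10000) _ _ (by decide)
    (by norm_num) (by unfold BB; norm_num) (by decide +kernel) (by decide +kernel) (by decide +kernel) h1 h2

lemma D5 {x : ℝ} (h1 : ((62764 / 100000 : ℚ) : ℝ) < x) (h2 : x < ((6616 / 10000 : ℚ) : ℝ)) :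
    ∃ q ∈ Ux x, q ≤ (BB : ℝ) :=
  branch (W [1,0,0,1,0]) (W [0,1,1,0,0,1,1,0,1,1,0,0,1]) (1828/1000) _ _ (by decide)
    (by norm_num) (by unfold BB; norm_num) (by decide +kernel) (by decide +kernel) (by decide +kernel) h1 h2

lemma D6 {x : ℝ} (h1 : ((66006 / 100000 : ℚ) : ℝ) < x) (h2 : x < ((75 / 100 : ℚ) : ℝ)) :
    ∃ q ∈ Ux x, q ≤ (BB : ℝ) :=
  branch (W []) (W [1,0,0,1]) (176/100) _ _ (by decide)
    (by norm_num) (by unfold BB; norm_num) (by decide +kernel) (by decide +kernel) (by decide +kernel) h1 h2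

lemma D8 {x : ℝ} (h1 : ((736 / 1000 : ℚ) : ℝ) < x) (h2 : x < ((997 / 1000 : ℚ) : ℝ)) :
    ∃ q ∈ Ux x, q ≤ (BB : ℝ) :=
  branch (W []) (W [1,0]) (162/100) _ _ (by decide)
    (by norm_num) (by unfold BB; norm_num) (by decide +kernel) (by decide +kernel) (by decide +kernel) h1 h2

lemma D9 {x : ℝ} (h1 : ((92 / 100 : ℚ) : ℝ) < x) (h2 : x < ((123 / 100 : ℚ) : ℝ)) :
    ∃ q ∈ Ux x, q ≤ (BB : ℝ) :=
  branch (W [1]) (W [1,0]) (162/100) _ _ (by decide)
    (by norm_num) (by unfold BB; norm_num) (by decide +kernel) (by decide +kernel) (by decide +kernel) h1 h2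

lemma D10 {x : ℝ} (h1 : ((38967 / 100000 : ℚ) : ℝ) < x) (h2 : x < ((6180327 / 10000000 : ℚ) : ℝ)) :
    ∃ q ∈ Ux x, q ≤ (BB : ℝ) :=
  branch (W [0]) (W [1,0]) (1618035/1000000) _ _ (by decide)
    (by norm_num) (by unfold BB; norm_num) (by decide +kernel) (by decide +kernel) (by decide +kernel) h1 h2

lemma D11 {x : ℝ} (h1 : ((34952 / 100000 : ℚ) : ℝ) < x) (h2 : x < ((42649 / 100000 : ℚ) : ℝ)) :
    ∃ q ∈ Ux x, q ≤ (BB : ℝ) :=
  branch (W [0]) (W [1,0,0,1]) (176/100) _ _ (by decide)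
    (by norm_num) (by unfold BB; norm_num) (by decide +kernel) (by decide +kernel) (by decide +kernel) h1 h2

/-- adding zeros in front -/
def zs (s : ℕ → Bool) : ℕ → (ℕ → Bool)
  | 0 => s
  | j + 1 => cons false (zs s j)

lemma zs_P {q : ℝ} (hq : 1 < q) (s : ℕ → Bool) (j : ℕ) : P q (zs s j) = P q s / q ^ j := by
  induction j with
  | zero => simp [zs]
  | succ j ih =>
    rw [zs, P_cons hq, ih, dg_false, zero_add, div_div, pow_succ]

lemma zs_un {q : ℝ} (hq : 1 < q) {s : ℕ → Bool} (hs : Un q s) (h1 : P q s < 1) (j : ℕ) :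
    Un q (zs s j) := by
  induction j with
  | zero => exact hs
  | succ j ih =>
    intro n
    rcases n with _ | n
    · rw [zs, zero_add, sh_cons]
      refine ⟨fun _ => ?_, fun h => by simp at h⟩
      rw [zs_P hq]
      have h2 : (1 : ℝ) ≤ q ^ j := one_le_pow₀ hq.le
      rw [div_lt_one (by linarith)]
      linarith
    · have e1 : cons false (zs s j) (n + 1) = zs s j n := by simp [cons]
      have e2 : sh (n + 1 + 1) (cons false (zs s j)) = sh (n + 1) (zs s j) := by
        rw [show n + 1 + 1 = 1 + (n + 1) by ring, ← sh_sh, sh_cons]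
      rw [zs, e1, e2]
      exact ih n

lemma small {x : ℝ} (h0 : 0 < x) (h1 : x < 38 / 100) : ∃ q ∈ Ux x, q ≤ (BB : ℝ) := by
  set z := ep [] (W [1, 0]) with hz
  have hB : (1 : ℚ) < BB := by unfold BB; norm_num
  have hB' : (1 : ℝ) < (BB : ℝ) := by exact_mod_cast hB
  have hB2 : (BB : ℝ) ≤ 2 := by unfold BB; norm_num
  have hA : P (BB : ℝ) z < 0.736 := by
    rw [hz, ep_val hB (by decide)]
    have : fv BB (pv BB (W [1, 0])) [] < 0.736 := by decide +kernel
    have h2 : ((fv BB (pv BB (W [1, 0])) [] : ℚ) : ℝ) < ((0.736 : ℚ) : ℝ) := by exact_mod_cast this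
    refine lt_of_lt_of_eq h2 ?_
    norm_num
  have hBv : (0.9972 : ℝ) < P 1.62 z ∧ P 1.62 z < 1 ∧ (0.38 : ℝ) * 1.62 ^ 2 < P 1.62 z := by
    have e := ep_val (q := 1.62) (by norm_num) (u := []) (v := W [1, 0]) (by decide)
    have e3 : ((1.62 : ℚ) : ℝ) = 1.62 := by norm_num
    rw [e3] at e
    rw [hz, e]
    have t1 : 0.9972 < fv 1.62 (pv 1.62 (W [1, 0])) [] := by decide +kernel
    have t2 : fv 1.62 (pv 1.62 (W [1, 0])) [] < 1 := by decide +kernel
    have t3 : 0.38 * 1.62 ^ 2 < fv 1.62 (pv 1.62 (W [1, 0])) [] := by decide +kernel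
    refine ⟨?_, ?_, ?_⟩
    · have h2 : ((0.9972 : ℚ) : ℝ) < ((fv 1.62 (pv 1.62 (W [1, 0])) [] : ℚ) : ℝ) := by
        exact_mod_cast t1
      refine lt_of_eq_of_lt ?_ h2
      norm_num
    · have h2 : ((fv 1.62 (pv 1.62 (W [1, 0])) [] : ℚ) : ℝ) < ((1 : ℚ) : ℝ) := by
        exact_mod_cast t2
      refine lt_of_lt_of_eq h2 ?_
      norm_num
    · have h2 : ((0.38 * 1.62 ^ 2 : ℚ) : ℝ) < ((fv 1.62 (pv 1.62 (W [1, 0])) [] : ℚ) : ℝ) := by
        exact_mod_cast t3
      refine lt_of_eq_of_lt ?_ h2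
      norm_num
  have hU : Un (1.62 : ℝ) z := by
    have := ep_un (q := 1.62) (by norm_num) (u := []) (v := W [1, 0]) (by decide) (by decide +kernel)
    have e3 : ((1.62 : ℚ) : ℝ) = 1.62 := by norm_num
    rw [e3] at this
    exact this
  have hex : ∃ j : ℕ, P (BB : ℝ) z / (BB : ℝ) ^ (j + 2) < x := by
    have h5 : Tendsto (fun n : ℕ => P (BB : ℝ) z * (1 / (BB : ℝ)) ^ n) atTop
        (𝓝 (P (BB : ℝ) z * 0)) :=
      (tendsto_pow_atTop_nhds_zero_of_lt_one (by positivity)
        (by rw [div_lt_one (by linarith)]; exact hB')).const_mul _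
    rw [mul_zero] at h5
    obtain ⟨n, hn⟩ := (h5.eventually_lt_const h0).exists
    refine ⟨n, lt_of_le_of_lt ?_ hn⟩
    rw [one_div_pow, mul_one_div]
    refine div_le_div_of_nonneg_left (P_nonneg hB' _) (by positivity) ?_
    exact pow_le_pow_right₀ hB'.le (by omega)
  classical
  obtain ⟨j, hj1, hj2⟩ : ∃ j : ℕ, P (BB : ℝ) z / (BB : ℝ) ^ j < x ∧ x < P 1.62 z / (1.62 : ℝ) ^ j := by
    have hs := Nat.find_spec hex
    rcases Nat.eq_zero_or_pos (Nat.find hex) with h | h
    · refine ⟨2, by rw [h] at hs; exact hs, ?_⟩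
      rw [lt_div_iff₀ (by norm_num)]
      have := hBv.2.2
      nlinarith [this, h1]
    · obtain ⟨m, hm⟩ : ∃ m, Nat.find hex = m + 1 := ⟨Nat.find hex - 1, by omega⟩
      have hmin := Nat.find_min hex (m := m) (by omega)
      push Not at hmin
      rw [hm] at hs
      refine ⟨m + 1 + 2, hs, lt_of_le_of_lt hmin ?_⟩
      have hBn : (BB : ℝ) = 1.88847 := by unfold BB; norm_num
      rw [hBn, div_lt_div_iff₀ (by positivity) (by positivity)]
      rw [hBn] at hA
      have h6 : (1.62 : ℝ) ^ m ≤ 1.88847 ^ m := pow_le_pow_left₀ (by norm_num) (by norm_num) _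
      have h7 : (1.62 : ℝ) ^ (m + 1 + 2) = 1.62 ^ m * 4.251528 := by ring
      have h8 : (1.88847 : ℝ) ^ (m + 2) = 1.88847 ^ m * 3.5663189409 := by ring
      have h9 : (0 : ℝ) < 1.62 ^ m := by positivity
      rw [h7, h8]
      have t0 := P_nonneg (q := 1.88847) (by norm_num) z
      calc P 1.88847 z * (1.62 ^ m * 4.251528) ≤ 0.736 * (1.62 ^ m * 4.251528) :=
            mul_le_mul_of_nonneg_right hA.le (by positivity)
        _ < 0.9972 * (1.62 ^ m * 3.5663189409) := by nlinarith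
        _ ≤ 0.9972 * (1.88847 ^ m * 3.5663189409) := by nlinarith
        _ ≤ P 1.62 z * (1.88847 ^ m * 3.5663189409) :=
            mul_le_mul_of_nonneg_right hBv.1.le (by positivity)
  have hq62 : (1 : ℝ) < 1.62 := by norm_num
  have hle : (1.62 : ℝ) ≤ BB := by unfold BB; norm_num
  obtain ⟨q', h3, h4, h5⟩ := P_ivt hq62 hle (zs z j) (y := x) (by rw [zs_P hB']; exact hj1)
    (by rw [zs_P hq62]; exact hj2)
  exact ⟨q', mem_Ux.2 ⟨by linarith, by linarith, _, h5,
    (zs_un hq62 hU hBv.2.1 j).mono hq62 h3.le⟩, h4.le⟩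

/-- every `x > 0` has a univoque base at most `1.88847` -/
theorem F1 {x : ℝ} (h0 : 0 < x) : ∃ q ∈ Ux x, q ≤ (BB : ℝ) := by
  rcases lt_or_ge x (38 / 100) with h | h
  · exact small h0 h
  rcases lt_or_ge x (4 / 10) with h2 | h2
  · exact D11 (by push_cast; norm_num; linarith) (by push_cast; norm_num; linarith)
  rcases lt_or_ge x (618032 / 1000000) with h3 | h3
  · exact D10 (by push_cast; norm_num; linarith) (by push_cast; norm_num; linarith)
  rcases lt_or_ge x (61806 / 100000) with h4 | h4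
  · exact D1 (by push_cast; norm_num; linarith) (by push_cast; norm_num; linarith)
  rcases lt_or_ge x (6182 / 10000) with h5 | h5
  · exact D2 (by push_cast; norm_num; linarith) (by push_cast; norm_num; linarith)
  rcases lt_or_ge x (61928 / 100000) with h6 | h6
  · exact D3 (by push_cast; norm_num; linarith) (by push_cast; norm_num; linarith)
  rcases lt_or_ge x (6277 / 10000) with h7 | h7
  · exact D4 (by push_cast; norm_num; linarith) (by push_cast; norm_num; linarith)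
  rcases lt_or_ge x (661 / 1000) with h8 | h8
  · exact D5 (by push_cast; norm_num; linarith) (by push_cast; norm_num; linarith)
  rcases lt_or_ge x (74 / 100) with h9 | h9
  · exact D6 (by push_cast; norm_num; linarith) (by push_cast; norm_num; linarith)
  rcases lt_or_ge x (95 / 100) with h10 | h10
  · exact D8 (by push_cast; norm_num; linarith) (by push_cast; norm_num; linarith)
  rcases lt_or_ge x (12 / 10) with h11 | h11
  · exact D9 (by push_cast; norm_num; linarith) (by push_cast; norm_num; linarith)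
  · have hx : 0 < 1 / x := by positivity
    have hx2 : 1 / x ≤ 1 / (12 / 10) := one_div_le_one_div_of_le (by norm_num) h11
    norm_num at hx2
    have hx3 : x⁻¹ = 1 / x := by rw [one_div]
    have hq : 1 < 1 + 1 / x := by linarith
    have hval : P (1 + 1 / x) (fun _ => true) = x := by
      rw [P_ones hq]
      field_simp
      ring
    refine ⟨1 + 1 / x, mem_Ux.2 ⟨hq, ?_, fun _ => true, hval, ?_⟩, ?_⟩
    · linarith
    · intro n
      refine ⟨fun h => by simp at h, fun _ => ?_⟩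
      have e : sh (n + 1) (fun _ => true) = fun _ => true := rfl
      rw [e, P_ones hq]
      linarith
    · unfold BB
      push_cast
      norm_num
      linarith

end Pool.Agent.R341.Uni
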