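import Pool.Agent.R341.Uni15

set_option autoImplicit false

namespace Pool.Agent.R341.Uni

open Filter Topology

/-- the lower bound -/
def LL : ℚ := 1888444 / 1000000

/-- the word `1110011100111` -/
def wW : List Bool := W [1,1,1,0,0,1,1,1,0,0,1,1,1]
/-- the word `1110011100110` -/
def gW : List Bool := W [1,1,1,0,0,1,1,1,0,0,1,1,0]

theorem F2 {q : ℝ} (h1 : (LL : ℝ) ≤ q) (h2 : q ≤ (BB : ℝ)) : q ∉ Ux 1 := by
  intro hq
  obtain ⟨hq1, hq2, α, hα, hU⟩ := mem_Ux.1 hq
  have hL : (1 : ℚ) < LL := by unfold LL; norm_num
  have hB : (1 : ℚ) < BB := by unfold BB; norm_num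
  have hL' : (1 : ℝ) < (LL : ℝ) := by exact_mod_cast hL
  have hB' : (1 : ℝ) < (BB : ℝ) := by exact_mod_cast hB
  have e1 : P q (ep wW (W [0])) < 1 := by
    refine lt_of_le_of_lt (P_anti hL' h1 _) ?_
    rw [ep_val hL (by decide)]
    have : fv LL (pv LL (W [0])) wW < 1 := by decide +kernel
    exact_mod_cast this
  have e2 : 1 ≤ P q (ep gW (W [1])) := by
    refine le_trans ?_ (P_anti hq1 h2 _)
    rw [ep_val hB (by decide)]
    have : 1 ≤ fv BB (pv BB (W [1])) gW := by decide +kernel
    exact_mod_cast this
  rcases trich α (ep wW (W [0])) with h | h | h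
  · rw [← h, hα] at e1
    exact lt_irrefl _ e1
  · have := hU.lt_left hq1 h
    linarith
  · have hg : Lt (ep gW (W [1])) α := by
      obtain ⟨p, hp1, hp2, hp3⟩ := h
      by_cases hp : p < 12
      · refine ⟨p, fun i hi => ?_, ?_, hp3⟩
        · rw [← hp1 i hi]
          have hi' : i < 12 := by omega
          interval_cases i <;> rfl
        · rw [← hp2]
          interval_cases p <;> rfl
      · have hlt : ∀ i < 12, α i = ep wW (W [0]) i := fun i hi => (hp1 i (by omega)).symm
        have h12 : α 12 = true := by
          rcases Nat.lt_or_ge 12 p with h | h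
          · rw [← hp1 12 h]; rfl
          · have : p = 12 := by omega
            rw [this] at hp3
            exact hp3
        refine ⟨12, fun i hi => ?_, rfl, h12⟩
        rw [hlt i hi]
        interval_cases i <;> rfl
    have := hU.lt_right hq1 hg
    linarith

theorem F3 {c q : ℝ} (hc0 : 0 < c) (hc : c ^ 2 + c = 1) (hq : q ∈ Ux c) : (LL : ℝ) ≤ q := by
  obtain ⟨hq1, hq2, s, hs, hU⟩ := mem_Ux.1 hq
  by_contra hlt
  push Not at hlt
  have hLr : (LL : ℝ) = 1.888444 := by unfold LL; norm_num
  have hL : (1 : ℚ) < LL := by unfold LL; norm_num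
  have hL' : (1 : ℝ) < (LL : ℝ) := by exact_mod_cast hL
  have hc1 : c < 0.6181 := by nlinarith
  have hc2 : 0.618 < c := by nlinarith
  have hinv : 1 / c = 1 + c := by
    rw [div_eq_iff hc0.ne']
    linarith
  have hq0 : 0 < q := by linarith
  cases h0 : s 0
  · -- first digit 0
    have h1 := (hU 0).1 h0
    rw [zero_add] at h1
    have h2 : P q (sh 1 s) = q * c := by
      have := P_succ hq1 s
      rw [h0, dg_false, zero_add, hs] at this
      rw [this]
      field_simp
    rw [h2] at h1
    have h3 : q < 1 + c := by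
      rw [← hinv, lt_div_iff₀ hc0]
      exact h1
    -- a position with digits 0, 1
    obtain ⟨n, hn⟩ := exists_true_of_pos (q := q) (d := s) (by rw [hs]; exact hc0)
    classical
    have hex : ∃ n, s n = true := ⟨n, hn⟩
    have hm1 := Nat.find_spec hex
    have hm0 : Nat.find hex ≠ 0 := by
      intro h
      rw [h, h0] at hm1
      exact absurd hm1 (by simp)
    obtain ⟨m, hm⟩ : ∃ m, Nat.find hex = m + 1 := ⟨Nat.find hex - 1, by omega⟩
    rw [hm] at hm1
    have hm2 : s m = false := by
      have := Nat.find_min hex (m := m) (by omega)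
      simpa using this
    have a1 := (hU m).1 hm2
    have a2 := (hU (m + 1)).2 hm1
    rw [P_succ hq1 (sh (m + 1) s), sh_apply, add_zero, hm1, dg_true, sh_sh,
      div_lt_one hq0] at a1
    have a3 : 1 / (q - 1) < q := by linarith
    rw [div_lt_iff₀ (by linarith)] at a3
    nlinarith
  · -- first digit 1
    have h1 := (hU 0).2 h0
    rw [zero_add] at h1
    have h2 : P q (sh 1 s) = q * c - 1 := by
      have := P_succ hq1 s
      rw [h0, dg_true, hs] at this
      rw [this]
      field_simp
      ring
    rw [h2] at h1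
    have h3 : 1 / (q - 1) < q * c := by linarith
    rw [div_lt_iff₀ (by linarith)] at h3
    have h4 : 1 + c < q ^ 2 - q := by
      have : (1 + c) * 1 < (1 + c) * (q * c * (q - 1)) := by
        apply mul_lt_mul_of_pos_left h3; linarith
      have e : (1 + c) * (q * c * (q - 1)) = (c ^ 2 + c) * (q ^ 2 - q) := by ring
      rw [e, hc, mul_one, one_mul] at this
      exact this
    have hsplit := P_split hq1 s 4
    have t4 := P_nonneg hq1 (sh 4 s)
    have hT : 0 ≤ P q (sh 4 s) / q ^ 4 := div_nonneg t4 (by positivity)
    simp only [Finset.sum_range_succ, Finset.sum_range_zero, h0, dg_true, zero_add, pow_one] at hsplit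
    rw [hs] at hsplit
    have i1 : 1 / (LL : ℝ) ≤ 1 / q := one_div_le_one_div_of_le hq0 hlt.le
    have i2 : 1 / (LL : ℝ) ^ 2 ≤ 1 / q ^ 2 :=
      one_div_le_one_div_of_le (by positivity) (pow_le_pow_left₀ hq0.le hlt.le 2)
    have i3 : 1 / (LL : ℝ) ^ 3 ≤ 1 / q ^ 3 :=
      one_div_le_one_div_of_le (by positivity) (pow_le_pow_left₀ hq0.le hlt.le 3)
    have d1 := dg_nonneg (s 1)
    have d2 := dg_nonneg (s 2)
    have d3 := dg_nonneg (s 3)
    have e1 : 0 ≤ dg (s 1) / q ^ 2 := by positivity
    have e2 : 0 ≤ dg (s 2) / q ^ 3 := by positivity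
    have e3 : 0 ≤ dg (s 3) / q ^ 4 := by positivity
    norm_num at hsplit
    rw [hLr] at i1 i2 i3
    cases h1' : s 1
    · cases h2' : s 2
      · cases h3' : s 3
        · -- 1000
          have h5 := (hU 3).1 h3'
          rw [show 3 + 1 = 4 by norm_num] at h5
          have h6 : c < 1 / q + 1 / q ^ 4 := by
            have : P q (sh 4 s) / q ^ 4 < 1 / q ^ 4 := div_lt_div_of_pos_right h5 (by positivity)
            rw [h1', h2', h3'] at hsplit
            simp only [dg_false, zero_div, add_zero] at hsplit
            rw [one_div q]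
            linarith
          have h7 : c * q ^ 4 < q ^ 3 + 1 := by
            have : c * q ^ 4 < (1 / q + 1 / q ^ 4) * q ^ 4 := mul_lt_mul_of_pos_right h6 (by positivity)
            have e : (1 / q + 1 / q ^ 4) * q ^ 4 = q ^ 3 + 1 := by field_simp
            rw [e] at this
            exact this
          have h8 : q ^ 4 - (1 + c) * (q ^ 3 + 1) = (q ^ 2 - q - (1 + c)) * (q ^ 2 - c * q + 1) := by
            have : c ^ 2 = 1 - c := by linarith
            ring_nf
            rw [this]
            ring
          have h9 : 0 < (q ^ 2 - q - (1 + c)) * (q ^ 2 - c * q + 1) :=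
            mul_pos (by linarith) (by nlinarith)
          have h10 : (1 + c) * (c * q ^ 4) < (1 + c) * (q ^ 3 + 1) :=
            mul_lt_mul_of_pos_left h7 (by linarith)
          have h11 : (1 + c) * (c * q ^ 4) = q ^ 4 := by
            have : (1 + c) * (c * q ^ 4) = (c ^ 2 + c) * q ^ 4 := by ring
            rw [this, hc, one_mul]
          rw [h11] at h10
          linarith
        · -- 1001
          have hLt : Lt (ep (W [1,0,0,0]) (W [1])) s := by
            refine ⟨3, fun i hi => ?_, rfl, h3'⟩
            interval_cases i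
            · rw [h0]; rfl
            · rw [h1']; rfl
            · rw [h2']; rfl
          have h5 := hU.lt_right hq1 hLt
          have h6 := P_anti hq1 hlt.le (ep (W [1,0,0,0]) (W [1]))
          rw [ep_val hL (by decide)] at h6
          have h7 : (0.618038 : ℚ) < fv LL (pv LL (W [1])) (W [1,0,0,0]) := by decide +kernel
          have h8 : ((0.618038 : ℚ) : ℝ) < ((fv LL (pv LL (W [1])) (W [1,0,0,0]) : ℚ) : ℝ) := by
            exact_mod_cast h7
          have h9 : (0.618038 : ℝ) < c := by
            have e : ((0.618038 : ℚ) : ℝ) = 0.618038 := by norm_num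
            rw [e] at h8
            linarith
          nlinarith
      · -- 101
        have h7 : (0.67 : ℝ) < c := by
          rw [h1', h2'] at hsplit
          norm_num at hsplit i1 i2 i3
          have : (q ^ 3)⁻¹ = 1 / q ^ 3 := by rw [one_div]
          linarith
        linarith
    · -- 11
      have h7 : (0.67 : ℝ) < c := by
        rw [h1'] at hsplit
        norm_num at hsplit i1 i2 i3
        linarith
      linarith

end Pool.Agent.R341.Uni
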