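import Pool.Agent.R341.Uni16

set_option autoImplicit false

namespace Pool.Agent.R341.Uni

open Filter Topology

/-- a limit of admissible sequences which lie above it is admissible -/
lemma adm_lim {T : ℕ → Bool} {t : ℕ → ℕ → Bool} (hlim : ∀ N, ∀ᶠ k in atTop, ∀ i < N, t k i = T i)
    (ht : ∀ k, Adm (t k)) (hgt : ∀ᶠ k in atTop, Lt T (t k)) : Adm T := by
  have hT0 : T 0 = false := by
    obtain ⟨k, hk⟩ := (hlim 1).exists
    rw [← hk 0 (by omega)]
    exact (ht k).1
  refine ⟨hT0, fun m hm => ?_⟩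
  by_contra hK
  -- equality
  have heq : ∀ i, T (m + i) = xor (T i) (T m) := by
    rcases trich (fun i => xor (T (m + i)) (T m)) T with h | h | h
    · intro i
      have this : xor (T (m + i)) (T m) = T i := congrFun h i
      rw [← this]
      cases T (m + i) <;> cases T m <;> rfl
    · exfalso
      apply hK
      obtain ⟨p, hp1, hp2, hp3⟩ := h
      exact ⟨p, fun i hi => by simpa using hp1 i hi, by simpa using hp2, hp3⟩
    · exfalso
      obtain ⟨p, hp1, hp2, hp3⟩ := h
      obtain ⟨k, hk⟩ := (hlim (m + p + 1)).exists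
      obtain ⟨r, hr1, hr2, hr3⟩ := (ht k).2 m hm
      simp only [sh_apply, add_zero] at hr1 hr2 hr3 hp1 hp2 hp3
      rcases lt_trichotomy r p with h | h | h
      · rw [hk (m + r) (by omega), hk m (by omega)] at hr2
        rw [hk r (by omega)] at hr3
        have := hp1 r h
        rw [hr3, hr2] at this
        exact absurd this (by simp)
      · subst h
        rw [hk r (by omega), hp2] at hr3
        exact absurd hr3 (by simp)
      · have := hr1 p h
        rw [hk (m + p) (by omega), hk m (by omega), hk p (by omega), hp3, hp2] at this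
        exact absurd this (by simp)
  -- a period
  obtain ⟨M, hM1, hM⟩ : ∃ M, 1 ≤ M ∧ ∀ i, T (M + i) = T i := by
    cases hTm : T m
    · exact ⟨m, hm, fun i => by rw [heq i, hTm, Bool.xor_false]⟩
    · refine ⟨m + m, by omega, fun i => ?_⟩
      rw [add_assoc, heq, heq, hTm]
      cases T i <;> rfl
  obtain ⟨k, hk1, hk2⟩ := (hgt.and (hlim (M + 1))).exists
  obtain ⟨p, hp1, hp2, hp3⟩ := hk1
  have hpM : M < p := by
    by_contra hc
    push Not at hc
    rw [hk2 p (by omega), hp2] at hp3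
    exact absurd hp3 (by simp)
  obtain ⟨p', rfl⟩ : ∃ p', p = M + p' := ⟨p - M, by omega⟩
  obtain ⟨r, hr1, hr2, hr3⟩ := (ht k).2 M hM1
  simp only [sh_apply, add_zero] at hr1 hr2 hr3
  have hM0 : t k M = false := by
    rw [hk2 M (by omega)]
    have := hM 0
    rw [add_zero] at this
    rw [this, hT0]
  rw [hM0, Bool.xor_false] at hr2
  have hr1' : ∀ i < r, t k (M + i) = t k i := fun i hi => by
    have := hr1 i hi
    rwa [hM0, Bool.xor_false] at this
  have hTp : t k p' = false := by
    rw [← hp1 p' (by omega), ← hM p', hp2]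
  rcases lt_trichotomy r p' with h | h | h
  · rw [← hp1 (M + r) (by omega), hM, hp1 r (by omega), hr3] at hr2
    exact absurd hr2 (by simp)
  · subst h
    rw [hp3] at hr2
    exact absurd hr2 (by simp)
  · have := hr1' p' h
    rw [hp3, hTp] at this
    exact absurd this (by simp)

/-- a point of the closure of `U` which is isolated from the left belongs to `U` -/
lemma mem_of_isolated {Q q0 : ℝ} (hq0 : q0 < Q) (hQ : Q ∈ closure (Ux 1))
    (hiso : Set.Ioo q0 Q ∩ Ux 1 = ∅) : Q ∈ Ux 1 := by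
  by_contra hn
  obtain ⟨QK, hK1, hK2, hK3⟩ := exists_KL
  have hK := (KL_least (by linarith) (by linarith) hK3).2
  have hQ1 : 1 < Q := by
    have : Ux 1 ⊆ Set.Ici QK := fun q hq => hK hq
    have h2 := closure_minimal this isClosed_Ici hQ
    have h3 : QK ≤ Q := h2
    linarith
  have hQ2 : Q ≤ 2 := by
    have : Ux 1 ⊆ Set.Iic 2 := fun q hq => hq.2.1
    exact closure_minimal this isClosed_Iic hQ
  obtain ⟨u, hu, hlim⟩ := mem_closure_iff_seq_limit.1 hQ
  have hex : ∀ k, ∃ d, P (u k) d = 1 ∧ Un (u k) d := fun k => (mem_Ux.1 (hu k)).2.2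
  choose d hd1 hd2 using hex
  obtain ⟨D, φ, hφ, hD⟩ := CompactSpace.tendsto_subseq d
  have hlim' : Tendsto (fun k => u (φ k)) atTop (𝓝 Q) := hlim.comp hφ.tendsto_atTop
  have hval : P Q D = 1 := by
    have h2 := P_tendsto hQ1 hlim' hD
    refine tendsto_nhds_unique h2 ?_
    refine tendsto_const_nhds.congr fun k => ?_
    exact (hd1 _).symm
  have hgt : ∀ᶠ k in atTop, Q < u (φ k) := by
    filter_upwards [hlim'.eventually (lt_mem_nhds hq0)] with k hk
    by_contra hc
    push Not at hc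
    rcases hc.lt_or_eq with h | h
    · have : u (φ k) ∈ Set.Ioo q0 Q ∩ Ux 1 := ⟨⟨hk, h⟩, hu _⟩
      rw [hiso] at this
      exact this
    · rw [← h] at hn
      exact hn (hu _)
  have hadm : Adm (cons false D) := by
    refine adm_lim (t := fun k => cons false (d (φ k))) (fun N => ?_) (fun k => ?_) ?_
    · filter_upwards [agree_eventually hD N] with k hk i hi
      rcases Nat.eq_zero_or_pos i with rfl | h0
      · rfl
      · obtain ⟨j, rfl⟩ : ∃ j, i = j + 1 := ⟨i - 1, by omega⟩
        simp only [cons, Nat.add_sub_cancel]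
        rw [if_neg (by omega), if_neg (by omega)]
        exact hk j (by omega)
    · exact adm_of_un (mem_Ux.1 (hu _)).1 rfl (by rw [sh_cons]; exact hd1 _)
        (by rw [sh_cons]; exact hd2 _)
    · filter_upwards [hgt] with k hk
      have h1 : P (u (φ k)) D < 1 := by
        obtain ⟨n, hn⟩ := exists_true_of_pos (q := Q) (d := D) (by rw [hval]; norm_num)
        rw [← hval]
        exact P_strict hQ1 hk D hn
      have hLt : Lt D (d (φ k)) := by
        rcases trich D (d (φ k)) with h | h | h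
        · rw [h, hd1] at h1
          exact absurd h1 (lt_irrefl _)
        · exact h
        · have := (hd2 (φ k)).lt_left (mem_Ux.1 (hu _)).1 h
          rw [hd1] at this
          linarith
      obtain ⟨p, hp1, hp2, hp3⟩ := hLt
      refine ⟨p + 1, fun i hi => ?_, by simpa [cons] using hp2, by simpa [cons] using hp3⟩
      rcases Nat.eq_zero_or_pos i with rfl | h0
      · rfl
      · obtain ⟨j, rfl⟩ : ∃ j, i = j + 1 := ⟨i - 1, by omega⟩
        simp only [cons, Nat.add_sub_cancel]
        rw [if_neg (by omega), if_neg (by omega)]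
        exact hp1 j (by omega)
  apply hn
  refine mem_Ux.2 ⟨hQ1, hQ2, D, hval, ?_⟩
  refine lexnum hQ1 (t := cons false D) rfl (fun m => hadm.inf m) (by rw [sh_cons]; exact hval) ?_
  intro m
  have := hadm.2 (m + 1) (by omega)
  have e : sh (m + 1) (cons false D) = sh m D := by
    rw [add_comm m 1, ← sh_sh, sh_cons]
  rw [e] at this
  exact this

/-- all left-isolated elements of `U` up to the maximum have uncountable level sets -/
theorem level_all {q q0 : ℝ} (hq0 : q0 < q) (hqU : q ∈ Ux 1) (hiso : Set.Ioo q0 q ∩ Ux 1 = ∅)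
    (hle : q ≤ sSup ((fun x : ℝ => sInf (Ux x)) '' Set.Ioi 0)) :
    ¬ {x : ℝ | 0 < x ∧ sInf (Ux x) = q}.Countable := by
  have hbdd : ∀ x : ℝ, 0 < x → sInf (Ux x) ≤ (BB : ℝ) := fun x hx => by
    obtain ⟨q', h1, h2⟩ := F1 hx
    exact (csInf_le (bdd_Ux x) h1).trans h2
  have hne : ((fun x : ℝ => sInf (Ux x)) '' Set.Ioi 0).Nonempty :=
    ⟨sInf (Ux 1), 1, by simp, rfl⟩
  have hBA : BddAbove ((fun x : ℝ => sInf (Ux x)) '' Set.Ioi 0) := by
    refine ⟨(BB : ℝ), ?_⟩
    rintro _ ⟨x, hx, rfl⟩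
    exact hbdd x hx
  by_cases hlt : ∃ c : ℝ, 0 < c ∧ q < sInf (Ux c)
  · obtain ⟨c, hc0, hc⟩ := hlt
    obtain ⟨t, ht, hα, hunb⟩ := unb_of_isolated hq0 hqU hiso
    obtain ⟨hq1, hq2, _⟩ := mem_Ux.1 hqU
    have hBB : (BB : ℝ) < 2 := by unfold BB; norm_num
    have hq2' : q < 2 := by
      have := hbdd c hc0
      linarith
    have hUα : Un q (sh 1 t) := by
      refine lexnum hq1 ht.1 (fun m => ht.inf m) hα fun m => ?_
      have := ht.2 (1 + m) (by omega)
      rw [sh_sh]
      exact this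
    have h := level_uncountable2 hq1 hq2' ht hα hUα hunb hc0
      (fun q' hq' => lt_of_lt_of_le hc (csInf_le (bdd_Ux c) hq'))
    have hsub : Lv q ⊆ {x : ℝ | 0 < x ∧ sInf (Ux x) = q} := fun x hx => ⟨hx.1, hx.2.csInf_eq⟩
    exact fun h3 => h (h3.mono hsub)
  · exfalso
    push Not at hlt
    have h5 : (0 : ℝ) ≤ Real.sqrt 5 := Real.sqrt_nonneg 5
    have h5' : Real.sqrt 5 ^ 2 = 5 := Real.sq_sqrt (by norm_num)
    set c : ℝ := (Real.sqrt 5 - 1) / 2 with hc
    have hc0 : 0 < c := by
      have : 1 < Real.sqrt 5 := by nlinarith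
      rw [hc]; linarith
    have hc1 : c ^ 2 + c = 1 := by rw [hc]; nlinarith
    obtain ⟨q', hq'1, hq'2⟩ := F1 hc0
    have hL : (LL : ℝ) ≤ sInf (Ux c) := le_csInf ⟨q', hq'1⟩ fun r hr => F3 hc0 hc1 hr
    have h1 : (LL : ℝ) ≤ q := hL.trans (hlt c hc0)
    have h2 : q ≤ (BB : ℝ) := by
      refine hle.trans (csSup_le hne ?_)
      rintro _ ⟨x, hx, rfl⟩
      exact hbdd x hx
    exact F2 h1 h2 hqU

end Pool.Agent.R341.Uni
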