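import Pool.Agent.R341.Uni1

set_option autoImplicit false

namespace Pool.Agent.R341.Uni

open Filter Topology

lemma P_abs {q q' : ℝ} (hq : 1 < q) (hq' : 1 < q') (d : ℕ → Bool) :
    |P q d - P q' d| ≤ |1 / (q - 1) - 1 / (q' - 1)| := by
  rcases le_total q q' with h | h
  · have h1 := P_anti hq h d
    have h2 := P_lip hq h d
    rw [abs_of_nonneg (by linarith)]
    exact h2.trans (le_abs_self _)
  · have h1 := P_anti hq' h d
    have h2 := P_lip hq' h d
    rw [abs_sub_comm, abs_sub_comm (1 / (q - 1)), abs_of_nonneg (by linarith)]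
    exact h2.trans (le_abs_self _)

lemma P_cont (d : ℕ → Bool) : ContinuousOn (fun q => P q d) (Set.Ioi 1) := by
  intro q hq
  have hq1 : (1 : ℝ) < q := hq
  apply ContinuousAt.continuousWithinAt
  rw [ContinuousAt, tendsto_iff_norm_sub_tendsto_zero]
  have h1 : Tendsto (fun x : ℝ => |1 / (x - 1) - 1 / (q - 1)|) (𝓝 q) (𝓝 0) := by
    have hc : ContinuousAt (fun x : ℝ => |1 / (x - 1) - 1 / (q - 1)|) q := by
      have : q - 1 ≠ 0 := by linarith
      fun_prop (disch := assumption)
    have := hc.tendsto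
    simpa using this
  refine squeeze_zero' (Eventually.of_forall fun x => norm_nonneg _) ?_ h1
  filter_upwards [lt_mem_nhds hq1] with x hx
  rw [Real.norm_eq_abs]
  exact P_abs hx hq1 d

/-- intermediate value -/
lemma P_ivt {a b y : ℝ} (ha : 1 < a) (hab : a ≤ b) (d : ℕ → Bool) (h1 : P b d < y) (h2 : y < P a d) :
    ∃ q, a < q ∧ q < b ∧ P q d = y := by
  have hc : ContinuousOn (fun q => P q d) (Set.Icc a b) :=
    (P_cont d).mono fun x hx => lt_of_lt_of_le ha hx.1
  obtain ⟨q, hq, h⟩ := intermediate_value_Ioo' hab hc (show y ∈ Set.Ioo (P b d) (P a d) from ⟨h1, h2⟩)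
  exact ⟨q, hq.1, hq.2, h⟩

lemma Un.mono {q q' : ℝ} (hq : 1 < q) (hqq : q ≤ q') {d : ℕ → Bool} (h : Un q d) : Un q' d := by
  intro n
  have hq' : 1 < q' := by linarith
  constructor
  · intro hn
    exact lt_of_le_of_lt (P_anti hq hqq _) ((h n).1 hn)
  · intro hn
    have h1 := P_anti hq hqq (fun i => !(Uni.sh (n + 1) d i))
    rw [P_compl hq, P_compl hq'] at h1
    have := (h n).2 hn
    linarith

/-- the digits of `c`, complemented if `c 0 = true`, form a sequence which is smaller than `t` -/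
def Kp (t c : ℕ → Bool) : Prop :=
  ∃ k, (∀ i < k, xor (c i) (c 0) = t i) ∧ xor (c k) (c 0) = false ∧ t k = true

lemma Kp.compl {t c : ℕ → Bool} (h : Kp t c) : Kp t (fun i => !c i) := by
  obtain ⟨k, h1, h2, h3⟩ := h
  exact ⟨k, fun i hi => by simpa using h1 i hi, by simpa using h2, h3⟩

/-- admissible sequences -/
def Adm (t : ℕ → Bool) : Prop := t 0 = false ∧ ∀ m, 1 ≤ m → Kp t (sh m t)

lemma Adm.inf {t : ℕ → Bool} (h : Adm t) (m : ℕ) : ∃ n, m ≤ n ∧ t n = true := by
  by_contra hc
  push Not at hc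
  have hc' : ∀ n, m ≤ n → t n = false := fun n hn => by simpa using hc n hn
  -- the last `true`
  obtain ⟨k, hk1, hk2, hk3⟩ := h.2 1 le_rfl
  have hex : ∃ n, n < m ∧ t n = true := by
    refine ⟨k, ?_, hk3⟩
    by_contra hlt
    rw [hc' k (by omega)] at hk3
    exact absurd hk3 (by decide)
  classical
  let S := (Finset.range m).filter fun n => t n = true
  have hS : S.Nonempty := by
    obtain ⟨n, h1, h2⟩ := hex
    exact ⟨n, by simp [S, h1, h2]⟩
  obtain ⟨n, hn, hmax⟩ := S.exists_max_image id hS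
  simp only [S, Finset.mem_filter, Finset.mem_range, id] at hn hmax
  have hn1 : 1 ≤ n := by
    rcases Nat.eq_zero_or_pos n with rfl | h0
    · rw [h.1] at hn; exact absurd hn.2 (by decide)
    · exact h0
  obtain ⟨j, hj1, hj2, hj3⟩ := h.2 n hn1
  have hj0 : 1 ≤ j := by
    rcases Nat.eq_zero_or_pos j with rfl | h0
    · rw [h.1] at hj3; exact absurd hj3 (by decide)
    · exact h0
  have : t (n + j) = false := by
    by_contra hcc
    have h5 : t (n + j) = true := by simpa using hcc
    rcases Nat.lt_or_ge (n + j) m with h6 | h6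
    · have := hmax (n + j) ⟨h6, h5⟩; omega
    · rw [hc' _ h6] at h5; exact absurd h5 (by decide)
  simp [this, hn.2] at hj2

lemma P_pos {q : ℝ} (hq : 1 < q) {d : ℕ → Bool} {n : ℕ} (hn : d n = true) : 0 < P q d := by
  rw [P_split hq d (n + 1), Finset.sum_range_succ, hn]
  have h1 : 0 ≤ ∑ i ∈ Finset.range n, dg (d i) / q ^ (i + 1) :=
    Finset.sum_nonneg fun i _ => div_nonneg (dg_nonneg _) (by positivity)
  have h2 : 0 ≤ P q (sh (n + 1) d) / q ^ (n + 1) := div_nonneg (P_nonneg hq _) (by positivity)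
  have h3 : 0 < dg true / q ^ (n + 1) := by simp only [dg_true]; positivity
  linarith

/-- key identity -/
lemma key_id {q : ℝ} (hq : 1 < q) {t c : ℕ → Bool} (ht0 : t 0 = false) (h1 : P q (sh 1 t) = 1)
    {n k : ℕ} (hcn : c n = false) (hk1 : ∀ i < k, xor (sh n c i) (sh n c 0) = t i)
    (hk2 : xor (sh n c k) (sh n c 0) = false) (hk3 : t k = true) :
    1 ≤ k ∧ c (n + k) = false ∧
    P q (sh (n + 1) c) - 1 = (P q (sh (n + k + 1) c) - 1 - P q (sh (k + 1) t)) / q ^ k := by
  have hk0 : 1 ≤ k := by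
    rcases Nat.eq_zero_or_pos k with rfl | h0
    · rw [ht0] at hk3; exact absurd hk3 (by decide)
    · exact h0
  obtain ⟨k', rfl⟩ : ∃ k', k = k' + 1 := ⟨k - 1, by omega⟩
  have hck : c (n + (k' + 1)) = false := by
    simpa [hcn] using hk2
  refine ⟨hk0, hck, ?_⟩
  have h := diff_eq hq (d := sh (n + 1) c) (e := sh 1 t) (p := k') (fun i hi => by
    have := hk1 (i + 1) (by omega)
    simp only [sh_apply, add_zero, hcn, Bool.xor_false] at this
    simp only [sh_apply]
    rw [show n + 1 + i = n + (i + 1) by ring, this, add_comm 1 i])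
  rw [h1, sh_sh, sh_sh, P_succ hq (sh (1 + k') t), P_succ hq (sh (n + 1 + k') c), sh_sh, sh_sh,
    sh_apply, sh_apply, add_zero, add_zero, show 1 + k' = k' + 1 by ring, hk3,
    show n + 1 + k' = n + (k' + 1) by ring, hck] at h
  simp only [dg_true, dg_false] at h
  have hq0 : q ≠ 0 := by linarith
  rw [pow_succ]
  field_simp at h ⊢
  linarith

/-- from lexicographic to numerical conditions -/
lemma lexnum {q : ℝ} (hq : 1 < q) {t c : ℕ → Bool} (ht : t 0 = false)
    (hinf : ∀ m, ∃ n, m ≤ n ∧ t n = true) (h1 : P q (sh 1 t) = 1)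
    (hc : ∀ m, Kp t (sh m c)) : Un q c := by
  -- the first half
  have half : ∀ c : ℕ → Bool, (∀ m, Kp t (sh m c)) → ∀ n, c n = false → P q (sh (n + 1) c) < 1 := by
    intro c hc
    have hA : 0 < 1 / (q - 1) := by
      apply one_div_pos.2; linarith
    have aux : ∀ N n, c n = false → P q (sh (n + 1) c) - 1 ≤ (1 / (q - 1)) / q ^ N := by
      intro N
      induction N with
      | zero =>
        intro n _
        have := P_le hq (sh (n + 1) c)
        simp only [pow_zero, div_one]
        linarith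
      | succ N ih =>
        intro n hn
        obtain ⟨k, hk1, hk2, hk3⟩ := hc n
        obtain ⟨hk0, hck, hid⟩ := key_id hq ht h1 hn hk1 hk2 hk3
        have h2 := ih (n + k) hck
        have h3 := P_nonneg hq (sh (k + 1) t)
        rw [hid]
        have hqk : q ≤ q ^ k := by
          calc q = q ^ 1 := (pow_one q).symm
            _ ≤ q ^ k := pow_le_pow_right₀ hq.le hk0
        rw [div_le_iff₀ (by positivity)]
        calc P q (sh (n + k + 1) c) - 1 - P q (sh (k + 1) t) ≤ 1 / (q - 1) / q ^ N := by linarith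
          _ = 1 / (q - 1) / q ^ (N + 1) * q := by
              have : q ≠ 0 := by linarith
              have : q - 1 ≠ 0 := by linarith
              rw [pow_succ]; field_simp
          _ ≤ 1 / (q - 1) / q ^ (N + 1) * q ^ k :=
              mul_le_mul_of_nonneg_left hqk (by positivity)
    have hle : ∀ n, c n = false → P q (sh (n + 1) c) ≤ 1 := by
      intro n hn
      have hlim : Tendsto (fun N : ℕ => (1 / (q - 1)) / q ^ N) atTop (𝓝 0) := by
        have h5 : Tendsto (fun n : ℕ => (1 / (q - 1)) * (1 / q) ^ n) atTop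
            (𝓝 ((1 / (q - 1)) * 0)) :=
          (tendsto_pow_atTop_nhds_zero_of_lt_one (by positivity)
            (by rw [div_lt_one (by linarith)]; exact hq)).const_mul _
        rw [mul_zero] at h5
        refine h5.congr fun n => ?_
        rw [one_div_pow, mul_one_div]
      have := ge_of_tendsto' hlim (fun N => aux N n hn)
      linarith
    intro n hn
    obtain ⟨k, hk1, hk2, hk3⟩ := hc n
    obtain ⟨hk0, hck, hid⟩ := key_id hq ht h1 hn hk1 hk2 hk3
    obtain ⟨j, hj, hj2⟩ := hinf (k + 1)
    have h3 : 0 < P q (sh (k + 1) t) := P_pos hq (n := j - (k + 1)) (by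
      rw [sh_apply, show k + 1 + (j - (k + 1)) = j by omega]; exact hj2)
    have h4 := hle _ hck
    have h5 : (P q (sh (n + k + 1) c) - 1 - P q (sh (k + 1) t)) / q ^ k < 0 :=
      div_neg_of_neg_of_pos (by linarith) (by positivity)
    linarith
  intro n
  refine ⟨half c hc n, fun hn => ?_⟩
  have h2 := half (fun i => !c i) (fun m => (hc m).compl) n (by simpa using hn)
  have e : sh (n + 1) (fun i => !c i) = fun i => !(sh (n + 1) c i) := rfl
  rw [e, P_compl hq] at h2
  linarith

/-- from numerical to lexicographic conditions -/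
lemma adm_of_un {q : ℝ} (hq : 1 < q) {t : ℕ → Bool} (ht : t 0 = false) (h1 : P q (sh 1 t) = 1)
    (hU : Un q (sh 1 t)) : Adm t := by
  refine ⟨ht, fun m hm => ?_⟩
  obtain ⟨m', rfl⟩ : ∃ m', m = m' + 1 := ⟨m - 1, by omega⟩
  have hUm := hU m'
  have hUn : Un q (sh (m' + 1) (sh 1 t)) := hU.sh _
  simp only [sh_apply, show 1 + m' = m' + 1 by ring] at hUm
  cases htm : t (m' + 1)
  · have h2 := hUm.1 htm
    have h3 : Lt (sh (m' + 1) (sh 1 t)) (sh 1 t) := by
      rcases trich (sh (m' + 1) (sh 1 t)) (sh 1 t) with h | h | h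
      · rw [h, h1] at h2; exact absurd h2 (lt_irrefl _)
      · exact h
      · have := hU.lt_left hq h
        linarith
    obtain ⟨p, hp1, hp2, hp3⟩ := h3
    refine ⟨p + 1, fun i hi => ?_, ?_, ?_⟩
    · rcases Nat.eq_zero_or_pos i with rfl | hi0
      · simp [ht]
      · obtain ⟨i', rfl⟩ : ∃ i', i = i' + 1 := ⟨i - 1, by omega⟩
        have := hp1 i' (by omega)
        simp only [sh_apply] at this
        simp only [sh_apply, add_zero, htm, Bool.xor_false]
        rw [show m' + 1 + (i' + 1) = 1 + (m' + 1 + i') by ring, this, add_comm 1 i']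
    · simp only [sh_apply, add_zero, htm, Bool.xor_false]
      simp only [sh_apply] at hp2
      rw [show m' + 1 + (p + 1) = 1 + (m' + 1 + p) by ring, hp2]
    · simp only [sh_apply] at hp3
      rw [add_comm p 1]; exact hp3
  · have h2 := hUm.2 htm
    have h2' : P q (fun i => !(sh (m' + 1) (sh 1 t)) i) < 1 := by
      rw [P_compl hq]; linarith
    have hUc : Un q (fun i => !(sh (m' + 1) (sh 1 t)) i) := hUn.compl hq
    have h3 : Lt (fun i => !(sh (m' + 1) (sh 1 t)) i) (sh 1 t) := by
      rcases trich (fun i => !(sh (m' + 1) (sh 1 t)) i) (sh 1 t) with h | h | h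
      · rw [h, h1] at h2'; exact absurd h2' (lt_irrefl _)
      · exact h
      · have := hU.lt_left hq h
        linarith
    obtain ⟨p, hp1, hp2, hp3⟩ := h3
    refine ⟨p + 1, fun i hi => ?_, ?_, ?_⟩
    · rcases Nat.eq_zero_or_pos i with rfl | hi0
      · simp [ht]
      · obtain ⟨i', rfl⟩ : ∃ i', i = i' + 1 := ⟨i - 1, by omega⟩
        have := hp1 i' (by omega)
        simp only [sh_apply] at this
        simp only [sh_apply, add_zero, htm, Bool.xor_true]
        rw [show m' + 1 + (i' + 1) = 1 + (m' + 1 + i') by ring, this, add_comm 1 i']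
    · simp only [sh_apply, add_zero, htm, Bool.xor_true]
      simp only [sh_apply] at hp2
      rw [show m' + 1 + (p + 1) = 1 + (m' + 1 + p) by ring, hp2]
    · simp only [sh_apply] at hp3
      rw [add_comm p 1]; exact hp3

end Pool.Agent.R341.Uni
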