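import Pool.Agent.R341.Uni2

set_option autoImplicit false

namespace Pool.Agent.R341.Uni

/-- the normalised tail of `t` at `o` and `t` differ at `j` -/
def Dif (t : ℕ → Bool) (o j : ℕ) : Prop := xor (t (o + j)) (t o) ≠ t j

/-- `n` is not covered by a long agreement which starts before `n` -/
def Good (t : ℕ → Bool) (n : ℕ) : Prop :=
  t n = true ∧ ∀ o, 1 ≤ o → o < n → t o = true → ∃ j ≤ n - o, Dif t o j

/-- all agreements which start before `n` are shorter than `n'` -/
def Next (t : ℕ → Bool) (n n' : ℕ) : Prop :=
  ∀ o, 1 ≤ o → o < n → t o = true → ∃ j < n', Dif t o j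

/-- first difference -/
lemma Adm.first {t : ℕ → Bool} (h : Adm t) {o : ℕ} (ho : 1 ≤ o) :
    ∃ k, 1 ≤ k ∧ (∀ i < k, xor (t (o + i)) (t o) = t i) ∧ xor (t (o + k)) (t o) = false ∧
      t k = true ∧ (∀ j, Dif t o j → k ≤ j) := by
  obtain ⟨k, h1, h2, h3⟩ := h.2 o ho
  simp only [sh_apply, add_zero] at h1 h2
  refine ⟨k, ?_, h1, h2, h3, fun j hj => ?_⟩
  · rcases Nat.eq_zero_or_pos k with rfl | h0
    · rw [h.1] at h3; exact absurd h3 (by decide)
    · exact h0
  · by_contra hlt
    exact hj (h1 j (by omega))

lemma Next.ex {t : ℕ → Bool} (h : Adm t) (n : ℕ) : ∃ B, ∀ n', B ≤ n' → Next t n n' := by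
  induction n with
  | zero => exact ⟨0, fun n' _ o h1 h2 => absurd h2 (by omega)⟩
  | succ n ih =>
    obtain ⟨B, hB⟩ := ih
    rcases Nat.eq_zero_or_pos n with rfl | hn
    · exact ⟨0, fun n' _ o h1 h2 => absurd h2 (by omega)⟩
    obtain ⟨k, _, hk1, hk2, hk3, _⟩ := h.first (show 1 ≤ n from hn)
    refine ⟨max B (k + 1), fun n' hn' o ho1 ho2 ho3 => ?_⟩
    rcases Nat.lt_or_ge o n with h4 | h4
    · exact hB n' (le_trans (le_max_left _ _) hn') o ho1 h4 ho3
    · obtain rfl : o = n := by omega
      refine ⟨k, lt_of_lt_of_le (Nat.lt_succ_self k) (le_trans (le_max_right _ _) hn'), ?_⟩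
      unfold Dif
      rw [hk2, hk3]; decide

/-- good indices with long agreements, if there are long agreements -/
lemma exists_good {t : ℕ → Bool} (h : Adm t) {K n : ℕ} (hK : 1 ≤ K) (hn : 1 ≤ n) (hn1 : t n = true)
    (hlong : ∀ j < K, ¬ Dif t n j) : ∃ n', 1 ≤ n' ∧ Good t n' ∧ ∀ j < K, ¬ Dif t n' j := by
  induction n using Nat.strong_induction_on with
  | _ n ih =>
    by_cases hg : Good t n
    · exact ⟨n, hn, hg, hlong⟩
    · unfold Good at hg
      push Not at hg
      obtain ⟨o, ho1, ho2, ho3, ho4⟩ := hg hn1
      refine ih o ho2 ho1 ho3 ?_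
      -- agreement at `o` up to `n - o`
      obtain ⟨m, rfl⟩ : ∃ m, n = o + m := ⟨n - o, by omega⟩
      have hm : 1 ≤ m := by omega
      have hag : ∀ j ≤ m, xor (t (o + j)) (t o) = t j := fun j hj => by
        have := ho4 j (by omega)
        unfold Dif at this
        push Not at this
        exact this
      have htm : t m = false := by
        have := hag m le_rfl
        rw [hn1, ho3] at this
        simpa using this.symm
      obtain ⟨k, hk0, hk1, hk2, hk3, _⟩ := h.first hm
      obtain ⟨κ, hκ0, hκ1, hκ2, hκ3, hκ4⟩ := h.first ho1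
      rw [ho3] at hκ1 hκ2
      rw [htm] at hk1 hk2
      simp only [Bool.xor_false] at hk1 hk2
      have hlong' : ∀ j < K, (!t (o + m + j)) = t j := fun j hj => by
        have := hlong j hj
        unfold Dif at this
        push Not at this
        rw [hn1] at this
        simpa using this
      -- `k < K` is impossible
      have hkK : K ≤ k := by
        by_contra hlt
        push Not at hlt
        have e1 := hlong' k hlt
        rw [hk3] at e1
        -- `t (o + (m + k)) = false` and `t (m + k) = false`
        have e2 : Dif t o (m + k) := by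
          unfold Dif
          rw [ho3, hk2, show o + (m + k) = o + m + k by ring]
          simp only [Bool.not_eq_true'] at e1
          rw [e1]; decide
        have e3 := hκ4 _ e2
        rcases Nat.lt_or_ge κ (m + k) with h5 | h5
        · rcases Nat.lt_or_ge m κ with h6 | h6
          · obtain ⟨i, rfl⟩ : ∃ i, κ = m + i := ⟨κ - m, by omega⟩
            have e4 := hk1 i (by omega)
            have e5 := hlong' i (by omega)
            rw [show o + m + i = o + (m + i) by ring] at e5
            have e6 : t (o + (m + i)) = true := by simpa using hκ2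
            rw [e6] at e5
            rw [e4, ← e5] at hκ3
            exact absurd hκ3 (by decide)
          · have := hag κ h6
            rw [ho3, hκ2, hκ3] at this
            exact absurd this (by decide)
        · obtain rfl : κ = m + k := by omega
          rw [hk2] at hκ3
          exact absurd hκ3 (by decide)
      intro j hj
      unfold Dif
      push Not
      rcases Nat.lt_or_ge m j with h6 | h6
      · obtain ⟨i, rfl⟩ : ∃ i, j = m + i := ⟨j - m, by omega⟩
        have e4 := hk1 i (by omega)
        have e5 := hlong' i (by omega)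
        rw [ho3, Bool.xor_true, e4, ← e5, show o + m + i = o + (m + i) by ring]
      · exact hag j h6

/-- arbitrarily large good indices with long agreements -/
lemma exists_good_large {t : ℕ → Bool} (h : Adm t)
    (hunb : ∀ K, ∃ n, 1 ≤ n ∧ t n = true ∧ ∀ j < K, ¬ Dif t n j) (K B : ℕ) :
    ∃ n, B ≤ n ∧ Good t n ∧ ∀ j < K, ¬ Dif t n j := by
  obtain ⟨B', hB'⟩ := Next.ex h (B + 1)
  obtain ⟨n, hn1, hn2, hn3⟩ := hunb (max (K + 1) B')
  obtain ⟨n', h1, h2, h3⟩ := exists_good h (le_trans (by omega) (le_max_left (K + 1) B')) hn1 hn2 hn3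
  refine ⟨n', ?_, h2, fun j hj => h3 j (lt_of_lt_of_le hj (le_trans (by omega) (le_max_left (K + 1) B')))⟩
  by_contra hlt
  obtain ⟨j, hj, hj2⟩ := hB' _ (le_max_right (K + 1) B') n' h1 (by omega) h2.1
  exact h3 j hj hj2

/-- arbitrarily large good indices -/
lemma exists_good' {t : ℕ → Bool} (h : Adm t) (B : ℕ) : ∃ n, B ≤ n ∧ Good t n := by
  classical
  obtain ⟨b, hb1, hb2⟩ := h.inf (B + 1)
  -- first differences
  have hf : ∀ o, 1 ≤ o → ∃ k, 1 ≤ k ∧ (∀ i < k, xor (t (o + i)) (t o) = t i) ∧
      xor (t (o + k)) (t o) = false ∧ t k = true ∧ (∀ j, Dif t o j → k ≤ j) := fun o ho => h.first ho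
  choose! κ hκ0 hκ1 hκ2 hκ3 hκ4 using hf
  let S := (Finset.range (b + 1)).filter fun o => 1 ≤ o ∧ t o = true
  have hbS : b ∈ S := by simp only [S, Finset.mem_filter, Finset.mem_range]; exact ⟨by omega, by omega, hb2⟩
  obtain ⟨o, hoS, hmax⟩ := S.exists_max_image (fun o => o + κ o) ⟨b, hbS⟩
  simp only [S, Finset.mem_filter, Finset.mem_range] at hoS hmax
  obtain ⟨hob, ho1, ho2⟩ := hoS
  have hk0 := hκ0 o ho1
  have hN : t (o + κ o) = true := by
    have := hκ2 o ho1
    rw [ho2] at this
    simpa using this
  refine ⟨o + κ o, ?_, hN, ?_⟩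
  · have := hmax b ⟨by omega, by omega, hb2⟩
    omega
  · intro o' ho1' ho2' ho3'
    refine ⟨κ o', ?_, ?_⟩
    · rcases Nat.lt_or_ge o' (b + 1) with h5 | h5
      · have := hmax o' ⟨h5, ho1', ho3'⟩
        omega
      · by_contra hlt
        push Not at hlt
        -- agreement at `o'` up to `r`
        obtain ⟨m, rfl⟩ : ∃ m, o' = o + m := ⟨o' - o, by omega⟩
        have hm : 1 ≤ m := by omega
        obtain ⟨r, hr⟩ : ∃ r, κ o = m + r := ⟨κ o - m, by omega⟩
        have hr1 : 1 ≤ r := by omega
        have hr2 : r < κ (o + m) := by omega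
        have e1 : ∀ i ≤ r, (!t (o + m + i)) = t i := fun i hi => by
          have := hκ1 (o + m) ho1' i (by omega)
          rw [ho3'] at this
          simpa using this
        have e2 : ∀ i < r, (!t (o + m + i)) = t (m + i) := fun i hi => by
          have := hκ1 o ho1 (m + i) (by omega)
          rw [ho2, show o + (m + i) = o + m + i by ring] at this
          simpa using this
        have e3 : t r = false := by
          have := e1 r le_rfl
          rw [show o + m + r = o + κ o by omega, hN] at this
          simpa using this.symm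
        have e4 : t (m + r) = true := by rw [← hr]; exact hκ3 o ho1
        have e5 : t m = false := by
          have h6 := e1 0 (by omega)
          have h7 := e2 0 (by omega)
          rw [h6, h.1] at h7
          exact h7.symm
        obtain ⟨k, hk0', hk1, hk2, hk3, hk4⟩ := h.first hm
        rw [e5] at hk1 hk2
        simp only [Bool.xor_false] at hk1 hk2
        have e6 : Dif t m r := by
          unfold Dif
          rw [e4, e5, e3]; decide
        have e7 := hk4 r e6
        rcases Nat.lt_or_ge k r with h8 | h8
        · have h9 := e1 k h8.le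
          have h10 := e2 k h8
          rw [h9, hk2, hk3] at h10
          exact absurd h10 (by decide)
        · obtain rfl : k = r := by omega
          rw [e3] at hk3
          exact absurd hk3 (by decide)
    · unfold Dif
      rw [hκ2 o' ho1', hκ3 o' ho1']
      decide

/-- starts of the blocks -/
def st (n : ℕ → ℕ) : ℕ → ℕ
  | 0 => 0
  | i + 1 => st n i + n i

lemma st_succ (n : ℕ → ℕ) (i : ℕ) : st n (i + 1) = st n i + n i := rfl

lemma st_mono {n : ℕ → ℕ} {i j : ℕ} (h : i ≤ j) : st n i ≤ st n j := by
  induction j with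
  | zero => rw [Nat.le_zero.1 h]
  | succ j ih =>
    rcases Nat.lt_or_ge i (j + 1) with h1 | h1
    · exact (ih (by omega)).trans (by rw [st_succ]; omega)
    · rw [show i = j + 1 by omega]

lemma st_ge {n : ℕ → ℕ} (hn : ∀ i, 1 ≤ n i) (i : ℕ) : i ≤ st n i := by
  induction i with
  | zero => exact Nat.zero_le _
  | succ i ih => rw [st_succ]; have := hn i; omega

lemma exists_block {n : ℕ → ℕ} (hn : ∀ i, 1 ≤ n i) (m : ℕ) :
    ∃ i o, o < n i ∧ m = st n i + o := by
  induction m with
  | zero => exact ⟨0, 0, hn 0, rfl⟩
  | succ m ih =>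
    obtain ⟨i, o, ho, h⟩ := ih
    rcases Nat.lt_or_ge (o + 1) (n i) with h1 | h1
    · exact ⟨i, o + 1, h1, by omega⟩
    · exact ⟨i + 1, 0, hn _, by rw [st_succ]; omega⟩

lemma block_unique {n : ℕ → ℕ} {i o i' o' : ℕ} (ho : o < n i) (ho' : o' < n i')
    (h : st n i + o = st n i' + o') : i = i' ∧ o = o' := by
  have key : ∀ {i o i' o' : ℕ}, o < n i → st n i + o = st n i' + o' → ¬ i < i' := by
    intro i o i' o' ho h hlt
    have := st_mono (n := n) (show i + 1 ≤ i' by omega)
    rw [st_succ] at this
    omega
  have h1 := key ho h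
  have h2 := key ho' h.symm
  obtain rfl : i = i' := by omega
  exact ⟨rfl, by omega⟩

open Classical in
/-- the concatenation of the prefixes of length `n 0, n 1, …` of `w` -/
noncomputable def bl (w : ℕ → Bool) (n : ℕ → ℕ) (hn : ∀ i, 1 ≤ n i) (m : ℕ) : Bool :=
  w (Classical.choose (Classical.choose_spec (exists_block hn m)))

lemma bl_eq {w : ℕ → Bool} {n : ℕ → ℕ} (hn : ∀ i, 1 ≤ n i) {i o : ℕ} (ho : o < n i) :
    bl w n hn (st n i + o) = w o := by
  unfold bl
  have h := Classical.choose_spec (Classical.choose_spec (exists_block hn (st n i + o)))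
  obtain ⟨h1, h2⟩ := h
  rw [← (block_unique ho h1 h2).2]

/-- the concatenation of blocks is admissible -/
lemma bl_kp {t : ℕ → Bool} (h : Adm t) {n : ℕ → ℕ} (hn : ∀ i, 1 ≤ n i)
    (hgood : ∀ i, Good t (n i)) (hnext : ∀ i, Next t (n i) (n (i + 1))) (m : ℕ) :
    Kp t (sh m (bl (fun j => !t j) n hn)) := by
  obtain ⟨i, o, ho, rfl⟩ := exists_block hn m
  have hblock : ∀ j, o + j < n i → bl (fun j => !t j) n hn (st n i + o + j) = !t (o + j) :=
    fun j hj => by rw [add_assoc, bl_eq hn hj]
  have hnextb : ∀ j, j < n (i + 1) → bl (fun j => !t j) n hn (st n i + n i + j) = !t j :=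
    fun j hj => by rw [← st_succ, bl_eq hn hj]
  have hb0 : bl (fun j => !t j) n hn (st n i + o) = !t o := bl_eq hn ho
  rcases Nat.eq_zero_or_pos o with rfl | ho1
  · refine ⟨n i, fun j hj => ?_, ?_, (hgood i).1⟩
    · simp only [sh_apply, add_zero] at hblock hb0 ⊢
      rw [hblock j (by omega), hb0, h.1, zero_add]
      simp
    · simp only [sh_apply, add_zero] at hb0 ⊢
      rw [hb0, h.1]
      have := hnextb 0 (hn _)
      rw [add_zero, h.1] at this
      rw [this]; rfl
  · obtain ⟨k, hk0, hk1, hk2, hk3, hk4⟩ := h.first ho1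
    have hcase : ∀ k', k' < n i - o → (∀ i < k', xor (t (o + i)) (t o) = t i) →
        xor (t (o + k')) (t o) = false → t k' = true →
        Kp t (sh (st n i + o) (bl (fun j => !t j) n hn)) := by
      intro k' h1 h2 h3 h4
      refine ⟨k', fun j hj => ?_, ?_, h4⟩
      · simp only [sh_apply, add_zero]
        rw [hblock j (by omega), hb0]
        simpa using h2 j hj
      · simp only [sh_apply, add_zero]
        rw [hblock k' (by omega), hb0]
        simpa using h3
    rcases Nat.lt_or_ge k (n i - o) with h5 | h5
    · exact hcase k h5 hk1 hk2 hk3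
    · -- the agreement reaches the end of the block
      obtain ⟨r, hr⟩ : ∃ r, n i = o + r := ⟨n i - o, by omega⟩
      have hr1 : 1 ≤ r := by omega
      have hrk : r ≤ k := by omega
      have htn : t (o + r) = true := by rw [← hr]; exact (hgood i).1
      have hbr : bl (fun j => !t j) n hn (st n i + o + r) = true := by
        have := hnextb 0 (hn _)
        rw [add_zero, h.1] at this
        rw [add_assoc, ← hr, this]; rfl
      cases hto : t o
      · -- digit one
        rw [hto] at hk1 hk2 hb0
        simp only [Bool.xor_false] at hk1 hk2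
        have htr : t r = true := by
          rcases Nat.lt_or_ge r k with h6 | h6
          · rw [← hk1 r h6]; exact htn
          · obtain rfl : r = k := by omega
            exact hk3
        refine ⟨r, fun j hj => ?_, ?_, htr⟩
        · simp only [sh_apply, add_zero]
          rw [hblock j (by omega), hb0, ← hk1 j (by omega)]
          simp
        · simp only [sh_apply, add_zero]
          rw [hbr, hb0]; rfl
      · -- digit zero
        obtain ⟨j0, hj0, hj0'⟩ := (hgood i).2 o ho1 ho hto
        have hkr : k = r := by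
          have := hk4 j0 hj0'
          omega
        subst hkr
        rw [hto] at hk1 hk2 hb0
        -- the next block
        obtain ⟨k', hk0', hk1', hk2', hk3', hk4'⟩ := h.first hr1
        obtain ⟨j1, hj1, hj1'⟩ := hnext i k hr1 (by omega) hk3
        have hk'n : k' < n (i + 1) := lt_of_le_of_lt (hk4' j1 hj1') hj1
        rw [hk3] at hk1' hk2'
        simp only [Bool.xor_true] at hk1' hk2' hk1 hk2
        have hnb : ∀ j, j < n (i + 1) →
            bl (fun j => !t j) n hn (st n i + o + (k + j)) = !t j := fun j hj => by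
          rw [← hnextb j hj, hr]
          congr 1
          ring
        refine ⟨k + k', fun j hj => ?_, ?_, ?_⟩
        · simp only [sh_apply, add_zero]
          rcases Nat.lt_or_ge j k with h6 | h6
          · rw [hblock j (by omega), hb0, ← hk1 j h6]
            simp
          · obtain ⟨j', rfl⟩ : ∃ j', j = k + j' := ⟨j - k, by omega⟩
            rw [hnb j' (by omega), hb0, ← hk1' j' (by omega)]
            simp
        · simp only [sh_apply, add_zero]
          rw [hnb k' hk'n, hb0, hk3']
          rfl
        · simpa using hk2'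

end Pool.Agent.R341.Uni
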