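import Pool.Agent.R341.Uni3

set_option autoImplicit false

namespace Pool.Agent.R341.Uni

/-- the univoque bases of `x` -/
def Ux (x : ℝ) : Set ℝ := {q | 1 < q ∧ q ≤ 2 ∧ ∃! d : ℕ → Bool, P q d = x}

lemma mem_Ux {x q : ℝ} : q ∈ Ux x ↔ 1 < q ∧ q ≤ 2 ∧ ∃ d, P q d = x ∧ Un q d := by
  unfold Ux
  rw [Set.mem_ofPred_eq]
  constructor
  · rintro ⟨h1, h2, h3⟩
    exact ⟨h1, h2, (unique_iff h1 h2).1 h3⟩
  · rintro ⟨h1, h2, h3⟩
    exact ⟨h1, h2, (unique_iff h1 h2).2 h3⟩

lemma Adm.t1 {t : ℕ → Bool} (h : Adm t) : t 1 = true := by
  by_contra hc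
  have h1 : t 1 = false := by simpa using hc
  obtain ⟨k, hk0, hk1, hk2, hk3, _⟩ := h.first le_rfl
  rw [h1] at hk1 hk2
  simp only [Bool.xor_false] at hk1 hk2
  have : ∀ i ≤ k, t i = false := by
    intro i
    induction i with
    | zero => intro _; exact h.1
    | succ i ih =>
      intro hi
      rw [add_comm i 1, hk1 i (by omega)]
      exact ih (by omega)
  rw [this k le_rfl] at hk3
  exact absurd hk3 (by decide)

lemma P_agree {q : ℝ} (hq : 1 < q) {d e : ℕ → Bool} {L : ℕ} (h : ∀ i < L, d i = e i) :
    P q d ≤ P q e + 1 / (q - 1) / q ^ L := by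
  have h1 := diff_eq hq h
  have h2 := P_le hq (sh L d)
  have h3 := P_nonneg hq (sh L e)
  have h4 : -(1 / (q - 1) / q ^ L) ≤ (P q (sh L e) - P q (sh L d)) / q ^ L := by
    rw [← neg_div]
    exact div_le_div_of_nonneg_right (by linarith) (by positivity)
  linarith

lemma P_ones {q : ℝ} (hq : 1 < q) : P q (fun _ => true) = 1 / (q - 1) := by
  have h := (hasSum_ones hq).tsum_eq
  unfold P
  simpa using h

lemma P_zeros {q : ℝ} : P q (fun _ => false) = 0 := by
  unfold P
  simp

/-- no smaller base -/
theorem no_lower {Q : ℝ} (hQ1 : 1.7 ≤ Q) (hQ2 : Q ≤ 1.85) {t : ℕ → Bool} (ht : Adm t)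
    (hα : P Q (sh 1 t) = 1) {n : ℕ → ℕ} (hn : ∀ i, 1 ≤ n i) (hn2 : ∀ i, 2 ≤ n i)
    (hgood : ∀ i, Good t (n i)) (hnext : ∀ i, Next t (n i) (n (i + 1)))
    (hlong : ∀ i, ∀ j < st n i + 10, ¬ Dif t (n i) j) :
    ∀ q ∈ Ux (P Q (bl (fun j => !t j) n hn)), Q ≤ q := by
  intro q hq
  by_contra hlt
  push Not at hlt
  obtain ⟨hq1, hq2, s, hs, hU⟩ := mem_Ux.1 hq
  have hQ0 : 1 < Q := by linarith
  set b := bl (fun j => !t j) n hn with hb
  have hbU : Un Q b := lexnum hQ0 ht.1 ht.inf hα (bl_kp ht hn hgood hnext)
  have hb0 : b 0 = true := by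
    have := bl_eq (w := fun j => !t j) hn (show 0 < n 0 from hn 0)
    rw [← hb] at this
    simp only [st, add_zero, ht.1] at this
    exact this
  have hb1 : b 1 = false := by
    have := bl_eq (w := fun j => !t j) hn (show 1 < n 0 from hn2 0)
    rw [← hb] at this
    simp only [st, zero_add, ht.t1] at this
    exact this
  set x := P Q b with hx
  -- bounds for `x`
  have hx1 : x < 1 := by
    have h1 := P_succ hQ0 b
    have h2 := P_succ hQ0 (sh 1 b)
    rw [sh_sh, sh_apply, add_zero, hb1] at h2
    rw [hb0, h2] at h1
    have h3 := (hbU 1).1 hb1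
    rw [← hx] at h1
    simp only [dg_true, dg_false, zero_add] at h1
    rw [h1, div_lt_one (by linarith)]
    have h4 : P Q (sh (1 + 1) b) / Q < 1 / Q := div_lt_div_of_pos_right h3 (by linarith)
    have h5 : 1 / Q ≤ 0.6 := by rw [div_le_iff₀ (by linarith)]; linarith
    linarith
  have hx2 : 0.625 < x := by
    have h1 := P_succ hQ0 b
    rw [hb0, ← hx] at h1
    have h2 := (hbU 0).2 hb0
    simp only [dg_true, zero_add] at h1 h2
    have h3 : 1 / (Q - 1) / Q < x := by
      rw [h1]; exact div_lt_div_of_pos_right (by linarith) (by linarith)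
    have h4 : (0.625 : ℝ) ≤ 1 / (Q - 1) / Q := by
      rw [div_div, le_div_iff₀ (by nlinarith)]
      nlinarith
    linarith
  -- the first digit of `s`
  have hs0 : s 0 = true := by
    by_contra hc
    have hs0 : s 0 = false := by simpa using hc
    have h1 := P_succ hq1 s
    rw [hs0, hs, dg_false, zero_add, eq_div_iff (by linarith)] at h1
    have h2 := (hU 0).1 hs0
    simp only [zero_add] at h2
    have h3 : q < 1.6 := by
      by_contra h4
      push Not at h4
      nlinarith
    have h4 : 1 < 1 / (q - 1) / q := by
      rw [div_div, lt_div_iff₀ (by nlinarith)]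
      nlinarith
    have h5 : ∀ m, s m = false := by
      intro m
      induction m with
      | zero => exact hs0
      | succ m ih =>
        by_contra hc2
        have h6 : s (m + 1) = true := by simpa using hc2
        have h7 := (hU m).1 ih
        have h8 := (hU (m + 1)).2 h6
        rw [P_succ hq1, sh_sh, sh_apply, add_zero, h6, dg_true, div_lt_one (by linarith)] at h7
        have h9 : q < 1 / (q - 1) := by
          rw [lt_div_iff₀ (by linarith)] at h4 ⊢
          rw [one_mul] at h4
          nlinarith
        linarith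
    have h6 : s = fun _ => false := funext h5
    rw [h6, P_zeros] at hs
    linarith
  have hq16 : 1.6 < q := by
    by_contra hc
    push Not at hc
    have h1 := P_succ hq1 s
    rw [hs0, hs] at h1
    have h2 := (hU 0).2 hs0
    simp only [dg_true, zero_add] at h1 h2
    have h3 : 1 / (q - 1) / q < x := by
      rw [h1]; exact div_lt_div_of_pos_right (by linarith) (by linarith)
    have h4 : 1 ≤ 1 / (q - 1) / q := by
      rw [div_div, le_div_iff₀ (by nlinarith)]
      nlinarith
    linarith
  rcases trich s b with h | h | h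
  · rw [h] at hs
    have := P_strict hq1 hlt b hb0
    linarith
  · obtain ⟨p, hp1, hp2, hp3⟩ := h
    obtain ⟨i, o, ho, rfl⟩ := exists_block hn p
    have hafter := (hU (st n i + o)).1 hp2
    have hqα : 1 ≤ P q (sh 1 t) := by rw [← hα]; exact P_anti hq1 hlt.le _
    rcases Nat.eq_zero_or_pos o with rfl | ho1
    · rcases Nat.eq_zero_or_pos i with rfl | hi
      · simp only [st, add_zero] at hp2
        rw [hs0] at hp2
        exact absurd hp2 (by decide)
      · obtain ⟨i', rfl⟩ : ∃ i', i = i' + 1 := ⟨i - 1, by omega⟩
        rw [add_zero, st_succ] at hp1 hp2 hp3 hafter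
        have hn'2 := hn2 i'
        have hlong' := hlong i'
        have htn := (hgood i').1
        have hblk : ∀ j, j < n i' → b (st n i' + j) = !t j := fun j hj => bl_eq hn hj
        set ν := st n i' with hν
        obtain ⟨N, hN⟩ : ∃ N, n i' = N + 1 := ⟨n i' - 1, by omega⟩
        rw [hN] at hp1 hp2 hp3 hafter hblk htn hn'2 hlong'
        have hsν : s ν = true := by
          rw [hp1 ν (by omega)]
          have := hblk 0 (by omega)
          rw [add_zero, ht.1] at this
          exact this
        have hB := (hU ν).2 hsν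
        -- the comparison sequence
        set g := glue N (sh 1 t) (cons false (fun _ => true)) with hg
        have hPg : P q g < 1 := by
          have h1 : P q g < P q (fun j => !(sh (ν + 1) s) j) := by
            refine lt_of_right hq1 (p := N) (fun j hj => ?_) ?_ ?_ ?_
            · rw [hg, glue_lt _ _ hj, sh_apply, sh_apply, hp1 _ (by omega),
                show ν + 1 + j = ν + (1 + j) by ring, hblk _ (by omega), Bool.not_not]
            · rw [hg]; simp [glue]
            · rw [sh_apply, show ν + 1 + N = ν + (N + 1) by ring, hp2]; rfl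
            · have e : sh (N + 1) (fun j => !(sh (ν + 1) s) j) =
                  fun j => !(sh (ν + (N + 1) + 1) s) j := by
                funext j
                simp only [sh_apply]
                congr 2
                ring
              rw [e, P_compl hq1]
              linarith
          rw [P_compl hq1] at h1
          linarith
        have hPQg : 1 - 1 / (Q - 1) / Q ^ (ν + 9) / Q ^ (N + 1) ≤ P Q g := by
          have h1 := diff_eq hQ0 (d := g) (e := sh 1 t) (p := N) (fun j hj => glue_lt _ _ hj)
          rw [hα, hg, sh_glue, P_cons hQ0, P_ones hQ0, sh_sh, P_succ hQ0 (sh (1 + N) t), sh_sh,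
            sh_apply, add_zero, show 1 + N = N + 1 by ring, htn, dg_true, dg_false, ← hg] at h1
          have h2 : P Q (sh (N + 1 + 1) t) ≤ P Q (fun j => !(sh 1 t) j) +
              1 / (Q - 1) / Q ^ (ν + 9) := by
            refine P_agree hQ0 fun j hj => ?_
            have := hlong' (j + 1) (by omega)
            unfold Dif at this
            push Not at this
            rw [htn, Bool.xor_true] at this
            rw [sh_apply, sh_apply, show N + 1 + 1 + j = N + 1 + (j + 1) by ring, add_comm 1 j,
              ← this, Bool.not_not]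
          rw [P_compl hQ0, hα] at h2
          have h3 : 1 - P Q g ≤ 1 / (Q - 1) / Q ^ (ν + 9) / Q ^ (N + 1) := by
            rw [h1, ← sub_div, div_div, ← pow_succ']
            exact div_le_div_of_nonneg_right (by linarith) (by positivity)
          linarith
        have hI : 1 / q - 1 / Q < 1 / (Q - 1) / Q ^ (ν + 9) / Q ^ (N + 1) := by
          have h1 := P_anti_term hq1 hlt.le g 0 (by
            rw [hg, glue_lt _ _ (show 0 < N by omega), sh_apply]; exact ht.t1)
          simp only [zero_add, pow_one] at h1
          linarith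
        -- the second comparison
        set d1 := glue (ν + (N + 1)) b (cons true (fun _ => false)) with hd1
        have hII1 : x < P q d1 := by
          rw [← hs]
          refine lt_of_left hq1 (p := ν + (N + 1)) (fun j hj => ?_) hp2 ?_ hafter
          · rw [hd1, glue_lt _ _ hj, hp1 j hj]
          · rw [hd1]; simp [glue]
        have hII2 : (1 / (Q - 1) - 1) / Q ^ (ν + (N + 1) + 1) < x - P Q d1 := by
          have h1 := diff_eq hQ0 (d := d1) (e := b) (p := ν + (N + 1)) (fun j hj => glue_lt _ _ hj)
          rw [hd1, sh_glue, P_cons hQ0, P_zeros, P_succ hQ0 (sh (ν + (N + 1)) b), sh_sh, sh_apply,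
            add_zero, hp3, dg_true, ← hd1, ← sub_div, div_div, ← pow_succ'] at h1
          rw [hx, h1]
          have h2 := (hbU (ν + (N + 1))).2 hp3
          exact div_lt_div_of_pos_right (by linarith) (by positivity)
        have hII3 := P_lip hq1 hlt.le d1
        have hII : (1 / (Q - 1) - 1) / Q ^ (ν + (N + 1) + 1) < 1 / (q - 1) - 1 / (Q - 1) := by
          linarith
        -- final contradiction
        have h9 : 1 / (q - 1) - 1 / (Q - 1) ≤ 9 * (1 / q - 1 / Q) := by
          have hd : 0 < 1 / q - 1 / Q := sub_pos.2 (one_div_lt_one_div_of_lt (by linarith) hlt)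
          have e : 1 / (q - 1) - 1 / (Q - 1) = (q / (q - 1)) * (Q / (Q - 1)) * (1 / q - 1 / Q) := by
            have : q ≠ 0 := by linarith
            have : Q ≠ 0 := by linarith
            have : q - 1 ≠ 0 := by linarith
            have : Q - 1 ≠ 0 := by linarith
            field_simp
            ring
          rw [e]
          have a1 : q / (q - 1) ≤ 3 := by rw [div_le_iff₀ (by linarith)]; linarith
          have a2 : Q / (Q - 1) ≤ 3 := by rw [div_le_iff₀ (by linarith)]; linarith
          have a3 : 0 ≤ Q / (Q - 1) := div_nonneg (by linarith) (by linarith)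
          have a4 : (q / (q - 1)) * (Q / (Q - 1)) ≤ 9 := by nlinarith
          exact mul_le_mul_of_nonneg_right a4 hd.le
        have hfin : (1 / (Q - 1) - 1) / Q ^ (ν + (N + 1) + 1) <
            9 * (1 / (Q - 1) / Q ^ (ν + 9) / Q ^ (N + 1)) := by linarith
        have hpow : Q ^ (ν + 9) * Q ^ (N + 1) = Q ^ (ν + (N + 1) + 1) * Q ^ 8 := by
          rw [← pow_add, ← pow_add]; congr 1; ring
        rw [div_div (1 / (Q - 1)), hpow, ← div_div, mul_div_assoc', div_lt_div_iff₀ (by positivity) (by positivity)] at hfin
        have hQ8 : (69 : ℝ) ≤ Q ^ 8 := by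
          calc (69 : ℝ) ≤ 1.7 ^ 8 := by norm_num
            _ ≤ Q ^ 8 := pow_le_pow_left₀ (by norm_num) hQ1 8
        have hpos : 0 < Q ^ (ν + (N + 1) + 1) := by positivity
        have hQ1' : 0 < 1 / (Q - 1) := by apply one_div_pos.2; linarith
        have e1 : 1 / (Q - 1) - 1 = (2 - Q) * (1 / (Q - 1)) := by
          have : Q - 1 ≠ 0 := by linarith
          field_simp
          ring
        have h10 : 9 * (1 / (Q - 1)) ≤ (1 / (Q - 1) - 1) * Q ^ 8 := by
          rw [e1]
          have : 9 ≤ (2 - Q) * Q ^ 8 := by nlinarith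
          nlinarith
        have h11 : 9 * (1 / (Q - 1) / Q ^ 8) * Q ^ (ν + (N + 1) + 1) ≤
            (1 / (Q - 1) - 1) * Q ^ (ν + (N + 1) + 1) := by
          have : 9 * (1 / (Q - 1) / Q ^ 8) ≤ 1 / (Q - 1) - 1 := by
            rw [← mul_div_assoc, div_le_iff₀ (by positivity)]
            exact h10
          exact mul_le_mul_of_nonneg_right this hpos.le
        first
          | (have h12 := hfin; linarith)
          | (field_simp at hfin h11; linarith)
    · -- inside a block
      have hsν : s (st n i) = true := by
        rw [hp1 _ (by omega)]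
        have := bl_eq (w := fun j => !t j) hn (hn i)
        rw [← hb] at this
        simp only [add_zero, ht.1] at this
        exact this
      have hB := (hU (st n i)).2 hsν
      have h1 : P q (sh (st n i + 1) s) < P q (fun j => !(sh 1 t) j) := by
        refine lt_of_left hq1 (p := o - 1) (fun j hj => ?_) ?_ ?_ ?_
        · rw [sh_apply, sh_apply, hp1 _ (by omega), show st n i + 1 + j = st n i + (1 + j) by ring]
          exact bl_eq (w := fun j => !t j) hn (by omega)
        · rw [sh_apply, show st n i + 1 + (o - 1) = st n i + o by omega]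
          exact hp2
        · rw [sh_apply, show 1 + (o - 1) = o by omega]
          have := bl_eq (w := fun j => !t j) hn ho
          rw [← hb, hp3] at this
          exact this.symm
        · rw [sh_sh, show st n i + 1 + (o - 1 + 1) = st n i + o + 1 by omega]
          exact hafter
      rw [P_compl hq1] at h1
      linarith
  · have h1 := hU.lt_right hq1 h
    have h2 := P_anti hq1 hlt.le b
    linarith

end Pool.Agent.R341.Uni
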