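import Pool.Agent.R341.Uni4

set_option autoImplicit false

namespace Pool.Agent.R341.Uni

/-- the level set: the smallest univoque base of `x` is `q` -/
def Lv (q : ℝ) : Set ℝ := {x | 0 < x ∧ IsLeast (Ux x) q}

lemma not_countable_seq : ¬ Countable (ℕ → Bool) := by
  rw [← Cardinal.mk_le_aleph0_iff]
  simp only [Cardinal.mk_pi, Cardinal.mk_bool, Cardinal.prod_const, Cardinal.lift_id,
    Cardinal.mk_nat, Cardinal.two_power_aleph0, not_le]
  exact Cardinal.aleph0_lt_continuum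

section construction

variable {t : ℕ → Bool} (ht : Adm t)
  (hunb : ∀ K, ∃ n, 1 ≤ n ∧ t n = true ∧ ∀ j < K, ¬ Dif t n j)

include ht hunb

lemma exists_pick (s m : ℕ) : ∃ a : Bool → ℕ, a false < a true ∧ ∀ e, 2 ≤ a e ∧ Good t (a e) ∧
    Next t m (a e) ∧ ∀ j < s + 10, ¬ Dif t (a e) j := by
  obtain ⟨B, hB⟩ := Next.ex ht m
  obtain ⟨n1, h1, h2, h3⟩ := exists_good_large ht hunb (s + 10) (B + 2)
  obtain ⟨n2, h4, h5, h6⟩ := exists_good_large ht hunb (s + 10) (n1 + 1)
  refine ⟨fun e => if e then n2 else n1, by simpa using h4, fun e => ?_⟩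
  cases e
  · simp only [Bool.false_eq_true, if_false]
    exact ⟨by omega, h2, hB _ (by omega), h3⟩
  · simp only [if_true]
    exact ⟨by omega, h5, hB _ (by omega), h6⟩

/-- uncountable level sets -/
theorem level_uncountable {Q : ℝ} (hQ1 : 1.7 ≤ Q) (hQ2 : Q ≤ 1.85) (hα : P Q (sh 1 t) = 1) :
    ¬ (Lv Q).Countable := by
  have hpick := exists_pick ht hunb
  choose a ha1 ha2 using hpick
  -- the states
  let S : (ℕ → Bool) → ℕ → ℕ × ℕ := fun ε i =>
    Nat.rec (0, 1) (fun i p => (p.1 + a p.1 p.2 (ε i), a p.1 p.2 (ε i))) i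
  have hS : ∀ ε i, S ε (i + 1) =
      ((S ε i).1 + a (S ε i).1 (S ε i).2 (ε i), a (S ε i).1 (S ε i).2 (ε i)) := fun ε i => rfl
  let n : (ℕ → Bool) → ℕ → ℕ := fun ε i => a (S ε i).1 (S ε i).2 (ε i)
  have hst : ∀ ε i, st (n ε) i = (S ε i).1 := by
    intro ε i
    induction i with
    | zero => rfl
    | succ i ih => rw [st_succ, ih, hS]
  have hn2 : ∀ ε i, 2 ≤ n ε i := fun ε i => (ha2 _ _ _).1
  have hn : ∀ ε i, 1 ≤ n ε i := fun ε i => le_trans (by norm_num) (hn2 ε i)
  have hgood : ∀ ε i, Good t (n ε i) := fun ε i => (ha2 _ _ _).2.1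
  have hnext : ∀ ε i, Next t (n ε i) (n ε (i + 1)) := fun ε i => by
    have := (ha2 (S ε (i + 1)).1 (S ε (i + 1)).2 (ε (i + 1))).2.2.1
    exact this
  have hlong : ∀ ε i, ∀ j < st (n ε) i + 10, ¬ Dif t (n ε i) j := fun ε i => by
    rw [hst]
    exact (ha2 _ _ _).2.2.2
  let b : (ℕ → Bool) → ℕ → Bool := fun ε => bl (fun j => !t j) (n ε) (hn ε)
  have hQ0 : 1 < Q := by linarith
  have hbU : ∀ ε, Un Q (b ε) := fun ε =>
    lexnum hQ0 ht.1 ht.inf hα (bl_kp ht (hn ε) (hgood ε) (hnext ε))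
  have hb0 : ∀ ε, b ε 0 = true := fun ε => by
    have := bl_eq (w := fun j => !t j) (hn ε) (i := 0) (o := 0) (show 0 < n ε 0 from hn ε 0)
    simp only [st, add_zero, ht.1] at this
    exact this
  -- injectivity
  have hlt : ∀ ε ε' : ℕ → Bool, Lt ε ε' → b ε ≠ b ε' := by
    rintro ε ε' ⟨i, h1, h2, h3⟩ heq
    have hSi : ∀ j ≤ i, S ε j = S ε' j := by
      intro j
      induction j with
      | zero => intro _; rfl
      | succ j ih =>
        intro hj
        rw [hS, hS, ih (by omega), h1 j (by omega)]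
    have hni : n ε i < n ε' i := by
      show a _ _ _ < a _ _ _
      rw [hSi i le_rfl, h2, h3]
      exact ha1 _ _
    have hsti : st (n ε) i = st (n ε') i := by rw [hst, hst, hSi i le_rfl]
    have e1 : b ε (st (n ε) (i + 1) + 0) = !t 0 := bl_eq (w := fun j => !t j) (hn ε) (hn ε (i + 1))
    have e2 : b ε' (st (n ε') i + n ε i) = !t (n ε i) := bl_eq (w := fun j => !t j) (hn ε') hni
    rw [add_zero, st_succ, ht.1, hsti, heq, e2, (hgood ε i).1] at e1
    exact absurd e1 (by decide)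
  have hinjb : Function.Injective b := by
    intro ε ε' h
    rcases trich ε ε' with h1 | h1 | h1
    · exact h1
    · exact absurd h (hlt _ _ h1)
    · exact absurd h.symm (hlt _ _ h1)
  have hinj : Function.Injective fun ε => P Q (b ε) := fun ε ε' h =>
    hinjb ((hbU ε).unique hQ0 h)
  have hmem : ∀ ε, P Q (b ε) ∈ Lv Q := by
    intro ε
    refine ⟨P_pos hQ0 (hb0 ε), mem_Ux.2 ⟨hQ0, by linarith, _, rfl, hbU ε⟩, ?_⟩
    exact no_lower hQ1 hQ2 ht hα (hn ε) (hn2 ε) (hgood ε) (hnext ε) (hlong ε)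
  intro hcount
  apply not_countable_seq
  have h1 : (Set.range fun ε => P Q (b ε)).Countable :=
    hcount.mono (by rintro _ ⟨ε, rfl⟩; exact hmem ε)
  have h2 : Countable (Set.range fun ε => P Q (b ε)) := h1
  exact (Equiv.ofInjective _ hinj).countable_iff.2 h2

end construction

end Pool.Agent.R341.Uni
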