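import Pool.Agent.R341.Uni5

set_option autoImplicit false

namespace Pool.Agent.R341.Uni

/-- the Thue–Morse sequence -/
def tm : ℕ → Bool
  | 0 => false
  | (n + 1) => xor (tm ((n + 1) / 2)) (decide ((n + 1) % 2 = 1))
termination_by n => n
decreasing_by omega

lemma tm_zero : tm 0 = false := by simp [tm]

lemma tm_rec {n : ℕ} (h : 1 ≤ n) : tm n = xor (tm (n / 2)) (decide (n % 2 = 1)) := by
  obtain ⟨m, rfl⟩ : ∃ m, n = m + 1 := ⟨n - 1, by omega⟩
  rw [tm]

lemma tm_even (n : ℕ) : tm (2 * n) = tm n := by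
  rcases Nat.eq_zero_or_pos n with rfl | h
  · rfl
  · rw [tm_rec (by omega), show 2 * n / 2 = n by omega, show 2 * n % 2 = 0 by omega]
    simp

lemma tm_odd (n : ℕ) : tm (2 * n + 1) = !tm n := by
  rw [tm_rec (by omega), show (2 * n + 1) / 2 = n by omega, show (2 * n + 1) % 2 = 1 by omega]
  simp

lemma tm_add_pow (j : ℕ) : ∀ i, i < 2 ^ j → tm (2 ^ j + i) = !tm i := by
  induction j with
  | zero =>
    intro i hi
    have : i = 0 := by simpa using hi
    subst this
    have := tm_odd 0
    simpa using this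
  | succ j ih =>
    intro i hi
    rw [pow_succ] at hi
    rcases Nat.even_or_odd' i with ⟨i', rfl | rfl⟩
    · rw [show 2 ^ (j + 1) + 2 * i' = 2 * (2 ^ j + i') by ring, tm_even, tm_even, ih i' (by omega)]
    · rw [show 2 ^ (j + 1) + (2 * i' + 1) = 2 * (2 ^ j + i') + 1 by ring, tm_odd, tm_odd,
        ih i' (by omega)]

lemma tm_pow (j : ℕ) : tm (2 ^ j) = true := by
  have := tm_add_pow j 0 (by positivity)
  rw [add_zero, tm_zero] at this
  exact this

lemma tm_adm : Adm tm := by
  refine ⟨tm_zero, ?_⟩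
  intro m
  induction m using Nat.strong_induction_on with
  | _ m ih =>
    intro hm
    rcases Nat.even_or_odd' m with ⟨m', rfl | rfl⟩
    · obtain ⟨k, h1, h2, h3⟩ := ih m' (by omega) (by omega)
      simp only [sh_apply, add_zero] at h1 h2
      refine ⟨2 * k, fun i hi => ?_, ?_, by rw [tm_even]; exact h3⟩
      · simp only [sh_apply, add_zero]
        rcases Nat.even_or_odd' i with ⟨i', rfl | rfl⟩
        · rw [← mul_add, tm_even, tm_even, tm_even]
          exact h1 i' (by omega)
        · rw [show 2 * m' + (2 * i' + 1) = 2 * (m' + i') + 1 by ring, tm_odd, tm_odd, tm_even,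
            ← h1 i' (by omega)]
          simp
      · simp only [sh_apply, add_zero]
        rw [← mul_add, tm_even, tm_even]
        exact h2
    · have e1 : tm (2 * m' + 1 + 2) = !tm (2 * m' + 1 + 1) := by
        rw [show 2 * m' + 1 + 2 = 2 * (m' + 1) + 1 by ring, tm_odd,
          show 2 * m' + 1 + 1 = 2 * (m' + 1) by ring, tm_even]
      have t1 : tm 1 = true := by simpa using tm_pow 0
      have t2 : tm 2 = true := by simpa using tm_pow 1
      by_cases h : xor (tm (2 * m' + 1 + 1)) (tm (2 * m' + 1)) = false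
      · refine ⟨1, fun i hi => ?_, ?_, t1⟩
        · obtain rfl : i = 0 := by omega
          simp [tm_zero]
        · simpa using h
      · have h' : xor (tm (2 * m' + 1 + 1)) (tm (2 * m' + 1)) = true := by simpa using h
        refine ⟨2, fun i hi => ?_, ?_, t2⟩
        · have : i = 0 ∨ i = 1 := by omega
          rcases this with rfl | rfl
          · simp [tm_zero]
          · simp only [sh_apply, add_zero]
            rw [h', t1]
        · simp only [sh_apply, add_zero]
          rw [e1, Bool.not_xor, h']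
          rfl

lemma tm_unb (K : ℕ) : ∃ n, 1 ≤ n ∧ tm n = true ∧ ∀ j < K, ¬ Dif tm n j := by
  refine ⟨2 ^ K, Nat.one_le_two_pow, tm_pow K, fun j hj => ?_⟩
  unfold Dif
  rw [tm_pow, tm_add_pow K j (lt_trans hj Nat.lt_two_pow_self)]
  simp

lemma tm_vals : tm 1 = true ∧ tm 2 = true ∧ tm 3 = false ∧ tm 4 = true ∧ tm 5 = false ∧
    tm 6 = false ∧ tm 7 = true ∧ tm 8 = true ∧ tm 9 = false ∧ tm 10 = false ∧ tm 11 = true ∧
    tm 12 = false ∧ tm 13 = true ∧ tm 14 = true ∧ tm 15 = false ∧ tm 16 = true := by
  simp [tm]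

lemma tm_split {q : ℝ} (hq : 1 < q) : P q (sh 1 tm) =
    1 / q + 1 / q ^ 2 + 1 / q ^ 4 + 1 / q ^ 7 + 1 / q ^ 8 + 1 / q ^ 11 + 1 / q ^ 13 + 1 / q ^ 14
      + 1 / q ^ 16 + P q (sh 16 (sh 1 tm)) / q ^ 16 := by
  rw [P_split hq _ 16]
  obtain ⟨h1, h2, h3, h4, h5, h6, h7, h8, h9, h10, h11, h12, h13, h14, h15, h16⟩ := tm_vals
  simp only [Finset.sum_range_succ, Finset.sum_range_zero, sh_apply]
  norm_num [h1, h2, h3, h4, h5, h6, h7, h8, h9, h10, h11, h12, h13, h14, h15, h16]

/-- the Komornik–Loreti constant -/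
lemma exists_KL : ∃ Q : ℝ, 1.787 < Q ∧ Q < 1.788 ∧ P Q (sh 1 tm) = 1 := by
  refine P_ivt (by norm_num) (by norm_num) _ ?_ ?_
  · rw [tm_split (by norm_num)]
    have h := P_le (q := 1.788) (by norm_num) (sh 16 (sh 1 tm))
    have h2 : P 1.788 (sh 16 (sh 1 tm)) / (1.788 : ℝ) ^ 16 ≤ 1 / (1.788 - 1) / 1.788 ^ 16 :=
      div_le_div_of_nonneg_right h (by norm_num)
    refine lt_of_le_of_lt (add_le_add_right h2 _) ?_
    norm_num
  · rw [tm_split (by norm_num)]
    have h := P_nonneg (q := 1.787) (by norm_num) (sh 16 (sh 1 tm))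
    have h2 : 0 ≤ P 1.787 (sh 16 (sh 1 tm)) / (1.787 : ℝ) ^ 16 := div_nonneg h (by norm_num)
    refine lt_of_lt_of_le ?_ (le_add_of_nonneg_right h2)
    norm_num

/-- the Komornik–Loreti constant is the smallest univoque base of `1` -/
theorem KL_least {Q : ℝ} (hQ1 : 1.7 ≤ Q) (hQ2 : Q ≤ 1.85) (hα : P Q (sh 1 tm) = 1) :
    IsLeast (Ux 1) Q := by
  have hQ0 : 1 < Q := by linarith
  have hUα : Un Q (sh 1 tm) := by
    refine lexnum hQ0 tm_zero tm_adm.inf hα fun m => ?_
    rw [sh_sh]
    exact tm_adm.2 _ (by omega)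
  refine ⟨mem_Ux.2 ⟨hQ0, by linarith, _, hα, hUα⟩, ?_⟩
  intro q hq
  by_contra hlt
  push Not at hlt
  obtain ⟨hq1, hq2, s, hs, hU⟩ := mem_Ux.1 hq
  have hα0 : sh 1 tm 0 = true := tm_adm.t1
  have hqα : 1 < P q (sh 1 tm) := by rw [← hα]; exact P_strict hq1 hlt _ hα0
  rcases trich s (sh 1 tm) with h | h | h
  · rw [h] at hs; linarith
  · obtain ⟨p, hp1, hp2, hp3⟩ := h
    simp only [sh_apply] at hp1 hp3
    have hafter := (hU p).1 hp2
    -- the power of two
    have hN0 : p + 1 ≠ 0 := by omega
    have hj1 := Nat.pow_log_le_self 2 hN0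
    have hj2 := Nat.lt_pow_succ_log_self (b := 2) (by norm_num) (p + 1)
    set j := Nat.log 2 (p + 1) with hj
    obtain ⟨i, hi⟩ : ∃ i, p + 1 = 2 ^ j + i := ⟨p + 1 - 2 ^ j, by omega⟩
    have hi2 : i < 2 ^ j := by rw [pow_succ] at hj2; omega
    rcases Nat.eq_zero_or_pos i with rfl | hi0
    · rcases Nat.eq_zero_or_pos j with hj0 | hj0
      · rw [hj0] at hi
        have hp0 : p = 0 := by simpa using hi
        subst hp0
        have h1 := P_succ hq1 s
        rw [hs, hp2, dg_false, zero_add, eq_div_iff (by linarith)] at h1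
        simp only [zero_add] at hafter
        linarith
      · obtain ⟨j', hj'⟩ : ∃ j', j = j' + 1 := ⟨j - 1, by omega⟩
        rw [hj', pow_succ] at hi
        set M := 2 ^ j' with hM
        have hM1 : 1 ≤ M := Nat.one_le_two_pow
        have hp : p = 2 * M - 1 := by omega
        have hcompl : ∀ i < M, s (M + i) = !s i := by
          intro i hi'
          rcases Nat.lt_or_ge (i + 1) M with h5 | h5
          · rw [hp1 _ (by omega), hp1 _ (by omega), show 1 + (M + i) = M + (1 + i) by ring,
              hM, tm_add_pow j' (1 + i) (by omega)]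
          · obtain rfl : i = M - 1 := by omega
            rw [show M + (M - 1) = p by omega, hp2, hp1 _ (by omega),
              show 1 + (M - 1) = M by omega, hM, tm_pow]
            rfl
        have hsM : s (M - 1) = true := by
          rw [hp1 _ (by omega), show 1 + (M - 1) = M by omega, hM, tm_pow]
        have hB := (hU (M - 1)).2 hsM
        rw [show M - 1 + 1 = M by omega] at hB
        have h1 := P_split hq1 s M
        have h2 := P_split hq1 (sh M s) M
        have h3 := P_split hq1 (fun _ => true) M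
        rw [show sh M (fun _ => true) = fun _ => true from rfl, P_ones hq1] at h3
        rw [sh_sh, show M + M = p + 1 by omega] at h2
        rw [hs] at h1
        have h4 : ∑ i ∈ Finset.range M, dg (sh M s i) / q ^ (i + 1) =
            ∑ i ∈ Finset.range M, dg true / q ^ (i + 1) -
              ∑ i ∈ Finset.range M, dg (s i) / q ^ (i + 1) := by
          rw [← Finset.sum_sub_distrib]
          refine Finset.sum_congr rfl fun i hi' => ?_
          rw [sh_apply, hcompl i (Finset.mem_range.1 hi'), dg_not, dg_true]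
          ring
        rw [h4] at h2
        generalize ∑ i ∈ Finset.range M, dg (s i) / q ^ (i + 1) = a at h1 h2
        generalize ∑ i ∈ Finset.range M, dg true / q ^ (i + 1) = c at h2 h3
        generalize P q (sh M s) = Bv at h1 h2 hB
        generalize P q (sh (p + 1) s) = V at h2 hafter
        generalize 1 / (q - 1) = A at h3 hB
        have hρ : 1 < q ^ M := one_lt_pow₀ hq1 (by omega)
        generalize q ^ M = R at h1 h2 h3 hρ
        have hR : (0 : ℝ) < R := by linarith
        have hid : 1 = (1 - 1 / R) * (A - Bv) + V / R := by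
          have e1 : a = c + V / R - Bv := by linarith
          have e2 : c = A - A / R := by linarith
          rw [e1, e2] at h1
          have e3 : (1 - 1 / R) * (A - Bv) + V / R = A - A / R + V / R - Bv + Bv / R := by ring
          linarith
        have h5 : 1 / R < 1 := by rw [div_lt_one hR]; exact hρ
        have h6 : V / R < 1 / R := div_lt_div_of_pos_right hafter hR
        have h7 : (1 - 1 / R) * (A - Bv) < (1 - 1 / R) * 1 :=
          mul_lt_mul_of_pos_left (by linarith) (by linarith)
        linarith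
    · -- not a power of two
      have hs1 : s (2 ^ j - 1) = true := by
        have : 1 ≤ 2 ^ j := Nat.one_le_two_pow
        rw [hp1 _ (by omega), show 1 + (2 ^ j - 1) = 2 ^ j by omega, tm_pow]
      have hB := (hU (2 ^ j - 1)).2 hs1
      have h2j : 1 ≤ 2 ^ j := Nat.one_le_two_pow
      rw [show 2 ^ j - 1 + 1 = 2 ^ j by omega] at hB
      have h1 : P q (sh (2 ^ j) s) < P q (fun j => !(sh 1 tm) j) := by
        refine lt_of_left hq1 (p := i - 1) (fun l hl => ?_) ?_ ?_ ?_
        · rw [sh_apply, sh_apply, hp1 _ (by omega), show 1 + (2 ^ j + l) = 2 ^ j + (1 + l) by ring,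
            tm_add_pow j (1 + l) (by omega)]
        · rw [sh_apply, show 2 ^ j + (i - 1) = p by omega]
          exact hp2
        · rw [sh_apply, show 1 + (i - 1) = i by omega, ← tm_add_pow j i hi2, ← hi, add_comm p 1]
          exact hp3
        · rw [sh_sh, show 2 ^ j + (i - 1 + 1) = p + 1 by omega]
          exact hafter
      rw [P_compl hq1] at h1
      linarith
  · have h1 := hU.lt_right hq1 h
    linarith

end Pool.Agent.R341.Uni
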