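import Pool.Agent.R341.Uni6

set_option autoImplicit false

namespace Pool.Agent.R341.Uni

open Filter Topology Set

/-- an uncountable set of reals has a two-sided accumulation point (which lies in the set) -/
lemma exists_two_sided {s : Set ℝ} (hs : ¬ s.Countable) : ∃ x ∈ s, ∀ ε : ℝ, 0 < ε →
    (Ioo (x - ε) x ∩ s).Nonempty ∧ (Ioo x (x + ε) ∩ s).Nonempty := by
  have h1 := countable_setOfPred_isolated_right_within (s := s)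
  have h2 := countable_setOfPred_isolated_left_within (s := s)
  have h3 : ¬ s ⊆ { x ∈ s | 𝓝[s ∩ Ioi x] x = ⊥ } ∪ { x ∈ s | 𝓝[s ∩ Iio x] x = ⊥ } := fun h =>
    hs ((h1.union h2).mono h)
  rw [Set.not_subset] at h3
  obtain ⟨x, hx, hx2⟩ := h3
  refine ⟨x, hx, fun ε hε => ?_⟩
  rw [Set.mem_union, not_or] at hx2
  have e1 : 𝓝[s ∩ Ioi x] x ≠ ⊥ := fun h => hx2.1 ⟨hx, h⟩
  have e2 : 𝓝[s ∩ Iio x] x ≠ ⊥ := fun h => hx2.2 ⟨hx, h⟩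
  have c1 : x ∈ closure (s ∩ Ioi x) := mem_closure_iff_nhdsWithin_neBot.2 ⟨e1⟩
  have c2 : x ∈ closure (s ∩ Iio x) := mem_closure_iff_nhdsWithin_neBot.2 ⟨e2⟩
  obtain ⟨y, hy, hy2⟩ := Metric.mem_closure_iff.1 c1 ε hε
  obtain ⟨z, hz, hz2⟩ := Metric.mem_closure_iff.1 c2 ε hε
  rw [Real.dist_eq, abs_lt] at hy2 hz2
  exact ⟨⟨z, ⟨by linarith, hz.2⟩, hz.1⟩, ⟨y, ⟨hy.2, by linarith⟩, hy.1⟩⟩

end Pool.Agent.R341.Uni
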