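import Pool.Agent.R341.Uni7

set_option autoImplicit false

namespace Pool.Agent.R341.Uni

/-- if all agreements are bounded, then there are admissible sequences slightly below `t` -/
lemma bounded_adm {t : ℕ → Bool} (h : Adm t) {K : ℕ}
    (hb : ∀ n, 1 ≤ n → t n = true → ∃ j < K, Dif t n j) {N N' : ℕ} (hN' : Good t N')
    (hN : Good t N) (h1 : K ≤ N') (h2 : N' < N) (h3 : 2 * K ≤ N) (h4 : 1 ≤ N') (n : ℕ → ℕ)
    (hn0 : n 0 = N) (hn1 : ∀ i, n (i + 1) = N') (hn : ∀ i, 1 ≤ n i) : Adm (bl t n hn) := by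
  have hle : ∀ i, n i ≤ N := fun i => by
    rcases Nat.eq_zero_or_pos i with rfl | hi
    · exact hn0.le
    · obtain ⟨i', rfl⟩ : ∃ i', i = i' + 1 := ⟨i - 1, by omega⟩
      rw [hn1]; exact h2.le
  have hg : ∀ i, Good t (n i) := fun i => by
    rcases Nat.eq_zero_or_pos i with rfl | hi
    · rw [hn0]; exact hN
    · obtain ⟨i', rfl⟩ : ∃ i', i = i' + 1 := ⟨i - 1, by omega⟩
      rw [hn1]; exact hN'
  have hsmall : ∀ j, j < N → bl t n hn j = t j := fun j hj => by
    have := bl_eq (w := t) hn (i := 0) (o := j) (by rw [hn0]; exact hj)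
    simpa [st] using this
  refine ⟨by rw [hsmall 0 (by omega)]; exact h.1, fun m hm => ?_⟩
  obtain ⟨i, o, ho, rfl⟩ := exists_block hn m
  have hblock : ∀ j, o + j < n i → bl t n hn (st n i + o + j) = t (o + j) :=
    fun j hj => by rw [add_assoc, bl_eq hn hj]
  have hnextb : ∀ j, j < N' → bl t n hn (st n i + n i + j) = t j :=
    fun j hj => by rw [← st_succ, bl_eq hn (by rw [hn1]; exact hj)]
  have hb0 : bl t n hn (st n i + o) = t o := bl_eq hn ho
  have hlei := hle i
  rcases Nat.eq_zero_or_pos o with rfl | ho1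
  · have hi : 1 ≤ i := by
      rcases Nat.eq_zero_or_pos i with rfl | hi
      · simp [st] at hm
      · exact hi
    obtain ⟨i', rfl⟩ : ∃ i', i = i' + 1 := ⟨i - 1, by omega⟩
    rw [hn1] at hblock hnextb
    refine ⟨N', fun j hj => ?_, ?_, ?_⟩
    · simp only [sh_apply, add_zero] at hblock hb0 ⊢
      rw [hblock j (by omega), hb0, h.1, zero_add, hsmall j (by omega)]
      simp
    · simp only [sh_apply, add_zero] at hb0 ⊢
      have := hnextb 0 (by omega)
      rw [add_zero] at this
      rw [hb0, this]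
      simp
    · rw [hsmall _ h2]; exact hN'.1
  · obtain ⟨k, hk0, hk1, hk2, hk3, hk4⟩ := h.first ho1
    rcases Nat.lt_or_ge k (n i - o) with h5 | h5
    · refine ⟨k, fun j hj => ?_, ?_, ?_⟩
      · simp only [sh_apply, add_zero]
        rw [hblock j (by omega), hb0, hsmall j (by omega)]
        exact hk1 j hj
      · simp only [sh_apply, add_zero]
        rw [hblock k (by omega), hb0]
        exact hk2
      · rw [hsmall k (by omega)]; exact hk3
    · obtain ⟨r, hr⟩ : ∃ r, n i = o + r := ⟨n i - o, by omega⟩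
      have hr1 : 1 ≤ r := by omega
      have hrk : r ≤ k := by omega
      have htn : t (o + r) = true := by rw [← hr]; exact (hg i).1
      have hbr : bl t n hn (st n i + o + r) = false := by
        have := hnextb 0 (by omega)
        rw [add_zero, h.1] at this
        rw [add_assoc, ← hr, this]
      cases hto : t o
      · rw [hto] at hk1 hk2 hb0
        simp only [Bool.xor_false] at hk1 hk2
        have htr : t r = true := by
          rcases Nat.lt_or_ge r k with h6 | h6
          · rw [← hk1 r h6]; exact htn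
          · obtain rfl : r = k := by omega
            exact hk3
        refine ⟨r, fun j hj => ?_, ?_, ?_⟩
        · simp only [sh_apply, add_zero]
          rw [hblock j (by omega), hb0, hsmall j (by omega), ← hk1 j (by omega)]
          simp
        · simp only [sh_apply, add_zero]
          rw [hbr, hb0]; rfl
        · rw [hsmall r (by omega)]; exact htr
      · obtain ⟨j0, hj0, hj0'⟩ := (hg i).2 o ho1 ho hto
        have hkr : k = r := by
          have := hk4 j0 hj0'
          omega
        subst hkr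
        have hkK : k < K := by
          obtain ⟨j, hj, hj'⟩ := hb o ho1 hto
          exact lt_of_le_of_lt (hk4 j hj') hj
        rw [hto] at hk1 hk2 hb0
        obtain ⟨k', hk0', hk1', hk2', hk3', hk4'⟩ := h.first hr1
        have hkK' : k' < K := by
          obtain ⟨j, hj, hj'⟩ := hb k hr1 hk3
          exact lt_of_le_of_lt (hk4' j hj') hj
        rw [hk3] at hk1' hk2'
        simp only [Bool.xor_true] at hk1' hk2' hk1 hk2
        have hnb : ∀ j, j < N' → bl t n hn (st n i + o + (k + j)) = t j := fun j hj => by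
          rw [← hnextb j hj, hr]
          congr 1
          ring
        refine ⟨k + k', fun j hj => ?_, ?_, ?_⟩
        · simp only [sh_apply, add_zero]
          rcases Nat.lt_or_ge j k with h6 | h6
          · rw [hblock j (by omega), hb0, hsmall j (by omega), ← hk1 j h6]
            simp
          · obtain ⟨j', rfl⟩ : ∃ j', j = k + j' := ⟨j - k, by omega⟩
            rw [hnb j' (by omega), hb0, hsmall _ (by omega), ← hk1' j' (by omega)]
            simp
        · simp only [sh_apply, add_zero]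
          rw [hnb k' (by omega), hb0, hk3']
          rfl
        · rw [hsmall _ (by omega)]
          simpa using hk2'

/-- a left-isolated element of `Ux 1` has unbounded agreements -/
lemma unb_of_isolated {Q q0 : ℝ} (hq0 : q0 < Q) (hQU : Q ∈ Ux 1)
    (hiso : Set.Ioo q0 Q ∩ Ux 1 = ∅) : ∃ t, Adm t ∧ P Q (sh 1 t) = 1 ∧
      ∀ K, ∃ n, 1 ≤ n ∧ t n = true ∧ ∀ j < K, ¬ Dif t n j := by
  obtain ⟨hQ1, hQ2, α, hα, hU⟩ := mem_Ux.1 hQU
  have hsα : sh 1 (cons false α) = α := sh_cons _ _
  have ht : Adm (cons false α) := adm_of_un hQ1 rfl (by rw [hsα]; exact hα) (by rw [hsα]; exact hU)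
  refine ⟨cons false α, ht, by rw [hsα]; exact hα, ?_⟩
  set t := cons false α with htdef
  by_contra hc
  push Not at hc
  obtain ⟨K, hK⟩ := hc
  -- the intermediate base
  obtain ⟨q1, hq1, hq1Q⟩ := exists_between (max_lt hq0 hQ1)
  have hq10 : q0 < q1 := lt_of_le_of_lt (le_max_left _ _) hq1
  have hq11 : 1 < q1 := lt_of_le_of_lt (le_max_right _ _) hq1
  have hδ : 1 < P q1 α := by
    rw [← hα]
    refine P_strict hq11 hq1Q α (n := 0) ?_
    have := ht.t1
    rw [htdef] at this
    simpa [cons] using this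
  obtain ⟨B, hB⟩ : ∃ B : ℕ, ∀ n, B ≤ n → 1 / (q1 - 1) / q1 ^ n < P q1 α - 1 := by
    have hlim : Filter.Tendsto (fun n : ℕ => 1 / (q1 - 1) / q1 ^ n) Filter.atTop (nhds 0) := by
      have h5 : Filter.Tendsto (fun n : ℕ => (1 / (q1 - 1)) * (1 / q1) ^ n) Filter.atTop
          (nhds ((1 / (q1 - 1)) * 0)) :=
        (tendsto_pow_atTop_nhds_zero_of_lt_one (by positivity)
          (by rw [div_lt_one (by linarith)]; exact hq11)).const_mul _
      rw [mul_zero] at h5
      refine h5.congr fun n => ?_
      rw [one_div_pow, mul_one_div]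
    have := hlim.eventually (gt_mem_nhds (show 0 < P q1 α - 1 by linarith))
    rw [Filter.eventually_atTop] at this
    exact this
  obtain ⟨N', hN'1, hN'2⟩ := exists_good' ht (K + 1)
  obtain ⟨N, hN1, hN2⟩ := exists_good' ht (max (B + 1) (max (2 * K) (N' + 1)))
  have e1 : B + 1 ≤ N := le_trans (le_max_left _ _) hN1
  have e2 : 2 * K ≤ N := le_trans (le_trans (le_max_left _ _) (le_max_right _ _)) hN1
  have e3 : N' + 1 ≤ N := le_trans (le_trans (le_max_right _ _) (le_max_right _ _)) hN1
  let n : ℕ → ℕ := fun i => if i = 0 then N else N'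
  have hn : ∀ i, 1 ≤ n i := fun i => by
    simp only [n]; split_ifs <;> omega
  have hn1 : ∀ i, n (i + 1) = N' := fun i => by simp [n]
  have ht' := bounded_adm ht (fun n h1 h2 => by
      obtain ⟨j, hj, hj2⟩ := hK n h1 h2
      exact ⟨j, hj, hj2⟩) hN'2 hN2 (by omega) (by omega) e2 (by omega) n rfl hn1 hn
  set t' := bl t n hn with ht'def
  have hsmall : ∀ j, j < N → t' j = t j := fun j hj => by
    have := bl_eq (w := t) hn (i := 0) (o := j) (by simpa [n] using hj)
    simpa [st] using this
  have hN0 : t' N = false := by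
    have := bl_eq (w := t) hn (i := 1) (o := 0) (hn 1)
    rw [st_succ] at this
    simp only [st, add_zero, zero_add, n, if_true] at this
    rw [ht'def, this]; exact ht.1
  have hlow : P Q (sh 1 t') < 1 := by
    rw [← hα]
    refine hU.lt_right hQ1 ⟨N - 1, fun i hi => ?_, ?_, ?_⟩
    · rw [sh_apply, hsmall _ (by omega), htdef]
      simp [cons]
    · rw [sh_apply, show 1 + (N - 1) = N by omega]; exact hN0
    · have := hN2.1
      rw [htdef] at this
      have hN0' : N ≠ 0 := by omega
      simpa [cons, hN0'] using this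
  have hup : 1 < P q1 (sh 1 t') := by
    have h1 : P q1 α ≤ P q1 (sh 1 t') + 1 / (q1 - 1) / q1 ^ (N - 1) := by
      refine P_agree hq11 fun i hi => ?_
      rw [sh_apply, hsmall _ (by omega), htdef]
      simp [cons]
    have h2 := hB (N - 1) (by omega)
    linarith
  obtain ⟨q', h1, h2, h3⟩ := P_ivt hq11 hq1Q.le (sh 1 t') hlow hup
  have hU' : Un q' (sh 1 t') := by
    refine lexnum (by linarith) ht'.1 ht'.inf h3 fun m => ?_
    rw [sh_sh]
    exact ht'.2 _ (by omega)
  have : q' ∈ Set.Ioo q0 Q ∩ Ux 1 :=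
    ⟨⟨by linarith, h2⟩, mem_Ux.2 ⟨by linarith, by linarith, _, h3, hU'⟩⟩
  rw [hiso] at this
  exact this

/-- an uncountable set of reals has uncountably many accumulation points -/
lemma uncountable_acc {s : Set ℝ} (hs : ¬ s.Countable) :
    ¬ {y : ℝ | ∀ ε : ℝ, 0 < ε → (Set.Ioo (y - ε) (y + ε) ∩ s).Infinite}.Countable := by
  open Filter Topology Set in
  have h1 := countable_setOfPred_isolated_right_within (s := s)
  intro h2
  apply hs
  refine (h1.union h2).mono fun x hx => ?_
  by_cases h3 : 𝓝[s ∩ Ioi x] x = ⊥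
  · exact Or.inl ⟨hx, h3⟩
  · right
    have c1 : x ∈ closure (s ∩ Ioi x) := mem_closure_iff_nhdsWithin_neBot.2 ⟨h3⟩
    intro ε hε hfin
    have hne : ∀ δ : ℝ, 0 < δ → ∃ y ∈ s, x < y ∧ y < x + δ := by
      intro δ hδ
      obtain ⟨y, hy, hy2⟩ := Metric.mem_closure_iff.1 c1 δ hδ
      rw [Real.dist_eq, abs_lt] at hy2
      exact ⟨y, hy.1, hy.2, by linarith⟩
    have hfin2 : (Ioo x (x + ε) ∩ s).Finite :=
      hfin.subset fun y hy => ⟨⟨by linarith [hy.1.1], hy.1.2⟩, hy.2⟩
    obtain ⟨y, hy1, hy2, hy3⟩ := hne ε hε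
    obtain ⟨m, hm, hmin⟩ := hfin2.exists_minimal ⟨y, ⟨hy2, hy3⟩, hy1⟩
    obtain ⟨z, hz1, hz2, hz3⟩ := hne (m - x) (by linarith [hm.1.1])
    have hzm : z < m := by linarith
    have := hmin (y := z) ⟨⟨hz2, by linarith [hm.1.2]⟩, hz1⟩ hzm.le
    linarith

end Pool.Agent.R341.Uni
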