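import Pool.Agent.R341.Uni8

set_option autoImplicit false

namespace Pool.Agent.R341.Uni

open Filter Topology

/-- the weak form of the condition for unique expansions -/
def WU (q : ℝ) (d : ℕ → Bool) : Prop :=
  ∀ n, (d n = false → P q (sh (n + 1) d) ≤ 1) ∧
    (d n = true → 1 / (q - 1) - 1 ≤ P q (sh (n + 1) d))

lemma Un.wu {q : ℝ} {d : ℕ → Bool} (h : Un q d) : WU q d := fun n =>
  ⟨fun hn => ((h n).1 hn).le, fun hn => ((h n).2 hn).le⟩

lemma WU.compl {q : ℝ} (hq : 1 < q) {d : ℕ → Bool} (h : WU q d) : WU q (fun i => !d i) := by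
  intro n
  have h1 := h n
  have e : Uni.sh (n + 1) (fun i => !d i) = fun i => !(Uni.sh (n + 1) d i) := rfl
  rw [e, P_compl hq]
  constructor
  · intro hn
    have := h1.2 (by simpa using hn)
    linarith
  · intro hn
    have := h1.1 (by simpa using hn)
    linarith

lemma WU.half {q q' : ℝ} (hq : 1 < q) (hqq : q < q') {d : ℕ → Bool} (h : WU q d) (n : ℕ)
    (hn : d n = false) : P q' (Uni.sh (n + 1) d) < 1 := by
  by_cases hex : ∃ m, Uni.sh (n + 1) d m = true
  · obtain ⟨m, hm⟩ := hex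
    exact lt_of_lt_of_le (P_strict hq hqq _ hm) ((h n).1 hn)
  · push Not at hex
    have : Uni.sh (n + 1) d = fun _ => false := funext fun m => by simpa using hex m
    rw [this, P_zeros]
    norm_num

lemma WU.un {q q' : ℝ} (hq : 1 < q) (hqq : q < q') {d : ℕ → Bool} (h : WU q d) : Un q' d := by
  intro n
  refine ⟨h.half hq hqq n, fun hn => ?_⟩
  have h2 := (h.compl hq).half hq hqq n (by simpa using hn)
  have e : Uni.sh (n + 1) (fun i => !d i) = fun i => !(Uni.sh (n + 1) d i) := rfl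
  rw [e, P_compl (by linarith)] at h2
  linarith

lemma wlt_of_left {q : ℝ} (hq : 1 < q) {d e : ℕ → Bool} {p : ℕ} (h : ∀ i < p, d i = e i)
    (hd : d p = false) (he : e p = true) (h1 : P q (sh (p + 1) d) ≤ 1) : P q d ≤ P q e := by
  have h0 := diff_eq hq h
  have h2 : 0 ≤ P q (sh p e) - P q (sh p d) := by
    rw [P_succ hq (sh p e), P_succ hq (sh p d), sh_sh, sh_sh, sh_apply, sh_apply, add_zero, hd, he,
      ← sub_div]
    apply div_nonneg _ (by linarith)
    have := P_nonneg hq (sh (p + 1) e)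
    simp only [dg_true, dg_false]
    linarith
  have h3 : 0 ≤ (P q (sh p e) - P q (sh p d)) / q ^ p := div_nonneg h2 (by positivity)
  linarith

lemma wlt_of_right {q : ℝ} (hq : 1 < q) {d e : ℕ → Bool} {p : ℕ} (h : ∀ i < p, d i = e i)
    (hd : d p = false) (he : e p = true) (h1 : 1 / (q - 1) - 1 ≤ P q (sh (p + 1) e)) :
    P q d ≤ P q e := by
  have h0 := diff_eq hq h
  have h2 : 0 ≤ P q (sh p e) - P q (sh p d) := by
    rw [P_succ hq (sh p e), P_succ hq (sh p d), sh_sh, sh_sh, sh_apply, sh_apply, add_zero, hd, he,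
      ← sub_div]
    apply div_nonneg _ (by linarith)
    have := P_le hq (sh (p + 1) d)
    simp only [dg_true, dg_false]
    linarith
  have h3 : 0 ≤ (P q (sh p e) - P q (sh p d)) / q ^ p := div_nonneg h2 (by positivity)
  linarith

/-- joint continuity -/
lemma P_tendsto {q : ℝ} (hq : 1 < q) {D : ℕ → Bool} {u : ℕ → ℝ} {d : ℕ → ℕ → Bool}
    (hu : Tendsto u atTop (𝓝 q)) (hd : Tendsto d atTop (𝓝 D)) :
    Tendsto (fun k => P (u k) (d k)) atTop (𝓝 (P q D)) := by
  obtain ⟨r, hr1, hr2⟩ := exists_between hq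
  have hsum := (hasSum_ones hr1).summable
  refine tendsto_tsum_of_dominated_convergence (bound := fun i : ℕ => 1 / r ^ (i + 1)) hsum
    (fun i => ?_) ?_
  · have h1 : Tendsto (fun k => dg (d k i)) atTop (𝓝 (dg (D i))) := by
      have hc : Continuous dg := continuous_of_discreteTopology
      exact (hc.tendsto _).comp ((tendsto_pi_nhds.1 hd) i)
    exact h1.div (hu.pow _) (by positivity)
  · filter_upwards [hu.eventually (lt_mem_nhds hr2)] with k hk i
    have hk1 : 1 < u k := by linarith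
    rw [Real.norm_eq_abs, abs_of_nonneg (div_nonneg (dg_nonneg _) (by positivity))]
    exact div_le_div₀ zero_le_one (dg_le _) (by positivity)
      (pow_le_pow_left₀ (by linarith) hk.le _)

lemma sh_tendsto {D : ℕ → Bool} {d : ℕ → ℕ → Bool} (hd : Tendsto d atTop (𝓝 D)) (m : ℕ) :
    Tendsto (fun k => sh m (d k)) atTop (𝓝 (sh m D)) := by
  rw [tendsto_pi_nhds] at hd ⊢
  intro i
  exact hd (m + i)

lemma agree_eventually {D : ℕ → Bool} {d : ℕ → ℕ → Bool} (hd : Tendsto d atTop (𝓝 D)) (N : ℕ) :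
    ∀ᶠ k in atTop, ∀ i < N, d k i = D i := by
  rw [tendsto_pi_nhds] at hd
  have h1 : ∀ i, ∀ᶠ k in atTop, d k i = D i := fun i => by
    have := hd i
    rw [nhds_discrete, tendsto_pure] at this
    exact this
  induction N with
  | zero => exact Eventually.of_forall fun k i hi => absurd hi (by omega)
  | succ N ih =>
    filter_upwards [ih, h1 N] with k hk1 hk2 i hi
    rcases Nat.lt_or_ge i N with h | h
    · exact hk1 i h
    · rw [show i = N by omega]; exact hk2

lemma WU.lim {q : ℝ} (hq : 1 < q) {D : ℕ → Bool} {u : ℕ → ℝ} {d : ℕ → ℕ → Bool}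
    (hu : Tendsto u atTop (𝓝 q)) (hd : Tendsto d atTop (𝓝 D)) (h : ∀ k, WU (u k) (d k)) :
    WU q D := by
  intro n
  have hev := agree_eventually hd (n + 1)
  have hP := P_tendsto hq hu (sh_tendsto hd (n + 1))
  constructor
  · intro hn
    refine le_of_tendsto hP ?_
    filter_upwards [hev] with k hk
    exact (h k n).1 (by rw [hk n (by omega)]; exact hn)
  · intro hn
    have hA : Tendsto (fun k => 1 / (u k - 1) - 1) atTop (𝓝 (1 / (q - 1) - 1)) := by
      have : q - 1 ≠ 0 := by linarith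
      exact ((tendsto_const_nhds (x := (1 : ℝ))).div (hu.sub_const 1) this).sub_const 1
    refine le_of_tendsto_of_tendsto hA hP ?_
    filter_upwards [hev] with k hk
    exact (h k n).2 (by rw [hk n (by omega)]; exact hn)

/-- weak expansions for points of the level set -/
lemma exists_weak {Q y : ℝ} (hQ : 1 < Q) (h : sInf (Ux y) = Q) : ∃ D, WU Q D ∧ P Q D = y := by
  have hne : (Ux y).Nonempty := by
    by_contra hc
    rw [Set.not_nonempty_iff_eq_empty] at hc
    rw [hc, Real.sInf_empty] at h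
    linarith
  have hbdd : BddBelow (Ux y) := ⟨1, fun q hq => hq.1.le⟩
  have hex : ∀ k : ℕ, ∃ q ∈ Ux y, q < Q + 1 / ((k : ℝ) + 1) := fun k => by
    have : sInf (Ux y) < Q + 1 / ((k : ℝ) + 1) := by
      rw [h]
      have : (0 : ℝ) < 1 / ((k : ℝ) + 1) := by positivity
      linarith
    exact exists_lt_of_csInf_lt hne this
  choose u hu1 hu2 using hex
  have hu3 : ∀ k, Q ≤ u k := fun k => by rw [← h]; exact csInf_le hbdd (hu1 k)
  have hlim : Tendsto u atTop (𝓝 Q) := by
    have h1 : Tendsto (fun k : ℕ => Q + 1 / ((k : ℝ) + 1)) atTop (𝓝 (Q + 0)) :=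
      tendsto_const_nhds.add tendsto_one_div_add_atTop_nhds_zero_nat
    rw [add_zero] at h1
    exact tendsto_of_tendsto_of_tendsto_of_le_of_le tendsto_const_nhds h1 hu3 fun k => (hu2 k).le
  have hex2 : ∀ k, ∃ d, P (u k) d = y ∧ Un (u k) d := fun k => (mem_Ux.1 (hu1 k)).2.2
  choose d hd1 hd2 using hex2
  obtain ⟨D, φ, hφ, hD⟩ := CompactSpace.tendsto_subseq d
  have hlim' : Tendsto (fun k => u (φ k)) atTop (𝓝 Q) := hlim.comp hφ.tendsto_atTop
  refine ⟨D, WU.lim hQ hlim' hD fun k => (hd2 _).wu, ?_⟩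
  have h2 := P_tendsto hQ hlim' hD
  refine tendsto_nhds_unique h2 ?_
  refine tendsto_const_nhds.congr fun k => ?_
  exact (hd1 _).symm

end Pool.Agent.R341.Uni
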